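import Mathlib

section

namespace Pool.Agent.MP_71da5e_an.L

open MeasureTheory Metric Set Laplacian
open scoped ContDiff RealInnerProductSpace

/-- Euclidean space. -/
abbrev E (n : ℕ) : Type := EuclideanSpace ℝ (Fin n)

variable {n : ℕ}

/-- The `L²` norm on the ball of radius `ρ` about the origin. -/
noncomputable def nb (ρ : ℝ) (u : E n → ℂ) : ℝ := √(∫ x in ball (0 : E n) ρ, ‖u x‖ ^ 2)

/-- The `L²` norm of `Δ u - q u` on the ball of radius `1 / 2`. -/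
noncomputable def res (q u : E n → ℂ) : ℝ := nb (1 / 2) fun x => Δ u x - q x * u x

/-- Measurable and bounded. -/
def Bdd (q : E n → ℂ) : Prop := Measurable q ∧ ∃ C : ℝ, ∀ x, ‖q x‖ ≤ C

/-- The estimate that the boundary data give, after the Kelvin transform. -/
def Hcore (q₁ q₂ f : E n → ℂ) : Prop :=
  ∃ C : ℝ, ∀ u₁ u₂ : E n → ℂ, ContDiff ℝ ∞ u₁ → ContDiff ℝ ∞ u₂ →
    ‖∫ x, f x * u₁ x * u₂ x‖ ≤
      C * ((nb (2 / 5) u₁ + res q₁ u₁) * (nb (1 / 2) u₂ + res q₂ u₂) +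
        (nb (1 / 2) u₁ + res q₁ u₁) * (nb (2 / 5) u₂ + res q₂ u₂))

/-- The local theorem. -/
def CoreStmt : Prop :=
  ∀ n : ℕ, 3 ≤ n → ∀ q₁ q₂ f : E n → ℂ, Bdd q₁ → Bdd q₂ → Bdd f →
    (∀ x, 1 / 2 < ‖x‖ → f x = 0) → Hcore q₁ q₂ f → ∀ e : E n, ‖e‖ = 1 →
      ∃ c : ℝ, 0 < c ∧ ∀ᵐ x : E n, 1 / 2 - c < ⟪x, e⟫ → f x = 0

end Pool.Agent.MP_71da5e_an.L

end

section

namespace Pool.Agent.MP_71da5e_an.L

open MeasureTheory Metric Set Laplacian Complex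
open scoped ContDiff RealInnerProductSpace ENNReal Real ComplexConjugate

variable {n : ℕ}

/-! ### Complex vectors -/

/-- Complex vectors. -/
abbrev V (n : ℕ) : Type := Fin n → ℂ

/-- The bilinear dot product. -/
noncomputable def bd (u v : V n) : ℂ := ∑ k, u k * v k

/-- The square of the Hermitian norm. -/
noncomputable def nsq (u : V n) : ℝ := ∑ k, ‖u k‖ ^ 2

/-- A real vector as a complex vector. -/
noncomputable def rc (a : E n) : V n := fun k => (a k : ℂ)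

/-- The vector `a + i b`. -/
noncomputable def zc (a b : E n) : V n := fun k => (a k : ℂ) + (b k : ℂ) * I

/-- The number `(a + i b) · (a + i b)`. -/
noncomputable def pz (a b : E n) : ℂ := bd (zc a b) (zc a b)

/-- The real part. -/
noncomputable def reV (v : V n) : E n := WithLp.toLp 2 fun k => (v k).re

/-- The imaginary part. -/
noncomputable def imV (v : V n) : E n := WithLp.toLp 2 fun k => (v k).im

/-- Twice the antiholomorphic derivative. -/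
noncomputable def db (g : ℂ → ℂ) (p : ℂ) : ℂ := fderiv ℝ g p 1 + I * fderiv ℝ g p I

/-- A regularisation `g` of `1 / p` together with a square root `γ` of its defect. -/
structure Reg (lam tau : ℝ) where
  g : ℂ → ℂ
  γ : ℂ → ℂ
  g_smooth : ContDiff ℝ ∞ g
  γ_smooth : ContDiff ℝ ∞ γ
  g_le : ∀ p, ‖p * g p‖ ≤ 1
  one_sub : ∀ p, ‖1 - p * g p‖ ≤ 1
  g_eq : ∀ p, lam ≤ ‖p‖ → p * g p = 1
  γ_zero : ∀ p, lam < ‖p‖ → γ p = 0
  dg : ∀ p, db g p = ((2 * ‖γ p‖ ^ 2 : ℝ) : ℂ)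
  mass : ∫⁻ p, ENNReal.ofReal (‖γ p‖ ^ 2) = ENNReal.ofReal π
  err : ∫⁻ p, ENNReal.ofReal (‖p * db γ p‖ ^ 2) ≤ ENNReal.ofReal tau

/-- The density `|γ|²`. -/
noncomputable def Reg.ph {lam tau : ℝ} (ρ : Reg lam tau) (p : ℂ) : ℝ := ‖ρ.γ p‖ ^ 2

/-- The Gaussian centred at `η₀`. -/
noncomputable def gs (η₀ η : E n) : ℝ≥0∞ := ENNReal.ofReal (Real.exp (-π * ‖η - η₀‖ ^ 2))

/-! ### The Hilbert space -/

/-- Lebesgue measure on the unit ball. -/
noncomputable def mu (n : ℕ) : Measure (E n) := volume.restrict (ball 0 1)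

/-- `L²` of the unit ball. -/
abbrev H (n : ℕ) : Type := Lp ℂ 2 (mu n)

open Classical in
/-- The class of a function in `L²` of the unit ball. -/
noncomputable def toH (u : E n → ℂ) : H n := if h : MemLp u 2 (mu n) then h.toLp u else 0

/-- The bilinear pairing. -/
noncomputable def pr : H n →L[ℂ] H n →L[ℂ] ℂ := (ContinuousLinearMap.mul ℂ ℂ).lpPairing (mu n) 2 2

open Classical in
/-- Multiplication by a bounded function. -/
noncomputable def mulH (w : E n → ℂ) : H n →L[ℂ] H n :=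
  if h : MemLp w ⊤ (mu n) then (ContinuousLinearMap.mul ℂ ℂ).holderL (mu n) ⊤ 2 2 (h.toLp w) else 0

/-- The exponential `exp (2 π (a + i b) · x)`. -/
noncomputable def exf (a b x : E n) : ℂ :=
  Complex.exp (2 * π * (((⟪a, x⟫ : ℝ) : ℂ) + ((⟪b, x⟫ : ℝ) : ℂ) * I))

/-- The exponential as an element of the Hilbert space. -/
noncomputable def ex (a b : E n) : H n := toH (exf a b)

/-- Multiplication by `exp (2 π a · x)`. -/
noncomputable def Mx (a : E n) : H n →L[ℂ] H n := mulH (exf a 0)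

/-- `Δ u = g` in the unit ball in the sense of distributions. -/
def Wk (u g : H n) : Prop :=
  ∀ φ : E n → ℂ, ContDiff ℝ ∞ φ → tsupport φ ⊆ ball 0 1 → pr u (toH (Δ φ)) = pr g (toH φ)

/-- The estimate `Hcore` for weak solutions. -/
def HcoreW (q₁ q₂ f : E n → ℂ) (C : ℝ) : Prop :=
  ∀ u₁ g₁ u₂ g₂ : H n, Wk u₁ g₁ → Wk u₂ g₂ →
    ‖pr (mulH f u₁) u₂‖ ≤
      C * ((nb (2 / 5) u₁ + nb (1 / 2) fun x => g₁ x - q₁ x * u₁ x) *
          (nb (1 / 2) u₂ + nb (1 / 2) fun x => g₂ x - q₂ x * u₂ x) +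
        (nb (1 / 2) u₁ + nb (1 / 2) fun x => g₁ x - q₁ x * u₁ x) *
          (nb (2 / 5) u₂ + nb (1 / 2) fun x => g₂ x - q₂ x * u₂ x))

/-- The regularised Faddeev operators. -/
structure Gop (n : ℕ) (C : ℝ) {lam tau : ℝ} (ρ : Reg lam tau) where
  G : E n → H n →L[ℂ] H n
  Gt : E n → H n →L[ℂ] H n
  c1 : ContDiff ℝ 1 G
  dG : ∀ a δ h, fderiv ℝ G a δ h = ∫ η, ((((π ^ 2)⁻¹ : ℝ) : ℂ) * conj (bd (rc δ) (zc a η)) *
    (ρ.ph (pz a η) : ℂ) * pr h (ex (-a) (-η))) • ex a η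
  cj : ∀ a h, G a (Mx a h) = Mx a (Gt a h)
  nrm : ∀ a, 4 ≤ ‖a‖ → ‖Gt a‖ ≤ C / ‖a‖
  weak : ∀ a, 4 ≤ ‖a‖ → ∀ h, ∃ k : H n, ‖k‖ ≤ C * lam * ‖h‖ ∧ Wk (G a (Mx a h)) (Mx a (h - k))
  eb : ∀ a, 4 ≤ ‖a‖ → ∀ h : H n,
    ∫⁻ η, ENNReal.ofReal (ρ.ph (pz a η) * ‖pr h (ex 0 η)‖ ^ 2) ≤
        ENNReal.ofReal (C / ‖a‖ ^ 2 * ‖h‖ ^ 2) ∧
      ∫⁻ η, ENNReal.ofReal (ρ.ph (pz a η) * ‖pr h (ex 0 (-η))‖ ^ 2) ≤
        ENNReal.ofReal (C / ‖a‖ ^ 2 * ‖h‖ ^ 2)

/-- The regularised Faddeev solutions for the potential `q`. -/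
structure Cgo (q : E n → ℂ) (C a₀ : ℝ) {lam tau : ℝ} (ρ : Reg lam tau) where
  u : E n × E n → H n
  U : E n × E n → H n
  t : E n → E n → E n → ℂ
  c1 : ContDiffOn ℝ 1 u {y | a₀ < ‖y.1‖}
  cj : ∀ y, a₀ < ‖y.1‖ → u y = Mx y.1 (U y)
  bdd : ∀ y, a₀ < ‖y.1‖ → ‖U y‖ ≤ C
  lim : ∀ y, a₀ < ‖y.1‖ → ‖U y - ex 0 y.2‖ ≤ C / ‖y.1‖
  weak : ∀ y, a₀ < ‖y.1‖ → ‖pz y.1 y.2‖ ≤ lam →
    ∃ k : H n, ‖k‖ ≤ C * lam ∧ Wk (u y) (mulH q (u y) + Mx y.1 k)
  tc : ∀ a, a₀ < ‖a‖ → Continuous fun y : E n × E n => t a y.1 y.2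
  dbar : ∀ y, a₀ < ‖y.1‖ → ∀ δ : E n, fderiv ℝ u y (δ, 0) + I • fderiv ℝ u y (0, δ) =
    ∫ η, (conj (bd (rc δ) (zc y.1 η)) * (ρ.ph (pz y.1 η) : ℂ) * t y.1 y.2 η) • u (y.1, η)
  tb : ∀ a, a₀ < ‖a‖ → ∀ h : E n → ℂ, Continuous h →
    ∫⁻ b, ENNReal.ofReal (ρ.ph (pz a b) * ‖∫ η, (ρ.ph (pz a η) : ℂ) * t a b η * h η‖ ^ 2) ≤
      ENNReal.ofReal (C / ‖a‖ ^ 4) * ∫⁻ η, ENNReal.ofReal (ρ.ph (pz a η) * ‖h η‖ ^ 2)

/-! ### The parameter space -/

/-- The base: points `(s, r)`. -/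
abbrev B (n : ℕ) : Type := ℝ × E n

/-- The parameter space: points `((s, r), (b₁, b₂))`. -/
abbrev X (n : ℕ) : Type := B n × (E n × E n)

/-- `a₁ = s e / 2 + r`. -/
noncomputable def a1 (e : E n) (p : B n) : E n := (p.1 / 2) • e + p.2

/-- `a₂ = s e / 2 - r`. -/
noncomputable def a2 (e : E n) (p : B n) : E n := (p.1 / 2) • e - p.2

/-- `ζ₁`. -/
noncomputable def z1 (e : E n) (x : X n) : V n := zc (a1 e x.1) x.2.1

/-- `ζ₂`. -/
noncomputable def z2 (e : E n) (x : X n) : V n := zc (a2 e x.1) x.2.2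

/-- `ζ₁ · ζ₁`. -/
noncomputable def p1 (e : E n) (x : X n) : ℂ := pz (a1 e x.1) x.2.1

/-- `ζ₂ · ζ₂`. -/
noncomputable def p2 (e : E n) (x : X n) : ℂ := pz (a2 e x.1) x.2.2

/-- The density on the parameter space. -/
noncomputable def pp {lam tau : ℝ} (ρ : Reg lam tau) (e : E n) (x : X n) : ℝ :=
  ρ.ph (p1 e x) * ρ.ph (p2 e x)

/-- The increment of `ζ₁` along `W = (dw, dμ)`. -/
noncomputable def X1 (e : E n) (W : ℂ × V n) : V n := fun k => W.1 * (e k : ℂ) / 2 + W.2 k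

/-- The increment of `ζ₂` along `W = (dw, dμ)`. -/
noncomputable def X2 (e : E n) (W : ℂ × V n) : V n := fun k => W.1 * (e k : ℂ) / 2 - W.2 k

/-- The real tangent vector that belongs to `W`. -/
noncomputable def sg (e : E n) (W : ℂ × V n) : X n :=
  ((W.1.re, reV W.2), (imV (X1 e W), imV (X2 e W)))

/-- Twice the antiholomorphic derivative along `W`. -/
noncomputable def dbar (e : E n) (F : X n → ℂ) (x : X n) (W : ℂ × V n) : ℂ :=
  fderiv ℝ F x (sg e W) + I * fderiv ℝ F x (sg e (I • W))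

/-- The second derivative along `u`. -/
noncomputable def D2 (m : B n → ℝ) (p u : B n) : ℝ := fderiv ℝ (fun q => fderiv ℝ m q u) p u

/-- Four times the Levi form along `W`. -/
noncomputable def lev (m : B n → ℝ) (p : B n) (W : ℂ × V n) : ℝ :=
  D2 m p (W.1.re, reV W.2) + D2 m p (W.1.im, imV W.2)

/-- The vector `((e · ζ₁) ζ₂ + (e · ζ₂) ζ₁) / 2`. -/
noncomputable def nv (e : E n) (ζ : V n × V n) : V n :=
  fun k => (bd (rc e) ζ.1 * ζ.2 k + bd (rc e) ζ.2 * ζ.1 k) / 2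

/-- The fields of the first family. -/
noncomputable def fH (e : E n) (l m : Fin n) (ζ : V n × V n) : ℂ × V n :=
  (ζ.1 l * ζ.2 m - ζ.1 m * ζ.2 l,
    fun k => (if k = m then nv e ζ l else 0) - if k = l then nv e ζ m else 0)

/-- The fields of the second family. -/
noncomputable def fL (k : Fin n) (ζ : V n × V n) : ℂ × V n :=
  (0, fun i => ζ.1 k * ζ.2 i + ζ.2 k * ζ.1 i - if i = k then bd ζ.1 ζ.2 else 0)

/-- The pair `(ζ₁, ζ₂)`. -/
noncomputable def zz (e : E n) (x : X n) : V n × V n := (z1 e x, z2 e x)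

/-- The Laplace transform. -/
noncomputable def lt (f : E n → ℂ) (a b : E n) : ℂ := ∫ x, f x * exf a b x

/-- The set where both real parts are large. -/
def Ob (e : E n) (a₀ : ℝ) : Set (B n) := {p | a₀ < ‖a1 e p‖ ∧ a₀ < ‖a2 e p‖}

/-- The bilinear expression in two Faddeev solutions. -/
noncomputable def FF (e : E n) (f : E n → ℂ) (u₁ u₂ : E n × E n → H n) (x : X n) : ℂ :=
  pr (mulH f (u₁ (a1 e x.1, x.2.1))) (u₂ (a2 e x.1, x.2.2))

/-- Regularity and size of the function `F`. -/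
structure FamA (e : E n) (f : E n → ℂ) (C a₀ lam : ℝ) (F : X n → ℂ) : Prop where
  c1 : ContDiffOn ℝ 1 F {x | x.1 ∈ Ob e a₀}
  bdd : ∀ x : X n, x.1 ∈ Ob e a₀ → 0 ≤ x.1.1 → ‖F x‖ ≤ C * Real.exp (π * x.1.1)
  lim : ∀ x : X n, x.1 ∈ Ob e a₀ → 0 ≤ x.1.1 → ‖F x - lt f (x.1.1 • e) (x.2.1 + x.2.2)‖ ≤
    C * Real.exp (π * x.1.1) * (‖a1 e x.1‖⁻¹ + ‖a2 e x.1‖⁻¹)
  small : ∀ x : X n, x.1 ∈ Ob e a₀ → 0 ≤ x.1.1 → ‖x.1.2‖ ≤ x.1.1 / 40 → ‖p1 e x‖ ≤ lam →
    ‖p2 e x‖ ≤ lam → ‖F x‖ ≤ C * Real.exp (π * x.1.1 - π * x.1.1 / 20) +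
      C * lam * Real.exp (4 * π * x.1.1)

/-- The two fibrewise bounds for the antiholomorphic derivatives of `F`. -/
structure FamB (e : E n) (C a₀ : ℝ) {lam tau : ℝ} (ρ : Reg lam tau) (F : X n → ℂ) : Prop where
  errH : ∀ p ∈ Ob e a₀, ∀ (W : E n × E n → ℂ × V n) (M : ℝ), 0 ≤ M →
    (∀ b, ‖p1 e (p, b)‖ ≤ lam → ‖p2 e (p, b)‖ ≤ lam →
      nsq (X1 e (W b)) ≤ M ∧ nsq (X2 e (W b)) ≤ M) →
    ∫⁻ b, ENNReal.ofReal (pp ρ e (p, b) * ‖dbar e F (p, b) (W b)‖ ^ 2) ≤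
      ENNReal.ofReal (C * M * ((‖a1 e p‖ ^ 2)⁻¹ + (‖a2 e p‖ ^ 2)⁻¹)) *
        ∫⁻ b, ENNReal.ofReal (pp ρ e (p, b) * ‖F (p, b)‖ ^ 2)
  errL : ∀ p ∈ Ob e a₀, ∀ (W : E n × E n → ℂ × V n) (M : ℝ), 0 ≤ M →
    (∀ b, ‖p1 e (p, b)‖ ≤ lam → ‖p2 e (p, b)‖ ≤ lam →
      (W b).1 = 0 ∧ nsq (W b).2 ≤ M ∧ ‖bd (W b).2 (z1 e (p, b))‖ ^ 2 ≤ M ∧
        ‖bd (W b).2 (z2 e (p, b))‖ ^ 2 ≤ M) →
    ∫⁻ b, ENNReal.ofReal (pp ρ e (p, b) * ‖dbar e F (p, b) (W b)‖ ^ 2) ≤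
      ENNReal.ofReal (C * M * ((‖a1 e p‖ ^ 4)⁻¹ + (‖a2 e p‖ ^ 4)⁻¹)) *
        ∫⁻ b, ENNReal.ofReal (pp ρ e (p, b) * (p.1 ^ 2 + ‖b.1 + b.2‖ ^ 2 + 1) * ‖F (p, b)‖ ^ 2)

/-! ### The weight -/

/-- `s² + |r|²`. -/
noncomputable def R2 (p : B n) : ℝ := p.1 ^ 2 + ‖p.2‖ ^ 2

/-- The barrier at the tips. -/
noncomputable def hb (t : ℝ) : ℝ := Real.log (Real.log (Real.exp 1 + t⁻¹))

/-- The weight without its polynomial part. -/
noncomputable def mA (e : E n) (K η κ ε : ℝ) (p : B n) : ℝ :=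
  π * p.1 - η * (p.1 * Real.exp (K * (p.1 / √(R2 p)))) +
    κ * (p.1 * hb (‖a1 e p‖ ^ 2 / p.1 ^ 2) + p.1 * hb (‖a2 e p‖ ^ 2 / p.1 ^ 2)) +
    ε * (p.1 * Real.log (R2 p / p.1))

/-- The weight `mA + β log R² + γ log s`. -/
noncomputable def mm (e : E n) (K η κ ε β γ : ℝ) (p : B n) : ℝ :=
  mA e K η κ ε p + β * Real.log (R2 p) + γ * Real.log p.1

/-- The domain of the weight. -/
def Dm (e : E n) : Set (B n) := {p | 0 < p.1 ∧ a1 e p ≠ 0 ∧ a2 e p ≠ 0}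

/-- The total gain of the Carleman estimates. -/
noncomputable def Lam (e : E n) (K η κ ε β : ℝ) (x : X n) : ℝ :=
  -2 * ((x.1.1)⁻¹ * ∑ k, lev (mm e K η κ ε β (1 / 2)) x.1 (fL k (zz e x)) +
    (√(R2 x.1))⁻¹ * ∑ l, ∑ m, lev (mm e K η κ ε (β + 1 / 4) 0) x.1 (fH e l m (zz e x)))

/-- The size of the fibre errors. -/
noncomputable def Err (C : ℝ) (x : X n) : ℝ := C * (√(R2 x.1) + ‖x.2.1 + x.2.2‖ ^ 2 / x.1.1)

/-- The vector `dμ - dw r / s`. -/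
noncomputable def Vy (p : B n) (W : ℂ × V n) : V n := fun k => W.2 k - W.1 * ((p.2 k / p.1 : ℝ) : ℂ)

/-- The form of `log R²` along `W`. -/
noncomputable def LR (p : B n) (W : ℂ × V n) : ℝ :=
  2 * (‖W.1‖ ^ 2 + nsq W.2) / R2 p - 4 * ‖(p.1 : ℂ) * W.1 + bd (rc p.2) W.2‖ ^ 2 / R2 p ^ 2

/-- The form of the barrier at `y` along `v`. -/
noncomputable def bar (y : E n) (v : V n) : ℝ :=
  4 * deriv (deriv hb) (‖y‖ ^ 2) * ‖bd (rc y) v‖ ^ 2 + 2 * deriv hb (‖y‖ ^ 2) * nsq v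

/-- The form of the main term along `W`, up to a positive factor and the sign. -/
noncomputable def th (K : ℝ) (p : B n) (W : ℂ × V n) : ℝ :=
  (6 + 2 * K * (p.1 / √(R2 p))) * (p.1 ^ 2 / R2 p) * ‖bd (rc ((p.1)⁻¹ • p.2)) (Vy p W)‖ ^ 2 -
    2 * nsq (Vy p W)

/-- `|ζ₁|² |ζ₂|²`. -/
noncomputable def PP (e : E n) (x : X n) : ℝ := nsq (z1 e x) * nsq (z2 e x)

/-- Sums over the fields. -/
noncomputable def NL (e : E n) (x : X n) : ℝ := ∑ k, nsq (fL k (zz e x)).2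

/-- Sums over the fields. -/
noncomputable def QL (e : E n) (x : X n) : ℝ :=
  ∑ k, ‖bd (rc ((x.1.1)⁻¹ • x.1.2)) (fL k (zz e x)).2‖ ^ 2

/-- Sums over the fields. -/
noncomputable def AH (e : E n) (x : X n) : ℝ := ∑ l, ∑ m, ‖(fH e l m (zz e x)).1‖ ^ 2

/-- Sums over the fields. -/
noncomputable def DH (e : E n) (x : X n) : ℝ := ∑ l, ∑ m, nsq (fH e l m (zz e x)).2

/-- Sums over the fields. -/
noncomputable def NH (e : E n) (x : X n) : ℝ := ∑ l, ∑ m, nsq (Vy x.1 (fH e l m (zz e x)))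

/-- Sums over the fields. -/
noncomputable def QH (e : E n) (x : X n) : ℝ :=
  ∑ l, ∑ m, ‖bd (rc ((x.1.1)⁻¹ • x.1.2)) (Vy x.1 (fH e l m (zz e x)))‖ ^ 2

/-- The total form of the main term. -/
noncomputable def SS (e : E n) (K : ℝ) (x : X n) : ℝ :=
  ∑ k, th K x.1 (fL k (zz e x)) + x.1.1 / √(R2 x.1) * ∑ l, ∑ m, th K x.1 (fH e l m (zz e x))

/-- The region where the weight is good. -/
def Gd (e : E n) (s₀ x₀ : ℝ) : Set (B n) :=
  {p | s₀ ≤ p.1 ∧ p.1 ^ 2 / 3200 ≤ ‖p.2‖ ^ 2 ∧ x₀ ^ 2 * p.1 ^ 2 ≤ ‖a1 e p‖ ^ 2 ∧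
    x₀ ^ 2 * p.1 ^ 2 ≤ ‖a2 e p‖ ^ 2}

/-- The support of the cut-off function. -/
def Sp (e : E n) (s₀ x₀ R₀ : ℝ) : Set (B n) := {p | p ∈ Gd e s₀ x₀ ∧ R2 p ≤ 2 * R₀ ^ 2}

/-- The region where the cut-off function is `1`. -/
def In (e : E n) (s₀ x₀ R₀ : ℝ) : Set (B n) :=
  {p | 2 * s₀ ≤ p.1 ∧ p.1 ^ 2 / 1600 ≤ ‖p.2‖ ^ 2 ∧ 2 * x₀ ^ 2 * p.1 ^ 2 ≤ ‖a1 e p‖ ^ 2 ∧
    2 * x₀ ^ 2 * p.1 ^ 2 ≤ ‖a2 e p‖ ^ 2 ∧ R2 p ≤ R₀ ^ 2}

/-- The region where the cut-off function may vary. -/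
def Bad (e : E n) (s₀ x₀ R₀ : ℝ) : Set (B n) :=
  {p | p ∈ Sp e s₀ x₀ R₀ ∧ (p.1 ≤ 2 * s₀ ∨ ‖p.2‖ ^ 2 ≤ p.1 ^ 2 / 1600 ∨
    ‖a1 e p‖ ^ 2 ≤ 2 * x₀ ^ 2 * p.1 ^ 2 ∨ ‖a2 e p‖ ^ 2 ≤ 2 * x₀ ^ 2 * p.1 ^ 2 ∨ R₀ ^ 2 ≤ R2 p)}

/-- A cut-off function on the base. -/
structure Cut (e : E n) (s₀ x₀ R₀ C : ℝ) (Ξ : B n → ℝ) : Prop where
  smooth : ContDiff ℝ ∞ Ξ
  nonneg : ∀ p, 0 ≤ Ξ p
  le_one : ∀ p, Ξ p ≤ 1
  supp : tsupport Ξ ⊆ Sp e s₀ x₀ R₀
  one : ∀ p ∈ In e s₀ x₀ R₀, Ξ p = 1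
  grad : ∀ p, ‖fderiv ℝ Ξ p‖ ≤ C
  bad : ∀ p, p ∉ Bad e s₀ x₀ R₀ → fderiv ℝ Ξ p = 0

/-- The function to which the Carleman estimate is applied. -/
noncomputable def vv {lam tau : ℝ} (ρ : Reg lam tau) (e : E n) (Ξ : B n → ℝ) (F : X n → ℂ)
    (x : X n) : ℂ := (Ξ x.1 : ℂ) * ρ.γ (p1 e x) * ρ.γ (p2 e x) * F x

/-- The target region. -/
def Tg (s₀ T : ℝ) : Set (B n) := {p | s₀ ≤ p.1 ∧ p.1 ^ 2 ≤ ‖p.2‖ ∧ ‖p.2‖ ≤ T}

/-- The admissible parameters of the weight. -/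
structure Par (K η κ x₀ : ℝ) : Prop where
  K_nonneg : 0 ≤ K
  η_pos : 0 < η
  η_le : η * Real.exp K ≤ π / 20
  κ_nonneg : 0 ≤ κ
  κ_le : κ ≤ 1
  x_pos : 0 < x₀
  x_le : x₀ ≤ 1 / 2
  bar : π / 20 ≤ κ * hb (2 * x₀ ^ 2)

end Pool.Agent.MP_71da5e_an.L

end

section

namespace Pool.Agent.MP_71da5e_an.L

open MeasureTheory Metric Set Complex FourierTransform SchwartzMap
open scoped ContDiff RealInnerProductSpace ENNReal Real ComplexConjugate

variable {n : ℕ}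

lemma continuous_fourier_of_integrable {f : E n → ℂ} (h1 : Integrable f) : Continuous (𝓕 f) :=
  VectorFourier.fourierIntegral_continuous Real.continuous_fourierChar
    (by simpa using (by fun_prop : Continuous fun p : E n × E n => ⟪p.1, p.2⟫)) h1

lemma integral_fourier_mul_swap {f g : E n → ℂ} (hf : Integrable f) (hg : Integrable g) :
    ∫ ξ, 𝓕 f ξ * g ξ = ∫ x, f x * 𝓕 g x := by
  have := VectorFourier.integral_fourierIntegral_smul_eq_flip (e := Real.fourierChar)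
    (μ := (volume : Measure (E n))) (ν := (volume : Measure (E n))) (L := innerₗ (E n))
    (f := f) (g := g) Real.continuous_fourierChar
    (by simpa using (by fun_prop : Continuous fun p : E n × E n => ⟪p.1, p.2⟫)) hf hg
  rw [flip_innerₗ] at this
  exact this

/-- The two Fourier transforms agree on `L¹ ∩ L²`. -/
lemma fourier_toLp_ae {f : E n → ℂ} (h1 : Integrable f) (h2 : MemLp f 2) :
    (𝓕 (h2.toLp f) : Lp ℂ 2 (volume : Measure (E n))) =ᵐ[volume] 𝓕 f := by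
  apply ae_eq_of_integral_contDiff_smul_eq
  · exact (Lp.memLp _).locallyIntegrable (by norm_num)
  · exact (continuous_fourier_of_integrable h1).locallyIntegrable
  intro g hg hc
  have hg₁ : HasCompactSupport (Complex.ofRealCLM ∘ g) := hc.comp_left rfl
  have hg₂ : ContDiff ℝ ∞ (Complex.ofRealCLM ∘ g) := by fun_prop
  set G : 𝓢(E n, ℂ) := hg₁.toSchwartzMap hg₂ with hG
  have e1 := congrArg (fun T : 𝓢'(E n, ℂ) => T G) (Lp.fourier_toTemperedDistribution_eq (h2.toLp f))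
  simp only [TemperedDistribution.fourier_apply, Lp.toTemperedDistribution_apply] at e1
  have hGx : ∀ x, G x = (g x : ℂ) := fun x => rfl
  calc ∫ x, g x • (𝓕 (h2.toLp f) : Lp ℂ 2 (volume : Measure (E n))) x
      = ∫ x, G x • (𝓕 (h2.toLp f) : Lp ℂ 2 (volume : Measure (E n))) x := by
        simp [hGx]
    _ = ∫ x, (𝓕 G) x • (h2.toLp f) x := e1.symm
    _ = ∫ x, 𝓕 (G : E n → ℂ) x * f x := by
        refine integral_congr_ae ?_
        filter_upwards [h2.coeFn_toLp] with x hx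
        rw [hx, fourier_coe, smul_eq_mul]
    _ = ∫ x, G x * 𝓕 f x := integral_fourier_mul_swap G.integrable h1
    _ = ∫ x, g x • 𝓕 f x := by simp [hGx]

lemma memLp_fourier {f : E n → ℂ} (h1 : Integrable f) (h2 : MemLp f 2) : MemLp (𝓕 f) 2 :=
  (memLp_congr_ae (fourier_toLp_ae h1 h2)).1 (Lp.memLp _)

/-- Parseval's identity on `L¹ ∩ L²`. -/
lemma parseval {f g : E n → ℂ} (f1 : Integrable f) (f2 : MemLp f 2) (g1 : Integrable g)
    (g2 : MemLp g 2) : ∫ ξ, conj (𝓕 f ξ) * 𝓕 g ξ = ∫ x, conj (f x) * g x := by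
  have := Lp.inner_fourier_eq (f2.toLp f) (g2.toLp g)
  rw [L2.inner_def, L2.inner_def] at this
  calc ∫ ξ, conj (𝓕 f ξ) * 𝓕 g ξ = _ := by
        refine integral_congr_ae ?_
        filter_upwards [fourier_toLp_ae f1 f2, fourier_toLp_ae g1 g2] with x hx hy
        rw [← hx, ← hy, mul_comm]
        exact (RCLike.inner_apply _ _).symm
    _ = _ := this
    _ = _ := by
        refine integral_congr_ae ?_
        filter_upwards [f2.coeFn_toLp, g2.coeFn_toLp] with x hx hy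
        rw [hx, hy, RCLike.inner_apply, mul_comm]

/-- Plancherel's identity on `L¹ ∩ L²`. -/
lemma plancherel {f : E n → ℂ} (f1 : Integrable f) (f2 : MemLp f 2) :
    ∫ ξ, ‖𝓕 f ξ‖ ^ 2 = ∫ x, ‖f x‖ ^ 2 := by
  have h := parseval f1 f2 f1 f2
  simp only [Complex.conj_mul'] at h
  have e : ∀ u : E n → ℂ, ∫ x, ((‖u x‖ : ℂ)) ^ 2 = ((∫ x, ‖u x‖ ^ 2 : ℝ) : ℂ) := fun u => by
    rw [← integral_complex_ofReal]; simp
  rw [e, e] at h
  exact_mod_cast h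

end Pool.Agent.MP_71da5e_an.L

end

section

namespace Pool.Agent.MP_71da5e_an.L.G

open MeasureTheory Metric Set Complex FourierTransform
open scoped ContDiff RealInnerProductSpace ENNReal Real ComplexConjugate

variable {n : ℕ}

instance fin_mu : IsFiniteMeasure (mu n) := isFiniteMeasure_restrict.2 measure_ball_lt_top.ne

lemma ae_mu {p : E n → Prop} (h : ∀ x, ‖x‖ < 1 → p x) : ∀ᵐ x ∂(mu n), p x :=
  (ae_restrict_iff' measurableSet_ball).2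
    (Filter.Eventually.of_forall fun x hx => h x (mem_ball_zero_iff.1 hx))

lemma memLp_cont {v : E n → ℂ} (hv : Continuous v) (p : ℝ≥0∞) : MemLp v p (mu n) := by
  obtain ⟨C, hC⟩ := (isCompact_closedBall (0 : E n) 1).exists_bound_of_continuousOn hv.continuousOn
  exact MemLp.of_bound hv.aestronglyMeasurable C
    (ae_mu fun x hx => hC x (mem_closedBall_zero_iff.2 hx.le))

lemma toH_ae {u : E n → ℂ} (h : MemLp u 2 (mu n)) : toH u =ᵐ[mu n] u := by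
  rw [toH, dif_pos h]; exact h.coeFn_toLp

lemma pr_eq (u v : H n) : pr u v = ∫ x, u x * v x ∂(mu n) := by
  rw [pr, ContinuousLinearMap.lpPairing_eq_integral]; rfl

lemma pr_comm (u v : H n) : pr u v = pr v u := by
  rw [pr_eq, pr_eq]; simp only [mul_comm]

lemma mulH_ae {w : E n → ℂ} (hw : MemLp w ⊤ (mu n)) (u : H n) :
    mulH w u =ᵐ[mu n] fun x => w x * u x := by
  rw [mulH, dif_pos hw]
  filter_upwards [(ContinuousLinearMap.mul ℂ ℂ).coeFn_holder (r := 2) (hw.toLp w) u, hw.coeFn_toLp]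
    with x h1 h2
  rw [← h2]
  exact h1

lemma continuous_exf (a b : E n) : Continuous (exf a b) := by unfold exf; fun_prop

lemma ex_ae (a b : E n) : ex a b =ᵐ[mu n] exf a b := toH_ae (memLp_cont (continuous_exf a b) 2)

lemma Mx_ae (a : E n) (u : H n) : Mx a u =ᵐ[mu n] fun x => exf a 0 x * u x :=
  mulH_ae (memLp_cont (continuous_exf a 0) ⊤) u

lemma exf_mul (a b a' b' x : E n) : exf a b x * exf a' b' x = exf (a + a') (b + b') x := by
  unfold exf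
  rw [← Complex.exp_add, inner_add_left, inner_add_left]
  congr 1
  push_cast
  ring

lemma exf_zero (x : E n) : exf 0 0 x = 1 := by simp [exf]

lemma norm_exf (a b x : E n) : ‖exf a b x‖ = Real.exp (2 * π * ⟪a, x⟫) := by
  unfold exf
  rw [Complex.norm_exp]
  congr 1
  simp

lemma Mx_Mx (a a' : E n) (u : H n) : Mx a (Mx a' u) = Mx (a + a') u := by
  refine Lp.ext ?_
  filter_upwards [Mx_ae a (Mx a' u), Mx_ae a' u, Mx_ae (a + a') u] with x h1 h2 h3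
  rw [h1, h2, h3, ← mul_assoc, exf_mul, add_zero]

lemma Mx_zero (u : H n) : Mx 0 u = u := by
  refine Lp.ext ?_
  filter_upwards [Mx_ae 0 u] with x h1
  rw [h1, exf_zero, one_mul]

lemma Mx_neg_Mx (a : E n) (u : H n) : Mx (-a) (Mx a u) = u := by
  rw [Mx_Mx, neg_add_cancel, Mx_zero]

lemma Mx_Mx_neg (a : E n) (u : H n) : Mx a (Mx (-a) u) = u := by
  rw [Mx_Mx, add_neg_cancel, Mx_zero]

lemma Mx_ex (a a' b : E n) : Mx a (ex a' b) = ex (a + a') b := by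
  refine Lp.ext ?_
  filter_upwards [Mx_ae a (ex a' b), ex_ae a' b, ex_ae (a + a') b] with x h1 h2 h3
  rw [h1, h2, h3, exf_mul, zero_add]

lemma pr_Mx (a : E n) (u v : H n) : pr (Mx a u) v = pr u (Mx a v) := by
  rw [pr_eq, pr_eq]
  refine integral_congr_ae ?_
  filter_upwards [Mx_ae a u, Mx_ae a v] with x h1 h2
  rw [h1, h2]; ring

lemma pr_Mx_ex (a a' b : E n) (u : H n) : pr (Mx a u) (ex a' b) = pr u (ex (a + a') b) := by
  rw [pr_Mx, Mx_ex]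

/-- Complex conjugation. -/
noncomputable def cj (u : H n) : H n := (conjLIE.toContinuousLinearEquiv : ℂ →L[ℝ] ℂ).compLp u

lemma cj_ae (u : H n) : cj u =ᵐ[mu n] fun x => conj (u x) :=
  (conjLIE.toContinuousLinearEquiv : ℂ →L[ℝ] ℂ).coeFn_compLp' u

lemma norm_cj (u : H n) : ‖cj u‖ = ‖u‖ := by
  rw [Lp.norm_def, Lp.norm_def]
  congr 1
  refine eLpNorm_congr_norm_ae ?_
  filter_upwards [cj_ae u] with x hx
  rw [hx, Complex.norm_conj]

lemma pr_cj (u v : H n) : pr (cj u) v = inner ℂ u v := by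
  rw [pr_eq, L2.inner_def]
  refine integral_congr_ae ?_
  filter_upwards [cj_ae u] with x hx
  rw [hx, RCLike.inner_apply, mul_comm]

lemma cj_cj (u : H n) : cj (cj u) = u := by
  refine Lp.ext ?_
  filter_upwards [cj_ae (cj u), cj_ae u] with x h1 h2
  rw [h1, h2, Complex.conj_conj]

lemma pr_eq_inner (u v : H n) : pr u v = inner ℂ (cj u) v := by rw [← pr_cj, cj_cj]

lemma norm_pr_le (u v : H n) : ‖pr u v‖ ≤ ‖u‖ * ‖v‖ := by
  rw [pr_eq_inner, ← norm_cj u]; exact norm_inner_le_norm _ _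

lemma norm_le_of_pr {u : H n} {c : ℝ} (hc : 0 ≤ c) (h : ∀ k, ‖pr u k‖ ≤ c * ‖k‖) : ‖u‖ ≤ c := by
  have := h (cj u)
  rw [pr_comm, pr_cj, norm_cj, inner_self_eq_norm_sq_to_K] at this
  have h2 : ‖u‖ * ‖u‖ ≤ c * ‖u‖ := by simpa [sq] using this
  rcases (norm_nonneg u).eq_or_lt with h0 | h0
  · rw [← h0]; exact hc
  · exact le_of_mul_le_mul_right h2 h0

lemma eq_of_pr {u v : H n} (h : ∀ k, pr u k = pr v k) : u = v := by
  have : ‖u - v‖ ≤ 0 := norm_le_of_pr le_rfl fun k => by simp [h k]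
  exact sub_eq_zero.1 (norm_le_zero_iff.1 this)

/-- The extension by zero. -/
noncomputable def e0 (h : H n) : E n → ℂ := (ball (0 : E n) 1).indicator h

lemma memLp_e0 (h : H n) : MemLp (e0 h) 2 := (memLp_indicator_iff_restrict measurableSet_ball).2
  (Lp.memLp h)

lemma integrable_H (h : H n) : Integrable h (mu n) := (Lp.memLp h).integrable (by norm_num)

lemma integrable_e0 (h : H n) : Integrable (e0 h) :=
  (integrable_indicator_iff measurableSet_ball).2 (integrable_H h)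

lemma integral_mu {F : Type} [NormedAddCommGroup F] [NormedSpace ℝ F] (w : E n → F) :
    ∫ x, w x ∂(mu n) = ∫ x, (ball (0 : E n) 1).indicator w x :=
  (integral_indicator measurableSet_ball).symm

lemma integral_e0_mul (h : H n) (w : E n → ℂ) : ∫ x, e0 h x * w x = ∫ x, h x * w x ∂(mu n) := by
  rw [integral_mu]
  congr 1
  funext x
  by_cases hx : x ∈ ball (0 : E n) 1 <;> simp [e0, hx]

/-- The Fourier transform of an element of `H`. -/
noncomputable def fh (h : H n) (η : E n) : ℂ := pr h (ex 0 (-η))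

lemma exf_neg (η x : E n) : exf 0 (-η) x = cexp (((-2 * π * ⟪x, η⟫ : ℝ) : ℂ) * I) := by
  unfold exf
  congr 1
  rw [inner_neg_left, real_inner_comm x η]
  simp
  ring

lemma fh_eq (h : H n) : fh h = 𝓕 (e0 h) := by
  funext η
  rw [Real.fourier_eq', fh, pr_eq]
  simp only [smul_eq_mul]
  rw [show (fun v => cexp (((-2 * π * ⟪v, η⟫ : ℝ) : ℂ) * I) * e0 h v) =
    fun v => e0 h v * exf 0 (-η) v from funext fun v => by rw [exf_neg, mul_comm], integral_e0_mul]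
  refine integral_congr_ae ?_
  filter_upwards [ex_ae 0 (-η)] with x hx
  rw [hx]

lemma continuous_fh (h : H n) : Continuous (fh h) :=
  fh_eq h ▸ continuous_fourier_of_integrable (integrable_e0 h)

lemma memLp_fh (h : H n) : MemLp (fh h) 2 := fh_eq h ▸ memLp_fourier (integrable_e0 h) (memLp_e0 h)

lemma integrable_sq_fh (h : H n) : Integrable fun η => ‖fh h η‖ ^ 2 :=
  (memLp_two_iff_integrable_sq_norm (continuous_fh h).aestronglyMeasurable).1 (memLp_fh h)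

lemma norm_sq_H (h : H n) : ‖h‖ ^ 2 = ∫ x, ‖h x‖ ^ 2 ∂(mu n) := by
  rw [← real_inner_self_eq_norm_sq, L2.inner_def]
  simp only [real_inner_self_eq_norm_sq]

lemma integral_sq_fh (h : H n) : ∫ η, ‖fh h η‖ ^ 2 = ‖h‖ ^ 2 := by
  rw [fh_eq, plancherel (integrable_e0 h) (memLp_e0 h), norm_sq_H, integral_mu]
  congr 1
  funext x
  by_cases hx : x ∈ ball (0 : E n) 1 <;> simp [e0, hx]

lemma conj_exf (b x : E n) : conj (exf 0 b x) = exf 0 (-b) x := by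
  unfold exf
  rw [← Complex.exp_conj, inner_neg_left]
  congr 1
  simp [map_ofNat]

lemma conj_fh_cj (k : H n) (η : E n) : conj (fh (cj k) η) = fh k (-η) := by
  rw [fh, fh, pr_eq, pr_eq, ← integral_conj, neg_neg]
  refine integral_congr_ae ?_
  filter_upwards [cj_ae k, ex_ae 0 (-η), ex_ae 0 η] with x h1 h2 h3
  rw [h1, h2, h3, map_mul, Complex.conj_conj, conj_exf, neg_neg]

/-- Parseval's identity in bilinear form. -/
lemma integral_fh_mul (h k : H n) : ∫ η, fh h η * fh k (-η) = pr h k := by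
  have := parseval (integrable_e0 (cj k)) (memLp_e0 (cj k)) (integrable_e0 h) (memLp_e0 h)
  rw [← fh_eq, ← fh_eq] at this
  simp only [conj_fh_cj] at this
  calc ∫ η, fh h η * fh k (-η) = ∫ η, fh k (-η) * fh h η := by simp only [mul_comm]
    _ = ∫ x, e0 h x * conj (e0 (cj k) x) := by rw [this]; simp only [mul_comm]
    _ = pr h k := by
      rw [integral_e0_mul, pr_eq]
      refine integral_congr_ae ?_
      filter_upwards [cj_ae k, ae_mu (n := n) (p := fun x => x ∈ ball (0 : E n) 1)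
        fun x hx => mem_ball_zero_iff.2 hx] with x h1 h2
      rw [e0, indicator_of_mem h2, h1, Complex.conj_conj]

end Pool.Agent.MP_71da5e_an.L.G

end

section

namespace Pool.Agent.MP_71da5e_an.L.Cg

open MeasureTheory Metric Set Laplacian Complex
open scoped ContDiff RealInnerProductSpace ENNReal Real ComplexConjugate BoundedContinuousFunction

variable {n : ℕ}

instance finMu : IsFiniteMeasure (mu n) :=
  isFiniteMeasure_restrict.2 measure_ball_lt_top.ne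

theorem ae_ball : ∀ᵐ x ∂(mu n), ‖x‖ < 1 := by
  have := ae_restrict_mem (μ := (volume : Measure (E n))) (s := ball (0 : E n) 1)
    measurableSet_ball
  filter_upwards [this] with x hx
  simpa using hx

theorem coe_toH {u : E n → ℂ} (h : MemLp u 2 (mu n)) : toH u =ᵐ[mu n] u := by
  unfold toH
  rw [dif_pos h]
  exact h.coeFn_toLp

theorem coe_mulH {w : E n → ℂ} (hw : MemLp w ⊤ (mu n)) (h : H n) :
    mulH w h =ᵐ[mu n] fun x => w x * h x := by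
  unfold mulH
  rw [dif_pos hw]
  have h1 := (ContinuousLinearMap.mul ℂ ℂ).coeFn_holder (r := 2) (hw.toLp w) h
  have h2 := hw.coeFn_toLp
  filter_upwards [h1, h2] with x hx hx2
  rw [ContinuousLinearMap.holderL_apply_apply, hx, hx2]
  rfl

theorem pr_eq (h k : H n) : pr h k = ∫ x, h x * k x ∂(mu n) := by
  unfold pr
  rw [ContinuousLinearMap.lpPairing_eq_integral]
  rfl

theorem pr_comm (h k : H n) : pr h k = pr k h := by
  rw [pr_eq, pr_eq]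
  simp_rw [mul_comm]

theorem pr_mulH {w : E n → ℂ} (hw : MemLp w ⊤ (mu n)) (h k : H n) :
    pr (mulH w h) k = pr h (mulH w k) := by
  rw [pr_eq, pr_eq]
  refine integral_congr_ae ?_
  filter_upwards [coe_mulH hw h, coe_mulH hw k] with x h1 h2
  rw [h1, h2]; ring

theorem norm_mulH_apply {w : E n → ℂ} (hw : MemLp w ⊤ (mu n)) {C : ℝ}
    (hC : ∀ x, ‖x‖ < 1 → ‖w x‖ ≤ C) (h : H n) : ‖mulH w h‖ ≤ C * ‖h‖ := by
  refine Lp.norm_le_mul_norm_of_ae_le_mul ?_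
  filter_upwards [coe_mulH hw h, ae_ball] with x h1 h2
  rw [h1, norm_mul]
  exact mul_le_mul_of_nonneg_right (hC x h2) (norm_nonneg _)

theorem memTop {w : E n → ℂ} (hm : AEStronglyMeasurable w (mu n)) {C : ℝ}
    (hC : ∀ x, ‖x‖ < 1 → ‖w x‖ ≤ C) : MemLp w ⊤ (mu n) :=
  memLp_top_of_bound hm C (by filter_upwards [ae_ball] with x hx using hC x hx)

theorem bdd_memTop {q : E n → ℂ} (hq : Bdd q) : MemLp q ⊤ (mu n) := by
  obtain ⟨hm, C, hC⟩ := hq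
  exact memTop hm.aestronglyMeasurable fun x _ => hC x

theorem cont_exf (a b : E n) : Continuous (exf a b) := by
  unfold exf
  fun_prop

theorem norm_exf (a b x : E n) : ‖exf a b x‖ = Real.exp (2 * π * ⟪a, x⟫) := by
  unfold exf
  rw [Complex.norm_exp]
  congr 1
  simp

theorem norm_exf_le (a b x : E n) (hx : ‖x‖ < 1) : ‖exf a b x‖ ≤ Real.exp (2 * π * ‖a‖) := by
  rw [norm_exf]
  refine Real.exp_le_exp.2 (mul_le_mul_of_nonneg_left ?_ (by positivity))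
  calc ⟪a, x⟫ ≤ ‖a‖ * ‖x‖ := real_inner_le_norm _ _
    _ ≤ ‖a‖ * 1 := by gcongr
    _ = ‖a‖ := mul_one _

theorem exf_top (a b : E n) : MemLp (exf a b) ⊤ (mu n) :=
  memTop (cont_exf a b).aestronglyMeasurable (norm_exf_le a b)

theorem exf_two (a b : E n) : MemLp (exf a b) 2 (mu n) :=
  (exf_top a b).mono_exponent le_top

theorem coe_ex (a b : E n) : ex a b =ᵐ[mu n] exf a b := coe_toH (exf_two a b)

theorem exf_mul (a b a' b' x : E n) : exf a b x * exf a' b' x = exf (a + a') (b + b') x := by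
  unfold exf
  rw [← Complex.exp_add, inner_add_left, inner_add_left]
  congr 1
  push_cast
  ring

theorem exf_zero (x : E n) : exf 0 0 x = 1 := by
  unfold exf
  simp

theorem coe_Mx (a : E n) (h : H n) : Mx a h =ᵐ[mu n] fun x => exf a 0 x * h x :=
  coe_mulH (exf_top a 0) h

theorem Mx_ex (a a' b : E n) : Mx a (ex a' b) = ex (a + a') b := by
  refine Lp.ext ?_
  filter_upwards [coe_Mx a (ex a' b), coe_ex a' b, coe_ex (a + a') b] with x h1 h2 h3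
  rw [h1, h2, h3, exf_mul, zero_add]

theorem Mx_Mx (a a' : E n) (h : H n) : Mx a (Mx a' h) = Mx (a + a') h := by
  refine Lp.ext ?_
  filter_upwards [coe_Mx a (Mx a' h), coe_Mx a' h, coe_Mx (a + a') h] with x h1 h2 h3
  rw [h1, h2, h3, ← mul_assoc, exf_mul, zero_add]

theorem Mx_zero (h : H n) : Mx 0 h = h := by
  refine Lp.ext ?_
  filter_upwards [coe_Mx 0 h] with x h1
  rw [h1, exf_zero, one_mul]

theorem mulH_comm {w w' : E n → ℂ} (hw : MemLp w ⊤ (mu n)) (hw' : MemLp w' ⊤ (mu n)) (h : H n) :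
    mulH w (mulH w' h) = mulH w' (mulH w h) := by
  refine Lp.ext ?_
  filter_upwards [coe_mulH hw (mulH w' h), coe_mulH hw' h, coe_mulH hw' (mulH w h),
    coe_mulH hw h] with x h1 h2 h3 h4
  rw [h1, h2, h3, h4]; ring

theorem pr_Mx (a : E n) (h k : H n) : pr (Mx a h) k = pr h (Mx a k) := pr_mulH (exf_top a 0) h k

theorem norm_pr_le (h k : H n) : ‖pr h k‖ ≤ ‖h‖ * ‖k‖ := by
  have h1 : pr h k = inner ℂ (star h) k := by
    rw [pr_eq, L2.inner_def]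
    refine integral_congr_ae ?_
    filter_upwards [Lp.coeFn_star h] with x hx
    rw [hx]
    simp [mul_comm]
  rw [h1]
  calc _ ≤ ‖star h‖ * ‖k‖ := norm_inner_le_norm _ _
    _ ≤ ‖h‖ * ‖k‖ := by
      refine mul_le_mul_of_nonneg_right (Lp.norm_le_norm_of_ae_le ?_) (norm_nonneg _)
      filter_upwards [Lp.coeFn_star h] with x hx
      rw [hx]
      simp

/-- The norm of a character. -/
noncomputable def cv (n : ℕ) : ℝ := ‖ex (0 : E n) 0‖

theorem norm_ex_zero (b : E n) : ‖ex 0 b‖ ≤ cv n := by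
  refine Lp.norm_le_norm_of_ae_le ?_
  filter_upwards [coe_ex 0 b, coe_ex (0 : E n) 0] with x h1 h2
  rw [h1, h2, norm_exf, norm_exf]

/-- A retraction onto the unit ball. -/
noncomputable def rt (x : E n) : E n := (max 1 ‖x‖)⁻¹ • x

theorem cont_rt : Continuous (rt (n := n)) := by
  unfold rt
  have h : Continuous fun x : E n => (max 1 ‖x‖)⁻¹ :=
    Continuous.inv₀ (by fun_prop) fun x => (lt_of_lt_of_le one_pos (le_max_left _ _)).ne'
  exact h.smul continuous_id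

theorem norm_rt (x : E n) : ‖rt x‖ ≤ 1 := by
  unfold rt
  have h : 0 < max 1 ‖x‖ := lt_of_lt_of_le one_pos (le_max_left _ _)
  rw [norm_smul, norm_inv, Real.norm_of_nonneg h.le, inv_mul_le_iff₀ h, mul_one]
  exact le_max_right _ _

theorem rt_eq (x : E n) (hx : ‖x‖ < 1) : rt x = x := by
  unfold rt
  rw [max_eq_left hx.le, inv_one, one_smul]

/-- The linear function `2 π a · x` as a bounded function. -/
noncomputable def lb (a : E n) : E n →ᵇ ℂ :=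
  BoundedContinuousFunction.ofNormedAddCommGroup (fun x => ((2 * π * ⟪a, rt x⟫ : ℝ) : ℂ))
    (by have := cont_rt (n := n); fun_prop) (2 * π * ‖a‖) fun x => by
      rw [Complex.norm_real, Real.norm_eq_abs, abs_mul, abs_of_pos (by positivity : 0 < 2 * π)]
      refine mul_le_mul_of_nonneg_left ?_ (by positivity)
      calc |⟪a, rt x⟫| ≤ ‖a‖ * ‖rt x‖ := abs_real_inner_le_norm _ _
        _ ≤ ‖a‖ * 1 := by gcongr; exact norm_rt x
        _ = ‖a‖ := mul_one _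

theorem lb_apply (a x : E n) : lb a x = ((2 * π * ⟪a, rt x⟫ : ℝ) : ℂ) := rfl

theorem norm_lb (a : E n) : ‖lb a‖ ≤ 2 * π * ‖a‖ :=
  BoundedContinuousFunction.norm_ofNormedAddCommGroup_le _ (by positivity) _

/-- The map `a ↦ 2 π a · x`. -/
noncomputable def lbL : E n →L[ℝ] (E n →ᵇ ℂ) :=
  LinearMap.mkContinuous
    { toFun := lb
      map_add' := fun a b => by
        ext x
        simp only [BoundedContinuousFunction.add_apply, lb_apply, inner_add_left]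
        push_cast; ring
      map_smul' := fun c a => by
        ext x
        simp only [BoundedContinuousFunction.smul_apply, lb_apply, real_inner_smul_left,
          RingHom.id_apply, Complex.real_smul]
        push_cast; ring } (2 * π) norm_lb

/-- The exponent. -/
noncomputable def LL : E n × E n →L[ℝ] (E n →ᵇ ℂ) :=
  lbL.comp (ContinuousLinearMap.fst ℝ _ _) + I • lbL.comp (ContinuousLinearMap.snd ℝ _ _)

theorem LL_apply (y : E n × E n) : LL y = lb y.1 + I • lb y.2 := rfl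

/-- The inclusion of bounded functions. -/
noncomputable def io : (E n →ᵇ ℂ) →L[ℂ] H n := BoundedContinuousFunction.toLp 2 (mu n) ℂ

theorem coe_io (f : E n →ᵇ ℂ) : io f =ᵐ[mu n] f :=
  BoundedContinuousFunction.coeFn_toLp 2 (mu n) ℂ f

theorem exp_apply (f : E n →ᵇ ℂ) (x : E n) : NormedSpace.exp f x = Complex.exp (f x) := by
  let ev : (E n →ᵇ ℂ) →+* ℂ :=
    { toFun := fun g => g x
      map_one' := rfl
      map_mul' := fun _ _ => rfl
      map_zero' := rfl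
      map_add' := fun _ _ => rfl }
  have hc : Continuous ev := continuous_eval_const x
  have := NormedSpace.map_exp ev hc f
  rw [Complex.exp_eq_exp_ℂ]
  exact this

theorem ex_eq (y : E n × E n) : ex y.1 y.2 = io (NormedSpace.exp (LL y)) := by
  refine Lp.ext ?_
  filter_upwards [coe_ex y.1 y.2, coe_io (NormedSpace.exp (LL y)), ae_ball] with x h1 h2 h3
  rw [h1, h2, exp_apply, LL_apply]
  unfold exf
  congr 1
  simp only [BoundedContinuousFunction.add_apply, BoundedContinuousFunction.smul_apply, lb_apply,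
    rt_eq x h3, smul_eq_mul]
  push_cast; ring

theorem contDiff_ex : ContDiff ℝ ∞ fun y : E n × E n => ex y.1 y.2 := by
  simp_rw [ex_eq]
  have h1 : ContDiff ℝ ∞ (NormedSpace.exp : (E n →ᵇ ℂ) → (E n →ᵇ ℂ)) :=
    contDiff_iff_contDiffAt.2 fun x => (NormedSpace.exp_analytic (𝕂 := ℝ) x).contDiffAt
  exact ((io (n := n)).restrictScalars ℝ).contDiff.comp (h1.comp LL.contDiff)

theorem hasFDerivAt_ex (y : E n × E n) : HasFDerivAt (fun y : E n × E n => ex y.1 y.2)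
    (((io (n := n)).restrictScalars ℝ).comp (NormedSpace.exp (LL y) • LL)) y := by
  simp_rw [ex_eq]
  have h1 := hasFDerivAt_exp (𝕂 := ℝ) (x := LL y)
  have h2 := h1.comp y LL.hasFDerivAt
  have h3 := ((io (n := n)).restrictScalars ℝ).hasFDerivAt.comp y h2
  have h4 : (NormedSpace.exp (LL y) • (1 : (E n →ᵇ ℂ) →L[ℝ] (E n →ᵇ ℂ))).comp LL =
      NormedSpace.exp (LL y) • LL := ContinuousLinearMap.ext fun v => rfl
  rw [h4] at h3
  exact h3

theorem dbar_ex (y : E n × E n) (δ : E n) :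
    fderiv ℝ (fun y : E n × E n => ex y.1 y.2) y (δ, 0) +
      I • fderiv ℝ (fun y : E n × E n => ex y.1 y.2) y (0, δ) = 0 := by
  rw [(hasFDerivAt_ex y).fderiv]
  have h0 : lb (0 : E n) = 0 := (lbL (n := n)).map_zero
  simp only [ContinuousLinearMap.comp_apply, ContinuousLinearMap.coe_restrictScalars',
    smul_apply, LL_apply, h0, smul_zero, add_zero, zero_add, smul_eq_mul]
  rw [← map_smul, ← map_add, mul_smul_comm, smul_smul, I_mul_I, neg_one_smul, add_neg_cancel,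
    map_zero]

/-- The logarithmic derivative of the exponential. -/
noncomputable def cz (a b v : E n) : ℂ := 2 * π * (((⟪a, v⟫ : ℝ) : ℂ) + ((⟪b, v⟫ : ℝ) : ℂ) * I)

theorem hasFDerivAt_exf (a b x : E n) :
    ∃ L : E n →L[ℝ] ℂ, HasFDerivAt (exf a b) L x ∧ ∀ v, L v = cz a b v * exf a b x := by
  let l : E n →L[ℝ] ℂ := (2 * π : ℂ) • (Complex.ofRealCLM.comp (innerSL ℝ a) +
    I • Complex.ofRealCLM.comp (innerSL ℝ b))
  have hl : ∀ v, l v = cz a b v := fun v => by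
    simp only [l, cz, smul_apply, add_apply, ContinuousLinearMap.comp_apply,
      Complex.ofRealCLM_apply, innerSL_apply_apply, smul_eq_mul]
    ring
  have h1 : exf a b = fun y => Complex.exp (l y) := by
    funext y
    rw [hl]; rfl
  refine ⟨Complex.exp (l x) • l, ?_, fun v => ?_⟩
  · rw [h1]
    exact l.hasFDerivAt.cexp
  · rw [smul_apply, hl v, h1, smul_eq_mul, mul_comm]

theorem ibp_exf (a b v : E n) {ψ : E n → ℂ} (h1 : ContDiff ℝ 1 ψ) (h2 : HasCompactSupport ψ) :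
    ∫ x, exf a b x * fderiv ℝ ψ x v = -cz a b v * ∫ x, exf a b x * ψ x := by
  have hd : ∀ x, fderiv ℝ (exf a b) x v = cz a b v * exf a b x := fun x => by
    obtain ⟨L, hL, hv⟩ := hasFDerivAt_exf a b x
    rw [hL.fderiv, hv]
  have hi : Integrable fun x => exf a b x * ψ x :=
    ((cont_exf a b).mul h1.continuous).integrable_of_hasCompactSupport h2.mul_left
  have hc : Continuous fun x => fderiv ℝ ψ x v :=
    (h1.continuous_fderiv one_ne_zero).clm_apply continuous_const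
  have hs : HasCompactSupport fun x => fderiv ℝ ψ x v := h2.fderiv_apply (𝕜 := ℝ) v
  rw [integral_mul_fderiv_eq_neg_fderiv_mul_of_integrable]
  · simp_rw [hd, mul_assoc]
    rw [integral_const_mul, neg_mul]
  · simp_rw [hd, mul_assoc]
    exact hi.const_mul _
  · exact ((cont_exf a b).mul hc).integrable_of_hasCompactSupport hs.mul_left
  · exact hi
  · intro x _
    obtain ⟨L, hL, _⟩ := hasFDerivAt_exf a b x
    exact hL.differentiableAt
  · intro x _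
    exact h1.differentiable one_ne_zero x

theorem lap_eq {φ : E n → ℂ} (h : ContDiff ℝ ∞ φ) (x : E n) : Δ φ x =
    ∑ i, fderiv ℝ (fun y => fderiv ℝ φ y (EuclideanSpace.single i 1)) x
      (EuclideanSpace.single i 1) := by
  rw [InnerProductSpace.laplacian_eq_iteratedFDeriv_orthonormalBasis φ
    (EuclideanSpace.basisFun (Fin n) ℝ)]
  refine Finset.sum_congr rfl fun i _ => ?_
  have hd : DifferentiableAt ℝ (fderiv ℝ φ) x :=
    ((h.fderiv_right (m := 1) (by norm_cast)).differentiable one_ne_zero) x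
  rw [iteratedFDeriv_two_apply, fderiv_clm_apply hd (differentiableAt_const _)]
  simp

theorem pr_ex_toH (a b : E n) {ψ : E n → ℂ} (h1 : Continuous ψ) (h2 : HasCompactSupport ψ)
    (h3 : ∀ x, 1 ≤ ‖x‖ → ψ x = 0) : pr (ex a b) (toH ψ) = ∫ x, exf a b x * ψ x := by
  have hm : MemLp ψ 2 (mu n) := (h1.memLp_of_hasCompactSupport h2).restrict _
  rw [pr_eq, ← setIntegral_eq_integral_of_forall_compl_eq_zero (s := ball (0 : E n) 1)
    (f := fun x => exf a b x * ψ x) (fun x hx => by rw [h3 x (by simpa using hx), mul_zero])]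
  refine integral_congr_ae ?_
  filter_upwards [coe_ex a b, coe_toH hm] with x h4 h5
  rw [h4, h5]

theorem sum_cz (a b : E n) :
    ∑ i, cz a b (EuclideanSpace.single i 1) * cz a b (EuclideanSpace.single i 1) =
      4 * π ^ 2 * pz a b := by
  unfold pz bd zc cz
  rw [Finset.mul_sum]
  refine Finset.sum_congr rfl fun i _ => ?_
  simp only [EuclideanSpace.inner_single_right, conj_trivial, one_mul]
  ring

theorem wk_ex (a b : E n) : Wk (ex a b) ((4 * π ^ 2 * pz a b : ℂ) • ex a b) := by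
  intro φ hφ hs
  have hc : HasCompactSupport φ :=
    (isCompact_closedBall (0 : E n) 1).of_isClosed_subset (isClosed_tsupport φ)
      (hs.trans ball_subset_closedBall)
  have hout : ∀ x : E n, 1 ≤ ‖x‖ → x ∉ tsupport φ := fun x hx h => by
    have := hs h
    simp at this
    linarith
  have h1 : ∀ v : E n, ContDiff ℝ ∞ fun y => fderiv ℝ φ y v := fun v =>
    (hφ.fderiv_right (m := ∞) (by norm_cast)).clm_apply contDiff_const
  have h2 : ∀ v : E n, HasCompactSupport fun y => fderiv ℝ φ y v := fun v =>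
    hc.fderiv_apply (𝕜 := ℝ) v
  have h3 : ∀ v : E n, Continuous fun x => fderiv ℝ (fun y => fderiv ℝ φ y v) x v := fun v =>
    ((h1 v).continuous_fderiv (by simp)).clm_apply continuous_const
  have h4 : ∀ v : E n, HasCompactSupport fun x => fderiv ℝ (fun y => fderiv ℝ φ y v) x v :=
    fun v => (h2 v).fderiv_apply (𝕜 := ℝ) v
  have hL : Δ φ = fun x => ∑ i, fderiv ℝ (fun y => fderiv ℝ φ y (EuclideanSpace.single i 1)) x
      (EuclideanSpace.single i 1) := funext (lap_eq hφ)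
  have h0 : ∀ x, x ∉ tsupport φ → Δ φ x = 0 := fun x hx => by
    have : φ =ᶠ[nhds x] fun _ => 0 := notMem_tsupport_iff_eventuallyEq.1 hx
    rw [(InnerProductSpace.laplacian_congr_nhds this).eq_of_nhds]
    simp
  have hLc : Continuous (Δ φ) := by
    rw [hL]
    exact continuous_finsetSum _ fun i _ => h3 _
  have hLs : HasCompactSupport (Δ φ) := HasCompactSupport.intro hc h0
  rw [map_smul, smul_apply, pr_ex_toH a b hLc hLs fun x hx => h0 x (hout x hx),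
    pr_ex_toH a b hφ.continuous hc fun x hx => image_eq_zero_of_notMem_tsupport (hout x hx), hL]
  simp_rw [Finset.mul_sum]
  have h5 : ∀ v : E n, Integrable fun x => exf a b x * fderiv ℝ (fun y => fderiv ℝ φ y v) x v :=
    fun v => ((cont_exf a b).mul (h3 v)).integrable_of_hasCompactSupport (h4 v).mul_left
  rw [integral_finsetSum _ fun i _ => h5 _, ← sum_cz, smul_eq_mul, Finset.sum_mul]
  refine Finset.sum_congr rfl fun i _ => ?_
  rw [ibp_exf a b _ ((h1 _).of_le (by norm_cast)) (h2 _),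
    ibp_exf a b _ (hφ.of_le (by norm_cast)) hc]
  ring

end Pool.Agent.MP_71da5e_an.L.Cg

end

section

namespace Pool.Agent.MP_71da5e_an.L.Cg

open MeasureTheory Metric Set Laplacian Complex
open scoped ContDiff RealInnerProductSpace ENNReal Real ComplexConjugate

variable {n : ℕ}

theorem pz_re (a b : E n) : (pz a b).re = ‖a‖ ^ 2 - ‖b‖ ^ 2 := by
  unfold pz bd zc
  rw [EuclideanSpace.real_norm_sq_eq, EuclideanSpace.real_norm_sq_eq, Complex.re_sum,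
    ← Finset.sum_sub_distrib]
  refine Finset.sum_congr rfl fun i _ => ?_
  simp
  ring

theorem cont_zc (k : Fin n) : Continuous fun y : E n × E n => zc y.1 y.2 k := by
  unfold zc
  fun_prop

theorem cont_pz : Continuous fun y : E n × E n => pz y.1 y.2 := by
  unfold pz bd
  exact continuous_finsetSum _ fun k _ => (cont_zc k).mul (cont_zc k)

theorem cont_bd (δ : E n) : Continuous fun y : E n × E n => bd (rc δ) (zc y.1 y.2) := by
  unfold bd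
  exact continuous_finsetSum _ fun k _ => continuous_const.mul (cont_zc k)

variable {lam tau : ℝ} (ρ : Reg lam tau)

theorem cont_ph : Continuous ρ.ph := by
  unfold Reg.ph
  exact (ρ.γ_smooth.continuous.norm).pow 2

theorem ph_nonneg (p : ℂ) : 0 ≤ ρ.ph p := by
  unfold Reg.ph
  positivity

theorem cont_ph_pz (a : E n) : Continuous fun η => ρ.ph (pz a η) :=
  (cont_ph ρ).comp (cont_pz.comp (Continuous.prodMk_right a))

theorem ph_zero (a η : E n) (h : ‖a‖ ^ 2 + lam < ‖η‖ ^ 2) : ρ.ph (pz a η) = 0 := by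
  unfold Reg.ph
  rw [ρ.γ_zero, norm_zero]
  · ring
  · have h1 := Complex.abs_re_le_norm (pz a η)
    rw [pz_re] at h1
    have := neg_abs_le (‖a‖ ^ 2 - ‖η‖ ^ 2)
    linarith

theorem supp_ph (a : E n) : HasCompactSupport fun η => ρ.ph (pz a η) := by
  refine HasCompactSupport.intro (isCompact_closedBall (0 : E n) (‖a‖ ^ 2 + |lam| + 1))
    fun η hη => ph_zero ρ a η ?_
  have h1 : ‖a‖ ^ 2 + |lam| + 1 < ‖η‖ := by simpa using hη
  have h2 := le_abs_self lam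
  have h3 := abs_nonneg lam
  nlinarith [sq_nonneg ‖a‖]

theorem int_ph {F : Type} [NormedAddCommGroup F] (a : E n) {f : E n → F} (hf : Continuous f)
    (h0 : ∀ η, ρ.ph (pz a η) = 0 → f η = 0) : Integrable f :=
  hf.integrable_of_hasCompactSupport ((supp_ph ρ a).mono fun η hη h => hη (h0 η h))

theorem cont_ex : Continuous fun y : E n × E n => ex y.1 y.2 := contDiff_ex.continuous

theorem cont_ex_neg (a : E n) : Continuous fun η : E n => ex a (-η) :=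
  Continuous.comp' (g := fun y : E n × E n => ex y.1 y.2) (f := fun η : E n => (a, -η)) cont_ex
    (by fun_prop)

theorem cont_ex_right (a : E n) : Continuous fun η : E n => ex a η :=
  Continuous.comp' (g := fun y : E n × E n => ex y.1 y.2) (f := fun η : E n => (a, η)) cont_ex
    (by fun_prop)

/-- The extension operator is bounded. -/
theorem ext_bound (a : E n) {c : ℝ} (hc : 0 < c)
    (hb : ∀ g : H n, ∫⁻ η, ENNReal.ofReal (ρ.ph (pz a η) * ‖pr g (ex 0 (-η))‖ ^ 2) ≤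
      ENNReal.ofReal (c * ‖g‖ ^ 2)) {h : E n → ℂ} (hh : Continuous h) :
    ‖∫ η, ((ρ.ph (pz a η) : ℂ) * h η) • ex (0 : E n) (-η)‖ ^ 2 ≤
      c * ∫ η, ρ.ph (pz a η) * ‖h η‖ ^ 2 := by
  set w : H n := ∫ η, ((ρ.ph (pz a η) : ℂ) * h η) • ex (0 : E n) (-η) with hw
  have hp := cont_ph_pz ρ a
  have he := cont_ex_neg (0 : E n)
  have hi : Integrable fun η => ((ρ.ph (pz a η) : ℂ) * h η) • ex (0 : E n) (-η) :=
    int_ph ρ a (by fun_prop) fun η h0 => by simp [h0]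
  have hφ : Continuous fun η => pr (G.cj w) (ex (0 : E n) (-η)) := (pr (G.cj w)).continuous.comp he
  have h1 : pr (G.cj w) w = ∫ η, (ρ.ph (pz a η) : ℂ) * h η * pr (G.cj w) (ex 0 (-η)) := by
    conv_lhs => rw [hw, ← (pr (G.cj w)).integral_comp_comm hi]
    simp only [map_smul, smul_eq_mul]
  have h2 : ‖pr (G.cj w) w‖ = ‖w‖ ^ 2 := by
    rw [G.pr_cj, inner_self_eq_norm_sq_to_K]
    simp
  have i1 : Integrable fun η => ρ.ph (pz a η) * ‖h η‖ ^ 2 :=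
    int_ph ρ a (by fun_prop) fun η h0 => by simp [h0]
  have i2 : Integrable fun η => ρ.ph (pz a η) * ‖pr (G.cj w) (ex 0 (-η))‖ ^ 2 :=
    int_ph ρ a (by fun_prop) fun η h0 => by simp [h0]
  have h3 : ∫ η, ρ.ph (pz a η) * ‖pr (G.cj w) (ex 0 (-η))‖ ^ 2 ≤ c * ‖w‖ ^ 2 := by
    have := hb (G.cj w)
    rw [← ofReal_integral_eq_lintegral_ofReal i2 (Filter.Eventually.of_forall fun η =>
      mul_nonneg (ph_nonneg ρ _) (sq_nonneg _)), G.norm_cj] at this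
    exact (ENNReal.ofReal_le_ofReal_iff (by positivity)).1 this
  have h4 : ‖w‖ ^ 2 ≤ ∫ η, (c / 2 * (ρ.ph (pz a η) * ‖h η‖ ^ 2) +
      (2 * c)⁻¹ * (ρ.ph (pz a η) * ‖pr (G.cj w) (ex 0 (-η))‖ ^ 2)) := by
    rw [← h2, h1]
    refine norm_integral_le_of_norm_le ((i1.const_mul _).add (i2.const_mul _))
      (Filter.Eventually.of_forall fun η => ?_)
    rw [norm_mul, norm_mul, Complex.norm_real, Real.norm_of_nonneg (ph_nonneg ρ _)]
    have h5 := ph_nonneg ρ (pz a η)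
    generalize ρ.ph (pz a η) = p at *
    generalize ‖h η‖ = s
    generalize ‖pr (G.cj w) (ex 0 (-η))‖ = t
    have h6 : c / 2 * (p * s ^ 2) + (2 * c)⁻¹ * (p * t ^ 2) - p * s * t =
        (2 * c)⁻¹ * (p * (c * s - t) ^ 2) := by
      field_simp
      ring
    have h7 : 0 ≤ (2 * c)⁻¹ * (p * (c * s - t) ^ 2) := by positivity
    linarith
  rw [integral_add (i1.const_mul _) (i2.const_mul _), integral_const_mul, integral_const_mul] at h4
  have h8 : (2 * c)⁻¹ * ∫ η, ρ.ph (pz a η) * ‖pr (G.cj w) (ex 0 (-η))‖ ^ 2 ≤ ‖w‖ ^ 2 / 2 := by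
    calc _ ≤ (2 * c)⁻¹ * (c * ‖w‖ ^ 2) := by gcongr
      _ = _ := by field_simp
  linarith

theorem exists_transpose (T : H n →L[ℂ] H n) (w : H n) :
    ∃ k : H n, ‖k‖ ≤ ‖T‖ * ‖w‖ ∧ ∀ x, pr (T x) w = pr k x := by
  refine ⟨G.cj (ContinuousLinearMap.adjoint T (G.cj w)), ?_, fun x => ?_⟩
  · rw [G.norm_cj]
    calc _ ≤ ‖ContinuousLinearMap.adjoint T‖ * ‖G.cj w‖ := ContinuousLinearMap.le_opNorm _ _
      _ = _ := by rw [G.norm_cj, LinearIsometryEquiv.norm_map]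
  · rw [G.pr_cj, ContinuousLinearMap.adjoint_inner_left, pr_comm, G.pr_eq_inner]

/-- The fibre operator is bounded. -/
theorem fib_bound (a : E n) {c : ℝ} (hc : 0 < c)
    (hb1 : ∀ g : H n, ∫⁻ η, ENNReal.ofReal (ρ.ph (pz a η) * ‖pr g (ex 0 η)‖ ^ 2) ≤
      ENNReal.ofReal (c * ‖g‖ ^ 2))
    (hb2 : ∀ g : H n, ∫⁻ η, ENNReal.ofReal (ρ.ph (pz a η) * ‖pr g (ex 0 (-η))‖ ^ 2) ≤
      ENNReal.ofReal (c * ‖g‖ ^ 2)) (T : H n →L[ℂ] H n) {h : E n → ℂ} (hh : Continuous h) :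
    ∫⁻ b, ENNReal.ofReal (ρ.ph (pz a b) *
      ‖∫ η, (ρ.ph (pz a η) : ℂ) * pr (T (ex 0 b)) (ex 0 (-η)) * h η‖ ^ 2) ≤
      ENNReal.ofReal (c ^ 2 * ‖T‖ ^ 2) * ∫⁻ η, ENNReal.ofReal (ρ.ph (pz a η) * ‖h η‖ ^ 2) := by
  have hp := cont_ph_pz ρ a
  have he := cont_ex_neg (0 : E n)
  have hi : Integrable fun η => ((ρ.ph (pz a η) : ℂ) * h η) • ex (0 : E n) (-η) :=
    int_ph ρ a (by fun_prop) fun η h0 => by simp [h0]
  have hw := ext_bound ρ a hc hb2 hh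
  set w : H n := ∫ η, ((ρ.ph (pz a η) : ℂ) * h η) • ex (0 : E n) (-η) with hwd
  obtain ⟨k, hk, hk2⟩ := exists_transpose T w
  have h1 : ∀ b : E n, ∫ η, (ρ.ph (pz a η) : ℂ) * pr (T (ex 0 b)) (ex 0 (-η)) * h η =
      pr k (ex 0 b) := fun b => by
    rw [← hk2, hwd, ← (pr (T (ex 0 b))).integral_comp_comm hi]
    refine integral_congr_ae (Filter.Eventually.of_forall fun η => ?_)
    simp only [map_smul, smul_eq_mul]
    ring
  simp_rw [h1]
  have i1 : Integrable fun η => ρ.ph (pz a η) * ‖h η‖ ^ 2 :=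
    int_ph ρ a (by fun_prop) fun η h0 => by simp [h0]
  rw [← ofReal_integral_eq_lintegral_ofReal i1 (Filter.Eventually.of_forall fun η =>
    mul_nonneg (ph_nonneg ρ _) (sq_nonneg _)), ← ENNReal.ofReal_mul (by positivity)]
  refine (hb1 k).trans (ENNReal.ofReal_le_ofReal ?_)
  have h2 : ‖k‖ ^ 2 ≤ ‖T‖ ^ 2 * ‖w‖ ^ 2 := by
    rw [← mul_pow]
    gcongr
  calc c * ‖k‖ ^ 2 ≤ c * (‖T‖ ^ 2 * ‖w‖ ^ 2) := by gcongr
    _ ≤ c * (‖T‖ ^ 2 * (c * ∫ η, ρ.ph (pz a η) * ‖h η‖ ^ 2)) := by gcongr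
    _ = _ := by ring

theorem Wk.add {u g u' g' : H n} (h : Wk u g) (h' : Wk u' g') : Wk (u + u') (g + g') := by
  intro φ h1 h2
  rw [map_add, map_add, add_apply, add_apply, h φ h1 h2, h' φ h1 h2]

theorem isUnit_Mx (a : E n) : IsUnit (Mx a) :=
  ⟨⟨Mx a, Mx (-a), ContinuousLinearMap.ext (G.Mx_Mx_neg a),
    ContinuousLinearMap.ext (G.Mx_neg_Mx a)⟩, rfl⟩

end Pool.Agent.MP_71da5e_an.L.Cg

end

section

/-! The nondegeneracy of the first family of fields on the cone. -/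

namespace Pool.Agent.MP_71da5e_an.L

open scoped RealInnerProductSpace Real ComplexConjugate

variable {n : ℕ}

namespace WQH

theorem inner_sum (a b : E n) : ⟪a, b⟫ = ∑ k, a k * b k := by
  simp [PiLp.inner_apply, mul_comm]

theorem nsq_zc (a b : E n) : nsq (zc a b) = ‖a‖ ^ 2 + ‖b‖ ^ 2 := by
  rw [EuclideanSpace.real_norm_sq_eq, EuclideanSpace.real_norm_sq_eq, ← Finset.sum_add_distrib]
  refine Finset.sum_congr rfl fun k _ => ?_
  rw [Complex.sq_norm, zc, Complex.normSq_add_mul_I]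

theorem bd_rc_zc (y a b : E n) :
    bd (rc y) (zc a b) = ((⟪y, a⟫ : ℝ) : ℂ) + ((⟪y, b⟫ : ℝ) : ℂ) * Complex.I := by
  rw [inner_sum, inner_sum]
  simp only [bd, rc, zc, Complex.ofReal_sum, Complex.ofReal_mul, Finset.sum_mul,
    ← Finset.sum_add_distrib]
  exact Finset.sum_congr rfl fun k _ => by ring

theorem cone {a b : E n} (h : pz a b = 0) : ‖b‖ ^ 2 = ‖a‖ ^ 2 ∧ ⟪a, b⟫ = 0 := by
  have h1 := congrArg Complex.re h
  have h2 := congrArg Complex.im h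
  simp only [pz, bd, zc, Complex.re_sum, Complex.im_sum, Complex.mul_re, Complex.mul_im,
    Complex.add_re, Complex.add_im, Complex.ofReal_re, Complex.ofReal_im, Complex.I_re,
    Complex.I_im, Complex.zero_re, Complex.zero_im, mul_zero, mul_one, zero_add, add_zero,
    sub_self, Finset.sum_sub_distrib, Finset.sum_add_distrib] at h1 h2
  rw [EuclideanSpace.real_norm_sq_eq, EuclideanSpace.real_norm_sq_eq, inner_sum]
  simp only [sq]
  have h3 : ∑ k, b k * a k = ∑ k, a k * b k := Finset.sum_congr rfl fun k _ => mul_comm _ _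
  constructor <;> linarith

theorem proj (r P : E n) (T : Fin n → Fin n → ℝ) (c t : ℝ)
    (h : ∀ m, ∑ l, r l * T l m = c * r m - t * P m) :
    t ^ 2 * (‖r‖ ^ 2 * ‖P‖ ^ 2 - ⟪r, P⟫ ^ 2) ≤ (‖r‖ ^ 2) ^ 2 * ∑ l, ∑ m, T l m ^ 2 := by
  have h1 : ∑ m, (c * r m - t * P m) ^ 2 ≤ ‖r‖ ^ 2 * ∑ l, ∑ m, T l m ^ 2 := by
    rw [Finset.sum_comm, Finset.mul_sum]
    refine Finset.sum_le_sum fun m _ => ?_
    rw [← h, EuclideanSpace.real_norm_sq_eq]
    exact Finset.sum_mul_sq_le_sq_mul_sq _ _ _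
  have h2 : ∑ m, (c * r m - t * P m) ^ 2 =
      c ^ 2 * ‖r‖ ^ 2 - 2 * c * t * ⟪r, P⟫ + t ^ 2 * ‖P‖ ^ 2 := by
    rw [EuclideanSpace.real_norm_sq_eq, EuclideanSpace.real_norm_sq_eq, inner_sum]
    simp only [Finset.mul_sum, ← Finset.sum_add_distrib, ← Finset.sum_sub_distrib]
    exact Finset.sum_congr rfl fun k _ => by ring
  rw [h2] at h1
  have h3 := mul_le_mul_of_nonneg_left h1 (sq_nonneg ‖r‖)
  nlinarith [sq_nonneg (c * ‖r‖ ^ 2 - t * ⟪r, P⟫)]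

theorem perp {a b : E n} (r : E n) (h1 : ‖b‖ ^ 2 = ‖a‖ ^ 2) (h2 : ⟪a, b⟫ = 0) :
    ⟪r, b⟫ ^ 2 ≤ ‖a‖ ^ 2 * ‖r‖ ^ 2 - ⟪a, r⟫ ^ 2 := by
  rcases eq_or_ne a 0 with rfl | ha
  · have hb : b = 0 := by simpa using h1
    simp [hb]
  have hA : 0 < ‖a‖ ^ 2 := by positivity
  have h3 : ⟪(‖a‖ ^ 2) • r - ⟪a, r⟫ • a, b⟫ = ‖a‖ ^ 2 * ⟪r, b⟫ := by
    rw [inner_sub_left, real_inner_smul_left, real_inner_smul_left, h2]; ring
  have h4 : ‖(‖a‖ ^ 2) • r - ⟪a, r⟫ • a‖ ^ 2 = ‖a‖ ^ 2 * (‖a‖ ^ 2 * ‖r‖ ^ 2 - ⟪a, r⟫ ^ 2) := by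
    rw [norm_sub_sq_real, norm_smul, norm_smul, real_inner_smul_left, real_inner_smul_right,
      mul_pow, mul_pow, Real.norm_eq_abs, Real.norm_eq_abs, sq_abs, sq_abs, real_inner_comm a r]
    ring
  have h5 : ⟪(‖a‖ ^ 2) • r - ⟪a, r⟫ • a, b⟫ ^ 2 ≤
      ‖(‖a‖ ^ 2) • r - ⟪a, r⟫ • a‖ ^ 2 * ‖b‖ ^ 2 := by
    rw [← mul_pow, ← sq_abs]
    exact pow_le_pow_left₀ (abs_nonneg _) (abs_real_inner_le_norm _ _) 2
  rw [h3, h4, h1] at h5
  refine le_of_mul_le_mul_left ?_ (mul_pos hA hA)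
  nlinarith

theorem num {s u ρ A B c t₁ t₂ : ℝ} (hu : ρ ^ 2 ≤ u) (hA : A = s ^ 2 / 4 + s * ρ + u)
    (hB : B = s ^ 2 / 4 - s * ρ + u) (hA0 : 0 ≤ A) (hB0 : 0 ≤ B) (hc : c ^ 2 ≤ A * B)
    (hX : 0 ≤ A + B + 2 * c) (h1 : t₁ ^ 2 ≤ s ^ 2 / 4 * (u - ρ ^ 2))
    (h2 : t₂ ^ 2 ≤ s ^ 2 / 4 * (u - ρ ^ 2)) (h3 : (A * t₂ + B * t₁) ^ 2 ≤ u * (A * B * (A + B + 2 * c))) :
    4 * (A * B) * s ^ 2 * u ^ 2 ≤ 2 * (s ^ 2 + 4 * u) *
      (((A + B) * s / 2) ^ 2 * (u - ρ ^ 2) + (u * (A * B * (A + B + 2 * c)) - (A * t₂ + B * t₁) ^ 2)) := by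
  have hu0 : 0 ≤ u := (sq_nonneg _).trans hu
  have hAB : 0 ≤ A * B := mul_nonneg hA0 hB0
  set w := s ^ 2 / 4 * (u - ρ ^ 2) with hw
  have hw0 : 0 ≤ w := mul_nonneg (by positivity) (sub_nonneg.2 hu)
  have hJ : ((A + B) * s / 2) ^ 2 * (u - ρ ^ 2) = (A + B) ^ 2 * w := by rw [hw]; ring
  have h12 : t₁ * t₂ ≤ w := by nlinarith [sq_nonneg (t₁ - t₂)]
  have h4 : (A * t₂ + B * t₁) ^ 2 ≤ (A + B) ^ 2 * w := by
    have e1 := mul_le_mul_of_nonneg_left h2 (sq_nonneg A)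
    have e2 := mul_le_mul_of_nonneg_left h1 (sq_nonneg B)
    have e3 := mul_le_mul_of_nonneg_left h12 hAB
    nlinarith
  rw [hJ]
  set D := (A + B) ^ 2 * w + (u * (A * B * (A + B + 2 * c)) - (A * t₂ + B * t₁) ^ 2) with hD
  have d1 : u * (A * B * (A + B + 2 * c)) ≤ D := by linarith
  have d2 : 4 * (A * B) * w ≤ D := by
    have := mul_le_mul_of_nonneg_right (show 4 * (A * B) ≤ (A + B) ^ 2 by
      nlinarith [sq_nonneg (A - B)]) hw0
    linarith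
  have hY : A + B - 2 * c ≤ 2 * (A + B) := by linarith
  have h5 : (A - B) ^ 2 ≤ (A + B + 2 * c) * (2 * (A + B)) := by
    have := mul_le_mul_of_nonneg_left hY hX
    nlinarith
  have h6 : 4 * s ^ 2 * ρ ^ 2 ≤ (A + B + 2 * c) * (s ^ 2 + 4 * u) := by
    have e1 : (A - B) ^ 2 = 4 * s ^ 2 * ρ ^ 2 := by rw [hA, hB]; ring
    have e2 : 2 * (A + B) = s ^ 2 + 4 * u := by rw [hA, hB]; ring
    rwa [e1, e2] at h5
  have hD0 : 0 ≤ D := le_trans (by positivity) d2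
  have k1 : u * (A * B) * (4 * s ^ 2 * ρ ^ 2) ≤ (s ^ 2 + 4 * u) * D := by
    have e1 := mul_le_mul_of_nonneg_left h6 (mul_nonneg hu0 hAB)
    have e2 := mul_le_mul_of_nonneg_left d1 (show 0 ≤ s ^ 2 + 4 * u by positivity)
    nlinarith
  have k2 : 4 * u * (4 * (A * B) * w) ≤ (s ^ 2 + 4 * u) * D := by
    have e1 := mul_le_mul_of_nonneg_left d2 (show 0 ≤ 4 * u by positivity)
    have e2 := mul_nonneg (sq_nonneg s) hD0
    nlinarith
  rw [hw] at k2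
  nlinarith

theorem cs (a b : E n) : ⟪a, b⟫ ^ 2 ≤ ‖a‖ ^ 2 * ‖b‖ ^ 2 := by
  rw [← mul_pow, ← sq_abs]
  exact pow_le_pow_left₀ (abs_nonneg _) (abs_real_inner_le_norm _ _) 2

theorem key {e : E n} (he : ‖e‖ = 1) (p : B n) {b₁ b₂ : E n}
    (h1 : ‖b₁‖ ^ 2 = ‖a1 e p‖ ^ 2) (h1' : ⟪a1 e p, b₁⟫ = 0)
    (h2 : ‖b₂‖ ^ 2 = ‖a2 e p‖ ^ 2) (h2' : ⟪a2 e p, b₂⟫ = 0) {P Q : E n}
    (hP : P = (‖a1 e p‖ ^ 2) • a2 e p + (‖a2 e p‖ ^ 2) • a1 e p)
    (hQ : Q = (‖a1 e p‖ ^ 2) • b₂ + (‖a2 e p‖ ^ 2) • b₁) :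
    4 * (‖a1 e p‖ ^ 2 * ‖a2 e p‖ ^ 2) * p.1 ^ 2 * (‖p.2‖ ^ 2) ^ 2 ≤
      2 * (p.1 ^ 2 + 4 * ‖p.2‖ ^ 2) * ((‖p.2‖ ^ 2 * ‖P‖ ^ 2 - ⟪p.2, P⟫ ^ 2) +
        (‖p.2‖ ^ 2 * ‖Q‖ ^ 2 - ⟪p.2, Q⟫ ^ 2)) := by
  obtain ⟨s, r⟩ := p
  have hu : ⟪e, r⟫ ^ 2 ≤ ‖r‖ ^ 2 := by simpa [he] using cs e r
  have hn : ∀ α β : ℝ, ‖α • e + β • r‖ ^ 2 = α ^ 2 + 2 * α * β * ⟪e, r⟫ + β ^ 2 * ‖r‖ ^ 2 := by
    intro α β
    rw [norm_add_sq_real, norm_smul, norm_smul, real_inner_smul_left, real_inner_smul_right,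
      mul_pow, mul_pow, Real.norm_eq_abs, Real.norm_eq_abs, sq_abs, sq_abs, he]
    ring
  have hi : ∀ α β : ℝ, ⟪α • e + β • r, r⟫ = α * ⟪e, r⟫ + β * ‖r‖ ^ 2 := by
    intro α β
    rw [inner_add_left, real_inner_smul_left, real_inner_smul_left, real_inner_self_eq_norm_sq]
  have e1 : a1 e (s, r) = (s / 2) • e + (1 : ℝ) • r := by simp [a1]
  have e2 : a2 e (s, r) = (s / 2) • e + (-1 : ℝ) • r := by simp [a2, sub_eq_add_neg]
  have hA : ‖a1 e (s, r)‖ ^ 2 = s ^ 2 / 4 + s * ⟪e, r⟫ + ‖r‖ ^ 2 := by rw [e1, hn]; ring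
  have hB : ‖a2 e (s, r)‖ ^ 2 = s ^ 2 / 4 - s * ⟪e, r⟫ + ‖r‖ ^ 2 := by rw [e2, hn]; ring
  have t1 : ⟪r, b₁⟫ ^ 2 ≤ s ^ 2 / 4 * (‖r‖ ^ 2 - ⟪e, r⟫ ^ 2) := by
    refine (perp r h1 h1').trans_eq ?_
    rw [hA, e1, hi]; ring
  have t2 : ⟪r, b₂⟫ ^ 2 ≤ s ^ 2 / 4 * (‖r‖ ^ 2 - ⟪e, r⟫ ^ 2) := by
    refine (perp r h2 h2').trans_eq ?_
    rw [hB, e2, hi]; ring
  have hc := cs b₁ b₂
  have hX := sq_nonneg ‖b₁ + b₂‖
  rw [norm_add_sq_real] at hX
  have hq := cs r Q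
  set A := ‖a1 e (s, r)‖ ^ 2 with hAd
  set B := ‖a2 e (s, r)‖ ^ 2 with hBd
  have hA0 : 0 ≤ A := sq_nonneg _
  have hB0 : 0 ≤ B := sq_nonneg _
  have q1 : ‖Q‖ ^ 2 = A * B * (A + B + 2 * ⟪b₁, b₂⟫) := by
    rw [hQ, norm_add_sq_real, norm_smul, norm_smul, real_inner_smul_left, real_inner_smul_right,
      mul_pow, mul_pow, Real.norm_eq_abs, Real.norm_eq_abs, sq_abs, sq_abs, h1, h2,
      real_inner_comm b₁ b₂]
    ring
  have q2 : ⟪r, Q⟫ = A * ⟪r, b₂⟫ + B * ⟪r, b₁⟫ := by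
    rw [hQ, inner_add_right, real_inner_smul_right, real_inner_smul_right]
  have q3 : P = ((A + B) * s / 2) • e + (B - A) • r := by
    rw [hP, e1, e2]; module
  have q4 : ‖r‖ ^ 2 * ‖P‖ ^ 2 - ⟪r, P⟫ ^ 2 = ((A + B) * s / 2) ^ 2 * (‖r‖ ^ 2 - ⟪e, r⟫ ^ 2) := by
    rw [real_inner_comm P r, q3, hn, hi]; ring
  rw [h1, h2] at hc hX
  rw [q1, q2] at hq
  change 4 * (A * B) * s ^ 2 * (‖r‖ ^ 2) ^ 2 ≤ 2 * (s ^ 2 + 4 * ‖r‖ ^ 2) *
    ((‖r‖ ^ 2 * ‖P‖ ^ 2 - ⟪r, P⟫ ^ 2) + (‖r‖ ^ 2 * ‖Q‖ ^ 2 - ⟪r, Q⟫ ^ 2))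
  rw [q4, q1, q2]
  exact num hu hA hB hA0 hB0 hc (by linarith) t1 t2 hq

theorem entry (e : E n) (p : B n) (hs : p.1 ≠ 0) (ζ : V n × V n) (l m : Fin n) :
    (p.1 : ℂ) ^ 2 * bd (rc ((p.1)⁻¹ • p.2)) (Vy p (fH e l m ζ)) =
      p.1 * (p.2 m * nv e ζ l - p.2 l * nv e ζ m) -
        (ζ.1 l * ζ.2 m - ζ.1 m * ζ.2 l) * ((‖p.2‖ ^ 2 : ℝ) : ℂ) := by
  have hs' : (p.1 : ℂ) ≠ 0 := Complex.ofReal_ne_zero.2 hs
  have h : ∀ k, (p.1 : ℂ) ^ 2 * (rc ((p.1)⁻¹ • p.2) k * Vy p (fH e l m ζ) k) =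
      (if k = m then (p.1 : ℂ) * (p.2 k * nv e ζ l) else 0) -
        (if k = l then (p.1 : ℂ) * (p.2 k * nv e ζ m) else 0) -
        (ζ.1 l * ζ.2 m - ζ.1 m * ζ.2 l) * ((p.2 k ^ 2 : ℝ) : ℂ) := by
    intro k
    simp only [rc, Vy, fH, PiLp.smul_apply, smul_eq_mul]
    push_cast
    split_ifs <;> field_simp <;> ring
  rw [bd, Finset.mul_sum, Finset.sum_congr rfl fun k _ => h k, EuclideanSpace.real_norm_sq_eq]
  simp only [Finset.sum_sub_distrib, Finset.sum_ite_eq', Finset.mem_univ, if_true,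
    Complex.ofReal_sum, Finset.mul_sum]
  ring

theorem contr (e : E n) (p : B n) (hs : p.1 ≠ 0) (ζ : V n × V n) (m : Fin n) :
    ∑ l, (p.2 l : ℂ) * ((p.1 : ℂ) ^ 2 * bd (rc ((p.1)⁻¹ • p.2)) (Vy p (fH e l m ζ))) =
      p.1 * bd (rc p.2) (nv e ζ) * p.2 m - ((‖p.2‖ ^ 2 : ℝ) : ℂ) *
        (bd (rc (a1 e p)) ζ.1 * ζ.2 m + bd (rc (a2 e p)) ζ.2 * ζ.1 m) := by
  have h1 : bd (rc (a1 e p)) ζ.1 = p.1 / 2 * bd (rc e) ζ.1 + bd (rc p.2) ζ.1 := by
    simp only [bd, rc, a1, PiLp.add_apply, PiLp.smul_apply, smul_eq_mul, Finset.mul_sum,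
      ← Finset.sum_add_distrib]
    exact Finset.sum_congr rfl fun k _ => by push_cast; ring
  have h2 : bd (rc (a2 e p)) ζ.2 = p.1 / 2 * bd (rc e) ζ.2 - bd (rc p.2) ζ.2 := by
    simp only [bd, rc, a2, PiLp.sub_apply, PiLp.smul_apply, smul_eq_mul, Finset.mul_sum,
      ← Finset.sum_sub_distrib]
    exact Finset.sum_congr rfl fun k _ => by push_cast; ring
  have h3 : ((‖p.2‖ ^ 2 : ℝ) : ℂ) = ∑ l, (p.2 l : ℂ) * p.2 l := by
    rw [EuclideanSpace.real_norm_sq_eq]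
    push_cast
    exact Finset.sum_congr rfl fun k _ => sq _
  have h4 : ∀ l, (p.2 l : ℂ) * ((p.1 : ℂ) ^ 2 * bd (rc ((p.1)⁻¹ • p.2)) (Vy p (fH e l m ζ))) =
      (p.1 * p.2 m) * (rc p.2 l * nv e ζ l) - (p.1 * nv e ζ m) * ((p.2 l : ℂ) * p.2 l) -
        (((‖p.2‖ ^ 2 : ℝ) : ℂ) * ζ.2 m) * (rc p.2 l * ζ.1 l) +
        (((‖p.2‖ ^ 2 : ℝ) : ℂ) * ζ.1 m) * (rc p.2 l * ζ.2 l) := by
    intro l
    rw [entry e p hs, rc]
    ring
  rw [Finset.sum_congr rfl fun l _ => h4 l, h1, h2]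
  simp only [Finset.sum_add_distrib, Finset.sum_sub_distrib, ← Finset.mul_sum]
  rw [← h3]
  change _ * bd (rc p.2) (nv e ζ) - _ - _ * bd (rc p.2) ζ.1 + _ * bd (rc p.2) ζ.2 = _
  rw [show nv e ζ m = (bd (rc e) ζ.1 * ζ.2 m + bd (rc e) ζ.2 * ζ.1 m) / 2 from rfl]
  ring

end WQH

theorem QH_ge {e : E n} (he : ‖e‖ = 1) {x : X n} (hs : 0 < x.1.1) (h1 : p1 e x = 0)
    (h2 : p2 e x = 0) :
    PP e x * (‖x.1.2‖ ^ 2) ^ 2 ≤ 2 * x.1.1 ^ 2 * (x.1.1 ^ 2 + 4 * ‖x.1.2‖ ^ 2) * QH e x := by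
  obtain ⟨c1, c1'⟩ := WQH.cone h1
  obtain ⟨c2, c2'⟩ := WQH.cone h2
  have hQ0 : 0 ≤ QH e x :=
    Finset.sum_nonneg fun _ _ => Finset.sum_nonneg fun _ _ => sq_nonneg _
  rcases (sq_nonneg ‖x.1.2‖).eq_or_lt with hu | hu
  · rw [← hu]
    simp only [ne_eq, OfNat.ofNat_ne_zero, not_false_eq_true, zero_pow, mul_zero, add_zero]
    positivity
  have hk := WQH.key he x.1 c1 c1' c2 c2' rfl rfl
  set P := (‖a1 e x.1‖ ^ 2) • a2 e x.1 + (‖a2 e x.1‖ ^ 2) • a1 e x.1 with hP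
  set Q := (‖a1 e x.1‖ ^ 2) • x.2.2 + (‖a2 e x.1‖ ^ 2) • x.2.1 with hQ
  set T : Fin n → Fin n → ℂ := fun l m => (x.1.1 : ℂ) ^ 2 *
    bd (rc ((x.1.1)⁻¹ • x.1.2)) (Vy x.1 (fH e l m (zz e x))) with hT
  set c : ℂ := x.1.1 * bd (rc x.1.2) (nv e (zz e x)) with hc
  have hm : ∀ m, ∑ l, (x.1.2 l : ℂ) * T l m =
      c * x.1.2 m - ((‖x.1.2‖ ^ 2 : ℝ) : ℂ) * ((P m : ℂ) + (Q m : ℂ) * Complex.I) := by
    intro m
    rw [WQH.contr e x.1 hs.ne' (zz e x) m]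
    simp only [zz, z1, z2, WQH.bd_rc_zc, c1', c2', real_inner_self_eq_norm_sq, zc, hP, hQ,
      PiLp.add_apply, PiLp.smul_apply, smul_eq_mul, hc]
    push_cast
    ring
  have hre := WQH.proj x.1.2 P (fun l m => (T l m).re) c.re (‖x.1.2‖ ^ 2) fun m => by
    have := congrArg Complex.re (hm m)
    simpa [Complex.re_sum, -Complex.ofReal_pow] using this
  have him := WQH.proj x.1.2 Q (fun l m => (T l m).im) c.im (‖x.1.2‖ ^ 2) fun m => by
    have := congrArg Complex.im (hm m)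
    simpa [Complex.im_sum, -Complex.ofReal_pow] using this
  have hsum : ∑ l, ∑ m, (T l m).re ^ 2 + ∑ l, ∑ m, (T l m).im ^ 2 = x.1.1 ^ 4 * QH e x := by
    simp only [QH, Finset.mul_sum, ← Finset.sum_add_distrib]
    refine Finset.sum_congr rfl fun l _ => Finset.sum_congr rfl fun m _ => ?_
    have h3 : (T l m).re ^ 2 + (T l m).im ^ 2 = ‖T l m‖ ^ 2 := by
      rw [Complex.sq_norm, Complex.normSq_apply]; ring
    rw [h3, hT]
    simp only [norm_mul, norm_pow, Complex.norm_real, Real.norm_eq_abs, mul_pow, sq_abs]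
    ring
  have hD : (‖x.1.2‖ ^ 2 * ‖P‖ ^ 2 - ⟪x.1.2, P⟫ ^ 2) + (‖x.1.2‖ ^ 2 * ‖Q‖ ^ 2 - ⟪x.1.2, Q⟫ ^ 2) ≤
      x.1.1 ^ 4 * QH e x := by
    refine le_of_mul_le_mul_left ?_ (pow_pos hu 2)
    rw [← hsum, mul_add, mul_add]
    exact add_le_add hre him
  have hPP : PP e x = 4 * (‖a1 e x.1‖ ^ 2 * ‖a2 e x.1‖ ^ 2) := by
    rw [PP, z1, z2, WQH.nsq_zc, WQH.nsq_zc, c1, c2]; ring
  have h4 := hk.trans (mul_le_mul_of_nonneg_left hD (by positivity))
  refine le_of_mul_le_mul_left ?_ (pow_pos hs 2)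
  rw [hPP]
  linarith

end Pool.Agent.MP_71da5e_an.L

end
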