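import Mathlib

section

namespace Pool.Agent.MP_71da5e_an.L.Ac

open MeasureTheory Metric Set Complex Filter Topology
open scoped ContDiff ComplexConjugate Convolution

variable {Y : Type} [NormedAddCommGroup Y] [NormedSpace ℝ Y]

/-- A complex directional derivative. -/
noncomputable def cd (y z : Y) (s : ℂ) (g : Y → ℂ) (x : Y) : ℂ :=
  fderiv ℝ g x y + s * fderiv ℝ g x z

lemma cd_mul (y z : Y) (s : ℂ) {f g : Y → ℂ} (hf : Differentiable ℝ f) (hg : Differentiable ℝ g)
    (x : Y) : cd y z s (fun x => f x * g x) x = cd y z s f x * g x + f x * cd y z s g x := by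
  unfold cd
  rw [fderiv_fun_mul (hf x) (hg x)]
  simp only [add_apply, smul_apply, smul_eq_mul]
  ring

lemma cd_add (y z : Y) (s : ℂ) {f g : Y → ℂ} (hf : Differentiable ℝ f) (hg : Differentiable ℝ g)
    (x : Y) : cd y z s (fun x => f x + g x) x = cd y z s f x + cd y z s g x := by
  unfold cd
  rw [fderiv_fun_add (hf x) (hg x)]
  simp only [add_apply]
  ring

lemma cd_sum {ι : Type} [Fintype ι] (y z : Y) (s : ℂ) {f : ι → Y → ℂ}
    (hf : ∀ k, Differentiable ℝ (f k)) (x : Y) :
    cd y z s (fun x => ∑ k, f k x) x = ∑ k, cd y z s (f k) x := by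
  unfold cd
  rw [fderiv_fun_sum (fun k _ => hf k x)]
  simp only [sum_apply, Finset.sum_add_distrib, Finset.mul_sum]

lemma fderiv_conj (g : Y → ℂ) (x y : Y) :
    fderiv ℝ (fun x => conj (g x)) x y = conj (fderiv ℝ g x y) := by
  have := conjCLE.comp_fderiv (f := g) (x := x)
  have h2 : (fun x => conj (g x)) = conjCLE ∘ g := rfl
  rw [h2, this]; rfl

lemma cd_conj (y z : Y) (s : ℂ) (g : Y → ℂ) (x : Y) :
    cd y z s (fun x => conj (g x)) x = conj (cd y z (conj s) g x) := by
  unfold cd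
  simp [fderiv_conj]

lemma contDiff_conj {k : WithTop ℕ∞} {g : Y → ℂ} (hg : ContDiff ℝ k g) :
    ContDiff ℝ k (fun x => conj (g x)) := conjCLE.contDiff.comp hg

lemma contDiff_dd {g : Y → ℂ} (hg : ContDiff ℝ ∞ g) (y : Y) :
    ContDiff ℝ ∞ (fun x => fderiv ℝ g x y) :=
  (hg.fderiv_right (m := ∞) (by simp)).clm_apply contDiff_const

lemma continuous_dd {g : Y → ℂ} (hg : ContDiff ℝ 1 g) (y : Y) :
    Continuous (fun x => fderiv ℝ g x y) :=
  (hg.continuous_fderiv (by simp)).clm_apply continuous_const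

lemma contDiff_cd (y z : Y) (s : ℂ) {g : Y → ℂ} (hg : ContDiff ℝ ∞ g) :
    ContDiff ℝ ∞ (cd y z s g) :=
  (contDiff_dd hg y).add (contDiff_const.mul (contDiff_dd hg z))

lemma continuous_cd (y z : Y) (s : ℂ) {g : Y → ℂ} (hg : ContDiff ℝ 1 g) :
    Continuous (cd y z s g) :=
  (continuous_dd hg y).add (continuous_const.mul (continuous_dd hg z))

lemma dd_comm {g : Y → ℂ} (hg : ContDiff ℝ ∞ g) (x y z : Y) :
    fderiv ℝ (fun x => fderiv ℝ g x y) x z = fderiv ℝ (fun x => fderiv ℝ g x z) x y := by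
  have hd : DifferentiableAt ℝ (fderiv ℝ g) x :=
    ((hg.fderiv_right (m := ∞) (by simp)).differentiable (by simp)) x
  have h1 : ∀ y z : Y, fderiv ℝ (fun x => fderiv ℝ g x y) x z = fderiv ℝ (fderiv ℝ g) x z y := by
    intro y z
    rw [fderiv_clm_apply hd (differentiableAt_const y)]
    simp
  rw [h1, h1]
  have h2 : IsSymmSndFDerivAt ℝ g x :=
    hg.contDiffAt.isSymmSndFDerivAt (by simp; exact WithTop.coe_le_coe.mpr le_top)
  exact h2 z y

lemma cd_cd (y z y' z' : Y) (s s' : ℂ) {g : Y → ℂ} (hg : ContDiff ℝ ∞ g) (x : Y) :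
    cd y z s (cd y' z' s' g) x =
      fderiv ℝ (fun x => fderiv ℝ g x y') x y + s' * fderiv ℝ (fun x => fderiv ℝ g x z') x y +
        s * (fderiv ℝ (fun x => fderiv ℝ g x y') x z +
          s' * fderiv ℝ (fun x => fderiv ℝ g x z') x z) := by
  have h1 := (contDiff_dd hg y').differentiable (by simp)
  have h2 := (contDiff_dd hg z').differentiable (by simp)
  have h3 : cd y' z' s' g = fun x => fderiv ℝ g x y' + (fun _ => s') x * fderiv ℝ g x z' := rfl
  rw [h3, cd_add y z s h1 ((differentiable_const s').fun_mul h2),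
    cd_mul y z s (differentiable_const s') h2]
  unfold cd
  simp only [fderiv_fun_const, Pi.zero_apply, zero_apply]
  ring

lemma cd_comm (y z y' z' : Y) (s s' : ℂ) {g : Y → ℂ} (hg : ContDiff ℝ ∞ g) (x : Y) :
    cd y z s (cd y' z' s' g) x = cd y' z' s' (cd y z s g) x := by
  rw [cd_cd _ _ _ _ _ _ hg, cd_cd _ _ _ _ _ _ hg, dd_comm hg x y' y, dd_comm hg x z' y,
    dd_comm hg x y' z, dd_comm hg x z' z]
  ring

variable {ι : Type} [Fintype ι]

/-- A first order operator. -/
noncomputable def Op (u v : ι → Y) (b : ι → Y → ℂ) (s : ℂ) (g : Y → ℂ) (x : Y) : ℂ :=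
  ∑ k, b k x * cd (u k) (v k) s g x

/-- Its divergence. -/
noncomputable def dv (u v : ι → Y) (b : ι → Y → ℂ) (s : ℂ) (x : Y) : ℂ :=
  ∑ k, cd (u k) (v k) s (b k) x

variable {u v : ι → Y} {a b : ι → Y → ℂ}

lemma Op_mul (s : ℂ) {f g : Y → ℂ} (hf : Differentiable ℝ f) (hg : Differentiable ℝ g) (x : Y) :
    Op u v b s (fun x => f x * g x) x = Op u v b s f x * g x + f x * Op u v b s g x := by
  unfold Op
  simp only [cd_mul _ _ _ hf hg, Finset.sum_mul, Finset.mul_sum, ← Finset.sum_add_distrib]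
  exact Finset.sum_congr rfl fun k _ => by ring

lemma Op_add (s : ℂ) {f g : Y → ℂ} (hf : Differentiable ℝ f) (hg : Differentiable ℝ g) (x : Y) :
    Op u v b s (fun x => f x + g x) x = Op u v b s f x + Op u v b s g x := by
  unfold Op
  simp only [cd_add _ _ _ hf hg, ← Finset.sum_add_distrib]
  exact Finset.sum_congr rfl fun k _ => by ring

lemma Op_conj (s : ℂ) (g : Y → ℂ) (x : Y) :
    Op u v b s (fun x => conj (g x)) x =
      conj (Op u v (fun k x => conj (b k x)) (conj s) g x) := by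
  unfold Op
  simp [cd_conj, map_sum]

lemma contDiff_Op (hb : ∀ k, ContDiff ℝ ∞ (b k)) (s : ℂ) {g : Y → ℂ} (hg : ContDiff ℝ ∞ g) :
    ContDiff ℝ ∞ (Op u v b s g) :=
  ContDiff.sum fun k _ => (hb k).mul (contDiff_cd _ _ _ hg)

lemma continuous_Op (hb : ∀ k, ContDiff ℝ ∞ (b k)) (s : ℂ) {g : Y → ℂ} (hg : ContDiff ℝ 1 g) :
    Continuous (Op u v b s g) :=
  continuous_finsetSum _ fun k _ => (hb k).continuous.mul (continuous_cd _ _ _ hg)

lemma contDiff_dv (hb : ∀ k, ContDiff ℝ ∞ (b k)) (s : ℂ) : ContDiff ℝ ∞ (dv u v b s) :=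
  ContDiff.sum fun k _ => contDiff_cd _ _ _ (hb k)

lemma Op_zero (s : ℂ) {g : Y → ℂ} {x : Y} (hx : x ∉ tsupport g) : Op u v b s g x = 0 := by
  unfold Op cd
  have : fderiv ℝ g x = 0 := by
    by_contra h
    exact hx (support_fderiv_subset ℝ (Function.mem_support.mpr h))
  simp [this]

lemma compact_Op (s : ℂ) {g : Y → ℂ} (hc : HasCompactSupport g) :
    HasCompactSupport (Op u v b s g) :=
  HasCompactSupport.intro hc fun _ hx => Op_zero s hx

/-- the holomorphy of the coefficients -/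
def Hol (u v : ι → Y) (a : ι → Y → ℂ) : Prop :=
  (∀ k, ContDiff ℝ ∞ (a k)) ∧ ∀ j k x, cd (u j) (v j) I (a k) x = 0

lemma Op_Op (h : Hol u v a) {g : Y → ℂ} (hg : ContDiff ℝ ∞ g) (x : Y) :
    Op u v (fun k x => conj (a k x)) I (Op u v a (-I) g) x =
      ∑ j, ∑ k, conj (a j x) * a k x * cd (u j) (v j) I (cd (u k) (v k) (-I) g) x := by
  have hd : ∀ k, Differentiable ℝ (a k) := fun k => (h.1 k).differentiable (by simp)
  have hd2 : ∀ k, Differentiable ℝ (cd (u k) (v k) (-I) g) :=
    fun k => (contDiff_cd _ _ _ hg).differentiable (by simp)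
  have e : Op u v a (-I) g = fun x => ∑ k, (fun k x => a k x * cd (u k) (v k) (-I) g x) k x := rfl
  rw [e]
  unfold Op
  refine Finset.sum_congr rfl fun j _ => ?_
  rw [cd_sum _ _ _ (fun k => (hd k).fun_mul (hd2 k)), Finset.mul_sum]
  refine Finset.sum_congr rfl fun k _ => ?_
  rw [cd_mul _ _ _ (hd k) (hd2 k), h.2]
  ring

lemma Op_Op' (h : Hol u v a) {g : Y → ℂ} (hg : ContDiff ℝ ∞ g) (x : Y) :
    Op u v a (-I) (Op u v (fun k x => conj (a k x)) I g) x =
      ∑ j, ∑ k, conj (a j x) * a k x * cd (u j) (v j) I (cd (u k) (v k) (-I) g) x := by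
  have hd : ∀ k, Differentiable ℝ (fun x => conj (a k x)) :=
    fun k => (contDiff_conj (h.1 k)).differentiable (by simp)
  have hd2 : ∀ k, Differentiable ℝ (cd (u k) (v k) I g) :=
    fun k => (contDiff_cd _ _ _ hg).differentiable (by simp)
  have e : Op u v (fun k x => conj (a k x)) I g =
      fun x => ∑ k, (fun k x => conj (a k x) * cd (u k) (v k) I g x) k x := rfl
  rw [e, Finset.sum_comm]
  unfold Op
  refine Finset.sum_congr rfl fun k _ => ?_
  rw [cd_sum _ _ _ (fun j => (hd j).fun_mul (hd2 j)), Finset.mul_sum]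
  refine Finset.sum_congr rfl fun j _ => ?_
  rw [cd_mul _ _ _ (hd j) (hd2 j), cd_conj, cd_comm _ _ _ _ _ _ hg]
  have : conj (-I) = I := by simp
  rw [this, h.2]
  simp only [map_zero]
  ring

lemma Op_dv (h : Hol u v a) (x : Y) :
    Op u v (fun k x => conj (a k x)) I (dv u v a (-I)) x = 0 := by
  have e : dv u v a (-I) = fun x => ∑ k, (fun k x => cd (u k) (v k) (-I) (a k) x) k x := rfl
  rw [e]
  unfold Op
  refine Finset.sum_eq_zero fun j _ => ?_
  rw [cd_sum _ _ _ (fun k => (contDiff_cd _ _ _ (h.1 k)).differentiable (by simp))]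
  rw [Finset.sum_eq_zero, mul_zero]
  intro k _
  show cd (u j) (v j) I (cd (u k) (v k) (-I) (a k)) x = 0
  rw [cd_comm _ _ _ _ _ _ (h.1 k)]
  have : cd (u j) (v j) I (a k) = fun _ => 0 := funext (h.2 j k)
  rw [this]
  simp [cd]

lemma dv_conj (x : Y) : dv u v (fun k x => conj (a k x)) I x = conj (dv u v a (-I) x) := by
  unfold dv
  simp [cd_conj, map_sum]

/-- the real field -/
noncomputable def fA (u v : ι → Y) (c : ι → ℂ) : Y := ∑ k, ((c k).re • u k + (c k).im • v k)

/-- the rotated real field -/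
noncomputable def fB (u v : ι → Y) (c : ι → ℂ) : Y := ∑ k, ((-(c k).im) • u k + (c k).re • v k)

lemma Op_bar (g : Y → ℂ) (x : Y) : Op u v (fun k x => conj (a k x)) I g x =
    cd (fA u v fun k => a k x) (fB u v fun k => a k x) I g x := by
  unfold Op cd fA fB
  simp only [map_sum, map_add, map_smul, Finset.mul_sum, ← Finset.sum_add_distrib]
  refine Finset.sum_congr rfl fun k _ => ?_
  have e : conj (a k x) = ((a k x).re : ℂ) - (a k x).im * I := by
    apply Complex.ext <;> simp
  rw [e]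
  simp only [real_smul, ofReal_neg]
  linear_combination (-((a k x).im : ℂ) * fderiv ℝ g x (v k)) * I_mul_I

lemma Op_hol (g : Y → ℂ) (x : Y) : Op u v a (-I) g x =
    cd (fA u v fun k => a k x) (fB u v fun k => a k x) (-I) g x := by
  unfold Op cd fA fB
  simp only [map_sum, map_add, map_smul, Finset.mul_sum, ← Finset.sum_add_distrib]
  refine Finset.sum_congr rfl fun k _ => ?_
  have e : a k x = ((a k x).re : ℂ) + (a k x).im * I := (re_add_im _).symm
  rw [e]
  simp only [real_smul, ofReal_neg, add_re, ofReal_re, mul_re, I_re, mul_zero, ofReal_im, I_im,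
    mul_one, sub_self, add_zero, add_im, mul_im, zero_add]
  linear_combination (-((a k x).im : ℂ) * fderiv ℝ g x (v k)) * I_mul_I

lemma Op_lev (h : Hol u v a) {g : Y → ℂ} (hg : ContDiff ℝ ∞ g) (x : Y) :
    Op u v (fun k x => conj (a k x)) I (Op u v a (-I) g) x =
      fderiv ℝ (fun y => fderiv ℝ g y (fA u v fun k => a k x)) x (fA u v fun k => a k x) +
      fderiv ℝ (fun y => fderiv ℝ g y (fB u v fun k => a k x)) x (fB u v fun k => a k x) := by
  rw [Op_Op h hg, Finset.sum_comm]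
  have e1 : ∀ k, ∑ j, conj (a j x) * a k x * cd (u j) (v j) I (cd (u k) (v k) (-I) g) x =
      a k x * cd (u k) (v k) (-I)
        (cd (fA u v fun k => a k x) (fB u v fun k => a k x) I g) x := by
    intro k
    rw [← cd_comm _ _ _ _ _ _ hg, ← Op_bar]
    unfold Op
    rw [Finset.mul_sum]
    exact Finset.sum_congr rfl fun j _ => by ring
  simp only [e1]
  have e2 := Op_hol (u := u) (v := v) (a := a)
    (cd (fA u v fun k => a k x) (fB u v fun k => a k x) I g) x
  unfold Op at e2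
  rw [e2, cd_cd _ _ _ _ _ _ hg, dd_comm hg x (fB u v fun k => a k x) (fA u v fun k => a k x)]
  linear_combination (-(fderiv ℝ (fun y => fderiv ℝ g y (fB u v fun k => a k x)) x
    (fB u v fun k => a k x))) * I_mul_I

end Pool.Agent.MP_71da5e_an.L.Ac

end

section

namespace Pool.Agent.MP_71da5e_an.L.Ac

open MeasureTheory Metric Set Complex Filter Topology
open scoped ContDiff ComplexConjugate Convolution

variable {Y : Type} [NormedAddCommGroup Y] [NormedSpace ℝ Y] [FiniteDimensional ℝ Y]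
  [MeasurableSpace Y] [BorelSpace Y] {μ : Measure Y} [μ.IsAddHaarMeasure]

lemma integrable_dd {g : Y → ℂ} (hg : ContDiff ℝ 1 g) (hc : HasCompactSupport g) (y : Y) :
    Integrable (fun x => fderiv ℝ g x y) μ :=
  (continuous_dd hg y).integrable_of_hasCompactSupport (hc.fderiv_apply ℝ y)

lemma int_dd {g : Y → ℂ} (hg : ContDiff ℝ 1 g) (hc : HasCompactSupport g) (y : Y) :
    ∫ x, fderiv ℝ g x y ∂μ = 0 := by
  have h := integral_mul_fderiv_eq_neg_fderiv_mul_of_integrable (μ := μ)
    (f := fun _ : Y => (1 : ℂ)) (g := g) (v := y) (by simp)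
    (by simpa using integrable_dd hg hc y)
    (by simpa using hg.continuous.integrable_of_hasCompactSupport hc)
    (fun _ _ => differentiableAt_const _) (fun x _ => hg.differentiable (by simp) x)
  simpa using h

lemma integrable_cd (y z : Y) (s : ℂ) {g : Y → ℂ} (hg : ContDiff ℝ 1 g)
    (hc : HasCompactSupport g) : Integrable (cd y z s g) μ :=
  (integrable_dd hg hc y).add ((integrable_dd hg hc z).const_mul s)

lemma int_cd (y z : Y) (s : ℂ) {g : Y → ℂ} (hg : ContDiff ℝ 1 g) (hc : HasCompactSupport g) :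
    ∫ x, cd y z s g x ∂μ = 0 := by
  unfold cd
  rw [integral_add (integrable_dd hg hc y) ((integrable_dd hg hc z).const_mul s),
    integral_const_mul, int_dd hg hc, int_dd hg hc]
  simp

variable {ι : Type} [Fintype ι] {u v : ι → Y} {a b : ι → Y → ℂ}

lemma ibp (hb : ∀ k, ContDiff ℝ ∞ (b k)) (s : ℂ) {g : Y → ℂ} (hg : ContDiff ℝ 1 g)
    (hc : HasCompactSupport g) :
    Integrable (fun x => Op u v b s g x + dv u v b s x * g x) μ ∧
      ∫ x, (Op u v b s g x + dv u v b s x * g x) ∂μ = 0 := by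
  have h1 : ∀ k, ContDiff ℝ 1 (fun x => b k x * g x) :=
    fun k => ((hb k).of_le (by simp)).mul hg
  have h2 : ∀ k, HasCompactSupport (fun x => b k x * g x) := fun k => hc.mul_left
  have e : (fun x => Op u v b s g x + dv u v b s x * g x) =
      fun x => ∑ k, cd (u k) (v k) s (fun x => b k x * g x) x := by
    funext x
    unfold Op dv
    rw [Finset.sum_mul, ← Finset.sum_add_distrib]
    refine Finset.sum_congr rfl fun k _ => ?_
    rw [cd_mul _ _ _ ((hb k).differentiable (by simp)) (hg.differentiable (by simp))]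
    ring
  rw [e]
  refine ⟨integrable_finsetSum _ fun k _ => integrable_cd _ _ _ (h1 k) (h2 k), ?_⟩
  rw [integral_finsetSum _ fun k _ => integrable_cd _ _ _ (h1 k) (h2 k)]
  exact Finset.sum_eq_zero fun k _ => int_cd _ _ _ (h1 k) (h2 k)

/-- the antiholomorphic operator -/
noncomputable def LB (u v : ι → Y) (a : ι → Y → ℂ) (g : Y → ℂ) : Y → ℂ :=
  Op u v (fun k x => conj (a k x)) I g

/-- minus its adjoint -/
noncomputable def LP (u v : ι → Y) (a : ι → Y → ℂ) (g : Y → ℂ) : Y → ℂ :=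
  fun x => Op u v a (-I) g x + dv u v a (-I) x * g x

omit [FiniteDimensional ℝ Y] [MeasurableSpace Y] [BorelSpace Y] in
lemma bar_conj (g : Y → ℂ) (x : Y) : Op u v (fun k x => conj (a k x)) I (fun x => conj (g x)) x =
    conj (Op u v a (-I) g x) := by
  rw [Op_conj]; simp

omit [FiniteDimensional ℝ Y] [MeasurableSpace Y] [BorelSpace Y] in
lemma hol_conj (g : Y → ℂ) (x : Y) : Op u v a (-I) (fun x => conj (g x)) x =
    conj (Op u v (fun k x => conj (a k x)) I g x) := by
  rw [Op_conj]; simp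

lemma null_smooth (h : Hol u v a) {w w' : Y → ℂ} (hw : ContDiff ℝ 1 w)
    (hc : HasCompactSupport w) (hw' : ContDiff ℝ ∞ w') :
    ∫ x, (LB u v a w x * conj (LB u v a w' x) - LP u v a w x * conj (LP u v a w' x)) ∂μ = 0 := by
  have hb : ∀ k, ContDiff ℝ ∞ (fun x => conj (a k x)) := fun k => contDiff_conj (h.1 k)
  have sB : ContDiff ℝ ∞ (LB u v a w') := contDiff_Op hb I hw'
  have sO : ContDiff ℝ ∞ (Op u v a (-I) w') := contDiff_Op h.1 (-I) hw'
  have sD : ContDiff ℝ ∞ (dv u v a (-I)) := contDiff_dv h.1 (-I)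
  have sP : ContDiff ℝ ∞ (LP u v a w') := sO.add (sD.mul hw')
  have dw := hw.differentiable (by simp)
  obtain ⟨i1, e1⟩ := ibp (μ := μ) (u := u) (v := v) hb I
    (g := fun x => w x * conj (LB u v a w' x))
    (hw.mul ((contDiff_conj sB).of_le (by simp))) hc.mul_right
  obtain ⟨i2, e2⟩ := ibp (μ := μ) (u := u) (v := v) h.1 (-I)
    (g := fun x => w x * conj (LP u v a w' x))
    (hw.mul ((contDiff_conj sP).of_le (by simp))) hc.mul_right
  have := integral_sub i1 i2
  rw [e1, e2, sub_zero] at this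
  rw [← this]
  refine integral_congr_ae (Eventually.of_forall fun x => ?_)
  have p1 := Op_mul (u := u) (v := v) (b := fun k x => conj (a k x)) I dw
    ((contDiff_conj sB).differentiable (by simp)) x
  have p2 := Op_mul (u := u) (v := v) (b := a) (-I) dw
    ((contDiff_conj sP).differentiable (by simp)) x
  have p3 : Op u v (fun k x => conj (a k x)) I (LP u v a w') x =
      Op u v a (-I) (LB u v a w') x + dv u v a (-I) x * LB u v a w' x := by
    have q1 := Op_add (u := u) (v := v) (b := fun k x => conj (a k x)) I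
      (sO.differentiable (by simp)) ((sD.mul hw').differentiable (by simp)) x
    have q2 := Op_mul (u := u) (v := v) (b := fun k x => conj (a k x)) I
      (sD.differentiable (by simp)) (hw'.differentiable (by simp)) x
    have q3 := Op_dv h x
    have q4 := (Op_Op h hw' x).trans (Op_Op' h hw' x).symm
    show Op u v (fun k x => conj (a k x)) I
      (fun x => Op u v a (-I) w' x + dv u v a (-I) x * w' x) x = _
    rw [q1, q2, q3, q4]
    unfold LB
    ring
  simp only
  rw [p1, p2, bar_conj, hol_conj, p3, dv_conj, map_add, map_mul]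
  unfold LP LB
  ring

lemma approx {w : Y → ℂ} (hw : ContDiff ℝ 1 w) (hc : HasCompactSupport w) :
    ∃ (ws : ℕ → Y → ℂ) (C : ℝ), (∀ n, ContDiff ℝ ∞ (ws n)) ∧
      (∀ x, Tendsto (fun n => ws n x) atTop (𝓝 (w x))) ∧
      (∀ x y, Tendsto (fun n => fderiv ℝ (ws n) x y) atTop (𝓝 (fderiv ℝ w x y))) ∧
      (∀ n x, ‖ws n x‖ ≤ C) ∧ ∀ n x y, ‖fderiv ℝ (ws n) x y‖ ≤ C * ‖y‖ := by
  let ν : Measure Y := Measure.addHaar
  let φ : ℕ → ContDiffBump (0 : Y) := fun n =>
    ⟨1 / ((n : ℝ) + 1) / 2, 1 / ((n : ℝ) + 1), by positivity, half_lt_self (by positivity)⟩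
  have hφ : Tendsto (fun n => (φ n).rOut) atTop (𝓝 0) := tendsto_one_div_add_atTop_nhds_zero_nat
  obtain ⟨C₀, h₀⟩ := hw.continuous.bounded_above_of_compact_support hc
  obtain ⟨C₁, h₁⟩ := (hw.continuous_fderiv (by simp)).bounded_above_of_compact_support
    (hc.fderiv ℝ)
  have hC₁ : 0 ≤ C₁ := (norm_nonneg _).trans (h₁ 0)
  have hC₀ : 0 ≤ C₀ := (norm_nonneg _).trans (h₀ 0)
  have key : ∀ (g : Y → ℂ) (K : ℝ), Continuous g → (∀ x, ‖g x‖ ≤ K) → ∀ n x,
      ‖((φ n).normed ν ⋆[ContinuousLinearMap.lsmul ℝ ℝ, ν] g) x‖ ≤ 3 * K := by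
    intro g K hg hK n x
    have := (φ n).dist_normed_convolution_le (μ := ν) (x₀ := x) (ε := 2 * K)
      hg.aestronglyMeasurable (fun y _ => by
        rw [dist_eq_norm]; linarith [norm_sub_le (g y) (g x), hK y, hK x])
    rw [dist_eq_norm] at this
    have h2 := norm_le_norm_sub_add
      (((φ n).normed ν ⋆[ContinuousLinearMap.lsmul ℝ ℝ, ν] g) x) (g x)
    linarith [hK x]
  have hd : ∀ n x y, fderiv ℝ ((φ n).normed ν ⋆[ContinuousLinearMap.lsmul ℝ ℝ, ν] w) x y =
      ((φ n).normed ν ⋆[ContinuousLinearMap.lsmul ℝ ℝ, ν] fun a => fderiv ℝ w a y) x := by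
    intro n x y
    have hl : LocallyIntegrable ((φ n).normed ν) ν := (φ n).integrable_normed.locallyIntegrable
    rw [(hc.hasFDerivAt_convolution_right (ContinuousLinearMap.lsmul ℝ ℝ) hl hw x).fderiv,
      convolution_precompR_apply _ hl (hc.fderiv ℝ) (hw.continuous_fderiv (by simp))]
  refine ⟨fun n => (φ n).normed ν ⋆[ContinuousLinearMap.lsmul ℝ ℝ, ν] w, 3 * (C₀ + C₁),
    fun n => ?_, fun x => ?_, fun x y => ?_, fun n x => ?_, fun n x y => ?_⟩
  · exact (φ n).hasCompactSupport_normed.contDiff_convolution_left _ (φ n).contDiff_normed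
      hw.continuous.locallyIntegrable
  · exact ContDiffBump.convolution_tendsto_right_of_continuous hφ hw.continuous x
  · simp only [hd]
    exact ContDiffBump.convolution_tendsto_right_of_continuous hφ (continuous_dd hw y) x
  · exact key w _ hw.continuous (fun x => (h₀ x).trans (by linarith)) n x
  · rw [hd, mul_assoc]
    refine key _ _ (continuous_dd hw y) (fun x => ?_) n x
    refine ((fderiv ℝ w x).le_opNorm y).trans ?_
    exact mul_le_mul_of_nonneg_right ((h₁ x).trans (by linarith)) (norm_nonneg _)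

omit [FiniteDimensional ℝ Y] [MeasurableSpace Y] [BorelSpace Y] in
lemma Op_bound {s : ℂ} (hs : ‖s‖ = 1) {g : Y → ℂ} {C : ℝ} (x : Y)
    (hC : ∀ y, ‖fderiv ℝ g x y‖ ≤ C * ‖y‖) :
    ‖Op u v b s g x‖ ≤ ∑ k, ‖b k x‖ * (C * ‖u k‖ + C * ‖v k‖) := by
  unfold Op cd
  refine (norm_sum_le _ _).trans (Finset.sum_le_sum fun k _ => ?_)
  rw [norm_mul]
  refine mul_le_mul_of_nonneg_left ((norm_add_le _ _).trans ?_) (norm_nonneg _)
  rw [norm_mul, hs, one_mul]
  exact add_le_add (hC _) (hC _)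

omit [FiniteDimensional ℝ Y] [MeasurableSpace Y] [BorelSpace Y] in
lemma Op_tendsto (s : ℂ) {ws : ℕ → Y → ℂ} {w : Y → ℂ} (x : Y)
    (h : ∀ y, Tendsto (fun n => fderiv ℝ (ws n) x y) atTop (𝓝 (fderiv ℝ w x y))) :
    Tendsto (fun n => Op u v b s (ws n) x) atTop (𝓝 (Op u v b s w x)) := by
  unfold Op cd
  exact tendsto_finsetSum _ fun k _ => ((h _).add ((h _).const_mul s)).const_mul _

omit [FiniteDimensional ℝ Y] [MeasurableSpace Y] [BorelSpace Y] in
lemma continuous_LB (h : Hol u v a) {w : Y → ℂ} (hw : ContDiff ℝ 1 w) :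
    Continuous (LB u v a w) := continuous_Op (fun k => contDiff_conj (h.1 k)) I hw

omit [FiniteDimensional ℝ Y] [MeasurableSpace Y] [BorelSpace Y] in
lemma continuous_LP (h : Hol u v a) {w : Y → ℂ} (hw : ContDiff ℝ 1 w) :
    Continuous (LP u v a w) :=
  (continuous_Op h.1 (-I) hw).add ((contDiff_dv h.1 (-I)).continuous.mul hw.continuous)

omit [FiniteDimensional ℝ Y] [MeasurableSpace Y] [BorelSpace Y] in
lemma compact_LP {w : Y → ℂ} (hc : HasCompactSupport w) : HasCompactSupport (LP u v a w) :=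
  (compact_Op (-I) hc).add hc.mul_left

lemma null (h : Hol u v a) {w : Y → ℂ} (hw : ContDiff ℝ 1 w) (hc : HasCompactSupport w) :
    ∫ x, (LB u v a w x * conj (LB u v a w x) - LP u v a w x * conj (LP u v a w x)) ∂μ = 0 := by
  obtain ⟨ws, C, s1, t1, t2, b1, b2⟩ := approx hw hc
  let K : Y → ℝ := fun x => ∑ k, ‖a k x‖ * (C * ‖u k‖ + C * ‖v k‖)
  have cK : Continuous K :=
    continuous_finsetSum _ fun k _ => (h.1 k).continuous.norm.mul continuous_const
  have cD := (contDiff_dv (u := u) (v := v) h.1 (-I)).continuous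
  have cB := continuous_LB h hw
  have cP := continuous_LP h hw
  have lim := tendsto_integral_of_dominated_convergence (μ := μ)
    (F := fun n x => LB u v a w x * conj (LB u v a (ws n) x) -
      LP u v a w x * conj (LP u v a (ws n) x))
    (f := fun x => LB u v a w x * conj (LB u v a w x) - LP u v a w x * conj (LP u v a w x))
    (fun x => ‖LB u v a w x‖ * K x + ‖LP u v a w x‖ * (K x + ‖dv u v a (-I) x‖ * C))
    (fun n => ((cB.mul (continuous_conj.comp (continuous_LB h ((s1 n).of_le (by simp))))).sub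
      (cP.mul (continuous_conj.comp
        (continuous_LP h ((s1 n).of_le (by simp)))))).aestronglyMeasurable)
    (((cB.norm.mul cK).add (cP.norm.mul (cK.add (cD.norm.mul continuous_const)))
      ).integrable_of_hasCompactSupport
        (((compact_Op I hc).norm.mul_right).add ((compact_LP hc).norm.mul_right)))
    (fun n => Eventually.of_forall fun x => by
      refine (norm_sub_le _ _).trans (add_le_add ?_ ?_)
      · rw [norm_mul, RCLike.norm_conj]
        refine mul_le_mul_of_nonneg_left ?_ (norm_nonneg _)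
        have := Op_bound (u := u) (v := v) (b := fun k x => conj (a k x)) norm_I x (b2 n x)
        simp only [RCLike.norm_conj] at this
        exact this
      · rw [norm_mul, RCLike.norm_conj]
        refine mul_le_mul_of_nonneg_left ((norm_add_le _ _).trans (add_le_add ?_ ?_))
          (norm_nonneg _)
        · exact Op_bound (by simp) x (b2 n x)
        · rw [norm_mul]
          exact mul_le_mul_of_nonneg_left (b1 n x) (norm_nonneg _))
    (Eventually.of_forall fun x => by
      refine Tendsto.sub (Tendsto.const_mul _ ?_) (Tendsto.const_mul _ ?_)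
      · exact (continuous_conj.tendsto _).comp (Op_tendsto I x (t2 x))
      · exact (continuous_conj.tendsto _).comp
          ((Op_tendsto (-I) x (t2 x)).add ((t1 x).const_mul _)))
  simp only [null_smooth h hw hc (s1 _)] at lim
  exact (tendsto_nhds_unique tendsto_const_nhds lim).symm

/-- The abstract Carleman inequality. -/
lemma carleman (h : Hol u v a) {M : Y → ℝ} (hM : ContDiff ℝ ∞ M) {f : Y → ℂ}
    (hf : ContDiff ℝ 1 f) (hc : HasCompactSupport f) (lv : Y → ℝ)
    (hl : ∀ x, LB u v a (Op u v a (-I) fun x => (M x : ℂ)) x = (lv x : ℂ)) :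
    Integrable (fun x => -2 * lv x * Real.exp (-2 * M x) * ‖f x‖ ^ 2) μ ∧
    Integrable (fun x => Real.exp (-2 * M x) * ‖LB u v a f x‖ ^ 2) μ ∧
    ∫ x, -2 * lv x * Real.exp (-2 * M x) * ‖f x‖ ^ 2 ∂μ ≤
      ∫ x, Real.exp (-2 * M x) * ‖LB u v a f x‖ ^ 2 ∂μ := by
  have hb : ∀ k, ContDiff ℝ ∞ (fun x => conj (a k x)) := fun k => contDiff_conj (h.1 k)
  have hMc : ContDiff ℝ ∞ (fun x => (M x : ℂ)) := ofRealCLM.contDiff.comp hM
  set β : Y → ℂ := Op u v a (-I) fun x => (M x : ℂ) with hβ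
  have sβ : ContDiff ℝ ∞ β := contDiff_Op h.1 (-I) hMc
  have clv : Continuous lv := by
    have : lv = fun x => (LB u v a β x).re := funext fun x => by rw [hl]; simp
    rw [this]
    exact continuous_re.comp (continuous_LB h (sβ.of_le (by simp)))
  set E : Y → ℂ := fun x => cexp (-(M x : ℂ)) with hE
  have sE : ContDiff ℝ ∞ E := (contDiff_exp (𝕜 := ℝ)).comp hMc.neg
  have dE : ∀ x, LB u v a E x = -(conj (β x)) * E x := by
    intro x
    have e1 : conj (β x) = LB u v a (fun x => (M x : ℂ)) x := by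
      rw [hβ, ← bar_conj]; simp [LB]
    have e2 : fderiv ℝ E x = (-E x) • fderiv ℝ (fun x => (M x : ℂ)) x := by
      have := ((hMc.differentiable (by simp) x).hasFDerivAt.neg).cexp
      rw [show E = fun x => cexp ((-fun x => (M x : ℂ)) x) from rfl, this.fderiv]
      ext y
      simp
    rw [e1]
    unfold LB Op cd
    rw [e2, neg_mul, Finset.sum_mul, ← Finset.sum_neg_distrib]
    refine Finset.sum_congr rfl fun k _ => ?_
    simp only [smul_apply, smul_eq_mul]
    ring
  set w : Y → ℂ := fun x => E x * f x with hw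
  have sw : ContDiff ℝ 1 w := (sE.of_le (by simp)).mul hf
  have cw : HasCompactSupport w := hc.mul_left
  have dw := sw.differentiable (by simp)
  have nE : ∀ x, ‖E x‖ ^ 2 = Real.exp (-2 * M x) := by
    intro x
    rw [hE]
    simp only [norm_exp, neg_re, ofReal_re]
    rw [← Real.exp_nat_mul]; congr 1; push_cast; ring
  have e3 : ∀ x, E x * LB u v a f x = LB u v a w x + conj (β x) * w x := by
    intro x
    have := Op_mul (u := u) (v := v) (b := fun k x => conj (a k x)) I
      (sE.differentiable (by simp)) (hf.differentiable (by simp)) x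
    have d := dE x
    unfold LB at d ⊢
    rw [hw, this, d]
    ring
  have i1 : Integrable (fun x => -2 * lv x * Real.exp (-2 * M x) * ‖f x‖ ^ 2) μ :=
    (((continuous_const.mul clv).mul
      (Real.continuous_exp.comp (continuous_const.mul hM.continuous))).mul
      (hf.continuous.norm.pow 2)).integrable_of_hasCompactSupport
      (HasCompactSupport.intro hc fun x hx => by simp [image_eq_zero_of_notMem_tsupport hx])
  have i2 : Integrable (fun x => Real.exp (-2 * M x) * ‖LB u v a f x‖ ^ 2) μ :=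
    ((Real.continuous_exp.comp (continuous_const.mul hM.continuous)).mul
      ((continuous_LB h hf).norm.pow 2)).integrable_of_hasCompactSupport
      (HasCompactSupport.intro hc fun x hx => by simp [LB, Op_zero I hx])
  refine ⟨i1, i2, ?_⟩
  have sg : ContDiff ℝ 1 (fun x => β x * (w x * conj (w x))) :=
    (sβ.of_le (by simp)).mul (sw.mul (contDiff_conj sw))
  obtain ⟨i3, e4⟩ := ibp (μ := μ) (u := u) (v := v) hb I sg
    (HasCompactSupport.mul_left cw.mul_right)
  have cB := continuous_LB h sw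
  have cP := continuous_LP h sw
  have i4 : Integrable (fun x => LB u v a w x * conj (LB u v a w x) -
      LP u v a w x * conj (LP u v a w x)) μ :=
    ((cB.mul (continuous_conj.comp cB)).sub
      (cP.mul (continuous_conj.comp cP))).integrable_of_hasCompactSupport
      (HasCompactSupport.sub (compact_Op I cw).mul_right (compact_LP cw).mul_right)
  have e5 := null (μ := μ) h sw cw
  have i5 := (i4.add (i3.const_mul 2)).re
  have e6 := integral_re (i4.add (i3.const_mul 2))
  simp only [Pi.add_apply] at e6 i5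
  rw [integral_add i4 (i3.const_mul 2), integral_const_mul, e4, e5] at e6
  simp only [mul_zero, add_zero, map_zero] at e6
  rw [← add_zero (∫ x, -2 * lv x * Real.exp (-2 * M x) * ‖f x‖ ^ 2 ∂μ), ← e6,
    ← integral_add i1 i5]
  refine integral_mono (i1.add i5) i2 fun x => ?_
  have p1 := Op_mul (u := u) (v := v) (b := fun k x => conj (a k x)) I
    (sβ.differentiable (by simp)) ((sw.mul (contDiff_conj sw)).differentiable (by simp)) x
  have p2 := Op_mul (u := u) (v := v) (b := fun k x => conj (a k x)) I dw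
    ((contDiff_conj sw).differentiable (by simp)) x
  have p3 := hl x
  have n1 : Real.exp (-2 * M x) * ‖LB u v a f x‖ ^ 2 =
      ‖LB u v a w x + conj (β x) * w x‖ ^ 2 := by rw [← e3, norm_mul, mul_pow, nE]
  have n2 : -2 * lv x * Real.exp (-2 * M x) * ‖f x‖ ^ 2 = -2 * lv x * ‖w x‖ ^ 2 := by
    rw [hw]; simp only [norm_mul, mul_pow, nE]; ring
  simp only
  rw [n1, n2, p1, p2, bar_conj, dv_conj]
  unfold LB at p3
  rw [p3]
  unfold LB LP
  generalize Op u v (fun k x => conj (a k x)) I w x = A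
  generalize Op u v a (-I) w x = A'
  generalize dv u v a (-I) x = c
  generalize w x = W
  generalize β x = B
  have := normSq_nonneg (B * W - (A' + c * W))
  simp only [Complex.sq_norm, normSq_apply, RCLike.re_to_complex, add_re, sub_re, mul_re, mul_im,
    add_im, sub_im, conj_re, conj_im, ofReal_re, ofReal_im, re_ofNat, im_ofNat, map_add,
    map_mul] at this ⊢
  nlinarith [this]

end Pool.Agent.MP_71da5e_an.L.Ac

end

section

/-! Two-jets of real functions of one variable at the origin, and the link with the second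
Frechet derivative along a line. -/

open Filter Topology

namespace Pool.Agent.MP_71da5e_an.L

/-- `φ` has value `a`, first derivative `b` and second derivative `c` at `0`. -/
def Jet (φ : ℝ → ℝ) (a b c : ℝ) : Prop :=
  φ 0 = a ∧ ∃ φ' : ℝ → ℝ, (∀ᶠ t in 𝓝 (0:ℝ), HasDerivAt φ (φ' t) t) ∧ φ' 0 = b ∧ HasDerivAt φ' c 0

namespace Jet

theorem congr_val {φ : ℝ → ℝ} {a b c a' b' c' : ℝ} (h : Jet φ a b c) (ha : a = a') (hb : b = b')
    (hc : c = c') : Jet φ a' b' c' := by
  subst ha hb hc; exact h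

theorem congr {φ ψ : ℝ → ℝ} {a b c : ℝ} (h : Jet φ a b c) (e : ψ =ᶠ[𝓝 0] φ) : Jet ψ a b c := by
  obtain ⟨h0, φ', h1, h2, h3⟩ := h
  refine ⟨by rw [e.eq_of_nhds, h0], φ', ?_, h2, h3⟩
  filter_upwards [h1, e.eventuallyEq_nhds] with t ht he
  exact ht.congr_of_eventuallyEq he

theorem hasDerivAt {φ : ℝ → ℝ} {a b c : ℝ} (h : Jet φ a b c) : HasDerivAt φ b 0 := by
  obtain ⟨-, φ', h1, h2, -⟩ := h
  rw [← h2]; exact h1.self_of_nhds

theorem tendsto {φ : ℝ → ℝ} {a b c : ℝ} (h : Jet φ a b c) : Tendsto φ (𝓝 0) (𝓝 a) := by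
  have := h.hasDerivAt.continuousAt.tendsto
  rwa [h.1] at this

theorem const (a : ℝ) : Jet (fun _ => a) a 0 0 :=
  ⟨rfl, fun _ => 0, Eventually.of_forall fun t => hasDerivAt_const t a, rfl, hasDerivAt_const 0 0⟩

theorem lin (a b : ℝ) : Jet (fun t => a + t * b) a b 0 := by
  refine ⟨by simp, fun _ => b, Eventually.of_forall fun t => ?_, rfl, hasDerivAt_const 0 b⟩
  simpa using ((hasDerivAt_id t).mul_const b).const_add a

theorem add {φ ψ : ℝ → ℝ} {a b c a' b' c' : ℝ} (h : Jet φ a b c) (h' : Jet ψ a' b' c') :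
    Jet (fun t => φ t + ψ t) (a + a') (b + b') (c + c') := by
  obtain ⟨h0, φ', h1, h2, h3⟩ := h
  obtain ⟨k0, ψ', k1, k2, k3⟩ := h'
  refine ⟨by simp [h0, k0], fun t => φ' t + ψ' t, ?_, by simp [h2, k2], h3.add k3⟩
  filter_upwards [h1, k1] with t ht kt
  exact ht.add kt

theorem mul {φ ψ : ℝ → ℝ} {a b c a' b' c' : ℝ} (h : Jet φ a b c) (h' : Jet ψ a' b' c') :
    Jet (fun t => φ t * ψ t) (a * a') (b * a' + a * b') (c * a' + 2 * (b * b') + a * c') := by
  have hφ := h.hasDerivAt
  have hψ := h'.hasDerivAt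
  obtain ⟨h0, φ', h1, h2, h3⟩ := h
  obtain ⟨k0, ψ', k1, k2, k3⟩ := h'
  refine ⟨by simp [h0, k0], fun t => φ' t * ψ t + φ t * ψ' t, ?_, by simp [h0, k0, h2, k2], ?_⟩
  · filter_upwards [h1, k1] with t ht kt
    exact ht.mul kt
  · have := (h3.mul hψ).add (hφ.mul k3)
    rw [h0, k0, h2, k2] at this
    exact this.congr_deriv (by ring)

theorem const_mul {φ : ℝ → ℝ} {a b c : ℝ} (k : ℝ) (h : Jet φ a b c) :
    Jet (fun t => k * φ t) (k * a) (k * b) (k * c) :=
  ((const k).mul h).congr_val rfl (by ring) (by ring)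

theorem neg {φ : ℝ → ℝ} {a b c : ℝ} (h : Jet φ a b c) :
    Jet (fun t => -φ t) (-a) (-b) (-c) := by
  have := h.const_mul (-1)
  simpa using this

theorem sub {φ ψ : ℝ → ℝ} {a b c a' b' c' : ℝ} (h : Jet φ a b c) (h' : Jet ψ a' b' c') :
    Jet (fun t => φ t - ψ t) (a - a') (b - b') (c - c') := by
  have := h.add h'.neg
  simpa [sub_eq_add_neg] using this

theorem comp {φ g g' : ℝ → ℝ} {a b c g'' : ℝ} (h : Jet φ a b c)
    (hg : ∀ᶠ u in 𝓝 a, HasDerivAt g (g' u) u) (hg' : HasDerivAt g' g'' a) :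
    Jet (fun t => g (φ t)) (g a) (g' a * b) (g'' * b ^ 2 + g' a * c) := by
  have hφ := h.hasDerivAt
  have ht := h.tendsto
  obtain ⟨h0, φ', h1, h2, h3⟩ := h
  refine ⟨by simp [h0], fun t => g' (φ t) * φ' t, ?_, by simp [h0, h2], ?_⟩
  · filter_upwards [h1, ht.eventually hg] with t ht kt
    exact kt.comp t ht
  · have hg0 : HasDerivAt g' g'' (φ 0) := by rw [h0]; exact hg'
    have := (hg0.comp 0 hφ).mul h3
    simp only [Function.comp_apply, h0, h2] at this
    exact this.congr_deriv (by ring)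

theorem inv {φ : ℝ → ℝ} {a b c : ℝ} (h : Jet φ a b c) (ha : a ≠ 0) :
    Jet (fun t => (φ t)⁻¹) a⁻¹ (-b / a ^ 2) (2 * b ^ 2 / a ^ 3 - c / a ^ 2) := by
  have h1 : ∀ᶠ u in 𝓝 a, HasDerivAt (fun u : ℝ => u⁻¹) (-(u ^ 2)⁻¹) u := by
    filter_upwards [eventually_ne_nhds ha] with u hu
    exact hasDerivAt_inv hu
  have h2 : HasDerivAt (fun u : ℝ => -(u ^ 2)⁻¹) (2 / a ^ 3) a := by
    have := ((hasDerivAt_pow 2 a).inv (pow_ne_zero 2 ha)).neg
    refine this.congr_deriv ?_
    field_simp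
    norm_num
    ring
  refine (h.comp h1 h2).congr_val rfl ?_ ?_
  · field_simp
  · field_simp
    ring

theorem log {φ : ℝ → ℝ} {a b c : ℝ} (h : Jet φ a b c) (ha : a ≠ 0) :
    Jet (fun t => Real.log (φ t)) (Real.log a) (b / a) (c / a - b ^ 2 / a ^ 2) := by
  have h1 : ∀ᶠ u in 𝓝 a, HasDerivAt Real.log (u⁻¹) u := by
    filter_upwards [eventually_ne_nhds ha] with u hu
    exact Real.hasDerivAt_log hu
  refine (h.comp h1 (hasDerivAt_inv ha)).congr_val rfl ?_ ?_
  · field_simp
  · field_simp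
    ring

theorem exp {φ : ℝ → ℝ} {a b c : ℝ} (h : Jet φ a b c) :
    Jet (fun t => Real.exp (φ t)) (Real.exp a) (Real.exp a * b) (Real.exp a * (b ^ 2 + c)) :=
  (h.comp (Eventually.of_forall Real.hasDerivAt_exp) (Real.hasDerivAt_exp a)).congr_val rfl rfl
    (by ring)

theorem sqrt {φ : ℝ → ℝ} {a b c : ℝ} (h : Jet φ a b c) (ha : 0 < a) :
    Jet (fun t => √(φ t)) (√a) (b / (2 * √a)) (c / (2 * √a) - b ^ 2 / (4 * √a ^ 3)) := by
  have h1 : ∀ᶠ u in 𝓝 a, HasDerivAt (fun u : ℝ => √u) (1 / (2 * √u)) u := by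
    filter_upwards [eventually_ne_nhds ha.ne'] with u hu
    exact Real.hasDerivAt_sqrt hu
  have hs : 0 < √a := Real.sqrt_pos.mpr ha
  have h2 : HasDerivAt (fun u : ℝ => 1 / (2 * √u)) (-1 / (4 * √a ^ 3)) a := by
    have := ((Real.hasDerivAt_sqrt ha.ne').const_mul 2).inv (by positivity)
    simp only [one_div]
    refine this.congr_deriv ?_
    field_simp
    norm_num
  refine (h.comp h1 h2).congr_val rfl ?_ ?_
  · field_simp
  · field_simp
    ring

theorem normSq {V : Type*} [NormedAddCommGroup V] [InnerProductSpace ℝ V] (x w : V) :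
    Jet (fun t : ℝ => ‖x + t • w‖ ^ 2) (‖x‖ ^ 2) (2 * inner ℝ x w) (2 * ‖w‖ ^ 2) := by
  have e : (fun t : ℝ => ‖x + t • w‖ ^ 2) =
      fun t => ‖x‖ ^ 2 + (0 + t * 1) * (2 * inner ℝ x w + (0 + t * 1) * ‖w‖ ^ 2) := by
    funext t
    rw [norm_add_sq_real, inner_smul_right, norm_smul, mul_pow, Real.norm_eq_abs, sq_abs]
    ring
  rw [e]
  exact ((const _).add ((lin 0 1).mul ((const _).add ((lin 0 1).mul (const _))))).congr_val
    (by ring) (by ring) (by ring)

end Jet

/-- Link with the Frechet derivatives. -/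
theorem fderiv_of_jet {V : Type*} [NormedAddCommGroup V] [NormedSpace ℝ V] {m : V → ℝ} {x w : V}
    (hm : DifferentiableAt ℝ m x) {a b c : ℝ} (h : Jet (fun t : ℝ => m (x + t • w)) a b c) :
    fderiv ℝ m x w = b := by
  have hl : HasDerivAt (fun t : ℝ => x + t • w) w 0 := by
    simpa using ((hasDerivAt_id (0:ℝ)).smul_const w).const_add x
  have h0 : HasFDerivAt m (fderiv ℝ m x) (x + (0:ℝ) • w) := by simpa using hm.hasFDerivAt
  exact (h0.comp_hasDerivAt 0 hl).unique h.hasDerivAt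

theorem fderiv_fderiv_of_jet {V : Type*} [NormedAddCommGroup V] [NormedSpace ℝ V] {m : V → ℝ}
    {x w : V} (hm : ContDiffAt ℝ 2 m x) {a b c : ℝ}
    (h : Jet (fun t : ℝ => m (x + t • w)) a b c) :
    fderiv ℝ (fderiv ℝ m) x w w = c := by
  have hl : ∀ t : ℝ, HasDerivAt (fun t : ℝ => x + t • w) w t := fun t => by
    simpa using ((hasDerivAt_id t).smul_const w).const_add x
  have hc : Tendsto (fun t : ℝ => x + t • w) (𝓝 0) (𝓝 x) := by
    simpa using (hl 0).continuousAt.tendsto
  have hd : ∀ᶠ y in 𝓝 x, DifferentiableAt ℝ m y :=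
    (hm.eventually (by simp)).mono fun y hy => hy.differentiableAt (by simp)
  have hd2 : DifferentiableAt ℝ (fderiv ℝ m) x :=
    (hm.fderiv_right (m := 1) (by norm_num)).differentiableAt (by simp)
  obtain ⟨-, φ', h1, -, h3⟩ := h
  have e : φ' =ᶠ[𝓝 0] fun t : ℝ => fderiv ℝ m (x + t • w) w := by
    filter_upwards [h1, hc.eventually hd] with t ht kt
    exact ht.unique (kt.hasFDerivAt.comp_hasDerivAt t (hl t))
  have h0 : HasFDerivAt (fderiv ℝ m) (fderiv ℝ (fderiv ℝ m) x) (x + (0:ℝ) • w) := by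
    simpa using hd2.hasFDerivAt
  have h6 : HasDerivAt (fun t : ℝ => fderiv ℝ m (x + t • w)) (fderiv ℝ (fderiv ℝ m) x w) 0 :=
    h0.comp_hasDerivAt 0 (hl 0)
  have h4 : HasDerivAt (fun t : ℝ => fderiv ℝ m (x + t • w) w) (fderiv ℝ (fderiv ℝ m) x w w) 0 :=
    (ContinuousLinearMap.apply ℝ ℝ w).hasFDerivAt.comp_hasDerivAt 0 h6
  have h5 : HasDerivAt (fun t : ℝ => fderiv ℝ m (x + t • w) w) c 0 :=
    h3.congr_of_eventuallyEq e.symm
  exact h4.unique h5

/-- Perspective function `s g(q/s^2)` along a line. -/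
theorem jet_persp {s σ q p ω g'' : ℝ} {Q g g' : ℝ → ℝ} (hs : s ≠ 0) (hQ : Jet Q q (2 * p) (2 * ω))
    (hg : ∀ᶠ u in 𝓝 (q / s ^ 2), HasDerivAt g (g' u) u) (hg' : HasDerivAt g' g'' (q / s ^ 2)) :
    Jet (fun t => (s + t * σ) * g (Q t / (s + t * σ) ^ 2)) (s * g (q / s ^ 2))
      (σ * g (q / s ^ 2) + 2 * g' (q / s ^ 2) * ((p - σ * q / s) / s))
      ((4 * g'' * ((p - σ * q / s) / s) ^ 2
        + 2 * g' (q / s ^ 2) * (ω - 2 * σ * p / s + σ ^ 2 * q / s ^ 2)) / s) := by
  have hS := Jet.lin s σ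
  have hI := (hS.mul hS).inv (mul_ne_zero hs hs)
  have hU : Jet (fun t => Q t / (s + t * σ) ^ 2) (q / s ^ 2) (2 * (p - σ * q / s) / s ^ 2)
      (2 * ω / s ^ 2 - 8 * p * σ / s ^ 3 + 6 * q * σ ^ 2 / s ^ 4) := by
    refine ((hQ.mul hI).congr (Eventually.of_forall fun t => ?_)).congr_val ?_ ?_ ?_
    · simp only [div_eq_mul_inv, sq]
    · field_simp
    · field_simp
      ring
    · field_simp
      ring
  refine (hS.mul (hU.comp hg hg')).congr_val rfl ?_ ?_
  · field_simp
  · field_simp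
    ring

end Pool.Agent.MP_71da5e_an.L

end
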