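import Pool.Agent.Mg.F71da5ea.G17b4dd
import Pool.Agent.Mg.F71da5ea.G432663

section

/-! The second derivative of the weight along a real direction. -/

namespace Pool.Agent.MP_71da5e_an.L

open Filter Topology
open scoped RealInnerProductSpace Real

variable {n : ℕ}

theorem D2_of_jet {m : B n → ℝ} {p u : B n} (hm : ContDiffAt ℝ 2 m p) {a b c : ℝ}
    (h : Jet (fun t : ℝ => m (p + t • u)) a b c) : D2 m p u = c := by
  have hd2 : DifferentiableAt ℝ (fderiv ℝ m) p :=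
    (hm.fderiv_right (m := 1) (by norm_num)).differentiableAt (by simp)
  have h1 : HasFDerivAt (fun q => fderiv ℝ m q u)
      ((ContinuousLinearMap.apply ℝ ℝ u).comp (fderiv ℝ (fderiv ℝ m) p)) p :=
    (ContinuousLinearMap.apply ℝ ℝ u).hasFDerivAt.comp p hd2.hasFDerivAt
  rw [D2, h1.fderiv]
  exact fderiv_fderiv_of_jet hm h

theorem hb_arg_gt {t : ℝ} (ht : 0 < t) : 1 < Real.log (Real.exp 1 + t⁻¹) := by
  rw [Real.lt_log_iff_exp_lt (by positivity)]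
  have := inv_pos.mpr ht
  linarith

theorem contDiffAt_hb {t : ℝ} (ht : 0 < t) {k : WithTop ℕ∞} : ContDiffAt ℝ k hb t := by
  have h1 := hb_arg_gt ht
  have h2 : 0 < Real.exp 1 + t⁻¹ := by positivity
  unfold hb
  have h3 : Real.log (Real.exp 1 + t⁻¹) ≠ 0 := by linarith
  exact ((contDiffAt_const.add (contDiffAt_id.inv ht.ne')).log h2.ne').log h3

theorem hb_deriv_ev {t : ℝ} (ht : 0 < t) : ∀ᶠ u in 𝓝 t, HasDerivAt hb (deriv hb u) u := by
  filter_upwards [eventually_gt_nhds ht] with u hu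
  exact ((contDiffAt_hb hu (k := 1)).differentiableAt (by simp)).hasDerivAt

theorem hb_deriv2 {t : ℝ} (ht : 0 < t) : HasDerivAt (deriv hb) (deriv (deriv hb) t) t := by
  have h : ContDiffAt ℝ 1 (deriv hb) t := by
    have h2 : ContDiffAt ℝ 1 (fderiv ℝ hb) t :=
      (contDiffAt_hb ht (k := 2)).fderiv_right (m := 1) (by norm_num)
    exact h2.clm_apply contDiffAt_const
  exact (h.differentiableAt (by simp)).hasDerivAt

theorem R2_pos {p : B n} (hs : 0 < p.1) : 0 < R2 p := by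
  unfold R2; positivity

theorem contDiff_a1 (e : E n) {k : WithTop ℕ∞} : ContDiff ℝ k (a1 e) := by
  unfold a1; fun_prop

theorem contDiff_a2 (e : E n) {k : WithTop ℕ∞} : ContDiff ℝ k (a2 e) := by
  unfold a2; fun_prop

theorem contDiff_R2 {k : WithTop ℕ∞} : ContDiff ℝ k (R2 : B n → ℝ) := by
  unfold R2
  exact (contDiff_fst.pow 2).add (contDiff_snd.norm_sq ℝ)

theorem contDiffAt_mm {e : E n} (K η κ ε β γ : ℝ) {p : B n} (hp : p ∈ Dm e) {k : WithTop ℕ∞} :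
    ContDiffAt ℝ k (mm e K η κ ε β γ) p := by
  obtain ⟨hs, h1, h2⟩ := hp
  have hR := R2_pos hs
  have hR2 : ContDiffAt ℝ k (R2 : B n → ℝ) p := contDiff_R2.contDiffAt
  have hS : ContDiffAt ℝ k (fun q : B n => q.1) p := contDiffAt_fst
  have hb1 : ContDiffAt ℝ k (fun q : B n => hb (‖a1 e q‖ ^ 2 / q.1 ^ 2)) p := by
    have := norm_pos_iff.mpr h1
    exact (contDiffAt_hb (by positivity)).comp p
      (((contDiff_a1 e).contDiffAt.norm_sq ℝ).div (hS.pow 2) (by positivity))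
  have hb2 : ContDiffAt ℝ k (fun q : B n => hb (‖a2 e q‖ ^ 2 / q.1 ^ 2)) p := by
    have := norm_pos_iff.mpr h2
    exact (contDiffAt_hb (by positivity)).comp p
      (((contDiff_a2 e).contDiffAt.norm_sq ℝ).div (hS.pow 2) (by positivity))
  unfold mm mA
  refine (((((contDiffAt_const.mul hS).sub (contDiffAt_const.mul (hS.mul
    (contDiffAt_const.mul (hS.div (hR2.sqrt hR.ne') (Real.sqrt_pos.mpr hR).ne')).exp))).add
    (contDiffAt_const.mul ((hS.mul hb1).add (hS.mul hb2)))).add (contDiffAt_const.mul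
    (hS.mul ((hR2.div hS hs.ne').log (div_pos hR hs).ne')))).add
    (contDiffAt_const.mul (hR2.log hR.ne'))).add (contDiffAt_const.mul (hS.log hs.ne'))

theorem a1_line (e : E n) (p u : B n) (t : ℝ) : a1 e (p + t • u) = a1 e p + t • a1 e u := by
  simp only [a1, Prod.fst_add, Prod.snd_add, Prod.smul_fst, Prod.smul_snd, smul_eq_mul, smul_add,
    smul_smul]
  rw [add_div, add_smul, mul_div_assoc]
  abel

theorem a2_line (e : E n) (p u : B n) (t : ℝ) : a2 e (p + t • u) = a2 e p + t • a2 e u := by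
  simp only [a2, Prod.fst_add, Prod.snd_add, Prod.smul_fst, Prod.smul_snd, smul_eq_mul, smul_sub,
    smul_smul]
  rw [add_div, add_smul, mul_div_assoc]
  abel

/-- The barrier form along a real direction. -/
noncomputable def bb (s σ : ℝ) (x w : E n) : ℝ :=
  (4 * deriv (deriv hb) (‖x‖ ^ 2 / s ^ 2) * ((⟪x, w⟫ - σ * ‖x‖ ^ 2 / s) / s) ^ 2 +
    2 * deriv hb (‖x‖ ^ 2 / s ^ 2) * (‖w‖ ^ 2 - 2 * σ * ⟪x, w⟫ / s + σ ^ 2 * ‖x‖ ^ 2 / s ^ 2)) / s

/-- The main form along a real direction. -/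
noncomputable def tt (K : ℝ) (p u : B n) : ℝ :=
  (6 + 2 * K * (p.1 / √(R2 p))) * (p.1 ^ 2 / R2 p) *
      ((⟪p.2, u.2⟫ - u.1 * ‖p.2‖ ^ 2 / p.1) / p.1) ^ 2 -
    2 * (‖u.2‖ ^ 2 - 2 * u.1 * ⟪p.2, u.2⟫ / p.1 + u.1 ^ 2 * ‖p.2‖ ^ 2 / p.1 ^ 2)

/-- The form of `log R²` along a real direction. -/
noncomputable def lr (p u : B n) : ℝ :=
  2 * (u.1 ^ 2 + ‖u.2‖ ^ 2) / R2 p - 4 * (p.1 * u.1 + ⟪p.2, u.2⟫) ^ 2 / R2 p ^ 2

theorem jet_R2 (p u : B n) : Jet (fun t : ℝ => R2 (p + t • u)) (R2 p)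
    (2 * (p.1 * u.1 + ⟪p.2, u.2⟫)) (2 * (u.1 ^ 2 + ‖u.2‖ ^ 2)) := by
  have hS := Jet.lin p.1 u.1
  refine (((hS.mul hS).add (Jet.normSq p.2 u.2)).congr (Eventually.of_forall fun t => ?_)).congr_val
    ?_ (by ring) (by ring)
  · simp [R2, sq]
  · simp [R2, sq]

theorem jet_bar {s : ℝ} (hs : 0 < s) (σ : ℝ) {x : E n} (hx : x ≠ 0) (w : E n) :
    ∃ a b, Jet (fun t : ℝ => (s + t * σ) * hb (‖x + t • w‖ ^ 2 / (s + t * σ) ^ 2)) a b
      (bb s σ x w) := by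
  have := norm_pos_iff.mpr hx
  have ht : 0 < ‖x‖ ^ 2 / s ^ 2 := by positivity
  exact ⟨_, _, jet_persp hs.ne' (Jet.normSq x w) (hb_deriv_ev ht) (hb_deriv2 ht)⟩

theorem jet_main (K : ℝ) {p : B n} (hs : 0 < p.1) (u : B n) :
    ∃ a b, Jet (fun t : ℝ => (p.1 + t * u.1) *
      Real.exp (K * ((p.1 + t * u.1) / √(R2 (p + t • u))))) a b
      (K / 2 * Real.exp (K * (p.1 / √(R2 p))) * (p.1 / √(R2 p)) ^ 3 / p.1 * tt K p u) := by
  have hS := Jet.lin p.1 u.1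
  have hR := R2_pos hs
  have hq := Real.sqrt_pos.mpr hR
  have h1 := ((jet_R2 p u).sqrt hR).inv hq.ne'
  have h2 := hS.mul (((hS.mul h1).const_mul K).exp)
  refine ⟨_, _, (h2.congr (Eventually.of_forall fun t => ?_)).congr_val rfl rfl ?_⟩
  · simp only [div_eq_mul_inv]
  · have hsq : √(R2 p) ^ 2 = R2 p := Real.sq_sqrt hR.le
    have hn : ‖p.2‖ ^ 2 = √(R2 p) ^ 2 - p.1 ^ 2 := by rw [hsq, R2]; ring
    unfold tt
    rw [hn, ← div_eq_mul_inv]
    generalize Real.exp (K * (p.1 / √(R2 p))) = w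
    generalize √(R2 p) = R at *
    rw [← hsq]
    field_simp
    ring

theorem jet_eps {p : B n} (hs : 0 < p.1) (u : B n) :
    ∃ a b, Jet (fun t : ℝ => (p.1 + t * u.1) * Real.log (R2 (p + t • u) / (p.1 + t * u.1))) a b
      (p.1 * lr p u + 4 * u.1 * (p.1 * u.1 + ⟪p.2, u.2⟫) / R2 p - u.1 ^ 2 / p.1) := by
  have hS := Jet.lin p.1 u.1
  have hR := R2_pos hs
  have h2 := hS.mul (((jet_R2 p u).mul (hS.inv hs.ne')).log (by positivity))
  refine ⟨_, _, (h2.congr (Eventually.of_forall fun t => ?_)).congr_val rfl rfl ?_⟩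
  · simp only [div_eq_mul_inv]
  · unfold lr
    field_simp
    ring

theorem D2_mm {e : E n} (K η κ ε β γ : ℝ) {p : B n} (hp : p ∈ Dm e) (u : B n) :
    D2 (mm e K η κ ε β γ) p u =
      -(η * (K / 2 * Real.exp (K * (p.1 / √(R2 p))) * (p.1 / √(R2 p)) ^ 3 / p.1 * tt K p u)) +
        κ * (bb p.1 u.1 (a1 e p) (a1 e u) + bb p.1 u.1 (a2 e p) (a2 e u)) +
        ε * (p.1 * lr p u + 4 * u.1 * (p.1 * u.1 + ⟪p.2, u.2⟫) / R2 p - u.1 ^ 2 / p.1) +
        β * lr p u - γ * (u.1 ^ 2 / p.1 ^ 2) := by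
  have hc := contDiffAt_mm K η κ ε β γ hp (k := 2)
  obtain ⟨hs, h1, h2⟩ := hp
  have hS := Jet.lin p.1 u.1
  have hR := R2_pos hs
  obtain ⟨_, _, jm⟩ := jet_main K hs u
  obtain ⟨_, _, je⟩ := jet_eps hs u
  obtain ⟨_, _, j1⟩ := jet_bar hs u.1 h1 (a1 e u)
  obtain ⟨_, _, j2⟩ := jet_bar hs u.1 h2 (a2 e u)
  have j := (((((hS.const_mul π).sub (jm.const_mul η)).add ((j1.add j2).const_mul κ)).add
    (je.const_mul ε)).add (((jet_R2 p u).log hR.ne').const_mul β)).add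
    ((hS.log hs.ne').const_mul γ)
  refine D2_of_jet hc ((j.congr (Eventually.of_forall fun t => ?_)).congr_val rfl rfl ?_)
  · simp only [mm, mA, a1_line, a2_line, Prod.fst_add, Prod.smul_fst, smul_eq_mul]
  · unfold lr
    ring

end Pool.Agent.MP_71da5e_an.L

end

section

/-! The barrier bound. -/

namespace Pool.Agent.MP_71da5e_an.L

open Filter Topology
open scoped RealInnerProductSpace Real

variable {n : ℕ}

lemma wbar_log {t : ℝ} (ht : 0 < t) : HasDerivAt (fun u : ℝ => Real.log (Real.exp 1 + u⁻¹))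
    (-(t * (1 + Real.exp 1 * t))⁻¹) t := by
  have h2 : 0 < Real.exp 1 + t⁻¹ := by positivity
  refine (((hasDerivAt_inv ht.ne').const_add (Real.exp 1)).log h2.ne').congr_deriv ?_
  field_simp
  ring

lemma wbar_d1 {t : ℝ} (ht : 0 < t) :
    deriv hb t = -(Real.log (Real.exp 1 + t⁻¹) * (t * (1 + Real.exp 1 * t)))⁻¹ := by
  have h1 := hb_arg_gt ht
  have h : HasDerivAt hb _ t := (wbar_log ht).log (by linarith)
  rw [h.deriv, mul_inv (Real.log _)]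
  ring

lemma wbar_d2 {t : ℝ} (ht : 0 < t) :
    deriv (deriv hb) t = (Real.log (Real.exp 1 + t⁻¹) * (1 + 2 * Real.exp 1 * t) - 1) /
      (Real.log (Real.exp 1 + t⁻¹) * (t * (1 + Real.exp 1 * t))) ^ 2 := by
  have h1 := hb_arg_gt ht
  have hev : deriv hb =ᶠ[𝓝 t]
      fun u => -(Real.log (Real.exp 1 + u⁻¹) * (u * (1 + Real.exp 1 * u)))⁻¹ := by
    filter_upwards [eventually_gt_nhds ht] with u hu using wbar_d1 hu
  have hg : HasDerivAt (fun u : ℝ => u * (1 + Real.exp 1 * u)) (1 + 2 * Real.exp 1 * t) t := by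
    refine ((hasDerivAt_id t).mul
      (((hasDerivAt_id t).const_mul (Real.exp 1)).const_add 1)).congr_deriv ?_
    simp only [id]
    ring
  have hp : 0 < t * (1 + Real.exp 1 * t) := by positivity
  have hne : Real.log (Real.exp 1 + t⁻¹) * (t * (1 + Real.exp 1 * t)) ≠ 0 :=
    mul_ne_zero (by linarith) hp.ne'
  have h := (((wbar_log ht).fun_mul hg).fun_inv hne).fun_neg
  rw [hev.deriv_eq, h.deriv, neg_mul, inv_mul_cancel₀ hp.ne']
  ring

lemma wbar_real {t l e p a N : ℝ} (ht : 0 < t) (hl : 1 ≤ l) (he : 1 ≤ e) (he' : e ≤ 11 / 4)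
    (h : p ^ 2 + (a * t - p) ^ 2 ≤ t * N) :
    4 * ((l * (1 + 2 * e * t) - 1) / (l * (t * (1 + e * t))) ^ 2) * p ^ 2 +
        2 * -(l * (t * (1 + e * t)))⁻¹ * N ≤
      2 * a ^ 2 / (1 + t) + 16 * N / (1 + t) ^ 2 := by
  have hl0 : 0 < l := by linarith
  have he0 : 0 < e := by linarith
  have hs : 1 + t ≤ 1 + e * t := by nlinarith
  have hs0 : 0 < 1 + e * t := by positivity
  have hpN : p ^ 2 ≤ t * N := by nlinarith [sq_nonneg (a * t - p)]
  have hN : 0 ≤ N := by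
    by_contra hc
    nlinarith [sq_nonneg p, mul_neg_of_pos_of_neg ht (not_le.1 hc)]
  set D := l * (t * (1 + e * t)) with hD
  have hD0 : 0 < D := by positivity
  have e1 : 4 * ((l * (1 + 2 * e * t) - 1) / D ^ 2) * p ^ 2 + 2 * -D⁻¹ * N =
      4 * e * (p ^ 2 / t) / (l * (1 + e * t) ^ 2) - 4 * (p / D) ^ 2 +
        (4 * p ^ 2 / t - 2 * N) / D := by
    rw [hD]
    field_simp
    ring
  have e2 : p ^ 2 / t ≤ N := by rw [div_le_iff₀ ht]; linarith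
  have e3 : 4 * e * (p ^ 2 / t) / (l * (1 + e * t) ^ 2) ≤ 11 * N / (1 + t) ^ 2 := by
    have : (1 + t) ^ 2 ≤ l * (1 + e * t) ^ 2 :=
      (pow_le_pow_left₀ (by positivity) hs 2).trans (le_mul_of_one_le_left (by positivity) hl)
    have h2 : 4 * e * (p ^ 2 / t) ≤ 11 * N :=
      mul_le_mul (by linarith) e2 (by positivity) (by norm_num)
    exact div_le_div₀ (by positivity) h2 (by positivity) this
  have e4 : 4 * p ^ 2 / t - 2 * N ≤ 4 * a * p - 2 * a ^ 2 * t := by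
    rw [sub_le_iff_le_add, div_le_iff₀ ht]
    nlinarith
  have e5 : (4 * p ^ 2 / t - 2 * N) / D ≤ (4 * a * p - 2 * a ^ 2 * t) / D :=
    div_le_div_of_nonneg_right e4 hD0.le
  have e6 : 16 * N / (1 + t) ^ 2 = 11 * N / (1 + t) ^ 2 + 5 * (N / (1 + t) ^ 2) := by ring
  have e7 : 0 ≤ N / (1 + t) ^ 2 := by positivity
  rw [e1, e6]
  rcases le_total t 1 with h1 | h1
  · have f1 : (4 * a * p - 2 * a ^ 2 * t) / D ≤ 4 * a * (p / D) := by
      rw [← mul_div_assoc]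
      exact div_le_div_of_nonneg_right (sub_le_self _ (by positivity)) hD0.le
    have f2 : a ^ 2 ≤ 2 * a ^ 2 / (1 + t) := by
      rw [le_div_iff₀ (by positivity)]
      nlinarith [sq_nonneg a]
    nlinarith [sq_nonneg (a - 2 * (p / D))]
  · have f1 : 4 * a * p - 2 * a ^ 2 * t ≤ 2 * N := by
      have : (4 * a * p - 2 * a ^ 2 * t) * t ≤ 2 * N * t := by
        nlinarith [sq_nonneg (a * t - p)]
      exact le_of_mul_le_mul_right this ht
    have f2 : (1 + t) ^ 2 ≤ 2 * D := by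
      have g1 : t * (1 + t) ≤ t * (1 + e * t) := by gcongr
      have g2 : t * (1 + e * t) ≤ D := le_mul_of_one_le_left (by positivity) hl
      nlinarith
    have f3 : (4 * a * p - 2 * a ^ 2 * t) / D ≤ 4 * (N / (1 + t) ^ 2) := by
      rw [← mul_div_assoc, div_le_div_iff₀ hD0 (by positivity)]
      calc (4 * a * p - 2 * a ^ 2 * t) * (1 + t) ^ 2 ≤ 2 * N * (1 + t) ^ 2 := by gcongr
        _ ≤ 2 * N * (2 * D) := by gcongr
        _ = 4 * N * D := by ring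
    have f4 : 0 ≤ 2 * a ^ 2 / (1 + t) := by positivity
    nlinarith [sq_nonneg (p / D)]

lemma wbar_bessel {y b w : Fin n → ℝ} {t : ℝ} (ht : 0 < t) (hy : ∑ k, y k ^ 2 = t)
    (hb : ∑ k, b k ^ 2 = t) (hyb : ∑ k, y k * b k = 0) :
    (∑ k, y k * w k) ^ 2 + (∑ k, b k * w k) ^ 2 ≤ t * ∑ k, w k ^ 2 := by
  set α := ∑ k, y k * w k with hα
  set β := ∑ k, b k * w k with hβ
  have h0 : 0 ≤ ∑ k, (t * w k - α * y k - β * b k) ^ 2 :=
    Finset.sum_nonneg fun _ _ => sq_nonneg _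
  have h1 : ∑ k, (t * w k - α * y k - β * b k) ^ 2 =
      t ^ 2 * ∑ k, w k ^ 2 + α ^ 2 * ∑ k, y k ^ 2 + β ^ 2 * ∑ k, b k ^ 2 -
        2 * t * α * ∑ k, y k * w k - 2 * t * β * ∑ k, b k * w k +
        2 * α * β * ∑ k, y k * b k := by
    simp only [Finset.mul_sum, ← Finset.sum_add_distrib, ← Finset.sum_sub_distrib]
    exact Finset.sum_congr rfl fun k _ => by ring
  rw [h1, hy, hb, hyb, ← hα, ← hβ] at h0
  have : (α ^ 2 + β ^ 2) * t ≤ (t * ∑ k, w k ^ 2) * t := by nlinarith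
  exact le_of_mul_le_mul_right this ht

lemma wbar_sq (y : E n) (v : V n) :
    ‖bd (rc y) v‖ ^ 2 = (∑ k, y k * (v k).re) ^ 2 + (∑ k, y k * (v k).im) ^ 2 := by
  rw [Complex.sq_norm, Complex.normSq_apply]
  simp [bd, rc, sq]

lemma wbar_nsq (v : V n) : nsq v = ∑ k, (v k).re ^ 2 + ∑ k, (v k).im ^ 2 := by
  rw [nsq, ← Finset.sum_add_distrib]
  exact Finset.sum_congr rfl fun k _ => by rw [Complex.sq_norm, Complex.normSq_apply]; ring

theorem bar_le {y b : E n} (hy : y ≠ 0) (hnull : pz y b = 0) (Xv : V n) (al : ℂ)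
    (hX : bd Xv (zc y b) = 0) :
    bar y (fun k => Xv k - al * (y k : ℂ)) ≤
      2 * ‖al‖ ^ 2 / (1 + ‖y‖ ^ 2) +
        16 * nsq (fun k => Xv k - al * (y k : ℂ)) / (1 + ‖y‖ ^ 2) ^ 2 := by
  have ht : 0 < ‖y‖ ^ 2 := pow_pos (norm_pos_iff.2 hy) 2
  have hy2 : ∑ k, y k ^ 2 = ‖y‖ ^ 2 := (EuclideanSpace.real_norm_sq_eq y).symm
  have hre := congrArg Complex.re hnull
  have him := congrArg Complex.im hnull
  simp only [pz, bd, zc, Complex.re_sum, Complex.im_sum, Complex.mul_re, Complex.mul_im,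
    Complex.add_re, Complex.add_im, Complex.ofReal_re, Complex.ofReal_im, Complex.I_re,
    Complex.I_im, mul_zero, mul_one, sub_zero, add_zero, zero_add, Complex.zero_re,
    Complex.zero_im, Finset.sum_sub_distrib] at hre him
  have hb2 : ∑ k, b k ^ 2 = ‖y‖ ^ 2 := by
    rw [← hy2]; simp only [sq]; linarith
  have hyb : ∑ k, y k * b k = 0 := by
    have : ∑ k, (y k * b k + b k * y k) = 2 * ∑ k, y k * b k := by
      rw [Finset.mul_sum]; exact Finset.sum_congr rfl fun k _ => by ring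
    linarith
  set v : V n := fun k => Xv k - al * (y k : ℂ) with hv
  have hB : ‖bd (rc y) v‖ ^ 2 + ‖bd (rc b) v‖ ^ 2 ≤ ‖y‖ ^ 2 * nsq v := by
    rw [wbar_sq, wbar_sq, wbar_nsq]
    have h1 := wbar_bessel (w := fun k => (v k).re) ht hy2 hb2 hyb
    have h2 := wbar_bessel (w := fun k => (v k).im) ht hy2 hb2 hyb
    linarith
  have hE : bd (rc y) v + al * ((‖y‖ ^ 2 : ℝ) : ℂ) = -(Complex.I * bd (rc b) v) := by
    have c1 : ((‖y‖ ^ 2 : ℝ) : ℂ) = ∑ k, (y k : ℂ) ^ 2 := by rw [← hy2]; push_cast; rfl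
    have c2 : ∑ k, (y k : ℂ) * (b k : ℂ) = 0 := by exact_mod_cast hyb
    have c3 : bd (rc y) v + al * (∑ k, (y k : ℂ) ^ 2) + Complex.I * bd (rc b) v =
        bd Xv (zc y b) - Complex.I * al * ∑ k, (y k : ℂ) * (b k : ℂ) := by
      simp only [bd, rc, zc, hv, Finset.mul_sum, ← Finset.sum_add_distrib,
        ← Finset.sum_sub_distrib]
      exact Finset.sum_congr rfl fun k _ => by ring
    rw [hX, c2, mul_zero, sub_zero] at c3
    rw [c1]
    linear_combination c3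
  have hQ : (‖al‖ * ‖y‖ ^ 2 - ‖bd (rc y) v‖) ^ 2 ≤ ‖bd (rc b) v‖ ^ 2 := by
    have h1 : ‖bd (rc b) v‖ = ‖al * ((‖y‖ ^ 2 : ℝ) : ℂ) - -bd (rc y) v‖ := by
      rw [sub_neg_eq_add, add_comm, hE, norm_neg, norm_mul, Complex.norm_I, one_mul]
    have h2 := abs_norm_sub_norm_le (al * ((‖y‖ ^ 2 : ℝ) : ℂ)) (-bd (rc y) v)
    rw [← h1, norm_neg, norm_mul, Complex.norm_real, Real.norm_of_nonneg ht.le] at h2
    exact sq_le_sq' (abs_le.1 h2).1 (abs_le.1 h2).2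
  rw [bar, wbar_d2 ht, wbar_d1 ht]
  refine wbar_real ht (hb_arg_gt ht).le (Real.one_le_exp zero_le_one) ?_ (by linarith)
  have := Real.exp_one_lt_d9
  linarith

theorem hb_unbounded (M : ℝ) : ∃ x₀ : ℝ, 0 < x₀ ∧ x₀ ≤ 1 / 2 ∧ M ≤ hb (2 * x₀ ^ 2) := by
  set x₀ := min (1 / 2) (Real.exp (-Real.exp M)) with hx
  have h0 : 0 < x₀ := lt_min one_half_pos (Real.exp_pos _)
  have h1 : x₀ ≤ 1 / 2 := min_le_left _ _
  have h2 : x₀ ≤ Real.exp (-Real.exp M) := min_le_right _ _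
  refine ⟨x₀, h0, h1, ?_⟩
  have h3 : 2 * x₀ ^ 2 ≤ Real.exp (-Real.exp M) := by nlinarith
  have h4 : Real.exp (Real.exp M) ≤ (2 * x₀ ^ 2)⁻¹ := by
    rw [le_inv_comm₀ (Real.exp_pos _) (by positivity), ← Real.exp_neg]
    exact h3
  have h5 : Real.exp M ≤ Real.log (Real.exp 1 + (2 * x₀ ^ 2)⁻¹) := by
    rw [Real.le_log_iff_exp_le (by positivity)]
    have := Real.exp_pos 1
    linarith
  rw [hb, Real.le_log_iff_exp_le ((Real.exp_pos M).trans_le h5)]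
  exact h5

end Pool.Agent.MP_71da5e_an.L

end

section

/-! The Levi form of the weight along a complex direction. -/

namespace Pool.Agent.MP_71da5e_an.L

open Filter Topology
open scoped RealInnerProductSpace Real ComplexConjugate

variable {n : ℕ}

namespace WLev

theorem bd_re (a : E n) (v : V n) : (bd (rc a) v).re = ⟪a, reV v⟫ := by
  simp [bd, rc, reV, PiLp.inner_apply, mul_comm]

theorem bd_im (a : E n) (v : V n) : (bd (rc a) v).im = ⟪a, imV v⟫ := by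
  simp [bd, rc, imV, PiLp.inner_apply, mul_comm]

theorem nsqc (z : ℂ) : ‖z‖ ^ 2 = z.re ^ 2 + z.im ^ 2 := by
  rw [Complex.sq_norm, Complex.normSq_apply]; ring

theorem bd_sq (a : E n) (v : V n) : ‖bd (rc a) v‖ ^ 2 = ⟪a, reV v⟫ ^ 2 + ⟪a, imV v⟫ ^ 2 := by
  rw [nsqc, bd_re, bd_im]

theorem nsq_eq (v : V n) : nsq v = ‖reV v‖ ^ 2 + ‖imV v‖ ^ 2 := by
  simp only [nsq, EuclideanSpace.real_norm_sq_eq, reV, imV, nsqc, Finset.sum_add_distrib]

theorem re_Vy (p : B n) (W : ℂ × V n) : reV (Vy p W) = reV W.2 - (W.1.re / p.1) • p.2 := by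
  ext k
  simp only [reV, Vy, PiLp.sub_apply, PiLp.smul_apply, smul_eq_mul, Complex.sub_re,
    Complex.re_mul_ofReal]
  ring

theorem im_Vy (p : B n) (W : ℂ × V n) : imV (Vy p W) = imV W.2 - (W.1.im / p.1) • p.2 := by
  ext k
  simp only [imV, Vy, PiLp.sub_apply, PiLp.smul_apply, smul_eq_mul, Complex.sub_im,
    Complex.im_mul_ofReal]
  ring

theorem in_sub {s : ℝ} (hs : 0 < s) (σ : ℝ) (x w : E n) :
    ⟪s⁻¹ • x, w - (σ / s) • x⟫ = (⟪x, w⟫ - σ * ‖x‖ ^ 2 / s) / s := by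
  rw [real_inner_smul_left, inner_sub_right, real_inner_smul_right, real_inner_self_eq_norm_sq]
  field_simp

theorem no_sub (s σ : ℝ) (x w : E n) :
    ‖w - (σ / s) • x‖ ^ 2 = ‖w‖ ^ 2 - 2 * σ * ⟪x, w⟫ / s + σ ^ 2 * ‖x‖ ^ 2 / s ^ 2 := by
  rw [norm_sub_sq_real, real_inner_smul_right, norm_smul, mul_pow, Real.norm_eq_abs, sq_abs,
    real_inner_comm x w]
  ring

theorem no_smul (s : ℝ) (x : E n) : ‖s⁻¹ • x‖ ^ 2 = ‖x‖ ^ 2 / s ^ 2 := by
  rw [norm_smul, mul_pow, Real.norm_eq_abs, sq_abs]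
  ring

theorem bb_eq {s : ℝ} (hs : 0 < s) (σ : ℝ) (x w y : E n)
    (h : w - (σ / s) • x = y ∨ w - (σ / s) • x = -y) :
    bb s σ x w = (4 * deriv (deriv hb) (‖s⁻¹ • x‖ ^ 2) * ⟪s⁻¹ • x, y⟫ ^ 2 +
      2 * deriv hb (‖s⁻¹ • x‖ ^ 2) * ‖y‖ ^ 2) / s := by
  rw [bb, ← in_sub hs, ← no_sub, ← no_smul]
  rcases h with h | h
  · rw [h]
  · rw [h, inner_neg_right, norm_neg, neg_sq]

theorem a1_sub (e : E n) {p : B n} (hs : 0 < p.1) (u : B n) :
    a1 e u - (u.1 / p.1) • a1 e p = u.2 - (u.1 / p.1) • p.2 := by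
  have : u.1 / p.1 * (p.1 / 2) = u.1 / 2 := by field_simp
  simp only [a1, smul_add, smul_smul, this]
  abel

theorem a2_sub (e : E n) {p : B n} (hs : 0 < p.1) (u : B n) :
    a2 e u - (u.1 / p.1) • a2 e p = -(u.2 - (u.1 / p.1) • p.2) := by
  have : u.1 / p.1 * (p.1 / 2) = u.1 / 2 := by field_simp
  simp only [a2, smul_sub, smul_smul, this]
  abel

theorem th_eq (K : ℝ) {p : B n} (hs : 0 < p.1) (W : ℂ × V n) :
    th K p W = tt K p (W.1.re, reV W.2) + tt K p (W.1.im, imV W.2) := by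
  rw [th, bd_sq, nsq_eq, re_Vy, im_Vy, in_sub hs, in_sub hs, no_sub, no_sub, tt, tt]
  ring

theorem P_re (p : B n) (W : ℂ × V n) :
    ((p.1 : ℂ) * W.1 + bd (rc p.2) W.2).re = p.1 * W.1.re + ⟪p.2, reV W.2⟫ := by
  rw [Complex.add_re, bd_re, Complex.re_ofReal_mul]

theorem P_im (p : B n) (W : ℂ × V n) :
    ((p.1 : ℂ) * W.1 + bd (rc p.2) W.2).im = p.1 * W.1.im + ⟪p.2, imV W.2⟫ := by
  rw [Complex.add_im, bd_im, Complex.im_ofReal_mul]

theorem LR_eq (p : B n) (W : ℂ × V n) :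
    LR p W = lr p (W.1.re, reV W.2) + lr p (W.1.im, imV W.2) := by
  rw [LR, nsqc, nsqc, P_re, P_im, nsq_eq, lr, lr]
  ring

end WLev

theorem lev_mm {e : E n} (K η κ ε β γ : ℝ) {p : B n} (hp : p ∈ Dm e) (W : ℂ × V n) :
    lev (mm e K η κ ε β γ) p W =
      -(η * (K / 2 * Real.exp (K * (p.1 / √(R2 p))) * (p.1 / √(R2 p)) ^ 3 / p.1 * th K p W)) +
        κ * ((bar ((p.1)⁻¹ • a1 e p) (Vy p W) + bar ((p.1)⁻¹ • a2 e p) (Vy p W)) / p.1) +
        ε * (p.1 * LR p W + 4 * (conj W.1 * ((p.1 : ℂ) * W.1 + bd (rc p.2) W.2)).re / R2 p -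
          ‖W.1‖ ^ 2 / p.1) +
        β * LR p W - γ * (‖W.1‖ ^ 2 / p.1 ^ 2) := by
  have hs := hp.1
  rw [lev, D2_mm K η κ ε β γ hp, D2_mm K η κ ε β γ hp, WLev.th_eq K hs, WLev.LR_eq,
    WLev.bb_eq hs _ _ _ _ (Or.inl (WLev.a1_sub e hs _)),
    WLev.bb_eq hs _ _ _ _ (Or.inr (WLev.a2_sub e hs _)),
    WLev.bb_eq hs _ _ _ _ (Or.inl (WLev.a1_sub e hs _)),
    WLev.bb_eq hs _ _ _ _ (Or.inr (WLev.a2_sub e hs _)), bar, bar, WLev.bd_sq, WLev.bd_sq,
    WLev.nsq_eq, WLev.re_Vy, WLev.im_Vy, Complex.mul_re, WLev.P_re, WLev.P_im, WLev.nsqc W.1,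
    Complex.conj_re, Complex.conj_im]
  ring

theorem eps_le {p : B n} (hs : 0 < p.1) (W : ℂ × V n) :
    p.1 * LR p W + 4 * (conj W.1 * ((p.1 : ℂ) * W.1 + bd (rc p.2) W.2)).re / R2 p -
      ‖W.1‖ ^ 2 / p.1 ≤ 2 * p.1 * (‖W.1‖ ^ 2 + nsq W.2) / R2 p := by
  have hR := R2_pos hs
  rw [LR, Complex.mul_re, WLev.nsqc W.1, WLev.nsqc (_ + _), Complex.conj_re, Complex.conj_im]
  generalize ((p.1 : ℂ) * W.1 + bd (rc p.2) W.2).re = x
  generalize ((p.1 : ℂ) * W.1 + bd (rc p.2) W.2).im = y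
  have h : 0 ≤ ((2 * p.1 * x / R2 p - W.1.re) ^ 2 + (2 * p.1 * y / R2 p - W.1.im) ^ 2) / p.1 := by
    positivity
  refine sub_nonneg.1 (h.trans_eq ?_)
  field_simp
  ring

theorem bar_neg (y : E n) (v : V n) : bar y (fun k => -v k) = bar y v := by
  have h1 : bd (rc y) (fun k => -v k) = -bd (rc y) v := by simp [bd]
  have h2 : nsq (fun k => -v k) = nsq v := by simp [nsq]
  rw [bar, bar, h1, h2, norm_neg]

theorem Vy_eq_X1 (e : E n) {p : B n} (hs : 0 < p.1) (W : ℂ × V n) :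
    Vy p W = fun k => X1 e W k - W.1 * ((((p.1)⁻¹ • a1 e p) k : ℝ) : ℂ) := by
  funext k
  have h : (p.1 : ℂ) ≠ 0 := Complex.ofReal_ne_zero.2 hs.ne'
  simp only [Vy, X1, a1, PiLp.smul_apply, PiLp.add_apply, smul_eq_mul]
  push_cast
  field_simp
  ring

theorem Vy_eq_X2 (e : E n) {p : B n} (hs : 0 < p.1) (W : ℂ × V n) :
    (fun k => -Vy p W k) = fun k => X2 e W k - W.1 * ((((p.1)⁻¹ • a2 e p) k : ℝ) : ℂ) := by
  funext k
  have h : (p.1 : ℂ) ≠ 0 := Complex.ofReal_ne_zero.2 hs.ne'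
  simp only [Vy, X2, a2, PiLp.smul_apply, PiLp.sub_apply, smul_eq_mul]
  push_cast
  field_simp
  ring

end Pool.Agent.MP_71da5e_an.L

end
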