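import Pool.Agent.Mg.F71da5ea.G8bae5f

section

namespace Pool.Agent.MP_71da5e_an.L

open MeasureTheory Metric Set Laplacian Complex
open scoped ContDiff RealInnerProductSpace ENNReal Real ComplexConjugate

namespace CutAux

open Filter Topology

variable {n : ℕ}

/-- A smooth step: `0` up to `1`, and `1` from `2` on. -/
noncomputable def c1 (t : ℝ) : ℝ := Real.smoothTransition (t - 1)

theorem c1_smooth : ContDiff ℝ ∞ c1 :=
  Real.smoothTransition.contDiff.comp (contDiff_id.sub contDiff_const)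

theorem c1_nonneg (t : ℝ) : 0 ≤ c1 t := Real.smoothTransition.nonneg _

theorem c1_le (t : ℝ) : c1 t ≤ 1 := Real.smoothTransition.le_one _

theorem c1_zero {t : ℝ} (h : t ≤ 1) : c1 t = 0 := Real.smoothTransition.zero_of_nonpos (by linarith)

theorem c1_one {t : ℝ} (h : 2 ≤ t) : c1 t = 1 := Real.smoothTransition.one_of_one_le (by linarith)

theorem lt_of_c1 {t : ℝ} (h : c1 t ≠ 0) : 1 < t := not_le.1 fun h' => h (c1_zero h')

theorem norm_fderiv_mul {f g : B n → ℝ} {p : B n} (hf : DifferentiableAt ℝ f p)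
    (hg : DifferentiableAt ℝ g p) (f0 : 0 ≤ f p) (f1 : f p ≤ 1) (g0 : 0 ≤ g p) (g1 : g p ≤ 1) :
    ‖fderiv ℝ (fun q => f q * g q) p‖ ≤ ‖fderiv ℝ f p‖ + ‖fderiv ℝ g p‖ := by
  rw [fderiv_fun_mul hf hg]
  refine (norm_add_le _ _).trans ?_
  rw [norm_smul, norm_smul, Real.norm_of_nonneg f0, Real.norm_of_nonneg g0, add_comm]
  exact add_le_add (mul_le_of_le_one_left (norm_nonneg _) g1)
    (mul_le_of_le_one_left (norm_nonneg _) f1)

theorem a1_smooth (e : E n) : ContDiff ℝ ∞ (a1 e) := by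
  unfold a1
  fun_prop

theorem a2_smooth (e : E n) : ContDiff ℝ ∞ (a2 e) := by
  unfold a2
  fun_prop

theorem R2_smooth : ContDiff ℝ ∞ (R2 : B n → ℝ) :=
  (contDiff_fst.pow 2).add (contDiff_snd.norm_sq ℝ)

theorem a1_smul (e : E n) (t : ℝ) (p : B n) : a1 e (t • p) = t • a1 e p := by
  simp only [a1, Prod.smul_fst, Prod.smul_snd, smul_add, smul_smul, smul_eq_mul, mul_div_assoc]

theorem a2_smul (e : E n) (t : ℝ) (p : B n) : a2 e (t • p) = t • a2 e p := by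
  simp only [a2, Prod.smul_fst, Prod.smul_snd, smul_sub, smul_smul, smul_eq_mul, mul_div_assoc]

theorem R2_smul (t : ℝ) (p : B n) : R2 (t • p) = t ^ 2 * R2 p := by
  simp only [R2, Prod.smul_fst, Prod.smul_snd, norm_smul, smul_eq_mul, mul_pow, Real.norm_eq_abs,
    sq_abs, mul_add]

theorem norm_le_of_R2 {p : B n} {R : ℝ} (hR : 0 ≤ R) (h : R2 p ≤ 2 * R ^ 2) : ‖p‖ ≤ 2 * R := by
  unfold R2 at h
  rw [Prod.norm_def, max_le_iff]
  constructor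
  · refine abs_le_of_sq_le_sq' ?_ (by positivity) |> abs_le.2
    nlinarith [sq_nonneg ‖p.2‖, sq_nonneg R]
  · refine (abs_le_of_sq_le_sq' ?_ (by positivity)).2
    nlinarith [sq_nonneg p.1, sq_nonneg R]

/-- The homogeneous factor. -/
noncomputable def G (e : E n) (x₀ : ℝ) (p : B n) : ℝ :=
  c1 (3200 * ‖p.2‖ ^ 2 / p.1 ^ 2) * c1 (‖a1 e p‖ ^ 2 / (x₀ ^ 2 * p.1 ^ 2)) *
    c1 (‖a2 e p‖ ^ 2 / (x₀ ^ 2 * p.1 ^ 2))

theorem G_nonneg (e : E n) (x₀ : ℝ) (p : B n) : 0 ≤ G e x₀ p :=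
  mul_nonneg (mul_nonneg (c1_nonneg _) (c1_nonneg _)) (c1_nonneg _)

theorem G_le (e : E n) (x₀ : ℝ) (p : B n) : G e x₀ p ≤ 1 :=
  mul_le_one₀ (mul_le_one₀ (c1_le _) (c1_nonneg _) (c1_le _)) (c1_nonneg _) (c1_le _)

theorem G_smul (e : E n) (x₀ : ℝ) {t : ℝ} (ht : t ≠ 0) (p : B n) :
    G e x₀ (t • p) = G e x₀ p := by
  have h : t ^ 2 ≠ 0 := pow_ne_zero 2 ht
  have k1 : ∀ a b c : ℝ, c * (t ^ 2 * a) / (t ^ 2 * b) = c * a / b := fun a b c => by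
    rw [mul_left_comm, mul_div_mul_left _ _ h]
  have k2 : ∀ a b c : ℝ, t ^ 2 * a / (c * (t ^ 2 * b)) = a / (c * b) := fun a b c => by
    rw [mul_left_comm, mul_div_mul_left _ _ h]
  simp only [G, a1_smul, a2_smul, Prod.smul_fst, Prod.smul_snd, norm_smul, smul_eq_mul, mul_pow,
    Real.norm_eq_abs, sq_abs, k1, k2]

theorem G_smooth (e : E n) {x₀ : ℝ} (hx : 0 < x₀) {p : B n} (hp : p.1 ≠ 0) :
    ContDiffAt ℝ ∞ (G e x₀) p := by
  have hs : ContDiffAt ℝ ∞ (fun q : B n => q.1 ^ 2) p := contDiffAt_fst.pow 2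
  have hd : x₀ ^ 2 * p.1 ^ 2 ≠ 0 := by positivity
  refine ((c1_smooth.contDiffAt.comp p ?_).mul (c1_smooth.contDiffAt.comp p ?_)).mul
    (c1_smooth.contDiffAt.comp p ?_)
  · exact (contDiffAt_const.mul (contDiffAt_snd.norm_sq ℝ)).div hs (pow_ne_zero 2 hp)
  · exact ((a1_smooth e).contDiffAt.norm_sq ℝ).div (contDiffAt_const.mul hs) hd
  · exact ((a2_smooth e).contDiffAt.norm_sq ℝ).div (contDiffAt_const.mul hs) hd

theorem G_one {e : E n} {x₀ : ℝ} (hx : 0 < x₀) {p : B n} (hp : 0 < p.1)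
    (h0 : p.1 ^ 2 / 1600 ≤ ‖p.2‖ ^ 2) (h1 : 2 * x₀ ^ 2 * p.1 ^ 2 ≤ ‖a1 e p‖ ^ 2)
    (h2 : 2 * x₀ ^ 2 * p.1 ^ 2 ≤ ‖a2 e p‖ ^ 2) : G e x₀ p = 1 := by
  have hd : 0 < x₀ ^ 2 * p.1 ^ 2 := by positivity
  rw [G, c1_one, c1_one, c1_one, one_mul, one_mul]
  · rw [le_div_iff₀ hd]; linarith
  · rw [le_div_iff₀ hd]; linarith
  · rw [le_div_iff₀ (by positivity)]; linarith

theorem G_far {e : E n} (he : ‖e‖ = 1) {x₀ : ℝ} (hx : 0 < x₀) (hx' : x₀ ≤ 1 / 2) {p : B n}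
    (hp : 0 < p.1) (h : 2 * p.1 < ‖p.2‖) : G e x₀ p = 1 := by
  have hn : ‖(p.1 / 2) • e‖ = p.1 / 2 := by
    rw [norm_smul, he, mul_one, Real.norm_of_nonneg (by positivity)]
  have hx2 : 2 * x₀ ^ 2 * p.1 ^ 2 ≤ p.1 ^ 2 := by
    have : x₀ ^ 2 ≤ 1 / 4 := by nlinarith
    nlinarith [sq_nonneg p.1]
  refine G_one hx hp (by nlinarith) (hx2.trans ?_) (hx2.trans ?_)
  · refine pow_le_pow_left₀ hp.le ?_ 2
    have := norm_sub_le (a1 e p) ((p.1 / 2) • e)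
    rw [hn, a1, add_sub_cancel_left] at this
    unfold a1
    linarith
  · refine pow_le_pow_left₀ hp.le ?_ 2
    have := norm_sub_le ((p.1 / 2) • e) (a2 e p)
    rw [hn, a2, sub_sub_cancel] at this
    unfold a2
    linarith

theorem G_grad {e : E n} (he : ‖e‖ = 1) {x₀ : ℝ} (hx : 0 < x₀) (hx' : x₀ ≤ 1 / 2) :
    ∃ C : ℝ, ∀ p : B n, 1 ≤ p.1 → ‖fderiv ℝ (G e x₀) p‖ ≤ C := by
  have hc : ContinuousOn (fun y : E n => fderiv ℝ (G e x₀) ((1 : ℝ), y)) (closedBall 0 2) := by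
    intro y _
    have h1 : ContinuousAt (fderiv ℝ (G e x₀)) ((1 : ℝ), y) :=
      ((G_smooth e hx (p := ((1 : ℝ), y)) one_ne_zero).fderiv_right (m := 0)
        (by exact_mod_cast le_top)).continuousAt
    exact (ContinuousAt.comp (f := fun y : E n => ((1 : ℝ), y)) h1
      (by fun_prop)).continuousWithinAt
  obtain ⟨C, hC⟩ := (isCompact_closedBall (0 : E n) 2).exists_bound_of_continuousOn hc
  have hC0 : 0 ≤ C := (norm_nonneg _).trans (hC 0 (by simp))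
  refine ⟨C, fun p hp => ?_⟩
  have hp0 : 0 < p.1 := by linarith
  by_cases h : 2 * p.1 < ‖p.2‖
  · have : G e x₀ =ᶠ[𝓝 p] fun _ => 1 := by
      have o1 : ∀ᶠ q : B n in 𝓝 p, 0 < q.1 :=
        (isOpen_lt continuous_const continuous_fst).mem_nhds hp0
      have o2 : ∀ᶠ q : B n in 𝓝 p, 2 * q.1 < ‖q.2‖ :=
        (isOpen_lt (by fun_prop) (by fun_prop)).mem_nhds h
      filter_upwards [o1, o2] with q q1 q2 using G_far he hx hx' q1 q2
    rw [this.fderiv_eq]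
    simpa using hC0
  · have e1 : G e x₀ = fun q => G e x₀ ((p.1)⁻¹ • q) :=
      funext fun q => (G_smul e x₀ (inv_ne_zero hp0.ne') q).symm
    have e2 : (p.1)⁻¹ • p = ((1 : ℝ), (p.1)⁻¹ • p.2) :=
      Prod.ext (inv_mul_cancel₀ hp0.ne') rfl
    have i0 : 0 ≤ (p.1)⁻¹ := by positivity
    rw [e1, fderiv_comp_smul, norm_smul, e2, Real.norm_of_nonneg i0]
    refine (mul_le_of_le_one_left (norm_nonneg _) (inv_le_one_of_one_le₀ hp)).trans (hC _ ?_)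
    rw [mem_closedBall_zero_iff, norm_smul, Real.norm_of_nonneg i0, inv_mul_le_iff₀ hp0]
    linarith

theorem c1_grad : ∃ C : ℝ, ∀ t, ‖fderiv ℝ c1 t‖ ≤ C := by
  refine (c1_smooth.continuous_fderiv (by simp)).bounded_above_of_compact_support
    (HasCompactSupport.intro (isCompact_Icc (a := 1) (b := 2)) fun t ht => ?_)
  rcases not_and_or.1 ht with h | h
  · have : c1 =ᶠ[𝓝 t] fun _ => 0 := by
      filter_upwards [Iio_mem_nhds (not_le.1 h)] with u hu using c1_zero (le_of_lt hu)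
    rw [this.fderiv_eq]; simp
  · have : c1 =ᶠ[𝓝 t] fun _ => 1 := by
      filter_upwards [Ioi_mem_nhds (not_le.1 h)] with u hu using c1_one (le_of_lt hu)
    rw [this.fderiv_eq]; simp

/-- The factor that does not depend on the radius. -/
noncomputable def A (e : E n) (s₀ x₀ : ℝ) (p : B n) : ℝ := c1 (s₀⁻¹ * p.1) * G e x₀ p

theorem S_smooth (s₀ : ℝ) : ContDiff ℝ ∞ fun p : B n => c1 (s₀⁻¹ * p.1) :=
  c1_smooth.comp (contDiff_const.mul contDiff_fst)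

theorem S_grad (s₀ : ℝ) :
    ∃ C : ℝ, ∀ p : B n, ‖fderiv ℝ (fun p : B n => c1 (s₀⁻¹ * p.1)) p‖ ≤ C := by
  obtain ⟨C, hC⟩ := c1_grad
  let L : B n →L[ℝ] ℝ := s₀⁻¹ • ContinuousLinearMap.fst ℝ ℝ (E n)
  refine ⟨C * ‖L‖, fun p => ?_⟩
  have h : HasFDerivAt (fun p : B n => c1 (s₀⁻¹ * p.1)) ((fderiv ℝ c1 (L p)).comp L) p :=
    ((c1_smooth.differentiable (by simp)) (L p)).hasFDerivAt.comp p L.hasFDerivAt
  rw [h.fderiv]
  exact (ContinuousLinearMap.opNorm_comp_le _ _).trans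
    (mul_le_mul_of_nonneg_right (hC _) (norm_nonneg _))

theorem A_low (e : E n) {s₀ : ℝ} (hs : 1 ≤ s₀) (x₀ : ℝ) {p : B n} (hp : p.1 < s₀) :
    A e s₀ x₀ =ᶠ[𝓝 p] fun _ => 0 := by
  have o1 : ∀ᶠ q : B n in 𝓝 p, q.1 < s₀ := (isOpen_lt continuous_fst continuous_const).mem_nhds hp
  filter_upwards [o1] with q hq
  rw [A, c1_zero, zero_mul]
  rw [inv_mul_le_iff₀ (by linarith)]
  linarith

theorem A_smooth (e : E n) {s₀ x₀ : ℝ} (hs : 1 ≤ s₀) (hx : 0 < x₀) : ContDiff ℝ ∞ (A e s₀ x₀) := by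
  rw [contDiff_iff_contDiffAt]
  intro p
  by_cases hp : p.1 < s₀
  · exact contDiffAt_const.congr_of_eventuallyEq (A_low e hs x₀ hp)
  · exact (S_smooth s₀).contDiffAt.mul (G_smooth e hx (by linarith [not_lt.1 hp] : (0 : ℝ) < p.1).ne')

theorem A_grad {e : E n} (he : ‖e‖ = 1) {s₀ x₀ : ℝ} (hs : 1 ≤ s₀) (hx : 0 < x₀)
    (hx' : x₀ ≤ 1 / 2) : ∃ C : ℝ, ∀ p : B n, ‖fderiv ℝ (A e s₀ x₀) p‖ ≤ C := by
  obtain ⟨C, hC⟩ := S_grad (n := n) s₀
  obtain ⟨D, hD⟩ := G_grad he hx hx'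
  refine ⟨max (C + D) 0, fun p => ?_⟩
  by_cases hp : p.1 < s₀
  · rw [(A_low e hs x₀ hp).fderiv_eq]
    simp
  · have h1 : 1 ≤ p.1 := hs.trans (not_lt.1 hp)
    refine le_trans ?_ (le_max_left _ _)
    exact (norm_fderiv_mul ((S_smooth s₀).differentiable (by simp) p)
      ((G_smooth e hx (by linarith : (0 : ℝ) < p.1).ne').differentiableAt (by simp))
      (c1_nonneg _) (c1_le _) (G_nonneg _ _ _) (G_le _ _ _)).trans (add_le_add (hC p) (hD p h1))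

/-- The radial factor. -/
noncomputable def ph (p : B n) : ℝ := 1 - c1 (R2 p)

theorem ph_smooth : ContDiff ℝ ∞ (ph : B n → ℝ) := contDiff_const.sub (c1_smooth.comp R2_smooth)

theorem lt_of_ph {p : B n} (h : ph p ≠ 0) : R2 p < 2 :=
  not_le.1 fun h' => h (by rw [ph, c1_one h', sub_self])

theorem ph_grad : ∃ C : ℝ, ∀ p : B n, ‖fderiv ℝ ph p‖ ≤ C := by
  have h : HasCompactSupport (ph : B n → ℝ) := by
    refine HasCompactSupport.intro (isCompact_closedBall (0 : B n) (2 * 1)) fun p hp => ?_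
    by_contra h
    exact hp (mem_closedBall_zero_iff.2 (norm_le_of_R2 zero_le_one (by linarith [lt_of_ph h])))
  exact (ph_smooth.continuous_fderiv (by simp)).bounded_above_of_compact_support (h.fderiv ℝ)

theorem isClosed_Sp (e : E n) (s₀ x₀ R₀ : ℝ) : IsClosed (Sp e s₀ x₀ R₀) := by
  have h1 := (a1_smooth e).continuous
  have h2 := (a2_smooth e).continuous
  have h3 := (R2_smooth (n := n)).continuous
  have c0 : IsClosed {p : B n | s₀ ≤ p.1} := isClosed_le continuous_const continuous_fst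
  have c1 : IsClosed {p : B n | p.1 ^ 2 / 3200 ≤ ‖p.2‖ ^ 2} :=
    isClosed_le (by fun_prop) (by fun_prop)
  have c2 : IsClosed {p : B n | x₀ ^ 2 * p.1 ^ 2 ≤ ‖a1 e p‖ ^ 2} :=
    isClosed_le (by fun_prop) (by fun_prop)
  have c3 : IsClosed {p : B n | x₀ ^ 2 * p.1 ^ 2 ≤ ‖a2 e p‖ ^ 2} :=
    isClosed_le (by fun_prop) (by fun_prop)
  have c4 : IsClosed {p : B n | R2 p ≤ 2 * R₀ ^ 2} := isClosed_le h3 continuous_const
  exact (c0.inter (c1.inter (c2.inter c3))).inter c4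

end CutAux

open CutAux Filter Topology in
theorem cutStmt (n : ℕ) : CutStmt n := by
  intro e he s₀ x₀ hs hx hx'
  obtain ⟨C, hC⟩ := A_grad he hs hx hx'
  obtain ⟨D, hD⟩ := ph_grad (n := n)
  refine ⟨C + D, fun R₀ hR => ?_⟩
  have R0 : 0 < R₀ := by linarith
  have s0 : 0 < s₀ := by linarith
  have hP : ContDiff ℝ ∞ fun p : B n => ph (R₀⁻¹ • p) := ph_smooth.comp (contDiff_const_smul _)
  have hA := A_smooth e hs hx
  have A0 : ∀ p, 0 ≤ A e s₀ x₀ p := fun p => mul_nonneg (c1_nonneg _) (G_nonneg _ _ _)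
  have A1 : ∀ p, A e s₀ x₀ p ≤ 1 := fun p => mul_le_one₀ (c1_le _) (G_nonneg _ _ _) (G_le _ _ _)
  have P0 : ∀ p : B n, 0 ≤ ph p := fun p => sub_nonneg.2 (c1_le _)
  have P1 : ∀ p : B n, ph p ≤ 1 := fun p => sub_le_self _ (c1_nonneg _)
  have hR2 : ∀ p : B n, R2 (R₀⁻¹ • p) = R2 p / R₀ ^ 2 := fun p => by
    rw [R2_smul, inv_pow, div_eq_inv_mul]
  have hsupp : tsupport (fun p => A e s₀ x₀ p * ph (R₀⁻¹ • p)) ⊆ Sp e s₀ x₀ R₀ := by
    refine closure_minimal (fun p hp => ?_) (isClosed_Sp e s₀ x₀ R₀)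
    have h1 := lt_of_c1 (left_ne_zero_of_mul (left_ne_zero_of_mul hp))
    have hG : G e x₀ p ≠ 0 := right_ne_zero_of_mul (left_ne_zero_of_mul hp)
    have h2 := lt_of_c1 (left_ne_zero_of_mul (left_ne_zero_of_mul hG))
    have h3 := lt_of_c1 (right_ne_zero_of_mul (left_ne_zero_of_mul hG))
    have h4 := lt_of_c1 (right_ne_zero_of_mul hG)
    have h5 := lt_of_ph (right_ne_zero_of_mul hp)
    rw [lt_inv_mul_iff₀ s0, mul_one] at h1
    have p0 : 0 < p.1 := s0.trans h1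
    rw [lt_div_iff₀ (by positivity)] at h2 h3 h4
    rw [hR2, div_lt_iff₀ (by positivity)] at h5
    exact ⟨⟨h1.le, by linarith, by linarith, by linarith⟩, h5.le⟩
  have hone : ∀ p ∈ In e s₀ x₀ R₀, A e s₀ x₀ p * ph (R₀⁻¹ • p) = 1 := by
    rintro p ⟨h1, h2, h3, h4, h5⟩
    rw [A, G_one hx (by linarith) h2 h3 h4, ph, c1_one, c1_zero]
    · norm_num
    · rw [hR2, div_le_one (by positivity)]
      exact h5
    · rw [le_inv_mul_iff₀ s0]
      linarith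
  refine ⟨fun p => A e s₀ x₀ p * ph (R₀⁻¹ • p), ⟨hA.mul hP, fun p => mul_nonneg (A0 p) (P0 _),
    fun p => mul_le_one₀ (A1 p) (P0 _) (P1 _), hsupp, hone, fun p => ?_, fun p hp => ?_⟩, ?_⟩
  · refine (norm_fderiv_mul (hA.differentiable (by simp) p) (hP.differentiable (by simp) p)
      (A0 p) (A1 p) (P0 _) (P1 _)).trans (add_le_add (hC p) ?_)
    rw [fderiv_comp_smul, norm_smul, Real.norm_of_nonneg (by positivity)]
    exact (mul_le_of_le_one_left (norm_nonneg _) (inv_le_one_of_one_le₀ hR)).trans (hD _)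
  · by_cases h : p ∈ Sp e s₀ x₀ R₀
    · have h' := not_and.1 hp h
      simp only [not_or, not_le] at h'
      obtain ⟨h1, h2, h3, h4, h5⟩ := h'
      have k1 := (a1_smooth e).continuous
      have k2 := (a2_smooth e).continuous
      have k3 := (R2_smooth (n := n)).continuous
      have o1 : ∀ᶠ q : B n in 𝓝 p, 2 * s₀ < q.1 :=
        (isOpen_lt continuous_const continuous_fst).mem_nhds h1
      have o2 : ∀ᶠ q : B n in 𝓝 p, q.1 ^ 2 / 1600 < ‖q.2‖ ^ 2 :=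
        (isOpen_lt (by fun_prop) (by fun_prop)).mem_nhds h2
      have o3 : ∀ᶠ q : B n in 𝓝 p, 2 * x₀ ^ 2 * q.1 ^ 2 < ‖a1 e q‖ ^ 2 :=
        (isOpen_lt (by fun_prop) (by fun_prop)).mem_nhds h3
      have o4 : ∀ᶠ q : B n in 𝓝 p, 2 * x₀ ^ 2 * q.1 ^ 2 < ‖a2 e q‖ ^ 2 :=
        (isOpen_lt (by fun_prop) (by fun_prop)).mem_nhds h4
      have o5 : ∀ᶠ q : B n in 𝓝 p, R2 q < R₀ ^ 2 := (isOpen_lt k3 continuous_const).mem_nhds h5
      have : (fun p => A e s₀ x₀ p * ph (R₀⁻¹ • p)) =ᶠ[𝓝 p] fun _ => 1 := by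
        filter_upwards [o1, o2, o3, o4, o5] with q q1 q2 q3 q4 q5
        exact hone q ⟨q1.le, q2.le, q3.le, q4.le, q5.le⟩
      rw [this.fderiv_eq]
      simp
    · exact fderiv_of_notMem_tsupport ℝ fun h' => h (hsupp h')
  · refine (isCompact_closedBall (0 : B n) (2 * R₀)).of_isClosed_subset (isClosed_tsupport _)
      fun p hp => ?_
    exact mem_closedBall_zero_iff.2 (norm_le_of_R2 R0.le (hsupp hp).2)

end Pool.Agent.MP_71da5e_an.L

end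

section

/-! The main Carleman estimate: the sum of the estimates for the single fields. -/

namespace Pool.Agent.MP_71da5e_an.L

open MeasureTheory Metric Set Complex
open scoped ContDiff RealInnerProductSpace ENNReal Real ComplexConjugate

namespace Mn

variable {n : ℕ}

theorem cont_a1 (e : E n) : Continuous (a1 e) := by unfold a1; fun_prop

theorem cont_a2 (e : E n) : Continuous (a2 e) := by unfold a2; fun_prop

theorem cont_R2 : Continuous (R2 : B n → ℝ) := by unfold R2; fun_prop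

theorem meas_mm (e : E n) (K η κ ε β γ : ℝ) : Measurable (mm e K η κ ε β γ) := by
  have h1 := (cont_a1 e).measurable
  have h2 := (cont_a2 e).measurable
  have h3 := (cont_R2 (n := n)).measurable
  unfold mm mA hb
  fun_prop

theorem closed_Gd (e : E n) (s₀ x₀ : ℝ) : IsClosed (Gd e s₀ x₀) := by
  have h1 := cont_a1 e
  have h2 := cont_a2 e
  have k1 : IsClosed {p : B n | s₀ ≤ p.1} := isClosed_le (by fun_prop) (by fun_prop)
  have k2 : IsClosed {p : B n | p.1 ^ 2 / 3200 ≤ ‖p.2‖ ^ 2} :=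
    isClosed_le (by fun_prop) (by fun_prop)
  have k3 : IsClosed {p : B n | x₀ ^ 2 * p.1 ^ 2 ≤ ‖a1 e p‖ ^ 2} :=
    isClosed_le (by fun_prop) (by fun_prop)
  have k4 : IsClosed {p : B n | x₀ ^ 2 * p.1 ^ 2 ≤ ‖a2 e p‖ ^ 2} :=
    isClosed_le (by fun_prop) (by fun_prop)
  exact k1.inter (k2.inter (k3.inter k4))

theorem closed_Sp (e : E n) (s₀ x₀ R₀ : ℝ) : IsClosed (Sp e s₀ x₀ R₀) :=
  (closed_Gd e s₀ x₀).inter (isClosed_le cont_R2 continuous_const)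

theorem closed_In (e : E n) (s₀ x₀ R₀ : ℝ) : IsClosed (In e s₀ x₀ R₀) := by
  have h1 := cont_a1 e
  have h2 := cont_a2 e
  have k1 : IsClosed {p : B n | 2 * s₀ ≤ p.1} := isClosed_le (by fun_prop) (by fun_prop)
  have k2 : IsClosed {p : B n | p.1 ^ 2 / 1600 ≤ ‖p.2‖ ^ 2} :=
    isClosed_le (by fun_prop) (by fun_prop)
  have k3 : IsClosed {p : B n | 2 * x₀ ^ 2 * p.1 ^ 2 ≤ ‖a1 e p‖ ^ 2} :=
    isClosed_le (by fun_prop) (by fun_prop)
  have k4 : IsClosed {p : B n | 2 * x₀ ^ 2 * p.1 ^ 2 ≤ ‖a2 e p‖ ^ 2} :=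
    isClosed_le (by fun_prop) (by fun_prop)
  have k5 : IsClosed {p : B n | R2 p ≤ R₀ ^ 2} := isClosed_le cont_R2 continuous_const
  exact k1.inter (k2.inter (k3.inter (k4.inter k5)))

theorem closed_Bad (e : E n) (s₀ x₀ R₀ : ℝ) : IsClosed (Bad e s₀ x₀ R₀) := by
  have h1 := cont_a1 e
  have h2 := cont_a2 e
  have k1 : IsClosed {p : B n | p.1 ≤ 2 * s₀} := isClosed_le (by fun_prop) (by fun_prop)
  have k2 : IsClosed {p : B n | ‖p.2‖ ^ 2 ≤ p.1 ^ 2 / 1600} :=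
    isClosed_le (by fun_prop) (by fun_prop)
  have k3 : IsClosed {p : B n | ‖a1 e p‖ ^ 2 ≤ 2 * x₀ ^ 2 * p.1 ^ 2} :=
    isClosed_le (by fun_prop) (by fun_prop)
  have k4 : IsClosed {p : B n | ‖a2 e p‖ ^ 2 ≤ 2 * x₀ ^ 2 * p.1 ^ 2} :=
    isClosed_le (by fun_prop) (by fun_prop)
  have k5 : IsClosed {p : B n | R₀ ^ 2 ≤ R2 p} := isClosed_le continuous_const cont_R2
  exact (closed_Sp e s₀ x₀ R₀).inter (k1.union (k2.union (k3.union (k4.union k5))))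

theorem Gd_mono {e : E n} {s₀ s₁ x₀ : ℝ} (h : s₀ ≤ s₁) {p : B n} (hp : p ∈ Gd e s₁ x₀) :
    p ∈ Gd e s₀ x₀ := ⟨h.trans hp.1, hp.2⟩

theorem lt_norm {a₀ x₀ s₀ s : ℝ} {a : E n} (hx : 0 < x₀) (h0 : a₀ < x₀ * s₀) (hs : s₀ ≤ s)
    (hs0 : 0 ≤ s₀) (h : x₀ ^ 2 * s ^ 2 ≤ ‖a‖ ^ 2) : a₀ < ‖a‖ := by
  have h1 : x₀ * s ≤ ‖a‖ := by
    have hs1 : 0 ≤ x₀ * s := mul_nonneg hx.le (hs0.trans hs)
    refine (pow_le_pow_iff_left₀ hs1 (norm_nonneg _) two_ne_zero).1 ?_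
    rw [mul_pow]; exact h
  exact h0.trans_le ((mul_le_mul_of_nonneg_left hs hx.le).trans h1)

theorem Sp_Ob {e : E n} {a₀ s₀ x₀ R₀ : ℝ} (hx : 0 < x₀) (h0 : a₀ < x₀ * s₀) (hs : 1 ≤ s₀) :
    Sp e s₀ x₀ R₀ ⊆ Ob e a₀ := fun _ hp =>
  ⟨lt_norm hx h0 hp.1.1 (by linarith) hp.1.2.2.1, lt_norm hx h0 hp.1.1 (by linarith) hp.1.2.2.2⟩

theorem Sp_Dm {e : E n} {s₀ x₀ R₀ : ℝ} (hx : 0 < x₀) (hs : 1 ≤ s₀) :
    Sp e s₀ x₀ R₀ ⊆ Dm e := fun p hp => by
  have h := Sp_Ob (e := e) (a₀ := 0) (R₀ := R₀) hx (by positivity) hs hp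
  exact ⟨by linarith [hp.1.1], norm_pos_iff.1 h.1, norm_pos_iff.1 h.2⟩

theorem one_le_R2 {p : B n} (h : 1 ≤ p.1) : 1 ≤ R2 p := by
  unfold R2; nlinarith [sq_nonneg ‖p.2‖]

theorem exp_L (e : E n) (K η κ ε β : ℝ) {p : B n} (h : 1 ≤ p.1) :
    Real.exp (-2 * mm e K η κ ε β (1 / 2) p) = Real.exp (-2 * mm e K η κ ε β 0 p) * (p.1)⁻¹ := by
  have h0 : 0 < p.1 := by linarith
  rw [← Real.exp_log (inv_pos.2 h0), ← Real.exp_add, Real.log_inv]
  congr 1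
  unfold mm; ring

theorem exp_H (e : E n) (K η κ ε β : ℝ) {p : B n} (h : 1 ≤ p.1) :
    Real.exp (-2 * mm e K η κ ε (β + 1 / 4) 0 p) =
      Real.exp (-2 * mm e K η κ ε β 0 p) * (√(R2 p))⁻¹ := by
  have h0 : 0 < R2 p := by linarith [one_le_R2 h]
  rw [← Real.exp_log (inv_pos.2 (Real.sqrt_pos.2 h0)), ← Real.exp_add, Real.log_inv,
    Real.log_sqrt h0.le]
  congr 1
  unfold mm; ring

theorem nsq_le (hA : Api n) {a b : E n} {R : ℝ} (hR : 1 ≤ R) (ha : ‖a‖ ^ 2 ≤ 2 * R)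
    (hp : ‖pz a b‖ ≤ 1) : nsq (zc a b) ≤ 5 * R := by
  have h1 : |(pz a b).re| ≤ 1 := (abs_re_le_norm _).trans hp
  rw [hA.pz_eq] at h1
  simp only [add_re, ofReal_re, mul_re, I_re, mul_zero, ofReal_im, I_im, mul_one, sub_self,
    add_zero] at h1
  rw [hA.nsq_zc]
  linarith [(abs_le.1 h1).1]

theorem a_le {e : E n} (he : ‖e‖ = 1) (p : B n) :
    ‖a1 e p‖ ^ 2 ≤ 2 * R2 p ∧ ‖a2 e p‖ ^ 2 ≤ 2 * R2 p := by
  have h0 : ‖(p.1 / 2) • e‖ = |p.1| / 2 := by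
    rw [norm_smul, he, mul_one, Real.norm_eq_abs, abs_div, abs_two]
  have h1 : ‖a1 e p‖ ≤ |p.1| / 2 + ‖p.2‖ := h0 ▸ norm_add_le _ _
  have h2 : ‖a2 e p‖ ≤ |p.1| / 2 + ‖p.2‖ := h0 ▸ norm_sub_le _ _
  have h3 : (|p.1| / 2 + ‖p.2‖) ^ 2 ≤ 2 * R2 p := by
    unfold R2
    rw [← sq_abs p.1]
    nlinarith [sq_nonneg (|p.1| / 2 - ‖p.2‖), sq_nonneg |p.1|]
  exact ⟨(pow_le_pow_left₀ (norm_nonneg _) h1 2).trans h3,
    (pow_le_pow_left₀ (norm_nonneg _) h2 2).trans h3⟩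

theorem nsq_nonneg (u : V n) : 0 ≤ nsq u := Finset.sum_nonneg fun _ _ => sq_nonneg _

theorem le_nsq (u : V n) (k : Fin n) : ‖u k‖ ^ 2 ≤ nsq u :=
  Finset.single_le_sum (f := fun k => ‖u k‖ ^ 2) (fun _ _ => sq_nonneg _) (Finset.mem_univ k)

theorem ph_nonneg {lam tau : ℝ} (ρ : Reg lam tau) (p : ℂ) : 0 ≤ ρ.ph p := sq_nonneg _

theorem pp_nonneg {lam tau : ℝ} (ρ : Reg lam tau) (e : E n) (x : X n) : 0 ≤ pp ρ e x :=
  mul_nonneg (ph_nonneg _ _) (ph_nonneg _ _)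

theorem ph_le {lam tau : ℝ} (ρ : Reg lam tau) {p : ℂ} (h : ρ.ph p ≠ 0) : ‖p‖ ≤ lam :=
  not_lt.1 fun h1 => h (by simp [Reg.ph, ρ.γ_zero p h1])

theorem cont_p1 (hA : Api n) (e : E n) : Continuous (p1 e) := by
  have h1 := cont_a1 e
  exact hA.smooth_pz.continuous.comp (f := fun x : X n => (a1 e x.1, x.2.1)) (by fun_prop)

theorem cont_p2 (hA : Api n) (e : E n) : Continuous (p2 e) := by
  have h1 := cont_a2 e
  exact hA.smooth_pz.continuous.comp (f := fun x : X n => (a2 e x.1, x.2.2)) (by fun_prop)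

theorem cont_ph {lam tau : ℝ} (ρ : Reg lam tau) : Continuous ρ.ph :=
  ρ.γ_smooth.continuous.norm.pow 2

theorem cont_db {lam tau : ℝ} (ρ : Reg lam tau) : Continuous (db ρ.γ) := by
  have h : Continuous (fderiv ℝ ρ.γ) := ρ.γ_smooth.continuous_fderiv (by simp)
  unfold db
  fun_prop

/-- The integrand of the term with the derivative of the cut-off function. -/
noncomputable def gB {lam tau : ℝ} (ρ : Reg lam tau) (e : E n) (m : B n → ℝ) (F : X n → ℂ)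
    (x : X n) : ℝ := Real.exp (-2 * m x.1) * R2 x.1 ^ 2 * pp ρ e x * ‖F x‖ ^ 2

/-- The integrand of the term with the derivative of the regulariser. -/
noncomputable def gC {lam tau : ℝ} (ρ : Reg lam tau) (e : E n) (m : B n → ℝ) (F : X n → ℂ)
    (x : X n) : ℝ := Real.exp (-2 * m x.1) * R2 x.1 * ‖F x‖ ^ 2 *
      (‖p1 e x * db ρ.γ (p1 e x)‖ ^ 2 * ρ.ph (p2 e x) +
        ρ.ph (p1 e x) * ‖p2 e x * db ρ.γ (p2 e x)‖ ^ 2)

/-- The bound for one field. -/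
theorem field (hA : Api n) (hV : VsStmt n) {e : E n} {a₀ s₀ x₀ R₀ Cc Cf lam tau : ℝ}
    (hx : 0 < x₀) (h0 : a₀ < x₀ * s₀) (hs : 1 ≤ s₀) (hCf : 0 ≤ Cf) (hl : lam ≤ 1)
    (ρ : Reg lam tau) {F : X n → ℂ} (hF : ContDiffOn ℝ 1 F {x | x.1 ∈ Ob e a₀})
    {Ξ : B n → ℝ} (hΞ : Cut e s₀ x₀ R₀ Cc Ξ) (hc : HasCompactSupport Ξ)
    {m mX ψ : B n → ℝ} (hm : Measurable m) (W : X n → ℂ × V n)
    (hψ : ∀ p : B n, 1 ≤ p.1 → Real.exp (-2 * mX p) = Real.exp (-2 * m p) * ψ p ∧ ψ p ≤ 1)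
    (hW : ∀ x : X n, 1 ≤ x.1.1 → ‖p1 e x‖ ≤ 1 → ‖p2 e x‖ ≤ 1 →
      ‖(W x).1‖ ^ 2 + nsq (W x).2 ≤ Cf * R2 x.1 ^ 2)
    (hW1 : ∀ x : X n, 1 ≤ x.1.1 → ‖p2 e x‖ ≤ 1 →
      ‖bd (X1 e (W x)) (z1 e x)‖ ^ 2 ≤ 5 * R2 x.1 * ‖p1 e x‖ ^ 2)
    (hW2 : ∀ x : X n, 1 ≤ x.1.1 → ‖p1 e x‖ ≤ 1 →
      ‖bd (X2 e (W x)) (z2 e x)‖ ^ 2 ≤ 5 * R2 x.1 * ‖p2 e x‖ ^ 2) :
    ∫⁻ x : X n, ENNReal.ofReal (Real.exp (-2 * mX x.1) * ‖dbar e (vv ρ e Ξ F) x (W x)‖ ^ 2) ≤
      4 * (∫⁻ x : X n, ENNReal.ofReal (Real.exp (-2 * m x.1) * Ξ x.1 ^ 2 * ψ x.1 * pp ρ e x *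
          ‖dbar e F x (W x)‖ ^ 2)) +
        (ENNReal.ofReal (8 * Cc ^ 2 * Cf) *
            (∫⁻ x in {x : X n | x.1 ∈ Bad e s₀ x₀ R₀}, ENNReal.ofReal (gB ρ e m F x)) +
          80 * ∫⁻ x in {x : X n | x.1 ∈ Sp e s₀ x₀ R₀}, ENNReal.ofReal (gC ρ e m F x)) := by
  have hO := Sp_Ob (e := e) (R₀ := R₀) hx h0 hs
  obtain ⟨-, -, -, -, hd⟩ := hV e a₀ lam tau ρ F Ξ hF hΞ.smooth hc (hΞ.supp.trans hO)
  have mB : MeasurableSet {x : X n | x.1 ∈ Bad e s₀ x₀ R₀} :=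
    ((closed_Bad e s₀ x₀ R₀).preimage continuous_fst).measurableSet
  have mS : MeasurableSet {x : X n | x.1 ∈ Sp e s₀ x₀ R₀} :=
    ((closed_Sp e s₀ x₀ R₀).preimage continuous_fst).measurableSet
  have c1 := (cont_p1 hA e).measurable
  have c2 := (cont_p2 hA e).measurable
  have c3 := (cont_ph ρ).measurable
  have c4 := (cont_db ρ).measurable
  have c5 := (cont_R2 (n := n)).measurable
  have aB : AEMeasurable (fun x => ENNReal.ofReal (gB ρ e m F x))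
      (volume.restrict {x : X n | x.1 ∈ Bad e s₀ x₀ R₀}) := by
    have h1 : AEMeasurable F (volume.restrict {x : X n | x.1 ∈ Bad e s₀ x₀ R₀}) :=
      (hF.continuousOn.mono fun x hx => hO hx.1).aemeasurable mB
    unfold gB pp
    fun_prop
  have aC : AEMeasurable (fun x => ENNReal.ofReal (gC ρ e m F x))
      (volume.restrict {x : X n | x.1 ∈ Sp e s₀ x₀ R₀}) := by
    have h1 : AEMeasurable F (volume.restrict {x : X n | x.1 ∈ Sp e s₀ x₀ R₀}) :=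
      (hF.continuousOn.mono fun x hx => hO hx).aemeasurable mS
    unfold gC
    fun_prop
  have iB := (aemeasurable_indicator_iff mB).2 aB
  have iC := (aemeasurable_indicator_iff mS).2 aC
  have iBC : AEMeasurable (fun a : X n => ENNReal.ofReal (8 * Cc ^ 2 * Cf) *
      {x : X n | x.1 ∈ Bad e s₀ x₀ R₀}.indicator (fun x => ENNReal.ofReal (gB ρ e m F x)) a +
      80 * {x : X n | x.1 ∈ Sp e s₀ x₀ R₀}.indicator (fun x => ENNReal.ofReal (gC ρ e m F x)) a)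
      volume := (iB.const_mul _).add (iC.const_mul _)
  rw [← lintegral_indicator mB, ← lintegral_indicator mS,
    ← lintegral_const_mul' 4 _ (by simp), ← lintegral_const_mul' _ _ ENNReal.ofReal_ne_top,
    ← lintegral_const_mul' 80 _ (by simp), ← lintegral_add_left' (iB.const_mul _),
    ← lintegral_add_right' _ iBC]
  refine lintegral_mono fun x => ?_
  by_cases hS : x.1 ∈ Sp e s₀ x₀ R₀
  swap
  · have h1 : Ξ x.1 = 0 := by
      by_contra h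
      exact hS (hΞ.supp (subset_tsupport _ h))
    have h2 : fderiv ℝ Ξ x.1 = 0 := hΞ.bad _ fun h => hS h.1
    have h3 := hd x (W x)
    rw [h1, h2] at h3
    have h4 : ‖dbar e (vv ρ e Ξ F) x (W x)‖ ^ 2 = 0 :=
      le_antisymm (by simpa using h3) (sq_nonneg _)
    simp [h4]
  have s1 : 1 ≤ x.1.1 := hs.trans hS.1.1
  obtain ⟨e1, e2⟩ := hψ _ s1
  have r1 := one_le_R2 s1
  have ex0 := Real.exp_pos (-2 * m x.1)
  have ψ0 : 0 ≤ ψ x.1 := by
    have := Real.exp_pos (-2 * mX x.1)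
    rw [e1] at this
    exact ((mul_pos_iff_of_pos_left ex0).1 this).le
  have q0 := pp_nonneg ρ e x
  have q1 := ph_nonneg ρ (p1 e x)
  have q2 := ph_nonneg ρ (p2 e x)
  have Ξ0 := hΞ.nonneg x.1
  have Ξ1 : Ξ x.1 ^ 2 ≤ 1 := pow_le_one₀ Ξ0 (hΞ.le_one _)
  have Wn : 0 ≤ ‖(W x).1‖ ^ 2 + nsq (W x).2 := add_nonneg (sq_nonneg _) (nsq_nonneg _)
  have tB : Real.exp (-2 * m x.1) * ψ x.1 * (8 * ‖fderiv ℝ Ξ x.1‖ ^ 2 *
      (‖(W x).1‖ ^ 2 + nsq (W x).2) * pp ρ e x * ‖F x‖ ^ 2) ≤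
      8 * Cc ^ 2 * Cf * {x : X n | x.1 ∈ Bad e s₀ x₀ R₀}.indicator (gB ρ e m F) x := by
    by_cases hb : x.1 ∈ Bad e s₀ x₀ R₀
    swap
    · rw [hΞ.bad _ hb, indicator_of_notMem (show x ∉ {x : X n | x.1 ∈ Bad e s₀ x₀ R₀} from hb)]
      simp
    rw [indicator_of_mem (show x ∈ {x : X n | x.1 ∈ Bad e s₀ x₀ R₀} from hb), gB]
    by_cases hp : pp ρ e x = 0
    · simp [hp]
    have w1 := hW x s1 ((ph_le ρ (left_ne_zero_of_mul hp)).trans hl)
      ((ph_le ρ (right_ne_zero_of_mul hp)).trans hl)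
    have w2 : ‖fderiv ℝ Ξ x.1‖ ^ 2 ≤ Cc ^ 2 := pow_le_pow_left₀ (norm_nonneg _) (hΞ.grad _) 2
    calc _ = 8 * (Real.exp (-2 * m x.1) * pp ρ e x * ‖F x‖ ^ 2) *
          (ψ x.1 * (‖fderiv ℝ Ξ x.1‖ ^ 2 * (‖(W x).1‖ ^ 2 + nsq (W x).2))) := by ring
      _ ≤ 8 * (Real.exp (-2 * m x.1) * pp ρ e x * ‖F x‖ ^ 2) *
          (1 * (Cc ^ 2 * (Cf * R2 x.1 ^ 2))) := by gcongr
      _ = _ := by ring
  have tC : Real.exp (-2 * m x.1) * ψ x.1 * (16 * Ξ x.1 ^ 2 * ‖F x‖ ^ 2 *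
      (‖db ρ.γ (p1 e x)‖ ^ 2 * ‖bd (X1 e (W x)) (z1 e x)‖ ^ 2 * ρ.ph (p2 e x) +
        ρ.ph (p1 e x) * ‖db ρ.γ (p2 e x)‖ ^ 2 * ‖bd (X2 e (W x)) (z2 e x)‖ ^ 2)) ≤
      80 * gC ρ e m F x := by
    have u1 : ‖db ρ.γ (p1 e x)‖ ^ 2 * ‖bd (X1 e (W x)) (z1 e x)‖ ^ 2 * ρ.ph (p2 e x) ≤
        5 * R2 x.1 * (‖p1 e x * db ρ.γ (p1 e x)‖ ^ 2 * ρ.ph (p2 e x)) := by
      by_cases hp : ρ.ph (p2 e x) = 0
      · simp [hp]
      have w1 := hW1 x s1 ((ph_le ρ hp).trans hl)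
      calc _ ≤ ‖db ρ.γ (p1 e x)‖ ^ 2 * (5 * R2 x.1 * ‖p1 e x‖ ^ 2) * ρ.ph (p2 e x) := by gcongr
        _ = _ := by rw [norm_mul]; ring
    have u2 : ρ.ph (p1 e x) * ‖db ρ.γ (p2 e x)‖ ^ 2 * ‖bd (X2 e (W x)) (z2 e x)‖ ^ 2 ≤
        5 * R2 x.1 * (ρ.ph (p1 e x) * ‖p2 e x * db ρ.γ (p2 e x)‖ ^ 2) := by
      by_cases hp : ρ.ph (p1 e x) = 0
      · simp [hp]
      have w1 := hW2 x s1 ((ph_le ρ hp).trans hl)
      calc _ ≤ ρ.ph (p1 e x) * ‖db ρ.γ (p2 e x)‖ ^ 2 * (5 * R2 x.1 * ‖p2 e x‖ ^ 2) := by gcongr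
        _ = _ := by rw [norm_mul]; ring
    calc _ = 16 * (Real.exp (-2 * m x.1) * ‖F x‖ ^ 2) * (ψ x.1 * (Ξ x.1 ^ 2 *
          (‖db ρ.γ (p1 e x)‖ ^ 2 * ‖bd (X1 e (W x)) (z1 e x)‖ ^ 2 * ρ.ph (p2 e x) +
            ρ.ph (p1 e x) * ‖db ρ.γ (p2 e x)‖ ^ 2 * ‖bd (X2 e (W x)) (z2 e x)‖ ^ 2))) := by ring
      _ ≤ 16 * (Real.exp (-2 * m x.1) * ‖F x‖ ^ 2) * (1 * (1 *
          (5 * R2 x.1 * (‖p1 e x * db ρ.γ (p1 e x)‖ ^ 2 * ρ.ph (p2 e x)) +
            5 * R2 x.1 * (ρ.ph (p1 e x) * ‖p2 e x * db ρ.γ (p2 e x)‖ ^ 2)))) := by gcongr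
      _ = _ := by rw [gC]; ring
  have gB0 : 0 ≤ {x : X n | x.1 ∈ Bad e s₀ x₀ R₀}.indicator (gB ρ e m F) x :=
    indicator_nonneg (fun y _ => by
      have := pp_nonneg ρ e y
      unfold gB; positivity) x
  have gC0 : 0 ≤ gC ρ e m F x := by unfold gC; positivity
  have iBx : {x : X n | x.1 ∈ Bad e s₀ x₀ R₀}.indicator
      (fun x => ENNReal.ofReal (gB ρ e m F x)) x =
      ENNReal.ofReal ({x : X n | x.1 ∈ Bad e s₀ x₀ R₀}.indicator (gB ρ e m F) x) := by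
    by_cases hb : x ∈ {x : X n | x.1 ∈ Bad e s₀ x₀ R₀}
    · rw [indicator_of_mem hb, indicator_of_mem hb]
    · rw [indicator_of_notMem hb, indicator_of_notMem hb, ENNReal.ofReal_zero]
  simp only
  rw [iBx, indicator_of_mem (show x ∈ {x : X n | x.1 ∈ Sp e s₀ x₀ R₀} from hS),
    ← ENNReal.ofReal_mul (by positivity), ← ENNReal.ofReal_ofNat 4, ← ENNReal.ofReal_ofNat 80,
    ← ENNReal.ofReal_mul (by positivity), ← ENNReal.ofReal_mul (by positivity),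
    ← ENNReal.ofReal_add (by positivity) (by positivity),
    ← ENNReal.ofReal_add (by positivity) (by positivity)]
  refine ENNReal.ofReal_le_ofReal ?_
  rw [e1]
  refine (mul_le_mul_of_nonneg_left (hd x (W x)) (by positivity)).trans ?_
  linarith

end Mn

end Pool.Agent.MP_71da5e_an.L

end

section

namespace Pool.Agent.MP_71da5e_an.L

open MeasureTheory Metric Set Laplacian Complex
open scoped ContDiff RealInnerProductSpace ENNReal Real ComplexConjugate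

namespace Mn

variable {n : ℕ}

theorem bd_neg (u v : V n) : bd (-u) v = -bd u v := by
  simp [bd]

theorem nz1 (A : Api n) {e : E n} (he : ‖e‖ = 1) (x : X n) (h : 1 ≤ x.1.1) (hp : ‖p1 e x‖ ≤ 1) :
    nsq (z1 e x) ≤ 5 * R2 x.1 := nsq_le A (one_le_R2 h) (a_le he x.1).1 hp

theorem nz2 (A : Api n) {e : E n} (he : ‖e‖ = 1) (x : X n) (h : 1 ≤ x.1.1) (hp : ‖p2 e x‖ ≤ 1) :
    nsq (z2 e x) ≤ 5 * R2 x.1 := nsq_le A (one_le_R2 h) (a_le he x.1).2 hp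

theorem nz12 (A : Api n) {e : E n} (he : ‖e‖ = 1) {Cf : ℝ} (hCf : 0 ≤ Cf) (x : X n)
    (h : 1 ≤ x.1.1) (hp : ‖p1 e x‖ ≤ 1) (hq : ‖p2 e x‖ ≤ 1) :
    Cf * (nsq (zz e x).1 * nsq (zz e x).2) ≤ 25 * Cf * R2 x.1 ^ 2 := by
  have h1 := nz1 A he x h hp
  have h2 := nz2 A he x h hq
  have h3 := nsq_nonneg (z2 e x)
  have h4 := one_le_R2 h
  calc Cf * (nsq (z1 e x) * nsq (z2 e x)) ≤ Cf * (5 * R2 x.1 * (5 * R2 x.1)) := by gcongr
    _ = _ := by ring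

theorem ofReal_sum_int {ι : Type} [Fintype ι] (r : ι → X n → ℝ) (hi : ∀ i, Integrable (r i))
    (h0 : ∀ i x, 0 ≤ r i x) :
    ENNReal.ofReal (∑ i, ∫ x, r i x) = ∑ i, ∫⁻ x, ENNReal.ofReal (r i x) := by
  rw [ENNReal.ofReal_sum_of_nonneg fun i _ => integral_nonneg (h0 i)]
  exact Finset.sum_congr rfl fun i _ =>
    ofReal_integral_eq_lintegral_ofReal (hi i) (ae_of_all _ (h0 i))

/-- The sum of the estimates. -/
theorem core (A : Api n) (Fl : Fld n) (Ac : AcStmt n) (Sm : SmStmt n) (Vs : VsStmt n)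
    {e : E n} (he : ‖e‖ = 1) {a₀ s₀ x₀ R₀ Cc Cf C₄ lam tau K η κ ε β : ℝ}
    (hx : 0 < x₀) (h0 : a₀ < x₀ * s₀) (hs : 1 ≤ s₀) (hCf : 0 ≤ Cf) (hC₄ : 0 ≤ C₄) (hl : lam ≤ 1)
    (hsz : ∀ ζ : V n × V n,
      (∀ l m, ‖(fH e l m ζ).1‖ ^ 2 + nsq (fH e l m ζ).2 ≤ Cf * (nsq ζ.1 * nsq ζ.2)) ∧
      ∀ k, nsq (fL k ζ).2 ≤ Cf * (nsq ζ.1 * nsq ζ.2))
    (ρ : Reg lam tau) {F : X n → ℂ} (hF : ContDiffOn ℝ 1 F {x | x.1 ∈ Ob e a₀})
    {Ξ : B n → ℝ} (hΞ : Cut e s₀ x₀ R₀ Cc Ξ) (hc : HasCompactSupport Ξ)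
    (hOf : ∀ x : X n, x.1 ∈ Sp e s₀ x₀ R₀ → ‖p1 e x‖ ≤ lam → ‖p2 e x‖ ≤ lam →
      Err (4 * C₄) x + 1 ≤ Lam e K η κ ε β x)
    (hAb : ∀ w : B n → ℝ, Measurable w → (∀ p, 0 ≤ w p) → (∀ p, p ∉ Sp e s₀ x₀ R₀ → w p = 0) →
        (∑ k, ∫⁻ x : X n, ENNReal.ofReal (w x.1 * (x.1.1)⁻¹ * pp ρ e x *
            ‖dbar e F x (fL k (zz e x))‖ ^ 2)) +
          ∑ l, ∑ m, ∫⁻ x : X n, ENNReal.ofReal (w x.1 * (√(R2 x.1))⁻¹ * pp ρ e x *
            ‖dbar e F x (fH e l m (zz e x))‖ ^ 2) ≤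
        ∫⁻ x : X n, ENNReal.ofReal (w x.1 * Err C₄ x * pp ρ e x * ‖F x‖ ^ 2)) :
    ∫⁻ x in {x : X n | x.1 ∈ In e s₀ x₀ R₀},
        ENNReal.ofReal (Real.exp (-2 * mm e K η κ ε β 0 x.1) * pp ρ e x * ‖F x‖ ^ 2) ≤
      ((n : ℝ≥0∞) + n * n) * (ENNReal.ofReal (8 * Cc ^ 2 * (25 * Cf)) *
            (∫⁻ x in {x : X n | x.1 ∈ Bad e s₀ x₀ R₀},
              ENNReal.ofReal (gB ρ e (mm e K η κ ε β 0) F x)) +
          80 * ∫⁻ x in {x : X n | x.1 ∈ Sp e s₀ x₀ R₀},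
            ENNReal.ofReal (gC ρ e (mm e K η κ ε β 0) F x)) := by
  have hO := Sp_Ob (e := e) (R₀ := R₀) hx h0 hs
  have hD := Sp_Dm (e := e) (R₀ := R₀) hx hs
  obtain ⟨v1, v2, v3, v4, -⟩ := Vs e a₀ lam tau ρ F Ξ hF hΞ.smooth hc (hΞ.supp.trans hO)
  have v5 : ∀ x ∈ tsupport (vv ρ e Ξ F), x.1 ∈ Dm e := fun x hx => hD (hΞ.supp (v3 x hx))
  have hm := meas_mm e K η κ ε β 0
  set m := mm e K η κ ε β 0 with hmdef
  set T := ENNReal.ofReal (8 * Cc ^ 2 * (25 * Cf)) *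
            (∫⁻ x in {x : X n | x.1 ∈ Bad e s₀ x₀ R₀}, ENNReal.ofReal (gB ρ e m F x)) +
          80 * ∫⁻ x in {x : X n | x.1 ∈ Sp e s₀ x₀ R₀}, ENNReal.ofReal (gC ρ e m F x) with hT
  have aL := fun k : Fin n => Ac e (fL k) (Fl.smL k) (mm e K η κ ε β (1 / 2)) (Dm e)
    (Sm e K η κ ε β (1 / 2)).1 (Sm e K η κ ε β (1 / 2)).2 _ v1 v2 v5
  have aH := fun l k : Fin n => Ac e (fH e l k) (Fl.smH e l k) (mm e K η κ ε (β + 1 / 4) 0) (Dm e)
    (Sm e K η κ ε (β + 1 / 4) 0).1 (Sm e K η κ ε (β + 1 / 4) 0).2 _ v1 v2 v5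
  have bL := fun k : Fin n => field A Vs (Cf := 25 * Cf) hx h0 hs (by positivity) hl ρ hF hΞ hc
    (mX := mm e K η κ ε β (1 / 2)) (ψ := fun p => (p.1)⁻¹) hm (fun x => fL k (zz e x))
    (fun p hp => ⟨exp_L e K η κ ε β hp, inv_le_one_of_one_le₀ hp⟩)
    (fun x h1 h2 h3 => by
      rw [(Fl.XL e k _).1, norm_zero, zero_pow two_ne_zero, zero_add]
      exact ((hsz _).2 k).trans (nz12 A he hCf x h1 h2 h3))
    (fun x h1 h2 => by
      have h3 : bd (fL k (zz e x)).2 (z1 e x) = z2 e x k * p1 e x := (Fl.tanL k (zz e x)).1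
      rw [(Fl.XL e k _).2.1, h3, norm_mul, mul_pow]
      exact mul_le_mul_of_nonneg_right ((le_nsq _ k).trans (nz2 A he x h1 h2)) (sq_nonneg _))
    (fun x h1 h2 => by
      have h3 : bd (fL k (zz e x)).2 (z2 e x) = z1 e x k * p2 e x := (Fl.tanL k (zz e x)).2
      rw [(Fl.XL e k _).2.2, bd_neg, norm_neg, h3, norm_mul, mul_pow]
      exact mul_le_mul_of_nonneg_right ((le_nsq _ k).trans (nz1 A he x h1 h2)) (sq_nonneg _))
  have bH := fun l k : Fin n => field A Vs (Cf := 25 * Cf) hx h0 hs (by positivity) hl ρ hF hΞ hc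
    (mX := mm e K η κ ε (β + 1 / 4) 0) (ψ := fun p => (√(R2 p))⁻¹) hm
    (fun x => fH e l k (zz e x))
    (fun p hp => ⟨exp_H e K η κ ε β hp,
      inv_le_one_of_one_le₀ (Real.one_le_sqrt.2 (one_le_R2 hp))⟩)
    (fun x h1 h2 h3 => ((hsz _).1 l k).trans (nz12 A he hCf x h1 h2 h3))
    (fun x h1 _ => by
      have h3 : bd (X1 e (fH e l k (zz e x))) (z1 e x) = 0 := (Fl.tanH e l k (zz e x)).1
      have h4 := one_le_R2 h1
      rw [h3, norm_zero, zero_pow two_ne_zero]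
      positivity)
    (fun x h1 _ => by
      have h3 : bd (X2 e (fH e l k (zz e x))) (z2 e x) = 0 := (Fl.tanH e l k (zz e x)).2
      have h4 := one_le_R2 h1
      rw [h3, norm_zero, zero_pow two_ne_zero]
      positivity)
  have Ξ0 : ∀ p, p ∉ Sp e s₀ x₀ R₀ → Ξ p = 0 := fun p hp => by
    by_contra h
    exact hp (hΞ.supp (subset_tsupport _ h))
  have ab := hAb (fun p => Real.exp (-2 * m p) * Ξ p ^ 2)
    (by have := hΞ.smooth.continuous.measurable; fun_prop) (fun p => by positivity)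
    (fun p hp => by simp [Ξ0 p hp])
  set IE := ∫⁻ x : X n, ENNReal.ofReal (Real.exp (-2 * m x.1) * Ξ x.1 ^ 2 * Err C₄ x * pp ρ e x *
    ‖F x‖ ^ 2) with hIE
  set I0 := ∫⁻ x : X n, ENNReal.ofReal (Real.exp (-2 * m x.1) * Ξ x.1 ^ 2 * pp ρ e x *
    ‖F x‖ ^ 2) with hI0
  set G : X n → ℝ := fun x => Lam e K η κ ε β x * Real.exp (-2 * m x.1) * ‖vv ρ e Ξ F x‖ ^ 2
    with hG
  have gG : G = fun x => ∑ k, -2 * lev (mm e K η κ ε β (1 / 2)) x.1 (fL k (zz e x)) *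
        Real.exp (-2 * mm e K η κ ε β (1 / 2) x.1) * ‖vv ρ e Ξ F x‖ ^ 2 +
      ∑ l, ∑ k, -2 * lev (mm e K η κ ε (β + 1 / 4) 0) x.1 (fH e l k (zz e x)) *
        Real.exp (-2 * mm e K η κ ε (β + 1 / 4) 0 x.1) * ‖vv ρ e Ξ F x‖ ^ 2 := by
    funext x
    by_cases hS : x.1 ∈ Sp e s₀ x₀ R₀
    swap
    · simp [hG, v4, Ξ0 _ hS]
    have s1 : 1 ≤ x.1.1 := hs.trans hS.1.1
    simp only [hG, Lam, exp_L e K η κ ε β s1, exp_H e K η κ ε β s1, ← Finset.sum_mul,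
      ← Finset.mul_sum, ← hmdef]
    ring
  have iG : Integrable G := by
    rw [gG]
    exact (integrable_finsetSum _ fun k _ => (aL k).1).add
      (integrable_finsetSum _ fun l _ => integrable_finsetSum _ fun k _ => (aH l k).1)
  have key : ∀ x : X n, 0 ≤ G x ∧
      4 * ENNReal.ofReal (Real.exp (-2 * m x.1) * Ξ x.1 ^ 2 * Err C₄ x * pp ρ e x * ‖F x‖ ^ 2) +
        ENNReal.ofReal (Real.exp (-2 * m x.1) * Ξ x.1 ^ 2 * pp ρ e x * ‖F x‖ ^ 2) ≤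
        ENNReal.ofReal (G x) := by
    intro x
    by_cases hS : x.1 ∈ Sp e s₀ x₀ R₀
    swap
    · simp [hG, v4, Ξ0 _ hS]
    by_cases hp : pp ρ e x = 0
    · simp [hG, v4, hp]
    have s1 : 1 ≤ x.1.1 := hs.trans hS.1.1
    have w1 := hOf x hS (ph_le ρ (left_ne_zero_of_mul hp)) (ph_le ρ (right_ne_zero_of_mul hp))
    have w2 : Err (4 * C₄) x = 4 * Err C₄ x := by unfold Err; ring
    have w3 : 0 ≤ Err C₄ x := by unfold Err; positivity
    have q0 := pp_nonneg ρ e x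
    have w4 : 0 ≤ Real.exp (-2 * m x.1) * Ξ x.1 ^ 2 * pp ρ e x * ‖F x‖ ^ 2 := by positivity
    have w5 : G x = Lam e K η κ ε β x *
        (Real.exp (-2 * m x.1) * Ξ x.1 ^ 2 * pp ρ e x * ‖F x‖ ^ 2) := by
      simp only [hG, v4]; ring
    refine ⟨by rw [w5]; exact mul_nonneg (by linarith) w4, ?_⟩
    rw [← ENNReal.ofReal_ofNat 4, ← ENNReal.ofReal_mul (by positivity),
      ← ENNReal.ofReal_add (by positivity) w4, w5]
    refine ENNReal.ofReal_le_ofReal ?_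
    have w6 := mul_le_mul_of_nonneg_right w1 w4
    rw [w2] at w6
    linarith
  have low : 4 * IE + I0 ≤ ENNReal.ofReal (∫ x, G x) := by
    rw [ofReal_integral_eq_lintegral_ofReal iG (ae_of_all _ fun x => (key x).1), hIE,
      ← lintegral_const_mul' 4 _ (by simp)]
    exact (le_lintegral_add _ _).trans (lintegral_mono fun x => (key x).2)
  have up1 : ∫ x, G x ≤ (∑ k, ∫ x : X n, Real.exp (-2 * mm e K η κ ε β (1 / 2) x.1) *
        ‖dbar e (vv ρ e Ξ F) x (fL k (zz e x))‖ ^ 2) +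
      ∑ l, ∑ k, ∫ x : X n, Real.exp (-2 * mm e K η κ ε (β + 1 / 4) 0 x.1) *
        ‖dbar e (vv ρ e Ξ F) x (fH e l k (zz e x))‖ ^ 2 := by
    rw [gG, integral_add (integrable_finsetSum _ fun k _ => (aL k).1)
      (integrable_finsetSum _ fun l _ => integrable_finsetSum _ fun k _ => (aH l k).1),
      integral_finsetSum _ fun k _ => (aL k).1,
      integral_finsetSum _ fun l _ => integrable_finsetSum _ fun k _ => (aH l k).1]
    refine add_le_add (Finset.sum_le_sum fun k _ => (aL k).2.2)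
      (Finset.sum_le_sum fun l _ => ?_)
    rw [integral_finsetSum _ fun k _ => (aH l k).1]
    exact Finset.sum_le_sum fun k _ => (aH l k).2.2
  have up2 : ENNReal.ofReal (∫ x, G x) ≤ 4 * IE + ((n : ℝ≥0∞) + n * n) * T := by
    refine (ENNReal.ofReal_le_ofReal up1).trans (ENNReal.ofReal_add_le.trans ?_)
    rw [ofReal_sum_int _ (fun k => (aL k).2.1) (fun k x => by positivity),
      ENNReal.ofReal_sum_of_nonneg fun l _ => Finset.sum_nonneg fun k _ =>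
        integral_nonneg fun x => by positivity]
    simp only [fun l => ofReal_sum_int _ (fun k => (aH l k).2.1) (fun k x => by positivity)]
    refine (add_le_add (Finset.sum_le_sum fun k _ => bL k)
      (Finset.sum_le_sum fun l _ => Finset.sum_le_sum fun k _ => bH l k)).trans ?_
    simp only [Finset.sum_add_distrib, ← Finset.mul_sum, Finset.sum_const, Finset.card_univ,
      Fintype.card_fin, nsmul_eq_mul, ← hT]
    refine le_trans (le_of_eq ?_) (add_le_add (mul_le_mul_right ab 4) le_rfl)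
    ring
  have fin : 4 * IE ≠ ⊤ :=
    ne_top_of_le_ne_top ENNReal.ofReal_ne_top (le_self_add.trans low)
  refine le_trans ?_ ((ENNReal.add_le_add_iff_left fin).1 (low.trans up2))
  have mI : MeasurableSet {x : X n | x.1 ∈ In e s₀ x₀ R₀} :=
    ((closed_In e s₀ x₀ R₀).preimage continuous_fst).measurableSet
  refine le_trans (le_of_eq (setLIntegral_congr_fun mI fun x hx => ?_))
    (setLIntegral_le_lintegral _ _)
  simp only [hΞ.one _ hx, one_pow, mul_one]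

end Mn

theorem mainStmt {n : ℕ} (A : Api n) (Fl : Fld n) (Ac : AcStmt n) (Sm : SmStmt n)
    (We : WeightStmt n) (Of : OffStmt n) (Cu : CutStmt n) (Vs : VsStmt n) (Ba : BadStmt n)
    (Ta : TauStmt n) (Ab : AbsStmt n) : MainStmt n := by
  intro e he f C a₀ hC ha
  obtain ⟨K, η, κ, x₀, hP, hWe⟩ := We e he
  have hx := hP.x_pos
  obtain ⟨C₄, hC₄, hAb⟩ := Ab e he C a₀ x₀ hC ha hx
  obtain ⟨s₁, ε₀, hs₁, hε₀, hW⟩ := hWe (n + 2) (4 * C₄) (by positivity) (by positivity)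
  obtain ⟨s₀, h1, h2⟩ : ∃ s₀, s₁ ≤ s₀ ∧ a₀ / x₀ + 1 ≤ s₀ :=
    ⟨_, le_max_left _ _, le_max_right _ _⟩
  have hs : 1 ≤ s₀ := hs₁.trans h1
  have h0 : a₀ < x₀ * s₀ := by
    have h3 := mul_le_mul_of_nonneg_left h2 hx.le
    rw [mul_add, mul_div_cancel₀ _ hx.ne'] at h3
    linarith
  obtain ⟨Cc, hCu⟩ := Cu e he s₀ x₀ hs hx hP.x_le
  obtain ⟨C₂, hBa⟩ := Ba e he f C a₀ K η κ x₀ s₀ hC ha hP hs h0
  obtain ⟨Cf, hCf, hsz⟩ := Fl.size
  refine ⟨K, η, κ, x₀, s₀, ε₀, (n + n * n) * (8 * Cc ^ 2 * (25 * Cf) * max C₂ 0) + 1, hP, hs,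
    hε₀, fun ε R₀ hε hεε hR hlog => ?_⟩
  obtain ⟨Ξ, hΞ, hc⟩ := hCu R₀ hR
  obtain ⟨l₁, hl₁, hOf⟩ := Of e K η κ ε (n + 2) (4 * C₄) s₀ x₀ R₀ (by linarith) hx
    fun x hx q1 q2 => hW ε hε.le hεε x (Mn.Gd_mono h1 hx.1) q1 q2
  obtain ⟨l₂, hl₂, hBa⟩ := hBa ε R₀ hε.le hR hlog
  obtain ⟨C₃, hC₃, hTa⟩ := Ta e he f C a₀ K η κ x₀ s₀ ε R₀ hC ha hP hs h0 hε.le
  refine ⟨min l₁ (min l₂ 1), ((n + n * n) * (80 * C₃) + 1)⁻¹, by positivity, by positivity,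
    fun lam tau hl hll htt ρ F hFA hFB => ?_⟩
  have k1 : lam ≤ l₁ := hll.trans (min_le_left _ _)
  have k2 : lam ≤ l₂ := hll.trans ((min_le_right _ _).trans (min_le_left _ _))
  have k3 : lam ≤ 1 := hll.trans ((min_le_right _ _).trans (min_le_right _ _))
  have hB := hBa lam tau hl k2 k3 ρ F hFA
  have hT := hTa lam tau hl k3 ρ F hFA
  refine (Mn.core A Fl Ac Sm Vs he hx h0 hs hCf hC₄ k3
    (fun ζ => ⟨fun l m => ((hsz e he ζ).1 l m).1, (hsz e he ζ).2⟩) ρ hFA.c1 hΞ hc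
    (fun x hx q1 q2 => hOf x hx (q1.trans k1) (q2.trans k1))
    (hAb s₀ R₀ lam tau hs h0 hl k3 ρ F hFA.c1 hFB)).trans ?_
  have hB' := hB.trans (ENNReal.ofReal_le_ofReal (le_max_left C₂ 0))
  have hT' := hT.trans (mul_le_mul_right (ENNReal.ofReal_le_ofReal htt) _)
  have m0 : 0 ≤ max C₂ 0 := le_max_right _ _
  refine (mul_le_mul_right (add_le_add (mul_le_mul_right hB' _) (mul_le_mul_right hT' _))
    _).trans ?_
  have hn : ((n : ℝ≥0∞) + n * n) = ENNReal.ofReal (n + n * n) := by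
    rw [ENNReal.ofReal_add (by positivity) (by positivity), ENNReal.ofReal_mul (by positivity),
      ENNReal.ofReal_natCast]
  rw [hn, ← ENNReal.ofReal_ofNat 80, ← ENNReal.ofReal_mul hC₃,
    ← ENNReal.ofReal_mul (by positivity), ← ENNReal.ofReal_mul (by positivity),
    ← ENNReal.ofReal_add (by positivity) (by positivity), ← ENNReal.ofReal_mul (by positivity)]
  refine ENNReal.ofReal_le_ofReal ?_
  have h4 : ((n : ℝ) + n * n) * (80 * C₃) * (((n : ℝ) + n * n) * (80 * C₃) + 1)⁻¹ ≤ 1 := by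
    rw [← div_eq_mul_inv, div_le_one (by positivity)]
    linarith
  linarith

end Pool.Agent.MP_71da5e_an.L

end

section

namespace Pool.Agent.MP_71da5e_an.L

open MeasureTheory Metric Set Laplacian Complex
open scoped ContDiff RealInnerProductSpace ENNReal Real ComplexConjugate

/-- The logarithmic radius. -/
noncomputable def lg_Reg (L : ℝ) (p : ℂ) : ℝ := L⁻¹ * Real.log (‖p‖ ^ 2)

/-- The function `u (log |p|² / L) / p`. -/
noncomputable def F_Reg (L : ℝ) (u : ℝ → ℝ) (p : ℂ) : ℂ := (u (lg_Reg L p) : ℂ) * p⁻¹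

theorem F_zero_near_Reg {L : ℝ} (hL : 0 < L) {u : ℝ → ℝ} (hu0 : ∀ t, t ≤ -2 → u t = 0) :
    F_Reg L u =ᶠ[nhds 0] fun _ => 0 := by
  have hpos : 0 < Real.exp (-L) := Real.exp_pos _
  filter_upwards [Metric.ball_mem_nhds (0 : ℂ) hpos] with p hp
  rw [mem_ball_zero_iff] at hp
  by_cases h0 : p = 0
  · simp [F_Reg, h0]
  · have hp0 : 0 < ‖p‖ := norm_pos_iff.mpr h0
    have h1 : Real.log ‖p‖ < -L := by
      rw [Real.log_lt_iff_lt_exp hp0]; exact hp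
    have h2 : lg_Reg L p ≤ -2 := by
      unfold lg_Reg
      rw [Real.log_pow, inv_mul_le_iff₀ hL]
      push_cast
      linarith
    simp [F_Reg, hu0 _ h2]

theorem lg_contDiffAt_Reg (L : ℝ) {p : ℂ} (hp : p ≠ 0) : ContDiffAt ℝ ∞ (lg_Reg L) p := by
  unfold lg_Reg
  refine contDiffAt_const.mul (ContDiffAt.log (contDiff_norm_sq ℝ).contDiffAt ?_)
  exact pow_ne_zero _ (norm_ne_zero_iff.mpr hp)

theorem F_smooth_Reg {L : ℝ} (hL : 0 < L) {u : ℝ → ℝ} (hu : ContDiff ℝ ∞ u)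
    (hu0 : ∀ t, t ≤ -2 → u t = 0) : ContDiff ℝ ∞ (F_Reg L u) := by
  rw [contDiff_iff_contDiffAt]
  intro p
  by_cases hp : p = 0
  · subst hp
    exact contDiffAt_const.congr_of_eventuallyEq (F_zero_near_Reg hL hu0)
  · unfold F_Reg
    refine ContDiffAt.mul ?_ ?_
    · exact Complex.ofRealCLM.contDiff.contDiffAt.comp p
        (hu.contDiffAt.comp p (lg_contDiffAt_Reg L hp))
    · exact (contDiffAt_inv ℝ hp)

theorem db_F_Reg {L : ℝ} (hL : 0 < L) {u : ℝ → ℝ} (hu : Differentiable ℝ u)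
    (hu0 : ∀ t, t ≤ -2 → u t = 0) (p : ℂ) :
    db (F_Reg L u) p = ((2 * deriv u (lg_Reg L p) / (L * ‖p‖ ^ 2) : ℝ) : ℂ) := by
  by_cases hp : p = 0
  · subst hp
    unfold db
    rw [(F_zero_near_Reg hL hu0).fderiv_eq]
    simp
  · have hn : ‖p‖ ^ 2 ≠ 0 := pow_ne_zero _ (norm_ne_zero_iff.mpr hp)
    have h1 := (hasStrictFDerivAt_norm_sq p).hasFDerivAt
    have h2 := (h1.log hn).const_mul L⁻¹
    have h3 := (hu (lg_Reg L p)).hasDerivAt.comp_hasFDerivAt p h2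
    have h4 := Complex.ofRealCLM.hasFDerivAt.comp p h3
    have h5 := (hasDerivAt_inv hp).hasFDerivAt.restrictScalars ℝ
    have h6 := h4.mul h5
    have h7 : fderiv ℝ (F_Reg L u) p = _ := h6.fderiv
    unfold db
    rw [h7]
    have hre : (p.re : ℂ) + I * (p.im : ℂ) = p := by
      rw [mul_comm]; exact Complex.re_add_im p
    have hL' : (L : ℂ) ≠ 0 := by exact_mod_cast hL.ne'
    have hn' : ((‖p‖ : ℝ) : ℂ) ≠ 0 := by exact_mod_cast (norm_ne_zero_iff.mpr hp)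
    simp
    field_simp
    linear_combination (2 * ((deriv u (lg_Reg L p) : ℝ) : ℂ) * p) * hre -
      (((u (lg_Reg L p) : ℝ) : ℂ) * L * (‖p‖ : ℂ) ^ 2) * I_mul_I

theorem lint_radial_Reg {L : ℝ} (hL : 0 < L) {k : ℝ → ℝ} (hk : Measurable k) :
    ∫⁻ p : ℂ, ENNReal.ofReal (k (lg_Reg L p) / ‖p‖ ^ 2) =
      ENNReal.ofReal (π * L) * ∫⁻ t, ENNReal.ofReal (k t) := by
  rw [← Complex.lintegral_comp_polarCoord_symm]
  have h1 : ∫⁻ p in polarCoord.target, ENNReal.ofReal p.1 •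
      ENNReal.ofReal (k (lg_Reg L (Complex.polarCoord.symm p)) /
        ‖Complex.polarCoord.symm p‖ ^ 2) =
      ∫⁻ p in Ioi (0 : ℝ) ×ˢ Ioo (-π) π,
        ENNReal.ofReal (k (L⁻¹ * Real.log (p.1 ^ 2)) / p.1) * 1 := by
    rw [polarCoord_target]
    refine setLIntegral_congr_fun (measurableSet_Ioi.prod measurableSet_Ioo) ?_
    rintro ⟨r, θ⟩ ⟨hr, -⟩
    have hr' : 0 < r := hr
    simp only [lg_Reg, Complex.norm_polarCoord_symm, abs_of_pos hr', smul_eq_mul, mul_one]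
    rw [← ENNReal.ofReal_mul hr'.le]
    congr 1
    field_simp
  rw [h1, Measure.volume_eq_prod, ← Measure.prod_restrict,
    lintegral_prod_mul (f := fun r : ℝ => ENNReal.ofReal (k (L⁻¹ * Real.log (r ^ 2)) / r))
      (g := fun _ : ℝ => 1) (by fun_prop) (by fun_prop)]
  have h2 : Ioi (0 : ℝ) = (fun t => Real.exp (L / 2 * t)) '' univ := by
    ext r
    simp only [mem_Ioi, image_univ, mem_range]
    constructor
    · intro hr
      refine ⟨Real.log r / (L / 2), ?_⟩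
      rw [mul_div_cancel₀ _ (by positivity), Real.exp_log hr]
    · rintro ⟨t, rfl⟩
      exact Real.exp_pos _
  have h3 : ∀ t ∈ (univ : Set ℝ), HasDerivWithinAt (fun t => Real.exp (L / 2 * t))
      (Real.exp (L / 2 * t) * (L / 2)) univ t := by
    intro t _
    have := ((hasDerivAt_id t).const_mul (L / 2)).exp
    simpa using this
  have h4 : InjOn (fun t => Real.exp (L / 2 * t)) univ := by
    intro a _ b _ hab
    have := Real.exp_injective hab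
    exact mul_left_cancel₀ (by positivity : L / 2 ≠ 0) this
  rw [h2, lintegral_image_eq_lintegral_abs_deriv_mul MeasurableSet.univ h3 h4]
  have h5 : ∀ t : ℝ, ENNReal.ofReal |Real.exp (L / 2 * t) * (L / 2)| *
      ENNReal.ofReal (k (L⁻¹ * Real.log (Real.exp (L / 2 * t) ^ 2)) / Real.exp (L / 2 * t)) =
      ENNReal.ofReal (L / 2) * ENNReal.ofReal (k t) := by
    intro t
    have he : 0 < Real.exp (L / 2 * t) := Real.exp_pos _
    have h6 : L⁻¹ * Real.log (Real.exp (L / 2 * t) ^ 2) = t := by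
      rw [Real.log_pow, Real.log_exp]
      field_simp
      norm_num
    rw [h6, abs_of_pos (by positivity), ← ENNReal.ofReal_mul (by positivity),
      ← ENNReal.ofReal_mul (by positivity)]
    congr 1
    field_simp
  simp only [h5, Measure.restrict_univ, lintegral_const, MeasurableSet.univ,
    Measure.restrict_apply, univ_inter, Real.volume_Ioo, one_mul]
  rw [lintegral_const_mul _ (by fun_prop), mul_right_comm, ← ENNReal.ofReal_mul (by positivity)]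
  congr 2
  ring

theorem bump_Reg : ∃ (th Th : ℝ → ℝ) (Z W : ℝ), 0 < Z ∧ 0 ≤ W ∧ ContDiff ℝ ∞ th ∧
    ContDiff ℝ ∞ Th ∧ (∀ t, t ≤ -2 → th t = 0) ∧ (∀ t, -1 ≤ t → th t = 0) ∧
    (∀ t, t ≤ -2 → Th t = 0) ∧ (∀ t, -1 ≤ t → Th t = 1) ∧ (∀ t, 0 ≤ Th t ∧ Th t ≤ 1) ∧
    (∀ t, deriv Th t = th t ^ 2 / Z) ∧
    ∫⁻ t, ENNReal.ofReal (th t ^ 2) = ENNReal.ofReal Z ∧
    ∫⁻ t, ENNReal.ofReal (deriv th t ^ 2) = ENNReal.ofReal W := by
  let b : ContDiffBump (-3 / 2 : ℝ) := ⟨1 / 4, 1 / 2, by norm_num, by norm_num⟩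
  have hbs : ContDiff ℝ ∞ b := b.contDiff
  have hb2 : ∀ t, t ≤ -2 → b t = 0 := fun t ht => by
    refine b.zero_of_le_dist ?_
    rw [Real.dist_eq]
    change (1 / 2 : ℝ) ≤ _
    rw [le_abs]; right; linarith
  have hb1 : ∀ t, -1 ≤ t → b t = 0 := fun t ht => by
    refine b.zero_of_le_dist ?_
    rw [Real.dist_eq]
    change (1 / 2 : ℝ) ≤ _
    rw [le_abs]; left; linarith
  have hc : Continuous fun t => b t ^ 2 := hbs.continuous.pow 2
  have hcs : HasCompactSupport fun t => b t ^ 2 := by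
    simp only [sq]
    exact b.hasCompactSupport.mul_left (f := b)
  set Z : ℝ := ∫ s in (-2 : ℝ)..(-1), b s ^ 2 with hZ
  have hZ' : Z = ∫ s, b s ^ 2 := by
    refine intervalIntegral.integral_eq_integral_of_support_subset ?_
    intro t ht
    rw [Function.mem_support] at ht
    constructor
    · by_contra h
      exact ht (by rw [hb2 t (not_lt.mp h)]; norm_num)
    · by_contra h
      exact ht (by rw [hb1 t (not_le.mp h).le]; norm_num)
  have hZpos : 0 < Z := by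
    rw [hZ']
    refine hc.integral_pos_of_hasCompactSupport_nonneg_nonzero hcs (fun t => sq_nonneg _)
      (x := -3 / 2) ?_
    have : b (-3 / 2) = 1 := b.one_of_mem_closedBall (mem_closedBall_self b.rIn_pos.le)
    rw [this]; norm_num
  have hd : ∀ t, HasDerivAt (fun t => (∫ s in (-2 : ℝ)..t, b s ^ 2) / Z) (b t ^ 2 / Z) t :=
    fun t => (hc.integral_hasStrictDerivAt (-2) t).hasDerivAt.div_const Z
  have hder : deriv (fun t => (∫ s in (-2 : ℝ)..t, b s ^ 2) / Z) = fun t => b t ^ 2 / Z :=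
    funext fun t => (hd t).deriv
  have hT0 : ∀ t, t ≤ -2 → (∫ s in (-2 : ℝ)..t, b s ^ 2) / Z = 0 := fun t ht => by
    have : ∫ s in (-2 : ℝ)..t, b s ^ 2 = ∫ s in (-2 : ℝ)..t, (0 : ℝ) := by
      refine intervalIntegral.integral_congr fun s hs => ?_
      rw [uIcc_of_ge ht] at hs
      simp [hb2 s hs.2]
    rw [this]; simp
  have hT1 : ∀ t, -1 ≤ t → (∫ s in (-2 : ℝ)..t, b s ^ 2) / Z = 1 := fun t ht => by
    have h1 : ∫ s in (-1 : ℝ)..t, b s ^ 2 = ∫ s in (-1 : ℝ)..t, (0 : ℝ) := by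
      refine intervalIntegral.integral_congr fun s hs => ?_
      rw [uIcc_of_le ht] at hs
      simp [hb1 s hs.1]
    rw [← intervalIntegral.integral_add_adjacent_intervals (b := -1)
      (hc.intervalIntegrable _ _) (hc.intervalIntegrable _ _), h1, ← hZ]
    simp [hZpos.ne']
  have hmono : Monotone fun t => (∫ s in (-2 : ℝ)..t, b s ^ 2) / Z :=
    monotone_of_deriv_nonneg (fun t => (hd t).differentiableAt) fun t => by
      rw [hder]; positivity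
  have hds : ContDiff ℝ ∞ (deriv b) := (contDiff_infty_iff_deriv.mp hbs).2
  have hc' : Continuous fun t => deriv b t ^ 2 := hds.continuous.pow 2
  have hcs' : HasCompactSupport fun t => deriv b t ^ 2 := by
    simp only [sq]
    exact b.hasCompactSupport.deriv.mul_left (f := deriv b)
  refine ⟨b, fun t => (∫ s in (-2 : ℝ)..t, b s ^ 2) / Z, Z, ∫ t, deriv b t ^ 2, hZpos,
    integral_nonneg fun t => sq_nonneg _, hbs, ?_, hb2, hb1, hT0, hT1, fun t => ⟨?_, ?_⟩,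
    fun t => (hd t).deriv, ?_, ?_⟩
  · rw [contDiff_infty_iff_deriv, hder]
    exact ⟨fun t => (hd t).differentiableAt, (hbs.pow 2).div_const Z⟩
  · rw [← hT0 (min t (-2)) (min_le_right _ _)]
    exact hmono (min_le_left _ _)
  · rw [← hT1 (max t (-1)) (le_max_right _ _)]
    exact hmono (le_max_left _ _)
  · rw [hZ', ofReal_integral_eq_lintegral_ofReal (hc.integrable_of_hasCompactSupport hcs)
      (Filter.Eventually.of_forall fun t => sq_nonneg _)]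
  · rw [ofReal_integral_eq_lintegral_ofReal (hc'.integrable_of_hasCompactSupport hcs')
      (Filter.Eventually.of_forall fun t => sq_nonneg _)]

theorem mul_F_Reg (L : ℝ) (u : ℝ → ℝ) {p : ℂ} (hp : p ≠ 0) :
    p * F_Reg L u p = (u (lg_Reg L p) : ℂ) := by
  unfold F_Reg
  field_simp

theorem norm_F_Reg (L : ℝ) (u : ℝ → ℝ) (p : ℂ) :
    ‖F_Reg L u p‖ ^ 2 = u (lg_Reg L p) ^ 2 / ‖p‖ ^ 2 := by
  unfold F_Reg
  rw [norm_mul, norm_inv, Complex.norm_real, Real.norm_eq_abs, mul_pow, sq_abs, inv_pow,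
    div_eq_mul_inv]

theorem regStmt  : RegStmt := by
  intro lam tau hlam htau
  obtain ⟨th, Th, Z, W, hZ, hW, hth, hTh, hth2, hth1, hT0, hT1, hT, hdT, hm, he⟩ := bump_Reg
  obtain ⟨L, hL1, hL2, hL3⟩ : ∃ L : ℝ, 1 ≤ L ∧ -Real.log (lam ^ 2) ≤ L ∧
      4 * π * W / (Z * tau) ≤ L :=
    ⟨max (max 1 (-Real.log (lam ^ 2))) (4 * π * W / (Z * tau)),
      (le_max_left _ _).trans (le_max_left _ _), (le_max_right _ _).trans (le_max_left _ _),
      le_max_right _ _⟩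
  have hL : 0 < L := by linarith
  have hLZ : 0 < L * Z := mul_pos hL hZ
  have hs : 0 < √(L * Z) := Real.sqrt_pos.mpr hLZ
  have hlg : ∀ p : ℂ, lam ≤ ‖p‖ → -1 ≤ lg_Reg L p := fun p hp => by
    unfold lg_Reg
    rw [le_inv_mul_iff₀ hL]
    have : Real.log (lam ^ 2) ≤ Real.log (‖p‖ ^ 2) :=
      Real.log_le_log (by positivity) (by gcongr)
    linarith
  have hu : ContDiff ℝ ∞ fun t => th t / √(L * Z) := hth.div_const _
  have hu0 : ∀ t, t ≤ -2 → th t / √(L * Z) = 0 := fun t ht => by rw [hth2 t ht, zero_div]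
  have hγ : ∀ p : ℂ, ‖F_Reg L (fun t => th t / √(L * Z)) p‖ ^ 2 =
      (th (lg_Reg L p) ^ 2 / (L * Z)) / ‖p‖ ^ 2 := fun p => by
    rw [norm_F_Reg, div_pow, Real.sq_sqrt hLZ.le]
  have hds : ContDiff ℝ ∞ (deriv th) := (contDiff_infty_iff_deriv.mp hth).2
  refine ⟨⟨F_Reg L Th, F_Reg L fun t => th t / √(L * Z), F_smooth_Reg hL hTh hT0,
    F_smooth_Reg hL hu hu0, fun p => ?_, fun p => ?_, fun p hp => ?_, fun p hp => ?_,
    fun p => ?_, ?_, ?_⟩⟩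
  · by_cases hp : p = 0
    · simp [hp]
    · rw [mul_F_Reg L Th hp, Complex.norm_real, Real.norm_eq_abs, abs_of_nonneg (hT _).1]
      exact (hT _).2
  · by_cases hp : p = 0
    · simp [hp]
    · rw [mul_F_Reg L Th hp, ← Complex.ofReal_one, ← Complex.ofReal_sub, Complex.norm_real,
        Real.norm_eq_abs, abs_of_nonneg (by linarith [(hT (lg_Reg L p)).2])]
      linarith [(hT (lg_Reg L p)).1]
  · have hp0 : p ≠ 0 := norm_pos_iff.mp (hlam.trans_le hp)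
    rw [mul_F_Reg L Th hp0, hT1 _ (hlg p hp), Complex.ofReal_one]
  · simp [F_Reg, hth1 _ (hlg p hp.le)]
  · rw [db_F_Reg hL (hTh.differentiable (by simp)) hT0, hγ, hdT]
    congr 1
    field_simp
  · simp only [hγ]
    rw [lint_radial_Reg hL (k := fun t => th t ^ 2 / (L * Z))
      ((hth.continuous.pow 2).div_const _).measurable]
    have : ∀ t, ENNReal.ofReal (th t ^ 2 / (L * Z)) =
        ENNReal.ofReal (L * Z)⁻¹ * ENNReal.ofReal (th t ^ 2) := fun t => by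
      rw [← ENNReal.ofReal_mul (by positivity), div_eq_inv_mul]
    simp only [this]
    rw [lintegral_const_mul' _ _ ENNReal.ofReal_ne_top, hm,
      ← ENNReal.ofReal_mul (by positivity), ← ENNReal.ofReal_mul (by positivity)]
    congr 1
    field_simp
  · have h1 : ∀ p : ℂ, ‖p * db (F_Reg L fun t => th t / √(L * Z)) p‖ ^ 2 =
        (4 / (L ^ 3 * Z) * deriv th (lg_Reg L p) ^ 2) / ‖p‖ ^ 2 := fun p => by
      rw [db_F_Reg hL (hu.differentiable (by simp)) hu0, deriv_div_const, norm_mul,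
        Complex.norm_real, Real.norm_eq_abs, mul_pow, sq_abs]
      by_cases hp : p = 0
      · simp [hp]
      · have hn : ‖p‖ ≠ 0 := norm_ne_zero_iff.mpr hp
        rw [div_pow, mul_pow, div_pow, Real.sq_sqrt hLZ.le]
        field_simp
        ring
    simp only [h1]
    rw [lint_radial_Reg hL (k := fun t => 4 / (L ^ 3 * Z) * deriv th t ^ 2)
      (continuous_const.mul (hds.continuous.pow 2)).measurable]
    have : ∀ t, ENNReal.ofReal (4 / (L ^ 3 * Z) * deriv th t ^ 2) =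
        ENNReal.ofReal (4 / (L ^ 3 * Z)) * ENNReal.ofReal (deriv th t ^ 2) := fun t => by
      rw [← ENNReal.ofReal_mul (by positivity)]
    simp only [this]
    rw [lintegral_const_mul' _ _ ENNReal.ofReal_ne_top, he,
      ← ENNReal.ofReal_mul (by positivity), ← ENNReal.ofReal_mul (by positivity)]
    refine ENNReal.ofReal_le_ofReal ?_
    rw [div_le_iff₀ (by positivity)] at hL3
    have h2 : π * L * (4 / (L ^ 3 * Z) * W) = 4 * π * W / (L ^ 2 * Z) := by field_simp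
    rw [h2, div_le_iff₀ (by positivity)]
    have h3 : L * (Z * tau) ≤ L ^ 2 * (Z * tau) := by
      gcongr
      nlinarith
    nlinarith

end Pool.Agent.MP_71da5e_an.L

end
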