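import Pool.Agent.Mg.F71da5ea.G17b4dd

section

namespace Pool.Agent.MP_71da5e_an.L

open MeasureTheory Metric Set Laplacian Complex
open scoped ContDiff RealInnerProductSpace ENNReal Real ComplexConjugate

/-! ### Block B -/

/-- Elementary facts on the Hilbert space. -/
structure Api (n : ℕ) : Prop where
  pr_eq : ∀ h k : H n, pr h k = ∫ x, h x * k x ∂(mu n)
  pr_comm : ∀ h k : H n, pr h k = pr k h
  pr_le : ∀ h k : H n, ‖pr h k‖ ≤ ‖h‖ * ‖k‖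
  norm_le_of_pr : ∀ (h : H n) (c : ℝ), 0 ≤ c → (∀ k, ‖pr h k‖ ≤ c * ‖k‖) → ‖h‖ ≤ c
  ext_pr : ∀ h h' : H n, (∀ k, pr h k = pr h' k) → h = h'
  norm_sq : ∀ h : H n, ‖h‖ ^ 2 = ∫ x, ‖h x‖ ^ 2 ∂(mu n)
  coe_toH : ∀ u : E n → ℂ, MemLp u 2 (mu n) → toH u =ᵐ[mu n] u
  mem_cont : ∀ u : E n → ℂ, Continuous u → MemLp u ⊤ (mu n) ∧ MemLp u 2 (mu n)
  mem_bdd : ∀ q : E n → ℂ, Bdd q → MemLp q ⊤ (mu n)
  coe_mulH : ∀ w : E n → ℂ, MemLp w ⊤ (mu n) → ∀ h : H n, mulH w h =ᵐ[mu n] fun x => w x * h x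
  norm_mulH : ∀ (w : E n → ℂ) (c : ℝ), 0 ≤ c → (∀ x, ‖x‖ < 1 → ‖w x‖ ≤ c) → ‖mulH w‖ ≤ c
  pr_mulH : ∀ (w : E n → ℂ) (h k : H n), pr (mulH w h) k = pr h (mulH w k)
  mulH_comm : ∀ (w w' : E n → ℂ) (h : H n), mulH w (mulH w' h) = mulH w' (mulH w h)
  cont_exf : Continuous fun y : (E n × E n) × E n => exf y.1.1 y.1.2 y.2
  norm_exf : ∀ a b x : E n, ‖exf a b x‖ = Real.exp (2 * π * ⟪a, x⟫)
  exf_add : ∀ a b a' b' x : E n, exf (a + a') (b + b') x = exf a b x * exf a' b' x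
  coe_ex : ∀ a b : E n, ex a b =ᵐ[mu n] exf a b
  coe_Mx : ∀ (a : E n) (h : H n), Mx a h =ᵐ[mu n] fun x => exf a 0 x * h x
  Mx_ex : ∀ a a' b : E n, Mx a (ex a' b) = ex (a + a') b
  Mx_Mx : ∀ (a a' : E n) (h : H n), Mx a (Mx a' h) = Mx (a + a') h
  Mx_zero : ∀ h : H n, Mx 0 h = h
  norm_Mx : ∀ a : E n, ‖Mx a‖ ≤ Real.exp (2 * π * ‖a‖)
  norm_ex : ∃ c : ℝ, 0 ≤ c ∧ ∀ a b : E n, ‖ex a b‖ ≤ c * Real.exp (2 * π * ‖a‖)
  riesz : ∀ β : H n →L[ℂ] H n →L[ℂ] ℂ, ∃ T : H n →L[ℂ] H n, ‖T‖ ≤ ‖β‖ ∧ ∀ h k, pr (T h) k = β h k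
  transp : ∀ T : H n →L[ℂ] H n, ∃ T' : H n →L[ℂ] H n, ‖T'‖ ≤ ‖T‖ ∧ ∀ h k, pr (T h) k = pr h (T' k)
  nsq_zc : ∀ a b : E n, nsq (zc a b) = ‖a‖ ^ 2 + ‖b‖ ^ 2
  pz_eq : ∀ a b : E n, pz a b = ((‖a‖ ^ 2 - ‖b‖ ^ 2 : ℝ) : ℂ) + ((2 * ⟪a, b⟫ : ℝ) : ℂ) * I
  smooth_pz : ContDiff ℝ ∞ fun y : E n × E n => pz y.1 y.2

/-- Regularisers exist. -/
def RegStmt : Prop := ∀ lam tau : ℝ, 0 < lam → 0 < tau → Nonempty (Reg lam tau)

/-- Upper bounds for integrals of functions of `ζ · ζ` over the imaginary part. -/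
def CaUp (n : ℕ) : Prop :=
  ∃ C : ℝ, 0 ≤ C ∧ ∀ a : E n, 4 ≤ ‖a‖ → ∀ k : ℂ → ℝ≥0∞, Measurable k →
    (∀ p, ‖a‖ < ‖p‖ → k p = 0) →
    (∀ η₀, ∫⁻ η, k (pz a η) * gs η₀ η ≤ ENNReal.ofReal (C / ‖a‖ ^ 2) * ∫⁻ p, k p) ∧
      ∫⁻ η, k (pz a η) ≤ ENNReal.ofReal (C * ‖a‖ ^ n) * ∫⁻ p, k p

/-- The lower bound. -/
def CaDown (n : ℕ) : Prop :=
  ∃ γ c : ℝ, 0 < γ ∧ γ ≤ 1 ∧ 0 < c ∧ ∀ (a η₀ : E n) (κ : ℝ), 1 ≤ ‖a‖ → 0 < κ → κ ≤ 1 →
    ‖pz a η₀‖ ≤ γ * κ * ‖a‖ → ∀ k : ℂ → ℝ≥0∞, Measurable k →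
    (∀ p, γ * κ * ‖a‖ < ‖p‖ → k p = 0) →
    ENNReal.ofReal (c * κ ^ (n - 2) / ‖a‖ ^ 2) * ∫⁻ p, k p ≤ ∫⁻ η in ball η₀ κ, k (pz a η)

/-- The theorems of Plancherel and Parseval. -/
def Pars (n : ℕ) : Prop :=
  ∀ h : H n, MemLp (fun η => pr h (ex 0 η)) 2 volume ∧
    ∫⁻ η, ENNReal.ofReal (‖pr h (ex 0 η)‖ ^ 2) = ENNReal.ofReal (‖h‖ ^ 2) ∧
    ∀ k : H n, ∫ η, pr h (ex 0 (-η)) * pr k (ex 0 η) = pr h k

/-- Local constancy of Fourier transforms of functions on the unit ball. -/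
def Gauss (n : ℕ) : Prop :=
  ∀ W : E n → ℝ≥0∞, Measurable W → ∀ c : ℝ≥0∞, (∀ η₀, ∫⁻ η, W η * gs η₀ η ≤ c) → ∀ h : H n,
    ∫⁻ η, W η * ENNReal.ofReal (‖pr h (ex 0 η)‖ ^ 2) ≤
        ENNReal.ofReal (Real.exp (2 * π) * ‖h‖ ^ 2) * c ∧
      ∫⁻ η, W η * ENNReal.ofReal (‖pr h (ex 0 (-η))‖ ^ 2) ≤
        ENNReal.ofReal (Real.exp (2 * π) * ‖h‖ ^ 2) * c

/-- Fourier multipliers on the unit ball. -/
def OpStmt (n : ℕ) : Prop :=
  ∀ m : E n → ℂ, Measurable m → ∀ c : ℝ, 0 ≤ c →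
    (∀ η₀, ∫⁻ η, ENNReal.ofReal ‖m η‖ * gs η₀ η ≤ ENNReal.ofReal c) →
    ∃ T : H n →L[ℂ] H n, ‖T‖ ≤ Real.exp (2 * π) * c ∧ ∀ h k : H n,
      Integrable (fun η => m η * pr h (ex 0 (-η)) * pr k (ex 0 η)) ∧
        pr (T h) k = ∫ η, m η * pr h (ex 0 (-η)) * pr k (ex 0 η)

/-- The exponentials depend holomorphically on `a + i b`. -/
def ExStmt (n : ℕ) : Prop :=
  ContDiff ℝ 1 (fun y : E n × E n => ex y.1 y.2) ∧ ∀ (y : E n × E n) (δ : E n),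
    fderiv ℝ (fun y : E n × E n => ex y.1 y.2) y (δ, 0) +
      I • fderiv ℝ (fun y : E n × E n => ex y.1 y.2) y (0, δ) = 0

/-- The Laplacian of an exponential. -/
def WkEx (n : ℕ) : Prop :=
  ∀ a b : E n, Wk (ex a b) ((((4 * π ^ 2 : ℝ) : ℂ) * pz a b) • ex a b)

/-- Differentiability of the Faddeev operators. -/
def DgStmt (n : ℕ) : Prop :=
  ∀ (lam tau : ℝ) (ρ : Reg lam tau) (G : E n → H n →L[ℂ] H n),
    (∀ a h k, pr (G a h) k = ∫ η, ρ.g (pz a η) * pr h (ex (-a) (-η)) * pr k (ex a η)) →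
    ContDiff ℝ 1 G ∧ ∀ a δ h, fderiv ℝ G a δ h =
      ∫ η, (4 * conj (bd (rc δ) (zc a η)) * (ρ.ph (pz a η) : ℂ) * pr h (ex (-a) (-η))) • ex a η

/-- The Faddeev operators exist. -/
def GopStmt (n : ℕ) : Prop :=
  ∃ C : ℝ, 0 ≤ C ∧ ∀ lam tau : ℝ, 0 < lam → lam ≤ 1 → ∀ ρ : Reg lam tau, Nonempty (Gop n C ρ)

/-- The Faddeev solutions exist. -/
def CgoStmt (n : ℕ) : Prop :=
  ∀ Q : ℝ, 0 ≤ Q → ∃ C a₀ : ℝ, 0 ≤ C ∧ 4 ≤ a₀ ∧ ∀ q : E n → ℂ, Measurable q → (∀ x, ‖q x‖ ≤ Q) →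
    ∀ lam tau : ℝ, 0 < lam → lam ≤ 1 → ∀ ρ : Reg lam tau, Nonempty (Cgo q C a₀ ρ)

/-- The data estimate passes to weak solutions. -/
def MollStmt (n : ℕ) : Prop :=
  ∀ q₁ q₂ f : E n → ℂ, Bdd q₁ → Bdd q₂ → Bdd f → (∀ x, 1 / 2 < ‖x‖ → f x = 0) → Hcore q₁ q₂ f →
    ∃ C : ℝ, 0 ≤ C ∧ HcoreW q₁ q₂ f C

/-- Regularity and size of `F`. -/
def FamAStmt (n : ℕ) : Prop :=
  ∀ e : E n, ‖e‖ = 1 → ∀ q₁ q₂ f : E n → ℂ, Bdd q₁ → Bdd q₂ → Bdd f →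
    (∀ x, 1 / 2 < ‖x‖ → f x = 0) → ∀ Cw : ℝ, 0 ≤ Cw → HcoreW q₁ q₂ f Cw →
    ∀ C a₀ : ℝ, 0 ≤ C → 4 ≤ a₀ → ∃ C₀ : ℝ, ∀ C', C₀ ≤ C' → ∀ lam tau : ℝ, 0 < lam → lam ≤ 1 →
      ∀ (ρ : Reg lam tau) (Φ₁ : Cgo q₁ C a₀ ρ) (Φ₂ : Cgo q₂ C a₀ ρ),
        FamA e f C' a₀ lam (FF e f Φ₁.u Φ₂.u)

/-- The fibre bounds for `F`. -/
def FamBStmt (n : ℕ) : Prop :=
  ∀ (e : E n) (q₁ q₂ f : E n → ℂ) (C a₀ : ℝ), 0 ≤ C → 4 ≤ a₀ → ∃ C₀ : ℝ, ∀ C', C₀ ≤ C' →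
    ∀ lam tau : ℝ, 0 < lam → lam ≤ 1 →
      ∀ (ρ : Reg lam tau) (Φ₁ : Cgo q₁ C a₀ ρ) (Φ₂ : Cgo q₂ C a₀ ρ),
        ‖e‖ = 1 → FamB e C' a₀ ρ (FF e f Φ₁.u Φ₂.u)

/-- The output of block B. -/
def FamAll {n : ℕ} (e : E n) (f : E n → ℂ) (C a₀ : ℝ) : Prop :=
  ∀ lam tau : ℝ, 0 < lam → lam ≤ 1 → ∀ ρ : Reg lam tau,
    ∃ F : X n → ℂ, FamA e f C a₀ lam F ∧ FamB e C a₀ ρ F

/-! ### Block C -/

/-- The Carleman estimate for one holomorphic field. -/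
def AcStmt (n : ℕ) : Prop :=
  ∀ (e : E n) (W : V n × V n → ℂ × V n), ContDiff ℂ ∞ W → ∀ (m : B n → ℝ) (D : Set (B n)),
    IsOpen D → ContDiffOn ℝ ∞ m D → ∀ v : X n → ℂ, ContDiff ℝ 1 v → HasCompactSupport v →
    (∀ x ∈ tsupport v, x.1 ∈ D) →
    Integrable (fun x : X n => -2 * lev m x.1 (W (zz e x)) * Real.exp (-2 * m x.1) * ‖v x‖ ^ 2) ∧
    Integrable (fun x : X n => Real.exp (-2 * m x.1) * ‖dbar e v x (W (zz e x))‖ ^ 2) ∧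
    ∫ x : X n, -2 * lev m x.1 (W (zz e x)) * Real.exp (-2 * m x.1) * ‖v x‖ ^ 2 ≤
      ∫ x : X n, Real.exp (-2 * m x.1) * ‖dbar e v x (W (zz e x))‖ ^ 2

/-- Elementary facts on the fields. -/
structure Fld (n : ℕ) : Prop where
  smH : ∀ (e : E n) (l m : Fin n), ContDiff ℂ ∞ (fH e l m)
  smL : ∀ k : Fin n, ContDiff ℂ ∞ (fL k : V n × V n → ℂ × V n)
  tanH : ∀ (e : E n) (l m : Fin n) (ζ : V n × V n),
    bd (X1 e (fH e l m ζ)) ζ.1 = 0 ∧ bd (X2 e (fH e l m ζ)) ζ.2 = 0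
  tanL : ∀ (k : Fin n) (ζ : V n × V n),
    bd (fL k ζ).2 ζ.1 = ζ.2 k * bd ζ.1 ζ.1 ∧ bd (fL k ζ).2 ζ.2 = ζ.1 k * bd ζ.2 ζ.2
  XL : ∀ (e : E n) (k : Fin n) (ζ : V n × V n),
    (fL k ζ).1 = 0 ∧ X1 e (fL k ζ) = (fL k ζ).2 ∧ X2 e (fL k ζ) = -(fL k ζ).2
  size : ∃ C : ℝ, 0 ≤ C ∧ ∀ e : E n, ‖e‖ = 1 → ∀ ζ : V n × V n,
    (∀ l m, ‖(fH e l m ζ).1‖ ^ 2 + nsq (fH e l m ζ).2 ≤ C * (nsq ζ.1 * nsq ζ.2) ∧
      nsq (X1 e (fH e l m ζ)) ≤ C * (nsq ζ.1 * nsq ζ.2) ∧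
      nsq (X2 e (fH e l m ζ)) ≤ C * (nsq ζ.1 * nsq ζ.2)) ∧
    ∀ k, nsq (fL k ζ).2 ≤ C * (nsq ζ.1 * nsq ζ.2)

/-- The weight is smooth. -/
def SmStmt (n : ℕ) : Prop :=
  ∀ (e : E n) (K η κ ε β γ : ℝ), IsOpen (Dm e) ∧ ContDiffOn ℝ ∞ (mm e K η κ ε β γ) (Dm e)

/-- The gain on the cone. -/
def WeightStmt (n : ℕ) : Prop :=
  ∀ e : E n, ‖e‖ = 1 → ∃ K η κ x₀ : ℝ, Par K η κ x₀ ∧ ∀ β C : ℝ, 0 ≤ β → 0 ≤ C →
    ∃ s₀ ε₀ : ℝ, 1 ≤ s₀ ∧ 0 < ε₀ ∧ ∀ ε, 0 ≤ ε → ε ≤ ε₀ → ∀ x : X n, x.1 ∈ Gd e s₀ x₀ →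
      p1 e x = 0 → p2 e x = 0 → Err C x + 2 ≤ Lam e K η κ ε β x

/-- The gain near the cone. -/
def OffStmt (n : ℕ) : Prop :=
  ∀ (e : E n) (K η κ ε β C s₀ x₀ R₀ : ℝ), 0 < s₀ → 0 < x₀ →
    (∀ x : X n, x.1 ∈ Sp e s₀ x₀ R₀ → p1 e x = 0 → p2 e x = 0 → Err C x + 2 ≤ Lam e K η κ ε β x) →
    ∃ lam₀ : ℝ, 0 < lam₀ ∧ ∀ x : X n, x.1 ∈ Sp e s₀ x₀ R₀ → ‖p1 e x‖ ≤ lam₀ → ‖p2 e x‖ ≤ lam₀ →
      Err C x + 1 ≤ Lam e K η κ ε β x

/-- Cut-off functions exist. -/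
def CutStmt (n : ℕ) : Prop :=
  ∀ e : E n, ‖e‖ = 1 → ∀ s₀ x₀ : ℝ, 1 ≤ s₀ → 0 < x₀ → x₀ ≤ 1 / 2 → ∃ C : ℝ, ∀ R₀, 1 ≤ R₀ →
    ∃ Ξ : B n → ℝ, Cut e s₀ x₀ R₀ C Ξ ∧ HasCompactSupport Ξ

/-- The function to which the Carleman estimate is applied. -/
def VsStmt (n : ℕ) : Prop :=
  ∀ (e : E n) (a₀ lam tau : ℝ) (ρ : Reg lam tau) (F : X n → ℂ) (Ξ : B n → ℝ),
    ContDiffOn ℝ 1 F {x | x.1 ∈ Ob e a₀} → ContDiff ℝ ∞ Ξ → HasCompactSupport Ξ →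
    tsupport Ξ ⊆ Ob e a₀ →
    ContDiff ℝ 1 (vv ρ e Ξ F) ∧ HasCompactSupport (vv ρ e Ξ F) ∧
    (∀ x ∈ tsupport (vv ρ e Ξ F), x.1 ∈ tsupport Ξ) ∧
    (∀ x, ‖vv ρ e Ξ F x‖ ^ 2 = Ξ x.1 ^ 2 * pp ρ e x * ‖F x‖ ^ 2) ∧
    ∀ x W, ‖dbar e (vv ρ e Ξ F) x W‖ ^ 2 ≤
      4 * (Ξ x.1 ^ 2 * pp ρ e x * ‖dbar e F x W‖ ^ 2 +
        2 * ‖fderiv ℝ Ξ x.1‖ ^ 2 * (‖W.1‖ ^ 2 + nsq W.2) * pp ρ e x * ‖F x‖ ^ 2 +
        4 * Ξ x.1 ^ 2 * ‖F x‖ ^ 2 *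
          (‖db ρ.γ (p1 e x)‖ ^ 2 * ‖bd (X1 e W) (z1 e x)‖ ^ 2 * ρ.ph (p2 e x) +
            ρ.ph (p1 e x) * ‖db ρ.γ (p2 e x)‖ ^ 2 * ‖bd (X2 e W) (z2 e x)‖ ^ 2))

/-- The contribution of the region where the cut-off function varies. -/
def BadStmt (n : ℕ) : Prop :=
  ∀ e : E n, ‖e‖ = 1 → ∀ (f : E n → ℂ) (C a₀ K η κ x₀ s₀ : ℝ), 0 ≤ C → 4 ≤ a₀ → Par K η κ x₀ →
    1 ≤ s₀ → a₀ < x₀ * s₀ → ∃ C₂ : ℝ, ∀ ε R₀ : ℝ, 0 ≤ ε → 1 ≤ R₀ → π / 20 ≤ ε * Real.log R₀ →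
      ∃ lam₀ : ℝ, 0 < lam₀ ∧ ∀ lam tau : ℝ, 0 < lam → lam ≤ lam₀ → lam ≤ 1 →
        ∀ (ρ : Reg lam tau) (F : X n → ℂ), FamA e f C a₀ lam F →
        ∫⁻ x in {x : X n | x.1 ∈ Bad e s₀ x₀ R₀},
          ENNReal.ofReal (Real.exp (-2 * mm e K η κ ε (n + 2) 0 x.1) * R2 x.1 ^ 2 * pp ρ e x *
            ‖F x‖ ^ 2) ≤ ENNReal.ofReal C₂

/-- The contribution of the derivative of `γ`. -/
def TauStmt (n : ℕ) : Prop :=
  ∀ e : E n, ‖e‖ = 1 → ∀ (f : E n → ℂ) (C a₀ K η κ x₀ s₀ ε R₀ : ℝ), 0 ≤ C → 4 ≤ a₀ →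
    Par K η κ x₀ → 1 ≤ s₀ → a₀ < x₀ * s₀ → 0 ≤ ε → ∃ C₃ : ℝ, 0 ≤ C₃ ∧
      ∀ lam tau : ℝ, 0 < lam → lam ≤ 1 → ∀ (ρ : Reg lam tau) (F : X n → ℂ), FamA e f C a₀ lam F →
        ∫⁻ x in {x : X n | x.1 ∈ Sp e s₀ x₀ R₀},
          ENNReal.ofReal (Real.exp (-2 * mm e K η κ ε (n + 2) 0 x.1) * R2 x.1 * ‖F x‖ ^ 2 *
            (‖p1 e x * db ρ.γ (p1 e x)‖ ^ 2 * ρ.ph (p2 e x) +
              ρ.ph (p1 e x) * ‖p2 e x * db ρ.γ (p2 e x)‖ ^ 2)) ≤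
          ENNReal.ofReal C₃ * ENNReal.ofReal tau

/-- The sum of the fibre errors. -/
def AbsStmt (n : ℕ) : Prop :=
  ∀ e : E n, ‖e‖ = 1 → ∀ C a₀ x₀ : ℝ, 0 ≤ C → 4 ≤ a₀ → 0 < x₀ → ∃ C₄ : ℝ, 0 ≤ C₄ ∧
    ∀ s₀ R₀ lam tau : ℝ, 1 ≤ s₀ → a₀ < x₀ * s₀ → 0 < lam → lam ≤ 1 →
      ∀ (ρ : Reg lam tau) (F : X n → ℂ), ContDiffOn ℝ 1 F {x | x.1 ∈ Ob e a₀} → FamB e C a₀ ρ F →
      ∀ w : B n → ℝ, Measurable w → (∀ p, 0 ≤ w p) → (∀ p, p ∉ Sp e s₀ x₀ R₀ → w p = 0) →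
        (∑ k, ∫⁻ x : X n, ENNReal.ofReal (w x.1 * (x.1.1)⁻¹ * pp ρ e x *
            ‖dbar e F x (fL k (zz e x))‖ ^ 2)) +
          ∑ l, ∑ m, ∫⁻ x : X n, ENNReal.ofReal (w x.1 * (√(R2 x.1))⁻¹ * pp ρ e x *
            ‖dbar e F x (fH e l m (zz e x))‖ ^ 2) ≤
        ∫⁻ x : X n, ENNReal.ofReal (w x.1 * Err C₄ x * pp ρ e x * ‖F x‖ ^ 2)

/-- The main estimate. -/
def MainStmt (n : ℕ) : Prop :=
  ∀ e : E n, ‖e‖ = 1 → ∀ (f : E n → ℂ) (C a₀ : ℝ), 0 ≤ C → 4 ≤ a₀ →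
    ∃ K η κ x₀ s₀ ε₀ C₁ : ℝ, Par K η κ x₀ ∧ 1 ≤ s₀ ∧ 0 < ε₀ ∧
      ∀ ε R₀ : ℝ, 0 < ε → ε ≤ ε₀ → 1 ≤ R₀ → π / 20 ≤ ε * Real.log R₀ →
      ∃ lam₀ tau₀ : ℝ, 0 < lam₀ ∧ 0 < tau₀ ∧ ∀ lam tau : ℝ, 0 < lam → lam ≤ lam₀ → tau ≤ tau₀ →
        ∀ (ρ : Reg lam tau) (F : X n → ℂ), FamA e f C a₀ lam F → FamB e C a₀ ρ F →
        ∫⁻ x in {x : X n | x.1 ∈ In e s₀ x₀ R₀},
          ENNReal.ofReal (Real.exp (-2 * mm e K η κ ε (n + 2) 0 x.1) * pp ρ e x * ‖F x‖ ^ 2) ≤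
          ENNReal.ofReal C₁

/-- The main estimate in the target region. -/
def TgStmt (n : ℕ) : Prop :=
  ∀ e : E n, ‖e‖ = 1 → ∀ (f : E n → ℂ) (C a₀ : ℝ), 0 ≤ C → 4 ≤ a₀ →
    ∃ η s₀ C₁ : ℝ, 0 < η ∧ ∀ T : ℝ, 1 ≤ T →
      ∃ lam₀ tau₀ : ℝ, 0 < lam₀ ∧ 0 < tau₀ ∧ ∀ lam tau : ℝ, 0 < lam → lam ≤ lam₀ → tau ≤ tau₀ →
        ∀ (ρ : Reg lam tau) (F : X n → ℂ), FamA e f C a₀ lam F → FamB e C a₀ ρ F →
        ∫⁻ x in {x : X n | x.1 ∈ Tg s₀ T},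
          ENNReal.ofReal (Real.exp (-2 * π * x.1.1 + 2 * η * x.1.1) / R2 x.1 ^ (2 * n + 4) *
            pp ρ e x * ‖F x‖ ^ 2) ≤ ENNReal.ofReal C₁

/-- Points of the cone far out over a given frequency. -/
def GeoStmt (n : ℕ) : Prop :=
  ∀ e ξ : E n, ‖e‖ = 1 → ⟪ξ, e⟫ = 0 → ∀ s ϱ : ℝ, 0 < s → ‖ξ‖ ≤ s → s ≤ ϱ →
    ∃ r b₁ b₂ : E n, b₁ + b₂ = ξ ∧ pz (a1 e (s, r)) b₁ = 0 ∧ pz (a2 e (s, r)) b₂ = 0 ∧
      ϱ / 2 ≤ ‖r‖ ∧ ‖r‖ ≤ ϱ

/-- Exponential decay of the Laplace transform. -/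
def Dec {n : ℕ} (e : E n) (f : E n → ℂ) (c : ℝ) : Prop :=
  ∀ ξ : E n, ⟪ξ, e⟫ = 0 → ∃ C s₁ : ℝ, ∀ s, s₁ ≤ s →
    ‖lt f (s • e) ξ‖ ≤ C * Real.exp (π * s - c * s)

/-- Extraction of the decay. -/
def DecStmt (n : ℕ) : Prop :=
  ∀ e : E n, ‖e‖ = 1 → ∀ f : E n → ℂ, Bdd f → (∀ x, 1 / 2 < ‖x‖ → f x = 0) →
    ∀ C a₀ : ℝ, 0 ≤ C → 4 ≤ a₀ → FamAll e f C a₀ → ∃ c : ℝ, 0 < c ∧ Dec e f c

/-- From decay to support. -/
def FinStmt (n : ℕ) : Prop :=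
  ∀ e : E n, ‖e‖ = 1 → ∀ f : E n → ℂ, Bdd f → (∀ x, 1 / 2 < ‖x‖ → f x = 0) →
    ∀ c : ℝ, 0 < c → Dec e f c → ∀ᵐ x : E n, 1 / 2 - c / (2 * π) < ⟪x, e⟫ → f x = 0

end Pool.Agent.MP_71da5e_an.L

end

section

namespace Pool.Agent.MP_71da5e_an.L

open MeasureTheory Metric Set Laplacian Complex
open scoped ContDiff RealInnerProductSpace ENNReal Real ComplexConjugate

variable {n : ℕ}

theorem nb_nonneg_FamA (r : ℝ) (g : E n → ℂ) : 0 ≤ nb r g := Real.sqrt_nonneg _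

theorem nb_le_FamA (A : Api n) {r ϱ c : ℝ} (hr : r ≤ 1) {a : E n} (ha : ‖a‖ ≤ ϱ)
    {h : H n} (hc : ‖h‖ ≤ c) {g : E n → ℂ} (hg : g =ᵐ[mu n] Mx a h) :
    nb r g ≤ Real.exp (2 * π * (ϱ * r)) * c := by
  have hle : volume.restrict (ball (0 : E n) r) ≤ mu n :=
    Measure.restrict_mono (ball_subset_ball hr) le_rfl
  have hi : Integrable (fun x => ‖h x‖ ^ 2) (mu n) :=
    (memLp_two_iff_integrable_sq_norm (Lp.aestronglyMeasurable h)).1 (Lp.memLp h)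
  refine le_trans ?_ (mul_le_mul_of_nonneg_left hc (Real.exp_pos _).le)
  refine Real.sqrt_le_iff.2 ⟨by positivity, ?_⟩
  rw [mul_pow, A.norm_sq, ← integral_const_mul]
  refine le_trans (integral_mono_of_nonneg (Filter.Eventually.of_forall fun x => by positivity)
    ((hi.mono_measure hle).const_mul _) ?_) (integral_mono_measure hle
      (Filter.Eventually.of_forall fun x => by positivity) (hi.const_mul _))
  filter_upwards [ae_mono hle (hg.trans (A.coe_Mx a h)), ae_restrict_mem measurableSet_ball]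
    with x hx hxr
  rw [hx, norm_mul, mul_pow, A.norm_exf]
  have h1 : ⟪a, x⟫ ≤ ϱ * r := (real_inner_le_norm a x).trans
    (mul_le_mul ha (mem_ball_zero_iff.1 hxr).le (norm_nonneg _) ((norm_nonneg _).trans ha))
  gcongr

theorem res_le_FamA (A : Api n) {q : E n → ℂ} (hq : Bdd q) {ϱ c : ℝ} {a : E n} (ha : ‖a‖ ≤ ϱ)
    {k : H n} (hc : ‖k‖ ≤ c) (u : H n) :
    (nb (1 / 2) fun x => (mulH q u + Mx a k) x - q x * u x) ≤
      Real.exp (2 * π * (ϱ * (1 / 2))) * c := by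
  refine nb_le_FamA A (by norm_num) ha hc ?_
  filter_upwards [Lp.coeFn_add (mulH q u) (Mx a k), A.coe_mulH q (A.mem_bdd q hq) u] with x h1 h2
  rw [h1, Pi.add_apply, h2, add_sub_cancel_left]

theorem bound_FamA (A : Api n) {e : E n} (he : ‖e‖ = 1) {f : E n → ℂ} {Q : ℝ}
    (hQ : ∀ x, ‖f x‖ ≤ Q) (hf : ∀ x, 1 / 2 < ‖x‖ → f x = 0) {s : ℝ} (hs : 0 ≤ s) (x : E n) :
    ‖f x * exf (s • e) 0 x‖ ≤ Q * Real.exp (π * s) := by
  have hQ0 : 0 ≤ Q := (norm_nonneg _).trans (hQ 0)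
  rcases lt_or_ge (1 / 2) ‖x‖ with h | h
  · rw [hf x h, zero_mul, norm_zero]
    positivity
  · rw [norm_mul, A.norm_exf]
    have h1 : ⟪s • e, x⟫ ≤ s * (1 / 2) := by
      refine (real_inner_le_norm _ _).trans ?_
      rw [norm_smul, he, mul_one, Real.norm_of_nonneg hs]
      gcongr
    refine mul_le_mul (hQ x) (Real.exp_le_exp.2 ?_) (Real.exp_pos _).le hQ0
    nlinarith [Real.pi_pos]

theorem pr_eq_FamA (A : Api n) {f : E n → ℂ} (hf : Bdd f) {a a' : E n}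
    (hw : Bdd fun x => f x * exf (a' + a) 0 x) (h k : H n) :
    pr (mulH f (Mx a h)) (Mx a' k) = pr (mulH (fun x => f x * exf (a' + a) 0 x) h) k := by
  have h1 : pr (mulH f (Mx a h)) (Mx a' k) = pr (mulH f (Mx a' (Mx a h))) k :=
    (A.pr_mulH _ _ _).symm.trans (by rw [A.mulH_comm]; rfl)
  rw [h1, A.Mx_Mx]
  congr 2
  refine Lp.ext ?_
  filter_upwards [A.coe_mulH f (A.mem_bdd f hf) (Mx (a' + a) h), A.coe_Mx (a' + a) h,
    A.coe_mulH _ (A.mem_bdd _ hw) h] with x h1 h2 h3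
  rw [h1, h2, h3, mul_assoc]

theorem lt_eq_FamA (A : Api n) {f : E n → ℂ} (hf : ∀ x, 1 / 2 < ‖x‖ → f x = 0) {a : E n}
    (hw : Bdd fun x => f x * exf a 0 x) (b b' : E n) :
    lt f a (b + b') = pr (mulH (fun x => f x * exf a 0 x) (ex 0 b)) (ex 0 b') := by
  rw [A.pr_eq, lt, ← setIntegral_eq_integral_of_forall_compl_eq_zero (s := ball (0 : E n) 1)
    fun x hx => by
      rw [hf x (by rw [mem_ball_zero_iff, not_lt] at hx; linarith), zero_mul]]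
  refine integral_congr_ae (μ := mu n) ?_
  filter_upwards [A.coe_mulH _ (A.mem_bdd _ hw) (ex 0 b), A.coe_ex 0 b, A.coe_ex 0 b']
    with x h1 h2 h3
  rw [h1, h2, h3, mul_assoc, mul_assoc, ← A.exf_add, ← A.exf_add]
  simp

theorem bil_FamA {Y F : Type} [NormedAddCommGroup Y] [NormedSpace ℝ Y] [NormedAddCommGroup F]
    [NormedSpace ℂ F] [NormedSpace ℝ F] [IsScalarTower ℝ ℂ F] (β : F →L[ℂ] F →L[ℂ] ℂ)
    (T : F →L[ℂ] F) {u v : Y → F} {s : Set Y} (hu : ContDiffOn ℝ 1 u s)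
    (hv : ContDiffOn ℝ 1 v s) : ContDiffOn ℝ 1 (fun x => β (T (u x)) (v x)) s :=
  (β.bilinearRestrictScalars ℝ).isBoundedBilinearMap.contDiff.comp_contDiffOn
    (((T.restrictScalars ℝ).contDiff.comp_contDiffOn hu).prodMk hv)

theorem c1_FamA (e : E n) (f : E n → ℂ) {a₀ : ℝ} {u₁ u₂ : E n × E n → H n}
    (h₁ : ContDiffOn ℝ 1 u₁ {y | a₀ < ‖y.1‖}) (h₂ : ContDiffOn ℝ 1 u₂ {y | a₀ < ‖y.1‖}) :
    ContDiffOn ℝ 1 (FF e f u₁ u₂) {x | x.1 ∈ Ob e a₀} := by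
  have g₁ : ContDiff ℝ 1 fun x : X n => (a1 e x.1, x.2.1) := by
    unfold a1
    fun_prop
  have g₂ : ContDiff ℝ 1 fun x : X n => (a2 e x.1, x.2.2) := by
    unfold a2
    fun_prop
  exact bil_FamA pr (mulH f)
    (h₁.comp (s := {x : X n | x.1 ∈ Ob e a₀}) g₁.contDiffOn fun x hx => hx.1)
    (h₂.comp (s := {x : X n | x.1 ∈ Ob e a₀}) g₂.contDiffOn fun x hx => hx.2)

theorem famAStmt {n : ℕ} (A : Api n) : FamAStmt n := by
  intro e he q₁ q₂ f hq₁ hq₂ hf hf0 Cw hCw hW C a₀ hC ha₀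
  obtain ⟨c, hc, hex⟩ := A.norm_ex
  obtain ⟨Q, hQ⟩ := hf.2
  have hQ0 : 0 ≤ Q := (norm_nonneg _).trans (hQ 0)
  refine ⟨Q * (C * C) + Q * (c * C) + 4 * Cw * (C * C),
    fun C' hC' lam tau hl hl1 ρ Φ₁ Φ₂ => ?_⟩
  have b1 : 0 ≤ Q * (C * C) := by positivity
  have b2 : 0 ≤ Q * (c * C) := by positivity
  have b3 : 0 ≤ 4 * Cw * (C * C) := by positivity
  have hw : ∀ s : ℝ, 0 ≤ s → Bdd fun x => f x * exf (s • e) 0 x := fun s hs =>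
    ⟨hf.1.mul (A.cont_exf.comp (by fun_prop :
      Continuous fun x : E n => ((s • e, (0 : E n)), x))).measurable, _,
      bound_FamA A he hQ hf0 hs⟩
  have hT : ∀ s : ℝ, 0 ≤ s → ∀ (h k : H n) (x y : ℝ), ‖h‖ ≤ x → ‖k‖ ≤ y →
      ‖pr (mulH (fun x => f x * exf (s • e) 0 x) h) k‖ ≤ Q * Real.exp (π * s) * (x * y) := by
    intro s hs h k x y hx hy
    refine (A.pr_le _ _).trans ?_
    rw [← mul_assoc]
    refine mul_le_mul ((ContinuousLinearMap.le_opNorm _ _).trans (mul_le_mul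
      (A.norm_mulH _ _ (by positivity) fun x _ => bound_FamA A he hQ hf0 hs x) hx (norm_nonneg _)
      (by positivity))) hy (norm_nonneg _) ?_
    have := (norm_nonneg _).trans hx
    positivity
  have hF : ∀ x : X n, x.1 ∈ Ob e a₀ → 0 ≤ x.1.1 → FF e f Φ₁.u Φ₂.u x =
      pr (mulH (fun y => f y * exf (x.1.1 • e) 0 y) (Φ₁.U (a1 e x.1, x.2.1)))
        (Φ₂.U (a2 e x.1, x.2.2)) := by
    intro x hx hs
    have e1 : a2 e x.1 + a1 e x.1 = x.1.1 • e := by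
      rw [a1, a2, sub_add_add_cancel, ← add_smul, add_halves]
    rw [FF, Φ₁.cj (a1 e x.1, x.2.1) hx.1, Φ₂.cj (a2 e x.1, x.2.2) hx.2,
      pr_eq_FamA A hf (by rw [e1]; exact hw _ hs), e1]
  refine ⟨c1_FamA e f Φ₁.c1 Φ₂.c1, fun x hx hs => ?_, fun x hx hs => ?_,
    fun x hx hs hr h1 h2 => ?_⟩
  · rw [hF x hx hs]
    refine (hT _ hs _ _ _ _ (Φ₁.bdd (a1 e x.1, x.2.1) hx.1)
      (Φ₂.bdd (a2 e x.1, x.2.2) hx.2)).trans ?_
    rw [mul_right_comm]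
    exact mul_le_mul_of_nonneg_right (by linarith) (Real.exp_pos _).le
  · have key : ∀ (T : H n →L[ℂ] H n) (u v u' v' : H n),
        pr (T u) v - pr (T u') v' = pr (T (u - u')) v + pr (T u') (v - v') := by
      intro T u v u' v'
      simp only [map_sub, sub_apply]
      ring
    rw [hF x hx hs, lt_eq_FamA A hf0 (hw _ hs), key]
    refine (norm_add_le_of_le (hT _ hs _ _ _ _ (Φ₁.lim (a1 e x.1, x.2.1) hx.1)
      (Φ₂.bdd (a2 e x.1, x.2.2) hx.2)) (hT _ hs _ _ c _ (by simpa using hex 0 x.2.1)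
        (Φ₂.lim (a2 e x.1, x.2.2) hx.2))).trans ?_
    have h1 : Q * (C * C) * ‖a1 e x.1‖⁻¹ ≤ C' * ‖a1 e x.1‖⁻¹ :=
      mul_le_mul_of_nonneg_right (by linarith) (by positivity)
    have h2 : Q * (c * C) * ‖a2 e x.1‖⁻¹ ≤ C' * ‖a2 e x.1‖⁻¹ :=
      mul_le_mul_of_nonneg_right (by linarith) (by positivity)
    have h3 := mul_le_mul_of_nonneg_left (add_le_add h1 h2) (Real.exp_pos (π * x.1.1)).le
    simp only [div_eq_mul_inv]
    linarith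
  · obtain ⟨k₁, hk₁, w₁⟩ := Φ₁.weak (a1 e x.1, x.2.1) hx.1 h1
    obtain ⟨k₂, hk₂, w₂⟩ := Φ₂.weak (a2 e x.1, x.2.2) hx.2 h2
    have hn : ‖(x.1.1 / 2) • e‖ = x.1.1 / 2 := by
      rw [norm_smul, he, mul_one, Real.norm_of_nonneg (by positivity)]
    have n₁ : ‖a1 e x.1‖ ≤ 21 / 40 * x.1.1 := (norm_add_le _ _).trans (by linarith)
    have n₂ : ‖a2 e x.1‖ ≤ 21 / 40 * x.1.1 := (norm_sub_le _ _).trans (by linarith)
    have r₁ := res_le_FamA A hq₁ n₁ hk₁ (Φ₁.u (a1 e x.1, x.2.1))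
    have r₂ := res_le_FamA A hq₂ n₂ hk₂ (Φ₂.u (a2 e x.1, x.2.2))
    have u₁ : ∀ r, r ≤ 1 → nb r (Φ₁.u (a1 e x.1, x.2.1)) ≤ _ := fun r h1 =>
      nb_le_FamA A h1 n₁ (Φ₁.bdd (a1 e x.1, x.2.1) hx.1)
        (by rw [Φ₁.cj (a1 e x.1, x.2.1) hx.1])
    have u₂ : ∀ r, r ≤ 1 → nb r (Φ₂.u (a2 e x.1, x.2.2)) ≤ _ := fun r h1 =>
      nb_le_FamA A h1 n₂ (Φ₂.bdd (a2 e x.1, x.2.2) hx.2)
        (by rw [Φ₂.cj (a2 e x.1, x.2.2) hx.2])
    have hp := mul_nonneg Real.pi_pos.le hs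
    obtain ⟨α, hα⟩ : ∃ α, α = Real.exp (2 * π * (21 / 40 * x.1.1 * (2 / 5))) := ⟨_, rfl⟩
    obtain ⟨β, hβ⟩ : ∃ β, β = Real.exp (2 * π * (21 / 40 * x.1.1 * (1 / 2))) := ⟨_, rfl⟩
    have hα0 : 0 ≤ α := hα ▸ (Real.exp_pos _).le
    have hβ0 : 0 ≤ β := hβ ▸ (Real.exp_pos _).le
    have e1 : α * β ≤ Real.exp (π * x.1.1 - π * x.1.1 / 20) := by
      rw [hα, hβ, ← Real.exp_add, Real.exp_le_exp]
      linarith
    have e2 : β * β ≤ Real.exp (4 * π * x.1.1) := by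
      rw [hβ, ← Real.exp_add, Real.exp_le_exp]
      linarith
    have t : β * (C * lam) ≤ β * C :=
      mul_le_mul_of_nonneg_left (mul_le_of_le_one_right hC hl1) hβ0
    have s₁ := add_le_add (u₁ (2 / 5) (by norm_num)) r₁
    have s₂ := add_le_add (u₂ (2 / 5) (by norm_num)) r₂
    have s₃ := add_le_add (u₁ (1 / 2) (by norm_num)) r₁
    have s₄ := add_le_add (u₂ (1 / 2) (by norm_num)) r₂
    rw [← hβ] at s₁ s₂ s₃ s₄
    rw [← hα] at s₁ s₂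
    refine (hW _ _ _ _ w₁ w₂).trans ((mul_le_mul_of_nonneg_left (add_le_add
      (mul_le_mul s₁ (s₄.trans (add_le_add le_rfl t))
        (add_nonneg (nb_nonneg_FamA _ _) (nb_nonneg_FamA _ _)) (by positivity))
      (mul_le_mul (s₃.trans (add_le_add le_rfl t)) s₂
        (add_nonneg (nb_nonneg_FamA _ _) (nb_nonneg_FamA _ _)) (by positivity))) hCw).trans ?_)
    have hC4 : 4 * Cw * (C * C) ≤ C' := by linarith
    have f1 := mul_le_mul hC4 e1 (by positivity) (b3.trans hC4)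
    have f2 := mul_le_mul (mul_le_mul_of_nonneg_right hC4 hl.le) e2 (by positivity)
      (mul_nonneg (b3.trans hC4) hl.le)
    linarith

end Pool.Agent.MP_71da5e_an.L

end

section

namespace Pool.Agent.MP_71da5e_an.L

open MeasureTheory Metric Set Laplacian Complex
open scoped ContDiff RealInnerProductSpace ENNReal Real ComplexConjugate

variable {n : ℕ}

lemma nsq_nonneg_Fld (u : V n) : 0 ≤ nsq u := Finset.sum_nonneg fun _ _ => sq_nonneg _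

lemma entry_Fld (u : V n) (k : Fin n) : ‖u k‖ ≤ √(nsq u) :=
  Real.le_sqrt_of_sq_le (Finset.single_le_sum (f := fun k => ‖u k‖ ^ 2)
    (fun _ _ => sq_nonneg _) (Finset.mem_univ k))

lemma ek_Fld {e : E n} (he : ‖e‖ = 1) (k : Fin n) : ‖((e k : ℝ) : ℂ)‖ ≤ 1 := by
  rw [Complex.norm_real, ← he]
  exact PiLp.norm_apply_le e k

lemma bd_le_Fld {u v : V n} {a b : ℝ} (ha : 0 ≤ a) (hu : ∀ k, ‖u k‖ ≤ a) (hv : ∀ k, ‖v k‖ ≤ b) :
    ‖bd u v‖ ≤ n * (a * b) := by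
  refine (norm_sum_le _ _).trans ?_
  have : ∀ k ∈ (Finset.univ : Finset (Fin n)), ‖u k * v k‖ ≤ a * b := fun k _ => by
    rw [norm_mul]; exact mul_le_mul (hu k) (hv k) (norm_nonneg _) ha
  simpa using Finset.sum_le_card_nsmul _ _ _ this

lemma nsq_le_Fld {u : V n} {a : ℝ} (hu : ∀ k, ‖u k‖ ≤ a) : nsq u ≤ n * a ^ 2 := by
  have : ∀ k ∈ (Finset.univ : Finset (Fin n)), ‖u k‖ ^ 2 ≤ a ^ 2 := fun k _ =>
    pow_le_pow_left₀ (norm_nonneg _) (hu k) 2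
  simpa [nsq] using Finset.sum_le_card_nsmul _ _ _ this

lemma ite_le_Fld {c : Prop} [Decidable c] {z : ℂ} {a : ℝ} (h : ‖z‖ ≤ a) :
    ‖(if c then z else 0 : ℂ)‖ ≤ a := by
  split_ifs
  · exact h
  · simpa using (norm_nonneg _).trans h

lemma size_Fld {e : E n} (he : ‖e‖ = 1) (ζ : V n × V n) :
    let w := √(nsq ζ.1) * √(nsq ζ.2)
    (∀ l m, ‖(fH e l m ζ).1‖ ≤ 2 * w ∧ (∀ k, ‖(fH e l m ζ).2 k‖ ≤ (2 * n + 1) * w) ∧
      (∀ k, ‖X1 e (fH e l m ζ) k‖ ≤ (2 * n + 1) * w) ∧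
      (∀ k, ‖X2 e (fH e l m ζ) k‖ ≤ (2 * n + 1) * w)) ∧
    ∀ k i, ‖(fL k ζ).2 i‖ ≤ (n + 2) * w := by
  intro w
  have hA := Real.sqrt_nonneg (nsq ζ.1)
  have hB := Real.sqrt_nonneg (nsq ζ.2)
  have hw : 0 ≤ w := mul_nonneg hA hB
  have hm : ∀ i j, ‖ζ.1 i * ζ.2 j‖ ≤ w := fun i j => by
    rw [norm_mul]; exact mul_le_mul (entry_Fld _ _) (entry_Fld _ _) (norm_nonneg _) hA
  have hm' : ∀ i j, ‖ζ.2 j * ζ.1 i‖ ≤ w := fun i j => by rw [mul_comm]; exact hm i j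
  have hnv : ∀ k, ‖nv e ζ k‖ ≤ n * w := fun k => by
    have h1 : ‖bd (rc e) ζ.1‖ ≤ n * (1 * √(nsq ζ.1)) :=
      bd_le_Fld zero_le_one (ek_Fld he) (entry_Fld _)
    have h2 : ‖bd (rc e) ζ.2‖ ≤ n * (1 * √(nsq ζ.2)) :=
      bd_le_Fld zero_le_one (ek_Fld he) (entry_Fld _)
    have h3 : ‖bd (rc e) ζ.1 * ζ.2 k‖ ≤ n * w := by
      rw [norm_mul]
      calc _ ≤ n * (1 * √(nsq ζ.1)) * √(nsq ζ.2) :=
            mul_le_mul h1 (entry_Fld _ _) (norm_nonneg _) (by positivity)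
        _ = n * w := by simp only [w]; ring
    have h4 : ‖bd (rc e) ζ.2 * ζ.1 k‖ ≤ n * w := by
      rw [norm_mul]
      calc _ ≤ n * (1 * √(nsq ζ.2)) * √(nsq ζ.1) :=
            mul_le_mul h2 (entry_Fld _ _) (norm_nonneg _) (by positivity)
        _ = n * w := by simp only [w]; ring
    have h5 := norm_add_le (bd (rc e) ζ.1 * ζ.2 k) (bd (rc e) ζ.2 * ζ.1 k)
    unfold nv
    rw [norm_div, Complex.norm_two]
    linarith
  refine ⟨fun l m => ?_, fun k i => ?_⟩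
  · have h1 : ‖(fH e l m ζ).1‖ ≤ 2 * w := by
      have := norm_sub_le (ζ.1 l * ζ.2 m) (ζ.1 m * ζ.2 l)
      have := hm l m
      have := hm m l
      show ‖ζ.1 l * ζ.2 m - ζ.1 m * ζ.2 l‖ ≤ 2 * w
      linarith
    have h2 : ∀ k, ‖(fH e l m ζ).2 k‖ ≤ 2 * n * w := fun k => by
      refine (norm_sub_le _ _).trans ?_
      have := ite_le_Fld (c := k = m) (hnv l)
      have := ite_le_Fld (c := k = l) (hnv m)
      linarith
    have h3 : ∀ k, ‖(fH e l m ζ).1 * (e k : ℂ) / 2‖ ≤ w := fun k => by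
      rw [norm_div, norm_mul, Complex.norm_two]
      have := mul_le_mul h1 (ek_Fld he k) (norm_nonneg _) (by positivity)
      linarith
    refine ⟨h1, fun k => by nlinarith [h2 k], fun k => ?_, fun k => ?_⟩
    · refine (norm_add_le _ _).trans ?_
      nlinarith [h2 k, h3 k]
    · refine (norm_sub_le _ _).trans ?_
      nlinarith [h2 k, h3 k]
  · have h1 : ‖bd ζ.1 ζ.2‖ ≤ n * w := bd_le_Fld hA (entry_Fld _) (entry_Fld _)
    refine (norm_sub_le _ _).trans ?_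
    have h2 := norm_add_le (ζ.1 k * ζ.2 i) (ζ.2 k * ζ.1 i)
    have := ite_le_Fld (c := i = k) h1
    nlinarith [hm k i, hm' i k]

lemma smooth_ite_Fld (c : Prop) [Decidable c] {g : V n × V n → ℂ} (hg : ContDiff ℂ ∞ g) :
    ContDiff ℂ ∞ fun ζ => (if c then g ζ else 0 : ℂ) := by
  split_ifs
  · exact hg
  · exact contDiff_const

lemma smooth_nv_Fld (e : E n) (k : Fin n) : ContDiff ℂ ∞ fun ζ : V n × V n => nv e ζ k := by
  unfold nv bd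
  fun_prop

lemma bd_ite_Fld (m : Fin n) (c : ℂ) (v : V n) :
    ∑ k, (if k = m then c else 0) * v k = c * v m := by
  simp [ite_mul]

theorem fld (n : ℕ) : Fld n where
  smH e l m := by
    unfold fH
    refine ContDiff.prodMk (by fun_prop) (contDiff_pi.2 fun k => ?_)
    exact (smooth_ite_Fld _ (smooth_nv_Fld e l)).sub (smooth_ite_Fld _ (smooth_nv_Fld e m))
  smL k := by
    unfold fL
    refine ContDiff.prodMk contDiff_const (contDiff_pi.2 fun i => ?_)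
    refine ContDiff.sub (by fun_prop) (smooth_ite_Fld _ ?_)
    unfold bd
    fun_prop
  tanH e l m ζ := by
    have h1 : ∀ v : V n, ∑ k, (fH e l m ζ).1 * (e k : ℂ) / 2 * v k =
        (fH e l m ζ).1 * bd (rc e) v / 2 := fun v => by
      unfold bd rc
      rw [Finset.mul_sum, Finset.sum_div]
      exact Finset.sum_congr rfl fun k _ => by ring
    have h2 : ∀ v : V n, ∑ k, (fH e l m ζ).2 k * v k = nv e ζ l * v m - nv e ζ m * v l := fun v => by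
      simp only [fH, sub_mul, Finset.sum_sub_distrib, bd_ite_Fld]
    constructor
    · simp only [bd, X1, add_mul, Finset.sum_add_distrib]
      rw [h1, h2]
      simp only [fH, nv]
      ring
    · simp only [bd, X2, sub_mul, Finset.sum_sub_distrib]
      rw [h1, h2]
      simp only [fH, nv]
      ring
  tanL k ζ := by
    have h : ∀ v : V n, bd (fL k ζ).2 v =
        ζ.1 k * bd ζ.2 v + ζ.2 k * bd ζ.1 v - bd ζ.1 ζ.2 * v k := fun v => by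
      rw [← bd_ite_Fld k (bd ζ.1 ζ.2) v]
      conv_lhs => unfold bd
      simp only [fL, sub_mul, add_mul, Finset.sum_sub_distrib, Finset.sum_add_distrib]
      congr 2
      · unfold bd; rw [Finset.mul_sum]; exact Finset.sum_congr rfl fun i _ => by ring
      · unfold bd; rw [Finset.mul_sum]; exact Finset.sum_congr rfl fun i _ => by ring
    have hc : bd ζ.2 ζ.1 = bd ζ.1 ζ.2 := Finset.sum_congr rfl fun i _ => mul_comm _ _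
    constructor
    · rw [h, hc]; ring
    · rw [h]; ring
  XL e k ζ := by
    refine ⟨rfl, funext fun i => ?_, funext fun i => ?_⟩
    · simp [X1, fL]
    · simp [X2, fL]
  size := by
    refine ⟨4 + n * (2 * n + 2) ^ 2, by positivity, fun e he ζ => ?_⟩
    obtain ⟨h1, h2⟩ := size_Fld he ζ
    set w := √(nsq ζ.1) * √(nsq ζ.2) with hw
    have hw0 : 0 ≤ w := by positivity
    have hw2 : nsq ζ.1 * nsq ζ.2 = w ^ 2 := by
      rw [hw, mul_pow, Real.sq_sqrt (nsq_nonneg_Fld _), Real.sq_sqrt (nsq_nonneg_Fld _)]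
    have hn : (0 : ℝ) ≤ n := Nat.cast_nonneg n
    have key : ∀ (u : V n) (c : ℝ), 0 ≤ c → c ≤ 2 * n + 2 → (∀ k, ‖u k‖ ≤ c * w) →
        nsq u ≤ n * (2 * n + 2) ^ 2 * w ^ 2 := fun u c hc hc' hu => by
      have := nsq_le_Fld (fun k => (hu k).trans (mul_le_mul_of_nonneg_right hc' hw0))
      rw [mul_pow] at this
      linarith
    rw [hw2]
    refine ⟨fun l m => ?_, fun k => ?_⟩
    · obtain ⟨a, b, c, d⟩ := h1 l m
      have a' := pow_le_pow_left₀ (norm_nonneg _) a 2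
      have b' := key _ _ (by positivity) (by linarith) b
      have c' := key _ _ (by positivity) (by linarith) c
      have d' := key _ _ (by positivity) (by linarith) d
      refine ⟨by nlinarith, by nlinarith, by nlinarith⟩
    · have := key _ _ (by positivity) (by linarith) (h2 k)
      nlinarith

end Pool.Agent.MP_71da5e_an.L

end

section

namespace Pool.Agent.MP_71da5e_an.L

open MeasureTheory Metric Set Laplacian Complex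
open scoped ContDiff RealInnerProductSpace ENNReal Real ComplexConjugate

theorem exists_unit_Geo {n : ℕ} (hn : 3 ≤ n) (u v : E n) :
    ∃ w : E n, ‖w‖ = 1 ∧ ⟪u, w⟫ = 0 ∧ ⟪v, w⟫ = 0 := by
  obtain ⟨a, ha, ha0⟩ := Submodule.exists_mem_ne_zero_of_ne_bot
    (LinearMap.ker_ne_bot_of_finrank_lt
      (f := (innerSL ℝ u).toLinearMap.prod (innerSL ℝ v).toLinearMap) (by simp; omega))
  obtain ⟨a1, a2⟩ : ⟪u, a⟫ = 0 ∧ ⟪v, a⟫ = 0 := by simpa [Prod.ext_iff] using ha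
  exact ⟨‖a‖⁻¹ • a, norm_smul_inv_norm ha0, by rw [real_inner_smul_right, a1, mul_zero],
    by rw [real_inner_smul_right, a2, mul_zero]⟩

theorem inner_Geo {n : ℕ} {e f g : E n} (he : ‖e‖ = 1) (hf : ‖f‖ = 1) (hg : ‖g‖ = 1)
    (ef : ⟪e, f⟫ = 0) (eg : ⟪e, g⟫ = 0) (fg : ⟪f, g⟫ = 0) (a b c a' b' c' : ℝ) :
    ⟪a • e + b • f + c • g, a' • e + b' • f + c' • g⟫ = a * a' + b * b' + c * c' := by
  simp only [inner_add_left, inner_add_right, real_inner_smul_left, real_inner_smul_right,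
    real_inner_self_eq_norm_sq, he, hf, hg, ef, eg, fg, real_inner_comm e f, real_inner_comm e g,
    real_inner_comm f g]
  ring

theorem le_of_sq_le_sq_Geo {a b : ℝ} (h : a ^ 2 ≤ b ^ 2) (hb : 0 ≤ b) : a ≤ b :=
  le_trans (le_abs_self a) (abs_le_of_sq_le_sq' h hb |> fun k => abs_le.2 k)

theorem geoStmt {n : ℕ} (hn : 3 ≤ n) (A : Api n) : GeoStmt n := by
  intro e ξ he hξ s ϱ hs h1 h2
  obtain ⟨f, hf, ef, hx⟩ : ∃ f : E n, ‖f‖ = 1 ∧ ⟪e, f⟫ = 0 ∧ ξ = ‖ξ‖ • f := by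
    by_cases h : ξ = 0
    · obtain ⟨w, w1, w2, -⟩ := exists_unit_Geo hn e e
      exact ⟨w, w1, w2, by simp [h]⟩
    · exact ⟨‖ξ‖⁻¹ • ξ, norm_smul_inv_norm h,
        by rw [real_inner_smul_right, real_inner_comm, hξ, mul_zero],
        by rw [smul_smul, mul_inv_cancel₀ (norm_ne_zero_iff.2 h), one_smul]⟩
  obtain ⟨g, hg, eg, fg⟩ := exists_unit_Geo hn e f
  have I := inner_Geo he hf hg ef eg fg
  obtain ⟨t, ht⟩ : ∃ t, ‖ξ‖ = t * s := ⟨‖ξ‖ / s, by field_simp⟩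
  have t0 : 0 ≤ t := nonneg_of_mul_nonneg_left (ht ▸ norm_nonneg ξ) hs
  have t1 : t ≤ 1 := le_of_mul_le_mul_right (by linarith) hs
  have q0 : 0 ≤ (1 - t ^ 2) * (ϱ ^ 2 - s ^ 2 / 4) := mul_nonneg (by nlinarith) (by nlinarith)
  obtain ⟨q, hq⟩ : ∃ q : ℝ, q * q = (1 - t ^ 2) * (ϱ ^ 2 - s ^ 2 / 4) :=
    ⟨√_, Real.mul_self_sqrt q0⟩
  have z : ∀ a c b : ℝ, a * a + c * c = b * b →
      pz (a • e + (0 : ℝ) • f + c • g) ((0 : ℝ) • e + b • f + (0 : ℝ) • g) = 0 := fun a c b h => by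
    rw [A.pz_eq, ← real_inner_self_eq_norm_sq, ← real_inner_self_eq_norm_sq, I, I, I,
      show a * a + 0 * 0 + c * c - (0 * 0 + b * b + 0 * 0) = 0 by linarith]
    simp
  have hr : ‖(t * ϱ) • e + (0 : ℝ) • f + q • g‖ ^ 2 = ϱ ^ 2 - (1 - t ^ 2) * s ^ 2 / 4 := by
    rw [← real_inner_self_eq_norm_sq, I, hq]; ring
  have k1 : 0 ≤ (1 - t ^ 2) * s ^ 2 := mul_nonneg (by nlinarith) (sq_nonneg _)
  refine ⟨(t * ϱ) • e + (0 : ℝ) • f + q • g, (0 : ℝ) • e + (t * s / 2 + ϱ) • f + (0 : ℝ) • g,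
    (0 : ℝ) • e + (t * s / 2 - ϱ) • f + (0 : ℝ) • g, ?_, ?_, ?_, ?_, ?_⟩
  · rw [hx, ht]; module
  · rw [← z (s / 2 + t * ϱ) q (t * s / 2 + ϱ) (by rw [hq]; ring)]
    congr 1
    simp only [a1]; module
  · rw [← z (s / 2 - t * ϱ) (-q) (t * s / 2 - ϱ) (by rw [neg_mul_neg, hq]; ring)]
    congr 1
    simp only [a2]; module
  · refine le_of_sq_le_sq_Geo ?_ (norm_nonneg _)
    rw [hr]
    nlinarith [mul_nonneg (sq_nonneg t) (sq_nonneg s)]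
  · refine le_of_sq_le_sq_Geo ?_ (by linarith)
    rw [hr]
    linarith

end Pool.Agent.MP_71da5e_an.L

end

section

namespace Pool.Agent.MP_71da5e_an.L

open MeasureTheory Metric Set Laplacian Complex
open scoped ContDiff RealInnerProductSpace ENNReal Real ComplexConjugate

theorem D2_Off {n : ℕ} {m : B n → ℝ} {D : Set (B n)} (hD : IsOpen D) (hm : ContDiffOn ℝ ∞ m D)
    {u : X n → B n} (hu : Continuous u) :
    ContinuousOn (fun x : X n => D2 m x.1 (u x)) {x | x.1 ∈ D} := by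
  have h1 : ContDiffOn ℝ 1 (fderiv ℝ m) D := hm.fderiv_of_isOpen hD (by norm_cast)
  have h2 : ContinuousOn (fun x : X n => fderiv ℝ (fderiv ℝ m) x.1) {x | x.1 ∈ D} :=
    (h1.continuousOn_fderiv_of_isOpen hD le_rfl).comp continuousOn_fst fun _ hx => hx
  refine ((h2.clm_apply hu.continuousOn).clm_apply hu.continuousOn).congr fun x hx => ?_
  have h3 : DifferentiableAt ℝ (fderiv ℝ m) x.1 :=
    (h1.contDiffAt (hD.mem_nhds hx)).differentiableAt one_ne_zero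
  simp only [D2]
  rw [fderiv_clm_apply h3 (differentiableAt_const _)]
  simp

theorem lev_Off {n : ℕ} {m : B n → ℝ} {D : Set (B n)} (hD : IsOpen D) (hm : ContDiffOn ℝ ∞ m D)
    {W : X n → ℂ × V n} (hW : Continuous W) :
    ContinuousOn (fun x : X n => lev m x.1 (W x)) {x | x.1 ∈ D} :=
  (D2_Off hD hm (u := fun x => ((W x).1.re, reV (W x).2)) (by unfold reV; fun_prop)).add
    (D2_Off hD hm (u := fun x => ((W x).1.im, imV (W x).2)) (by unfold imV; fun_prop))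

theorem bound_Off {n : ℕ} (A : Api n) {a b : E n} {M : ℝ} (ha : ‖a‖ ≤ M) (h : ‖pz a b‖ ≤ 1) :
    b ∈ closedBall (0 : E n) (M + 1) := by
  have h1 := (abs_le.1 ((abs_re_le_norm _).trans h)).1
  rw [A.pz_eq, add_re, ofReal_re, re_ofReal_mul, I_re, mul_zero, add_zero] at h1
  have := norm_nonneg a
  rw [mem_closedBall_zero_iff]
  exact abs_le_of_sq_le_sq' (by nlinarith) (by linarith) |>.2

theorem offStmt {n : ℕ} (A : Api n) (Fl : Fld n) (Sm : SmStmt n) : OffStmt n := by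
  intro e K η κ ε β C s₀ x₀ R₀ hs hx h
  have c1 : Continuous (a1 e) := by unfold a1; fun_prop
  have c2 : Continuous (a2 e) := by unfold a2; fun_prop
  have cR : Continuous (R2 (n := n)) := by unfold R2; fun_prop
  have d1 : Continuous (p1 e) :=
    A.smooth_pz.continuous.comp (f := fun x : X n => (a1 e x.1, x.2.1)) (by fun_prop)
  have d2 : Continuous (p2 e) :=
    A.smooth_pz.continuous.comp (f := fun x : X n => (a2 e x.1, x.2.2)) (by fun_prop)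
  have cz : Continuous (zz e) := by unfold zz z1 z2 zc; fun_prop
  have hSp : IsClosed (Sp e s₀ x₀ R₀) := by
    have q1 : IsClosed {p : B n | s₀ ≤ p.1} := isClosed_le continuous_const continuous_fst
    have q2 : IsClosed {p : B n | p.1 ^ 2 / 3200 ≤ ‖p.2‖ ^ 2} :=
      isClosed_le (by fun_prop) (by fun_prop)
    have q3 : IsClosed {p : B n | x₀ ^ 2 * p.1 ^ 2 ≤ ‖a1 e p‖ ^ 2} :=
      isClosed_le (by fun_prop) (by fun_prop)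
    have q4 : IsClosed {p : B n | x₀ ^ 2 * p.1 ^ 2 ≤ ‖a2 e p‖ ^ 2} :=
      isClosed_le (by fun_prop) (by fun_prop)
    have q5 : IsClosed {p : B n | R2 p ≤ 2 * R₀ ^ 2} := isClosed_le cR continuous_const
    exact (q1.inter (q2.inter (q3.inter q4))).inter q5
  have hD : Sp e s₀ x₀ R₀ ⊆ Dm e := by
    rintro p ⟨⟨g1, -, g3, g4⟩, -⟩
    have h0 : 0 < p.1 := hs.trans_le g1
    have : 0 < x₀ ^ 2 * p.1 ^ 2 := by positivity
    refine ⟨h0, fun e0 => ?_, fun e0 => ?_⟩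
    · rw [e0, norm_zero] at g3
      linarith
    · rw [e0, norm_zero] at g4
      linarith
  let K0 : Set (X n) := {x | x.1 ∈ Sp e s₀ x₀ R₀ ∧ ‖p1 e x‖ ≤ 1 ∧ ‖p2 e x‖ ≤ 1}
  have hK0 : IsClosed K0 := (hSp.preimage continuous_fst).inter
    ((isClosed_le d1.norm continuous_const).inter (isClosed_le d2.norm continuous_const))
  have hS := isCompact_closedBall (0 : B n) (2 * R₀ ^ 2 + 1)
  obtain ⟨M1, hM1⟩ := hS.exists_bound_of_continuousOn c1.continuousOn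
  obtain ⟨M2, hM2⟩ := hS.exists_bound_of_continuousOn c2.continuousOn
  have hK : IsCompact K0 := by
    refine (hS.prod ((isCompact_closedBall (0 : E n) (M1 + 1)).prod
      (isCompact_closedBall (0 : E n) (M2 + 1)))).of_isClosed_subset hK0 ?_
    rintro x ⟨⟨-, g⟩, g1, g2⟩
    have hb : x.1 ∈ closedBall (0 : B n) (2 * R₀ ^ 2 + 1) := by
      rw [mem_closedBall_zero_iff, Prod.norm_def, max_le_iff, Real.norm_eq_abs, abs_le]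
      unfold R2 at g
      refine ⟨⟨?_, ?_⟩, ?_⟩ <;>
        nlinarith [sq_nonneg (x.1.1 - 1), sq_nonneg (x.1.1 + 1), sq_nonneg (‖x.1.2‖ - 1),
          sq_nonneg ‖x.1.2‖, sq_nonneg x.1.1]
    exact ⟨hb, bound_Off A (hM1 _ hb) g1, bound_Off A (hM2 _ hb) g2⟩
  have hR : ∀ x : X n, x.1 ∈ Dm e → √(R2 x.1) ≠ 0 := fun x hx => by
    have := hx.1
    refine (Real.sqrt_pos.2 ?_).ne'
    unfold R2
    positivity
  have hL : ContinuousOn (Lam e K η κ ε β) {x | x.1 ∈ Dm e} := by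
    refine continuousOn_const.mul (ContinuousOn.add
      (((continuous_fst.comp continuous_fst).continuousOn.inv₀ fun x hx => hx.1.ne').mul
        (continuousOn_finsetSum _ fun k _ => ?_))
      (((cR.comp continuous_fst).sqrt.continuousOn.inv₀ hR).mul
        (continuousOn_finsetSum _ fun l _ => continuousOn_finsetSum _ fun m _ => ?_)))
    · exact lev_Off (Sm e K η κ ε β (1 / 2)).1 (Sm e K η κ ε β (1 / 2)).2
        ((Fl.smL k).continuous.comp cz)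
    · exact lev_Off (Sm e K η κ ε (β + 1 / 4) 0).1 (Sm e K η κ ε (β + 1 / 4) 0).2
        ((Fl.smH e l m).continuous.comp cz)
  have hE : ContinuousOn (Err C) {x : X n | x.1 ∈ Dm e} :=
    continuousOn_const.mul ((cR.comp continuous_fst).sqrt.continuousOn.add
      (ContinuousOn.div (by fun_prop) (by fun_prop) fun x hx => hx.1.ne'))
  have hK1 : IsCompact (K0 ∩ (fun x => Lam e K η κ ε β x - Err C x) ⁻¹' Iic 1) :=
    hK.of_isClosed_subset (((hL.sub hE).mono fun x hx => hD hx.1).preimage_isClosed_of_isClosed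
      hK0 isClosed_Iic) inter_subset_left
  obtain ⟨a, ha, hb⟩ := hK1.exists_forall_le' (f := fun x => ‖p1 e x‖ + ‖p2 e x‖)
    (d1.norm.add d2.norm).continuousOn (a := 0) (by
    rintro x ⟨g1, g2⟩
    by_contra hn0
    have hn : ¬ 0 < ‖p1 e x‖ + ‖p2 e x‖ := hn0
    have n1 := norm_nonneg (p1 e x)
    have n2 := norm_nonneg (p2 e x)
    have := h x g1.1 (norm_le_zero_iff.1 (by linarith)) (norm_le_zero_iff.1 (by linarith))
    have g3 : Lam e K η κ ε β x - Err C x ≤ 1 := g2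
    linarith)
  refine ⟨min (a / 3) 1, by positivity, fun x g1 g2 g3 => ?_⟩
  by_contra hn
  have : a ≤ ‖p1 e x‖ + ‖p2 e x‖ := hb x ⟨⟨g1, g2.trans (min_le_right _ _), g3.trans (min_le_right _ _)⟩,
    show Lam e K η κ ε β x - Err C x ≤ 1 by linarith⟩
  have k1 := g2.trans (min_le_left _ _)
  have k2 := g3.trans (min_le_left _ _)
  linarith

end Pool.Agent.MP_71da5e_an.L

end

section

namespace Pool.Agent.MP_71da5e_an.L

open MeasureTheory Metric Set Laplacian Complex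
open scoped ContDiff RealInnerProductSpace ENNReal Real ComplexConjugate

variable {n : ℕ}

lemma hb_Sm {t : ℝ} (ht : 0 < t) : ContDiffAt ℝ ∞ hb t := by
  have h1 : 1 < Real.exp 1 + t⁻¹ :=
    (Real.one_lt_exp_iff.2 one_pos).trans (lt_add_of_pos_right _ (inv_pos.2 ht))
  exact ((contDiffAt_const.add (contDiffAt_inv ℝ ht.ne')).log (by linarith)).log
    (Real.log_pos h1).ne'

lemma a1_Sm (e : E n) : ContDiff ℝ ∞ (a1 e) :=
  ((contDiff_fst.div_const 2).smul contDiff_const).add contDiff_snd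

lemma a2_Sm (e : E n) : ContDiff ℝ ∞ (a2 e) :=
  ((contDiff_fst.div_const 2).smul contDiff_const).sub contDiff_snd

lemma R2_Sm : ContDiff ℝ ∞ (R2 : B n → ℝ) :=
  (contDiff_fst.pow 2).add (contDiff_snd.norm_sq ℝ)

lemma bar_Sm {a : B n → E n} (ha : ContDiff ℝ ∞ a) {p : B n} (h : 0 < p.1) (h0 : a p ≠ 0) :
    ContDiffAt ℝ ∞ (fun p : B n => p.1 * hb (‖a p‖ ^ 2 / p.1 ^ 2)) p := by
  have h1 : ContDiffAt ℝ ∞ (fun p : B n => ‖a p‖ ^ 2 / p.1 ^ 2) p :=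
    (ha.norm_sq ℝ).contDiffAt.div (contDiffAt_fst.pow 2) (by positivity)
  have h2 : 0 < ‖a p‖ ^ 2 / p.1 ^ 2 := div_pos (pow_pos (norm_pos_iff.2 h0) 2) (pow_pos h 2)
  exact contDiffAt_fst.mul (ContDiffAt.comp (g := hb) p (hb_Sm h2) h1)

theorem smStmt (n : ℕ) : SmStmt n := by
  intro e K η κ ε β γ
  refine ⟨(isOpen_lt continuous_const continuous_fst).inter
    ((isOpen_ne_fun (a1_Sm e).continuous continuous_const).inter
      (isOpen_ne_fun (a2_Sm e).continuous continuous_const)), fun p hp => ?_⟩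
  obtain ⟨h, h1, h2⟩ := hp
  have hR : 0 < R2 p := add_pos_of_pos_of_nonneg (pow_pos h 2) (sq_nonneg _)
  have c1 : ContDiffAt ℝ ∞ (fun p : B n => p.1) p := contDiffAt_fst
  have c2 : ContDiffAt ℝ ∞ (R2 : B n → ℝ) p := R2_Sm.contDiffAt
  have c3 : ContDiffAt ℝ ∞ (fun p : B n => p.1 * Real.exp (K * (p.1 / √(R2 p)))) p :=
    c1.mul (contDiffAt_const.mul (c1.div (c2.sqrt hR.ne') (Real.sqrt_pos.2 hR).ne')).exp
  have c4 : ContDiffAt ℝ ∞ (fun p : B n => p.1 * Real.log (R2 p / p.1)) p :=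
    c1.mul ((c2.div c1 h.ne').log (div_pos hR h).ne')
  refine ContDiffAt.contDiffWithinAt ?_
  exact (((((contDiffAt_const.mul c1).sub (contDiffAt_const.mul c3)).add
    (contDiffAt_const.mul ((bar_Sm (a1_Sm e) h h1).add (bar_Sm (a2_Sm e) h h2)))).add
    (contDiffAt_const.mul c4)).add (contDiffAt_const.mul (c2.log hR.ne'))).add
    (contDiffAt_const.mul (c1.log h.ne'))

end Pool.Agent.MP_71da5e_an.L

end

section

namespace Pool.Agent.MP_71da5e_an.L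

open MeasureTheory Metric Set Laplacian Complex
open scoped ContDiff RealInnerProductSpace ENNReal Real ComplexConjugate

lemma hb_Tau {t : ℝ} (ht : 0 ≤ t) : 0 ≤ hb t := by
  refine Real.log_nonneg ?_
  rw [Real.le_log_iff_exp_le (by positivity)]
  exact le_add_of_nonneg_right (by positivity)

lemma mm_Tau {n : ℕ} (e : E n) {K η κ x₀ ε β : ℝ} (P : Par K η κ x₀) (hε : 0 ≤ ε) (hβ : 0 ≤ β)
    {p : B n} (hp : 1 ≤ p.1) : 0 ≤ mm e K η κ ε β 0 p := by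
  have h0 : 0 < p.1 := by linarith
  have h1 : p.1 ^ 2 ≤ R2 p := le_add_of_nonneg_right (sq_nonneg _)
  have h2 : p.1 / √(R2 p) ≤ 1 :=
    div_le_one_of_le₀ (Real.le_sqrt_of_sq_le h1) (Real.sqrt_nonneg _)
  have h3 : η * Real.exp (K * (p.1 / √(R2 p))) ≤ π / 20 :=
    (mul_le_mul_of_nonneg_left (Real.exp_le_exp.2 (mul_le_of_le_one_right P.K_nonneg h2))
      P.η_pos.le).trans P.η_le
  have h4 : 0 ≤ Real.log (R2 p / p.1) :=
    Real.log_nonneg ((one_le_div h0).2 (by nlinarith))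
  have h5 : 0 ≤ Real.log (R2 p) := Real.log_nonneg (by nlinarith)
  have h6 := hb_Tau (t := ‖a1 e p‖ ^ 2 / p.1 ^ 2) (by positivity)
  have h7 := hb_Tau (t := ‖a2 e p‖ ^ 2 / p.1 ^ 2) (by positivity)
  have h8 := P.κ_nonneg
  have h9 : 0 ≤ π * p.1 - η * (p.1 * Real.exp (K * (p.1 / √(R2 p)))) := by
    have := mul_le_mul_of_nonneg_left h3 h0.le
    have := mul_pos Real.pi_pos h0
    nlinarith
  unfold mm mA
  rw [zero_mul, add_zero]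
  positivity

lemma meas_Tau {n : ℕ} (e : E n) (s₀ x₀ R₀ : ℝ) : MeasurableSet (Sp e s₀ x₀ R₀) := by
  unfold Sp Gd a1 a2 R2
  simp only [mem_ofPred_eq]
  measurability

lemma vol_Tau {n : ℕ} (e : E n) (s₀ x₀ R₀ : ℝ) : volume (Sp e s₀ x₀ R₀) ≠ ⊤ := by
  refine (Bornology.IsBounded.measure_lt_top ?_).ne
  refine (isBounded_closedBall (x := (0 : B n)) (r := 1 + 2 * R₀ ^ 2)).subset fun p hp => ?_
  have h : p.1 ^ 2 + ‖p.2‖ ^ 2 ≤ 2 * R₀ ^ 2 := hp.2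
  rw [mem_closedBall_zero_iff, Prod.norm_def, max_le_iff, Real.norm_eq_abs]
  have := sq_abs p.1
  constructor <;> nlinarith [sq_nonneg (|p.1| - 1), sq_nonneg (‖p.2‖ - 1), sq_nonneg p.1,
    sq_nonneg ‖p.2‖]

lemma db_Tau {lam tau : ℝ} (ρ : Reg lam tau) {p : ℂ} (h : lam < ‖p‖) : db ρ.γ p = 0 := by
  have h1 : ρ.γ =ᶠ[nhds p] fun _ => 0 :=
    ((isOpen_lt continuous_const continuous_norm).eventually_mem h).mono fun q hq =>
      ρ.γ_zero q hq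
  simp [db, h1.fderiv_eq]

theorem tauStmt {n : ℕ} (A : Api n) (Up : CaUp n) : TauStmt n := by
  intro e he f C a₀ K η κ x₀ s₀ ε R₀ hC ha P hs hx hε
  obtain ⟨Cu, hCu, Up⟩ := Up
  obtain ⟨M, hM⟩ : ∃ M : ℝ, M = 2 * R₀ ^ 2 * (C * Real.exp (π * (2 * R₀ ^ 2))) ^ 2 := ⟨_, rfl⟩
  obtain ⟨U, hU⟩ : ∃ U : ℝ≥0∞, U = ENNReal.ofReal (Cu * (1 + 4 * R₀ ^ 2) ^ n) := ⟨_, rfl⟩
  have hfin : ENNReal.ofReal M * (2 * (U * U * ENNReal.ofReal π)) * volume (Sp e s₀ x₀ R₀) ≠ ⊤ := by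
    have := vol_Tau e s₀ x₀ R₀
    rw [hU]
    finiteness
  refine ⟨_, ENNReal.toReal_nonneg (a := ENNReal.ofReal M * (2 * (U * U * ENNReal.ofReal π)) *
    volume (Sp e s₀ x₀ R₀)), fun lam tau hl hl1 ρ F hF => ?_⟩
  rw [ENNReal.ofReal_toReal hfin]
  let k₁ : ℂ → ℝ≥0∞ := fun p => ENNReal.ofReal (‖p * db ρ.γ p‖ ^ 2)
  let k₂ : ℂ → ℝ≥0∞ := fun p => ENNReal.ofReal (‖ρ.γ p‖ ^ 2)
  have hd : Continuous (db ρ.γ) := by
    have h1 := ρ.γ_smooth.continuous_fderiv (by simp)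
    exact (h1.clm_apply continuous_const).add
      (continuous_const.mul (h1.clm_apply continuous_const))
  have hγ := ρ.γ_smooth.continuous
  have m₁ : Measurable k₁ := by unfold k₁; fun_prop
  have m₂ : Measurable k₂ := by unfold k₂; fun_prop
  have mz : ∀ a : E n, Measurable (pz a) := fun a =>
    (A.smooth_pz.continuous.comp (Continuous.prodMk_right a)).measurable
  have key : ∀ a : E n, 4 ≤ ‖a‖ → ‖a‖ ≤ 1 + 4 * R₀ ^ 2 →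
      ∫⁻ b, k₁ (pz a b) ≤ U * ENNReal.ofReal tau ∧ ∫⁻ b, k₂ (pz a b) ≤ U * ENNReal.ofReal π := by
    intro a h1 h2
    have h3 : ENNReal.ofReal (Cu * ‖a‖ ^ n) ≤ U := by
      rw [hU]
      exact ENNReal.ofReal_le_ofReal (by gcongr)
    refine ⟨(Up a h1 k₁ m₁ fun p hp => ?_).2.trans (mul_le_mul' h3 ρ.err),
      (Up a h1 k₂ m₂ fun p hp => ?_).2.trans (mul_le_mul' h3 ρ.mass.le)⟩
    · simp [k₁, db_Tau ρ (show lam < ‖p‖ by linarith)]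
    · simp [k₂, ρ.γ_zero p (show lam < ‖p‖ by linarith)]
  have e1 : {x : X n | x.1 ∈ Sp e s₀ x₀ R₀} = Sp e s₀ x₀ R₀ ×ˢ univ := by
    ext x
    simp
  rw [e1, Measure.volume_eq_prod, ← Measure.restrict_prod_eq_prod_univ]
  refine (lintegral_prod_le _).trans ((setLIntegral_mono' (meas_Tau e s₀ x₀ R₀)
    (g := fun _ => ENNReal.ofReal M * (2 * (U * U * ENNReal.ofReal π)) * ENNReal.ofReal tau)
    fun p hp => ?_).trans_eq ?_)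
  swap
  · rw [setLIntegral_const]
    ring
  obtain ⟨⟨h1, -, h2, h3⟩, h4⟩ := hp
  have h4' : p.1 ^ 2 + ‖p.2‖ ^ 2 ≤ 2 * R₀ ^ 2 := h4
  have hx0 := P.x_pos
  have h5 : ∀ a : E n, x₀ ^ 2 * p.1 ^ 2 ≤ ‖a‖ ^ 2 → a₀ < ‖a‖ := fun a h => by
    rw [← mul_pow] at h
    exact (hx.trans_le (mul_le_mul_of_nonneg_left h1 hx0.le)).trans_le
      ((le_abs_self _).trans ((sq_le_sq.1 h).trans_eq (abs_norm a)))
  have h6 : ‖(p.1 / 2) • e‖ + ‖p.2‖ ≤ 1 + 4 * R₀ ^ 2 := by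
    rw [norm_smul, he, mul_one, Real.norm_of_nonneg (by linarith)]
    nlinarith [sq_nonneg (p.1 - 1), sq_nonneg (‖p.2‖ - 1), sq_nonneg p.1, sq_nonneg ‖p.2‖]
  obtain ⟨k11, k12⟩ := key (a1 e p) (ha.trans (h5 _ h2).le) ((norm_add_le _ _).trans h6)
  obtain ⟨k21, k22⟩ := key (a2 e p) (ha.trans (h5 _ h3).le) ((norm_sub_le _ _).trans h6)
  have h7 : Real.exp (-2 * mm e K η κ ε (n + 2) 0 p) ≤ 1 := by
    have := mm_Tau e P hε (β := n + 2) (by positivity) (hs.trans h1)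
    exact Real.exp_le_one_iff.2 (by linarith)
  have h8 : Real.exp (π * p.1) ≤ Real.exp (π * (2 * R₀ ^ 2)) :=
    Real.exp_le_exp.2 (mul_le_mul_of_nonneg_left (by nlinarith [sq_nonneg ‖p.2‖]) Real.pi_pos.le)
  have h9 : 0 ≤ R2 p := by unfold R2; positivity
  calc _ ≤ ∫⁻ b : E n × E n, ENNReal.ofReal M * (k₁ (pz (a1 e p) b.1) * k₂ (pz (a2 e p) b.2) +
        k₂ (pz (a1 e p) b.1) * k₁ (pz (a2 e p) b.2)) := by
        refine lintegral_mono fun b => ?_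
        have b1 := (hF.bdd (p, b) ⟨h5 _ h2, h5 _ h3⟩ (by linarith)).trans
          (mul_le_mul_of_nonneg_left h8 hC)
        have b2 : Real.exp (-2 * mm e K η κ ε (n + 2) 0 p) * R2 p * ‖F (p, b)‖ ^ 2 ≤ M := by
          rw [hM, ← one_mul (2 * R₀ ^ 2)]
          gcongr
          rwa [one_mul]
        simp only [k₁, k₂]
        rw [← ENNReal.ofReal_mul (by positivity), ← ENNReal.ofReal_mul (by positivity),
          ← ENNReal.ofReal_add (by positivity) (by positivity),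
          ← ENNReal.ofReal_mul (by rw [hM]; positivity)]
        exact ENNReal.ofReal_le_ofReal (mul_le_mul_of_nonneg_right b2
          (by unfold Reg.ph; positivity))
    _ = ENNReal.ofReal M * ((∫⁻ b, k₁ (pz (a1 e p) b)) * (∫⁻ b, k₂ (pz (a2 e p) b)) +
        (∫⁻ b, k₂ (pz (a1 e p) b)) * ∫⁻ b, k₁ (pz (a2 e p) b)) := by
        have c1 : ∀ a : E n, Measurable fun b => k₁ (pz a b) := fun a => m₁.comp (mz a)
        have c2 : ∀ a : E n, Measurable fun b => k₂ (pz a b) := fun a => m₂.comp (mz a)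
        have c3 : Measurable fun b : E n × E n => k₁ (pz (a1 e p) b.1) * k₂ (pz (a2 e p) b.2) :=
          ((c1 _).comp measurable_fst).mul ((c2 _).comp measurable_snd)
        rw [lintegral_const_mul' _ _ ENNReal.ofReal_ne_top, lintegral_add_left c3,
          Measure.volume_eq_prod, ← lintegral_prod_mul (c1 _).aemeasurable (c2 _).aemeasurable,
          ← lintegral_prod_mul (c2 _).aemeasurable (c1 _).aemeasurable]
    _ ≤ ENNReal.ofReal M * (U * ENNReal.ofReal tau * (U * ENNReal.ofReal π) +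
        U * ENNReal.ofReal π * (U * ENNReal.ofReal tau)) := by gcongr
    _ = _ := by ring

end Pool.Agent.MP_71da5e_an.L

end

section

namespace Pool.Agent.MP_71da5e_an.L

open MeasureTheory Metric Set Laplacian Complex
open scoped ContDiff RealInnerProductSpace ENNReal Real ComplexConjugate

lemma hb_Tg {t : ℝ} (ht : 0 < t) : hb t ≤ t⁻¹ := by
  have h0 := inv_pos.2 ht
  have h1 : 1 < Real.exp 1 := Real.one_lt_exp_iff.2 one_pos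
  refine (Real.log_le_sub_one_of_pos (Real.log_pos (by linarith))).trans ?_
  rw [sub_le_iff_le_add, Real.log_le_iff_le_exp (by linarith), Real.exp_add]
  nlinarith [Real.add_one_le_exp t⁻¹]

lemma bar_Tg {s a : ℝ} (hs : 2 ≤ s) (ha : 3 / 4 * s ^ 2 ≤ a) : s * hb (a ^ 2 / s ^ 2) ≤ 1 := by
  have h0 : 0 < s := by linarith
  have h1 : 0 < a := lt_of_lt_of_le (by positivity) ha
  refine (mul_le_mul_of_nonneg_left (hb_Tg (by positivity)) h0.le).trans ?_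
  rw [inv_div, ← mul_div_assoc, div_le_one (by positivity)]
  have h2 : (3 / 4 * s ^ 2) ^ 2 ≤ a ^ 2 := by gcongr
  nlinarith [mul_nonneg (pow_pos h0 3).le (sub_nonneg.2 hs), pow_pos h0 3]

lemma norm_Tg {n : ℕ} {e : E n} (he : ‖e‖ = 1) {p : B n} (hs : 2 ≤ p.1) (hr : p.1 ^ 2 ≤ ‖p.2‖) :
    3 / 4 * p.1 ^ 2 ≤ ‖a1 e p‖ ∧ 3 / 4 * p.1 ^ 2 ≤ ‖a2 e p‖ := by
  have h : ‖(p.1 / 2) • e‖ = p.1 / 2 := by
    rw [norm_smul, he, mul_one, Real.norm_of_nonneg (by linarith)]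
  have h1 := norm_sub_le (a1 e p) ((p.1 / 2) • e)
  have h2 := norm_sub_le ((p.1 / 2) • e) (a2 e p)
  rw [h, show a1 e p - (p.1 / 2) • e = p.2 from add_sub_cancel_left _ _] at h1
  rw [h, show (p.1 / 2) • e - a2 e p = p.2 from sub_sub_cancel _ _] at h2
  constructor <;> nlinarith

theorem tgStmt {n : ℕ} (Ma : MainStmt n) : TgStmt n := by
  intro e he f C a₀ hC ha
  obtain ⟨K, η, κ, x₀, s₀, ε₀, C₁, hP, hs₀, hε₀, h⟩ := Ma e he f C a₀ hC ha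
  refine ⟨η, max (2 * s₀) 2, Real.exp 6 * C₁, hP.η_pos, fun T hT => ?_⟩
  obtain ⟨ε, hε, h1, h2⟩ : ∃ ε : ℝ, 0 < ε ∧ ε ≤ ε₀ ∧ ε * (2 * T ^ 2) ≤ 1 :=
    ⟨min ε₀ (2 * T ^ 2)⁻¹, by positivity, min_le_left _ _,
      (le_inv_mul_iff₀' (by positivity)).1 (by rw [mul_one]; exact min_le_right _ _)⟩
  obtain ⟨R₀, h3, h4⟩ : ∃ R₀ : ℝ, 2 * T ≤ R₀ ∧ π / 20 ≤ ε * Real.log R₀ :=
    ⟨max (Real.exp (π / 20 / ε)) (2 * T), le_max_right _ _, (div_le_iff₀' hε).1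
      ((Real.le_log_iff_exp_le (by positivity)).2 (le_max_left _ _))⟩
  obtain ⟨lam₀, tau₀, hl, ht, h5⟩ := h ε R₀ hε h1 (by linarith) h4
  refine ⟨lam₀, tau₀, hl, ht, fun lam tau a b c ρ F hA hB => ?_⟩
  have hR : ∀ p ∈ (Tg (max (2 * s₀) 2) T : Set (B n)), R2 p ≤ 2 * T ^ 2 := fun p hp => by
    have : ‖p.2‖ ^ 2 ≤ T ^ 2 := pow_le_pow_left₀ (norm_nonneg _) hp.2.2 2
    have := hp.2.1.trans hp.2.2
    unfold R2
    nlinarith
  have hsub : {x : X n | x.1 ∈ Tg (max (2 * s₀) 2) T} ⊆ {x : X n | x.1 ∈ In e s₀ x₀ R₀} := by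
    intro x hx
    obtain ⟨k1, k2⟩ := max_le_iff.1 hx.1
    obtain ⟨k3, k4⟩ := norm_Tg he k2 hx.2.1
    have k5 := hx.2.1
    have k6 : x₀ ^ 2 ≤ (1 / 2) ^ 2 := pow_le_pow_left₀ hP.x_pos.le hP.x_le 2
    have k7 : 4 ≤ x.1.1 ^ 2 := by nlinarith
    have k8 : ∀ a : ℝ, 3 / 4 * x.1.1 ^ 2 ≤ a → 2 * x₀ ^ 2 * x.1.1 ^ 2 ≤ a ^ 2 := fun a ha => by
      nlinarith
    have k9 : (2 * T) ^ 2 ≤ R₀ ^ 2 := by gcongr
    exact ⟨k1, by nlinarith, k8 _ k3, k8 _ k4, by nlinarith [hR _ hx]⟩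
  have hm : MeasurableSet {x : X n | x.1 ∈ Tg (max (2 * s₀) 2) T} :=
    (measurableSet_le (g := fun x : X n => x.1.1) measurable_const (by fun_prop)).inter
      ((measurableSet_le (f := fun x : X n => x.1.1 ^ 2) (g := fun x => ‖x.1.2‖) (by fun_prop)
        (by fun_prop)).inter
        (measurableSet_le (f := fun x : X n => ‖x.1.2‖) (by fun_prop) measurable_const))
  rw [ENNReal.ofReal_mul (Real.exp_pos 6).le]
  refine le_trans ?_ (mul_le_mul_right ((lintegral_mono_set hsub).trans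
    (h5 lam tau a b c ρ F hA hB)) _)
  rw [← lintegral_const_mul' _ _ ENNReal.ofReal_ne_top]
  refine setLIntegral_mono' hm fun x hx => ?_
  rw [← ENNReal.ofReal_mul (Real.exp_pos 6).le, ← mul_assoc, ← mul_assoc]
  refine ENNReal.ofReal_le_ofReal (mul_le_mul_of_nonneg_right (mul_le_mul_of_nonneg_right ?_
    (mul_nonneg (sq_nonneg _) (sq_nonneg _))) (sq_nonneg _))
  obtain ⟨-, k2⟩ := max_le_iff.1 hx.1
  obtain ⟨k3, k4⟩ := norm_Tg he k2 hx.2.1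
  have k0 : 0 < x.1.1 := by linarith
  have k5 : 0 < R2 x.1 := by unfold R2; positivity
  have k6 : η * x.1.1 ≤ η * (x.1.1 * Real.exp (K * (x.1.1 / √(R2 x.1)))) :=
    mul_le_mul_of_nonneg_left (le_mul_of_one_le_right k0.le
      (Real.one_le_exp (mul_nonneg hP.K_nonneg (by positivity)))) hP.η_pos.le
  have k7 := mul_le_mul_of_nonneg_left (add_le_add (bar_Tg k2 k3) (bar_Tg k2 k4)) hP.κ_nonneg
  have k8 : x.1.1 * Real.log (R2 x.1 / x.1.1) ≤ 2 * T ^ 2 := by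
    have := mul_le_mul_of_nonneg_left (Real.log_le_self (div_pos k5 k0).le) k0.le
    rw [mul_div_cancel₀ _ k0.ne'] at this
    exact this.trans (hR _ hx)
  have k9 := mul_le_mul_of_nonneg_left k8 hε.le
  have := hP.κ_le
  rw [← Real.exp_log (pow_pos k5 _), ← Real.exp_sub, ← Real.exp_add, Real.exp_le_exp, Real.log_pow,
    mm, mA]
  push_cast
  linarith

end Pool.Agent.MP_71da5e_an.L

end
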