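import Pool.Agent.Mg.F71da5ea.G17b4dd
import Pool.Agent.Mg.F71da5ea.G8bae5f
import Pool.Agent.Mg.F71da5ea.G2167db

section

/-! Algebra of complex vectors used for the cone inequalities. -/

namespace Pool.Agent.MP_71da5e_an.L

open scoped RealInnerProductSpace Real ComplexConjugate
open Complex

variable {n : ℕ}

/-- The Hermitian product. -/
noncomputable def hm (u v : V n) : ℂ := ∑ k, u k * conj (v k)

theorem w_nsq_nonneg (u : V n) : 0 ≤ nsq u := Finset.sum_nonneg fun _ _ => sq_nonneg _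

theorem w_norm3 (a b c : ℂ) : ‖a + b + c‖ ^ 2 = ‖a‖ ^ 2 + ‖b‖ ^ 2 + ‖c‖ ^ 2 +
    2 * (a * conj b).re + 2 * (a * conj c).re + 2 * (b * conj c).re := by
  simp only [Complex.sq_norm, normSq_apply, add_re, add_im, mul_re, conj_re, conj_im]
  ring

theorem w_re_hm (α β : ℂ) (p q : V n) :
    ∑ k, (α * p k * conj (β * q k)).re = (α * conj β * hm p q).re := by
  rw [← re_sum, hm, Finset.mul_sum]
  congr 1
  refine Finset.sum_congr rfl fun k _ => ?_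
  rw [map_mul]; ring

theorem w_nsq_smul (α : ℂ) (p : V n) : ∑ k, ‖α * p k‖ ^ 2 = ‖α‖ ^ 2 * nsq p := by
  rw [nsq, Finset.mul_sum]
  refine Finset.sum_congr rfl fun k _ => ?_
  rw [norm_mul, mul_pow]

theorem nsq_comb3 (α β γ : ℂ) (p q w : V n) :
    nsq (fun k => α * p k + β * q k + γ * w k) =
      ‖α‖ ^ 2 * nsq p + ‖β‖ ^ 2 * nsq q + ‖γ‖ ^ 2 * nsq w + 2 * (α * conj β * hm p q).re +
        2 * (α * conj γ * hm p w).re + 2 * (β * conj γ * hm q w).re := by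
  rw [← w_re_hm, ← w_re_hm, ← w_re_hm, ← w_nsq_smul, ← w_nsq_smul, ← w_nsq_smul, nsq]
  simp only [w_norm3, Finset.sum_add_distrib, Finset.mul_sum]

theorem nsq_comb2 (α β : ℂ) (p q : V n) :
    nsq (fun k => α * p k + β * q k) =
      ‖α‖ ^ 2 * nsq p + ‖β‖ ^ 2 * nsq q + 2 * (α * conj β * hm p q).re := by
  have := nsq_comb3 α β 0 p q p
  simpa using this

theorem w_inner_sum (a b : E n) : ⟪a, b⟫ = ∑ k, a k * b k := by
  simp [PiLp.inner_apply, mul_comm]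

theorem w_normsq_sum (a : E n) : ‖a‖ ^ 2 = ∑ k, a k ^ 2 := by
  rw [← real_inner_self_eq_norm_sq, w_inner_sum]
  simp [sq]

theorem w_bd_zc (a b a' b' : E n) : bd (zc a b) (zc a' b') =
    ((⟪a, a'⟫ - ⟪b, b'⟫ : ℝ) : ℂ) + ((⟪a, b'⟫ + ⟪b, a'⟫ : ℝ) : ℂ) * I := by
  simp only [bd, zc, w_inner_sum]
  push_cast
  rw [← Finset.sum_sub_distrib, ← Finset.sum_add_distrib, Finset.sum_mul, ← Finset.sum_add_distrib]
  refine Finset.sum_congr rfl fun k _ => ?_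
  linear_combination ((b k : ℂ) * (b' k : ℂ)) * I_mul_I

theorem w_hm_zc (a b a' b' : E n) : hm (zc a b) (zc a' b') =
    ((⟪a, a'⟫ + ⟪b, b'⟫ : ℝ) : ℂ) + ((⟪b, a'⟫ - ⟪a, b'⟫ : ℝ) : ℂ) * I := by
  simp only [hm, zc, w_inner_sum, map_add, map_mul, conj_ofReal, conj_I]
  push_cast
  rw [← Finset.sum_sub_distrib, ← Finset.sum_add_distrib, Finset.sum_mul, ← Finset.sum_add_distrib]
  refine Finset.sum_congr rfl fun k _ => ?_
  linear_combination (-(b k : ℂ) * (b' k : ℂ)) * I_mul_I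

theorem w_nsq_zc (a b : E n) : nsq (zc a b) = ‖a‖ ^ 2 + ‖b‖ ^ 2 := by
  simp only [nsq, zc, w_normsq_sum, ← Finset.sum_add_distrib]
  refine Finset.sum_congr rfl fun k _ => ?_
  rw [Complex.sq_norm, normSq_add_mul_I]

theorem w_rc_eq (a : E n) : rc a = zc a 0 := by
  funext k; simp [rc, zc]

theorem w_nsq_rc (a : E n) : nsq (rc a) = ‖a‖ ^ 2 := by
  rw [w_rc_eq, w_nsq_zc]; simp

theorem w_bd_comm (u v : V n) : bd u v = bd v u := by
  simp only [bd, mul_comm]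

theorem w_hm_rc (u : V n) (a : E n) : hm u (rc a) = bd (rc a) u := by
  simp only [hm, bd, rc, conj_ofReal, mul_comm]

theorem w_hm_conj (u v : V n) : hm v u = conj (hm u v) := by
  simp only [hm, map_sum, map_mul, conj_conj, mul_comm]

theorem w_bd_rc_zc (y a b : E n) : bd (rc y) (zc a b) = ((⟪y, a⟫ : ℝ) : ℂ) + ((⟪y, b⟫ : ℝ) : ℂ) * I := by
  rw [w_rc_eq, w_bd_zc]; simp

theorem w_hm_sq_le (u v : V n) : ‖hm u v‖ ^ 2 ≤ nsq u * nsq v := by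
  have h1 : ‖hm u v‖ ≤ ∑ k, ‖u k‖ * ‖v k‖ := by
    refine (norm_sum_le _ _).trans (le_of_eq ?_)
    simp
  calc ‖hm u v‖ ^ 2 ≤ (∑ k, ‖u k‖ * ‖v k‖) ^ 2 := pow_le_pow_left₀ (norm_nonneg _) h1 2
    _ ≤ _ := Finset.sum_mul_sq_le_sq_mul_sq _ _ _

theorem w_bd_sq_le (u v : V n) : ‖bd u v‖ ^ 2 ≤ nsq u * nsq v := by
  have h1 : ‖bd u v‖ ≤ ∑ k, ‖u k‖ * ‖v k‖ := by
    refine (norm_sum_le _ _).trans (le_of_eq ?_)
    simp
  calc ‖bd u v‖ ^ 2 ≤ (∑ k, ‖u k‖ * ‖v k‖) ^ 2 := pow_le_pow_left₀ (norm_nonneg _) h1 2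
    _ ≤ _ := Finset.sum_mul_sq_le_sq_mul_sq _ _ _

theorem w_bd_smul (c : ℝ) (y : E n) (v : V n) : bd (rc (c • y)) v = c * bd (rc y) v := by
  simp only [bd, rc, Finset.mul_sum, PiLp.smul_apply, smul_eq_mul]
  push_cast
  exact Finset.sum_congr rfl fun k _ => by ring

/-- The unit vectors. -/
noncomputable def dl (k : Fin n) : V n := fun i => if i = k then 1 else 0

theorem w_nsq_dl (k : Fin n) : nsq (dl k) = 1 := by
  simp only [nsq, dl]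
  rw [Finset.sum_eq_single k] <;> simp +contextual

theorem w_hm_dl (u : V n) (k : Fin n) : hm u (dl k) = u k := by
  simp only [hm, dl]
  rw [Finset.sum_eq_single k] <;> simp +contextual

theorem w_bd_dl (u : V n) (k : Fin n) : bd u (dl k) = u k := by
  simp only [bd, dl]
  rw [Finset.sum_eq_single k] <;> simp +contextual

theorem w_bd_comb3 (α β γ : ℂ) (y p q w : V n) :
    bd y (fun k => α * p k + β * q k + γ * w k) = α * bd y p + β * bd y q + γ * bd y w := by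
  simp only [bd, Finset.mul_sum, ← Finset.sum_add_distrib]
  exact Finset.sum_congr rfl fun k _ => by ring

/-- The Frobenius norm of `z zᵀ / 2 - 2 μ μᵀ - c`. -/
theorem w_NL (z μ : V n) (c : ℂ) :
    ∑ k, nsq (fun i => z k / 2 * z i + -2 * μ k * μ i + -c * dl k i) =
      nsq z ^ 2 / 4 + 4 * nsq μ ^ 2 + n * ‖c‖ ^ 2 - 2 * (hm z μ * hm z μ).re -
        (bd z z * conj c).re + 4 * (bd μ μ * conj c).re := by
  simp only [nsq_comb3, w_nsq_dl, w_hm_dl, Finset.sum_add_distrib, ← Finset.mul_sum,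
    ← Finset.sum_mul, ← re_sum]
  have e1 : ∑ k, ‖z k / 2‖ ^ 2 = nsq z / 4 := by
    rw [nsq, Finset.sum_div]
    exact Finset.sum_congr rfl fun k _ => by simp; ring
  have e2 : ∑ k, ‖-2 * μ k‖ ^ 2 = 4 * nsq μ := by
    rw [w_nsq_smul]; norm_num
  have e3 : ∑ k, z k / 2 * conj (-2 * μ k) = -hm z μ := by
    rw [hm, ← Finset.sum_neg_distrib]
    exact Finset.sum_congr rfl fun k _ => by simp [map_ofNat]; ring
  have e4 : ∑ k, z k / 2 * conj (-c) * z k = -(bd z z * conj c) / 2 := by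
    rw [bd, Finset.sum_mul, ← Finset.sum_neg_distrib, Finset.sum_div]
    exact Finset.sum_congr rfl fun k _ => by simp; ring
  have e5 : ∑ k, -2 * μ k * conj (-c) * μ k = 2 * (bd μ μ * conj c) := by
    rw [bd, Finset.sum_mul, Finset.mul_sum]
    exact Finset.sum_congr rfl fun k _ => by simp; ring
  rw [e1, e2, e3, e4, e5]
  simp
  ring

/-- The Frobenius norm of `z ∧ μ`. -/
theorem w_AH (z μ : V n) :
    ∑ l, ∑ m, ‖z l * μ m - z m * μ l‖ ^ 2 = 2 * (nsq z * nsq μ) - 2 * ‖hm z μ‖ ^ 2 := by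
  have h : ∀ l, ∑ m, ‖z l * μ m - z m * μ l‖ ^ 2 = nsq (fun m => z l * μ m + -μ l * z m) := by
    intro l
    exact Finset.sum_congr rfl fun m _ => by congr 2; ring
  simp only [h, nsq_comb2, Finset.sum_add_distrib, ← Finset.mul_sum, ← Finset.sum_mul, ← re_sum,
    norm_neg]
  have e3 : ∑ k, z k * conj (-μ k) = -hm z μ := by
    rw [hm, ← Finset.sum_neg_distrib]
    exact Finset.sum_congr rfl fun k _ => by simp
  rw [e3, w_hm_conj z μ, neg_mul, mul_conj, Complex.sq_norm]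
  simp only [nsq, neg_re, ofReal_re]
  ring

theorem w_perp (y : E n) (d : V n) (M : ℂ) :
    ‖y‖ ^ 2 * nsq (fun k => d k - M * (y k : ℂ)) - ‖bd (rc y) (fun k => d k - M * (y k : ℂ))‖ ^ 2 =
      ‖y‖ ^ 2 * nsq d - ‖bd (rc y) d‖ ^ 2 := by
  have e : (fun k => d k - M * (y k : ℂ)) = fun k => 1 * d k + -M * rc y k := by
    funext k; simp [rc, sub_eq_add_neg]
  have e2 : bd (rc y) (fun k => 1 * d k + -M * rc y k) = bd (rc y) d - M * ((‖y‖ ^ 2 : ℝ) : ℂ) := by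
    have := w_bd_comb3 1 (-M) 0 (rc y) d (rc y) d
    simp only [zero_mul, add_zero] at this
    rw [this, w_rc_eq y, w_bd_zc, real_inner_self_eq_norm_sq]
    simp [sub_eq_add_neg]
  rw [e, e2, nsq_comb2, w_hm_rc, w_nsq_rc]
  generalize bd (rc y) d = P
  generalize ‖y‖ ^ 2 = U
  simp only [Complex.sq_norm, normSq_apply, sub_re, sub_im, mul_re, mul_im, ofReal_re, ofReal_im,
    neg_re, neg_im, conj_re, conj_im, one_re, one_im]
  ring

theorem w_bd_Vy (y : E n) (d : V n) (M : ℂ) :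
    bd (rc y) (fun k => d k - M * (y k : ℂ)) = bd (rc y) d - M * ((‖y‖ ^ 2 : ℝ) : ℂ) := by
  have e : (fun k => d k - M * (y k : ℂ)) = fun k => 1 * d k + -M * rc y k + 0 * d k := by
    funext k; simp [rc, sub_eq_add_neg]
  rw [e, w_bd_comb3, w_rc_eq y, w_bd_zc, real_inner_self_eq_norm_sq]
  simp [sub_eq_add_neg]

end Pool.Agent.MP_71da5e_an.L

end

section

/-! The cone inequalities for the second family of fields. -/

namespace Pool.Agent.MP_71da5e_an.L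

open scoped RealInnerProductSpace Real ComplexConjugate
open Complex

variable {n : ℕ}

/-- The sum `ζ₁ + ζ₂`. -/
noncomputable def zS (e : E n) (x : X n) : V n := zc (x.1.1 • e) (x.2.1 + x.2.2)

/-- The half difference `(ζ₁ - ζ₂) / 2`. -/
noncomputable def zM (x : X n) : V n := zc x.1.2 ((1 / 2 : ℝ) • (x.2.1 - x.2.2))

theorem z1_eq (e : E n) (x : X n) (k : Fin n) : z1 e x k = zS e x k / 2 + zM x k := by
  simp only [z1, zS, zM, zc, a1, PiLp.add_apply, PiLp.sub_apply, PiLp.smul_apply, smul_eq_mul]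
  push_cast; ring

theorem z2_eq (e : E n) (x : X n) (k : Fin n) : z2 e x k = zS e x k / 2 - zM x k := by
  simp only [z2, zS, zM, zc, a2, PiLp.add_apply, PiLp.sub_apply, PiLp.smul_apply, smul_eq_mul]
  push_cast; ring

theorem bd_half (z μ : V n) (σ τ : ℂ) :
    bd (fun k => z k / 2 + σ * μ k) (fun k => z k / 2 + τ * μ k) =
      bd z z / 4 + (σ + τ) / 2 * bd z μ + σ * τ * bd μ μ := by
  simp only [bd, Finset.mul_sum, Finset.sum_div, ← Finset.sum_add_distrib]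
  exact Finset.sum_congr rfl fun k _ => by ring

theorem cone_bd {e : E n} {x : X n} (h1 : p1 e x = 0) (h2 : p2 e x = 0) :
    bd (zS e x) (zM x) = 0 ∧ bd (zM x) (zM x) = -bd (zS e x) (zS e x) / 4 ∧
      bd (z1 e x) (z2 e x) = bd (zS e x) (zS e x) / 2 := by
  have e1 : z1 e x = fun k => zS e x k / 2 + 1 * zM x k := by funext k; rw [z1_eq]; ring
  have e2 : z2 e x = fun k => zS e x k / 2 + -1 * zM x k := by funext k; rw [z2_eq]; ring
  have k1 : bd (z1 e x) (z1 e x) = 0 := h1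
  have k2 : bd (z2 e x) (z2 e x) = 0 := h2
  rw [e1, bd_half] at k1
  rw [e2, bd_half] at k2
  rw [e1, e2, bd_half]
  refine ⟨?_, ?_, ?_⟩
  · linear_combination (k1 - k2) / 2
  · linear_combination (k1 + k2) / 2
  · linear_combination -(k1 + k2) / 2

theorem fL_eq (e : E n) (x : X n) (k : Fin n) : (fL k (zz e x)).2 = fun i =>
    zS e x k / 2 * zS e x i + -2 * zM x k * zM x i + -bd (z1 e x) (z2 e x) * dl k i := by
  funext i
  simp only [fL, zz, dl, z1_eq e x k, z1_eq e x i, z2_eq e x k, z2_eq e x i]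
  split_ifs <;> ring

theorem fH_fst (e : E n) (x : X n) (l m : Fin n) :
    ‖(fH e l m (zz e x)).1‖ ^ 2 = ‖zS e x l * zM x m - zS e x m * zM x l‖ ^ 2 := by
  rw [← norm_neg]
  congr 2
  simp only [fH, zz, z1_eq e x l, z1_eq e x m, z2_eq e x l, z2_eq e x m]
  ring

/-- The scalar facts on the cone. -/
theorem cone_facts {e : E n} (he : ‖e‖ = 1) {x : X n} (h1 : p1 e x = 0) (h2 : p2 e x = 0) :
    nsq (zS e x) = x.1.1 ^ 2 + ‖x.2.1 + x.2.2‖ ^ 2 ∧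
    nsq (zM x) = 2 * ‖x.1.2‖ ^ 2 + (x.1.1 ^ 2 - ‖x.2.1 + x.2.2‖ ^ 2) / 4 ∧
    ‖x.1.2‖ ^ 2 ≤ nsq (zM x) ∧
    bd (rc x.1.2) (zS e x) = hm (zS e x) (zM x) / 2 ∧
    ‖hm (zS e x) (zM x)‖ ^ 2 ≤ 4 * x.1.1 ^ 2 * nsq (zM x) ∧
    (‖x.1.2‖ ^ 2) ^ 2 ≤ ‖bd (rc x.1.2) (zM x)‖ ^ 2 := by
  obtain ⟨k1, k2, -⟩ := cone_bd h1 h2
  simp only [zS, zM, w_bd_zc, w_nsq_zc, w_hm_zc, w_bd_rc_zc] at *
  generalize x.2.1 + x.2.2 = ξ at *
  generalize (1 / 2 : ℝ) • (x.2.1 - x.2.2) = ν at *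
  generalize x.1.2 = r at *
  generalize x.1.1 = s at *
  have c1 : ⟪e, r⟫ ^ 2 ≤ ‖r‖ ^ 2 := by
    have := abs_real_inner_le_norm e r
    rw [he, one_mul] at this
    exact sq_le_sq' (by linarith [neg_abs_le ⟪e, r⟫]) (le_of_abs_le this)
  have c2 : ⟪e, ν⟫ ^ 2 ≤ ‖ν‖ ^ 2 := by
    have := abs_real_inner_le_norm e ν
    rw [he, one_mul] at this
    exact sq_le_sq' (by linarith [neg_abs_le ⟪e, ν⟫]) (le_of_abs_le this)
  have n1 : ‖s • e‖ ^ 2 = s ^ 2 := by rw [norm_smul, he, mul_one, Real.norm_eq_abs, sq_abs]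
  simp only [real_inner_self_eq_norm_sq, n1, real_inner_smul_left, real_inner_smul_right,
    real_inner_comm e r] at *
  have a1 := congrArg re k1
  have a2 := congrArg im k1
  have a3 := congrArg re k2
  simp only [add_re, add_im, ofReal_re, ofReal_im, mul_re, mul_im, I_re, I_im, zero_re, zero_im,
    div_ofNat_re, neg_re] at a1 a2 a3
  have b1 : ⟪ξ, ν⟫ = s * ⟪e, r⟫ := by linarith
  have b2 : ⟪ξ, r⟫ = -(s * ⟪e, ν⟫) := by linarith
  refine ⟨trivial, by linarith, by nlinarith [sq_nonneg ‖ν‖], ?_, ?_, ?_⟩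
  · rw [real_inner_comm ξ r, b1, b2]
    push_cast; ring
  · rw [Complex.sq_norm, normSq_add_mul_I, b1, b2]
    nlinarith [sq_nonneg s, mul_le_mul_of_nonneg_left c1 (sq_nonneg s),
      mul_le_mul_of_nonneg_left c2 (sq_nonneg s)]
  · rw [Complex.sq_norm, normSq_add_mul_I]
    nlinarith [sq_nonneg ⟪r, ν⟫]

theorem re_ge_neg_norm (a : ℂ) : -‖a‖ ≤ a.re := by
  linarith [abs_re_le_norm a, neg_abs_le a.re]

theorem QL_eq (e : E n) {x : X n} (hs : 0 < x.1.1) :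
    x.1.1 ^ 2 * QL e x = nsq (fun k => bd (rc x.1.2) (zS e x) / 2 * zS e x k +
      -2 * bd (rc x.1.2) (zM x) * zM x k + -bd (z1 e x) (z2 e x) * rc x.1.2 k) := by
  rw [QL, nsq, Finset.mul_sum]
  refine Finset.sum_congr rfl fun k _ => ?_
  rw [w_bd_smul, norm_mul, mul_pow, Complex.norm_real, Real.norm_eq_abs, sq_abs, fL_eq,
    w_bd_comb3, w_bd_dl, ← mul_assoc, ← mul_pow, mul_inv_cancel₀ hs.ne', one_pow, one_mul]
  congr 2
  ring

theorem real_L {s u X N H m c NL Q k : ℝ} (hk : 0 ≤ k) (hu : s ^ 2 / 3200 ≤ u) (hX : 0 ≤ X)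
    (hN : N = 2 * u + (s ^ 2 - X) / 4) (huN : u ≤ N) (hH0 : 0 ≤ H) (hH : H ≤ 4 * s ^ 2 * N)
    (hm1 : u ^ 2 ≤ m) (hm2 : m ≤ u * N) (hc0 : 0 ≤ c) (hc : c ≤ (s ^ 2 + X) / 2)
    (hNL : NL ≤ (s ^ 2 + X) ^ 2 / 4 + 4 * N ^ 2 + k * c ^ 2 + 2 * H)
    (hQ : 4 * m * N - H * N - H * c / 4 - 4 * m * c ≤ Q) :
    u * NL - 2 * Q ≤ (10 ^ 7 + 2000 * k) * (s ^ 2 + X) * u ^ 2 ∧
      8 * u ^ 3 - (10 ^ 7 + 2000 * k) * (s ^ 2 + X) * u ^ 2 ≤ Q := by
  have hs := sq_nonneg s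
  have hu0 : 0 ≤ u := by linarith
  have hN0 : 0 ≤ N := by linarith
  have hN1 : N ≤ 802 * u := by linarith
  obtain ⟨Z, hZ⟩ : ∃ Z, Z = s ^ 2 + X := ⟨_, rfl⟩
  rw [← hZ] at hc hNL ⊢
  have hZ0 : 0 ≤ Z := by linarith
  have hZ1 : Z ≤ 6404 * u := by linarith
  have hsZ : s ^ 2 ≤ Z := by linarith
  have hT : 0 ≤ Z * u ^ 2 := by positivity
  have hH1 : H ≤ 3208 * (Z * u) := by
    have : s ^ 2 * N ≤ Z * (802 * u) := mul_le_mul hsZ hN1 hN0 hZ0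
    linarith
  have hH2 : H ≤ 4 * 3200 * 802 * u ^ 2 := by
    have : s ^ 2 * N ≤ (3200 * u) * (802 * u) := mul_le_mul (by linarith) hN1 hN0 (by linarith)
    nlinarith
  have t1 : H * N ≤ 3208 * 802 * (Z * u ^ 2) := by
    have := mul_le_mul hH1 hN1 hN0 (by positivity)
    linarith
  have t2 : H * c / 4 ≤ 1600 * 802 * (Z * u ^ 2) := by
    have := mul_le_mul hH2 hc hc0 (by positivity)
    linarith
  have t3 : 4 * m * c ≤ 1604 * (Z * u ^ 2) := by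
    have h3 : m ≤ 802 * u ^ 2 := by nlinarith
    have := mul_le_mul h3 hc hc0 (by positivity)
    linarith
  have t4 : 4 * u ^ 2 * N ≤ 4 * m * N := by nlinarith
  have t5 : u * (Z ^ 2 / 4) ≤ 1601 * (Z * u ^ 2) := by nlinarith [mul_nonneg hu0 hZ0]
  have t6 : u * (k * c ^ 2) ≤ k * (1601 * (Z * u ^ 2)) := by
    have h3 : c ^ 2 ≤ Z ^ 2 / 4 := by nlinarith
    have h4 : u * c ^ 2 ≤ 1601 * (Z * u ^ 2) := by nlinarith
    nlinarith
  have t7 : u * (2 * H) ≤ 6416 * (Z * u ^ 2) := by nlinarith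
  have t8 : u * (4 * N ^ 2) - 8 * u ^ 2 * N ≤ 802 * (Z * u ^ 2) := by
    have h3 : u * (4 * N ^ 2) - 8 * u ^ 2 * N = u * N * (s ^ 2 - X) := by rw [hN]; ring
    have h4 : u * N * (s ^ 2 - X) ≤ u * N * Z := by
      apply mul_le_mul_of_nonneg_left (by linarith) (by positivity)
    have h5 : u * N * Z ≤ u * (802 * u) * Z := by gcongr
    linarith
  have t9 : 8 * u ^ 3 - Z * u ^ 2 ≤ 4 * u ^ 2 * N := by
    have h3 : 4 * u ^ 2 * N = 8 * u ^ 3 + u ^ 2 * (s ^ 2 - X) := by rw [hN]; ring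
    have h4 : u ^ 2 * (-Z) ≤ u ^ 2 * (s ^ 2 - X) :=
      mul_le_mul_of_nonneg_left (by linarith) (by positivity)
    linarith
  have t10 := mul_le_mul_of_nonneg_left hNL hu0
  have t11 := mul_nonneg hk hT
  have t12 : (10 ^ 7 + 2000 * k) * Z * u ^ 2 = 10 ^ 7 * (Z * u ^ 2) + 2000 * (k * (Z * u ^ 2)) := by
    ring
  rw [t12]
  constructor <;> linarith

theorem cone_L {e : E n} (he : ‖e‖ = 1) {x : X n} (hs : 0 < x.1.1)
    (hu : x.1.1 ^ 2 / 3200 ≤ ‖x.1.2‖ ^ 2) (h1 : p1 e x = 0) (h2 : p2 e x = 0) :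
    ‖x.1.2‖ ^ 2 * NL e x - 2 * (x.1.1 ^ 2 * QL e x) ≤
        (10 ^ 7 + 2000 * n) * (x.1.1 ^ 2 + ‖x.2.1 + x.2.2‖ ^ 2) * (‖x.1.2‖ ^ 2) ^ 2 ∧
      8 * (‖x.1.2‖ ^ 2) ^ 3 -
        (10 ^ 7 + 2000 * n) * (x.1.1 ^ 2 + ‖x.2.1 + x.2.2‖ ^ 2) * (‖x.1.2‖ ^ 2) ^ 2 ≤
          x.1.1 ^ 2 * QL e x := by
  obtain ⟨f1, f2, f3, f4, f5, f6⟩ := cone_facts he h1 h2
  obtain ⟨-, k2, k3⟩ := cone_bd h1 h2
  have hm2 := w_bd_sq_le (rc x.1.2) (zM x)
  rw [w_nsq_rc] at hm2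
  have hc : ‖bd (z1 e x) (z2 e x)‖ ≤ (x.1.1 ^ 2 + ‖x.2.1 + x.2.2‖ ^ 2) / 2 := by
    have h3 := w_bd_sq_le (zS e x) (zS e x)
    rw [← sq] at h3
    have h4 := abs_le_of_sq_le_sq h3 (w_nsq_nonneg _)
    rw [abs_norm, f1] at h4
    rw [k3, norm_div, Complex.norm_ofNat]
    linarith
  refine real_L (Nat.cast_nonneg n) hu (sq_nonneg _) f2 f3 (sq_nonneg _) f5 f6 hm2
    (norm_nonneg _) hc ?_ ?_
  · rw [NL]
    simp only [fL_eq]
    rw [w_NL, f1]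
    have hz : bd (zS e x) (zS e x) = 2 * bd (z1 e x) (z2 e x) := by rw [k3]; ring
    rw [k2, hz]
    generalize bd (z1 e x) (z2 e x) = c
    have h3 := re_ge_neg_norm (hm (zS e x) (zM x) * hm (zS e x) (zM x))
    rw [norm_mul, ← sq] at h3
    have h4 : (2 * c * conj c).re = 2 * normSq c := by rw [mul_assoc, mul_conj]; simp
    have h5 : (-(2 * c) / 4 * conj c).re = -normSq c / 2 := by
      rw [show -(2 * c) / 4 * conj c = -(c * conj c) / 2 by ring, mul_conj]; simp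
    rw [h4, h5]
    nlinarith [normSq_nonneg c]
  · rw [QL_eq e hs, nsq_comb3, w_hm_rc, w_hm_rc, w_nsq_rc, f4]
    generalize bd (z1 e x) (z2 e x) = c
    generalize hm (zS e x) (zM x) = h at *
    generalize bd (rc x.1.2) (zM x) = ρ at *
    have hρ : ‖ρ‖ ≤ nsq (zM x) := by
      have h0 := w_nsq_nonneg (zM x)
      exact le_of_abs_le (abs_le_of_sq_le_sq (by nlinarith) h0)
    have g1 := re_ge_neg_norm (h / 2 / 2 * conj (-2 * ρ) * h)
    have g2 := re_ge_neg_norm (h / 2 / 2 * conj (-c) * (h / 2))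
    have g3 := re_ge_neg_norm (-2 * ρ * conj (-c) * ρ)
    simp only [norm_mul, norm_div, norm_conj, norm_neg, Complex.norm_ofNat] at g1 g2 g3 ⊢
    have g4 : ‖h‖ ^ 2 * ‖ρ‖ ≤ ‖h‖ ^ 2 * nsq (zM x) := by gcongr
    have g5 := mul_nonneg (sq_nonneg (‖h‖ / 2 / 2)) (w_nsq_nonneg (zS e x))
    have g6 := mul_nonneg (sq_nonneg ‖c‖) (sq_nonneg ‖x.1.2‖)
    nlinarith

end Pool.Agent.MP_71da5e_an.L

end

section

/-! Size bounds for the fields and the inequalities for the first family. -/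

namespace Pool.Agent.MP_71da5e_an.L

open scoped RealInnerProductSpace Real ComplexConjugate
open Complex

variable {n : ℕ}

theorem w_re_le_norm (a : ℂ) : a.re ≤ ‖a‖ := re_le_norm a

theorem w_sq_sub_le (a b : ℂ) : ‖a - b‖ ^ 2 ≤ 2 * ‖a‖ ^ 2 + 2 * ‖b‖ ^ 2 := by
  have h := norm_sub_le a b
  nlinarith [norm_nonneg (a - b), norm_nonneg a, norm_nonneg b, sq_nonneg (‖a‖ - ‖b‖)]

theorem w_sq_add_le (a b : ℂ) : ‖a + b‖ ^ 2 ≤ 2 * ‖a‖ ^ 2 + 2 * ‖b‖ ^ 2 := by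
  have := w_sq_sub_le a (-b)
  simpa using this

theorem PP_nonneg (e : E n) (x : X n) : 0 ≤ PP e x := mul_nonneg (w_nsq_nonneg _) (w_nsq_nonneg _)

theorem NL_nonneg (e : E n) (x : X n) : 0 ≤ NL e x := Finset.sum_nonneg fun _ _ => w_nsq_nonneg _

theorem QL_nonneg (e : E n) (x : X n) : 0 ≤ QL e x := Finset.sum_nonneg fun _ _ => sq_nonneg _

theorem QH_nonneg (e : E n) (x : X n) : 0 ≤ QH e x :=
  Finset.sum_nonneg fun _ _ => Finset.sum_nonneg fun _ _ => sq_nonneg _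

theorem AH_nonneg (e : E n) (x : X n) : 0 ≤ AH e x :=
  Finset.sum_nonneg fun _ _ => Finset.sum_nonneg fun _ _ => sq_nonneg _

theorem DH_nonneg (e : E n) (x : X n) : 0 ≤ DH e x :=
  Finset.sum_nonneg fun _ _ => Finset.sum_nonneg fun _ _ => w_nsq_nonneg _

theorem NH_nonneg (e : E n) (x : X n) : 0 ≤ NH e x :=
  Finset.sum_nonneg fun _ _ => Finset.sum_nonneg fun _ _ => w_nsq_nonneg _

theorem AH_le (e : E n) (x : X n) : AH e x ≤ 2 * PP e x := by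
  have h := w_AH (z1 e x) (z2 e x)
  have : AH e x = ∑ l, ∑ m, ‖z1 e x l * z2 e x m - z1 e x m * z2 e x l‖ ^ 2 := rfl
  rw [this, h, PP]
  nlinarith [sq_nonneg ‖hm (z1 e x) (z2 e x)‖]

theorem NL_le (e : E n) (x : X n) : NL e x ≤ (8 + 2 * n) * PP e x := by
  have hc := w_bd_sq_le (z1 e x) (z2 e x)
  have h : ∀ k, nsq (fL k (zz e x)).2 ≤ 4 * (‖z1 e x k‖ ^ 2 * nsq (z2 e x)) +
      4 * (‖z2 e x k‖ ^ 2 * nsq (z1 e x)) + 2 * ‖bd (z1 e x) (z2 e x)‖ ^ 2 := by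
    intro k
    rw [← w_nsq_smul, ← w_nsq_smul, ← mul_one (‖bd (z1 e x) (z2 e x)‖ ^ 2), ← w_nsq_dl k,
      ← w_nsq_smul, nsq, Finset.mul_sum, Finset.mul_sum, Finset.mul_sum, ← Finset.sum_add_distrib,
      ← Finset.sum_add_distrib]
    refine Finset.sum_le_sum fun i _ => ?_
    have e1 : (fL k (zz e x)).2 i = z1 e x k * z2 e x i + z2 e x k * z1 e x i -
        bd (z1 e x) (z2 e x) * dl k i := by
      simp only [fL, zz, dl]; split_ifs <;> simp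
    rw [e1]
    linarith [w_sq_sub_le (z1 e x k * z2 e x i + z2 e x k * z1 e x i)
      (bd (z1 e x) (z2 e x) * dl k i), w_sq_add_le (z1 e x k * z2 e x i) (z2 e x k * z1 e x i)]
  refine (Finset.sum_le_sum fun k _ => h k).trans ?_
  simp only [Finset.sum_add_distrib, ← Finset.mul_sum, ← Finset.sum_mul, Finset.sum_const,
    Finset.card_univ, Fintype.card_fin, nsmul_eq_mul]
  change 4 * (nsq (z1 e x) * nsq (z2 e x)) + 4 * (nsq (z2 e x) * nsq (z1 e x)) + _ ≤ _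
  rw [PP]
  nlinarith [mul_le_mul_of_nonneg_left hc (Nat.cast_nonneg (α := ℝ) n)]

theorem nsq_nv_le {e : E n} (he : ‖e‖ = 1) (x : X n) : nsq (nv e (zz e x)) ≤ PP e x := by
  have h1 := w_bd_sq_le (rc e) (z1 e x)
  have h2 := w_bd_sq_le (rc e) (z2 e x)
  rw [w_nsq_rc, he, one_pow, one_mul] at h1 h2
  have h : nsq (nv e (zz e x)) ≤ (‖bd (rc e) (z1 e x)‖ ^ 2 * nsq (z2 e x) +
      ‖bd (rc e) (z2 e x)‖ ^ 2 * nsq (z1 e x)) / 2 := by
    rw [← w_nsq_smul, ← w_nsq_smul, nsq, ← Finset.sum_add_distrib, Finset.sum_div]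
    refine Finset.sum_le_sum fun i _ => ?_
    simp only [nv, zz, norm_div, div_pow, Complex.norm_ofNat]
    linarith [w_sq_add_le (bd (rc e) (z1 e x) * z2 e x i) (bd (rc e) (z2 e x) * z1 e x i)]
  rw [PP]
  nlinarith [mul_le_mul_of_nonneg_right h1 (w_nsq_nonneg (z2 e x)),
    mul_le_mul_of_nonneg_right h2 (w_nsq_nonneg (z1 e x))]

theorem DH_le {e : E n} (he : ‖e‖ = 1) (x : X n) : DH e x ≤ 4 * n * PP e x := by
  have h : ∀ l m, nsq (fH e l m (zz e x)).2 ≤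
      2 * ‖nv e (zz e x) l‖ ^ 2 + 2 * ‖nv e (zz e x) m‖ ^ 2 := by
    intro l m
    rw [← mul_one (‖nv e (zz e x) l‖ ^ 2), ← mul_one (‖nv e (zz e x) m‖ ^ 2)]
    nth_rewrite 1 [← w_nsq_dl m]
    rw [← w_nsq_dl l, ← w_nsq_smul, ← w_nsq_smul, nsq, Finset.mul_sum, Finset.mul_sum,
      ← Finset.sum_add_distrib]
    refine Finset.sum_le_sum fun i _ => ?_
    have e1 : (fH e l m (zz e x)).2 i = nv e (zz e x) l * dl m i - nv e (zz e x) m * dl l i := by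
      simp only [fH, dl]; split_ifs <;> simp
    rw [e1]
    exact w_sq_sub_le _ _
  refine (Finset.sum_le_sum fun l _ => Finset.sum_le_sum fun m _ => h l m).trans ?_
  simp only [Finset.sum_add_distrib, ← Finset.mul_sum, Finset.sum_const,
    Finset.card_univ, Fintype.card_fin, nsmul_eq_mul]
  change 2 * (n * nsq (nv e (zz e x))) + 2 * (n * nsq (nv e (zz e x))) ≤ _
  nlinarith [mul_le_mul_of_nonneg_left (nsq_nv_le he x) (Nat.cast_nonneg (α := ℝ) n)]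

theorem Vy_eq (p : B n) (W : ℂ × V n) :
    Vy p W = fun k => W.2 k - W.1 * ((((p.1)⁻¹ • p.2) k : ℝ) : ℂ) := by
  funext k
  simp only [Vy, PiLp.smul_apply, smul_eq_mul, div_eq_inv_mul]

theorem Vy_fL (p : B n) (k : Fin n) (ζ : V n × V n) : Vy p (fL k ζ) = (fL k ζ).2 := by
  funext i
  simp [Vy, fL]

theorem QL_le (e : E n) (x : X n) : QL e x ≤ ‖(x.1.1)⁻¹ • x.1.2‖ ^ 2 * NL e x := by
  rw [QL, NL, Finset.mul_sum]
  refine Finset.sum_le_sum fun k _ => ?_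
  rw [← w_nsq_rc]
  exact w_bd_sq_le _ _

theorem NH_le_QH (e : E n) (x : X n) :
    ‖(x.1.1)⁻¹ • x.1.2‖ ^ 2 * NH e x ≤ QH e x + ‖(x.1.1)⁻¹ • x.1.2‖ ^ 2 * DH e x := by
  simp only [NH, QH, DH, Finset.mul_sum, ← Finset.sum_add_distrib]
  refine Finset.sum_le_sum fun l _ => Finset.sum_le_sum fun m _ => ?_
  rw [Vy_eq]
  linarith [w_perp ((x.1.1)⁻¹ • x.1.2) (fH e l m (zz e x)).2 (fH e l m (zz e x)).1,
    sq_nonneg ‖bd (rc ((x.1.1)⁻¹ • x.1.2)) (fH e l m (zz e x)).2‖]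

theorem QH_ge_AH (e : E n) (x : X n) :
    (‖(x.1.1)⁻¹ • x.1.2‖ ^ 2) ^ 2 * AH e x / 2 - ‖(x.1.1)⁻¹ • x.1.2‖ ^ 2 * DH e x ≤ QH e x := by
  simp only [AH, QH, DH, Finset.mul_sum, Finset.sum_div, ← Finset.sum_sub_distrib]
  refine Finset.sum_le_sum fun l _ => Finset.sum_le_sum fun m _ => ?_
  rw [Vy_eq, w_bd_Vy]
  generalize (x.1.1)⁻¹ • x.1.2 = y
  generalize (fH e l m (zz e x)).1 = M
  generalize (fH e l m (zz e x)).2 = d
  have h1 := w_bd_sq_le (rc y) d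
  rw [w_nsq_rc] at h1
  have h2 := w_sq_sub_le (bd (rc y) d) (bd (rc y) d - M * ((‖y‖ ^ 2 : ℝ) : ℂ))
  rw [sub_sub_cancel, norm_mul, Complex.norm_real, Real.norm_eq_abs, mul_pow, sq_abs] at h2
  linarith

theorem NH_le (e : E n) (x : X n) :
    NH e x ≤ 2 * DH e x + 2 * (‖(x.1.1)⁻¹ • x.1.2‖ ^ 2 * AH e x) := by
  simp only [AH, NH, DH, Finset.mul_sum, ← Finset.sum_add_distrib]
  refine Finset.sum_le_sum fun l _ => Finset.sum_le_sum fun m _ => ?_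
  rw [Vy_eq, ← w_nsq_rc, mul_comm (nsq (rc _)), ← w_nsq_smul, nsq, nsq, Finset.mul_sum,
    Finset.mul_sum, ← Finset.sum_add_distrib]
  exact Finset.sum_le_sum fun i _ => w_sq_sub_le _ _

theorem AH_ge {e : E n} (he : ‖e‖ = 1) {x : X n}
    (hu : x.1.1 ^ 2 / 3200 ≤ ‖x.1.2‖ ^ 2) (h1 : p1 e x = 0) (h2 : p2 e x = 0) :
    2 * (‖x.2.1 + x.2.2‖ ^ 2 * ‖x.1.2‖ ^ 2) - 4812 * (x.1.1 ^ 2 * ‖x.1.2‖ ^ 2) ≤ AH e x ∧
      ‖x.2.1 + x.2.2‖ ^ 2 ≤ x.1.1 ^ 2 + 4 * ‖x.1.2‖ ^ 2 := by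
  obtain ⟨f1, f2, f3, -, f5, -⟩ := cone_facts he h1 h2
  refine ⟨?_, by linarith⟩
  simp only [AH, fH_fst]
  rw [w_AH, f1]
  have hN : nsq (zM x) ≤ 802 * ‖x.1.2‖ ^ 2 := by linarith [sq_nonneg ‖x.2.1 + x.2.2‖]
  nlinarith [mul_le_mul_of_nonneg_left f3 (sq_nonneg ‖x.2.1 + x.2.2‖),
    mul_le_mul_of_nonneg_left hN (sq_nonneg x.1.1)]

theorem a_sq {e : E n} (he : ‖e‖ = 1) (p : B n) :
    ‖a1 e p‖ ^ 2 = p.1 ^ 2 / 4 + p.1 * ⟪e, p.2⟫ + ‖p.2‖ ^ 2 ∧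
      ‖a2 e p‖ ^ 2 = p.1 ^ 2 / 4 - p.1 * ⟪e, p.2⟫ + ‖p.2‖ ^ 2 ∧ ⟪e, p.2⟫ ^ 2 ≤ ‖p.2‖ ^ 2 := by
  have n1 : ‖(p.1 / 2) • e‖ ^ 2 = p.1 ^ 2 / 4 := by
    rw [norm_smul, he, mul_one, Real.norm_eq_abs, sq_abs]; ring
  refine ⟨?_, ?_, ?_⟩
  · rw [a1, norm_add_sq_real, n1, real_inner_smul_left]; ring
  · rw [a2, norm_sub_sq_real, n1, real_inner_smul_left]; ring
  · have := abs_real_inner_le_norm e p.2
    rw [he, one_mul] at this
    exact sq_le_sq' (by linarith [neg_abs_le ⟪e, p.2⟫]) (le_of_abs_le this)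

theorem PP_cone {e : E n} {x : X n} (h1 : p1 e x = 0) (h2 : p2 e x = 0) :
    PP e x = 4 * (‖a1 e x.1‖ ^ 2 * ‖a2 e x.1‖ ^ 2) := by
  have k : ∀ a b : E n, pz a b = 0 → nsq (zc a b) = 2 * ‖a‖ ^ 2 := by
    intro a b h
    rw [pz, w_bd_zc] at h
    have := congrArg re h
    simp only [add_re, ofReal_re, mul_re, I_re, I_im, ofReal_im, zero_re,
      real_inner_self_eq_norm_sq] at this
    rw [w_nsq_zc]
    linarith
  rw [PP, z1, z2, k _ _ h1, k _ _ h2]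
  ring

end Pool.Agent.MP_71da5e_an.L

end

section

/-! The lower bound for the total form of the main term on the cone. -/

namespace Pool.Agent.MP_71da5e_an.L

open scoped RealInnerProductSpace Real ComplexConjugate

variable {n : ℕ}

theorem real_far {s R u X C g q h NL NH AH DH S k : ℝ} (hs : 0 < s) (hR : 0 < R)
    (hRu : R ^ 2 = s ^ 2 + u) (hC : 1 ≤ C) (hg : g * R = s) (hδ : 40 * C * s ≤ R) (hX : 0 ≤ X)
    (hk : 0 ≤ k) (hq : 0 ≤ q) (hh : 0 ≤ h)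
    (a1 : u * NL - 2 * q ≤ C * (s ^ 2 + X) * u ^ 2) (a2 : 8 * u ^ 3 - C * (s ^ 2 + X) * u ^ 2 ≤ q)
    (a3 : u * NH ≤ h + u * DH) (a4 : u ^ 2 * AH / 2 - s ^ 2 * u * DH ≤ s ^ 2 * h)
    (a5 : 2 * (X * u) - C * (s ^ 2 * u) ≤ AH) (a6 : DH ≤ C * (4 * R ^ 4))
    (hS : R ^ 2 * S = (6 + k) * (q + g * h) - 2 * R ^ 2 * (NL + g * NH)) :
    5 * s * R ^ 4 + X * R ^ 3 ≤ s * S := by
  have hg0 : 0 < g := by
    have : g = s / R := by field_simp; exact hg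
    rw [this]; positivity
  have hsR : 40 * s ≤ R := by nlinarith only [hδ, hC, hs]
  have hu : 8 / 9 * R ^ 2 ≤ u := by nlinarith only [hsR, hs, hRu]
  have huR : u ≤ R ^ 2 := by nlinarith only [hRu]
  have hR2 : 0 < R ^ 2 := by positivity
  have hu0 : 0 < u := by linarith
  have hqh : 0 ≤ q + g * h := by positivity
  have b1 : 5 * (q + g * h) - 2 * u * (NL + g * NH) ≤ u * S := by
    have h1 : R ^ 2 * (5 * (q + g * h) - 2 * u * (NL + g * NH)) ≤ R ^ 2 * (u * S) := by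
      have h2 : R ^ 2 * (u * S) = u * ((6 + k) * (q + g * h)) - 2 * R ^ 2 * u * (NL + g * NH) := by
        linear_combination u * hS
      have h3 : 5 * R ^ 2 * (q + g * h) ≤ u * (6 + k) * (q + g * h) :=
        mul_le_mul_of_nonneg_right (by nlinarith only [hu, hk, hu0, hR2]) hqh
      linarith only [h2, h3]
    exact le_of_mul_le_mul_left h1 hR2
  have b2 : DH ≤ 6 * C * u ^ 2 := by
    have h1 : (8 / 9 * R ^ 2) ^ 2 ≤ u ^ 2 := pow_le_pow_left₀ (by positivity) hu 2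
    have h2 : 4 * R ^ 4 ≤ 6 * u ^ 2 := by nlinarith only [h1, sq_nonneg u]
    have h3 := mul_le_mul_of_nonneg_left h2 (show 0 ≤ C by linarith)
    linarith only [h3, a6]
  have b3 : 3 * (X * u ^ 3) - 32 * C * (s ^ 2 * u ^ 3) ≤ s ^ 2 * (3 * h - 2 * u * DH) := by
    have h1 := mul_le_mul_of_nonneg_left a5 (sq_nonneg u)
    have h2 := mul_le_mul_of_nonneg_left b2 (show 0 ≤ s ^ 2 * u by positivity)
    have h3 : 0 ≤ C * (s ^ 2 * u ^ 3) := by positivity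
    linarith only [h1, h2, h3, a4]
  have b4 : 8 * u ^ 3 - 3 * (C * (s ^ 2 + X) * u ^ 2) + g * (3 * h - 2 * u * DH) ≤ u * S := by
    have h1 := mul_le_mul_of_nonneg_left a3 hg0.le
    linarith only [h1, b1, a1, a2]
  have b5 : s * R * (8 * u ^ 3 - 3 * (C * (s ^ 2 + X) * u ^ 2)) + 3 * (X * u ^ 3) -
      32 * C * (s ^ 2 * u ^ 3) ≤ s * R * (u * S) := by
    have h1 := mul_le_mul_of_nonneg_left b4 (show 0 ≤ s * R by positivity)
    have h2 : s * R * (g * (3 * h - 2 * u * DH)) = s ^ 2 * (3 * h - 2 * u * DH) := by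
      rw [← hg]; ring
    linarith only [h1, h2, b3]
  have c1 : C * s * R ≤ u / 30 := by
    have := mul_le_mul_of_nonneg_left hδ hR.le
    linarith only [this, hu, hR2]
  have c2 : 32 * C * (s ^ 2 * u ^ 3) ≤ 4 / 5 * (s * R * u ^ 3) := by
    have := mul_le_mul_of_nonneg_left hδ (show 0 ≤ s * u ^ 3 by positivity)
    linarith only [this]
  have c3 : s * R * (3 * (C * s ^ 2 * u ^ 2)) ≤ 1 / 10 * (s * R * u ^ 3) := by
    have h1 : C * s ^ 2 ≤ u / 30 := by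
      have h0 := mul_le_mul_of_nonneg_left (show s ≤ R by linarith) (show 0 ≤ C * s by positivity)
      linarith only [h0, c1]
    have := mul_le_mul_of_nonneg_left h1 (show 0 ≤ s * R * u ^ 2 by positivity)
    linarith only [this]
  have c4 : s * R * (3 * (C * X * u ^ 2)) ≤ 1 / 10 * (X * u ^ 3) := by
    have := mul_le_mul_of_nonneg_left c1 (show 0 ≤ X * u ^ 2 by positivity)
    linarith only [this]
  have d1 : R * u * (7 * s * u ^ 2) + u * (2 * X * u ^ 2) ≤ R * u * (s * S) := by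
    have h1 : 0 ≤ s * R * u ^ 3 := by positivity
    have h2 : 0 ≤ X * u ^ 3 := by positivity
    linarith only [h1, h2, b5, c2, c3, c4]
  have h1 : (8 / 9 * R ^ 2) ^ 2 ≤ u ^ 2 := pow_le_pow_left₀ (by positivity) hu 2
  have d2 : 5 * s * R ^ 4 ≤ 7 * s * u ^ 2 := by
    have := mul_le_mul_of_nonneg_left h1 hs.le
    have h2 : 0 ≤ s * R ^ 4 := by positivity
    linarith only [this, h2]
  have d3 : R * (X * R ^ 3) ≤ 2 * X * u ^ 2 := by
    have := mul_le_mul_of_nonneg_left h1 hX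
    have h2 : 0 ≤ X * R ^ 4 := by positivity
    linarith only [this, h2]
  have d4 : R * u * (5 * s * R ^ 4 + X * R ^ 3) ≤ R * u * (s * S) := by
    have e1 := mul_le_mul_of_nonneg_left d2 (show 0 ≤ R * u by positivity)
    have e2 := mul_le_mul_of_nonneg_left d3 hu0.le
    linarith only [e1, e2, d1]
  exact le_of_mul_le_mul_left d4 (by positivity)

theorem real_near {s R u C g q h NL NH AH DH S K P U δ : ℝ} (hs : 0 < s) (hR : 0 < R)
    (hRu : R ^ 2 = s ^ 2 + u) (hu : s ^ 2 / 3200 ≤ u) (hg : g * R = s) (hδ0 : 0 < δ)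
    (hδ : δ * R ≤ s) (hK : 0 ≤ K) (hq : 0 ≤ q) (hh : 0 ≤ h) (hP : 0 ≤ P) (hNH : 0 ≤ NH)
    (hU : U * s ^ 2 = u)
    (hK2 : 4 * 3201 ^ 2 * (δ ^ 2 * (1 + 6 * C) + 8) ≤ K * δ ^ 4)
    (a1 : NL ≤ C * P) (a2 : NH ≤ 2 * DH + 2 * (U * AH)) (a3 : AH ≤ 2 * P) (a4 : DH ≤ C * P)
    (a5 : P * u ^ 2 ≤ 2 * (s ^ 2 + 4 * u) * h)
    (hS : R ^ 2 * S = (6 + 2 * K * g) * (q + g * h) - 2 * R ^ 2 * (NL + g * NH)) : P ≤ S := by
  have hge : g = s / R := by field_simp; exact hg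
  have hg0 : 0 < g := by rw [hge]; positivity
  have hu0 : 0 ≤ u := by linarith [sq_nonneg s]
  have hg1 : g ≤ 1 := by
    rw [hge, div_le_one hR]
    exact le_of_abs_le (abs_le_of_sq_le_sq (by linarith) hR.le)
  have hgδ : δ ≤ g := by rw [hge, le_div_iff₀ hR]; exact hδ
  have hU0 : 0 ≤ U := by
    by_contra hc
    have := mul_neg_of_neg_of_pos (not_le.mp hc) (show 0 < s ^ 2 by positivity)
    linarith
  have hUδ : U * δ ^ 2 ≤ 1 := by
    have h1 : (δ * R) ^ 2 ≤ s ^ 2 := pow_le_pow_left₀ (by positivity) hδ 2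
    have h2 : U * δ ^ 2 * s ^ 2 ≤ 1 * s ^ 2 := by
      have h3 := mul_le_mul_of_nonneg_left (show u ≤ R ^ 2 by linarith [sq_nonneg s]) (sq_nonneg δ)
      have h4 : U * δ ^ 2 * s ^ 2 = δ ^ 2 * u := by rw [← hU]; ring
      linarith only [h1, h3, h4]
    exact le_of_mul_le_mul_right h2 (by positivity)
  have b1 : P * R ^ 2 ≤ 8 * 3201 ^ 2 * h := by
    have h1 : R ^ 2 ≤ 3201 * u := by linarith
    have h2 : (R ^ 2) ^ 2 ≤ (3201 * u) ^ 2 := pow_le_pow_left₀ (by positivity) h1 2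
    have h3 : P * u ^ 2 ≤ 8 * R ^ 2 * h := by
      have := mul_le_mul_of_nonneg_right (show 2 * (s ^ 2 + 4 * u) ≤ 8 * R ^ 2 by linarith [sq_nonneg s]) hh
      linarith
    have h4 : P * R ^ 2 * R ^ 2 ≤ 8 * 3201 ^ 2 * h * R ^ 2 := by
      have := mul_le_mul_of_nonneg_left h2 hP
      linarith only [this, h3]
    exact le_of_mul_le_mul_right h4 (by positivity)
  have b2 : δ ^ 2 * (NL + g * NH) ≤ (3 * C * δ ^ 2 + 4) * P := by
    have h1 : g * NH ≤ NH := mul_le_of_le_one_left hNH hg1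
    have h2 : U * AH ≤ U * (2 * P) := mul_le_mul_of_nonneg_left a3 hU0
    have h3 : NL + g * NH ≤ 3 * C * P + 4 * (U * P) := by linarith
    have h4 := mul_le_mul_of_nonneg_left h3 (sq_nonneg δ)
    have h5 := mul_le_mul_of_nonneg_right hUδ hP
    linarith only [h4, h5]
  have b3 : 2 * K * δ ^ 2 * h ≤ (6 + 2 * K * g) * (q + g * h) := by
    have h1 : δ ^ 2 ≤ g ^ 2 := pow_le_pow_left₀ hδ0.le hgδ 2
    have h2 := mul_le_mul_of_nonneg_left h1 (show 0 ≤ K * h by positivity)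
    have h3 : 0 ≤ K * g * q := by positivity
    have h4 : 0 ≤ g * h := by positivity
    linarith only [h2, h3, h4, hq]
  have b4 : (δ ^ 2 * (1 + 6 * C) + 8) * (P * R ^ 2) ≤ δ ^ 2 * (2 * K * δ ^ 2 * h) := by
    have h1 := mul_le_mul_of_nonneg_left b1 (show 0 ≤ K * δ ^ 4 by positivity)
    have h2 := mul_le_mul_of_nonneg_right hK2 (show 0 ≤ P * R ^ 2 by positivity)
    linarith only [h1, h2]
  have b5 : δ ^ 2 * R ^ 2 * P ≤ δ ^ 2 * R ^ 2 * S := by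
    have h1 := mul_le_mul_of_nonneg_left b3 (sq_nonneg δ)
    have h2 := mul_le_mul_of_nonneg_left b2 (show 0 ≤ 2 * R ^ 2 by positivity)
    have h3 : δ ^ 2 * R ^ 2 * S = δ ^ 2 * ((6 + 2 * K * g) * (q + g * h)) -
        2 * R ^ 2 * (δ ^ 2 * (NL + g * NH)) := by linear_combination δ ^ 2 * hS
    linarith only [h1, h2, h3, b4]
  exact le_of_mul_le_mul_left b5 (by positivity)

theorem SS_eq (e : E n) (K : ℝ) {x : X n} (hs : 0 < x.1.1) :
    R2 x.1 * SS e K x = (6 + 2 * K * (x.1.1 / √(R2 x.1))) *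
      (x.1.1 ^ 2 * QL e x + x.1.1 / √(R2 x.1) * (x.1.1 ^ 2 * QH e x)) -
        2 * R2 x.1 * (NL e x + x.1.1 / √(R2 x.1) * NH e x) := by
  have hR : 0 < R2 x.1 := by unfold R2; positivity
  simp only [SS, th, Vy_fL, Finset.sum_sub_distrib, ← Finset.mul_sum, QL, QH, NL, NH]
  field_simp
  ring

theorem norm_y {p : B n} (hs : 0 < p.1) : ‖(p.1)⁻¹ • p.2‖ ^ 2 * p.1 ^ 2 = ‖p.2‖ ^ 2 := by
  rw [norm_smul, norm_inv, Real.norm_eq_abs, abs_of_pos hs]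
  field_simp

theorem PP_le {e : E n} (he : ‖e‖ = 1) {x : X n} (h1 : p1 e x = 0) (h2 : p2 e x = 0) :
    PP e x ≤ 4 * R2 x.1 ^ 2 := by
  obtain ⟨k1, k2, -⟩ := a_sq he x.1
  rw [PP_cone h1 h2, k1, k2, R2]
  nlinarith [sq_nonneg (x.1.1 * ⟪e, x.1.2⟫), sq_nonneg x.1.1, sq_nonneg ‖x.1.2‖,
    mul_nonneg (sq_nonneg x.1.1) (sq_nonneg ‖x.1.2‖), sq_nonneg (x.1.1 ^ 2)]

theorem PP_ge {e : E n} (he : ‖e‖ = 1) {x : X n} (h1 : p1 e x = 0) (h2 : p2 e x = 0) {m : ℝ}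
    (hm : 0 ≤ m) (m1 : m ≤ ‖a1 e x.1‖ ^ 2) (m2 : m ≤ ‖a2 e x.1‖ ^ 2) : m * R2 x.1 ≤ PP e x := by
  obtain ⟨k1, k2, -⟩ := a_sq he x.1
  have k3 : R2 x.1 ≤ 2 * (‖a1 e x.1‖ ^ 2 + ‖a2 e x.1‖ ^ 2) := by
    rw [k1, k2, R2]; nlinarith [sq_nonneg ‖x.1.2‖]
  rw [PP_cone h1 h2]
  generalize ‖a1 e x.1‖ ^ 2 = A at *
  generalize ‖a2 e x.1‖ ^ 2 = B at *
  have := mul_le_mul_of_nonneg_left k3 hm
  nlinarith [mul_le_mul_of_nonneg_left m1 (hm.trans m2), mul_le_mul_of_nonneg_left m2 (hm.trans m1)]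

theorem cone_SS (n : ℕ) : ∃ K c : ℝ, 1 ≤ K ∧ 0 < c ∧ ∀ e : E n, ‖e‖ = 1 → ∀ s₀ x₀ : ℝ, 0 < s₀ →
    0 < x₀ → x₀ ≤ 1 / 2 → ∀ x : X n, x.1 ∈ Gd e s₀ x₀ → p1 e x = 0 → p2 e x = 0 →
      PP e x ≤ SS e K x ∧ c * x₀ ^ 2 * (x.1.1 * √(R2 x.1) ^ 4 +
        ‖x.2.1 + x.2.2‖ ^ 2 * √(R2 x.1) ^ 3) ≤ x.1.1 * SS e K x := by
  obtain ⟨C, hC⟩ : ∃ C : ℝ, C = 10 ^ 7 + 2000 * n := ⟨_, rfl⟩
  have hn : (0 : ℝ) ≤ n := Nat.cast_nonneg n
  have hC1 : 1 ≤ C := by linarith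
  obtain ⟨δ, hδ⟩ : ∃ δ : ℝ, δ = (40 * C)⁻¹ := ⟨_, rfl⟩
  have hδ0 : 0 < δ := by rw [hδ]; positivity
  have hδ1 : δ ≤ 1 := by rw [hδ]; exact inv_le_one_of_one_le₀ (by linarith)
  obtain ⟨K, hK⟩ : ∃ K : ℝ, K = 1 + 4 * 3201 ^ 2 * (δ ^ 2 * (1 + 6 * C) + 8) / δ ^ 4 := ⟨_, rfl⟩
  have hK1 : 1 ≤ K := by
    rw [hK]
    have : 0 ≤ 4 * 3201 ^ 2 * (δ ^ 2 * (1 + 6 * C) + 8) / δ ^ 4 := by positivity
    linarith
  have hK2 : 4 * 3201 ^ 2 * (δ ^ 2 * (1 + 6 * C) + 8) ≤ K * δ ^ 4 := by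
    rw [hK, add_mul, div_mul_cancel₀ _ (by positivity)]
    have : 0 ≤ 1 * δ ^ 4 := by positivity
    linarith
  refine ⟨K, δ ^ 3 / 5, hK1, by positivity, ?_⟩
  intro e he s₀ x₀ hs₀ hx₀ hx₁ x hx h1 h2
  obtain ⟨g1, hu, g3, g4⟩ := hx
  have hs : 0 < x.1.1 := by linarith
  have hR2 : 0 < R2 x.1 := by unfold R2; positivity
  have hR := Real.sqrt_pos.mpr hR2
  have hsq : √(R2 x.1) ^ 2 = R2 x.1 := Real.sq_sqrt hR2.le
  have hS := SS_eq e K hs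
  have hP4 := PP_le he h1 h2
  have hPm := PP_ge he h1 h2 (by positivity) g3 g4
  have hg : x.1.1 / √(R2 x.1) * √(R2 x.1) = x.1.1 := div_mul_cancel₀ _ hR.ne'
  have hg0 : 0 ≤ x.1.1 / √(R2 x.1) := by positivity
  have hRu : √(R2 x.1) ^ 2 = x.1.1 ^ 2 + ‖x.1.2‖ ^ 2 := hsq
  generalize √(R2 x.1) = R at *
  rw [← hsq] at hS hP4 hPm
  obtain ⟨l1, l2⟩ := cone_L he hs hu h1 h2
  obtain ⟨l3, l4⟩ := AH_ge he hu h1 h2
  rw [← hC] at l1 l2
  have hP := PP_nonneg e x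
  have hDH : DH e x ≤ C * PP e x :=
    (DH_le he x).trans (mul_le_mul_of_nonneg_right (by linarith) hP)
  have hy := norm_y hs
  have hq : 0 ≤ x.1.1 ^ 2 * QL e x := mul_nonneg (sq_nonneg _) (QL_nonneg e x)
  have hh : 0 ≤ x.1.1 ^ 2 * QH e x := mul_nonneg (sq_nonneg _) (QH_nonneg e x)
  have hX := sq_nonneg ‖x.2.1 + x.2.2‖
  have hx2 : x₀ ^ 2 ≤ 1 := by nlinarith only [hx₀, hx₁]
  have hd3 : δ ^ 3 ≤ 1 := pow_le_one₀ hδ0.le hδ1
  rcases le_total (40 * C * x.1.1) R with hc | hc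
  · have key := real_far (AH := AH e x) (DH := DH e x) hs hR hRu hC1 hg hc hX
      (show 0 ≤ 2 * K * (x.1.1 / R) by positivity) hq hh l1 l2
      (by
        have := mul_le_mul_of_nonneg_left (NH_le_QH e x) (sq_nonneg x.1.1)
        rw [← hy]; linarith only [this])
      (by
        have := mul_le_mul_of_nonneg_left (QH_ge_AH e x) (sq_nonneg (x.1.1 ^ 2))
        rw [← hy]; linarith only [this])
      (by
        have : 4812 * (x.1.1 ^ 2 * ‖x.1.2‖ ^ 2) ≤ C * (x.1.1 ^ 2 * ‖x.1.2‖ ^ 2) :=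
          mul_le_mul_of_nonneg_right (by linarith) (by positivity)
        linarith)
      (hDH.trans (mul_le_mul_of_nonneg_left (by linarith) (by linarith))) hS
    have t1 : 0 ≤ ‖x.2.1 + x.2.2‖ ^ 2 * R ^ 3 := by positivity
    have t2 : 0 ≤ x.1.1 * R ^ 4 := by positivity
    constructor
    · have : x.1.1 * PP e x ≤ x.1.1 * SS e K x := by
        have := mul_le_mul_of_nonneg_left hP4 hs.le
        linarith only [this, key, t1, t2]
      exact le_of_mul_le_mul_left this hs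
    · have t3 : δ ^ 3 / 5 * x₀ ^ 2 ≤ 1 := by
        have := mul_le_mul_of_nonneg_right hd3 (sq_nonneg x₀)
        linarith only [this, hx2]
      have := mul_le_mul_of_nonneg_right t3 (add_nonneg t2 t1)
      linarith only [this, key, t1, t2]
  · have hc' : δ * R ≤ x.1.1 := by
      rw [hδ, inv_mul_le_iff₀ (by positivity)]; exact hc
    have key := real_near (C := C) hs hR hRu hu hg hδ0 hc' (by linarith) hq hh hP (NH_nonneg e x) hy
      hK2 ((NL_le e x).trans (mul_le_mul_of_nonneg_right (by linarith) hP)) (NH_le e x)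
      (AH_le e x) hDH (by have := QH_ge he hs h1 h2; linarith) hS
    refine ⟨key, ?_⟩
    have t1 : ‖x.2.1 + x.2.2‖ ^ 2 ≤ 4 * R ^ 2 := by linarith [sq_nonneg x.1.1]
    have t2 : (δ * R) ^ 3 ≤ x.1.1 ^ 3 := pow_le_pow_left₀ (by positivity) hc' 3
    have t3 : x.1.1 ≤ R := le_of_abs_le (abs_le_of_sq_le_sq (by linarith [sq_nonneg ‖x.1.2‖]) hR.le)
    have t4 : x.1.1 * R ^ 4 + ‖x.2.1 + x.2.2‖ ^ 2 * R ^ 3 ≤ 5 * R ^ 5 := by
      have u1 := mul_le_mul_of_nonneg_right t3 (show 0 ≤ R ^ 4 by positivity)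
      have u2 := mul_le_mul_of_nonneg_right t1 (show 0 ≤ R ^ 3 by positivity)
      linarith only [u1, u2]
    have t5 := mul_le_mul_of_nonneg_left t4 (show 0 ≤ δ ^ 3 / 5 * x₀ ^ 2 by positivity)
    have t6 := mul_le_mul_of_nonneg_left t2 (show 0 ≤ x₀ ^ 2 * R ^ 2 by positivity)
    have t7 := mul_le_mul_of_nonneg_left (hPm.trans key) hs.le
    linarith only [t5, t6, t7]

end Pool.Agent.MP_71da5e_an.L

end

section

namespace Pool.Agent.MP_71da5e_an.L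

open MeasureTheory Metric Set Laplacian Complex
open scoped ContDiff RealInnerProductSpace ENNReal Real ComplexConjugate

namespace Weight

variable {n : ℕ}

theorem zc_smul (c : ℝ) (a b : E n) : zc (c • a) (c • b) = fun k => (c : ℂ) * zc a b k := by
  funext k
  simp only [zc, PiLp.smul_apply, smul_eq_mul]
  push_cast; ring

theorem bd_mul (c : ℂ) (u v : V n) : bd u (fun k => c * v k) = c * bd u v := by
  simp only [bd, Finset.mul_sum]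
  exact Finset.sum_congr rfl fun k _ => by ring

theorem bar_one {s R : ℝ} (hs : 0 < s) (hR : 0 < R) {a b : E n} (ha : a ≠ 0) (hnull : pz a b = 0)
    (hA : R ≤ 2 * (s ^ 2 + ‖a‖ ^ 2)) (Xv : V n) (al : ℂ) (hX : bd Xv (zc a b) = 0) :
    bar (s⁻¹ • a) (fun k => Xv k - al * ((s⁻¹ • a) k : ℂ)) ≤
      4 * ‖al‖ ^ 2 * (s ^ 2 / R) +
        64 * nsq (fun k => Xv k - al * ((s⁻¹ • a) k : ℂ)) * (s ^ 2 / R) ^ 2 := by
  have h := bar_le (y := s⁻¹ • a) (b := s⁻¹ • b) (smul_ne_zero (inv_ne_zero hs.ne') ha)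
    (by rw [pz, zc_smul, bd_mul, w_bd_comm, bd_mul]; rw [pz] at hnull; rw [hnull]; simp) Xv al
    (by rw [zc_smul, bd_mul, hX, mul_zero])
  refine h.trans ?_
  have hN := w_nsq_nonneg (fun k => Xv k - al * ((s⁻¹ • a) k : ℂ))
  generalize nsq (fun k => Xv k - al * ((s⁻¹ • a) k : ℂ)) = N at *
  have hy : ‖s⁻¹ • a‖ ^ 2 = ‖a‖ ^ 2 / s ^ 2 := by
    rw [norm_smul, norm_inv, Real.norm_eq_abs, abs_of_pos hs]; field_simp
  have ht : 0 < 1 + ‖s⁻¹ • a‖ ^ 2 := by positivity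
  have h1 : (1 + ‖s⁻¹ • a‖ ^ 2)⁻¹ ≤ 2 * (s ^ 2 / R) := by
    rw [hy, inv_le_iff_one_le_mul₀ (by positivity)]
    have : 2 * (s ^ 2 / R) * (1 + ‖a‖ ^ 2 / s ^ 2) = 2 * (s ^ 2 + ‖a‖ ^ 2) / R := by field_simp
    rw [this, one_le_div hR]
    exact hA
  have h2 : (1 + ‖s⁻¹ • a‖ ^ 2)⁻¹ ^ 2 ≤ (2 * (s ^ 2 / R)) ^ 2 :=
    pow_le_pow_left₀ (by positivity) h1 2
  rw [div_eq_mul_inv, div_eq_mul_inv (16 * N), ← inv_pow]
  linarith only [mul_le_mul_of_nonneg_left h1 (sq_nonneg ‖al‖), mul_le_mul_of_nonneg_left h2 hN]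

theorem bar_two {e : E n} (he : ‖e‖ = 1) {x : X n} (hp : x.1 ∈ Dm e) (h1 : p1 e x = 0)
    (h2 : p2 e x = 0) (W : ℂ × V n) (t1 : bd (X1 e W) (z1 e x) = 0)
    (t2 : bd (X2 e W) (z2 e x) = 0) :
    bar ((x.1.1)⁻¹ • a1 e x.1) (Vy x.1 W) + bar ((x.1.1)⁻¹ • a2 e x.1) (Vy x.1 W) ≤
      8 * ‖W.1‖ ^ 2 * (x.1.1 ^ 2 / R2 x.1) + 128 * nsq (Vy x.1 W) * (x.1.1 ^ 2 / R2 x.1) ^ 2 := by
  obtain ⟨hs, n1, n2⟩ := hp
  obtain ⟨k1, k2, k3⟩ := a_sq he x.1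
  have b1 := bar_one hs (R2_pos hs) n1 h1
    (by rw [k1, R2]; nlinarith [sq_nonneg (x.1.1 + ⟪e, x.1.2⟫)]) (X1 e W) W.1 t1
  have b2 := bar_one hs (R2_pos hs) n2 h2
    (by rw [k2, R2]; nlinarith [sq_nonneg (x.1.1 - ⟪e, x.1.2⟫)]) (X2 e W) W.1 t2
  rw [← Vy_eq_X1 e hs] at b1
  rw [← Vy_eq_X2 e hs, bar_neg] at b2
  have : nsq (fun k => -Vy x.1 W k) = nsq (Vy x.1 W) := by simp [nsq]
  rw [this] at b2
  linarith

theorem sum_L (Fl : Fld n) {e : E n} (he : ‖e‖ = 1) {x : X n} (hp : x.1 ∈ Dm e) (h1 : p1 e x = 0)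
    (h2 : p2 e x = 0) (K η κ ε β γ : ℝ) (hκ : 0 ≤ κ) :
    ∑ k, lev (mm e K η κ ε β γ) x.1 (fL k (zz e x)) ≤
      -(η * (K / 2 * Real.exp (K * (x.1.1 / √(R2 x.1))) * (x.1.1 / √(R2 x.1)) ^ 3 / x.1.1 *
        ∑ k, th K x.1 (fL k (zz e x)))) +
      κ * (128 * NL e x * (x.1.1 ^ 2 / R2 x.1) ^ 2 / x.1.1) +
      (ε * x.1.1 + β) * (2 * NL e x / R2 x.1 - 4 * (x.1.1 ^ 2 * QL e x) / R2 x.1 ^ 2) := by
  have hs := hp.1
  simp only [NL, QL, Finset.mul_sum, Finset.sum_mul, Finset.sum_div, ← Finset.sum_neg_distrib,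
    ← Finset.sum_add_distrib, ← Finset.sum_sub_distrib]
  refine Finset.sum_le_sum fun k _ => ?_
  obtain ⟨x0, x1, x2⟩ := Fl.XL e k (zz e x)
  obtain ⟨u1, u2⟩ := Fl.tanL k (zz e x)
  have q1 : bd (zz e x).1 (zz e x).1 = 0 := h1
  have q2 : bd (zz e x).2 (zz e x).2 = 0 := h2
  rw [q1, mul_zero] at u1
  rw [q2, mul_zero] at u2
  have b := bar_two he hp h1 h2 (fL k (zz e x)) (by rw [x1]; exact u1)
    (by
      rw [x2]
      have : bd (-(fL k (zz e x)).2) (z2 e x) = -bd (fL k (zz e x)).2 (zz e x).2 := by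
        simp [bd, zz]
      rw [this, u2, neg_zero])
  rw [lev_mm K η κ ε β γ hp, LR, x0, w_bd_smul]
  rw [x0, Vy_fL] at b
  rw [Vy_fL]
  have b' := mul_le_mul_of_nonneg_left (div_le_div_of_nonneg_right b hs.le) hκ
  have e1 : x.1.1 ^ 2 * ‖(((x.1.1)⁻¹ : ℝ) : ℂ) * bd (rc x.1.2) (fL k (zz e x)).2‖ ^ 2 =
      ‖bd (rc x.1.2) (fL k (zz e x)).2‖ ^ 2 := by
    rw [norm_mul, Complex.norm_real, Real.norm_eq_abs, mul_pow, sq_abs]
    field_simp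
  rw [e1]
  simp only [norm_zero, map_zero, zero_mul, mul_zero, zero_add, zero_re, zero_div, ne_eq,
    OfNat.ofNat_ne_zero, not_false_eq_true, zero_pow, add_zero, sub_zero] at b' ⊢
  linarith

theorem sum_H (Fl : Fld n) {e : E n} (he : ‖e‖ = 1) {x : X n} (hp : x.1 ∈ Dm e) (h1 : p1 e x = 0)
    (h2 : p2 e x = 0) (K η κ ε β : ℝ) (hκ : 0 ≤ κ) (hε : 0 ≤ ε) (hβ : 0 ≤ β) :
    ∑ l, ∑ m, lev (mm e K η κ ε β 0) x.1 (fH e l m (zz e x)) ≤
      -(η * (K / 2 * Real.exp (K * (x.1.1 / √(R2 x.1))) * (x.1.1 / √(R2 x.1)) ^ 3 / x.1.1 *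
        ∑ l, ∑ m, th K x.1 (fH e l m (zz e x)))) +
      κ * ((8 * AH e x * (x.1.1 ^ 2 / R2 x.1) + 128 * NH e x * (x.1.1 ^ 2 / R2 x.1) ^ 2) / x.1.1) +
      (ε * x.1.1 + β) * (2 * (AH e x + DH e x) / R2 x.1) := by
  have hs := hp.1
  simp only [AH, DH, NH, Finset.mul_sum, Finset.sum_mul, Finset.sum_div, ← Finset.sum_neg_distrib,
    ← Finset.sum_add_distrib]
  refine Finset.sum_le_sum fun l _ => Finset.sum_le_sum fun m _ => ?_
  obtain ⟨u1, u2⟩ := Fl.tanH e l m (zz e x)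
  have b := bar_two he hp h1 h2 (fH e l m (zz e x)) u1 u2
  have b' := mul_le_mul_of_nonneg_left (div_le_div_of_nonneg_right b hs.le) hκ
  have c := mul_le_mul_of_nonneg_left (eps_le hs (fH e l m (zz e x))) hε
  have d : LR x.1 (fH e l m (zz e x)) ≤
      2 * (‖(fH e l m (zz e x)).1‖ ^ 2 + nsq (fH e l m (zz e x)).2) / R2 x.1 := by
    rw [LR]
    exact sub_le_self _ (by positivity)
  have d' := mul_le_mul_of_nonneg_left d hβ
  rw [lev_mm K η κ ε β 0 hp]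
  have e1 : 2 * x.1.1 * (‖(fH e l m (zz e x)).1‖ ^ 2 + nsq (fH e l m (zz e x)).2) / R2 x.1 =
      x.1.1 * (2 * (‖(fH e l m (zz e x)).1‖ ^ 2 + nsq (fH e l m (zz e x)).2) / R2 x.1) := by ring
  rw [e1] at c
  linarith

theorem real_fin {s R u X C P S SL SH NL NH AH DH q η κ ε β w a LL LH : ℝ} (hs : 0 < s)
    (hR : 0 < R) (hRu : R ^ 2 = s ^ 2 + u) (hu : 0 ≤ u) (hX : 0 ≤ X) (hC : 1 ≤ C) (hP : 0 ≤ P)
    (hη : 0 ≤ η) (hκ : 0 ≤ κ) (hε : 0 ≤ ε) (hβ : 0 ≤ β) (hw : 1 / 2 ≤ w)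
    (hκ2 : κ * (912 * C) ≤ η / 4) (hS : S = SL + s / R * SH) (hPS : P ≤ S) (hP4 : P ≤ 4 * R ^ 4)
    (ha : a * (s * R ^ 4 + X * R ^ 3) ≤ s * S)
    (b1 : NL ≤ C * P) (b2 : AH ≤ 2 * P) (b3 : DH ≤ C * P) (b4 : s ^ 2 * NH ≤ 6 * C * R ^ 2 * P)
    (b5 : u * NL - 2 * q ≤ C * (s ^ 2 + X) * u ^ 2)
    (hL : LL ≤ -(η * (w * (s / R) ^ 3 / s * SL)) + κ * (128 * NL * (s ^ 2 / R ^ 2) ^ 2 / s) +
      (ε * s + β) * (2 * NL / R ^ 2 - 4 * q / (R ^ 2) ^ 2))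
    (hH : LH ≤ -(η * (w * (s / R) ^ 3 / s * SH)) +
      κ * ((8 * AH * (s ^ 2 / R ^ 2) + 128 * NH * (s ^ 2 / R ^ 2) ^ 2) / s) +
      (ε * s + (β + 1 / 4)) * (2 * (AH + DH) / R ^ 2)) :
    (η * a / 2 * s - 68 * C * (ε * s + β + 1)) * (R + X / s) ≤ -2 * (s⁻¹ * LL + R⁻¹ * LH) := by
  have hsR : s ≤ R := le_of_abs_le (abs_le_of_sq_le_sq (by linarith) hR.le)
  have hS0 : 0 ≤ S := hP.trans hPS
  obtain ⟨T, hT⟩ : ∃ T, T = s / R ^ 3 := ⟨_, rfl⟩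
  have hT0 : 0 < T := by rw [hT]; positivity
  have hY : 0 ≤ X / s := by positivity
  have m1 : s⁻¹ * (η * (w * (s / R) ^ 3 / s * SL)) + R⁻¹ * (η * (w * (s / R) ^ 3 / s * SH)) =
      η * w * (T * S) := by
    rw [hS, hT]; field_simp
  have m2 : η / 2 * (T * S) ≤ η * w * (T * S) := by
    have := mul_le_mul_of_nonneg_left hw (show 0 ≤ η * (T * S) by positivity)
    linarith only [this]
  have m3 : s⁻¹ * (128 * NL * (s ^ 2 / R ^ 2) ^ 2 / s) ≤ 128 * C * (T * P) := by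
    have e1 : s⁻¹ * (128 * NL * (s ^ 2 / R ^ 2) ^ 2 / s) = 128 * (s / R * T) * NL := by
      rw [hT]; field_simp
    have h1 : s / R * T ≤ T := mul_le_of_le_one_left hT0.le ((div_le_one hR).mpr hsR)
    have h2 := mul_le_mul_of_nonneg_left b1 (show 0 ≤ s / R * T by positivity)
    have h3 := mul_le_mul_of_nonneg_left h1 (show 0 ≤ C * P by positivity)
    rw [e1]
    linarith only [h2, h3]
  have m4 : R⁻¹ * ((8 * AH * (s ^ 2 / R ^ 2) + 128 * NH * (s ^ 2 / R ^ 2) ^ 2) / s) ≤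
      784 * C * (T * P) := by
    have e1 : R⁻¹ * ((8 * AH * (s ^ 2 / R ^ 2) + 128 * NH * (s ^ 2 / R ^ 2) ^ 2) / s) =
        8 * T * AH + 128 * T * (s ^ 2 * NH / R ^ 2) := by
      rw [hT]; field_simp
    have h1 : s ^ 2 * NH / R ^ 2 ≤ 6 * C * P := by
      rw [div_le_iff₀ (by positivity)]; linarith only [b4]
    have h2 := mul_le_mul_of_nonneg_left h1 hT0.le
    have h3 := mul_le_mul_of_nonneg_left b2 hT0.le
    have h4 := mul_le_mul_of_nonneg_right hC (show 0 ≤ T * P by positivity)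
    rw [e1]
    linarith only [h2, h3, h4]
  have m5 : κ * (912 * C) * (T * P) ≤ η / 4 * (T * S) :=
    mul_le_mul hκ2 (mul_le_mul_of_nonneg_left hPS hT0.le) (by positivity) (by positivity)
  have m6 : a * s * (R + X / s) ≤ T * S := by
    have e1 : a * s * (R + X / s) = a * (s * R ^ 4 + X * R ^ 3) / R ^ 3 := by field_simp
    have e2 : T * S = s * S / R ^ 3 := by rw [hT]; ring
    rw [e1, e2]
    exact div_le_div_of_nonneg_right ha (by positivity)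
  have m7 : s⁻¹ * (2 * NL / R ^ 2 - 4 * q / (R ^ 2) ^ 2) ≤ 10 * C * (R + X / s) := by
    have h1 : 2 * NL / R ^ 2 - 4 * q / (R ^ 2) ^ 2 ≤ 10 * C * (s ^ 2 + X) := by
      have e1 : 2 * NL / R ^ 2 - 4 * q / (R ^ 2) ^ 2 = (2 * R ^ 2 * NL - 4 * q) / R ^ 4 := by
        field_simp
      rw [e1, div_le_iff₀ (by positivity)]
      have h2 : NL ≤ C * (4 * R ^ 4) := b1.trans (mul_le_mul_of_nonneg_left hP4 (by linarith))
      have h3 := mul_le_mul_of_nonneg_left h2 (sq_nonneg s)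
      have h4 : u ^ 2 ≤ (R ^ 2) ^ 2 := pow_le_pow_left₀ hu (by linarith [sq_nonneg s]) 2
      have h5 := mul_le_mul_of_nonneg_left h4 (show 0 ≤ C * (s ^ 2 + X) by positivity)
      have h6 : 0 ≤ C * X * R ^ 4 := by positivity
      have h7 : R ^ 2 * NL = s ^ 2 * NL + u * NL := by rw [hRu]; ring
      linarith only [h3, h5, h6, h7, b5]
    have h2 := mul_le_mul_of_nonneg_left h1 (inv_pos.mpr hs).le
    have e2 : s⁻¹ * (10 * C * (s ^ 2 + X)) = 10 * C * (s + X / s) := by field_simp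
    have h3 := mul_le_mul_of_nonneg_left hsR (show 0 ≤ C by linarith)
    linarith only [h2, e2, h3]
  have m8 : R⁻¹ * (2 * (AH + DH) / R ^ 2) ≤ 24 * C * (R + X / s) := by
    have e1 : R⁻¹ * (2 * (AH + DH) / R ^ 2) = 2 * (AH + DH) / R ^ 3 := by field_simp
    have h1 := mul_le_mul_of_nonneg_right hC hP
    have h2 := mul_le_mul_of_nonneg_left hP4 (show 0 ≤ C by linarith)
    have h3 : 2 * (AH + DH) / R ^ 3 ≤ 24 * C * R := by
      rw [div_le_iff₀ (by positivity)]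
      linarith only [h1, h2, b2, b3]
    have h4 : 0 ≤ C * (X / s) := by positivity
    rw [e1]
    linarith only [h3, h4]
  have n1 := mul_le_mul_of_nonneg_left hL (inv_pos.mpr hs).le
  have n2 := mul_le_mul_of_nonneg_left hH (inv_pos.mpr hR).le
  have n3 := mul_le_mul_of_nonneg_left m3 hκ
  have n4 := mul_le_mul_of_nonneg_left m4 hκ
  have n5 := mul_le_mul_of_nonneg_left m6 hη
  have n6 := mul_le_mul_of_nonneg_left m7 (show 0 ≤ ε * s + β by positivity)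
  have n7 := mul_le_mul_of_nonneg_left m8 (show 0 ≤ ε * s + (β + 1 / 4) by positivity)
  have n8 : 0 ≤ C * (R + X / s) := by positivity
  linarith only [n1, n2, n3, n4, n5, n6, n7, n8, m1, m2, m5]

end Weight

open Weight in
theorem weightStmt {n : ℕ} (A : Api n) (Fl : Fld n) : WeightStmt n := by
  intro e he
  obtain ⟨K, c, hK, hc, hcone⟩ := cone_SS n
  obtain ⟨C, hC⟩ : ∃ C : ℝ, C = 10 ^ 7 + 2000 * n := ⟨_, rfl⟩
  have hn : (0 : ℝ) ≤ n := Nat.cast_nonneg n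
  have hC1 : 1 ≤ C := by linarith
  obtain ⟨η, hη⟩ : ∃ η : ℝ, η = π / 20 * Real.exp (-K) := ⟨_, rfl⟩
  have hη0 : 0 < η := by rw [hη]; positivity
  obtain ⟨κ, hκ⟩ : ∃ κ : ℝ, κ = min 1 (η / 4 / (912 * C)) := ⟨_, rfl⟩
  have hκ0 : 0 < κ := by rw [hκ]; positivity
  have hκ2 : κ * (912 * C) ≤ η / 4 := by
    rw [← le_div_iff₀ (by positivity), hκ]; exact min_le_right _ _
  obtain ⟨x₀, hx0, hx1, hx2⟩ := hb_unbounded (π / 20 / κ)
  refine ⟨K, η, κ, x₀, ⟨by linarith, hη0, ?_, hκ0.le, by rw [hκ]; exact min_le_left _ _, hx0, hx1,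
    by rwa [div_le_iff₀' hκ0] at hx2⟩, ?_⟩
  · rw [hη, mul_assoc, ← Real.exp_add]; simp
  intro β Ce hβ hCe
  obtain ⟨a, ha⟩ : ∃ a : ℝ, a = η * (c * x₀ ^ 2) / 4 := ⟨_, rfl⟩
  have ha0 : 0 < a := by rw [ha]; positivity
  refine ⟨1 + (68 * C * (β + 1) + Ce + 2) / a, a / (68 * C), ?_, by positivity, ?_⟩
  · have : 0 ≤ (68 * C * (β + 1) + Ce + 2) / a := by positivity
    linarith
  intro ε hε0 hε1 x hx h1 h2
  have hq : 0 ≤ (68 * C * (β + 1) + Ce + 2) / a := by positivity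
  obtain ⟨k1, k2⟩ := hcone e he _ x₀ (by positivity) hx0 hx1 x hx h1 h2
  obtain ⟨g1, hu, g3, g4⟩ := hx
  have hs1 : 1 ≤ x.1.1 := by linarith
  have hs : 0 < x.1.1 := by linarith
  have hp : x.1 ∈ Dm e := by
    refine ⟨hs, fun h => ?_, fun h => ?_⟩
    · rw [h, norm_zero] at g3
      have : 0 < x₀ ^ 2 * x.1.1 ^ 2 := by positivity
      linarith
    · rw [h, norm_zero] at g4
      have : 0 < x₀ ^ 2 * x.1.1 ^ 2 := by positivity
      linarith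
  have hR2 := R2_pos hs
  have hR := Real.sqrt_pos.mpr hR2
  have hsq : √(R2 x.1) ^ 2 = R2 x.1 := Real.sq_sqrt hR2.le
  have hRu : √(R2 x.1) ^ 2 = x.1.1 ^ 2 + ‖x.1.2‖ ^ 2 := hsq
  have hL := sum_L Fl he hp h1 h2 K η κ ε β (1 / 2) hκ0.le
  have hH := sum_H Fl he hp h1 h2 K η κ ε (β + 1 / 4) hκ0.le hε0 (by positivity)
  have hP4 := PP_le he h1 h2
  have hP := PP_nonneg e x
  have hw : 1 / 2 ≤ K / 2 * Real.exp (K * (x.1.1 / √(R2 x.1))) := by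
    have : 1 ≤ Real.exp (K * (x.1.1 / √(R2 x.1))) := Real.one_le_exp (by positivity)
    nlinarith only [this, hK]
  have hS : SS e K x = ∑ k, th K x.1 (fL k (zz e x)) +
    x.1.1 / √(R2 x.1) * ∑ l, ∑ m, th K x.1 (fH e l m (zz e x)) := rfl
  have l1 := (cone_L he hs hu h1 h2).1
  rw [← hC] at l1
  have hDH : DH e x ≤ C * PP e x :=
    (DH_le he x).trans (mul_le_mul_of_nonneg_right (by linarith) hP)
  rw [Lam, Err]
  generalize √(R2 x.1) = R at *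
  rw [← hsq] at hL hH hP4
  have key := real_fin hs hR hRu (sq_nonneg _) (sq_nonneg ‖x.2.1 + x.2.2‖) hC1 hP hη0.le hκ0.le hε0
    hβ hw hκ2 hS k1 (by linarith only [hP4]) k2
    ((NL_le e x).trans (mul_le_mul_of_nonneg_right (by linarith) hP)) (AH_le e x) hDH
    (by
      have u1 := mul_le_mul_of_nonneg_left (NH_le e x) (sq_nonneg x.1.1)
      have u2 := mul_le_mul_of_nonneg_left hDH (sq_nonneg x.1.1)
      have u3 := mul_le_mul_of_nonneg_left (AH_le e x) (sq_nonneg ‖x.1.2‖)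
      have u4 := mul_le_mul_of_nonneg_right hC1 (mul_nonneg (sq_nonneg ‖x.1.2‖) hP)
      have u5 : 0 ≤ C * (x.1.1 ^ 2 * PP e x) := by positivity
      have u6 : 0 ≤ C * (‖x.1.2‖ ^ 2 * PP e x) := by positivity
      have u7 : x.1.1 ^ 2 * (‖(x.1.1)⁻¹ • x.1.2‖ ^ 2 * AH e x) = ‖x.1.2‖ ^ 2 * AH e x := by
        rw [← norm_y hs]; ring
      rw [hRu]
      linarith only [u1, u2, u3, u4, u5, u6, u7])
    l1 hL hH
  refine le_trans ?_ key
  have hsR : x.1.1 ≤ R := le_of_abs_le (abs_le_of_sq_le_sq (by linarith [sq_nonneg ‖x.1.2‖]) hR.le)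
  have hY : 0 ≤ ‖x.2.1 + x.2.2‖ ^ 2 / x.1.1 := by positivity
  generalize ‖x.2.1 + x.2.2‖ ^ 2 / x.1.1 = Y at *
  have v1 : 68 * C * ε ≤ a := by rwa [le_div_iff₀' (by positivity)] at hε1
  have v2 : 68 * C * (β + 1) + Ce + 2 ≤ a * x.1.1 := by
    rw [← div_le_iff₀' ha0]; linarith
  have v3 := mul_le_mul_of_nonneg_right v1 hs.le
  have v4 : Ce + 2 ≤ η * (c * x₀ ^ 2) / 2 * x.1.1 - 68 * C * (ε * x.1.1 + β + 1) := by
    have : η * (c * x₀ ^ 2) / 2 = 2 * a := by rw [ha]; ring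
    rw [this]
    linarith only [v2, v3]
  have v5 := mul_le_mul_of_nonneg_right v4 (show 0 ≤ R + Y by positivity)
  linarith only [v5, hsR, hs1, hY]

end Pool.Agent.MP_71da5e_an.L

end
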