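import Pool.Agent.Mg.F71da5ea.G17b4dd
import Pool.Agent.Mg.F71da5ea.G8bae5f

section

namespace Pool.Agent.MP_71da5e_an.L.G

open MeasureTheory Metric Set Complex FourierTransform
open scoped ContDiff RealInnerProductSpace ENNReal Real ComplexConjugate

variable {n : ℕ}

/-- The real Gaussian. -/
noncomputable def ga (η : E n) : ℝ := Real.exp (-π * ‖η‖ ^ 2)

lemma ga_pos (η : E n) : 0 < ga η := Real.exp_pos _

lemma continuous_ga : Continuous (ga : E n → ℝ) := by unfold ga; fun_prop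

lemma ga_coe (η : E n) : (ga η : ℂ) = cexp (-(π : ℂ) * ‖η‖ ^ 2) := by simp [ga]

lemma integrable_ga_c : Integrable fun η : E n => (ga η : ℂ) := by
  have := GaussianFourier.integrable_cexp_neg_mul_sq_norm_add (V := E n) (b := π)
    (by simpa using Real.pi_pos) 0 0
  simpa [ga_coe] using this

lemma integrable_ga : Integrable (ga : E n → ℝ) := by
  simpa using (integrable_ga_c (n := n)).re

lemma integral_ga : ∫ η : E n, ga η = 1 := by
  have := GaussianFourier.integral_rexp_neg_mul_sq_norm (V := E n) Real.pi_pos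
  rw [div_self Real.pi_pos.ne', Real.one_rpow] at this
  exact this

lemma fourier_ga (η x : E n) :
    𝓕 (fun v : E n => (ga (η - v) : ℂ)) x = exf 0 (-η) x * ga x := by
  have hπ : (π : ℂ) ≠ 0 := by exact_mod_cast Real.pi_pos.ne'
  have h := GaussianFourier.integral_cexp_neg_mul_sq_norm_add (V := E n) (b := π)
    (by simpa using Real.pi_pos) (2 * π * I) x
  rw [div_self hπ, one_cpow, one_mul] at h
  rw [Real.fourier_eq', ← integral_sub_left_eq_self _ _ η]
  have e : ∀ v : E n, cexp (((-2 * π * ⟪η - v, x⟫ : ℝ) : ℂ) * I) • (ga (η - (η - v)) : ℂ) =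
      exf 0 (-η) x * cexp (-(π : ℂ) * ‖v‖ ^ 2 + 2 * π * I * ⟪x, v⟫) := fun v => by
    rw [sub_sub_cancel, ga_coe, exf_neg, smul_eq_mul, ← Complex.exp_add, ← Complex.exp_add,
      inner_sub_left, real_inner_comm x η, real_inner_comm x v]
    congr 1
    push_cast
    ring
  simp only [e]
  rw [integral_const_mul, h, ga_coe]
  congr 2
  field_simp
  rw [I_sq]
  ring

/-- The function `exp (π |x|²)`. -/
noncomputable def gi (x : E n) : ℂ := cexp ((π : ℂ) * ‖x‖ ^ 2)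

lemma continuous_gi : Continuous (gi : E n → ℂ) := by unfold gi; fun_prop

lemma gi_mul_ga (x : E n) : gi x * ga x = 1 := by
  rw [gi, ga_coe, ← Complex.exp_add]; simp

lemma norm_mulH_le {w : E n → ℂ} (hw : MemLp w ⊤ (mu n)) {A : ℝ}
    (h : ∀ x, ‖x‖ < 1 → ‖w x‖ ≤ A) (u : H n) : ‖mulH w u‖ ≤ A * ‖u‖ := by
  refine Lp.norm_le_mul_norm_of_ae_le_mul ?_
  filter_upwards [mulH_ae hw u, ae_mu h] with x h1 h2
  rw [h1, norm_mul]
  exact mul_le_mul_of_nonneg_right h2 (norm_nonneg _)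

lemma norm_gi_le {x : E n} (hx : ‖x‖ < 1) : ‖gi x‖ ≤ Real.exp π := by
  rw [gi, Complex.norm_exp]
  refine Real.exp_le_exp.2 ?_
  have : ((π : ℂ) * (‖x‖ : ℂ) ^ 2).re = π * ‖x‖ ^ 2 := by
    rw [← ofReal_pow, ← ofReal_mul, ofReal_re]
  rw [this]
  have h1 : ‖x‖ ^ 2 ≤ 1 := pow_le_one₀ (norm_nonneg _) hx.le
  nlinarith [Real.pi_pos]

lemma fh_conv (h : H n) (η : E n) :
    fh h η = ∫ v, fh (mulH gi h) v * (ga (η - v) : ℂ) := by
  have hg : Integrable fun v : E n => (ga (η - v) : ℂ) := integrable_ga_c.comp_sub_left η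
  rw [fh_eq (mulH gi h), integral_fourier_mul_swap (integrable_e0 _) hg, integral_e0_mul, fh, pr_eq]
  refine integral_congr_ae ?_
  filter_upwards [mulH_ae (memLp_cont continuous_gi ⊤) h, ex_ae 0 (-η)] with x h1 h2
  rw [h1, h2, fourier_ga]
  linear_combination (-(h x * exf 0 (-η) x)) * gi_mul_ga x

lemma norm_ex_zero (η : E n) : ‖ex 0 η‖ = ‖ex (0 : E n) 0‖ := by
  rw [Lp.norm_def, Lp.norm_def]
  congr 1
  refine eLpNorm_congr_norm_ae ?_
  filter_upwards [ex_ae 0 η, ex_ae (0 : E n) 0] with x h1 h2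
  rw [h1, h2, norm_exf, norm_exf]

lemma norm_fh_le (h : H n) (η : E n) : ‖fh h η‖ ≤ ‖h‖ * ‖ex (0 : E n) 0‖ :=
  (norm_pr_le _ _).trans_eq (by rw [norm_ex_zero])

lemma sq_fh_le (h : H n) (η : E n) :
    ‖fh h η‖ ^ 2 ≤ ∫ v, ‖fh (mulH gi h) v‖ ^ 2 * ga (η - v) := by
  set a := fh (mulH gi h)
  have ha : Continuous a := continuous_fh _
  have hg : Integrable fun v : E n => ga (η - v) := integrable_ga.comp_sub_left η
  have h1 : ∫ v : E n, ga (η - v) = 1 := by rw [integral_sub_left_eq_self ga _ η, integral_ga]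
  obtain ⟨A, hA⟩ : ∃ A, ∀ v, ‖a v‖ ≤ A := ⟨_, norm_fh_le _⟩
  have i1 : Integrable fun v => ‖a v‖ * ga (η - v) :=
    hg.bdd_mul (c := A) ha.norm.aestronglyMeasurable
      (Filter.Eventually.of_forall fun v => by simpa using hA v)
  have i2 : Integrable fun v => ‖a v‖ ^ 2 * ga (η - v) :=
    hg.bdd_mul (c := A ^ 2) (ha.norm.pow 2).aestronglyMeasurable
      (Filter.Eventually.of_forall fun v => by
        simpa using pow_le_pow_left₀ (norm_nonneg _) (hA v) 2)
  set m := ∫ v, ‖a v‖ * ga (η - v) with hm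
  have hle : ‖fh h η‖ ≤ m := by
    rw [fh_conv]
    refine (norm_integral_le_integral_norm _).trans_eq ?_
    congr 1
    funext v
    rw [norm_mul, Complex.norm_real, Real.norm_of_nonneg (ga_pos _).le]
  have key : ∫ v, 2 * m * (‖a v‖ * ga (η - v)) ≤
      ∫ v, (‖a v‖ ^ 2 * ga (η - v) + m ^ 2 * ga (η - v)) := by
    refine integral_mono (i1.const_mul _) (i2.add (hg.const_mul _)) fun v => ?_
    have := mul_nonneg (sq_nonneg (‖a v‖ - m)) (ga_pos (η - v)).le
    simp only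
    nlinarith
  rw [integral_const_mul, integral_add i2 (hg.const_mul _), integral_const_mul, h1, ← hm] at key
  have := pow_le_pow_left₀ (norm_nonneg _) hle 2
  nlinarith

lemma lintegral_sq_fh (h : H n) :
    ∫⁻ η, ENNReal.ofReal (‖fh h η‖ ^ 2) = ENNReal.ofReal (‖h‖ ^ 2) := by
  rw [← integral_sq_fh, ofReal_integral_eq_lintegral_ofReal (integrable_sq_fh h)
    (Filter.Eventually.of_forall fun η => sq_nonneg _)]

lemma ofReal_integral_le {α : Type} [MeasurableSpace α] {μ : Measure α} {f : α → ℝ}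
    (hf : ∀ x, 0 ≤ f x) : ENNReal.ofReal (∫ x, f x ∂μ) ≤ ∫⁻ x, ENNReal.ofReal (f x) ∂μ := by
  refine (Real.ofReal_le_enorm _).trans ((enorm_integral_le_lintegral_enorm _).trans_eq ?_)
  exact lintegral_congr fun x => Real.enorm_of_nonneg (hf x)

lemma gs_eq (v η : E n) : gs v η = ENNReal.ofReal (ga (η - v)) := rfl

/-- The Gaussian trick. -/
theorem gauss {W : E n → ℝ≥0∞} (hW : Measurable W) {β : ℝ≥0∞}
    (hβ : ∀ η₀, ∫⁻ η, W η * gs η₀ η ≤ β) (h : H n) :
    ∫⁻ η, W η * ENNReal.ofReal (‖fh h η‖ ^ 2) ≤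
      β * ENNReal.ofReal (Real.exp (2 * π) * ‖h‖ ^ 2) := by
  set a := fh (mulH gi h)
  have ha : Continuous a := continuous_fh _
  have hga : Measurable (ga : E n → ℝ) := continuous_ga.measurable
  have h1 : ∀ η, ENNReal.ofReal (‖fh h η‖ ^ 2) ≤
      ∫⁻ v, ENNReal.ofReal (‖a v‖ ^ 2) * gs v η := fun η => by
    refine (ENNReal.ofReal_le_ofReal (sq_fh_le h η)).trans ?_
    refine (ofReal_integral_le fun v => mul_nonneg (sq_nonneg _) (ga_pos _).le).trans_eq ?_
    exact lintegral_congr fun v => ENNReal.ofReal_mul (sq_nonneg _)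
  have hm : Measurable fun p : E n × E n =>
      W p.1 * (ENNReal.ofReal (‖a p.2‖ ^ 2) * gs p.2 p.1) := by
    simp only [gs_eq]
    have := ha.measurable
    fun_prop
  have h2 : ‖mulH gi h‖ ^ 2 ≤ Real.exp (2 * π) * ‖h‖ ^ 2 := by
    have := norm_mulH_le (memLp_cont continuous_gi ⊤) (fun x hx => norm_gi_le hx) h
    refine (pow_le_pow_left₀ (norm_nonneg _) this 2).trans_eq ?_
    rw [mul_pow, ← Real.exp_nat_mul]
    norm_num
  calc ∫⁻ η, W η * ENNReal.ofReal (‖fh h η‖ ^ 2)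
      ≤ ∫⁻ η, ∫⁻ v, W η * (ENNReal.ofReal (‖a v‖ ^ 2) * gs v η) := by
        refine lintegral_mono fun η => ?_
        refine (mul_le_mul_right (h1 η) _).trans ?_
        exact lintegral_const_mul_le _ _
    _ = ∫⁻ v, ∫⁻ η, W η * (ENNReal.ofReal (‖a v‖ ^ 2) * gs v η) :=
        lintegral_lintegral_swap hm.aemeasurable
    _ ≤ ∫⁻ v, β * ENNReal.ofReal (‖a v‖ ^ 2) := by
        refine lintegral_mono fun v => ?_
        simp only [mul_left_comm _ (ENNReal.ofReal (‖a v‖ ^ 2))]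
        rw [lintegral_const_mul' _ _ ENNReal.ofReal_ne_top, mul_comm]
        exact mul_le_mul_left (hβ v) _
    _ = β * ENNReal.ofReal (‖mulH gi h‖ ^ 2) := by
        rw [lintegral_const_mul _ (by have := ha.measurable; fun_prop), lintegral_sq_fh]
    _ ≤ _ := mul_le_mul_right (ENNReal.ofReal_le_ofReal h2) _

end Pool.Agent.MP_71da5e_an.L.G

end

section

namespace Pool.Agent.MP_71da5e_an.L.G

open MeasureTheory Metric Set Complex FourierTransform
open scoped ContDiff RealInnerProductSpace ENNReal Real ComplexConjugate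

variable {n : ℕ}

lemma exists_op (b : H n →ₗ[ℂ] H n →ₗ[ℂ] ℂ) {M : ℝ} (hM : 0 ≤ M)
    (hb : ∀ h k, ‖b h k‖ ≤ M * ‖h‖ * ‖k‖) :
    ∃ T : H n →L[ℂ] H n, ∀ h k, pr (T h) k = b h k := by
  have h1 : ∀ h, ∃ y : H n, ∀ k, pr y k = b h k := fun h =>
    ⟨cj ((InnerProductSpace.toDual ℂ (H n)).symm ((b h).mkContinuous _ (hb h))), fun k => by
      rw [pr_cj, InnerProductSpace.toDual_symm_apply]; rfl⟩
  choose T hT using h1
  let L : H n →ₗ[ℂ] H n :=
    { toFun := T
      map_add' := fun x y => eq_of_pr fun k => by simp [hT]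
      map_smul' := fun c x => eq_of_pr fun k => by simp [hT] }
  refine ⟨L.mkContinuous M fun h => ?_, hT⟩
  exact norm_le_of_pr (by positivity) fun k => by
    change ‖pr (T h) k‖ ≤ _
    rw [hT]; exact hb h k

lemma memLp_fh_neg (k : H n) : MemLp (fun η => fh k (-η)) 2 :=
  (memLp_fh k).comp_measurePreserving (Measure.measurePreserving_neg _)

lemma integrable_fh_mul (h k : H n) : Integrable fun η => fh h η * fh k (-η) :=
  (memLp_fh h).integrable_mul (memLp_fh_neg k)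

lemma integrable_sq_fh_neg (k : H n) : Integrable fun η => ‖fh k (-η)‖ ^ 2 :=
  (integrable_sq_fh k).comp_neg

lemma integral_sq_fh_neg (k : H n) : ∫ η, ‖fh k (-η)‖ ^ 2 = ‖k‖ ^ 2 := by
  rw [integral_neg_eq_self (fun η => ‖fh k η‖ ^ 2), integral_sq_fh]

lemma bdd_integrable {σ : E n → ℂ} (hσ : Bdd σ) {w : E n → ℂ} (hw : Integrable w) :
    Integrable fun η => σ η * w η :=
  let ⟨hm, _, hC⟩ := hσ
  hw.bdd_mul hm.aestronglyMeasurable (Filter.Eventually.of_forall hC)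

lemma bdd_integrable_norm {σ : E n → ℂ} (hσ : Bdd σ) {w : E n → ℝ} (hw : Integrable w) :
    Integrable fun η => ‖σ η‖ * w η :=
  let ⟨hm, C, hC⟩ := hσ
  hw.bdd_mul (c := C) hm.norm.aestronglyMeasurable
    (Filter.Eventually.of_forall fun η => by simpa using hC η)

lemma fh_add (h k : H n) (η : E n) : fh (h + k) η = fh h η + fh k η := by simp [fh]

lemma fh_smul (c : ℂ) (h : H n) (η : E n) : fh (c • h) η = c * fh h η := by simp [fh]

lemma fh_zero (η : E n) : fh (0 : H n) η = 0 := by simp [fh]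

lemma form_le {σ : E n → ℂ} (hσ : Bdd σ) {β : ℝ}
    (h1 : ∀ h : H n, ∫ η, ‖σ η‖ * ‖fh h η‖ ^ 2 ≤ β * ‖h‖ ^ 2)
    (h2 : ∀ h : H n, ∫ η, ‖σ η‖ * ‖fh h (-η)‖ ^ 2 ≤ β * ‖h‖ ^ 2) (h k : H n) :
    ‖∫ η, σ η * (fh h η * fh k (-η))‖ ≤ β * ‖h‖ * ‖k‖ := by
  rcases eq_or_ne h 0 with rfl | hh
  · simp [fh_zero]
  rcases eq_or_ne k 0 with rfl | hk
  · simp [fh_zero]
  have hh' := norm_pos_iff.2 hh
  have hk' := norm_pos_iff.2 hk
  have i1 := bdd_integrable_norm hσ (integrable_sq_fh h)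
  have i2 := bdd_integrable_norm hσ (integrable_sq_fh_neg k)
  have key : ∫ η, 2 * (‖h‖ * ‖k‖) * ‖σ η * (fh h η * fh k (-η))‖ ≤
      ∫ η, (‖k‖ ^ 2 * (‖σ η‖ * ‖fh h η‖ ^ 2) + ‖h‖ ^ 2 * (‖σ η‖ * ‖fh k (-η)‖ ^ 2)) := by
    refine integral_mono ((bdd_integrable hσ (integrable_fh_mul h k)).norm.const_mul _)
      ((i1.const_mul _).add (i2.const_mul _)) fun η => ?_
    have := mul_nonneg (norm_nonneg (σ η)) (sq_nonneg (‖k‖ * ‖fh h η‖ - ‖h‖ * ‖fh k (-η)‖))
    simp only [norm_mul]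
    nlinarith
  rw [integral_const_mul, integral_add (i1.const_mul _) (i2.const_mul _), integral_const_mul,
    integral_const_mul] at key
  have e1 := mul_le_mul_of_nonneg_left (h1 h) (sq_nonneg ‖k‖)
  have e2 := mul_le_mul_of_nonneg_left (h2 k) (sq_nonneg ‖h‖)
  refine (norm_integral_le_integral_norm _).trans ?_
  refine le_of_mul_le_mul_left ?_ (by positivity : 0 < 2 * (‖h‖ * ‖k‖))
  nlinarith

lemma exists_mult {σ : E n → ℂ} (hσ : Bdd σ) :
    ∃ T : H n →L[ℂ] H n, ∀ h k, pr (T h) k = ∫ η, σ η * (fh h η * fh k (-η)) := by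
  obtain ⟨C, hC⟩ := hσ.2
  have hC0 : 0 ≤ C := (norm_nonneg _).trans (hC 0)
  have i := fun h k : H n => bdd_integrable hσ (integrable_fh_mul h k)
  refine exists_op (LinearMap.mk₂ ℂ (fun h k => ∫ η, σ η * (fh h η * fh k (-η))) ?_ ?_ ?_ ?_) hC0
    (form_le hσ (fun h => ?_) fun h => ?_)
  · intro h h' k
    rw [← integral_add (i h k) (i h' k)]
    congr 1; funext η; rw [fh_add]; ring
  · intro c h k
    rw [smul_eq_mul, ← integral_const_mul]
    congr 1; funext η; rw [fh_smul]; ring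
  · intro h k k'
    rw [← integral_add (i h k) (i h k')]
    congr 1; funext η; rw [fh_add]; ring
  · intro c h k
    rw [smul_eq_mul, ← integral_const_mul]
    congr 1; funext η; rw [fh_smul]; ring
  · rw [← integral_sq_fh, ← integral_const_mul]
    exact integral_mono (bdd_integrable_norm hσ (integrable_sq_fh h))
      ((integrable_sq_fh h).const_mul _) fun η => mul_le_mul_of_nonneg_right (hC η) (sq_nonneg _)
  · rw [← integral_sq_fh_neg, ← integral_const_mul]
    exact integral_mono (bdd_integrable_norm hσ (integrable_sq_fh_neg h))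
      ((integrable_sq_fh_neg h).const_mul _) fun η =>
        mul_le_mul_of_nonneg_right (hC η) (sq_nonneg _)

open Classical in
/-- The Fourier multiplier with symbol `σ`, compressed to the ball. -/
noncomputable def Op (σ : E n → ℂ) : H n →L[ℂ] H n :=
  if h : Bdd σ then (exists_mult h).choose else 0

lemma pr_Op {σ : E n → ℂ} (hσ : Bdd σ) (h k : H n) :
    pr (Op σ h) k = ∫ η, σ η * (fh h η * fh k (-η)) := by
  rw [Op, dif_pos hσ]; exact (exists_mult hσ).choose_spec h k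

lemma norm_Op_le {σ : E n → ℂ} (hσ : Bdd σ) {β : ℝ} (hβ : 0 ≤ β)
    (h1 : ∀ h : H n, ∫ η, ‖σ η‖ * ‖fh h η‖ ^ 2 ≤ β * ‖h‖ ^ 2)
    (h2 : ∀ h : H n, ∫ η, ‖σ η‖ * ‖fh h (-η)‖ ^ 2 ≤ β * ‖h‖ ^ 2) : ‖Op σ‖ ≤ β :=
  ContinuousLinearMap.opNorm_le_bound _ hβ fun h => norm_le_of_pr (by positivity) fun k => by
    rw [pr_Op hσ]; exact form_le hσ h1 h2 h k

/-- The Gaussian trick for the reflected transform. -/
theorem gauss_neg {W : E n → ℝ≥0∞} (hW : Measurable W) {β : ℝ≥0∞}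
    (hβ : ∀ η₀, ∫⁻ η, W η * gs η₀ η ≤ β) (h : H n) :
    ∫⁻ η, W η * ENNReal.ofReal (‖fh h (-η)‖ ^ 2) ≤
      β * ENNReal.ofReal (Real.exp (2 * π) * ‖h‖ ^ 2) := by
  have := gauss hW hβ (cj h)
  rw [norm_cj] at this
  simpa only [← conj_fh_cj, Complex.norm_conj] using this

lemma real_of_lintegral {W u : E n → ℝ} (hW : ∀ η, 0 ≤ W η) (hu : ∀ η, 0 ≤ u η)
    (hm : AEStronglyMeasurable fun η => W η * u η) {β c : ℝ} (hβ : 0 ≤ β) (hc : 0 ≤ c)
    (h : ∫⁻ η, ENNReal.ofReal (W η) * ENNReal.ofReal (u η) ≤ ENNReal.ofReal β * ENNReal.ofReal c) :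
    ∫ η, W η * u η ≤ β * c := by
  rw [integral_eq_lintegral_of_nonneg_ae
    (Filter.Eventually.of_forall fun η => mul_nonneg (hW η) (hu η)) hm]
  refine ENNReal.toReal_le_of_le_ofReal (mul_nonneg hβ hc) ?_
  rw [ENNReal.ofReal_mul hβ]
  simpa only [ENNReal.ofReal_mul (hW _)] using h

/-- The norm of a multiplier from local masses of its symbol. -/
theorem norm_Op_le_gauss {σ : E n → ℂ} (hσ : Bdd σ) {β : ℝ} (hβ : 0 ≤ β)
    (h : ∀ η₀, ∫⁻ η, ENNReal.ofReal ‖σ η‖ * gs η₀ η ≤ ENNReal.ofReal β) :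
    ‖Op σ‖ ≤ β * Real.exp (2 * π) := by
  have hm : Measurable fun η => ENNReal.ofReal ‖σ η‖ := hσ.1.norm.ennreal_ofReal
  refine norm_Op_le hσ (by positivity) (fun k => ?_) fun k => ?_
  · rw [mul_assoc]
    exact real_of_lintegral (fun _ => norm_nonneg _) (fun _ => sq_nonneg _)
      (bdd_integrable_norm hσ (integrable_sq_fh k)).1 hβ (by positivity) (gauss hm h k)
  · rw [mul_assoc]
    exact real_of_lintegral (fun _ => norm_nonneg _) (fun _ => sq_nonneg _)
      (bdd_integrable_norm hσ (integrable_sq_fh_neg k)).1 hβ (by positivity) (gauss_neg hm h k)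

end Pool.Agent.MP_71da5e_an.L.G

end

section

namespace Pool.Agent.MP_71da5e_an.L

open MeasureTheory Metric Set Laplacian Complex
open scoped ContDiff RealInnerProductSpace ENNReal Real ComplexConjugate

namespace G

variable {n : ℕ}

lemma mulH_eq_zero {w : E n → ℂ} (hw : ¬MemLp w ⊤ (mu n)) : mulH w = 0 := by rw [mulH, dif_neg hw]

lemma opNorm_mulH (w : E n → ℂ) (c : ℝ) (hc : 0 ≤ c) (h : ∀ x, ‖x‖ < 1 → ‖w x‖ ≤ c) :
    ‖mulH w‖ ≤ c := by
  by_cases hw : MemLp w ⊤ (mu n)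
  · exact ContinuousLinearMap.opNorm_le_bound _ hc (norm_mulH_le hw h)
  · rw [mulH_eq_zero hw, norm_zero]; exact hc

lemma pr_mulH (w : E n → ℂ) (h k : H n) : pr (mulH w h) k = pr h (mulH w k) := by
  by_cases hw : MemLp w ⊤ (mu n)
  · rw [pr_eq, pr_eq]
    refine integral_congr_ae ?_
    filter_upwards [mulH_ae hw h, mulH_ae hw k] with x h1 h2
    rw [h1, h2]; ring
  · simp [mulH_eq_zero hw]

lemma mulH_comm (w w' : E n → ℂ) (h : H n) : mulH w (mulH w' h) = mulH w' (mulH w h) := by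
  by_cases hw : MemLp w ⊤ (mu n)
  · by_cases hw' : MemLp w' ⊤ (mu n)
    · refine Lp.ext ?_
      filter_upwards [mulH_ae hw (mulH w' h), mulH_ae hw' h, mulH_ae hw' (mulH w h), mulH_ae hw h]
        with x h1 h2 h3 h4
      rw [h1, h2, h3, h4]; ring
    · simp [mulH_eq_zero hw']
  · simp [mulH_eq_zero hw]

lemma norm_Mx (a : E n) : ‖Mx a‖ ≤ Real.exp (2 * π * ‖a‖) := by
  refine opNorm_mulH _ _ (Real.exp_pos _).le fun x hx => ?_
  rw [norm_exf]
  refine Real.exp_le_exp.2 (mul_le_mul_of_nonneg_left ?_ (by positivity))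
  exact (real_inner_le_norm a x).trans (mul_le_of_le_one_right (norm_nonneg _) hx.le)

lemma norm_ex (a b : E n) : ‖ex a b‖ ≤ ‖ex (0 : E n) 0‖ * Real.exp (2 * π * ‖a‖) := by
  have : ex a b = Mx a (ex 0 b) := by rw [Mx_ex, add_zero]
  rw [this, mul_comm, ← norm_ex_zero b]
  exact (ContinuousLinearMap.le_opNorm _ _).trans
    (mul_le_mul_of_nonneg_right (norm_Mx a) (norm_nonneg _))

lemma riesz (β : H n →L[ℂ] H n →L[ℂ] ℂ) :
    ∃ T : H n →L[ℂ] H n, ‖T‖ ≤ ‖β‖ ∧ ∀ h k, pr (T h) k = β h k := by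
  obtain ⟨T, hT⟩ := exists_op (n := n) (LinearMap.mk₂ ℂ (fun h k => β h k) (by simp) (by simp)
    (by simp) (by simp)) β.opNorm_nonneg fun h k => β.le_opNorm₂ h k
  refine ⟨T, ContinuousLinearMap.opNorm_le_bound _ β.opNorm_nonneg fun h => ?_, hT⟩
  exact norm_le_of_pr (mul_nonneg β.opNorm_nonneg (norm_nonneg _)) fun k => by
    rw [hT]; exact β.le_opNorm₂ h k

lemma transp (T : H n →L[ℂ] H n) :
    ∃ T' : H n →L[ℂ] H n, ‖T'‖ ≤ ‖T‖ ∧ ∀ h k, pr (T h) k = pr h (T' k) := by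
  have hb : ∀ k h : H n, ‖pr (T h) k‖ ≤ ‖T‖ * ‖k‖ * ‖h‖ := fun k h =>
    (norm_pr_le _ _).trans (by
      have := mul_le_mul_of_nonneg_right (T.le_opNorm h) (norm_nonneg k)
      linarith)
  obtain ⟨S, hS⟩ := exists_op (n := n) (LinearMap.mk₂ ℂ (fun k h => pr (T h) k) (by simp) (by simp)
    (by simp) (by simp)) (norm_nonneg T) hb
  refine ⟨S, ContinuousLinearMap.opNorm_le_bound _ (norm_nonneg _) fun k => ?_, fun h k => ?_⟩
  · exact norm_le_of_pr (by positivity) fun h => by rw [hS]; exact hb k h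
  · rw [pr_comm h, hS]; rfl

lemma nsq_zc (a b : E n) : nsq (zc a b) = ‖a‖ ^ 2 + ‖b‖ ^ 2 := by
  rw [EuclideanSpace.real_norm_sq_eq, EuclideanSpace.real_norm_sq_eq, ← Finset.sum_add_distrib]
  refine Finset.sum_congr rfl fun k _ => ?_
  rw [zc, Complex.sq_norm, Complex.normSq_add_mul_I]

lemma pz_eq (a b : E n) :
    pz a b = ((‖a‖ ^ 2 - ‖b‖ ^ 2 : ℝ) : ℂ) + ((2 * ⟪a, b⟫ : ℝ) : ℂ) * I := by
  rw [EuclideanSpace.real_norm_sq_eq, EuclideanSpace.real_norm_sq_eq, PiLp.inner_apply]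
  push_cast
  rw [Finset.mul_sum, Finset.sum_mul, ← Finset.sum_sub_distrib, ← Finset.sum_add_distrib, pz, bd]
  refine Finset.sum_congr rfl fun k _ => ?_
  simp only [zc, RCLike.inner_apply, conj_trivial, ofReal_mul]
  linear_combination (b k : ℂ) ^ 2 * I_sq

lemma smooth_pz : ContDiff ℝ ∞ fun y : E n × E n => pz y.1 y.2 := by
  have h : ∀ k : Fin n, ContDiff ℝ ∞ fun y : E n × E n => zc y.1 y.2 k := fun k => by
    have h1 : ContDiff ℝ ∞ fun y : E n × E n => ((y.1 k : ℝ) : ℂ) :=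
      ofRealCLM.contDiff.comp (by fun_prop)
    have h2 : ContDiff ℝ ∞ fun y : E n × E n => ((y.2 k : ℝ) : ℂ) :=
      ofRealCLM.contDiff.comp (by fun_prop)
    exact h1.add (h2.mul contDiff_const)
  unfold pz bd
  exact ContDiff.sum fun k _ => (h k).mul (h k)

end G

theorem api (n : ℕ) : Api n where
  pr_eq := G.pr_eq
  pr_comm := G.pr_comm
  pr_le := G.norm_pr_le
  norm_le_of_pr _ _ hc h := G.norm_le_of_pr hc h
  ext_pr _ _ h := G.eq_of_pr h
  norm_sq := G.norm_sq_H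
  coe_toH _ h := G.toH_ae h
  mem_cont _ h := ⟨G.memLp_cont h _, G.memLp_cont h _⟩
  mem_bdd _ h := memLp_top_of_bound h.1.aestronglyMeasurable _
    (Filter.Eventually.of_forall h.2.choose_spec)
  coe_mulH _ hw := G.mulH_ae hw
  norm_mulH := G.opNorm_mulH
  pr_mulH := G.pr_mulH
  mulH_comm := G.mulH_comm
  cont_exf := by unfold exf; fun_prop
  norm_exf := G.norm_exf
  exf_add a b a' b' x := (G.exf_mul a b a' b' x).symm
  coe_ex := G.ex_ae
  coe_Mx := G.Mx_ae
  Mx_ex := G.Mx_ex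
  Mx_Mx := G.Mx_Mx
  Mx_zero := G.Mx_zero
  norm_Mx := G.norm_Mx
  norm_ex := ⟨_, norm_nonneg _, G.norm_ex⟩
  riesz := G.riesz
  transp := G.transp
  nsq_zc := G.nsq_zc
  pz_eq := G.pz_eq
  smooth_pz := G.smooth_pz

end Pool.Agent.MP_71da5e_an.L

end

section

namespace Pool.Agent.MP_71da5e_an.L.G

open MeasureTheory Metric Set Complex FourierTransform Laplacian
open scoped ContDiff RealInnerProductSpace ENNReal Real ComplexConjugate

variable {n : ℕ} {lam tau : ℝ}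

lemma continuous_pz (a : E n) : Continuous (pz a) := by unfold pz bd zc; fun_prop

lemma lintegral_gs (η₀ : E n) : ∫⁻ η, gs η₀ η = 1 := by
  simp only [gs_eq]
  rw [lintegral_sub_right_eq_self (fun η : E n => ENNReal.ofReal (ga η)),
    ← ofReal_integral_eq_lintegral_ofReal integrable_ga
      (Filter.Eventually.of_forall fun η => (ga_pos η).le), integral_ga, ENNReal.ofReal_one]

lemma measurable_gs (η₀ : E n) : Measurable (gs η₀) := by unfold gs; fun_prop

lemma g_le (ρ : Reg lam tau) {p : ℂ} {R : ℝ} (hR : 0 < R) (hp : R ≤ ‖p‖) : ‖ρ.g p‖ ≤ R⁻¹ := by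
  have := ρ.g_le p
  rw [norm_mul] at this
  rw [inv_eq_one_div, le_div_iff₀ hR]
  nlinarith [norm_nonneg (ρ.g p)]

lemma bdd_g (ρ : Reg lam tau) (a : E n) : Bdd fun η => ρ.g (pz a η) := by
  have hc := ρ.g_smooth.continuous
  obtain ⟨C, hC⟩ := (isCompact_closedBall (0 : ℂ) 1).exists_bound_of_continuousOn hc.continuousOn
  refine ⟨(hc.comp (continuous_pz a)).measurable, max C 1, fun η => ?_⟩
  rcases le_total ‖pz a η‖ 1 with h | h
  · exact (hC _ (mem_closedBall_zero_iff.2 h)).trans (le_max_left _ _)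
  · exact (g_le ρ one_pos h).trans (by simp)

lemma bdd_rho (ρ : Reg lam tau) (a : E n) : Bdd fun η => 1 - pz a η * ρ.g (pz a η) := by
  have hc := ρ.g_smooth.continuous
  have hp := continuous_pz a
  exact ⟨(by fun_prop : Continuous fun η => 1 - pz a η * ρ.g (pz a η)).measurable, 1,
    fun η => ρ.one_sub _⟩

lemma lintegral_g (ρ : Reg lam tau) {R : ℝ} (hR : 0 ≤ R) :
    ∫⁻ p, (closedBall (0 : ℂ) R).indicator (fun p => ENNReal.ofReal ‖ρ.g p‖) p ≤
      ENNReal.ofReal (R * (2 * π)) := by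
  rw [← Complex.lintegral_comp_polarCoord_symm]
  calc _ ≤ ∫⁻ p in _root_.polarCoord.target, (Ioc 0 R ×ˢ Ioo (-π) π).indicator 1 p := by
        refine setLIntegral_mono' _root_.polarCoord.open_target.measurableSet fun p hp => ?_
        rw [polarCoord_target] at hp
        have h0 : 0 < p.1 := hp.1
        have hn : ‖Complex.polarCoord.symm p‖ = p.1 := by
          rw [Complex.norm_polarCoord_symm, abs_of_pos h0]
        by_cases h : p.1 ≤ R
        · rw [indicator_of_mem (by rwa [mem_closedBall_zero_iff, hn]),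
            indicator_of_mem (show p ∈ Ioc 0 R ×ˢ Ioo (-π) π from ⟨⟨h0, h⟩, hp.2⟩), smul_eq_mul,
            ← ENNReal.ofReal_mul h0.le, Pi.one_apply, ENNReal.ofReal_le_one]
          have := ρ.g_le (Complex.polarCoord.symm p)
          rwa [norm_mul, hn] at this
        · rw [indicator_of_notMem (by rwa [mem_closedBall_zero_iff, hn])]
          simp
    _ ≤ ∫⁻ p, (Ioc 0 R ×ˢ Ioo (-π) π).indicator 1 p := setLIntegral_le_lintegral _ _
    _ = ENNReal.ofReal (R * (2 * π)) := by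
        rw [lintegral_indicator_one (measurableSet_Ioc.prod measurableSet_Ioo),
          Measure.volume_eq_prod, Measure.prod_prod, Real.volume_Ioc, Real.volume_Ioo,
          ← ENNReal.ofReal_mul (by simpa using hR)]
        congr 1
        ring

/-- The hypothesis on integrals over the imaginary part. -/
def Up (n : ℕ) (C : ℝ) : Prop :=
  ∀ a : E n, 4 ≤ ‖a‖ → ∀ k : ℂ → ℝ≥0∞, Measurable k → (∀ p, ‖a‖ < ‖p‖ → k p = 0) →
    ∀ η₀, ∫⁻ η, k (pz a η) * gs η₀ η ≤ ENNReal.ofReal (C / ‖a‖ ^ 2) * ∫⁻ p, k p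

lemma mass_g {C : ℝ} (hC : 0 ≤ C) (hU : Up n C) (ρ : Reg lam tau) {a : E n} (ha : 4 ≤ ‖a‖)
    (η₀ : E n) : ∫⁻ η, ENNReal.ofReal ‖ρ.g (pz a η)‖ * gs η₀ η ≤
      ENNReal.ofReal ((C * (2 * π) + 1) / ‖a‖) := by
  have ha0 : 0 < ‖a‖ := by linarith
  set k := (closedBall (0 : ℂ) ‖a‖).indicator (fun p => ENNReal.ofReal ‖ρ.g p‖) with hk
  have hm : Measurable k :=
    ρ.g_smooth.continuous.measurable.norm.ennreal_ofReal.indicator measurableSet_closedBall
  have h1 := hU a ha k hm (fun p hp => indicator_of_notMem (by simpa using hp) _) η₀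
  have h2 : ∀ p, ENNReal.ofReal ‖ρ.g p‖ ≤ k p + ENNReal.ofReal ‖a‖⁻¹ := fun p => by
    rcases le_total ‖p‖ ‖a‖ with h | h
    · rw [hk, indicator_of_mem (by simpa using h)]; exact le_self_add
    · exact (ENNReal.ofReal_le_ofReal (g_le ρ ha0 h)).trans le_add_self
  calc _ ≤ ∫⁻ η, (k (pz a η) * gs η₀ η + ENNReal.ofReal ‖a‖⁻¹ * gs η₀ η) :=
        lintegral_mono fun η => by rw [← add_mul]; exact mul_le_mul_left (h2 _) _
    _ = (∫⁻ η, k (pz a η) * gs η₀ η) + ENNReal.ofReal ‖a‖⁻¹ := by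
        rw [lintegral_add_right _ ((measurable_gs η₀).const_mul _),
          lintegral_const_mul _ (measurable_gs η₀), lintegral_gs, mul_one]
    _ ≤ ENNReal.ofReal (C / ‖a‖ ^ 2) * ENNReal.ofReal (‖a‖ * (2 * π)) + ENNReal.ofReal ‖a‖⁻¹ :=
        add_le_add_left (h1.trans (mul_le_mul_right (lintegral_g ρ ha0.le) _)) _
    _ = _ := by
        rw [← ENNReal.ofReal_mul (by positivity), ← ENNReal.ofReal_add (by positivity)
          (by positivity)]
        congr 1
        field_simp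

lemma mass_rho {C : ℝ} (hC : 0 ≤ C) (hU : Up n C) (h0 : 0 < lam) (h1 : lam ≤ 1) (ρ : Reg lam tau)
    {a : E n} (ha : 4 ≤ ‖a‖) (η₀ : E n) :
    ∫⁻ η, ENNReal.ofReal ‖1 - pz a η * ρ.g (pz a η)‖ * gs η₀ η ≤ ENNReal.ofReal (C * π * lam) := by
  set k : ℂ → ℝ≥0∞ := (closedBall (0 : ℂ) lam).indicator 1 with hk
  have hm : Measurable k := measurable_one.indicator measurableSet_closedBall
  have h2 := hU a ha k hm (fun p hp => indicator_of_notMem (by
    rw [mem_closedBall_zero_iff, not_le]; linarith) _) η₀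
  have h3 : ∀ p, ENNReal.ofReal ‖1 - p * ρ.g p‖ ≤ k p := fun p => by
    rcases le_total ‖p‖ lam with h | h
    · rw [hk, indicator_of_mem (by simpa using h)]
      exact ENNReal.ofReal_le_one.2 (ρ.one_sub p)
    · simp [ρ.g_eq p h]
  refine (lintegral_mono fun η => mul_le_mul_left (h3 _) _).trans (h2.trans ?_)
  rw [hk, lintegral_indicator_one measurableSet_closedBall, Complex.volume_closedBall,
    ← ENNReal.ofReal_pow h0.le, ← ENNReal.ofReal_coe_nnreal, NNReal.coe_real_pi,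
    ← ENNReal.ofReal_mul (by positivity), ← ENNReal.ofReal_mul (by positivity)]
  refine ENNReal.ofReal_le_ofReal ?_
  have h4 : C / ‖a‖ ^ 2 ≤ C := div_le_self hC (by nlinarith)
  have h5 : lam ^ 2 * π ≤ π * lam := by nlinarith [Real.pi_pos, mul_pos Real.pi_pos h0]
  calc C / ‖a‖ ^ 2 * (lam ^ 2 * π) ≤ C * (π * lam) := mul_le_mul h4 h5 (by positivity) hC
    _ = _ := by ring

lemma mass_ph {C : ℝ} (hC : 0 ≤ C) (hU : Up n C) (h1 : lam ≤ 1) (ρ : Reg lam tau)
    {a : E n} (ha : 4 ≤ ‖a‖) (η₀ : E n) :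
    ∫⁻ η, ENNReal.ofReal (ρ.ph (pz a η)) * gs η₀ η ≤ ENNReal.ofReal (C / ‖a‖ ^ 2 * π) := by
  have hc := ρ.γ_smooth.continuous
  have hm : Measurable fun p => ENNReal.ofReal (ρ.ph p) := by
    unfold Reg.ph
    exact ((hc.norm.pow 2).measurable).ennreal_ofReal
  have h2 := hU a ha _ hm (fun p hp => by
    rw [Reg.ph, ρ.γ_zero p (by linarith)]; simp) η₀
  rw [ENNReal.ofReal_mul (by positivity), ← ρ.mass]
  exact h2

/-- The operator without its normalisation. -/
noncomputable def G' (ρ : Reg lam tau) (a : E n) : H n →L[ℂ] H n :=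
  Mx a ∘L Op (fun η => ρ.g (pz a η)) ∘L Mx (-a)

lemma fh_neg (k : H n) (η : E n) : fh k (-η) = pr k (ex 0 η) := by rw [fh, neg_neg]

lemma pr_G' (ρ : Reg lam tau) (a : E n) (h k : H n) :
    pr (G' ρ a h) k = ∫ η, ρ.g (pz a η) * pr h (ex (-a) (-η)) * pr k (ex a η) := by
  change pr (Mx a (Op _ (Mx (-a) h))) k = _
  rw [pr_Mx, pr_Op (bdd_g ρ a)]
  congr 1
  funext η
  rw [fh_neg, fh, pr_Mx_ex, pr_Mx_ex, add_zero, add_zero, mul_assoc]

lemma wk_G' (hW : WkEx n) (ρ : Reg lam tau) (a : E n) (h : H n) :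
    Wk ((((4 * π ^ 2)⁻¹ : ℝ) : ℂ) • G' ρ a (Mx a h))
      (Mx a (h - Op (fun η => 1 - pz a η * ρ.g (pz a η)) h)) := by
  intro φ hφ hs
  have hπ : ((4 * π ^ 2 : ℝ) : ℂ) ≠ 0 := by exact_mod_cast (by positivity : 4 * π ^ 2 ≠ 0)
  have i1 := integrable_fh_mul h (Mx a (toH φ))
  rw [pr_Mx, map_sub, sub_apply, pr_Op (bdd_rho ρ a), ← integral_fh_mul h,
    ← integral_sub i1 (bdd_integrable (bdd_rho ρ a) i1), map_smul, smul_apply,
    pr_G', smul_eq_mul, ← integral_const_mul]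
  congr 1
  funext η
  have := hW a η φ hφ hs
  rw [map_smul, smul_apply, smul_eq_mul] at this
  rw [pr_comm (toH (Δ φ)), this, pr_Mx_ex, add_neg_cancel, fh_neg, pr_Mx_ex, add_zero,
    pr_comm (ex a η), fh, ofReal_inv]
  field_simp
  ring

theorem gopStmt (hCa : CaUp n) (hDg : DgStmt n) (hW : WkEx n) : GopStmt n := by
  obtain ⟨C, hC, hU⟩ := hCa
  replace hU : Up n C := fun a ha k hk h0 => (hU a ha k hk h0).1
  have hπ := Real.pi_pos
  have hE : 0 < Real.exp (2 * π) := Real.exp_pos _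
  refine ⟨(C * (2 * π) + 1) * Real.exp (2 * π), by positivity, fun lam tau h0 h1 ρ => ?_⟩
  obtain ⟨hc, hd⟩ := hDg lam tau ρ (G' ρ) (pr_G' ρ)
  set c : ℂ := (((4 * π ^ 2)⁻¹ : ℝ) : ℂ) with hc0
  have hcn : ‖c‖ ≤ 1 := by
    rw [hc0, Complex.norm_real, Real.norm_of_nonneg (by positivity)]
    exact inv_le_one_of_one_le₀ (by nlinarith [Real.pi_gt_three])
  refine ⟨⟨fun a => c • G' ρ a, fun a => c • Op fun η => ρ.g (pz a η), hc.const_smul c,
    fun a δ h => ?_, fun a h => ?_, fun a ha => ?_, fun a ha h => ?_, fun a ha h => ?_⟩⟩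
  · rw [fderiv_fun_const_smul (hc.differentiable one_ne_zero a)]
    change c • fderiv ℝ (G' ρ) a δ h = _
    rw [hd, ← integral_smul]
    congr 1
    funext η
    rw [smul_smul, hc0]
    congr 1
    have : (π : ℂ) ≠ 0 := by exact_mod_cast hπ.ne'
    push_cast
    field_simp
  · change c • Mx a (Op _ (Mx (-a) (Mx a h))) = Mx a (c • Op _ h)
    rw [Mx_neg_Mx, map_smul]
  · have := norm_Op_le_gauss (bdd_g ρ a) (by positivity) (mass_g hC hU ρ ha)
    rw [norm_smul]
    calc _ ≤ 1 * ((C * (2 * π) + 1) / ‖a‖ * Real.exp (2 * π)) :=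
          mul_le_mul hcn this (norm_nonneg _) zero_le_one
      _ = _ := by ring
  · refine ⟨_, ?_, wk_G' hW ρ a h⟩
    have := norm_Op_le_gauss (bdd_rho ρ a) (by positivity) (mass_rho hC hU h0 h1 ρ ha)
    refine (ContinuousLinearMap.le_opNorm _ _).trans (mul_le_mul_of_nonneg_right
      (this.trans ?_) (norm_nonneg _))
    have : 0 ≤ (C * π + 1) * Real.exp (2 * π) * lam := by positivity
    nlinarith
  · have hm : Measurable fun η => ENNReal.ofReal (ρ.ph (pz a η)) := by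
      unfold Reg.ph
      exact (((ρ.γ_smooth.continuous.comp (continuous_pz a)).norm.pow 2).measurable).ennreal_ofReal
    have hp : ∀ η, 0 ≤ ρ.ph (pz a η) := fun η => sq_nonneg _
    have hle : ENNReal.ofReal (C / ‖a‖ ^ 2 * π) * ENNReal.ofReal (Real.exp (2 * π) * ‖h‖ ^ 2) ≤
        ENNReal.ofReal ((C * (2 * π) + 1) * Real.exp (2 * π) / ‖a‖ ^ 2 * ‖h‖ ^ 2) := by
      rw [← ENNReal.ofReal_mul (by positivity)]
      refine ENNReal.ofReal_le_ofReal ?_
      have : 0 ≤ (C * π + 1) * Real.exp (2 * π) / ‖a‖ ^ 2 * ‖h‖ ^ 2 := by positivity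
      calc C / ‖a‖ ^ 2 * π * (Real.exp (2 * π) * ‖h‖ ^ 2)
          ≤ C / ‖a‖ ^ 2 * π * (Real.exp (2 * π) * ‖h‖ ^ 2) +
            (C * π + 1) * Real.exp (2 * π) / ‖a‖ ^ 2 * ‖h‖ ^ 2 := le_add_of_nonneg_right this
        _ = _ := by ring
    simp only [ENNReal.ofReal_mul (hp _)]
    exact ⟨by simpa only [fh_neg] using (gauss_neg hm (mass_ph hC hU h1 ρ ha) h).trans hle,
      (gauss hm (mass_ph hC hU h1 ρ ha) h).trans hle⟩

end Pool.Agent.MP_71da5e_an.L.G

end

section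

namespace Pool.Agent.MP_71da5e_an.L

open MeasureTheory Metric Set Laplacian Complex
open scoped ContDiff RealInnerProductSpace ENNReal Real ComplexConjugate

theorem gopStmt {n : ℕ} (_A : Api n) (_Ex : ExStmt n) (_P : Pars n) (_Ga : Gauss n)
    (_Op : OpStmt n)
    (Up : CaUp n) (We : WkEx n) (Dg : DgStmt n) : GopStmt n :=
  G.gopStmt Up Dg We

end Pool.Agent.MP_71da5e_an.L

end

section

namespace Pool.Agent.MP_71da5e_an.L

open MeasureTheory Metric Set Laplacian Complex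
open scoped ContDiff RealInnerProductSpace ENNReal Real ComplexConjugate

namespace G

variable {n : ℕ}

lemma integrable_of_lintegral {W u : E n → ℝ} (hW : ∀ η, 0 ≤ W η) (hu : ∀ η, 0 ≤ u η)
    (hm : AEStronglyMeasurable fun η => W η * u η) {β c : ℝ}
    (h : ∫⁻ η, ENNReal.ofReal (W η) * ENNReal.ofReal (u η) ≤ ENNReal.ofReal β * ENNReal.ofReal c) :
    Integrable fun η => W η * u η := by
  refine ⟨hm, (hasFiniteIntegral_iff_ofReal
    (Filter.Eventually.of_forall fun η => mul_nonneg (hW η) (hu η))).2 ?_⟩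
  simp only [ENNReal.ofReal_mul (hW _)]
  exact h.trans_lt (ENNReal.mul_lt_top ENNReal.ofReal_lt_top ENNReal.ofReal_lt_top)

lemma form_le' {σ : E n → ℂ} (hσ : Measurable σ) {β : ℝ}
    (h1 : ∀ h : H n, Integrable (fun η => ‖σ η‖ * ‖fh h η‖ ^ 2) ∧
      ∫ η, ‖σ η‖ * ‖fh h η‖ ^ 2 ≤ β * ‖h‖ ^ 2)
    (h2 : ∀ h : H n, Integrable (fun η => ‖σ η‖ * ‖fh h (-η)‖ ^ 2) ∧
      ∫ η, ‖σ η‖ * ‖fh h (-η)‖ ^ 2 ≤ β * ‖h‖ ^ 2) (h k : H n) :
    Integrable (fun η => σ η * fh h η * fh k (-η)) ∧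
      ‖∫ η, σ η * fh h η * fh k (-η)‖ ≤ β * ‖h‖ * ‖k‖ := by
  have i1 := (h1 h).1
  have i2 := (h2 k).1
  have i0 : Integrable fun η => σ η * fh h η * fh k (-η) := by
    refine (i1.add i2).mono' ((hσ.mul (continuous_fh h).measurable).mul
      ((continuous_fh k).comp continuous_neg).measurable).aestronglyMeasurable
      (Filter.Eventually.of_forall fun η => ?_)
    have := mul_nonneg (norm_nonneg (σ η)) (sq_nonneg (‖fh h η‖ - ‖fh k (-η)‖))
    have := mul_nonneg (mul_nonneg (norm_nonneg (σ η)) (norm_nonneg (fh h η)))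
      (norm_nonneg (fh k (-η)))
    simp only [norm_mul, Pi.add_apply]
    nlinarith
  refine ⟨i0, ?_⟩
  rcases eq_or_ne h 0 with rfl | hh
  · simp [fh_zero]
  rcases eq_or_ne k 0 with rfl | hk
  · simp [fh_zero]
  have hh' := norm_pos_iff.2 hh
  have hk' := norm_pos_iff.2 hk
  have key : ∫ η, 2 * (‖h‖ * ‖k‖) * ‖σ η * fh h η * fh k (-η)‖ ≤
      ∫ η, (‖k‖ ^ 2 * (‖σ η‖ * ‖fh h η‖ ^ 2) + ‖h‖ ^ 2 * (‖σ η‖ * ‖fh k (-η)‖ ^ 2)) := by
    refine integral_mono (i0.norm.const_mul _) ((i1.const_mul _).add (i2.const_mul _)) fun η => ?_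
    have := mul_nonneg (norm_nonneg (σ η)) (sq_nonneg (‖k‖ * ‖fh h η‖ - ‖h‖ * ‖fh k (-η)‖))
    simp only [norm_mul]
    nlinarith
  rw [integral_const_mul, integral_add (i1.const_mul _) (i2.const_mul _), integral_const_mul,
    integral_const_mul] at key
  have e1 := mul_le_mul_of_nonneg_left (h1 h).2 (sq_nonneg ‖k‖)
  have e2 := mul_le_mul_of_nonneg_left (h2 k).2 (sq_nonneg ‖h‖)
  refine (norm_integral_le_integral_norm _).trans ?_
  refine le_of_mul_le_mul_left ?_ (by positivity : 0 < 2 * (‖h‖ * ‖k‖))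
  nlinarith

theorem op_stmt : OpStmt n := by
  intro σ hσ c hc h0
  have hm : Measurable fun η => ENNReal.ofReal ‖σ η‖ := hσ.norm.ennreal_ofReal
  have key := form_le' hσ (β := Real.exp (2 * π) * c) (fun k => by
    have m1 : AEStronglyMeasurable fun η => ‖σ η‖ * ‖fh k η‖ ^ 2 :=
      (hσ.norm.mul ((continuous_fh k).norm.pow 2).measurable).aestronglyMeasurable
    refine ⟨integrable_of_lintegral (fun _ => norm_nonneg _) (fun _ => sq_nonneg _) m1
      (gauss hm h0 k), ?_⟩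
    rw [mul_comm _ c, mul_assoc]
    exact real_of_lintegral (fun _ => norm_nonneg _) (fun _ => sq_nonneg _) m1 hc (by positivity)
      (gauss hm h0 k)) (fun k => by
    have m1 : AEStronglyMeasurable fun η => ‖σ η‖ * ‖fh k (-η)‖ ^ 2 :=
      (hσ.norm.mul (((continuous_fh k).comp continuous_neg).norm.pow 2).measurable
        ).aestronglyMeasurable
    refine ⟨integrable_of_lintegral (fun _ => norm_nonneg _) (fun _ => sq_nonneg _) m1
      (gauss_neg hm h0 k), ?_⟩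
    rw [mul_comm _ c, mul_assoc]
    exact real_of_lintegral (fun _ => norm_nonneg _) (fun _ => sq_nonneg _) m1 hc (by positivity)
      (gauss_neg hm h0 k))
  have i := fun h k => (key h k).1
  have hM : 0 ≤ Real.exp (2 * π) * c := by positivity
  obtain ⟨T, hT⟩ := exists_op
    (LinearMap.mk₂ ℂ (fun h k : H n => ∫ η, σ η * fh h η * fh k (-η))
      (fun h h' k => by
        rw [← integral_add (i h k) (i h' k)]
        congr 1; funext η; rw [fh_add]; ring)
      (fun c h k => by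
        rw [smul_eq_mul, ← integral_const_mul]
        congr 1; funext η; rw [fh_smul]; ring)
      (fun h k k' => by
        rw [← integral_add (i h k) (i h k')]
        congr 1; funext η; rw [fh_add]; ring)
      (fun c h k => by
        rw [smul_eq_mul, ← integral_const_mul]
        congr 1; funext η; rw [fh_smul]; ring)) hM fun h k => (key h k).2
  have e : ∀ (k : H n) (η : E n), pr k (ex 0 η) = fh k (-η) := fun k η => by rw [fh, neg_neg]
  refine ⟨T, ContinuousLinearMap.opNorm_le_bound _ hM fun h => ?_, fun h k => ?_⟩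
  · exact norm_le_of_pr (by positivity) fun k => by rw [hT]; exact (key h k).2
  · simp only [e k]
    exact ⟨i h k, hT h k⟩

end G

theorem opStmt {n : ℕ} (_A : Api n) (_Ex : ExStmt n) (_Ga : Gauss n) : OpStmt n :=
  G.op_stmt

end Pool.Agent.MP_71da5e_an.L

end

section

namespace Pool.Agent.MP_71da5e_an.L

open MeasureTheory Metric Set Laplacian Complex
open scoped ContDiff RealInnerProductSpace ENNReal Real ComplexConjugate

theorem pars {n : ℕ} (_A : Api n) : Pars n := fun h => by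
  have e : ∀ (k : H n) (η : E n), pr k (ex 0 η) = G.fh k (-η) := fun k η => by rw [G.fh, neg_neg]
  refine ⟨by simpa only [e h] using G.memLp_fh_neg h, ?_, fun k => ?_⟩
  · simp only [e h]
    rw [lintegral_neg_eq_self (fun η => ENNReal.ofReal (‖G.fh h η‖ ^ 2)), G.lintegral_sq_fh]
  · simp only [e k]
    exact G.integral_fh_mul h k

end Pool.Agent.MP_71da5e_an.L

end
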