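import Pool.Agent.Mg.F71da5ea.G8bae5f
import Pool.Agent.Mg.F71da5ea.G17b4dd

section

namespace Pool.Agent.MP_71da5e_an.L

open MeasureTheory Metric Set Laplacian Complex
open scoped ContDiff RealInnerProductSpace ENNReal Real ComplexConjugate

variable {n : ℕ}

lemma fib_Abs {f g : X n → ℝ≥0∞} (hg : Measurable g) {c : ℝ≥0∞} (hc : c ≠ ⊤)
    (h : ∀ p, ∫⁻ b, f (p, b) ≤ c * ∫⁻ b, g (p, b)) : ∫⁻ x, f x ≤ c * ∫⁻ x, g x := by
  rw [Measure.volume_eq_prod, lintegral_prod g hg.aemeasurable, ← lintegral_const_mul' _ _ hc]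
  exact (lintegral_prod_le f).trans (lintegral_mono h)

lemma pp_nonneg_Abs {lam tau : ℝ} (ρ : Reg lam tau) (e : E n) (x : X n) : 0 ≤ pp ρ e x :=
  mul_nonneg (sq_nonneg _) (sq_nonneg _)

lemma nsq_le_Abs (A : Api n) {a b : E n} (ha : 4 ≤ ‖a‖) (h : ‖pz a b‖ ≤ 1) :
    nsq (zc a b) ≤ 3 * ‖a‖ ^ 2 := by
  have h1 := (Complex.abs_re_le_norm _).trans h
  rw [A.pz_eq] at h1
  simp only [add_re, ofReal_re, mul_re, I_re, mul_zero, ofReal_im, I_im, mul_one, sub_self,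
    add_zero] at h1
  rw [A.nsq_zc]
  nlinarith [(abs_le.1 h1).1]

lemma coord_le_Abs (u : V n) (k : Fin n) : ‖u k‖ ^ 2 ≤ nsq u :=
  Finset.single_le_sum (f := fun k => ‖u k‖ ^ 2) (fun _ _ => sq_nonneg _) (Finset.mem_univ k)

lemma nsq_nonneg_Abs (u : V n) : 0 ≤ nsq u := Finset.sum_nonneg fun _ _ => sq_nonneg _

lemma ob_Abs {e : E n} {a₀ x₀ s₀ R₀ : ℝ} (hx : 0 < x₀) (ha : a₀ < x₀ * s₀) {p : B n}
    (hp : p ∈ Sp e s₀ x₀ R₀) : p ∈ Ob e a₀ := by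
  obtain ⟨⟨h₁, -, h₂, h₃⟩, -⟩ := hp
  have h4 : x₀ * s₀ ≤ x₀ * p.1 := mul_le_mul_of_nonneg_left h₁ hx.le
  rw [← mul_pow] at h₂ h₃
  exact ⟨ha.trans_le (h4.trans (le_of_sq_le_sq h₂ (norm_nonneg _))),
    ha.trans_le (h4.trans (le_of_sq_le_sq h₃ (norm_nonneg _)))⟩

lemma sum_Abs {e : E n} (he : ‖e‖ = 1) (p : B n) :
    ‖a1 e p‖ ^ 2 + ‖a2 e p‖ ^ 2 = p.1 ^ 2 / 2 + 2 * ‖p.2‖ ^ 2 := by
  have h := parallelogram_law_with_norm ℝ ((p.1 / 2) • e) p.2
  rw [norm_smul, he, mul_one, Real.norm_eq_abs] at h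
  unfold a1 a2
  have h2 : |p.1 / 2| * |p.1 / 2| = p.1 ^ 2 / 4 := by rw [abs_mul_abs_self]; ring
  nlinarith [h]

lemma ratio_Abs {e a b : E n} (he : ‖e‖ = 1) {s x₀ : ℝ} (hx : 0 < x₀) (h : a + b = s • e)
    (ha : x₀ ^ 2 * s ^ 2 ≤ ‖a‖ ^ 2) : ‖b‖ ^ 2 ≤ (2 + 2 / x₀ ^ 2) * ‖a‖ ^ 2 := by
  have h1 : ‖b‖ ≤ |s| + ‖a‖ := by
    rw [eq_sub_of_add_eq' h]
    refine (norm_sub_le _ _).trans ?_
    rw [norm_smul, he, mul_one, Real.norm_eq_abs]
  have h2 : s ^ 2 ≤ ‖a‖ ^ 2 / x₀ ^ 2 := by rw [le_div_iff₀ (by positivity)]; linarith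
  have h3 : ‖b‖ ^ 2 ≤ (|s| + ‖a‖) ^ 2 := pow_le_pow_left₀ (norm_nonneg _) h1 2
  have h4 : (2 + 2 / x₀ ^ 2) * ‖a‖ ^ 2 = 2 * ‖a‖ ^ 2 + 2 * (‖a‖ ^ 2 / x₀ ^ 2) := by ring
  nlinarith [sq_abs s, sq_nonneg (|s| - ‖a‖)]

lemma step_Abs {f g h : E n × E n → ℝ} {u c d : ℝ} (hu : 0 ≤ u) (hd : 0 ≤ d) (hc : 0 ≤ c)
    (h₁ : ∫⁻ b, ENNReal.ofReal (f b) ≤ ENNReal.ofReal d * ∫⁻ b, ENNReal.ofReal (g b))
    (h₂ : ∀ b, u * (d * g b) ≤ c * h b) :
    ∫⁻ b, ENNReal.ofReal (u * f b) ≤ ENNReal.ofReal c * ∫⁻ b, ENNReal.ofReal (h b) := by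
  simp only [ENNReal.ofReal_mul hu]
  rw [lintegral_const_mul' _ _ ENNReal.ofReal_ne_top]
  refine (mul_le_mul' le_rfl h₁).trans ?_
  rw [← lintegral_const_mul' _ _ ENNReal.ofReal_ne_top,
    ← lintegral_const_mul' _ _ ENNReal.ofReal_ne_top,
    ← lintegral_const_mul' _ _ ENNReal.ofReal_ne_top]
  refine lintegral_mono fun b => ?_
  simp only
  rw [← ENNReal.ofReal_mul hd, ← ENNReal.ofReal_mul hu, ← ENNReal.ofReal_mul hc]
  exact ENNReal.ofReal_le_ofReal (h₂ b)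

theorem absStmt {n : ℕ} (A : Api n) (Fl : Fld n) : AbsStmt n := by
  intro e he C a₀ x₀ hC ha₀ hx₀
  obtain ⟨Cf, hCf, hsz⟩ := Fl.size
  set cL : ℝ := 36 * C * (Cf + 1) * (2 + 2 / x₀ ^ 2) with hcL
  set cH : ℝ := 18 * C * (Cf + 1) with hcH
  have hcL0 : 0 ≤ cL := by positivity
  have hcH0 : 0 ≤ cH := by positivity
  refine ⟨n * cL + n * (n * cH), by positivity, ?_⟩
  intro s₀ R₀ lam tau hs₀ ha hlam hlam1 ρ F hF hB w hw hw0 hws
  have hO : IsOpen {x : X n | x.1 ∈ Ob e a₀} := by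
    have h1 : Continuous fun x : X n => ‖a1 e x.1‖ := by unfold a1; fun_prop
    have h2 : Continuous fun x : X n => ‖a2 e x.1‖ := by unfold a2; fun_prop
    exact (isOpen_lt continuous_const h1).inter (isOpen_lt continuous_const h2)
  have hpp : Continuous (pp ρ e) := by
    have h1 := ρ.γ_smooth.continuous
    have h2 := A.smooth_pz.continuous
    have h3 : Continuous (p1 e : X n → ℂ) :=
      h2.comp (f := fun x : X n => (a1 e x.1, x.2.1)) (by unfold a1; fun_prop)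
    have h4 : Continuous (p2 e : X n → ℂ) :=
      h2.comp (f := fun x : X n => (a2 e x.1, x.2.2)) (by unfold a2; fun_prop)
    unfold pp Reg.ph
    fun_prop
  have hJ : Measurable fun x : X n =>
      ENNReal.ofReal (w x.1 * Err 1 x * pp ρ e x * ‖F x‖ ^ 2) := by
    classical
    have h1 := hF.continuousOn.measurable_piecewise
      (continuousOn_const (c := (0 : ℂ))) hO.measurableSet
    have h2 : (fun x : X n => ENNReal.ofReal (w x.1 * Err 1 x * pp ρ e x * ‖F x‖ ^ 2)) =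
        fun x : X n => ENNReal.ofReal (w x.1 * Err 1 x * pp ρ e x *
          ‖{x : X n | x.1 ∈ Ob e a₀}.piecewise F (fun _ => 0) x‖ ^ 2) := by
      funext x
      by_cases hx : x.1 ∈ Sp e s₀ x₀ R₀
      · rw [piecewise_eq_of_mem _ _ _ (show x ∈ {x : X n | x.1 ∈ Ob e a₀} from
          ob_Abs hx₀ ha hx)]
      · simp [hws _ hx]
    have h3 := hpp.measurable
    rw [h2]
    unfold Err R2
    fun_prop
  have hM : ∀ p ∈ Ob e a₀, ∀ b, ‖p1 e (p, b)‖ ≤ lam → ‖p2 e (p, b)‖ ≤ lam →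
      nsq (z1 e (p, b)) ≤ 3 * ‖a1 e p‖ ^ 2 ∧ nsq (z2 e (p, b)) ≤ 3 * ‖a2 e p‖ ^ 2 ∧
      Cf * (nsq (z1 e (p, b)) * nsq (z2 e (p, b))) ≤
        9 * (Cf + 1) * (‖a1 e p‖ ^ 2 * ‖a2 e p‖ ^ 2) := fun p hp b h₁ h₂ => by
    have h3 := nsq_le_Abs A (ha₀.trans hp.1.le) (h₁.trans hlam1)
    have h4 := nsq_le_Abs A (ha₀.trans hp.2.le) (h₂.trans hlam1)
    refine ⟨h3, h4, ?_⟩
    have h5 := mul_le_mul h3 h4 (nsq_nonneg_Abs _) (by positivity)
    have h6 := mul_le_mul_of_nonneg_left h5 hCf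
    have h7 : 0 ≤ ‖a1 e p‖ ^ 2 * ‖a2 e p‖ ^ 2 := by positivity
    exact h6.trans (by nlinarith)
  have hL : ∀ k, ∫⁻ x : X n, ENNReal.ofReal (w x.1 * (x.1.1)⁻¹ * pp ρ e x *
      ‖dbar e F x (fL k (zz e x))‖ ^ 2) ≤ ENNReal.ofReal cL *
      ∫⁻ x : X n, ENNReal.ofReal (w x.1 * Err 1 x * pp ρ e x * ‖F x‖ ^ 2) := fun k => by
    refine fib_Abs hJ ENNReal.ofReal_ne_top fun p => ?_
    by_cases hp : p ∈ Sp e s₀ x₀ R₀
    swap
    · simp [hws _ hp]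
    have hp' := ob_Abs hx₀ ha hp
    have hs : 1 ≤ p.1 := hs₀.trans hp.1.1
    have h1 : 4 ≤ ‖a1 e p‖ := ha₀.trans hp'.1.le
    have h2 : 4 ≤ ‖a2 e p‖ := ha₀.trans hp'.2.le
    have h3 := hB.errL p hp' (fun b => fL k (zz e (p, b)))
      (9 * (Cf + 1) * (‖a1 e p‖ ^ 2 * ‖a2 e p‖ ^ 2)) (by positivity) fun b h₁ h₂ => by
        obtain ⟨h4, h5, h6⟩ := hM p hp' b h₁ h₂
        have h7 := Fl.tanL k (zz e (p, b))
        have h8 : ‖p1 e (p, b)‖ ^ 2 ≤ 1 := pow_le_one₀ (norm_nonneg _) (h₁.trans hlam1)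
        have h9 : ‖p2 e (p, b)‖ ^ 2 ≤ 1 := pow_le_one₀ (norm_nonneg _) (h₂.trans hlam1)
        have h10 : 0 ≤ Cf * (‖a1 e p‖ ^ 2 * ‖a2 e p‖ ^ 2) := by positivity
        have h11 : 1 ≤ ‖a1 e p‖ ^ 2 := one_le_pow₀ (by linarith)
        have h12 : 1 ≤ ‖a2 e p‖ ^ 2 := one_le_pow₀ (by linarith)
        refine ⟨rfl, ((hsz e he _).2 k).trans h6, ?_, ?_⟩
        · refine (congrArg (‖·‖ ^ 2) h7.1).trans_le ?_
          have := mul_le_mul ((coord_le_Abs _ k).trans h5) h8 (sq_nonneg _) (by positivity)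
          simp only [norm_mul, mul_pow]
          exact this.trans (by nlinarith)
        · refine (congrArg (‖·‖ ^ 2) h7.2).trans_le ?_
          have := mul_le_mul ((coord_le_Abs _ k).trans h4) h9 (sq_nonneg _) (by positivity)
          simp only [norm_mul, mul_pow]
          exact this.trans (by nlinarith)
    simp only [mul_assoc (w p * (p.1)⁻¹)]
    refine step_Abs (mul_nonneg (hw0 p) (by positivity)) (by positivity) hcL0 h3 fun b => ?_
    have h4 : a1 e p + a2 e p = p.1 • e := by unfold a1 a2; module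
    have h5 := ratio_Abs he hx₀ h4 hp.1.2.2.1
    have h6 := ratio_Abs he hx₀ ((add_comm _ _).trans h4) hp.1.2.2.2
    have h7 : ‖a1 e p‖ ^ 2 * ‖a2 e p‖ ^ 2 * ((‖a1 e p‖ ^ 4)⁻¹ + (‖a2 e p‖ ^ 4)⁻¹) ≤
        2 * (2 + 2 / x₀ ^ 2) := by
      have e1 : ‖a1 e p‖ ^ 2 * ‖a2 e p‖ ^ 2 * ((‖a1 e p‖ ^ 4)⁻¹ + (‖a2 e p‖ ^ 4)⁻¹) =
          ‖a2 e p‖ ^ 2 / ‖a1 e p‖ ^ 2 + ‖a1 e p‖ ^ 2 / ‖a2 e p‖ ^ 2 := by
        field_simp
      rw [e1, two_mul]
      exact add_le_add ((div_le_iff₀ (by positivity)).2 h5) ((div_le_iff₀ (by positivity)).2 h6)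
    have h8 : (p.1)⁻¹ * (p.1 ^ 2 + ‖b.1 + b.2‖ ^ 2 + 1) ≤ 2 * Err 1 (p, b) := by
      have e1 : p.1 ≤ √(R2 p) := Real.le_sqrt_of_sq_le (le_add_of_nonneg_right (sq_nonneg _))
      have e2 : (p.1)⁻¹ ≤ 1 := inv_le_one_of_one_le₀ hs
      have e3 : (p.1)⁻¹ * (p.1 ^ 2 + ‖b.1 + b.2‖ ^ 2 + 1) =
          p.1 + ‖b.1 + b.2‖ ^ 2 / p.1 + (p.1)⁻¹ := by field_simp
      have e4 : 0 ≤ ‖b.1 + b.2‖ ^ 2 / p.1 := by positivity
      rw [e3]
      unfold Err
      linarith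
    have h9 := mul_le_mul h7 h8 (by positivity) (by positivity)
    have h10 : 0 ≤ w p * pp ρ e (p, b) * ‖F (p, b)‖ ^ 2 * (9 * C * (Cf + 1)) :=
      mul_nonneg (mul_nonneg (mul_nonneg (hw0 p) (pp_nonneg_Abs _ _ _)) (sq_nonneg _))
        (by positivity)
    have h11 := mul_le_mul_of_nonneg_left h9 h10
    refine le_of_eq_of_le ?_ (h11.trans_eq ?_)
    · ring
    · rw [hcL]; ring
  have hH : ∀ l m, ∫⁻ x : X n, ENNReal.ofReal (w x.1 * (√(R2 x.1))⁻¹ * pp ρ e x *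
      ‖dbar e F x (fH e l m (zz e x))‖ ^ 2) ≤ ENNReal.ofReal cH *
      ∫⁻ x : X n, ENNReal.ofReal (w x.1 * Err 1 x * pp ρ e x * ‖F x‖ ^ 2) := fun l m => by
    refine fib_Abs hJ ENNReal.ofReal_ne_top fun p => ?_
    by_cases hp : p ∈ Sp e s₀ x₀ R₀
    swap
    · simp [hws _ hp]
    have hp' := ob_Abs hx₀ ha hp
    have hs : 1 ≤ p.1 := hs₀.trans hp.1.1
    have h1 : 4 ≤ ‖a1 e p‖ := ha₀.trans hp'.1.le
    have h2 : 4 ≤ ‖a2 e p‖ := ha₀.trans hp'.2.le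
    have h3 := hB.errH p hp' (fun b => fH e l m (zz e (p, b)))
      (9 * (Cf + 1) * (‖a1 e p‖ ^ 2 * ‖a2 e p‖ ^ 2)) (by positivity) fun b h₁ h₂ =>
        ⟨((hsz e he _).1 l m).2.1.trans (hM p hp' b h₁ h₂).2.2,
          ((hsz e he _).1 l m).2.2.trans (hM p hp' b h₁ h₂).2.2⟩
    simp only [mul_assoc (w p * (√(R2 p))⁻¹)]
    refine step_Abs (mul_nonneg (hw0 p) (by positivity)) (by positivity) hcH0 h3 fun b => ?_
    have h7 : ‖a1 e p‖ ^ 2 * ‖a2 e p‖ ^ 2 * ((‖a1 e p‖ ^ 2)⁻¹ + (‖a2 e p‖ ^ 2)⁻¹) * (√(R2 p))⁻¹ ≤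
        2 * Err 1 (p, b) := by
      have e0 : 0 < R2 p := by unfold R2; positivity
      have e1 : ‖a1 e p‖ ^ 2 * ‖a2 e p‖ ^ 2 * ((‖a1 e p‖ ^ 2)⁻¹ + (‖a2 e p‖ ^ 2)⁻¹) =
          ‖a1 e p‖ ^ 2 + ‖a2 e p‖ ^ 2 := by
        field_simp
        ring
      have e2 : ‖a1 e p‖ ^ 2 + ‖a2 e p‖ ^ 2 ≤ 2 * √(R2 p) * √(R2 p) := by
        rw [mul_assoc, Real.mul_self_sqrt e0.le, sum_Abs he]
        unfold R2
        nlinarith [sq_nonneg p.1]
      have e4 : 0 ≤ ‖b.1 + b.2‖ ^ 2 / p.1 := by positivity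
      rw [e1, mul_inv_le_iff₀ (Real.sqrt_pos.2 e0)]
      refine e2.trans (mul_le_mul_of_nonneg_right ?_ (Real.sqrt_nonneg _))
      unfold Err
      linarith
    have h10 : 0 ≤ w p * pp ρ e (p, b) * ‖F (p, b)‖ ^ 2 * (9 * C * (Cf + 1)) :=
      mul_nonneg (mul_nonneg (mul_nonneg (hw0 p) (pp_nonneg_Abs _ _ _)) (sq_nonneg _))
        (by positivity)
    have h11 := mul_le_mul_of_nonneg_left h7 h10
    refine le_of_eq_of_le ?_ (h11.trans_eq ?_)
    · ring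
    · rw [hcH]; ring
  refine (add_le_add (Finset.sum_le_sum fun k _ => hL k)
    (Finset.sum_le_sum fun l _ => Finset.sum_le_sum fun m _ => hH l m)).trans (le_of_eq ?_)
  simp only [Finset.sum_const, Finset.card_univ, Fintype.card_fin, nsmul_eq_mul]
  have e1 : ∀ x : X n, ENNReal.ofReal (w x.1 * Err (n * cL + n * (n * cH)) x * pp ρ e x *
      ‖F x‖ ^ 2) = ENNReal.ofReal (n * cL + n * (n * cH)) *
      ENNReal.ofReal (w x.1 * Err 1 x * pp ρ e x * ‖F x‖ ^ 2) := fun x => by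
    rw [← ENNReal.ofReal_mul (by positivity)]
    congr 1
    unfold Err
    ring
  simp only [e1]
  rw [lintegral_const_mul' _ _ ENNReal.ofReal_ne_top,
    ENNReal.ofReal_add (by positivity) (by positivity), ENNReal.ofReal_mul n.cast_nonneg,
    ENNReal.ofReal_mul n.cast_nonneg, ENNReal.ofReal_mul n.cast_nonneg,
    ENNReal.ofReal_natCast]
  ring

end Pool.Agent.MP_71da5e_an.L

end

section

namespace Pool.Agent.MP_71da5e_an.L.Ca

open MeasureTheory Metric Set Complex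
open scoped RealInnerProductSpace ENNReal Real

lemma sq_cov (f : ℝ → ℝ≥0∞) (D : ℝ) {s : Set ℝ} (hs : MeasurableSet s)
    (h : (∀ t ∈ s, 0 ≤ t) ∨ ∀ t ∈ s, t ≤ 0) :
    ∫⁻ u in (fun t : ℝ => D - t ^ 2) '' s, f u =
      ∫⁻ t in s, ENNReal.ofReal (2 * |t|) * f (D - t ^ 2) := by
  rw [lintegral_image_eq_lintegral_abs_deriv_mul (f' := fun t => -(2 * t)) hs]
  · simp only [abs_neg, abs_mul, abs_two]
  · intro t _
    have := ((hasDerivAt_pow 2 t).const_sub D).hasDerivWithinAt (s := s)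
    simpa using this
  · intro x hx y hy hxy
    have h1 : x ^ 2 = y ^ 2 := by simp only at hxy; linarith
    rcases h with h | h
    · exact (pow_left_inj₀ (h x hx) (h y hy) two_ne_zero).1 h1
    · have := (pow_left_inj₀ (neg_nonneg.2 (h x hx)) (neg_nonneg.2 (h y hy)) two_ne_zero).1
        (by rw [neg_sq, neg_sq, h1])
      linarith

lemma up0 (f : ℝ → ℝ≥0∞) (D : ℝ) {c : ℝ} (hc : 0 < c) {s : Set ℝ} (hs : MeasurableSet s)
    (h : (∀ t ∈ s, 0 ≤ t) ∨ ∀ t ∈ s, t ≤ 0) (h' : ∀ t ∈ s, c ≤ |t|) :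
    ∫⁻ t in s, f (D - t ^ 2) ≤ ENNReal.ofReal (1 / (2 * c)) * ∫⁻ u, f u := by
  refine le_trans ?_ (mul_le_mul_right (setLIntegral_le_lintegral
    ((fun t : ℝ => D - t ^ 2) '' s) f) _)
  rw [sq_cov f D hs h, ← lintegral_const_mul' _ _ ENNReal.ofReal_ne_top]
  refine setLIntegral_mono' hs fun t ht => ?_
  rw [← mul_assoc, ← ENNReal.ofReal_mul (by positivity)]
  refine le_mul_of_one_le_left' ?_
  rw [← ENNReal.ofReal_one]
  refine ENNReal.ofReal_le_ofReal ?_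
  rw [div_mul_eq_mul_div, le_div_iff₀ (by positivity)]
  linarith [h' t ht]

lemma up1 (f : ℝ → ℝ≥0∞) (D : ℝ) {c : ℝ} (hc : 0 < c) :
    ∫⁻ t in {t : ℝ | c ≤ |t|}, f (D - t ^ 2) ≤ ENNReal.ofReal (1 / c) * ∫⁻ u, f u := by
  have e : {t : ℝ | c ≤ |t|} = Ici c ∪ Iic (-c) := by
    ext t
    simp only [mem_ofPred_eq, mem_union, mem_Ici, mem_Iic, le_abs]
    constructor <;> rintro (h | h) <;> [left; right; left; right] <;> linarith
  rw [e]
  refine (lintegral_union_le _ _ _).trans ?_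
  refine (add_le_add (up0 f D hc measurableSet_Ici (Or.inl fun t ht => hc.le.trans ht)
    fun t ht => le_trans ht (le_abs_self t)) (up0 f D hc measurableSet_Iic
    (Or.inr fun t ht => le_trans ht (by linarith)) fun t ht =>
      le_trans (by have : t ≤ -c := ht; linarith) (neg_le_abs t))).trans ?_
  rw [← add_mul, ← ENNReal.ofReal_add (by positivity) (by positivity)]
  refine le_of_eq ?_
  congr 2
  field_simp
  ring

lemma down1 (f : ℝ → ℝ≥0∞) (D τ : ℝ) {r : ℝ} (hr : 0 < r) (hτ : r ≤ |τ|)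
    (hf : ∀ u, f u ≠ 0 → |D - u - τ ^ 2| < r * |τ|) :
    ∫⁻ u, f u ≤ ENNReal.ofReal (2 * (|τ| + r)) * ∫⁻ t in Ioo (τ - r) (τ + r), f (D - t ^ 2) := by
  have hs : Function.support f ⊆ (fun t : ℝ => D - t ^ 2) '' Ioo (τ - r) (τ + r) := by
    intro u hu
    obtain ⟨h1, h2⟩ := abs_lt.1 (hf u hu)
    have a2 : |τ| ^ 2 = τ ^ 2 := sq_abs τ
    have l1 : (|τ| - r) ^ 2 < D - u := by nlinarith
    have l2 : D - u < (|τ| + r) ^ 2 := by nlinarith
    have p : 0 ≤ D - u := le_trans (sq_nonneg _) l1.le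
    have m1 : |τ| - r < √(D - u) := Real.lt_sqrt_of_sq_lt l1
    have m2 : √(D - u) < |τ| + r := (Real.sqrt_lt' (by linarith)).2 l2
    rcases le_total 0 τ with h | h
    · rw [abs_of_nonneg h] at m1 m2
      exact ⟨√(D - u), ⟨m1, m2⟩, by simp only; rw [Real.sq_sqrt p]; ring⟩
    · rw [abs_of_nonpos h] at m1 m2
      exact ⟨-√(D - u), ⟨by linarith, by linarith⟩, by simp only; rw [neg_sq, Real.sq_sqrt p]; ring⟩
  rw [← setLIntegral_eq_of_support_subset hs, sq_cov f D measurableSet_Ioo,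
    ← lintegral_const_mul' _ _ ENNReal.ofReal_ne_top]
  · refine setLIntegral_mono' measurableSet_Ioo fun t ht => ?_
    refine mul_le_mul_left (ENNReal.ofReal_le_ofReal ?_) _
    have : |t| ≤ |τ| + r := by
      rw [abs_le]; constructor
      · linarith [ht.1, neg_abs_le τ]
      · linarith [ht.2, le_abs_self τ]
    linarith
  · rcases le_total 0 τ with h | h
    · rw [abs_of_nonneg h] at hτ
      exact Or.inl fun t ht => by linarith [ht.1]
    · rw [abs_of_nonpos h] at hτ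
      exact Or.inr fun t ht => by linarith [ht.2]

lemma plane (k : ℂ → ℝ≥0∞) (hk : Measurable k) {A : ℝ} (hA : 0 < A) :
    ∫⁻ p, k p = ENNReal.ofReal (2 * A) * ∫⁻ v : ℝ, ∫⁻ u : ℝ, k ⟨u, 2 * A * v⟩ := by
  have h1 : ∫⁻ p, k p = ∫⁻ v : ℝ, ∫⁻ u : ℝ, k ⟨u, v⟩ := by
    rw [← (volume_preserving_equiv_real_prod.symm).lintegral_comp hk, Measure.volume_eq_prod]
    exact lintegral_prod_symm' _ (hk.comp measurableEquivRealProd.symm.measurable)
  have h2 := lintegral_image_eq_lintegral_abs_deriv_mul (s := univ) (f := fun v : ℝ => 2 * A * v)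
    (f' := fun _ => 2 * A) MeasurableSet.univ
    (fun x _ => by simpa using (hasDerivAt_id x).const_mul (2 * A))
    (fun x _ y _ h => mul_left_cancel₀ (by positivity) h) fun v => ∫⁻ u : ℝ, k ⟨u, v⟩
  have h3 : (fun v : ℝ => 2 * A * v) '' univ = univ :=
    image_univ_of_surjective fun y => ⟨y / (2 * A), by field_simp⟩
  rw [h3, Measure.restrict_univ, abs_of_pos (by positivity),
    lintegral_const_mul' _ _ ENNReal.ofReal_ne_top] at h2
  rw [h1, h2]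

lemma meas_ins {m : ℕ} (j : Fin (m + 1)) :
    Measurable fun q : ℝ × (Fin m → ℝ) => (j.insertNth q.1 q.2 : Fin (m + 1) → ℝ) :=
  (MeasurableEquiv.piFinSuccAbove (fun _ => ℝ) j).symm.measurable

lemma sl1 {m : ℕ} (j : Fin (m + 1)) (F : (Fin (m + 1) → ℝ) → ℝ≥0∞) (hF : Measurable F) :
    ∫⁻ x, F x = ∫⁻ q : ℝ × (Fin m → ℝ), F (j.insertNth q.1 q.2) := by
  rw [← ((volume_preserving_piFinSuccAbove (fun _ => ℝ) j).symm).lintegral_comp hF]
  rfl

/-- The point with first coordinate `v`, coordinate `t` at the place `j + 1`, and others `y`. -/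
def pt {m : ℕ} (j : Fin (m + 1)) (v : ℝ) (y : Fin m → ℝ) (t : ℝ) : Fin (m + 2) → ℝ :=
  Fin.cons v (j.insertNth t y)

lemma sl2 {m : ℕ} (j : Fin (m + 1)) (F : (Fin (m + 2) → ℝ) → ℝ≥0∞) (hF : Measurable F) :
    ∫⁻ x, F x = ∫⁻ v, ∫⁻ y, ∫⁻ t, F (pt j v y t) := by
  rw [sl1 0 F hF, Measure.volume_eq_prod]
  refine (lintegral_prod _ (hF.comp (meas_ins 0)).aemeasurable).trans ?_
  refine lintegral_congr fun v => ?_
  have hm : Measurable fun w : Fin (m + 1) → ℝ =>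
      F ((0 : Fin (m + 2)).insertNth v w) := (hF.comp (meas_ins 0)).comp measurable_prodMk_left
  refine (sl1 j _ hm).trans ?_
  rw [Measure.volume_eq_prod]
  refine (lintegral_prod_symm' _ (hm.comp (meas_ins j))).trans ?_
  simp only [Function.comp_apply, Fin.insertNth_zero', pt]

lemma pt_zero {m : ℕ} (j : Fin (m + 1)) (v : ℝ) (y : Fin m → ℝ) (t : ℝ) : pt j v y t 0 = v := rfl

lemma pt_succ {m : ℕ} (j : Fin (m + 1)) (v : ℝ) (y : Fin m → ℝ) (t : ℝ) :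
    pt j v y t j.succ = t := by simp [pt]

lemma pt_ab {m : ℕ} (j : Fin (m + 1)) (v : ℝ) (y : Fin m → ℝ) (t : ℝ) (i : Fin m) :
    pt j v y t (j.succAbove i).succ = y i := by simp [pt]

lemma sum_split {m : ℕ} (j : Fin (m + 1)) (g : Fin (m + 2) → ℝ) :
    ∑ i, g i = g 0 + g j.succ + ∑ i : Fin m, g (j.succAbove i).succ := by
  rw [Fin.sum_univ_succ, Fin.sum_univ_succAbove _ j, add_assoc (g 0)]

/-- The number `(a + i b) · (a + i b)` in coordinates. -/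
def P {m : ℕ} (A : ℝ) (x : Fin (m + 2) → ℝ) : ℂ := ⟨A ^ 2 - ∑ i, x i ^ 2, 2 * A * x 0⟩

lemma meas_P {m : ℕ} (A : ℝ) : Measurable (P A : (Fin (m + 2) → ℝ) → ℂ) :=
  measurableEquivRealProd.symm.measurable.comp (f := fun x : Fin (m + 2) → ℝ =>
    (A ^ 2 - ∑ i, x i ^ 2, 2 * A * x 0)) (by fun_prop)

lemma P_pt {m : ℕ} (A : ℝ) (j : Fin (m + 1)) (v : ℝ) (y : Fin m → ℝ) (t : ℝ) :
    P A (pt j v y t) = ⟨A ^ 2 - v ^ 2 - ∑ i, y i ^ 2 - t ^ 2, 2 * A * v⟩ := by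
  rw [P, sum_split j]
  simp only [pt_zero, pt_succ, pt_ab]
  congr 1
  ring

lemma big {m : ℕ} {A : ℝ} (hA : 1 ≤ A) (x : Fin (m + 2) → ℝ) (h : ‖P A x‖ ≤ A ^ 2 / 4)
    (h' : ‖P A x‖ ≤ A) :
    (∀ i, |x i| ≤ 2 * A) ∧ ∃ j : Fin (m + 1), A / (2 * (m + 1)) ≤ |x j.succ| := by
  have h1 := abs_le.1 ((abs_re_le_norm _).trans h)
  have h2 := abs_le.1 ((abs_im_le_norm _).trans h')
  simp only [P] at h1 h2
  constructor
  · intro i
    have := Finset.single_le_sum (f := fun i => x i ^ 2) (fun i _ => sq_nonneg _)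
      (Finset.mem_univ i)
    exact abs_le_of_sq_le_sq' (by nlinarith) (by linarith) |> abs_le.2
  · by_contra hc
    push Not at hc
    have m0 : (0 : ℝ) < m + 1 := by positivity
    have h3 : ∑ j : Fin (m + 1), x j.succ ^ 2 ≤ ∑ _j : Fin (m + 1), (A / (2 * (m + 1))) ^ 2 :=
      Finset.sum_le_sum fun j _ => by
        rw [← sq_abs]; exact pow_le_pow_left₀ (abs_nonneg _) (hc j).le 2
    rw [Finset.sum_const, Finset.card_univ, Fintype.card_fin, nsmul_eq_mul] at h3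
    have h4 : ((m + 1 : ℕ) : ℝ) * (A / (2 * (m + 1))) ^ 2 ≤ A ^ 2 / 4 := by
      push_cast
      rw [div_pow, mul_div_assoc', div_le_div_iff₀ (by positivity) (by positivity)]
      have : (0 : ℝ) ≤ m := by positivity
      nlinarith [mul_nonneg (mul_nonneg (sq_nonneg A) this) m0.le]
    rw [Fin.sum_univ_succ] at h1
    have h5 : x 0 ≤ 1 / 2 := by nlinarith
    have h6 : -(1 / 2) ≤ x 0 := by nlinarith
    nlinarith

lemma coords {m : ℕ} (a : E (m + 2)) (ha : a ≠ 0) :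
    ∃ Ψ : (Fin (m + 2) → ℝ) → E (m + 2), MeasurePreserving Ψ ∧ Function.Surjective Ψ ∧
      (∀ x, pz a (Ψ x) = P ‖a‖ x) ∧ ∀ x x', ‖Ψ x - Ψ x'‖ ^ 2 = ∑ i, (x i - x' i) ^ 2 := by
  have hn : ‖a‖ ≠ 0 := norm_ne_zero_iff.2 ha
  obtain ⟨b, hb⟩ := Orthonormal.exists_orthonormalBasis_extension_of_card_eq (𝕜 := ℝ)
    (E := E (m + 2)) (ι := Fin (m + 2)) (by simp) (v := fun _ => ‖a‖⁻¹ • a) (s := {0}) (by
      rw [orthonormal_subsingleton_iff]
      intro i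
      simp [norm_smul, hn])
  have hb0 : a = ‖a‖ • b 0 := by rw [hb 0 rfl, smul_smul, mul_inv_cancel₀ hn, one_smul]
  refine ⟨fun x => b.repr.symm (WithLp.toLp 2 x),
    b.measurePreserving_repr_symm.comp (PiLp.volume_preserving_toLp _),
    fun η => ⟨(b.repr η).ofLp, by simp⟩, fun x => ?_, fun x x' => ?_⟩
  · have e1 : ‖b.repr.symm (WithLp.toLp 2 x)‖ ^ 2 = ∑ i, x i ^ 2 := by
      rw [LinearIsometryEquiv.norm_map, EuclideanSpace.real_norm_sq_eq]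
    have e2 : ⟪a, b.repr.symm (WithLp.toLp 2 x)⟫ = ‖a‖ * x 0 := by
      conv_lhs => rw [hb0]
      rw [real_inner_smul_left, ← b.repr_apply_apply]
      simp
    rw [P, ← e1, mul_assoc, ← e2, EuclideanSpace.real_norm_sq_eq, EuclideanSpace.real_norm_sq_eq]
    beta_reduce
    generalize b.repr.symm (WithLp.toLp 2 x) = η
    apply Complex.ext
    · simp [pz, bd, zc, sq, Finset.sum_sub_distrib]
    · simp only [pz, bd, zc, im_sum, PiLp.inner_apply, Finset.mul_sum]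
      refine Finset.sum_congr rfl fun i _ => ?_
      simp
      ring
  · rw [← map_sub, LinearIsometryEquiv.norm_map, EuclideanSpace.real_norm_sq_eq]
    rfl

end Pool.Agent.MP_71da5e_an.L.Ca

end

section

namespace Pool.Agent.MP_71da5e_an.L

open MeasureTheory Metric Set Laplacian Complex
open scoped ContDiff RealInnerProductSpace ENNReal Real ComplexConjugate

namespace Ca

lemma sqd {m : ℕ} {A e : ℝ} (he : e ≤ A) (y y₀ : Fin m → ℝ) (h0 : ∀ i, |y₀ i| ≤ 2 * A)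
    (h : ∀ i, |y i - y₀ i| ≤ e) : |∑ i, y₀ i ^ 2 - ∑ i, y i ^ 2| ≤ m * (5 * e * A) := by
  rw [← Finset.sum_sub_distrib]
  refine (Finset.abs_sum_le_sum_abs _ _).trans ?_
  refine (Finset.sum_le_card_nsmul _ _ (5 * e * A) fun i _ => ?_).trans (by simp)
  have e1 : y₀ i ^ 2 - y i ^ 2 = -((y i - y₀ i) * ((y i - y₀ i) + 2 * y₀ i)) := by ring
  have e0 : 0 ≤ e := (abs_nonneg _).trans (h i)
  have e2 : |(y i - y₀ i) + 2 * y₀ i| ≤ 5 * A := by
    refine (abs_add_le _ _).trans ?_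
    rw [abs_mul, abs_two]
    linarith [h i, h0 i]
  rw [e1, abs_neg, abs_mul]
  calc _ ≤ e * (5 * A) := mul_le_mul (h i) e2 (abs_nonneg _) e0
    _ = _ := by ring

lemma dn {m : ℕ} {A e r : ℝ} (hA : 1 ≤ A) (e0 : 0 < e) (e1 : e ≤ 1) (r0 : 0 < r)
    (k : ℂ → ℝ≥0∞) (hk : Measurable k) (hs : ∀ p, e * A < ‖p‖ → k p = 0)
    (x₀ : Fin (m + 2) → ℝ) (h0 : ‖P A x₀‖ ≤ e * A) (hb : ∀ i, |x₀ i| ≤ 2 * A) (j : Fin (m + 1))
    (hr : r ≤ |x₀ j.succ|) (hre : 8 * (m + 1) * e * A ≤ r * |x₀ j.succ|)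
    (S : Set (Fin (m + 2) → ℝ)) (hS : MeasurableSet S)
    (hx : ∀ x, ∑ i, (x i - x₀ i) ^ 2 ≤ (m + 1) * e ^ 2 + r ^ 2 → x ∈ S) :
    ENNReal.ofReal ((2 * e) ^ m) * ∫⁻ p, k p ≤
      ENNReal.ofReal (16 * A ^ 2) * ∫⁻ x in S, k (P A x) := by
  have A0 : 0 < A := by linarith
  set y₀ : Fin m → ℝ := fun i => x₀ (j.succAbove i).succ with hy₀
  set Q : Set (Fin m → ℝ) := Icc (fun i => y₀ i - e) fun i => y₀ i + e with hQ
  have hv : volume Q = ENNReal.ofReal ((2 * e) ^ m) := by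
    rw [hQ, Real.volume_Icc_pi]
    simp only [add_sub_sub_cancel]
    rw [Finset.prod_const, Finset.card_univ, Fintype.card_fin, ENNReal.ofReal_pow (by positivity),
      two_mul]
  have hF : Measurable fun x : Fin (m + 2) → ℝ => k (P A x) := hk.comp (meas_P A)
  have u0 := abs_le.1 ((abs_re_le_norm _).trans h0)
  have v0 := (abs_im_le_norm _).trans h0
  simp only [P] at u0 v0
  rw [sum_split j] at u0
  have hh : ∀ v : ℝ, |2 * A * v| ≤ e * A → |v| ≤ e / 2 := fun v h => by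
    rw [abs_mul, abs_of_pos (by positivity)] at h
    nlinarith
  have w0 := hh _ v0
  rw [← lintegral_indicator hS, sl2 j _ (hF.indicator hS), plane k hk A0, ← mul_assoc,
    mul_comm (ENNReal.ofReal ((2 * e) ^ m)), mul_assoc,
    show 16 * A ^ 2 = 2 * A * (8 * A) by ring, ENNReal.ofReal_mul (p := 2 * A) (by positivity),
    mul_assoc]
  refine mul_le_mul_right ?_ _
  rw [← lintegral_const_mul' _ _ ENNReal.ofReal_ne_top,
    ← lintegral_const_mul' _ _ ENNReal.ofReal_ne_top]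
  refine lintegral_mono fun v => ?_
  rw [← hv, mul_comm, ← setLIntegral_const, ← lintegral_const_mul' _ _ ENNReal.ofReal_ne_top,
    ← lintegral_indicator measurableSet_Icc]
  refine lintegral_mono fun y => ?_
  by_cases hy : y ∈ Q
  swap
  · rw [indicator_of_notMem hy]
    exact bot_le
  rw [indicator_of_mem hy]
  have hy' : ∀ i, |y i - y₀ i| ≤ e := fun i =>
    abs_le.2 ⟨by linarith [hy.1 i], by linarith [hy.2 i]⟩
  have hk0 : ∀ u : ℝ, k ⟨u, 2 * A * v⟩ ≠ 0 → |u| ≤ e * A ∧ |v| ≤ e / 2 := fun u h => by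
    have h1 : ‖(⟨u, 2 * A * v⟩ : ℂ)‖ ≤ e * A := not_lt.1 fun h' => h (hs _ h')
    exact ⟨(abs_re_le_norm ⟨u, 2 * A * v⟩).trans h1,
      hh _ ((abs_im_le_norm ⟨u, 2 * A * v⟩).trans h1)⟩
  refine (down1 (fun u => k ⟨u, 2 * A * v⟩) (A ^ 2 - v ^ 2 - ∑ i, y i ^ 2) (x₀ j.succ) r0 hr
    fun u hu => ?_).trans (mul_le_mul' (ENNReal.ofReal_le_ofReal ?_) ?_)
  · obtain ⟨h1, h2⟩ := hk0 u hu
    have h3 := abs_le.1 (sqd (e1.trans hA) y y₀ (fun i => hb _) hy')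
    have h4 : v ^ 2 ≤ (e / 2) ^ 2 := sq_le_sq' (abs_le.1 h2).1 (abs_le.1 h2).2
    have h5 : x₀ 0 ^ 2 ≤ (e / 2) ^ 2 := sq_le_sq' (abs_le.1 w0).1 (abs_le.1 w0).2
    have h6 : (e / 2) ^ 2 ≤ e * A := by nlinarith
    have h7 := abs_le.1 h1
    have h8 : 0 < e * A := by positivity
    have h9 : 0 ≤ m * (e * A) := by positivity
    simp only [hy₀] at h3
    rw [abs_lt]
    constructor <;> nlinarith [sq_nonneg v, sq_nonneg (x₀ 0)]
  · linarith [hb j.succ]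
  · rw [← lintegral_indicator measurableSet_Ioo]
    refine lintegral_mono fun t => ?_
    by_cases ht : t ∈ Ioo (x₀ j.succ - r) (x₀ j.succ + r)
    swap
    · rw [indicator_of_notMem ht]
      exact bot_le
    rw [indicator_of_mem ht]
    by_cases h1 : k ⟨A ^ 2 - v ^ 2 - ∑ i, y i ^ 2 - t ^ 2, 2 * A * v⟩ = 0
    · exact h1.le.trans bot_le
    rw [indicator_of_mem, P_pt]
    refine hx _ ?_
    rw [sum_split j]
    simp only [pt_zero, pt_succ, pt_ab]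
    have h2 := abs_le.1 (hk0 _ h1).2
    have h3 := abs_le.1 w0
    have h4 : (v - x₀ 0) ^ 2 ≤ e ^ 2 := sq_le_sq' (by linarith) (by linarith)
    have h5 : (t - x₀ j.succ) ^ 2 ≤ r ^ 2 := sq_le_sq' (by linarith [ht.1]) (by linarith [ht.2])
    have h6 : ∑ i, (y i - x₀ (j.succAbove i).succ) ^ 2 ≤ m * e ^ 2 :=
      (Finset.sum_le_card_nsmul _ _ (e ^ 2) fun i _ =>
        sq_le_sq' (abs_le.1 (hy' i)).1 (abs_le.1 (hy' i)).2).trans (by simp)
    linarith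

end Ca

theorem caDown {n : ℕ} (hn : 2 ≤ n) (A : Api n) : CaDown n := by
  obtain ⟨m, rfl⟩ : ∃ m, n = m + 2 := ⟨n - 2, by omega⟩
  obtain ⟨c, hc⟩ : ∃ c : ℝ, c = 1 / (2 * (m + 1)) := ⟨_, rfl⟩
  obtain ⟨g, hg⟩ : ∃ g : ℝ, g = c ^ 2 / (8 * (m + 1)) := ⟨_, rfl⟩
  have m0 : (0 : ℝ) ≤ m := by positivity
  have c0 : 0 < c := by rw [hc]; positivity
  have g0 : 0 < g := by rw [hg]; positivity
  have c1 : c ≤ 1 / 2 := by
    rw [hc]; exact one_div_le_one_div_of_le (by norm_num) (by linarith)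
  have g1 : 8 * (m + 1) * g = c ^ 2 := by rw [hg]; field_simp
  have g2 : (m + 1) * g ≤ 1 / 4 := by nlinarith
  have g3 : g ≤ 1 / 4 := by nlinarith
  refine ⟨g, (2 * g) ^ m / 16, g0, by linarith, by positivity,
    fun a η₀ κ ha k0 k1 h0 k hk hs => ?_⟩
  have a0 : 0 < ‖a‖ := by linarith
  obtain ⟨Ψ, hΨ, hsu, hP, hd⟩ := Ca.coords a (norm_pos_iff.1 a0)
  have hp : Measurable fun η : E (m + 2) => k (pz a η) :=
    hk.comp ((A.smooth_pz.continuous.comp (Continuous.prodMk_right a)).measurable)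
  obtain ⟨x₀, rfl⟩ := hsu η₀
  rw [hP] at h0
  have e1 : g * κ ≤ 1 / 4 := by nlinarith
  obtain ⟨hb, j, hj⟩ := Ca.big ha x₀ (h0.trans (by nlinarith)) (h0.trans (by nlinarith))
  have hj' : c * ‖a‖ ≤ |x₀ j.succ| := by rw [hc, one_div_mul_eq_div]; exact hj
  have key := Ca.dn (e := g * κ) (r := c * κ) ha (by positivity) (by linarith) (by positivity)
    k hk hs x₀ h0 hb j (le_trans (by gcongr; linarith) hj') (by
      calc _ = c * κ * (c * ‖a‖) := by linear_combination κ * ‖a‖ * g1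
        _ ≤ _ := by gcongr)
    (Ψ ⁻¹' ball (Ψ x₀) κ) (hΨ.measurable measurableSet_ball) fun x hx => by
      rw [mem_preimage, mem_ball, dist_eq_norm]
      refine lt_of_pow_lt_pow_left₀ 2 k0.le ?_
      rw [hd]
      refine hx.trans_lt ?_
      have h1 : ((m + 1) * g) * g + c ^ 2 < 1 := by nlinarith
      calc _ = (((m + 1) * g) * g + c ^ 2) * κ ^ 2 := by ring
        _ < 1 * κ ^ 2 := by gcongr
        _ = _ := one_mul _
  rw [← hΨ.setLIntegral_comp_preimage measurableSet_ball hp]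
  simp only [hP, Nat.add_sub_cancel]
  have e2 : (2 * g) ^ m / 16 * κ ^ m / ‖a‖ ^ 2 = (16 * ‖a‖ ^ 2)⁻¹ * (2 * (g * κ)) ^ m := by
    rw [← mul_assoc, mul_pow (2 * g)]
    field_simp
  rw [e2, ENNReal.ofReal_mul (by positivity), mul_assoc]
  refine (mul_le_mul_right key _).trans (le_of_eq ?_)
  rw [← mul_assoc, ← ENNReal.ofReal_mul (by positivity), inv_mul_cancel₀ (by positivity),
    ENNReal.ofReal_one, one_mul]

end Pool.Agent.MP_71da5e_an.L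

end

section

namespace Pool.Agent.MP_71da5e_an.L

open MeasureTheory Metric Set Laplacian Complex
open scoped ContDiff RealInnerProductSpace ENNReal Real ComplexConjugate

namespace Ca

lemma upj {m : ℕ} {A c : ℝ} (hc : 0 < c) (k : ℂ → ℝ≥0∞) (hk : Measurable k)
    (w : (Fin (m + 2) → ℝ) → ℝ≥0∞) (hw : Measurable w) (j : Fin (m + 1))
    (W : (Fin m → ℝ) → ℝ≥0∞) (hW : Measurable W) (M : ℝ) (hM : ∫⁻ y, W y ≤ ENNReal.ofReal M)
    (h : ∀ v y t, k (P A (pt j v y t)) ≠ 0 → w (pt j v y t) ≤ W y) :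
    ∫⁻ x, {x : Fin (m + 2) → ℝ | c ≤ |x j.succ|}.indicator (fun x => k (P A x) * w x) x ≤
      ENNReal.ofReal M * ENNReal.ofReal (1 / c) * ∫⁻ v : ℝ, ∫⁻ u : ℝ, k ⟨u, 2 * A * v⟩ := by
  have hS : MeasurableSet {x : Fin (m + 2) → ℝ | c ≤ |x j.succ|} :=
    measurableSet_le measurable_const (by fun_prop)
  have hT : MeasurableSet {t : ℝ | c ≤ |t|} := measurableSet_le measurable_const (by fun_prop)
  have hF : Measurable fun x => k (P A x) * w x := (hk.comp (meas_P A)).mul hw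
  rw [sl2 j _ (hF.indicator hS), ← lintegral_const_mul' _ _
    (ENNReal.mul_ne_top ENNReal.ofReal_ne_top ENNReal.ofReal_ne_top)]
  refine lintegral_mono fun v => ?_
  calc _ ≤ ∫⁻ y, W y * (ENNReal.ofReal (1 / c) * ∫⁻ u : ℝ, k ⟨u, 2 * A * v⟩) := by
        refine lintegral_mono fun y => ?_
        refine le_trans ?_ (mul_le_mul_right
          (up1 (fun u => k ⟨u, 2 * A * v⟩) (A ^ 2 - v ^ 2 - ∑ i, y i ^ 2) hc) (W y))
        have hm : Measurable fun t : ℝ =>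
            k ⟨A ^ 2 - v ^ 2 - ∑ i, y i ^ 2 - t ^ 2, 2 * A * v⟩ :=
          hk.comp (measurableEquivRealProd.symm.measurable.comp (f := fun t : ℝ =>
            (A ^ 2 - v ^ 2 - ∑ i, y i ^ 2 - t ^ 2, 2 * A * v)) (by fun_prop))
        rw [← lintegral_indicator hT, ← lintegral_const_mul _ (hm.indicator hT)]
        refine lintegral_mono fun t => ?_
        by_cases ht : c ≤ |t|
        · rw [indicator_of_mem (by simpa [pt_succ] using ht), indicator_of_mem (by exact ht),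
            ← P_pt A j]
          by_cases h0 : k (P A (pt j v y t)) = 0
          · simp [h0]
          · rw [mul_comm]
            exact mul_le_mul_left (h v y t h0) _
        · rw [indicator_of_notMem (by simpa [pt_succ] using ht)]
          exact bot_le
    _ ≤ _ := by
        rw [lintegral_mul_const _ hW, mul_assoc (ENNReal.ofReal M)]
        exact mul_le_mul_left hM _

lemma upAll {m : ℕ} {A : ℝ} (hA : 4 ≤ A) (k : ℂ → ℝ≥0∞) (hk : Measurable k)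
    (hs : ∀ p, A < ‖p‖ → k p = 0) (w : (Fin (m + 2) → ℝ) → ℝ≥0∞) (hw : Measurable w)
    (W : Fin (m + 1) → (Fin m → ℝ) → ℝ≥0∞) (hW : ∀ j, Measurable (W j)) (M : ℝ) (M0 : 0 ≤ M)
    (hM : ∀ j, ∫⁻ y, W j y ≤ ENNReal.ofReal M)
    (h : ∀ j v y t, (∀ i, |y i| ≤ 2 * A) → w (pt j v y t) ≤ W j y) :
    ∫⁻ x, k (P A x) * w x ≤ ENNReal.ofReal ((m + 1) ^ 2 * M / A ^ 2) * ∫⁻ p, k p := by
  have A0 : 0 < A := by linarith
  have hb : ∀ x : Fin (m + 2) → ℝ, k (P A x) ≠ 0 →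
      (∀ i, |x i| ≤ 2 * A) ∧ ∃ j : Fin (m + 1), A / (2 * (m + 1)) ≤ |x j.succ| := fun x hx => by
    have h1 : ‖P A x‖ ≤ A := not_lt.1 fun h => hx (hs _ h)
    exact big (by linarith) x (h1.trans (by nlinarith)) h1
  have hF : Measurable fun x => k (P A x) * w x := (hk.comp (meas_P A)).mul hw
  calc _ ≤ ∫⁻ x, ∑ j : Fin (m + 1), {x : Fin (m + 2) → ℝ | A / (2 * (m + 1)) ≤ |x j.succ|}.indicator
        (fun x => k (P A x) * w x) x := by
        refine lintegral_mono fun x => ?_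
        by_cases h0 : k (P A x) = 0
        · simp [h0]
        obtain ⟨-, j, hj⟩ := hb x h0
        refine le_trans ?_ (Finset.single_le_sum (fun _ _ => bot_le) (Finset.mem_univ j))
        rw [indicator_of_mem (by exact hj)]
    _ ≤ ∑ _j : Fin (m + 1), ENNReal.ofReal M * ENNReal.ofReal (1 / (A / (2 * (m + 1)))) *
        ∫⁻ v : ℝ, ∫⁻ u : ℝ, k ⟨u, 2 * A * v⟩ := by
        rw [lintegral_finsetSum _ fun j _ =>
          hF.indicator (measurableSet_le measurable_const (by fun_prop))]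
        refine Finset.sum_le_sum fun j _ => upj (by positivity) k hk w hw j (W j) (hW j) M (hM j)
          fun v y t h0 => h j v y t fun i => ?_
        simpa [pt_ab] using (hb _ h0).1 (j.succAbove i).succ
    _ = _ := by
        rw [Finset.sum_const, Finset.card_univ, Fintype.card_fin, nsmul_eq_mul, plane k hk A0,
          ← mul_assoc, ← mul_assoc, ← mul_assoc, ← ENNReal.ofReal_natCast,
          ← ENNReal.ofReal_mul (by positivity), ← ENNReal.ofReal_mul (by positivity),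
          ← ENNReal.ofReal_mul (by positivity)]
        congr 2
        push_cast
        field_simp

lemma gaussM (m : ℕ) (y₀ : Fin m → ℝ) :
    ∫⁻ y : Fin m → ℝ, ENNReal.ofReal (Real.exp (-π * ∑ i, (y i - y₀ i) ^ 2)) ≤
      ENNReal.ofReal 1 := by
  have h := lintegral_sub_right_eq_self (μ := volume)
    (fun y : Fin m → ℝ => ENNReal.ofReal (∏ i, Real.exp (-π * y i ^ 2))) y₀
  have e : ∀ y : Fin m → ℝ, Real.exp (-π * ∑ i, (y i - y₀ i) ^ 2) =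
      ∏ i, Real.exp (-π * (y - y₀) i ^ 2) := fun y => by
    rw [Finset.mul_sum, Real.exp_sum]; rfl
  simp only [e]
  rw [h, volume_pi, ← ofReal_integral_eq_lintegral_ofReal
    (Integrable.fintype_prod (f := fun _ t => Real.exp (-π * t ^ 2))
      fun _ => integrable_exp_neg_mul_sq Real.pi_pos)
    (ae_of_all _ fun y => Finset.prod_nonneg fun i _ => (Real.exp_pos _).le),
    integral_fintype_prod_eq_prod (fun _ t => Real.exp (-π * t ^ 2))]
  simp only [integral_gaussian, div_self Real.pi_pos.ne', Real.sqrt_one, Finset.prod_const_one,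
    le_refl]

end Ca

theorem caUp {n : ℕ} (hn : 2 ≤ n) (A : Api n) : CaUp n := by
  obtain ⟨m, rfl⟩ : ∃ m, n = m + 2 := ⟨n - 2, by omega⟩
  refine ⟨(m + 1) ^ 2 * 4 ^ m, by positivity, fun a ha k hk hs => ?_⟩
  have a0 : 0 < ‖a‖ := by linarith
  obtain ⟨Ψ, hΨ, hsu, hP, hd⟩ := Ca.coords a (norm_pos_iff.1 a0)
  have hp : Measurable fun η : E (m + 2) => k (pz a η) :=
    hk.comp ((A.smooth_pz.continuous.comp (Continuous.prodMk_right a)).measurable)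
  have h4 : (1 : ℝ) ≤ 4 ^ m := one_le_pow₀ (by norm_num)
  refine ⟨fun η₀ => ?_, ?_⟩
  · obtain ⟨x₀, rfl⟩ := hsu η₀
    have hg : Measurable (gs (Ψ x₀)) := by unfold gs; fun_prop
    rw [← hΨ.lintegral_comp (f := fun η => k (pz a η) * gs (Ψ x₀) η) (hp.mul hg)]
    simp only [hP]
    refine (Ca.upAll ha k hk hs (fun x => gs (Ψ x₀) (Ψ x)) (hg.comp hΨ.measurable)
      (fun j y => ENNReal.ofReal (Real.exp (-π * ∑ i, (y i - x₀ (j.succAbove i).succ) ^ 2)))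
      (fun j => by fun_prop) 1 zero_le_one (fun j => Ca.gaussM m _) fun j v y t _ => ?_).trans ?_
    · refine ENNReal.ofReal_le_ofReal (Real.exp_le_exp.2 ?_)
      rw [hd, Ca.sum_split j]
      simp only [Ca.pt_ab]
      nlinarith [Real.pi_pos, sq_nonneg (Ca.pt j v y t 0 - x₀ 0),
        sq_nonneg (Ca.pt j v y t j.succ - x₀ j.succ)]
    · gcongr
  · rw [← hΨ.lintegral_comp hp]
    simp only [hP]
    have := Ca.upAll (m := m) ha k hk hs (fun _ => 1) measurable_const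
      (fun _ => (Icc (fun _ => -(2 * ‖a‖)) fun _ => 2 * ‖a‖).indicator fun _ => 1)
      (fun j => measurable_const.indicator measurableSet_Icc) ((4 * ‖a‖) ^ m) (by positivity)
      (fun j => by
        rw [lintegral_indicator measurableSet_Icc, setLIntegral_one, Real.volume_Icc_pi,
          Finset.prod_const, Finset.card_univ, Fintype.card_fin,
          ENNReal.ofReal_pow (by positivity)]
        exact le_of_eq (by congr 2; ring))
      fun j v y t h => by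
        rw [indicator_of_mem (mem_Icc.2 ⟨fun i => (abs_le.1 (h i)).1, fun i => (abs_le.1 (h i)).2⟩)]
    simp only [mul_one] at this
    refine this.trans (mul_le_mul_left (ENNReal.ofReal_le_ofReal ?_) _)
    rw [div_le_iff₀ (by positivity), mul_pow]
    have h1 : ‖a‖ ^ m ≤ ‖a‖ ^ (m + 2) * ‖a‖ ^ 2 := by
      rw [← pow_add]; exact pow_le_pow_right₀ (by linarith) (by omega)
    calc _ = ((m + 1 : ℝ) ^ 2 * 4 ^ m) * ‖a‖ ^ m := by ring
      _ ≤ ((m + 1 : ℝ) ^ 2 * 4 ^ m) * (‖a‖ ^ (m + 2) * ‖a‖ ^ 2) := by gcongr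
      _ = _ := by ring

end Pool.Agent.MP_71da5e_an.L

end

section

namespace Pool.Agent.MP_71da5e_an.L

open MeasureTheory Metric Set Laplacian Complex
open scoped ContDiff RealInnerProductSpace ENNReal Real ComplexConjugate

section Aux

variable {n : ℕ}

theorem invL_Cgo {T : H n →L[ℂ] H n} (h : IsUnit T) (x : H n) : Ring.inverse T (T x) = x := by
  have := Ring.inverse_mul_cancel T h
  exact congrArg (fun S : H n →L[ℂ] H n => S x) this

theorem invR_Cgo {T : H n →L[ℂ] H n} (h : IsUnit T) (x : H n) : T (Ring.inverse T x) = x := by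
  have := Ring.mul_inverse_cancel T h
  exact congrArg (fun S : H n →L[ℂ] H n => S x) this

theorem unit_Cgo {T : H n →L[ℂ] H n} (h : ‖T‖ ≤ 1 / 2) : IsUnit (1 - T) :=
  (Units.oneSub T (by linarith)).isUnit

theorem fix_Cgo {T : H n →L[ℂ] H n} (h : IsUnit (1 - T)) (x : H n) :
    Ring.inverse (1 - T) x = x + T (Ring.inverse (1 - T) x) := by
  have h1 : Ring.inverse (1 - T) x - T (Ring.inverse (1 - T) x) = x := invR_Cgo h x
  exact sub_eq_iff_eq_add.1 h1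

theorem normInv_Cgo {T : H n →L[ℂ] H n} (h : ‖T‖ ≤ 1 / 2) (x : H n) :
    ‖Ring.inverse (1 - T) x‖ ≤ 2 * ‖x‖ := by
  have h1 := fix_Cgo (unit_Cgo h) x
  generalize Ring.inverse (1 - T) x = z at h1
  have h2 : ‖z‖ ≤ ‖x‖ + ‖T z‖ := by
    conv_lhs => rw [h1]
    exact norm_add_le _ _
  have h3 : ‖T z‖ ≤ 1 / 2 * ‖z‖ :=
    (T.le_opNorm z).trans (mul_le_mul_of_nonneg_right h (norm_nonneg _))
  linarith

theorem cdApp_Cgo {Y : Type} [NormedAddCommGroup Y] [NormedSpace ℝ Y] {T : Y → H n →L[ℂ] H n}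
    {v : Y → H n} {y : Y} (hT : ContDiffAt ℝ 1 T y) (hv : ContDiffAt ℝ 1 v y) :
    ContDiffAt ℝ 1 (fun y => T y (v y)) y := by
  have hb : ContDiff ℝ 1 fun p : (H n →L[ℂ] H n) × H n => p.1 p.2 :=
    ((isBoundedBilinearMap_apply (𝕜 := ℂ) (E := H n) (F := H n)).contDiff).restrict_scalars ℝ
  exact hb.contDiffAt.comp y (hT.prodMk hv)

theorem fdApp_Cgo {Y : Type} [NormedAddCommGroup Y] [NormedSpace ℝ Y] {T : Y → H n →L[ℂ] H n}
    {v : Y → H n} {y : Y} (hT : DifferentiableAt ℝ T y) (hv : DifferentiableAt ℝ v y) :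
    DifferentiableAt ℝ (fun y => T y (v y)) y ∧ ∀ w,
      fderiv ℝ (fun y => T y (v y)) y w = fderiv ℝ T y w (v y) + T y (fderiv ℝ v y w) := by
  have hb := (isBoundedBilinearMap_apply (𝕜 := ℂ) (E := H n) (F := H n)).hasFDerivAt (T y, v y)
  have h2 := (hb.restrictScalars ℝ).comp y (hT.hasFDerivAt.prodMk hv.hasFDerivAt)
  have h3 : HasFDerivAt (fun y => T y (v y)) _ y := h2
  refine ⟨h3.differentiableAt, fun w => ?_⟩
  rw [h3.fderiv]
  simp [IsBoundedBilinearMap.deriv_apply, add_comm]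

theorem cdInv_Cgo {Y : Type} [NormedAddCommGroup Y] [NormedSpace ℝ Y] {T : Y → H n →L[ℂ] H n}
    {y : Y} (hT : ContDiffAt ℝ 1 T y) (h : IsUnit (T y)) :
    ContDiffAt ℝ 1 (fun y => Ring.inverse (T y)) y := by
  obtain ⟨w, hw⟩ := h
  have h1 : ContDiffAt ℂ 1 (Ring.inverse : (H n →L[ℂ] H n) → (H n →L[ℂ] H n)) (T y) := by
    rw [← hw]
    exact contDiffAt_ringInverse ℂ w
  exact (h1.restrict_scalars ℝ).comp y hT

variable {C lam tau : ℝ} {ρ : Reg lam tau} (Γ : Gop n C ρ) (P : H n →L[ℂ] H n)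

/-- The solution. -/
noncomputable def uu_Cgo (y : E n × E n) : H n := Ring.inverse (1 - Γ.G y.1 * P) (ex y.1 y.2)

/-- The conjugated solution. -/
noncomputable def UU_Cgo (y : E n × E n) : H n := Ring.inverse (1 - Γ.Gt y.1 * P) (ex 0 y.2)

/-- The operator behind the kernel. -/
noncomputable def TT_Cgo (a : E n) : H n →L[ℂ] H n :=
  ((((π ^ 2)⁻¹ : ℝ) : ℂ)) • (P * Ring.inverse (1 - Γ.Gt a * P))

variable {P}

theorem conj_Cgo (hP : ∀ a x, P (Mx a x) = Mx a (P x)) (a : E n) (x : H n) :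
    (1 - Γ.G a * P) (Mx a x) = Mx a ((1 - Γ.Gt a * P) x) := by
  change Mx a x - Γ.G a (P (Mx a x)) = Mx a (x - Γ.Gt a (P x))
  rw [hP, Γ.cj, map_sub]

theorem unitG_Cgo (hP : ∀ a x, P (Mx a x) = Mx a (P x)) {a : E n}
    (h : IsUnit (1 - Γ.Gt a * P)) : IsUnit (1 - Γ.G a * P) := by
  have h1 : 1 - Γ.G a * P = Mx a * (1 - Γ.Gt a * P) * Mx (-a) := by
    ext1 x
    change (1 - Γ.G a * P) x = Mx a ((1 - Γ.Gt a * P) (Mx (-a) x))
    rw [← conj_Cgo Γ hP, G.Mx_Mx_neg]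
  rw [h1]
  exact ((Cg.isUnit_Mx a).mul h).mul (Cg.isUnit_Mx (-a))

theorem cj_Cgo (hP : ∀ a x, P (Mx a x) = Mx a (P x)) {y : E n × E n}
    (h : IsUnit (1 - Γ.Gt y.1 * P)) : uu_Cgo Γ P y = Mx y.1 (UU_Cgo Γ P y) := by
  unfold uu_Cgo UU_Cgo
  have h1 : ex y.1 y.2 = (1 - Γ.G y.1 * P) (Mx y.1 (Ring.inverse (1 - Γ.Gt y.1 * P) (ex 0 y.2))) := by
    rw [conj_Cgo Γ hP, invR_Cgo h, Cg.Mx_ex, add_zero]
  rw [h1, invL_Cgo (unitG_Cgo Γ hP h)]

theorem c1_Cgo {y : E n × E n} (h : IsUnit (1 - Γ.G y.1 * P)) :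
    ContDiffAt ℝ 1 (uu_Cgo Γ P) y := by
  have h1 : ContDiff ℝ 1 fun z : E n × E n => 1 - Γ.G z.1 * P := by
    have h2 : ContDiff ℝ 1 fun z : E n × E n => Γ.G z.1 := Γ.c1.comp contDiff_fst
    have h3 : ContDiff ℝ 1 fun S : H n →L[ℂ] H n => 1 - S * P := by
      have h4 : ContDiff ℂ 1 fun S : H n →L[ℂ] H n => 1 - S * P :=
        contDiff_const.sub (contDiff_id.mul contDiff_const)
      exact h4.restrict_scalars ℝ
    exact h3.comp h2
  exact cdApp_Cgo (cdInv_Cgo h1.contDiffAt h) (Cg.contDiff_ex.of_le (by norm_cast)).contDiffAt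

theorem dbarAux_Cgo {y : E n × E n} (h : ∀ᶠ z in nhds y, IsUnit (1 - Γ.G z.1 * P)) (δ : E n) :
    (1 - Γ.G y.1 * P) (fderiv ℝ (uu_Cgo Γ P) y (δ, 0) + I • fderiv ℝ (uu_Cgo Γ P) y (0, δ)) =
      fderiv ℝ Γ.G y.1 δ (P (uu_Cgo Γ P y)) := by
  have hu : DifferentiableAt ℝ (uu_Cgo Γ P) y :=
    (c1_Cgo Γ h.self_of_nhds).differentiableAt one_ne_zero
  have hG : DifferentiableAt ℝ Γ.G y.1 := Γ.c1.differentiable one_ne_zero _
  have hG1 : HasFDerivAt (fun z : E n × E n => Γ.G z.1)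
      ((fderiv ℝ Γ.G y.1).comp (ContinuousLinearMap.fst ℝ _ _)) y :=
    hG.hasFDerivAt.comp y hasFDerivAt_fst
  have hPu : HasFDerivAt (fun z => P (uu_Cgo Γ P z))
      ((P.restrictScalars ℝ).comp (fderiv ℝ (uu_Cgo Γ P) y)) y :=
    (P.restrictScalars ℝ).hasFDerivAt.comp y hu.hasFDerivAt
  obtain ⟨h1, h2⟩ := fdApp_Cgo hG1.differentiableAt hPu.differentiableAt
  have hex : DifferentiableAt ℝ (fun z : E n × E n => ex z.1 z.2) y :=
    Cg.contDiff_ex.differentiable (by simp) _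
  have he : uu_Cgo Γ P =ᶠ[nhds y] fun z => ex z.1 z.2 + Γ.G z.1 (P (uu_Cgo Γ P z)) := by
    filter_upwards [h] with z hz
    exact fix_Cgo hz _
  have h3 : ∀ w, fderiv ℝ (uu_Cgo Γ P) y w = fderiv ℝ (fun z : E n × E n => ex z.1 z.2) y w +
      (fderiv ℝ Γ.G y.1 w.1 (P (uu_Cgo Γ P y)) + Γ.G y.1 (P (fderiv ℝ (uu_Cgo Γ P) y w))) := by
    intro w
    conv_lhs => rw [he.fderiv_eq, fderiv_fun_add hex h1]
    rw [add_apply, h2, hG1.fderiv, hPu.fderiv]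
    rfl
  have h4 := h3 (δ, 0)
  have h5 := h3 (0, δ)
  have h6 := Cg.dbar_ex y δ
  simp only [map_zero, zero_apply, zero_add] at h4 h5
  generalize fderiv ℝ (uu_Cgo Γ P) y (δ, 0) = d1 at *
  generalize fderiv ℝ (uu_Cgo Γ P) y (0, δ) = d2 at *
  generalize fderiv ℝ (fun z : E n × E n => ex z.1 z.2) y (δ, 0) = e1 at *
  generalize fderiv ℝ (fun z : E n × E n => ex z.1 z.2) y (0, δ) = e2 at *
  change d1 + I • d2 - Γ.G y.1 (P (d1 + I • d2)) = _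
  rw [map_add, map_add, map_smul, map_smul]
  have h7 : d1 - Γ.G y.1 (P d1) = e1 + fderiv ℝ Γ.G y.1 δ (P (uu_Cgo Γ P y)) := by
    rw [sub_eq_iff_eq_add, add_assoc]; exact h4
  have h8 : d2 - Γ.G y.1 (P d2) = e2 := by
    rw [sub_eq_iff_eq_add]; exact h5
  calc d1 + I • d2 - (Γ.G y.1 (P d1) + I • Γ.G y.1 (P d2))
      = (d1 - Γ.G y.1 (P d1)) + I • (d2 - Γ.G y.1 (P d2)) := by rw [smul_sub]; abel
    _ = (e1 + I • e2) + fderiv ℝ Γ.G y.1 δ (P (uu_Cgo Γ P y)) := by rw [h7, h8]; abel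
    _ = _ := by rw [h6, zero_add]

theorem dbar_Cgo (hP : ∀ a x, P (Mx a x) = Mx a (P x)) {y : E n × E n}
    (h : ∀ᶠ z in nhds y, IsUnit (1 - Γ.Gt z.1 * P)) (δ : E n) :
    fderiv ℝ (uu_Cgo Γ P) y (δ, 0) + I • fderiv ℝ (uu_Cgo Γ P) y (0, δ) =
      ∫ η, (conj (bd (rc δ) (zc y.1 η)) * (ρ.ph (pz y.1 η) : ℂ) *
        pr (TT_Cgo Γ P y.1 (ex 0 y.2)) (ex 0 (-η))) • uu_Cgo Γ P (y.1, η) := by
  have h' : ∀ᶠ z in nhds y, IsUnit (1 - Γ.G z.1 * P) := h.mono fun z hz => unitG_Cgo Γ hP hz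
  have h1 := dbarAux_Cgo Γ h' δ
  have h2 := congrArg (fun x => Ring.inverse (1 - Γ.G y.1 * P) x) h1
  rw [invL_Cgo h'.self_of_nhds, Γ.dG] at h2
  have hp := Cg.cont_ph_pz ρ y.1
  have hb : Continuous fun η : E n => bd (rc δ) (zc y.1 η) :=
    Continuous.comp' (g := fun y : E n × E n => bd (rc δ) (zc y.1 y.2))
      (f := fun η : E n => (y.1, η)) (Cg.cont_bd δ) (by fun_prop)
  have he := Cg.cont_ex_right y.1
  have hq : Continuous fun η : E n => pr (P (uu_Cgo Γ P y)) (ex (-y.1) (-η)) :=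
    (pr (P (uu_Cgo Γ P y))).continuous.comp (Cg.cont_ex_neg (-y.1))
  have hc : Continuous fun η : E n => conj (bd (rc δ) (zc y.1 η)) := continuous_conj.comp hb
  have hi : Integrable fun η : E n => ((((π ^ 2)⁻¹ : ℝ) : ℂ) * conj (bd (rc δ) (zc y.1 η)) *
      (ρ.ph (pz y.1 η) : ℂ) * pr (P (uu_Cgo Γ P y)) (ex (-y.1) (-η))) • ex y.1 η :=
    Cg.int_ph ρ y.1 ((((continuous_const.mul hc).mul (continuous_ofReal.comp hp)).mul hq).smul he)
      fun η h0 => by simp [h0]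
  rw [h2, ← ContinuousLinearMap.integral_comp_comm _ hi]
  refine integral_congr_ae (Filter.Eventually.of_forall fun η => ?_)
  have h3 : pr (TT_Cgo Γ P y.1 (ex 0 y.2)) (ex 0 (-η)) =
      (((π ^ 2)⁻¹ : ℝ) : ℂ) * pr (P (uu_Cgo Γ P y)) (ex (-y.1) (-η)) := by
    rw [cj_Cgo Γ hP h.self_of_nhds, hP, Cg.pr_Mx, Cg.Mx_ex, add_neg_cancel]
    unfold TT_Cgo UU_Cgo
    rw [smul_apply, map_smul, smul_apply, smul_eq_mul]
    rfl
  simp only [map_smul]
  rw [h3]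
  congr 1
  ring

end Aux

theorem cgoStmt {n : ℕ} (A : Api n) (Ex : ExStmt n) (We : WkEx n) (Go : GopStmt n) : CgoStmt n := by
  obtain ⟨C, hC, hGo⟩ := Go
  intro Q hQ
  have hv : 0 ≤ Cg.cv n := norm_nonneg _
  have hπ := Real.pi_pos
  refine ⟨2 * Cg.cv n + C * (Q * (2 * Cg.cv n)) + 4 * π ^ 2 * Cg.cv n + (C + 1) ^ 2 * (Q * 2) ^ 2,
    max 4 (2 * C * Q + 1), by positivity, le_max_left _ _, ?_⟩
  intro q _ hq lam tau hl hl1 ρ
  obtain ⟨Γ⟩ := hGo lam tau hl hl1 ρ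
  have hPn : ‖(mulH q : H n →L[ℂ] H n)‖ ≤ Q := A.norm_mulH q Q hQ fun x _ => hq x
  have hP : ∀ (a : E n) (x : H n), mulH q (Mx a x) = Mx a (mulH q x) := fun a x =>
    A.mulH_comm _ _ x
  have h4 : ∀ a : E n, max 4 (2 * C * Q + 1) < ‖a‖ → 4 ≤ ‖a‖ := fun a ha =>
    (le_max_left _ _).trans ha.le
  have hT : ∀ a : E n, max 4 (2 * C * Q + 1) < ‖a‖ → ‖Γ.Gt a * mulH q‖ ≤ 1 / 2 := fun a ha => by
    have h1 := h4 a ha
    have h2 : 2 * C * Q + 1 < ‖a‖ := (le_max_right _ _).trans_lt ha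
    have h3 : 0 < ‖a‖ := by linarith
    calc ‖Γ.Gt a * mulH q‖ ≤ ‖Γ.Gt a‖ * ‖(mulH q : H n →L[ℂ] H n)‖ := norm_mul_le _ _
      _ ≤ C / ‖a‖ * Q := mul_le_mul (Γ.nrm a h1) hPn (norm_nonneg _) (by positivity)
      _ ≤ 1 / 2 := by
        rw [div_mul_eq_mul_div, div_le_iff₀ h3]
        linarith
  have hO : IsOpen {y : E n × E n | max 4 (2 * C * Q + 1) < ‖y.1‖} :=
    isOpen_lt continuous_const (by fun_prop)
  have hU : ∀ y : E n × E n, max 4 (2 * C * Q + 1) < ‖y.1‖ →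
      ‖UU_Cgo Γ (mulH q) y‖ ≤ 2 * Cg.cv n := fun y hy =>
    (normInv_Cgo (hT _ hy) _).trans (by have := Cg.norm_ex_zero y.2; linarith)
  have hPU : ∀ y : E n × E n, max 4 (2 * C * Q + 1) < ‖y.1‖ →
      ‖mulH q (UU_Cgo Γ (mulH q) y)‖ ≤ Q * (2 * Cg.cv n) := fun y hy =>
    (ContinuousLinearMap.le_opNorm _ _).trans (mul_le_mul hPn (hU y hy) (norm_nonneg _) hQ)
  have k1 : 0 ≤ C * (Q * (2 * Cg.cv n)) := by positivity
  have k2 : 0 ≤ 4 * π ^ 2 * Cg.cv n := by positivity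
  have k3 : 0 ≤ (C + 1) ^ 2 * (Q * 2) ^ 2 := by positivity
  refine ⟨⟨uu_Cgo Γ (mulH q), UU_Cgo Γ (mulH q),
    fun a b η => pr (TT_Cgo Γ (mulH q) a (ex 0 b)) (ex 0 (-η)), fun y hy => ?_, fun y hy => ?_,
    fun y hy => ?_, fun y hy => ?_, fun y hy hz => ?_, fun a ha => ?_, fun y hy δ => ?_,
    fun a ha h hh => ?_⟩⟩
  · exact (c1_Cgo Γ (unitG_Cgo Γ hP (unit_Cgo (hT _ hy)))).contDiffWithinAt
  · exact cj_Cgo Γ hP (unit_Cgo (hT _ hy))
  · have := hU y hy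
    linarith
  · have h1 := h4 _ hy
    have h2 : UU_Cgo Γ (mulH q) y - ex 0 y.2 = Γ.Gt y.1 (mulH q (UU_Cgo Γ (mulH q) y)) := by
      rw [sub_eq_iff_eq_add']
      exact fix_Cgo (unit_Cgo (hT _ hy)) _
    rw [h2]
    calc _ ≤ ‖Γ.Gt y.1‖ * ‖mulH q (UU_Cgo Γ (mulH q) y)‖ := ContinuousLinearMap.le_opNorm _ _
      _ ≤ C / ‖y.1‖ * (Q * (2 * Cg.cv n)) :=
        mul_le_mul (Γ.nrm _ h1) (hPU y hy) (norm_nonneg _) (by positivity)
      _ = C * (Q * (2 * Cg.cv n)) / ‖y.1‖ := by ring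
      _ ≤ _ := by
        refine div_le_div_of_nonneg_right ?_ (norm_nonneg _)
        linarith
  · obtain ⟨k, hk, hw⟩ := Γ.weak y.1 (h4 _ hy) (mulH q (UU_Cgo Γ (mulH q) y))
    have h1 := Cg.Wk.add (We y.1 y.2) hw
    have h2 := cj_Cgo Γ hP (unit_Cgo (hT _ hy))
    have h3 : uu_Cgo Γ (mulH q) y =
        ex y.1 y.2 + Γ.G y.1 (Mx y.1 (mulH q (UU_Cgo Γ (mulH q) y))) := by
      rw [← hP, ← h2]
      exact fix_Cgo (unitG_Cgo Γ hP (unit_Cgo (hT _ hy))) _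
    refine ⟨(((4 * π ^ 2 : ℝ) : ℂ) * pz y.1 y.2) • ex 0 y.2 - k, ?_, ?_⟩
    · have h5 : ‖(((4 * π ^ 2 : ℝ) : ℂ) * pz y.1 y.2) • ex (0 : E n) y.2‖ ≤
          4 * π ^ 2 * lam * Cg.cv n := by
        rw [norm_smul, norm_mul, Complex.norm_real, Real.norm_of_nonneg (by positivity)]
        have := Cg.norm_ex_zero y.2
        gcongr
      have h6 : ‖k‖ ≤ C * lam * (Q * (2 * Cg.cv n)) :=
        hk.trans (mul_le_mul_of_nonneg_left (hPU y hy) (by positivity))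
      have h7 := norm_sub_le ((((4 * π ^ 2 : ℝ) : ℂ) * pz y.1 y.2) • ex (0 : E n) y.2) k
      have h8 := mul_nonneg hv hl.le
      have h9 := mul_nonneg k3 hl.le
      nlinarith
    · rw [← h3] at h1
      convert h1 using 1
      rw [h2, hP, map_sub, map_sub, map_smul, Cg.Mx_ex, add_zero]
      abel
  · have h1 : Continuous fun y : E n × E n => TT_Cgo Γ (mulH q) a (ex 0 y.1) :=
      (TT_Cgo Γ (mulH q) a).continuous.comp ((Cg.cont_ex_right 0).comp continuous_fst)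
    have h2 : Continuous fun y : E n × E n => ex (0 : E n) (-y.2) :=
      (Cg.cont_ex_neg 0).comp continuous_snd
    exact (pr.continuous.comp h1).clm_apply h2
  · exact dbar_Cgo Γ hP ((hO.eventually_mem hy).mono fun z hz => unit_Cgo (hT _ hz)) δ
  · have h1 := h4 _ ha
    have h2 : 0 < ‖a‖ := by linarith
    have h3 : ∀ g : H n, ENNReal.ofReal (C / ‖a‖ ^ 2 * ‖g‖ ^ 2) ≤
        ENNReal.ofReal ((C + 1) / ‖a‖ ^ 2 * ‖g‖ ^ 2) := fun g =>
      ENNReal.ofReal_le_ofReal (by gcongr; linarith)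
    refine (Cg.fib_bound ρ a (c := (C + 1) / ‖a‖ ^ 2) (by positivity)
      (fun g => (Γ.eb a h1 g).1.trans (h3 g)) (fun g => (Γ.eb a h1 g).2.trans (h3 g))
      (TT_Cgo Γ (mulH q) a) hh).trans ?_
    refine mul_le_mul_left (ENNReal.ofReal_le_ofReal ?_) _
    have h5 : ‖Ring.inverse (1 - Γ.Gt a * mulH q)‖ ≤ 2 :=
      ContinuousLinearMap.opNorm_le_bound _ (by norm_num) (normInv_Cgo (hT a ha))
    have h6 : ‖TT_Cgo Γ (mulH q) a‖ ≤ Q * 2 := by
      unfold TT_Cgo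
      rw [norm_smul, Complex.norm_real, Real.norm_of_nonneg (by positivity)]
      have h7 : (π ^ 2)⁻¹ ≤ 1 := inv_le_one_of_one_le₀ (by nlinarith [Real.pi_gt_three])
      have h8 : ‖mulH q * Ring.inverse (1 - Γ.Gt a * mulH q)‖ ≤ Q * 2 :=
        (norm_mul_le _ _).trans (mul_le_mul hPn h5 (norm_nonneg _) hQ)
      calc _ ≤ 1 * (Q * 2) := mul_le_mul h7 h8 (norm_nonneg _) zero_le_one
        _ = _ := one_mul _
    calc ((C + 1) / ‖a‖ ^ 2) ^ 2 * ‖TT_Cgo Γ (mulH q) a‖ ^ 2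
        ≤ ((C + 1) / ‖a‖ ^ 2) ^ 2 * (Q * 2) ^ 2 := by gcongr
      _ = (C + 1) ^ 2 * (Q * 2) ^ 2 / ‖a‖ ^ 4 := by field_simp
      _ ≤ _ := by
        refine div_le_div_of_nonneg_right ?_ (by positivity)
        linarith

end Pool.Agent.MP_71da5e_an.L

end
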