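import Pool.Agent.Mg.F71da5ea.G17b4dd
import Pool.Agent.Mg.F71da5ea.G8bae5f

section

namespace Pool.Agent.MP_71da5e_an.L.Dg

open MeasureTheory Metric Set Laplacian Complex
open scoped ContDiff RealInnerProductSpace ENNReal Real ComplexConjugate

variable {n : ℕ}

/-- One coordinate of `a + i b`. -/
noncomputable def lk (k : Fin n) : E n × E n →L[ℝ] ℂ :=
  Complex.ofRealCLM.comp ((EuclideanSpace.proj k).comp (ContinuousLinearMap.fst ℝ _ _)) +
    I • Complex.ofRealCLM.comp ((EuclideanSpace.proj k).comp (ContinuousLinearMap.snd ℝ _ _))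

theorem lk_apply (k : Fin n) (y : E n × E n) : lk k y = zc y.1 y.2 k := by
  simp [lk, zc, mul_comm]

theorem pz_eq : (fun y : E n × E n => pz y.1 y.2) = fun y => ∑ k, lk k y * lk k y := by
  funext y
  simp only [pz, bd, lk_apply]

theorem contDiff_pz : ContDiff ℝ 1 fun y : E n × E n => pz y.1 y.2 := by
  rw [pz_eq]
  exact ContDiff.sum fun k _ => (lk k).contDiff.mul (lk k).contDiff

theorem fderiv_pz (y v : E n × E n) : fderiv ℝ (fun y : E n × E n => pz y.1 y.2) y v =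
    2 * bd (zc v.1 v.2) (zc y.1 y.2) := by
  rw [pz_eq]
  have h : HasFDerivAt (fun y : E n × E n => ∑ k, lk k y * lk k y)
      (∑ k, (lk k y • lk k + lk k y • lk k)) y :=
    HasFDerivAt.fun_sum fun k _ => (lk k).hasFDerivAt.mul (lk k).hasFDerivAt
  rw [h.fderiv, sum_apply, bd, Finset.mul_sum]
  refine Finset.sum_congr rfl fun k _ => ?_
  simp only [add_apply, smul_apply, lk_apply, smul_eq_mul]
  ring

/-- Twice the antiholomorphic derivative in the direction `δ`. -/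
noncomputable def DD (f : E n × E n → ℂ) (y : E n × E n) (δ : E n) : ℂ :=
  fderiv ℝ f y (δ, 0) + I * fderiv ℝ f y (0, δ)

theorem DD_mul {f g : E n × E n → ℂ} {y : E n × E n} (hf : DifferentiableAt ℝ f y)
    (hg : DifferentiableAt ℝ g y) (δ : E n) :
    DD (fun y => f y * g y) y δ = f y * DD g y δ + DD f y δ * g y := by
  unfold DD
  rw [fderiv_fun_mul hf hg]
  simp only [add_apply, smul_apply, smul_eq_mul]
  ring

theorem diff_ex : Differentiable ℝ fun y : E n × E n => ex y.1 y.2 :=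
  Cg.contDiff_ex.differentiable (by simp)

theorem cd_pr (k : H n) : ContDiff ℝ 1 fun y : E n × E n => pr k (ex y.1 y.2) :=
  ContDiff.comp (g := fun x : H n => (pr k).restrictScalars ℝ x)
    (f := fun y : E n × E n => ex y.1 y.2) ((pr k).restrictScalars ℝ).contDiff
    (Cg.contDiff_ex.of_le (by norm_cast))

theorem cd_pr_neg (k : H n) : ContDiff ℝ 1 fun y : E n × E n => pr k (ex (-y.1) (-y.2)) :=
  ContDiff.comp (g := fun y : E n × E n => pr k (ex y.1 y.2)) (f := fun y : E n × E n => -y)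
    (cd_pr k) contDiff_neg

theorem DD_pr (k : H n) (y : E n × E n) (δ : E n) :
    DD (fun y : E n × E n => pr k (ex y.1 y.2)) y δ = 0 := by
  have h := HasFDerivAt.comp (g := fun x : H n => (pr k).restrictScalars ℝ x)
    (f := fun y : E n × E n => ex y.1 y.2) y ((pr k).restrictScalars ℝ).hasFDerivAt
    (diff_ex y).hasFDerivAt
  have h2 : fderiv ℝ (fun y : E n × E n => pr k (ex y.1 y.2)) y = _ := h.fderiv
  unfold DD
  rw [h2]
  simp only [ContinuousLinearMap.comp_apply, ContinuousLinearMap.coe_restrictScalars']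
  rw [← smul_eq_mul, ← map_smul, ← map_add, Cg.dbar_ex, map_zero]

theorem DD_pr_neg (k : H n) (y : E n × E n) (δ : E n) :
    DD (fun y : E n × E n => pr k (ex (-y.1) (-y.2))) y δ = 0 := by
  have h := HasFDerivAt.comp (g := fun y : E n × E n => pr k (ex y.1 y.2))
    (f := fun y : E n × E n => -y) y
    (((cd_pr k).differentiable one_ne_zero) (-y)).hasFDerivAt (hasFDerivAt_id y).neg
  have h2 : fderiv ℝ (fun y : E n × E n => pr k (ex (-y.1) (-y.2))) y = _ := h.fderiv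
  have h3 := DD_pr k (-y) δ
  unfold DD at h3 ⊢
  rw [h2]
  simp only [ContinuousLinearMap.comp_apply, neg_apply, ContinuousLinearMap.id_apply, map_neg]
  linear_combination -h3

theorem real_lin (L : ℂ →L[ℝ] ℂ) (w : ℂ) : L w + I * L (I * w) = conj w * (L 1 + I * L I) := by
  have h1 : ∀ z : ℂ, L z = z.re * L 1 + z.im * L I := fun z => by
    conv_lhs => rw [show z = z.re • (1 : ℂ) + z.im • I by simp]
    rw [map_add, map_smul, map_smul]
    simp
  rw [h1 w, h1 (I * w)]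
  have h2 : conj w = w.re - w.im * I := by
    apply Complex.ext <;> simp
  rw [h2]
  simp only [mul_re, I_re, zero_mul, I_im, one_mul, zero_sub, mul_im, zero_add, ofReal_neg]
  linear_combination (w.im * L I) * I_mul_I

variable {lam tau : ℝ} (ρ : Reg lam tau)

theorem cd_g : ContDiff ℝ 1 fun y : E n × E n => ρ.g (pz y.1 y.2) :=
  (ρ.g_smooth.of_le (by norm_cast)).comp contDiff_pz

theorem DD_g (y : E n × E n) (δ : E n) : DD (fun y : E n × E n => ρ.g (pz y.1 y.2)) y δ =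
    4 * conj (bd (rc δ) (zc y.1 y.2)) * (ρ.ph (pz y.1 y.2) : ℂ) := by
  have h := HasFDerivAt.comp (g := ρ.g) (f := fun y : E n × E n => pz y.1 y.2) y
    (ρ.g_smooth.differentiable (by simp) _).hasFDerivAt
    (contDiff_pz.differentiable one_ne_zero y).hasFDerivAt
  have h2 : fderiv ℝ (fun y : E n × E n => ρ.g (pz y.1 y.2)) y = _ := h.fderiv
  have h3 : zc δ (0 : E n) = rc δ := by
    funext k
    simp [zc, rc]
  have h4 : bd (zc (0 : E n) δ) (zc y.1 y.2) = I * bd (rc δ) (zc y.1 y.2) := by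
    unfold bd
    rw [Finset.mul_sum]
    refine Finset.sum_congr rfl fun k _ => ?_
    simp only [zc, rc, PiLp.zero_apply, ofReal_zero, zero_add]
    ring
  have h5 := ρ.dg (pz y.1 y.2)
  unfold db at h5
  unfold DD
  rw [h2]
  simp only [ContinuousLinearMap.comp_apply, fderiv_pz]
  rw [h3, h4, mul_left_comm 2 I, real_lin, h5, map_mul]
  unfold Reg.ph
  have h6 : conj (2 : ℂ) = 2 := map_ofNat _ 2
  rw [h6]
  push_cast
  ring

/-- The integrand. -/
noncomputable def Ph (h k : H n) (y : E n × E n) : ℂ :=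
  ρ.g (pz y.1 y.2) * pr h (ex (-y.1) (-y.2)) * pr k (ex y.1 y.2)

theorem cd_Ph (h k : H n) : ContDiff ℝ 1 (Ph ρ h k) :=
  ((cd_g ρ).mul (cd_pr_neg h)).mul (cd_pr k)

theorem DD_Ph (h k : H n) (y : E n × E n) (δ : E n) : DD (Ph ρ h k) y δ =
    4 * conj (bd (rc δ) (zc y.1 y.2)) * (ρ.ph (pz y.1 y.2) : ℂ) * pr h (ex (-y.1) (-y.2)) *
      pr k (ex y.1 y.2) := by
  have h1 := (cd_g ρ).differentiable one_ne_zero y
  have h2 := (cd_pr_neg h).differentiable one_ne_zero y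
  have h3 := (cd_pr k).differentiable one_ne_zero y
  have h4 := DD_mul (f := fun y : E n × E n => ρ.g (pz y.1 y.2) * pr h (ex (-y.1) (-y.2)))
    (h1.mul h2) h3 δ
  rw [DD_mul h1 h2, DD_pr, DD_pr_neg, DD_g] at h4
  refine Eq.trans h4 ?_
  ring

theorem g_bdd : ∃ C, 0 ≤ C ∧ ∀ p, ‖ρ.g p‖ ≤ C := by
  obtain ⟨C, hC⟩ := (isCompact_closedBall (0 : ℂ) 1).exists_bound_of_continuousOn
    ρ.g_smooth.continuous.continuousOn
  refine ⟨max C 1, le_trans zero_le_one (le_max_right _ _), fun p => ?_⟩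
  rcases le_total ‖p‖ 1 with h | h
  · exact (hC _ (mem_closedBall_zero_iff.2 h)).trans (le_max_left _ _)
  · have := ρ.g_le p
    rw [norm_mul] at this
    refine le_trans ?_ (le_max_right _ _)
    nlinarith [norm_nonneg (ρ.g p)]

theorem norm_Mx (a : E n) (h : H n) : ‖Mx a h‖ ≤ Real.exp (2 * π * ‖a‖) * ‖h‖ :=
  Cg.norm_mulH_apply (Cg.exf_top a 0) (Cg.norm_exf_le a 0) h

theorem Ph_int {C : ℝ} (hC0 : 0 ≤ C) (hC : ∀ p, ‖ρ.g p‖ ≤ C) (h k : H n) (a : E n) :
    Integrable (fun η => Ph ρ h k (a, η)) ∧ ∫ η, ‖Ph ρ h k (a, η)‖ ≤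
      C * (Real.exp (2 * π * ‖a‖) ^ 2 * (‖h‖ ^ 2 + ‖k‖ ^ 2)) := by
  have e1 : ∀ η, pr h (ex (-a) (-η)) = G.fh (Mx (-a) h) η := fun η => by
    rw [G.fh, G.pr_Mx_ex, add_zero]
  have e2 : ∀ η, pr k (ex a η) = G.fh (Mx a k) (-η) := fun η => by
    rw [G.fh, G.pr_Mx_ex, add_zero, neg_neg]
  have i1 := G.integrable_sq_fh (Mx (-a) h)
  have i2 : Integrable fun η => ‖G.fh (Mx a k) (-η)‖ ^ 2 := (G.integrable_sq_fh (Mx a k)).comp_neg
  have hb : ∀ η, ‖Ph ρ h k (a, η)‖ ≤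
      C * (‖G.fh (Mx (-a) h) η‖ ^ 2 + ‖G.fh (Mx a k) (-η)‖ ^ 2) := fun η => by
    simp only [Ph]
    rw [e1, e2, norm_mul, norm_mul, mul_assoc]
    refine mul_le_mul (hC _) ?_ (by positivity) hC0
    nlinarith [sq_nonneg (‖G.fh (Mx (-a) h) η‖ - ‖G.fh (Mx a k) (-η)‖),
      norm_nonneg (G.fh (Mx (-a) h) η), norm_nonneg (G.fh (Mx a k) (-η)),
      mul_nonneg (norm_nonneg (G.fh (Mx (-a) h) η)) (norm_nonneg (G.fh (Mx a k) (-η)))]
  have hc : Continuous fun η => Ph ρ h k (a, η) :=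
    (cd_Ph ρ h k).continuous.comp (Continuous.prodMk_right a)
  have hi : Integrable (fun η => Ph ρ h k (a, η)) :=
    ((i1.add i2).const_mul C).mono' hc.aestronglyMeasurable (Filter.Eventually.of_forall hb)
  have i3 : Integrable fun η =>
      C * (‖G.fh (Mx (-a) h) η‖ ^ 2 + ‖G.fh (Mx a k) (-η)‖ ^ 2) := (i1.add i2).const_mul C
  refine ⟨hi, (integral_mono hi.norm i3 hb).trans ?_⟩
  rw [integral_const_mul, integral_add i1 i2, G.integral_sq_fh,
    integral_neg_eq_self (fun η => ‖G.fh (Mx a k) η‖ ^ 2), G.integral_sq_fh]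
  refine mul_le_mul_of_nonneg_left ?_ hC0
  have h1 := norm_Mx (-a) h
  have h2 := norm_Mx a k
  rw [norm_neg] at h1
  rw [mul_add, ← mul_pow, ← mul_pow]
  gcongr

theorem deriv_cut {Φ : E n × E n → ℂ} (hΦ : ContDiff ℝ 1 Φ) {χ : E n → ℂ} (hχ : Continuous χ)
    (hs : HasCompactSupport χ) (a δ : E n) (t₀ : ℝ) :
    HasDerivAt (fun t : ℝ => ∫ η, χ η * Φ (a + t • δ, η))
      (∫ η, χ η * fderiv ℝ Φ (a + t₀ • δ, η) (δ, 0)) t₀ := by
  have hD : Continuous fun y : ℝ × E n => χ y.2 * fderiv ℝ Φ (a + y.1 • δ, y.2) (δ, 0) :=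
    (hχ.comp continuous_snd).mul (((hΦ.continuous_fderiv one_ne_zero).comp
      (by fun_prop : Continuous fun y : ℝ × E n => (a + y.1 • δ, y.2))).clm_apply continuous_const)
  have hF : ∀ t : ℝ, Continuous fun η : E n => χ η * Φ (a + t • δ, η) := fun t =>
    hχ.mul (hΦ.continuous.comp (Continuous.prodMk_right _))
  obtain ⟨M, hM⟩ := ((isCompact_closedBall t₀ 1).prod hs.isCompact).exists_bound_of_continuousOn
    hD.continuousOn
  refine (hasDerivAt_integral_of_dominated_loc_of_deriv_le (s := closedBall t₀ 1)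
    (F := fun (t : ℝ) (η : E n) => χ η * Φ (a + t • δ, η))
    (F' := fun (t : ℝ) (η : E n) => χ η * fderiv ℝ Φ (a + t • δ, η) (δ, 0))
    (bound := (tsupport χ).indicator fun _ => M) (closedBall_mem_nhds t₀ one_pos)
    (Filter.Eventually.of_forall fun t => (hF t).aestronglyMeasurable)
    ((hF t₀).integrable_of_hasCompactSupport hs.mul_right)
    (hD.comp (Continuous.prodMk_right t₀)).aestronglyMeasurable
    (Filter.Eventually.of_forall fun η t ht => ?_) ?_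
    (Filter.Eventually.of_forall fun η t _ => ?_)).2
  · by_cases hη : η ∈ tsupport χ
    · rw [indicator_of_mem hη]
      exact hM (t, η) ⟨ht, hη⟩
    · rw [indicator_of_notMem hη, image_eq_zero_of_notMem_tsupport hη]
      simp
  · exact (integrable_indicator_iff (isClosed_tsupport χ).measurableSet).2
      (integrableOn_const hs.isCompact.measure_lt_top.ne)
  · have h1 : HasDerivAt (fun t : ℝ => (a + t • δ, η)) ((δ, 0) : E n × E n) t := by
      refine HasDerivAt.prodMk ?_ (hasDerivAt_const t η)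
      simpa using ((hasDerivAt_id t).smul_const δ).const_add a
    exact ((hΦ.differentiable one_ne_zero _).hasFDerivAt.comp_hasDerivAt t h1).const_mul (χ η)

theorem ibp_cut {Φ : E n × E n → ℂ} (hΦ : ContDiff ℝ 1 Φ) {χ : E n → ℂ} (hχ : ContDiff ℝ 1 χ)
    (hs : HasCompactSupport χ) (a δ : E n) :
    ∫ η, χ η * fderiv ℝ Φ (a, η) (δ, 0) =
      (∫ η, χ η * DD Φ (a, η) δ) + I * ∫ η, fderiv ℝ χ η δ * Φ (a, η) := by
  have hf : ContDiff ℝ 1 fun η : E n => Φ (a, η) := hΦ.comp (contDiff_prodMk_right a)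
  have hd : ∀ η, fderiv ℝ (fun η : E n => Φ (a, η)) η δ = fderiv ℝ Φ (a, η) (0, δ) := fun η => by
    have h := HasFDerivAt.comp (g := Φ) (f := fun η : E n => (a, η)) η
      (hΦ.differentiable one_ne_zero _).hasFDerivAt (hasFDerivAt_prodMk_right a η)
    have h2 : fderiv ℝ (fun η : E n => Φ (a, η)) η = _ := h.fderiv
    rw [h2]
    simp
  have hc : ∀ v : E n × E n, Continuous fun η : E n => fderiv ℝ Φ (a, η) v := fun v =>
    ((hΦ.continuous_fderiv one_ne_zero).comp (Continuous.prodMk_right a)).clm_apply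
      continuous_const
  have hi : ∀ v : E n × E n, Integrable fun η : E n => χ η * fderiv ℝ Φ (a, η) v := fun v =>
    (hχ.continuous.mul (hc v)).integrable_of_hasCompactSupport hs.mul_right
  have h1 := integral_mul_fderiv_eq_neg_fderiv_mul_of_integrable (μ := volume) (f := χ)
    (g := fun η : E n => Φ (a, η)) (v := δ)
    ((((hχ.continuous_fderiv one_ne_zero).clm_apply continuous_const).mul
      hf.continuous).integrable_of_hasCompactSupport (hs.fderiv_apply (𝕜 := ℝ) δ).mul_right)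
    (by simp_rw [hd]; exact hi _)
    ((hχ.continuous.mul hf.continuous).integrable_of_hasCompactSupport hs.mul_right)
    (fun x _ => hχ.differentiable one_ne_zero x) (fun x _ => hf.differentiable one_ne_zero x)
  simp_rw [hd] at h1
  have h2 : ∫ η, χ η * DD Φ (a, η) δ = (∫ η, χ η * fderiv ℝ Φ (a, η) (δ, 0)) +
      I * ∫ η, χ η * fderiv ℝ Φ (a, η) (0, δ) := by
    rw [← integral_const_mul, ← integral_add (hi _) ((hi _).const_mul I)]
    refine integral_congr_ae (Filter.Eventually.of_forall fun η => ?_)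
    simp only [DD]
    ring
  rw [h2, h1]
  ring

theorem exists_cut : ∃ (χ : ℝ → E n → ℂ) (L : ℝ), ∀ N : ℝ, 0 < N → ContDiff ℝ 1 (χ N) ∧
    HasCompactSupport (χ N) ∧ (∀ η, ‖χ N η‖ ≤ 1) ∧ (∀ η, ‖η‖ ≤ N → χ N η = 1) ∧
      ∀ η δ, ‖fderiv ℝ (χ N) η δ‖ ≤ L * ‖δ‖ / N := by
  let b : ContDiffBump (0 : E n) := ⟨1, 2, one_pos, one_lt_two⟩
  let c : E n → ℂ := fun η => (b η : ℂ)
  have hc : ContDiff ℝ 1 c := Complex.ofRealCLM.contDiff.comp b.contDiff
  have hs : HasCompactSupport c := b.hasCompactSupport.comp_left (g := fun r : ℝ => (r : ℂ)) (by simp)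
  obtain ⟨L, hL⟩ := (hc.continuous_fderiv one_ne_zero).bounded_above_of_compact_support
    (hs.fderiv (𝕜 := ℝ))
  refine ⟨fun N η => c (N⁻¹ • η), L, fun N hN => ⟨hc.comp (by fun_prop), ?_, fun η => ?_,
    fun η hη => ?_, fun η δ => ?_⟩⟩
  · exact hs.comp_homeomorph (Homeomorph.smulOfNeZero N⁻¹ (inv_ne_zero hN.ne'))
  · simp only [c, Complex.norm_real, Real.norm_eq_abs, abs_of_nonneg b.nonneg]
    exact b.le_one
  · simp only [c]
    rw [b.one_of_mem_closedBall, Complex.ofReal_one]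
    rw [mem_closedBall_zero_iff, norm_smul, norm_inv, Real.norm_of_nonneg hN.le,
      inv_mul_le_iff₀ hN]
    simpa [b] using hη
  · have h := HasFDerivAt.comp (g := c) (f := fun η : E n => N⁻¹ • η) η
      (hc.differentiable one_ne_zero _).hasFDerivAt ((hasFDerivAt_id η).const_smul N⁻¹)
    have h2 : fderiv ℝ (fun η : E n => c (N⁻¹ • η)) η = _ := h.fderiv
    rw [h2]
    simp only [ContinuousLinearMap.comp_apply, smul_apply, ContinuousLinearMap.id_apply]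
    refine (ContinuousLinearMap.le_opNorm _ _).trans ?_
    rw [norm_smul, norm_inv, Real.norm_of_nonneg hN.le, div_eq_mul_inv, mul_assoc,
      mul_comm ‖δ‖]
    exact mul_le_mul_of_nonneg_right (hL _) (by positivity)

theorem shift {Φ : E n × E n → ℂ} (hΦ : ContDiff ℝ 1 Φ) (a δ : E n) (c : ℂ) (B R ε : ℝ)
    (hi : ∀ t ∈ Icc (0 : ℝ) 1, Integrable (fun η => Φ (a + t • δ, η)) ∧
      ∫ η, ‖Φ (a + t • δ, η)‖ ≤ B)
    (h0 : ∀ t ∈ Icc (0 : ℝ) 1, ∀ η, R < ‖η‖ → DD Φ (a + t • δ, η) δ = 0)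
    (hε : ∀ t ∈ Icc (0 : ℝ) 1, ‖(∫ η, DD Φ (a + t • δ, η) δ) - c‖ ≤ ε) :
    ‖(∫ η, Φ (a + δ, η)) - (∫ η, Φ (a, η)) - c‖ ≤ ε := by
  obtain ⟨χ, L, hχ⟩ := exists_cut (n := n)
  have key : ∀ N : ℝ, 0 < N → R ≤ N → ‖(∫ η, χ N η * Φ (a + δ, η)) -
      (∫ η, χ N η * Φ (a, η)) - c‖ ≤ ε + L * ‖δ‖ / N * B := fun N hN hR => by
    obtain ⟨h1, h2, -, h4, h5⟩ := hχ N hN
    have hd : ∀ t ∈ Icc (0 : ℝ) 1, HasDerivWithinAt
        (fun t : ℝ => (∫ η, χ N η * Φ (a + t • δ, η)) - t • c)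
        ((∫ η, χ N η * fderiv ℝ Φ (a + t • δ, η) (δ, 0)) - c) (Icc 0 1) t := fun t _ => by
      refine ((deriv_cut hΦ h1.continuous h2 a δ t).sub ?_).hasDerivWithinAt
      simpa using (hasDerivAt_id t).smul_const c
    have := norm_image_sub_le_of_norm_deriv_le_segment_01' (C := ε + L * ‖δ‖ / N * B) hd
      fun t ht => by
        have ht' : t ∈ Icc (0 : ℝ) 1 := Ico_subset_Icc_self ht
        have e1 : ∫ η, χ N η * DD Φ (a + t • δ, η) δ = ∫ η, DD Φ (a + t • δ, η) δ := by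
          refine integral_congr_ae (Filter.Eventually.of_forall fun η => ?_)
          rcases le_or_gt ‖η‖ N with h | h
          · simp only [h4 η h, one_mul]
          · simp only [h0 t ht' η (hR.trans_lt h), mul_zero]
        rw [ibp_cut hΦ h1 h2, e1, add_sub_right_comm]
        refine (norm_add_le _ _).trans (add_le_add (hε t ht') ?_)
        have hL : 0 ≤ L * ‖δ‖ / N := (norm_nonneg _).trans (h5 0 δ)
        rw [norm_mul, norm_I, one_mul]
        refine (norm_integral_le_of_norm_le ((hi t ht').1.norm.const_mul (L * ‖δ‖ / N))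
          (Filter.Eventually.of_forall fun η => ?_)).trans ?_
        · rw [norm_mul]
          exact mul_le_mul_of_nonneg_right (h5 η δ) (norm_nonneg _)
        · rw [integral_const_mul]
          exact mul_le_mul_of_nonneg_left (hi t ht').2 hL
    simp only [one_smul, zero_smul, add_zero, sub_zero] at this
    rwa [sub_right_comm]
  have hlim : ∀ f : E n → ℂ, Integrable f → Filter.Tendsto
      (fun N : ℕ => ∫ η, χ (N + 1) η * f η) Filter.atTop (nhds (∫ η, f η)) := fun f hf => by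
    have hp : ∀ N : ℕ, (0 : ℝ) < N + 1 := fun N => by positivity
    refine tendsto_integral_of_dominated_convergence (fun η => ‖f η‖)
      (fun N => (hχ _ (hp N)).1.continuous.aestronglyMeasurable.mul hf.1) hf.norm
      (fun N => Filter.Eventually.of_forall fun η => ?_) (Filter.Eventually.of_forall fun η => ?_)
    · rw [norm_mul]
      exact mul_le_of_le_one_left (norm_nonneg _) ((hχ _ (hp N)).2.2.1 η)
    · refine tendsto_const_nhds.congr' ?_
      filter_upwards [Filter.eventually_ge_atTop ⌈‖η‖⌉₊] with N hN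
      rw [(hχ _ (hp N)).2.2.2.1 η, one_mul]
      have := (Nat.ceil_le.1 hN)
      linarith
  have h1 := (hi 1 ⟨zero_le_one, le_rfl⟩).1
  have h2 := (hi 0 ⟨le_rfl, zero_le_one⟩).1
  simp only [one_smul, zero_smul, add_zero] at h1 h2
  have t1 := (((hlim _ h1).sub (hlim _ h2)).sub_const c).norm
  have t2 : Filter.Tendsto (fun N : ℕ => ε + L * ‖δ‖ / ((N : ℝ) + 1) * B) Filter.atTop
      (nhds (ε + 0 * B)) := by
    refine (Filter.Tendsto.mul_const B ?_).const_add ε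
    exact tendsto_const_nhds.div_atTop
      (Filter.tendsto_atTop_add_const_right _ 1 tendsto_natCast_atTop_atTop)
  rw [zero_mul, add_zero] at t2
  refine le_of_tendsto_of_tendsto t1 t2 ?_
  filter_upwards [Filter.eventually_ge_atTop ⌈R⌉₊] with N hN
  refine key _ (by positivity) ?_
  have := (Nat.ceil_le.1 hN)
  linarith

end Pool.Agent.MP_71da5e_an.L.Dg

end

section

namespace Pool.Agent.MP_71da5e_an.L

open MeasureTheory Metric Set Laplacian Complex
open scoped ContDiff RealInnerProductSpace ENNReal Real ComplexConjugate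

namespace Dg

variable {n : ℕ} {lam tau : ℝ} (ρ : Reg lam tau)

/-- The rank one operators. -/
noncomputable def rk (y : E n × E n) : H n →L[ℂ] H n :=
  ContinuousLinearMap.smulRightL ℂ (H n) (H n) (pr (ex (-y.1) (-y.2))) (ex y.1 y.2)

theorem rk_apply (y : E n × E n) (h : H n) : rk y h = pr h (ex (-y.1) (-y.2)) • ex y.1 y.2 := by
  rw [Cg.pr_comm]
  rfl

theorem cont_rk : Continuous (rk (n := n)) := by
  have h1 : Continuous fun y : E n × E n => ex (-y.1) (-y.2) :=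
    Continuous.comp' (g := fun y : E n × E n => ex y.1 y.2) (f := fun y : E n × E n => -y)
      Cg.cont_ex continuous_neg
  have h2 : Continuous fun y : E n × E n => pr (ex (-y.1) (-y.2)) := pr.continuous.comp' h1
  have h3 : Continuous fun y : E n × E n =>
      ContinuousLinearMap.smulRightL ℂ (H n) (H n) (pr (ex (-y.1) (-y.2))) :=
    (ContinuousLinearMap.smulRightL ℂ (H n) (H n)).continuous.comp' h2
  exact h3.clm_apply Cg.cont_ex

/-- The integrand of one coordinate of the derivative. -/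
noncomputable def rj (j : Fin n) (y : E n × E n) : H n →L[ℂ] H n :=
  (4 * conj (zc y.1 y.2 j) * (ρ.ph (pz y.1 y.2) : ℂ)) • rk y

theorem cont_rj (j : Fin n) : Continuous (rj ρ j) := by
  have h1 := Cg.cont_zc j
  have h2 : Continuous fun y : E n × E n => ρ.ph (pz y.1 y.2) := (Cg.cont_ph ρ).comp' Cg.cont_pz
  have h3 : Continuous fun y : E n × E n =>
      4 * conj (zc y.1 y.2 j) * (ρ.ph (pz y.1 y.2) : ℂ) :=
    (continuous_const.mul (Complex.continuous_conj.comp' h1)).mul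
      (Complex.continuous_ofReal.comp' h2)
  exact h3.smul cont_rk

theorem int_rj (j : Fin n) (a : E n) : Integrable fun η => rj ρ j (a, η) :=
  Cg.int_ph ρ a ((cont_rj ρ j).comp' (Continuous.prodMk_right a)) fun η h0 => by
    simp [rj, h0]

theorem ph_far {a η : E n} {r : ℝ} (ha : ‖a‖ ≤ r) (hη : r ^ 2 + |lam| + 1 < ‖η‖) :
    ρ.ph (pz a η) = 0 := by
  refine Cg.ph_zero ρ a η ?_
  have h2 := le_abs_self lam
  have h3 := abs_nonneg lam
  have h4 : ‖a‖ ^ 2 ≤ r ^ 2 := by gcongr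
  nlinarith [sq_nonneg r]

theorem cont_Rj (j : Fin n) : Continuous fun a : E n => ∫ η, rj ρ j (a, η) := by
  refine continuous_iff_continuousAt.2 fun a₀ => ?_
  have h1 := continuous_parametric_integral_of_continuous (μ := (volume : Measure (E n)))
    (f := fun a η : E n => rj ρ j (a, η)) (cont_rj ρ j)
    (isCompact_closedBall (0 : E n) ((‖a₀‖ + 1) ^ 2 + |lam| + 1))
  refine h1.continuousAt.congr ?_
  filter_upwards [closedBall_mem_nhds a₀ one_pos] with a ha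
  refine setIntegral_eq_integral_of_forall_compl_eq_zero fun η hη => ?_
  have h2 : ‖a‖ ≤ ‖a₀‖ + 1 := by
    have := norm_le_insert' a a₀
    rw [mem_closedBall_iff_norm] at ha
    linarith
  have h3 := ph_far ρ h2 (η := η) (by simpa using hη)
  simp [rj, h3]

theorem c1_of {F : Type} [NormedAddCommGroup F] [NormedSpace ℝ F] (Gm : E n → F)
    (R : Fin n → E n → F) (hR : ∀ j, Continuous (R j))
    (h : ∀ (a δ : E n) (ε : ℝ), 0 ≤ ε →
      (∀ t ∈ Icc (0 : ℝ) 1, ‖∑ j, δ j • R j (a + t • δ) - ∑ j, δ j • R j a‖ ≤ ε) →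
        ‖Gm (a + δ) - Gm a - ∑ j, δ j • R j a‖ ≤ ε) :
    ContDiff ℝ 1 Gm ∧ ∀ a δ, fderiv ℝ Gm a δ = ∑ j, δ j • R j a := by
  let D : E n → E n →L[ℝ] F := fun a =>
    ∑ j, ContinuousLinearMap.smulRightL ℝ (E n) F (EuclideanSpace.proj j) (R j a)
  have hD : Continuous D := continuous_finsetSum _ fun j _ =>
    (ContinuousLinearMap.smulRightL ℝ (E n) F (EuclideanSpace.proj j)).continuous.comp' (hR j)
  have hv : ∀ a δ, D a δ = ∑ j, δ j • R j a := fun a δ => by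
    simp only [D, sum_apply]
    rfl
  have hd : ∀ a, HasFDerivAt Gm (D a) a := fun a => by
    rw [hasFDerivAt_iff_isLittleO_nhds_zero, Asymptotics.isLittleO_iff]
    intro ε hε
    obtain ⟨r, hr, h1⟩ := Metric.continuousAt_iff.1 (hD.continuousAt (x := a)) ε hε
    filter_upwards [ball_mem_nhds (0 : E n) hr] with δ hδ
    rw [hv]
    refine h a δ _ (by positivity) fun t ht => ?_
    have h2 : dist (a + t • δ) a < r := by
      rw [dist_eq_norm, add_sub_cancel_left, norm_smul, Real.norm_of_nonneg ht.1]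
      exact (mul_le_of_le_one_left (norm_nonneg _) ht.2).trans_lt (mem_ball_zero_iff.1 hδ)
    have h3 := h1 h2
    rw [dist_eq_norm] at h3
    rw [← hv, ← hv, ← sub_apply]
    exact (ContinuousLinearMap.le_opNorm _ _).trans
      (mul_le_mul_of_nonneg_right h3.le (norm_nonneg _))
  have h1 : fderiv ℝ Gm = D := funext fun a => (hd a).fderiv
  refine ⟨contDiff_one_iff_fderiv.2 ⟨fun a => (hd a).differentiableAt, ?_⟩, fun a δ => ?_⟩
  · rw [h1]
    exact hD
  · rw [h1, hv]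

/-- The derivative. -/
noncomputable def RR (a δ : E n) : H n →L[ℂ] H n := ∑ j, δ j • ∫ η, rj ρ j (a, η)

theorem RR_apply (a δ : E n) (h : H n) : RR ρ a δ h =
    ∫ η, (4 * conj (bd (rc δ) (zc a η)) * (ρ.ph (pz a η) : ℂ) * pr h (ex (-a) (-η))) • ex a η := by
  have hi : ∀ j, Integrable fun η => (δ j : ℂ) • rj ρ j (a, η) h := fun j =>
    ((int_rj ρ j a).apply_continuousLinearMap h).smul (δ j : ℂ)
  have h1 : RR ρ a δ h = ∑ j, ∫ η, (δ j : ℂ) • rj ρ j (a, η) h := by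
    rw [RR, sum_apply]
    refine Finset.sum_congr rfl fun j _ => ?_
    rw [smul_apply, ContinuousLinearMap.integral_apply (int_rj ρ j a), integral_smul,
      Complex.coe_smul]
    rfl
  rw [h1, ← integral_finsetSum _ fun j _ => hi j]
  refine integral_congr_ae (Filter.Eventually.of_forall fun η => ?_)
  have h2 : ∀ j, (δ j : ℂ) • rj ρ j (a, η) h = (4 * conj (rc δ j * zc a η j) *
      (ρ.ph (pz a η) : ℂ) * pr h (ex (-a) (-η))) • ex a η := fun j => by
    rw [rj, smul_apply, rk_apply, smul_smul, smul_smul, map_mul, rc, conj_ofReal]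
    congr 1
    ring
  simp only [h2]
  rw [← Finset.sum_smul, bd, map_sum, Finset.mul_sum, Finset.sum_mul, Finset.sum_mul]

theorem pr_RR (a δ : E n) (h k : H n) :
    pr (RR ρ a δ h) k = ∫ η, DD (Ph ρ h k) (a, η) δ := by
  have h2 := Cg.cont_ph_pz ρ a
  have h3 : Continuous fun η => bd (rc δ) (zc a η) :=
    (Cg.cont_bd δ).comp' (Continuous.prodMk_right a)
  have h4 : Continuous fun η => pr h (ex (-a) (-η)) := (pr h).continuous.comp' (Cg.cont_ex_neg _)
  have hi : Integrable fun η => (4 * conj (bd (rc δ) (zc a η)) * (ρ.ph (pz a η) : ℂ) *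
      pr h (ex (-a) (-η))) • ex a η :=
    Cg.int_ph ρ a ((((continuous_const.mul (Complex.continuous_conj.comp' h3)).mul
      (Complex.continuous_ofReal.comp' h2)).mul h4).smul (Cg.cont_ex_right a))
      fun η h0 => by simp [h0]
  rw [RR_apply, Cg.pr_comm, ← (pr k).integral_comp_comm hi]
  refine integral_congr_ae (Filter.Eventually.of_forall fun η => ?_)
  simp only [DD_Ph, map_smul, smul_eq_mul]

theorem key {Gm : E n → H n →L[ℂ] H n}
    (hG : ∀ a h k, pr (Gm a h) k = ∫ η, ρ.g (pz a η) * pr h (ex (-a) (-η)) * pr k (ex a η))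
    (a δ : E n) (ε : ℝ) (hε : 0 ≤ ε)
    (hR : ∀ t ∈ Icc (0 : ℝ) 1, ‖RR ρ (a + t • δ) δ - RR ρ a δ‖ ≤ ε) :
    ‖Gm (a + δ) - Gm a - RR ρ a δ‖ ≤ ε := by
  obtain ⟨C, hC0, hC⟩ := g_bdd ρ
  refine ContinuousLinearMap.opNorm_le_bound _ (by positivity) fun h => ?_
  refine G.norm_le_of_pr (by positivity) fun k => ?_
  have hn : ∀ t ∈ Icc (0 : ℝ) 1, ‖a + t • δ‖ ≤ ‖a‖ + ‖δ‖ := fun t ht => by
    refine (norm_add_le _ _).trans (add_le_add_right ?_ _)
    rw [norm_smul, Real.norm_of_nonneg ht.1]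
    exact mul_le_of_le_one_left (norm_nonneg _) ht.2
  have h1 := shift (cd_Ph ρ h k) a δ (pr (RR ρ a δ h) k)
    (C * (Real.exp (2 * π * (‖a‖ + ‖δ‖)) ^ 2 * (‖h‖ ^ 2 + ‖k‖ ^ 2)))
    ((‖a‖ + ‖δ‖) ^ 2 + |lam| + 1) (ε * ‖h‖ * ‖k‖)
    (fun t ht => ⟨(Ph_int ρ hC0 hC h k _).1, (Ph_int ρ hC0 hC h k _).2.trans (by
      have := hn t ht
      gcongr)⟩)
    (fun t ht η hη => by rw [DD_Ph, ph_far ρ (hn t ht) hη]; simp)
    (fun t ht => by
      rw [← pr_RR, ← sub_apply, ← map_sub, ← sub_apply]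
      refine (Cg.norm_pr_le _ _).trans (mul_le_mul_of_nonneg_right ?_ (norm_nonneg _))
      exact (ContinuousLinearMap.le_opNorm _ _).trans
        (mul_le_mul_of_nonneg_right (hR t ht) (norm_nonneg _)))
  rw [sub_apply, sub_apply, map_sub, map_sub, sub_apply, sub_apply, hG, hG]
  exact h1

end Dg

theorem dgStmt {n : ℕ} (_A : Api n) (_Ex : ExStmt n) (_P : Pars n) : DgStmt n := by
  intro lam tau ρ Gm hG
  obtain ⟨h1, h2⟩ := Dg.c1_of Gm (fun j a => ∫ η, Dg.rj ρ j (a, η)) (Dg.cont_Rj ρ)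
    (Dg.key ρ hG)
  refine ⟨h1, fun a δ h => ?_⟩
  rw [← Dg.RR_apply]
  exact congrArg (fun T : H n →L[ℂ] H n => T h) (h2 a δ)

end Pool.Agent.MP_71da5e_an.L

end

section

namespace Pool.Agent.MP_71da5e_an.L.FamB

open MeasureTheory Metric Set Complex
open scoped ENNReal Real ComplexConjugate

variable {n : ℕ}

/-- The operator bound on one sphere. -/
def Tb (φ : E n → ℝ) (t : E n → E n → ℂ) (K : ℝ) : Prop :=
  ∀ h : E n → ℂ, Continuous h →
    ∫⁻ b, ENNReal.ofReal (φ b * ‖∫ η, (φ η : ℂ) * t b η * h η‖ ^ 2) ≤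
      ENNReal.ofReal K * ∫⁻ η, ENNReal.ofReal (φ η * ‖h η‖ ^ 2)

lemma fib2 {φ₁ φ₂ : E n → ℝ} (c₁ : Continuous φ₁) (c₂ : Continuous φ₂) (p₁ : ∀ b, 0 ≤ φ₁ b)
    {t : E n → E n → ℂ} {K : ℝ} (h : Tb φ₂ t K) {G : E n × E n → ℂ} (hG : Continuous G) :
    ∫⁻ b : E n × E n, ENNReal.ofReal
        (φ₁ b.1 * φ₂ b.2 * ‖∫ η, (φ₂ η : ℂ) * t b.2 η * G (b.1, η)‖ ^ 2) ≤
      ENNReal.ofReal K * ∫⁻ b : E n × E n, ENNReal.ofReal (φ₁ b.1 * φ₂ b.2 * ‖G b‖ ^ 2) := by
  have m : Measurable fun b : E n × E n => ENNReal.ofReal (φ₁ b.1 * φ₂ b.2 * ‖G b‖ ^ 2) :=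
    (ENNReal.continuous_ofReal.comp (by fun_prop)).measurable
  rw [Measure.volume_eq_prod, lintegral_prod _ m.aemeasurable,
    ← lintegral_const_mul' _ _ ENNReal.ofReal_ne_top]
  refine (lintegral_prod_le _).trans (lintegral_mono fun x => ?_)
  simp only [mul_assoc (φ₁ x), ENNReal.ofReal_mul (p₁ x)]
  rw [lintegral_const_mul' _ _ ENNReal.ofReal_ne_top,
    lintegral_const_mul' _ _ ENNReal.ofReal_ne_top, mul_left_comm]
  gcongr
  exact h (fun η => G (x, η)) (by fun_prop)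

lemma swap_int (f : E n × E n → ℝ≥0∞) : ∫⁻ b, f b = ∫⁻ b : E n × E n, f b.swap := by
  rw [Measure.volume_eq_prod, lintegral_prod_swap]

lemma fib1 {φ₁ φ₂ : E n → ℝ} (c₁ : Continuous φ₁) (c₂ : Continuous φ₂) (p₂ : ∀ b, 0 ≤ φ₂ b)
    {t : E n → E n → ℂ} {K : ℝ} (h : Tb φ₁ t K) {G : E n × E n → ℂ} (hG : Continuous G) :
    ∫⁻ b : E n × E n, ENNReal.ofReal
        (φ₁ b.1 * φ₂ b.2 * ‖∫ η, (φ₁ η : ℂ) * t b.1 η * G (η, b.2)‖ ^ 2) ≤
      ENNReal.ofReal K * ∫⁻ b : E n × E n, ENNReal.ofReal (φ₁ b.1 * φ₂ b.2 * ‖G b‖ ^ 2) := by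
  rw [swap_int, swap_int fun b => ENNReal.ofReal (φ₁ b.1 * φ₂ b.2 * ‖G b‖ ^ 2)]
  simpa only [Prod.fst_swap, Prod.snd_swap, Prod.swap_prod_mk, mul_comm (φ₁ _) (φ₂ _)] using
    fib2 c₂ c₁ p₂ h (G := fun b => G b.swap) (by fun_prop)

lemma cs {ι : Type} [Fintype ι] (c S : ι → ℂ) :
    ‖∑ i, c i * S i‖ ^ 2 ≤ (∑ i, ‖c i‖ ^ 2) * ∑ i, ‖S i‖ ^ 2 := by
  refine le_trans ?_ (Finset.sum_mul_sq_le_sq_mul_sq _ _ _)
  gcongr
  exact (norm_sum_le _ _).trans (Finset.sum_le_sum fun i _ => (norm_mul _ _).le)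

lemma one_side {ι : Type} [Fintype ι] {P : E n × E n → ℝ} (cP : Continuous P) (pP : ∀ b, 0 ≤ P b)
    {S w : ι → E n × E n → ℂ} (mS : ∀ i, Measurable (S i)) (cw : ∀ i, Continuous (w i))
    {F : E n × E n → ℂ} (cF : Continuous F) {K A : ℝ} (hK : 0 ≤ K) (hA : 0 ≤ A)
    {om : E n × E n → ℝ}
    (h : ∀ i, ∫⁻ b, ENNReal.ofReal (P b * ‖S i b‖ ^ 2) ≤
      ENNReal.ofReal K * ∫⁻ b, ENNReal.ofReal (P b * ‖w i b * F b‖ ^ 2))
    (hw : ∀ b, P b ≠ 0 → ∑ i, ‖w i b‖ ^ 2 ≤ A * om b) :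
    ∫⁻ b, ENNReal.ofReal (P b * ∑ i, ‖S i b‖ ^ 2) ≤
      ENNReal.ofReal (K * A) * ∫⁻ b, ENNReal.ofReal (P b * om b * ‖F b‖ ^ 2) := by
  have e : ∀ (T : ι → E n × E n → ℂ), (∀ i, Measurable (T i)) →
      ∫⁻ b, ENNReal.ofReal (P b * ∑ i, ‖T i b‖ ^ 2) =
        ∑ i, ∫⁻ b, ENNReal.ofReal (P b * ‖T i b‖ ^ 2) := fun T hT => by
    rw [← lintegral_finsetSum (f := fun i b => ENNReal.ofReal (P b * ‖T i b‖ ^ 2)) _ fun i _ =>
      (cP.measurable.mul ((hT i).norm.pow_const 2)).ennreal_ofReal]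
    refine lintegral_congr fun b => ?_
    rw [Finset.mul_sum, ENNReal.ofReal_sum_of_nonneg fun i _ => mul_nonneg (pP b) (sq_nonneg _)]
  rw [e S mS]
  refine (Finset.sum_le_sum fun i _ => h i).trans ?_
  rw [← Finset.mul_sum, ← e (fun i b => w i b * F b) fun i => ((cw i).mul cF).measurable,
    ENNReal.ofReal_mul hK, mul_assoc, ← lintegral_const_mul' (ENNReal.ofReal A) _
      ENNReal.ofReal_ne_top]
  gcongr with b
  rw [← ENNReal.ofReal_mul hA]
  refine ENNReal.ofReal_le_ofReal ?_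
  rcases eq_or_ne (P b) 0 with h0 | h0
  · simp [h0]
  · simp only [norm_mul, mul_pow, ← Finset.sum_mul]
    have := mul_le_mul_of_nonneg_left (mul_le_mul_of_nonneg_right (hw b h0) (sq_nonneg ‖F b‖))
      (pP b)
    linarith

lemma ms1 {φ : E n → ℝ} (c : Continuous φ) {t : E n → E n → ℂ}
    (ct : Continuous fun y : E n × E n => t y.1 y.2) {G : E n × E n → ℂ} (cG : Continuous G) :
    Measurable fun b : E n × E n => ∫ η, (φ η : ℂ) * t b.1 η * G (η, b.2) := by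
  have h1 : Continuous fun y : (E n × E n) × E n => t y.1.1 y.2 :=
    ct.comp (continuous_fst.fst.prodMk continuous_snd)
  have h2 : Continuous fun y : (E n × E n) × E n => G (y.2, y.1.2) :=
    cG.comp (continuous_snd.prodMk continuous_fst.snd)
  have h3 : Continuous fun y : (E n × E n) × E n => (φ y.2 : ℂ) :=
    continuous_ofReal.comp (c.comp continuous_snd)
  have h4 : Continuous fun y : (E n × E n) × E n => (φ y.2 : ℂ) * t y.1.1 y.2 * G (y.2, y.1.2) :=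
    (h3.mul h1).mul h2
  exact h4.stronglyMeasurable.integral_prod_right'.measurable

lemma ms2 {φ : E n → ℝ} (c : Continuous φ) {t : E n → E n → ℂ}
    (ct : Continuous fun y : E n × E n => t y.1 y.2) {G : E n × E n → ℂ} (cG : Continuous G) :
    Measurable fun b : E n × E n => ∫ η, (φ η : ℂ) * t b.2 η * G (b.1, η) :=
  (ms1 c ct (G := fun b => G b.swap) (cG.comp continuous_swap)).comp measurable_swap

lemma two_side {ι : Type} [Fintype ι] {P : E n × E n → ℝ} (cP : Continuous P)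
    (pP : ∀ b, 0 ≤ P b) {S₁ S₂ : ι → E n × E n → ℂ} (m₁ : ∀ i, Measurable (S₁ i))
    {D : E n × E n → ℂ} {M : ℝ} (hM : 0 ≤ M)
    (hD : ∀ b, P b ≠ 0 → ∃ d₁ d₂ : ι → ℂ, ∑ i, ‖d₁ i‖ ^ 2 ≤ M ∧ ∑ i, ‖d₂ i‖ ^ 2 ≤ M ∧
      D b = ∑ i, d₁ i * S₁ i b + ∑ i, d₂ i * S₂ i b) :
    ∫⁻ b, ENNReal.ofReal (P b * ‖D b‖ ^ 2) ≤ ENNReal.ofReal (2 * M) *
      ((∫⁻ b, ENNReal.ofReal (P b * ∑ i, ‖S₁ i b‖ ^ 2)) +
        ∫⁻ b, ENNReal.ofReal (P b * ∑ i, ‖S₂ i b‖ ^ 2)) := by
  have h2M : 0 ≤ 2 * M := by positivity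
  have m : Measurable fun b => ENNReal.ofReal (P b * ∑ i, ‖S₁ i b‖ ^ 2) :=
    (cP.measurable.mul (Finset.measurable_sum _ fun i _ =>
      (m₁ i).norm.pow_const 2)).ennreal_ofReal
  rw [← lintegral_add_left m, ← lintegral_const_mul' _ _ ENNReal.ofReal_ne_top]
  refine lintegral_mono fun b => ?_
  have q₁ : 0 ≤ ∑ i, ‖S₁ i b‖ ^ 2 := by positivity
  have q₂ : 0 ≤ ∑ i, ‖S₂ i b‖ ^ 2 := by positivity
  rw [← ENNReal.ofReal_add (mul_nonneg (pP b) q₁) (mul_nonneg (pP b) q₂),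
    ← ENNReal.ofReal_mul h2M]
  refine ENNReal.ofReal_le_ofReal ?_
  rcases eq_or_ne (P b) 0 with h0 | h0
  · simp [h0]
  obtain ⟨d₁, d₂, e₁, e₂, e⟩ := hD b h0
  have f₁ := (cs d₁ fun i => S₁ i b).trans (mul_le_mul_of_nonneg_right e₁ q₁)
  have f₂ := (cs d₂ fun i => S₂ i b).trans (mul_le_mul_of_nonneg_right e₂ q₂)
  have f₃ : ‖D b‖ ≤ ‖∑ i, d₁ i * S₁ i b‖ + ‖∑ i, d₂ i * S₂ i b‖ := by
    rw [e]; exact norm_add_le _ _
  have f₅ := pow_le_pow_left₀ (norm_nonneg _) f₃ 2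
  generalize ‖∑ i, d₁ i * S₁ i b‖ = x at *
  generalize ‖∑ i, d₂ i * S₂ i b‖ = y at *
  have f₄ : ‖D b‖ ^ 2 ≤ 2 * M * (∑ i, ‖S₁ i b‖ ^ 2 + ∑ i, ‖S₂ i b‖ ^ 2) := by
    linarith [sq_nonneg (x - y)]
  have := mul_le_mul_of_nonneg_left f₄ (pP b)
  linarith

lemma gen {ι : Type} [Fintype ι] {φ₁ φ₂ : E n → ℝ} (c₁ : Continuous φ₁) (c₂ : Continuous φ₂)
    (p₁ : ∀ b, 0 ≤ φ₁ b) (p₂ : ∀ b, 0 ≤ φ₂ b) {t₁ t₂ : E n → E n → ℂ}
    (ct₁ : Continuous fun y : E n × E n => t₁ y.1 y.2)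
    (ct₂ : Continuous fun y : E n × E n => t₂ y.1 y.2) {K₁ K₂ A₁ A₂ M : ℝ} (hK₁ : 0 ≤ K₁)
    (hK₂ : 0 ≤ K₂) (hA₁ : 0 ≤ A₁) (hA₂ : 0 ≤ A₂) (hM : 0 ≤ M) (h₁ : Tb φ₁ t₁ K₁)
    (h₂ : Tb φ₂ t₂ K₂) {F D : E n × E n → ℂ} (cF : Continuous F) {w₁ w₂ : ι → E n × E n → ℂ}
    (cw₁ : ∀ i, Continuous (w₁ i)) (cw₂ : ∀ i, Continuous (w₂ i)) {om : E n × E n → ℝ}
    (hw : ∀ b : E n × E n, φ₁ b.1 * φ₂ b.2 ≠ 0 →
      ∑ i, ‖w₁ i b‖ ^ 2 ≤ A₁ * om b ∧ ∑ i, ‖w₂ i b‖ ^ 2 ≤ A₂ * om b)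
    (hD : ∀ b : E n × E n, φ₁ b.1 * φ₂ b.2 ≠ 0 → ∃ d₁ d₂ : ι → ℂ,
      ∑ i, ‖d₁ i‖ ^ 2 ≤ M ∧ ∑ i, ‖d₂ i‖ ^ 2 ≤ M ∧
      D b = ∑ i, d₁ i * (∫ η, (φ₁ η : ℂ) * t₁ b.1 η * (w₁ i (η, b.2) * F (η, b.2))) +
        ∑ i, d₂ i * ∫ η, (φ₂ η : ℂ) * t₂ b.2 η * (w₂ i (b.1, η) * F (b.1, η))) :
    ∫⁻ b : E n × E n, ENNReal.ofReal (φ₁ b.1 * φ₂ b.2 * ‖D b‖ ^ 2) ≤
      ENNReal.ofReal (2 * M * (K₁ * A₁ + K₂ * A₂)) *
        ∫⁻ b : E n × E n, ENNReal.ofReal (φ₁ b.1 * φ₂ b.2 * om b * ‖F b‖ ^ 2) := by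
  have cP : Continuous fun b : E n × E n => φ₁ b.1 * φ₂ b.2 :=
    (c₁.comp continuous_fst).mul (c₂.comp continuous_snd)
  have pP : ∀ b : E n × E n, 0 ≤ φ₁ b.1 * φ₂ b.2 := fun b => mul_nonneg (p₁ _) (p₂ _)
  have g₁ : ∀ i, Continuous fun b => w₁ i b * F b := fun i => (cw₁ i).mul cF
  have g₂ : ∀ i, Continuous fun b => w₂ i b * F b := fun i => (cw₂ i).mul cF
  obtain ⟨S₁, hS₁⟩ : ∃ S : ι → E n × E n → ℂ, ∀ i b,
    S i b = ∫ η, (φ₁ η : ℂ) * t₁ b.1 η * (w₁ i (η, b.2) * F (η, b.2)) := ⟨_, fun _ _ => rfl⟩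
  obtain ⟨S₂, hS₂⟩ : ∃ S : ι → E n × E n → ℂ, ∀ i b,
    S i b = ∫ η, (φ₂ η : ℂ) * t₂ b.2 η * (w₂ i (b.1, η) * F (b.1, η)) := ⟨_, fun _ _ => rfl⟩
  have m₁ : ∀ i, Measurable (S₁ i) := fun i => by
    rw [funext (hS₁ i)]; exact ms1 c₁ ct₁ (g₁ i)
  have m₂ : ∀ i, Measurable (S₂ i) := fun i => by
    rw [funext (hS₂ i)]; exact ms2 c₂ ct₂ (g₂ i)
  have b₁ := one_side cP pP m₁ cw₁ cF hK₁ hA₁
    (fun i => by simp only [hS₁]; have := fib1 c₁ c₂ p₂ h₁ (g₁ i); exact this) fun b hb => (hw b hb).1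
  have b₂ := one_side cP pP m₂ cw₂ cF hK₂ hA₂
    (fun i => by simp only [hS₂]; have := fib2 c₁ c₂ p₁ h₂ (g₂ i); exact this) fun b hb => (hw b hb).2
  simp only [← hS₁, ← hS₂] at hD
  refine (two_side cP pP m₁ hM hD).trans ?_
  rw [ENNReal.ofReal_mul (p := 2 * M) (by positivity), mul_assoc (ENNReal.ofReal (2 * M)),
    ENNReal.ofReal_add (mul_nonneg hK₁ hA₁) (mul_nonneg hK₂ hA₂), add_mul]
  exact mul_le_mul_right (add_le_add b₁ b₂) _

end Pool.Agent.MP_71da5e_an.L.FamB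

end

section

namespace Pool.Agent.MP_71da5e_an.L

open MeasureTheory Metric Set Laplacian Complex
open scoped ContDiff RealInnerProductSpace ENNReal Real ComplexConjugate

namespace FamB

variable {n : ℕ} {lam tau C a₀ : ℝ} {ρ : Reg lam tau} {q q₁ q₂ : E n → ℂ}

/-- The coordinate vectors. -/
noncomputable def ek (k : Fin n) : E n := EuclideanSpace.single k 1

lemma bd_ek (k : Fin n) (v : V n) : bd (rc (ek k)) v = v k := by
  simp [bd, rc, ek, apply_ite]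

lemma lin (ℓ : E n × E n →L[ℝ] ℂ) (v : V n) :
    ℓ (reV v, imV v) + I * ℓ (reV (I • v), imV (I • v)) =
      ∑ k, conj (v k) * (ℓ (ek k, 0) + I * ℓ (0, ek k)) := by
  have e : ∀ α β : E n, ℓ (α, β) = ∑ k, ((α k : ℂ) * ℓ (ek k, 0) + (β k : ℂ) * ℓ (0, ek k)) := by
    intro α β
    have : (α, β) = ∑ k, (α k • ((ek k, 0) : E n × E n) + β k • ((0, ek k) : E n × E n)) := by
      ext i <;> simp [Prod.fst_sum, Prod.snd_sum, ek, Pi.single_apply]
    rw [this, map_sum]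
    simp only [map_add, map_smul, real_smul]
  rw [e, e, Finset.mul_sum, ← Finset.sum_add_distrib]
  refine Finset.sum_congr rfl fun k _ => ?_
  have h : conj (v k) = ((v k).re : ℂ) - (v k).im * I := by
    apply Complex.ext <;> simp
  rw [h]
  simp only [reV, imV, Pi.smul_apply, smul_eq_mul, mul_re, mul_im, I_re, I_im]
  push_cast
  linear_combination ((v k).im * ℓ (0, ek k) : ℂ) * I_mul_I

lemma ph_cont (A : Api n) (ρ : Reg lam tau) (a : E n) : Continuous fun η => ρ.ph (pz a η) :=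
  ((ρ.γ_smooth.continuous.comp
    (A.smooth_pz.continuous.comp (continuous_const.prodMk continuous_id))).norm.pow 2 :)

lemma ph_le {p : ℂ} (h : ρ.ph p ≠ 0) : ‖p‖ ≤ lam :=
  not_lt.1 fun h' => h (by simp [Reg.ph, ρ.γ_zero p h'])

lemma sq_le (A : Api n) {a η : E n} (h : ρ.ph (pz a η) ≠ 0) : ‖η‖ ^ 2 ≤ ‖a‖ ^ 2 + lam := by
  have h1 := (abs_re_le_norm (pz a η)).trans (ph_le h)
  rw [A.pz_eq] at h1
  simp only [add_re, ofReal_re, mul_re, I_re, mul_zero, ofReal_im, I_im, mul_one, sub_self,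
    add_zero] at h1
  linarith [neg_abs_le (‖a‖ ^ 2 - ‖η‖ ^ 2)]

lemma integ (A : Api n) (ρ : Reg lam tau) (a : E n) {G : Type} [NormedAddCommGroup G]
    {g : E n → G} (hg : Continuous g) (h : ∀ η, ρ.ph (pz a η) = 0 → g η = 0) : Integrable g := by
  refine hg.integrable_of_hasCompactSupport (HasCompactSupport.intro
    (isCompact_closedBall (0 : E n) √(‖a‖ ^ 2 + lam)) fun η hη => h η (by_contra fun h0 => hη ?_))
  exact mem_closedBall_zero_iff.2 (Real.le_sqrt_of_sq_le (sq_le A h0))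

lemma u_cont (Φ : Cgo q C a₀ ρ) {a : E n} (ha : a₀ < ‖a‖) : Continuous fun η => Φ.u (a, η) :=
  Φ.c1.continuousOn.comp_continuous (continuous_const.prodMk continuous_id) fun _ => ha

lemma u_diff (Φ : Cgo q C a₀ ρ) {y : E n × E n} (ha : a₀ < ‖y.1‖) : DifferentiableAt ℝ Φ.u y :=
  (Φ.c1.contDiffAt ((isOpen_lt continuous_const continuous_fst.norm).mem_nhds ha)).differentiableAt
    one_ne_zero

lemma zc_cont (a : E n) (k : Fin n) : Continuous fun η : E n => zc a η k := by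
  unfold zc; fun_prop

lemma one_dir (A : Api n) (Φ : Cgo q C a₀ ρ) {a : E n} (ha : a₀ < ‖a‖) (b : E n)
    (β : H n →L[ℂ] ℂ) (v : V n) :
    β (fderiv ℝ Φ.u (a, b) (reV v, imV v)) +
        I * β (fderiv ℝ Φ.u (a, b) (reV (I • v), imV (I • v))) =
      ∑ k, conj (v k) * ∫ η, (ρ.ph (pz a η) : ℂ) * Φ.t a b η *
        (conj (zc a η k) * β (Φ.u (a, η))) := by
  refine (lin ((β.restrictScalars ℝ).comp (fderiv ℝ Φ.u (a, b))) v).trans
    (Finset.sum_congr rfl fun k _ => ?_)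
  congr 1
  have h := congrArg β (Φ.dbar (a, b) ha (ek k))
  have ct : Continuous fun η => Φ.t a b η :=
    (Φ.tc a ha).comp (continuous_const.prodMk continuous_id)
  rw [map_add, map_smul, ← β.integral_comp_comm] at h
  · refine h.trans (integral_congr_ae (Filter.Eventually.of_forall fun η => ?_))
    simp only [bd_ek, map_smul, smul_eq_mul]; ring
  · simp only [bd_ek]
    exact integ A ρ a ((((continuous_conj.comp (zc_cont a k)).mul
      (continuous_ofReal.comp (ph_cont A ρ a))).mul ct).smul (u_cont Φ ha))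
      fun η h0 => by simp [h0]

/-- The first projection. -/
noncomputable def A1 (e : E n) : X n →L[ℝ] E n × E n :=
  LinearMap.toContinuousLinearMap
    { toFun := fun x => (a1 e x.1, x.2.1)
      map_add' := fun x y => by ext1 <;> simp [a1, add_div, add_smul]; abel
      map_smul' := fun c x => by ext1 <;> simp [a1, smul_smul, mul_div_assoc] }

/-- The second projection. -/
noncomputable def A2 (e : E n) : X n →L[ℝ] E n × E n :=
  LinearMap.toContinuousLinearMap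
    { toFun := fun x => (a2 e x.1, x.2.2)
      map_add' := fun x y => by ext1 <;> simp [a2, add_div, add_smul]; abel
      map_smul' := fun c x => by ext1 <;> simp [a2, smul_smul, mul_div_assoc, smul_sub] }

lemma A1_sg (e : E n) (W : ℂ × V n) : A1 e (sg e W) = (reV (X1 e W), imV (X1 e W)) := by
  refine Prod.ext ?_ rfl
  ext k
  simp [A1, sg, a1, reV, X1]; ring

lemma A2_sg (e : E n) (W : ℂ × V n) : A2 e (sg e W) = (reV (X2 e W), imV (X2 e W)) := by
  refine Prod.ext ?_ rfl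
  ext k
  simp [A2, sg, a2, reV, X2]; ring

lemma X1_I (e : E n) (W : ℂ × V n) : X1 e (I • W) = I • X1 e W := by
  funext k; simp [X1]; ring

lemma X2_I (e : E n) (W : ℂ × V n) : X2 e (I • W) = I • X2 e W := by
  funext k; simp [X2]; ring

lemma dbar_eq (A : Api n) (e : E n) (f : E n → ℂ) (Φ₁ : Cgo q₁ C a₀ ρ) (Φ₂ : Cgo q₂ C a₀ ρ)
    {p : B n} (hp : p ∈ Ob e a₀) (b : E n × E n) (W : ℂ × V n) :
    dbar e (FF e f Φ₁.u Φ₂.u) (p, b) W =
      ∑ k, conj (X1 e W k) * (∫ η, (ρ.ph (pz (a1 e p) η) : ℂ) * Φ₁.t (a1 e p) b.1 η *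
        (conj (zc (a1 e p) η k) * FF e f Φ₁.u Φ₂.u (p, η, b.2))) +
      ∑ k, conj (X2 e W k) * ∫ η, (ρ.ph (pz (a2 e p) η) : ℂ) * Φ₂.t (a2 e p) b.2 η *
        (conj (zc (a2 e p) η k) * FF e f Φ₁.u Φ₂.u (p, b.1, η)) := by
  have h1 := (u_diff Φ₁ (y := A1 e (p, b)) hp.1).hasFDerivAt.comp (p, b) (A1 e).hasFDerivAt
  have h2 := (u_diff Φ₂ (y := A2 e (p, b)) hp.2).hasFDerivAt.comp (p, b) (A2 e).hasFDerivAt
  have h : HasFDerivAt (FF e f Φ₁.u Φ₂.u) _ (p, b) :=
    ((pr.comp (mulH f)).bilinearRestrictScalars ℝ).hasFDerivAt_of_bilinear h1 h2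
  have e1 := one_dir A Φ₁ hp.1 b.1 ((pr.comp (mulH f)).flip (Φ₂.u (a2 e p, b.2))) (X1 e W)
  have e2 := one_dir A Φ₂ hp.2 b.2 (pr.comp (mulH f) (Φ₁.u (a1 e p, b.1))) (X2 e W)
  have e3 : ∀ v, fderiv ℝ (FF e f Φ₁.u Φ₂.u) (p, b) v =
      pr.comp (mulH f) (Φ₁.u (a1 e p, b.1)) (fderiv ℝ Φ₂.u (a2 e p, b.2) (A2 e v)) +
      (pr.comp (mulH f)).flip (Φ₂.u (a2 e p, b.2)) (fderiv ℝ Φ₁.u (a1 e p, b.1) (A1 e v)) :=
    fun v => by rw [h.fderiv]; rfl
  rw [dbar, e3, e3, A1_sg, A1_sg, A2_sg, A2_sg, X1_I, X2_I]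
  refine Eq.trans ?_ (congrArg₂ (· + ·) e1 e2)
  ring

lemma F_cont (e : E n) (f : E n → ℂ) (Φ₁ : Cgo q₁ C a₀ ρ) (Φ₂ : Cgo q₂ C a₀ ρ)
    {p : B n} (hp : p ∈ Ob e a₀) : Continuous fun b : E n × E n => FF e f Φ₁.u Φ₂.u (p, b) :=
  ((pr.continuous.comp ((mulH f).continuous.comp
    ((u_cont Φ₁ hp.1).comp continuous_fst))).clm_apply ((u_cont Φ₂ hp.2).comp continuous_snd) :)

lemma shift (A : Api n) (ρ : Reg lam tau) (a : E n) {t g : E n → ℂ} (ht : Continuous t)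
    (hg : Continuous g) (d z : V n) :
    ∑ k, conj (d k) * (∫ η, (ρ.ph (pz a η) : ℂ) * t η * (conj (zc a η k) * g η)) =
      -conj (bd d z) * (∫ η, (ρ.ph (pz a η) : ℂ) * t η * (1 * g η)) +
        ∑ k, conj (d k) * ∫ η, (ρ.ph (pz a η) : ℂ) * t η * (conj (zc a η k + z k) * g η) := by
  have hi : ∀ w : E n → ℂ, Continuous w →
      Integrable fun η => (ρ.ph (pz a η) : ℂ) * t η * (w η * g η) := fun w hw =>
    integ A ρ a (((continuous_ofReal.comp (ph_cont A ρ a)).mul ht).mul (hw.mul hg))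
      fun η h0 => by simp [h0]
  have e : ∀ k, ∫ η, (ρ.ph (pz a η) : ℂ) * t η * (conj (zc a η k + z k) * g η) =
      (∫ η, (ρ.ph (pz a η) : ℂ) * t η * (conj (zc a η k) * g η)) +
        conj (z k) * ∫ η, (ρ.ph (pz a η) : ℂ) * t η * (1 * g η) := fun k => by
    rw [← integral_const_mul, ← integral_add
      (hi (fun η => conj (zc a η k)) (continuous_conj.comp (zc_cont a k)))
      ((hi (fun _ => 1) continuous_const).const_mul _)]
    refine integral_congr_ae (Filter.Eventually.of_forall fun η => ?_)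
    simp only [map_add]; ring
  simp only [e]
  generalize (∫ η, (ρ.ph (pz a η) : ℂ) * t η * (1 * g η)) = J
  simp only [mul_add, Finset.sum_add_distrib, bd, map_sum, map_mul, ← mul_assoc, ← Finset.sum_mul]
  ring

lemma nsq_sum (A : Api n) {e : E n} (he : ‖e‖ = 1) (p : B n) (b : E n × E n) :
    ∑ k, ‖zc (a1 e p) b.1 k + zc (a2 e p) b.2 k‖ ^ 2 = p.1 ^ 2 + ‖b.1 + b.2‖ ^ 2 := by
  have h := A.nsq_zc (p.1 • e) (b.1 + b.2)
  rw [norm_smul, he, mul_one, Real.norm_eq_abs, sq_abs] at h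
  rw [← h]
  refine Finset.sum_congr rfl fun k _ => ?_
  congr 2
  simp [zc, a1, a2]; ring

end FamB

open FamB in
theorem famBStmt {n : ℕ} (A : Api n) : FamBStmt n := by
  intro e q₁ q₂ f C a₀ hC ha
  refine ⟨6 * C, fun C' hC' lam tau _ hl ρ Φ₁ Φ₂ he => ⟨fun p hp W M hM hW => ?_,
    fun p hp W M hM hW => ?_⟩⟩
  all_goals
    have h1 : 4 < ‖a1 e p‖ := ha.trans_lt hp.1
    have h2 : 4 < ‖a2 e p‖ := ha.trans_lt hp.2
    have c1 := ph_cont A ρ (a1 e p)
    have c2 := ph_cont A ρ (a2 e p)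
    have n1 : ∀ η, 0 ≤ ρ.ph (pz (a1 e p) η) := fun _ => sq_nonneg _
    have n2 : ∀ η, 0 ≤ ρ.ph (pz (a2 e p) η) := fun _ => sq_nonneg _
    have cF := F_cont e f Φ₁ Φ₂ hp
    have k1 : 0 ≤ C / ‖a1 e p‖ ^ 4 := by positivity
    have k2 : 0 ≤ C / ‖a2 e p‖ ^ 4 := by positivity
  · have := gen (ι := Fin n) c1 c2 n1 n2 (Φ₁.tc _ hp.1) (Φ₂.tc _ hp.2) k1 k2
      (A₁ := 3 * ‖a1 e p‖ ^ 2) (A₂ := 3 * ‖a2 e p‖ ^ 2) (by positivity) (by positivity) hM
      (Φ₁.tb _ hp.1) (Φ₂.tb _ hp.2) cF (D := fun b => dbar e (FF e f Φ₁.u Φ₂.u) (p, b) (W b))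
      (w₁ := fun k b => conj (zc (a1 e p) b.1 k)) (w₂ := fun k b => conj (zc (a2 e p) b.2 k))
      (fun k => continuous_conj.comp ((zc_cont _ k).comp continuous_fst))
      (fun k => continuous_conj.comp ((zc_cont _ k).comp continuous_snd)) (om := fun _ => 1)
      (fun b hb => by
        have e1 := A.nsq_zc (a1 e p) b.1
        have e2 := A.nsq_zc (a2 e p) b.2
        have e3 := sq_le A (left_ne_zero_of_mul hb)
        have e4 := sq_le A (right_ne_zero_of_mul hb)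
        simp only [RCLike.norm_conj]
        unfold nsq at e1 e2
        constructor <;> nlinarith)
      fun b hb => by
        obtain ⟨e1, e2⟩ := hW b (ph_le (left_ne_zero_of_mul hb)) (ph_le (right_ne_zero_of_mul hb))
        exact ⟨fun k => conj (X1 e (W b) k), fun k => conj (X2 e (W b) k),
          by simpa only [RCLike.norm_conj, nsq] using e1,
          by simpa only [RCLike.norm_conj, nsq] using e2,
          dbar_eq A e f Φ₁ Φ₂ hp b (W b)⟩
    simp only [mul_one] at this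
    refine this.trans (mul_le_mul_left (ENNReal.ofReal_le_ofReal ?_) _)
    calc _ = 6 * C * M * ((‖a1 e p‖ ^ 2)⁻¹ + (‖a2 e p‖ ^ 2)⁻¹) := by field_simp; ring
      _ ≤ _ := by gcongr
  · have cz : ∀ k, Continuous fun b : E n × E n =>
        conj (zc (a1 e p) b.1 k + zc (a2 e p) b.2 k) := fun k => continuous_conj.comp
      (((zc_cont _ k).comp continuous_fst).add ((zc_cont _ k).comp continuous_snd))
    have cw : ∀ i : Option (Fin n), Continuous fun b : E n × E n =>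
        (i.elim 1 fun k => conj (zc (a1 e p) b.1 k + zc (a2 e p) b.2 k) : ℂ) := by
      rintro (_ | k)
      exacts [continuous_const, cz k]
    have := gen (ι := Option (Fin n)) c1 c2 n1 n2 (Φ₁.tc _ hp.1) (Φ₂.tc _ hp.2) k1 k2
      (A₁ := 1) (A₂ := 1) (M := 2 * M) zero_le_one zero_le_one (by positivity)
      (Φ₁.tb _ hp.1) (Φ₂.tb _ hp.2) cF (D := fun b => dbar e (FF e f Φ₁.u Φ₂.u) (p, b) (W b))
      cw cw (om := fun b => p.1 ^ 2 + ‖b.1 + b.2‖ ^ 2 + 1)
      (fun b _ => by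
        simp only [Fintype.sum_option, Option.elim, RCLike.norm_conj, nsq_sum A he, norm_one]
        constructor <;> linarith)
      fun b hb => by
        obtain ⟨e0, e1, e2, e3⟩ :=
          hW b (ph_le (left_ne_zero_of_mul hb)) (ph_le (right_ne_zero_of_mul hb))
        have x1 : X1 e (W b) = (W b).2 := by funext k; simp [X1, e0]
        have x2 : X2 e (W b) = -(W b).2 := by funext k; simp [X2, e0]
        have x3 : bd (-(W b).2) (z1 e (p, b)) = -bd (W b).2 (z1 e (p, b)) := by simp [bd]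
        unfold nsq at e1
        refine ⟨fun i => i.elim (-conj (bd (W b).2 (z2 e (p, b)))) fun k => conj ((W b).2 k),
          fun i => i.elim (-conj (bd (-(W b).2) (z1 e (p, b)))) fun k => conj ((-(W b).2) k),
          ?_, ?_, ?_⟩
        · simp only [Fintype.sum_option, Option.elim, RCLike.norm_conj, norm_neg]; linarith
        · simp only [Fintype.sum_option, Option.elim, RCLike.norm_conj, norm_neg, x3,
            Pi.neg_apply]
          linarith
        · have s1 := shift A ρ (a1 e p) (t := fun η => Φ₁.t (a1 e p) b.1 η)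
            (g := fun η => FF e f Φ₁.u Φ₂.u (p, η, b.2))
            ((Φ₁.tc _ hp.1).comp (continuous_const.prodMk continuous_id))
            (cF.comp (continuous_id.prodMk continuous_const)) (W b).2 (z2 e (p, b))
          have s2 := shift A ρ (a2 e p) (t := fun η => Φ₂.t (a2 e p) b.2 η)
            (g := fun η => FF e f Φ₁.u Φ₂.u (p, b.1, η))
            ((Φ₂.tc _ hp.2).comp (continuous_const.prodMk continuous_id))
            (cF.comp (continuous_const.prodMk continuous_id)) (-(W b).2) (z1 e (p, b))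
          rw [dbar_eq A e f Φ₁ Φ₂ hp b (W b), x1, x2, s1, s2]
          simp only [Fintype.sum_option, Option.elim, z1, z2, add_comm (zc (a2 e p) _ _)]
    refine this.trans (mul_le_mul_left (ENNReal.ofReal_le_ofReal ?_) _)
    calc _ = 4 * C * M * ((‖a1 e p‖ ^ 4)⁻¹ + (‖a2 e p‖ ^ 4)⁻¹) := by field_simp; ring
      _ ≤ _ := by gcongr; linarith

end Pool.Agent.MP_71da5e_an.L

end
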