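import Mathlib

section

namespace Pool.Agent.MP_71da5e_an

open MeasureTheory Metric Set Laplacian
open scoped ContDiff

variable {n : ℕ}

/-- Green's form on the unit ball of a solution `u` of `Δ u = q u` against a function `φ`:
the integral of `(Δ u) φ - u Δ φ`, that is `⟨∂_ν u, φ⟩ - ⟨u, ∂_ν φ⟩` on the boundary. -/
noncomputable def green (q u φ : EuclideanSpace ℝ (Fin n) → ℂ) : ℂ :=
  ∫ x in ball (0 : EuclideanSpace ℝ (Fin n)) 1, (q x * u x * φ x - u x * Δ φ x)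

/-- The defining function `(|x|^2 - 1) / 2` of the unit ball; it vanishes on the unit sphere and
its normal derivative there is `1`. -/
noncomputable def rho (x : EuclideanSpace ℝ (Fin n)) : ℂ := ((‖x‖ ^ 2 - 1) / 2 : ℝ)

/-- The boundary value of `u` paired with `g`: the function `rho * g` has trace `0` and normal
derivative `g`. -/
noncomputable def dirichlet (q u g : EuclideanSpace ℝ (Fin n) → ℂ) : ℂ :=
  -green q u fun x => rho x * g x

/-- The normal derivative of `u` paired with `f`: the function `f - rho * (x · ∇ f)` has trace `f`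
and normal derivative `0`. -/
noncomputable def neumann (q u f : EuclideanSpace ℝ (Fin n) → ℂ) : ℂ :=
  green q u fun x => f x - rho x * fderiv ℝ f x x

/-- Test functions on `Γ`: smooth functions whose support meets the unit sphere inside `Γ`. -/
def Test (Γ : Set (EuclideanSpace ℝ (Fin n))) : Type :=
  {f : EuclideanSpace ℝ (Fin n) → ℂ // ContDiff ℝ ∞ f ∧ tsupport f ∩ sphere 0 1 ⊆ Γ}

/-- `u` is square integrable on the unit ball, solves `(-Δ + q) u = 0` there in the sense of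
distributions, and its boundary value is supported in `Γ`. -/
structure IsSol (Γ : Set (EuclideanSpace ℝ (Fin n))) (q u : EuclideanSpace ℝ (Fin n) → ℂ) :
    Prop where
  memL2 : MemLp u 2 (volume.restrict (ball 0 1))
  solves : ∀ φ, ContDiff ℝ ∞ φ → tsupport φ ⊆ ball 0 1 → green q u φ = 0
  supp : ∀ x ∈ sphere 0 1 \ Γ, ∃ ε > 0, ∀ g, ContDiff ℝ ∞ g → tsupport g ⊆ ball x ε →
    dirichlet q u g = 0

/-- The local Cauchy data set: the pairs of distributions `(u|_Γ, ∂_ν u|_Γ)` on `Γ`. -/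
def cauchy (Γ : Set (EuclideanSpace ℝ (Fin n))) (q : EuclideanSpace ℝ (Fin n) → ℂ) :
    Set ((Test Γ → ℂ) × (Test Γ → ℂ)) :=
  {p | ∃ u, IsSol Γ q u ∧ p = (fun g => dirichlet q u g.1, fun f => neumann q u f.1)}

end Pool.Agent.MP_71da5e_an

end

section

namespace Pool.Agent.MP_71da5e_an

open MeasureTheory Metric Set Laplacian
open scoped ContDiff ENNReal RealInnerProductSpace

/-- Euclidean space. -/
abbrev E (n : ℕ) : Type := EuclideanSpace ℝ (Fin n)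

variable {n : ℕ}

/-- The weighted quadratic form `∫ a |w|^2`. -/
noncomputable def Q (a : E n → ℝ) (w : E n → ℂ) : ℝ≥0∞ := ∫⁻ x, ENNReal.ofReal (a x * ‖w x‖ ^ 2)

/-- The weight `(1 + |x|^2)^(-2)`. -/
noncomputable def wt (x : E n) : ℝ := ((1 + ‖x‖ ^ 2) ^ 2)⁻¹

/-- Measurable and square integrable for the weight `wt`. -/
def WL2 (w : E n → ℂ) : Prop := Measurable w ∧ Q wt w ≠ ⊤

/-- Measurable and bounded by `A * wt`. -/
def Dec (A : ℝ) (q : E n → ℂ) : Prop := Measurable q ∧ ∀ x, ‖q x‖ ≤ A * wt x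

/-- Smooth with compact support. -/
def Tst (φ : E n → ℂ) : Prop := ContDiff ℝ ∞ φ ∧ HasCompactSupport φ

/-- The pairing `∫ (F φ - w Δ φ)`. -/
noncomputable def pair (w F φ : E n → ℂ) : ℂ := ∫ x, (F x * φ x - w x * Δ φ x)

/-- `Δ w = F` in the sense of distributions on `U`. -/
def WP (U : Set (E n)) (w F : E n → ℂ) : Prop :=
  WL2 w ∧ WL2 F ∧ ∀ φ, Tst φ → tsupport φ ⊆ U → pair w F φ = 0

/-- The open half space. -/
def Hs (ν : E n) : Set (E n) := {x | 0 < ⟪x, ν⟫}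

/-- The boundary hyperplane. -/
def Pl (ν : E n) : Set (E n) := {x | ⟪x, ν⟫ = 0}

/-- The reflection in the hyperplane (for a unit vector `ν`). -/
noncomputable def rf (ν x : E n) : E n := x - (2 * ⟪x, ν⟫) • ν

/-- `Δ w = F` in the half space, `w` has zero Dirichlet data, and zero Cauchy data in `G`. -/
structure HP (ν : E n) (G : Set (E n)) (w F : E n → ℂ) : Prop where
  l2w : WL2 w
  l2F : WL2 F
  zw : ∀ x, x ∉ Hs ν → w x = 0
  zF : ∀ x, x ∉ Hs ν → F x = 0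
  weak : ∀ φ, Tst φ → ((∀ x ∈ Pl ν, φ x = 0) ∨ tsupport φ ⊆ G) → pair w F φ = 0

/-- `Δ u = q u` in the half space and `u` has zero Dirichlet data in `D`. -/
structure Adm (ν : E n) (D : Set (E n)) (q u : E n → ℂ) : Prop where
  l2 : WL2 u
  z : ∀ x, x ∉ Hs ν → u x = 0
  weak : ∀ φ, Tst φ → (∀ x ∈ Pl ν, φ x = 0) → tsupport φ ∩ Pl ν ⊆ D →
    pair u (fun x => q x * u x) φ = 0

/-- The form in which the equality of the Cauchy data is used. -/
def Hyp (ν : E n) (D G : Set (E n)) (q₁ q₂ : E n → ℂ) : Prop :=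
  ∀ u, Adm ν D q₁ u → ∃ w, HP ν G w fun x => (q₁ x - q₂ x) * u x + q₂ x * w x

/-- Inversion in the sphere with centre `c` and radius `R`. -/
noncomputable def inv (c : E n) (R : ℝ) (x : E n) : E n := c + (R ^ 2 / ‖x - c‖ ^ 2) • (x - c)

/-- The conformal factor of the inversion. -/
noncomputable def jac (c : E n) (R : ℝ) (x : E n) : ℝ := R ^ 2 / ‖x - c‖ ^ 2

/-- The Kelvin transform. -/
noncomputable def kel (c : E n) (R : ℝ) (f : E n → ℂ) (x : E n) : ℂ :=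
  (((R / ‖x - c‖) ^ (n - 2) : ℝ) : ℂ) * f (inv c R x)

/-- A fixed bump function: `1` on the unit ball, `0` outside the ball of radius `2`. -/
noncomputable def bump (n : ℕ) : ContDiffBump (0 : E n) := ⟨1, 2, one_pos, one_lt_two⟩

/-- The cut-off function: `0` on the ball of radius `ρ`, `1` outside the ball of radius `2 ρ`. -/
noncomputable def chi (ρ : ℝ) (x : E n) : ℝ := 1 - bump n (ρ⁻¹ • x)

/-- The Carleman weight. -/
noncomputable def om (N : ℕ) (s t : ℝ) (x : E n) : ℝ :=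
  (‖x‖ ^ 2 + s ^ 2) * (‖x‖ ^ 2 + t ^ 2) / ‖x‖ ^ N

/-- The weight on the left of the flattened estimate. -/
noncomputable def aW (k : ℕ) (ρ : ℝ) (x : E n) : ℝ :=
  if ‖x‖ < ρ then (ρ ^ (2 * k + n + 1))⁻¹
  else (k ^ 2 * ‖x‖ ^ 2 / (1 + ‖x‖ ^ 2) + ρ ^ 2 / (‖x‖ ^ 2 + ρ ^ 2)) / ‖x‖ ^ (2 * k + n + 1)

/-- The weight on the right of the flattened estimate. -/
noncomputable def bW (k : ℕ) (ρ C Λ : ℝ) (x : E n) : ℝ :=
  if ‖x‖ ≤ 30 * ρ then Λ * ρ ^ 4 / ρ ^ (2 * k + n + 1)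
  else C * (‖x‖ ^ 4 * (1 + ‖x‖ ^ 2)) / ‖x‖ ^ (2 * k + n + 1)

/-- The Gaussian beam `(x · (a + i b))^k`. -/
noncomputable def beam (a b : E n) (k : ℕ) (x : E n) : ℂ :=
  ((⟪x, a⟫ : ℝ) + (⟪x, b⟫ : ℝ) * Complex.I) ^ k

/-- The odd part of the beam. -/
noncomputable def obeam (ν a b : E n) (k : ℕ) (x : E n) : ℂ := beam a b k x - beam a b k (rf ν x)

/-- The Kelvin transform of the odd beam. -/
noncomputable def kbeam (ν a b : E n) (k : ℕ) (x : E n) : ℂ :=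
  obeam ν a b k x / ((‖x‖ ^ (2 * k + n - 2) : ℝ) : ℂ)

/-- The Kelvin transform of the odd beam, cut off near the origin. -/
noncomputable def cb (ν a b : E n) (k : ℕ) (ρ : ℝ) (x : E n) : ℂ := chi ρ x * kbeam ν a b k x

/-- The even extension of the restriction of `q` to the half space. -/
noncomputable def evn (ν : E n) (q : E n → ℂ) (x : E n) : ℂ :=
  (Hs ν).indicator q x + (Hs ν).indicator q (rf ν x)

/-- The potential after an inversion. -/
noncomputable def kq (c : E n) (R : ℝ) (q : E n → ℂ) (x : E n) : ℂ :=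
  ((jac c R x ^ 2 : ℝ) : ℂ) * q (inv c R x)

/-- The standard basis vectors. -/
noncomputable def ev (i : Fin n) : E n := EuclideanSpace.single i 1

/-- `f` is radial with radial derivative `x · ∇ f = g` away from the origin. -/
def Rad (f g : E n → ℝ) : Prop :=
  ∀ x, x ≠ 0 → HasFDerivAt f ((g x / ‖x‖ ^ 2) • innerSL ℝ x) x

/-- The indicator function of the closed shell `s ≤ |x - y| ≤ t`. -/
noncomputable def sh (y : E n) (s t : ℝ) (x : E n) : ℝ :=
  if s ≤ ‖x - y‖ ∧ ‖x - y‖ ≤ t then 1 else 0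

/-- The kernel that concentrates on the plane spanned by `a` and `b`. -/
noncomputable def kap (a b : E n) (k : ℕ) (x : E n) : ℝ :=
  (⟪x, a⟫ ^ 2 + ⟪x, b⟫ ^ 2) ^ k / ‖x‖ ^ (2 * k + n - 2)

/-- The mass of the kernel. -/
noncomputable def mass (a b : E n) (k : ℕ) : ℝ := ∫ x, wt x * kap a b k x

/-- An orthonormal pair. -/
def ON (a b : E n) : Prop := ‖a‖ = 1 ∧ ‖b‖ = 1 ∧ ⟪a, b⟫ = 0

lemma wt_pos (x : E n) : 0 < wt x := by unfold wt; positivity

lemma wt_le_one (x : E n) : wt x ≤ 1 :=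
  inv_le_one_of_one_le₀ (one_le_pow₀ (le_add_of_nonneg_right (sq_nonneg _)))

lemma continuous_wt : Continuous (wt : E n → ℝ) := by
  unfold wt
  exact Continuous.inv₀ (by fun_prop) fun x => by positivity

lemma kap_nonneg (a b : E n) (k : ℕ) (x : E n) : 0 ≤ kap a b k x := by unfold kap; positivity

lemma measurable_kap (a b : E n) (k : ℕ) : Measurable (kap a b k) := by unfold kap; fun_prop

lemma isOpen_Hs (ν : E n) : IsOpen (Hs ν) := isOpen_lt continuous_const (by fun_prop)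

lemma isClosed_Pl (ν : E n) : IsClosed (Pl ν) := isClosed_eq (by fun_prop) continuous_const

lemma measurable_inv' (c : E n) (R : ℝ) : Measurable (inv c R) := by unfold inv; fun_prop

lemma measurable_jac (c : E n) (R : ℝ) : Measurable (jac c R) := by unfold jac; fun_prop

lemma measurable_kel (c : E n) (R : ℝ) {f : E n → ℂ} (hf : Measurable f) :
    Measurable (kel c R f) := by
  unfold kel
  exact Measurable.mul (by fun_prop) (hf.comp (measurable_inv' c R))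

lemma contDiff_chi (ρ : ℝ) : ContDiff ℝ ∞ (chi ρ : E n → ℝ) :=
  contDiff_const.sub ((bump n).contDiff.comp (contDiff_const_smul _))

lemma chi_nonneg (ρ : ℝ) (x : E n) : 0 ≤ chi ρ x := sub_nonneg.2 (bump n).le_one

lemma chi_le_one (ρ : ℝ) (x : E n) : chi ρ x ≤ 1 := sub_le_self _ (bump n).nonneg

lemma chi_eq_zero {ρ : ℝ} (hρ : 0 < ρ) {x : E n} (h : ‖x‖ ≤ ρ) : chi ρ x = 0 := by
  refine sub_eq_zero.2 ((bump n).one_of_mem_closedBall ?_).symm
  rw [mem_closedBall_zero_iff, norm_smul, norm_inv, Real.norm_of_nonneg hρ.le]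
  exact (inv_mul_le_iff₀ hρ).2 (by simpa [bump] using h)

lemma chi_eq_one {ρ : ℝ} (hρ : 0 < ρ) {x : E n} (h : 2 * ρ ≤ ‖x‖) : chi ρ x = 1 := by
  rw [chi, (bump n).zero_of_le_dist, sub_zero]
  rw [dist_zero_right, norm_smul, norm_inv, Real.norm_of_nonneg hρ.le]
  exact (le_inv_mul_iff₀ hρ).2 (by simpa [bump, mul_comm] using h)

lemma sh_nonneg (y : E n) (s t : ℝ) (x : E n) : 0 ≤ sh y s t x := by
  unfold sh; split_ifs <;> norm_num

lemma sh_le_one (y : E n) (s t : ℝ) (x : E n) : sh y s t x ≤ 1 := by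
  unfold sh; split_ifs <;> norm_num

lemma measurable_sh (y : E n) (s t : ℝ) : Measurable (sh y s t) := by
  have h₁ : MeasurableSet {x : E n | s ≤ ‖x - y‖} := measurableSet_le measurable_const (by fun_prop)
  have h₂ : MeasurableSet {x : E n | ‖x - y‖ ≤ t} := measurableSet_le (by fun_prop) measurable_const
  exact Measurable.ite (h₁.inter h₂) measurable_const measurable_const

lemma measurable_aW (k : ℕ) (ρ : ℝ) : Measurable (aW k ρ : E n → ℝ) :=
  Measurable.ite (measurableSet_lt (by fun_prop) measurable_const) measurable_const (by fun_prop)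

lemma measurable_bW (k : ℕ) (ρ C Λ : ℝ) : Measurable (bW k ρ C Λ : E n → ℝ) :=
  Measurable.ite (measurableSet_le (by fun_prop) measurable_const) measurable_const (by fun_prop)

lemma aW_pos (k : ℕ) {ρ : ℝ} (hρ : 0 < ρ) (x : E n) : 0 < aW k ρ x := by
  unfold aW
  split_ifs with h
  · positivity
  · have : 0 < ‖x‖ := hρ.trans_le (not_lt.1 h)
    positivity

lemma bW_pos (k : ℕ) {ρ C Λ : ℝ} (hρ : 0 < ρ) (hC : 0 < C) (hΛ : 0 < Λ) (x : E n) :
    0 < bW k ρ C Λ x := by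
  unfold bW
  split_ifs with h
  · positivity
  · have : 0 < ‖x‖ := lt_trans (by positivity) (not_le.1 h)
    positivity

lemma Dec.nonneg {A : ℝ} {q : E n → ℂ} (h : Dec A q) : 0 ≤ A :=
  nonneg_of_mul_nonneg_left ((norm_nonneg _).trans (h.2 0)) (wt_pos 0)

lemma HP.mono {ν : E n} {G G' : Set (E n)} {w F : E n → ℂ} (h : HP ν G w F) (hG : G' ⊆ G) :
    HP ν G' w F :=
  ⟨h.l2w, h.l2F, h.zw, h.zF, fun φ hφ h' => h.weak φ hφ (h'.imp id fun h'' => h''.trans hG)⟩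

lemma HP.wp {ν : E n} {G : Set (E n)} {w F : E n → ℂ} (h : HP ν G w F) : WP G w F :=
  ⟨h.l2w, h.l2F, fun φ hφ h' => h.weak φ hφ (Or.inr h')⟩

lemma Adm.mono {ν : E n} {D D' : Set (E n)} {q u : E n → ℂ} (h : Adm ν D q u) (hD : D' ⊆ D) :
    Adm ν D' q u :=
  ⟨h.l2, h.z, fun φ hφ h₁ h₂ => h.weak φ hφ h₁ (h₂.trans hD)⟩

lemma Hyp.mono {ν : E n} {D D' G G' : Set (E n)} {q₁ q₂ : E n → ℂ} (h : Hyp ν D G q₁ q₂)
    (hD : D ⊆ D') (hG : G' ⊆ G) : Hyp ν D' G' q₁ q₂ := fun u hu =>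
  (h u (hu.mono hD)).imp fun _ hw => hw.mono hG

lemma Q_mono {a a' : E n → ℝ} {w w' : E n → ℂ} (h : ∀ x, a x * ‖w x‖ ^ 2 ≤ a' x * ‖w' x‖ ^ 2) :
    Q a w ≤ Q a' w' := lintegral_mono fun x => ENNReal.ofReal_le_ofReal (h x)

lemma Q_mono_left {a a' : E n → ℝ} (w : E n → ℂ) (h : ∀ x, a x ≤ a' x) : Q a w ≤ Q a' w :=
  Q_mono fun x => mul_le_mul_of_nonneg_right (h x) (sq_nonneg _)

lemma Q_congr {a : E n → ℝ} {w w' : E n → ℂ} (h : w =ᵐ[volume] w') : Q a w = Q a w' :=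
  lintegral_congr_ae (h.mono fun x hx => by simp only [hx])

lemma Q_le_add {a a₁ a₂ : E n → ℝ} {w w₁ w₂ : E n → ℂ} (ha : Measurable a₁) (hw : Measurable w₁)
    (h : ∀ x, a x * ‖w x‖ ^ 2 ≤ a₁ x * ‖w₁ x‖ ^ 2 + a₂ x * ‖w₂ x‖ ^ 2) :
    Q a w ≤ Q a₁ w₁ + Q a₂ w₂ := by
  unfold Q
  rw [← lintegral_add_left (by fun_prop)]
  exact lintegral_mono fun x => (ENNReal.ofReal_le_ofReal (h x)).trans ENNReal.ofReal_add_le

lemma Q_add_left {a₁ a₂ : E n → ℝ} {w : E n → ℂ} (ha : Measurable a₁) (hw : Measurable w)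
    (h₁ : ∀ x, 0 ≤ a₁ x) (h₂ : ∀ x, 0 ≤ a₂ x) :
    Q (fun x => a₁ x + a₂ x) w = Q a₁ w + Q a₂ w := by
  unfold Q
  rw [← lintegral_add_left (by fun_prop)]
  refine lintegral_congr fun x => ?_
  rw [add_mul, ENNReal.ofReal_add (mul_nonneg (h₁ x) (sq_nonneg _))
    (mul_nonneg (h₂ x) (sq_nonneg _))]

lemma Q_const_mul {c : ℝ} (hc : 0 ≤ c) (a : E n → ℝ) (w : E n → ℂ) :
    Q (fun x => c * a x) w = ENNReal.ofReal c * Q a w := by
  unfold Q
  rw [← lintegral_const_mul' _ _ ENNReal.ofReal_ne_top]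
  refine lintegral_congr fun x => ?_
  rw [mul_assoc, ENNReal.ofReal_mul hc]

end Pool.Agent.MP_71da5e_an

end

section

namespace Pool.Agent.MP_71da5e_an

open MeasureTheory Metric Set Laplacian Filter Topology
open scoped ContDiff ENNReal RealInnerProductSpace

variable {n : ℕ}

variable {F : Type*} [NormedAddCommGroup F] [NormedSpace ℝ F]

theorem calc_lap_def (f : E n → F) :
    Δ f = fun x => ∑ i, fderiv ℝ (fderiv ℝ f) x (ev i) (ev i) := by
  rw [InnerProductSpace.laplacian_eq_iteratedFDeriv_orthonormalBasis f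
    (EuclideanSpace.basisFun (Fin n) ℝ)]
  funext x
  refine Finset.sum_congr rfl fun i _ => ?_
  rw [iteratedFDeriv_two_apply]
  simp [ev]

theorem calc_diff_fderiv {f : E n → F} {x : E n} (hf : ContDiffAt ℝ 2 f x) :
    DifferentiableAt ℝ (fderiv ℝ f) x :=
  (hf.fderiv_right (m := 1) (by norm_num)).differentiableAt (by norm_num)

theorem calc_fderiv_apply {f : E n → F} {x : E n} (hf : ContDiffAt ℝ 2 f x) (v w : E n) :
    fderiv ℝ (fun y => fderiv ℝ f y v) x w = fderiv ℝ (fderiv ℝ f) x w v := by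
  rw [fderiv_clm_apply (calc_diff_fderiv hf) (differentiableAt_const _)]
  simp

theorem lap_eq {f : E n → F} {x : E n} (hf : ContDiffAt ℝ 2 f x) :
    Δ f x = ∑ i, fderiv ℝ (fun y => fderiv ℝ f y (ev i)) x (ev i) := by
  simp only [calc_lap_def, calc_fderiv_apply hf]

theorem calc_lap_mul {A : Type*} [NormedCommRing A] [NormedAlgebra ℝ A] {f g : E n → A} {x : E n}
    (hf : ContDiffAt ℝ 2 f x) (hg : ContDiffAt ℝ 2 g x) :
    Δ (fun y => f y * g y) x =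
      f x * Δ g x + 2 * ∑ i, fderiv ℝ f x (ev i) * fderiv ℝ g x (ev i) + Δ f x * g x := by
  rw [lap_eq (hf.mul hg), lap_eq hf, lap_eq hg, Finset.mul_sum, Finset.mul_sum, Finset.sum_mul,
    ← Finset.sum_add_distrib, ← Finset.sum_add_distrib]
  refine Finset.sum_congr rfl fun i _ => ?_
  have h1 : (fun y => fderiv ℝ (fun y => f y * g y) y (ev i)) =ᶠ[𝓝 x]
      fun y => f y * fderiv ℝ g y (ev i) + g y * fderiv ℝ f y (ev i) := by
    filter_upwards [hf.eventually (by simp), hg.eventually (by simp)] with y h1 h2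
    rw [fderiv_fun_mul (h1.differentiableAt (by norm_num)) (h2.differentiableAt (by norm_num))]
    simp
  have df := hf.differentiableAt (by norm_num)
  have dg := hg.differentiableAt (by norm_num)
  have df' : DifferentiableAt ℝ (fun y => fderiv ℝ f y (ev i)) x :=
    (calc_diff_fderiv hf).clm_apply (differentiableAt_const _)
  have dg' : DifferentiableAt ℝ (fun y => fderiv ℝ g y (ev i)) x :=
    (calc_diff_fderiv hg).clm_apply (differentiableAt_const _)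
  rw [h1.fderiv_eq, fderiv_fun_add (df.fun_mul dg') (dg.fun_mul df'), fderiv_fun_mul df dg',
    fderiv_fun_mul dg df']
  simp only [add_apply, smul_apply, smul_eq_mul]
  ring

theorem lap_mul {f g : E n → ℂ} {x : E n} (hf : ContDiffAt ℝ 2 f x) (hg : ContDiffAt ℝ 2 g x) :
    Δ (fun y => f y * g y) x =
      f x * Δ g x + 2 * ∑ i, fderiv ℝ f x (ev i) * fderiv ℝ g x (ev i) + Δ f x * g x :=
  calc_lap_mul hf hg

theorem lap_mul_real {f g : E n → ℝ} {x : E n} (hf : ContDiffAt ℝ 2 f x)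
    (hg : ContDiffAt ℝ 2 g x) : Δ (fun y => f y * g y) x =
      f x * Δ g x + 2 * ∑ i, fderiv ℝ f x (ev i) * fderiv ℝ g x (ev i) + Δ f x * g x :=
  calc_lap_mul hf hg

theorem calc_sum_coord (x : E n) : ∑ i, x i • ev i = x := by
  simpa [ev] using (EuclideanSpace.basisFun (Fin n) ℝ).sum_repr x

theorem calc_inner_ev (x : E n) (i : Fin n) : ⟪x, ev i⟫ = x i := by
  simp [ev, EuclideanSpace.inner_single_right]

theorem calc_lap_ofReal {χ : E n → ℝ} {x : E n} (hχ : ContDiffAt ℝ 2 χ x) :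
    Δ (fun y => (χ y : ℂ)) x = (Δ χ x : ℝ) :=
  hχ.laplacian_CLM_comp_left (l := Complex.ofRealCLM)

theorem lap_smul {χ : E n → ℝ} {W : E n → ℂ} {x : E n} (hχ : ContDiffAt ℝ 2 χ x)
    (hW : ContDiffAt ℝ 2 W x) : Δ (fun y => (χ y : ℂ) * W y) x =
      χ x * Δ W x + 2 * fderiv ℝ W x (gradient χ x) + (Δ χ x : ℝ) * W x := by
  have h1 : ContDiffAt ℝ 2 (fun y => (χ y : ℂ)) x :=
    Complex.ofRealCLM.contDiff.contDiffAt.comp x hχ
  rw [lap_mul h1 hW, calc_lap_ofReal hχ]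
  congr 3
  conv_rhs => rw [← calc_sum_coord (gradient χ x), map_sum]
  refine Finset.sum_congr rfl fun i _ => ?_
  have h2 : fderiv ℝ (fun y => (χ y : ℂ)) x (ev i) = (fderiv ℝ χ x (ev i) : ℝ) := by
    have := (Complex.ofRealCLM.hasFDerivAt.comp x
      (hχ.differentiableAt (by norm_num)).hasFDerivAt).fderiv
    exact congrArg (fun L : E n →L[ℝ] ℂ => L (ev i)) this
  rw [h2, map_smul, ← calc_inner_ev, gradient, InnerProductSpace.toDual_symm_apply,
    Complex.real_smul]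

theorem norm_gradient_eq (χ : E n → ℝ) (x : E n) : ‖gradient χ x‖ = ‖fderiv ℝ χ x‖ :=
  (InnerProductSpace.toDual ℝ (E n)).symm.norm_map _

theorem sum_sq_fderiv (L : E n →L[ℝ] ℝ) : ∑ i, L (ev i) ^ 2 = ‖L‖ ^ 2 := by
  rw [← (InnerProductSpace.toDual ℝ (E n)).symm.norm_map L, EuclideanSpace.real_norm_sq_eq]
  refine Finset.sum_congr rfl fun i _ => ?_
  rw [← calc_inner_ev, InnerProductSpace.toDual_symm_apply]

theorem opNorm_sq_le (L : E n →L[ℝ] ℂ) : ‖L‖ ^ 2 ≤ ∑ i, ‖L (ev i)‖ ^ 2 := by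
  have h0 : 0 ≤ ∑ i, ‖L (ev i)‖ ^ 2 := Finset.sum_nonneg fun i _ => sq_nonneg _
  rw [← Real.le_sqrt (norm_nonneg _) h0]
  refine L.opNorm_le_bound (Real.sqrt_nonneg _) fun x => ?_
  have h1 : ‖L x‖ ≤ ∑ i, ‖L (ev i)‖ * |x i| := by
    conv_lhs => rw [← calc_sum_coord x, map_sum]
    refine (norm_sum_le _ _).trans (le_of_eq (Finset.sum_congr rfl fun i _ => ?_))
    rw [map_smul, norm_smul, Real.norm_eq_abs, mul_comm]
  refine h1.trans ((Real.sum_mul_le_sqrt_mul_sqrt _ _ _).trans (le_of_eq ?_))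
  rw [EuclideanSpace.norm_eq]
  simp

theorem sum_coord_smul_ev (x : E n) : ∑ i, x i • ev i = x := calc_sum_coord x

theorem inner_ev (x : E n) (i : Fin n) : ⟪x, ev i⟫ = x i := calc_inner_ev x i

theorem lap_ofReal {χ : E n → ℝ} {x : E n} (hχ : ContDiffAt ℝ 2 χ x) :
    Δ (fun y => (χ y : ℂ)) x = (Δ χ x : ℝ) := calc_lap_ofReal hχ

theorem lap_re {W : E n → ℂ} {x : E n} (hW : ContDiffAt ℝ 2 W x) :
    Δ (fun y => (W y).re) x = (Δ W x).re :=
  hW.laplacian_CLM_comp_left (l := Complex.reCLM)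

theorem lap_im {W : E n → ℂ} {x : E n} (hW : ContDiffAt ℝ 2 W x) :
    Δ (fun y => (W y).im) x = (Δ W x).im :=
  hW.laplacian_CLM_comp_left (l := Complex.imCLM)

theorem calc_fderiv_affine (f : E n → F) (c : E n) (t : ℝ) (x : E n) :
    fderiv ℝ (fun y => f (c + t • y)) x = t • fderiv ℝ f (c + t • x) := by
  rw [fderiv_comp_smul (f := fun z => f (c + z)) t, fderiv_comp_add_left]

theorem lap_affine {f : E n → F} (c : E n) (t : ℝ) {x : E n} (hf : ContDiffAt ℝ 2 f (c + t • x)) :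
    Δ (fun y => f (c + t • y)) x = t ^ 2 • Δ f (c + t • x) := by
  simp only [calc_lap_def, Finset.smul_sum]
  refine Finset.sum_congr rfl fun i _ => ?_
  have h1 : fderiv ℝ (fun y => f (c + t • y)) = fun y => (t • fderiv ℝ f) (c + t • y) :=
    funext (calc_fderiv_affine f c t)
  rw [h1, calc_fderiv_affine, fderiv_const_smul (calc_diff_fderiv hf)]
  simp [smul_smul, sq]

theorem lap_add_const (f : E n → F) (c x : E n) : Δ (fun y => f (y + c)) x = Δ f (x + c) := by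
  simp only [InnerProductSpace.laplacian_eq_iteratedFDeriv_stdOrthonormalBasis,
    iteratedFDeriv_comp_add_right]

theorem lap_congr {f g : E n → F} {x : E n} (h : f =ᶠ[𝓝 x] g) : Δ f x = Δ g x :=
  (InnerProductSpace.laplacian_congr_nhds h).eq_of_nhds

theorem lap_eq_zero {f : E n → F} {x : E n} (h : x ∉ tsupport f) : Δ f x = 0 := by
  rw [lap_congr (notMem_tsupport_iff_eventuallyEq.1 h)]
  exact congrFun (InnerProductSpace.laplacian_const (E := E n) (c := (0 : F))) x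

theorem tsupport_lap (f : E n → F) : tsupport (Δ f) ⊆ tsupport f :=
  closure_minimal (fun _ hx => by_contra fun h => hx (lap_eq_zero h)) (isClosed_tsupport f)

theorem contDiffAt_lap {f : E n → F} {x : E n} (hf : ContDiffAt ℝ ∞ f x) :
    ContDiffAt ℝ ∞ (Δ f) x := by
  rw [calc_lap_def]
  refine ContDiffAt.sum fun i _ => ?_
  exact (((hf.fderiv_right (m := ∞) le_rfl).fderiv_right (m := ∞) le_rfl).clm_apply
    contDiffAt_const).clm_apply contDiffAt_const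

theorem contDiff_lap {f : E n → F} (hf : ContDiff ℝ ∞ f) : ContDiff ℝ ∞ (Δ f) :=
  contDiff_iff_contDiffAt.2 fun _ => contDiffAt_lap hf.contDiffAt

theorem Tst.lap {φ : E n → ℂ} (h : Tst φ) : Tst (Δ φ) :=
  ⟨contDiff_lap h.1, IsCompact.of_isClosed_subset h.2 (isClosed_tsupport _) (tsupport_lap φ)⟩

theorem integral_fderiv_zero [CompleteSpace F] {g : E n → F} (hg : ContDiff ℝ 1 g)
    (hc : HasCompactSupport g) (v : E n) : ∫ x, fderiv ℝ g x v = 0 := by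
  have h1 : Integrable (fun x => fderiv ℝ g x v) :=
    ((hg.continuous_fderiv (by norm_num)).clm_apply continuous_const).integrable_of_hasCompactSupport
      (hc.fderiv_apply ℝ v)
  have h2 := integral_smul_fderiv_eq_neg_fderiv_smul_of_integrable (μ := volume)
    (f := fun _ : E n => (1 : ℝ)) (g := g) (v := v) (by simp) (by simpa using h1)
    (by simpa using hg.continuous.integrable_of_hasCompactSupport hc)
    (fun _ _ => differentiableAt_const _) (fun x _ => hg.differentiable (by norm_num) x)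
  simpa using h2

/-- A function that is smooth on an open set `U` and supported in a closed subset of `U`. -/
theorem contDiff_of_closed {m : WithTop ℕ∞} {g : E n → F} {U K : Set (E n)} (hU : IsOpen U)
    (hK : IsClosed K) (hKU : K ⊆ U) (hg : ContDiffOn ℝ m g U) (h0 : ∀ x, x ∉ K → g x = 0) :
    ContDiff ℝ m g := by
  refine contDiff_iff_contDiffAt.2 fun x => ?_
  by_cases hx : x ∈ K
  · exact hg.contDiffAt (hU.mem_nhds (hKU hx))
  · refine (contDiffAt_const (c := (0 : F))).congr_of_eventuallyEq ?_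
    filter_upwards [hK.isOpen_compl.mem_nhds hx] with y hy using h0 y hy

theorem continuous_of_closed {g : E n → F} {U K : Set (E n)} (hU : IsOpen U)
    (hK : IsClosed K) (hKU : K ⊆ U) (hg : ContinuousOn g U) (h0 : ∀ x, x ∉ K → g x = 0) :
    Continuous g :=
  contDiff_zero.1 (contDiff_of_closed (m := 0) hU hK hKU (contDiffOn_zero.2 hg) h0)

end Pool.Agent.MP_71da5e_an

end

section

namespace Pool.Agent.MP_71da5e_an

open MeasureTheory Metric Set Laplacian Filter Topology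
open scoped ContDiff ENNReal RealInnerProductSpace

variable {n : ℕ}

theorem inner_rf_nu {ν : E n} (hν : ‖ν‖ = 1) (x : E n) : ⟪rf ν x, ν⟫ = -⟪x, ν⟫ := by
  simp only [rf, inner_sub_left, real_inner_smul_left, real_inner_self_eq_norm_sq, hν]
  ring

theorem rf_rf {ν : E n} (hν : ‖ν‖ = 1) (x : E n) : rf ν (rf ν x) = x := by
  rw [rf, inner_rf_nu hν, rf]
  module

theorem inner_rf_left (ν x y : E n) : ⟪rf ν x, y⟫ = ⟪x, rf ν y⟫ := by
  simp only [rf, inner_sub_left, inner_sub_right, real_inner_smul_left, real_inner_smul_right,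
    real_inner_comm ν y]
  ring

theorem inner_rf_rf {ν : E n} (hν : ‖ν‖ = 1) (x y : E n) : ⟪rf ν x, rf ν y⟫ = ⟪x, y⟫ := by
  rw [inner_rf_left, rf_rf hν]

theorem norm_rf {ν : E n} (hν : ‖ν‖ = 1) (x : E n) : ‖rf ν x‖ = ‖x‖ := by
  rw [norm_eq_sqrt_real_inner, inner_rf_rf hν, ← norm_eq_sqrt_real_inner]

theorem rf_of_mem_Pl {ν x : E n} (hx : x ∈ Pl ν) : rf ν x = x := by
  have : ⟪x, ν⟫ = 0 := hx
  simp [rf, this]

theorem rf_neg (ν x : E n) : rf ν (-x) = -rf ν x := by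
  simp only [rf, inner_neg_left]
  module

theorem contDiff_rf (ν : E n) : ContDiff ℝ ∞ (rf ν) :=
  contDiff_id.sub ((contDiff_const.mul (contDiff_id.inner ℝ contDiff_const)).smul contDiff_const)

/-- The reflection as a linear map. -/
noncomputable def reflL (ν : E n) : E n →ₗ[ℝ] E n where
  toFun := rf ν
  map_add' x y := by simp only [rf, inner_add_left]; module
  map_smul' c x := by simp only [rf, real_inner_smul_left, RingHom.id_apply]; module

/-- The reflection as a linear isometry. -/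
noncomputable def reflI {ν : E n} (hν : ‖ν‖ = 1) : E n ≃ₗᵢ[ℝ] E n :=
  { LinearEquiv.ofInvolutive (reflL ν) (rf_rf hν) with norm_map' := norm_rf hν }

lemma reflI_apply {ν : E n} (hν : ‖ν‖ = 1) (x : E n) : reflI hν x = rf ν x := rfl

theorem measurePreserving_rf {ν : E n} (hν : ‖ν‖ = 1) :
    MeasurePreserving (rf ν) volume volume := (reflI hν).measurePreserving

theorem integral_rf {ν : E n} (hν : ‖ν‖ = 1) {F : Type*} [NormedAddCommGroup F] [NormedSpace ℝ F]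
    (g : E n → F) : ∫ x, g (rf ν x) = ∫ x, g x :=
  (measurePreserving_rf hν).integral_comp (reflI hν).toHomeomorph.measurableEmbedding g

theorem lintegral_rf {ν : E n} (hν : ‖ν‖ = 1) (g : E n → ℝ≥0∞) :
    ∫⁻ x, g (rf ν x) = ∫⁻ x, g x :=
  (measurePreserving_rf hν).lintegral_comp_emb (reflI hν).toHomeomorph.measurableEmbedding g

theorem integrable_rf {ν : E n} (hν : ‖ν‖ = 1) {F : Type*} [NormedAddCommGroup F] {g : E n → F}
    (hg : Integrable g) : Integrable fun x => g (rf ν x) :=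
  (measurePreserving_rf hν).integrable_comp_of_integrable hg

theorem volume_Pl {ν : E n} (hν : ‖ν‖ = 1) : volume (Pl ν) = 0 := by
  have h := Measure.addHaar_submodule (volume : Measure (E n)) (LinearMap.ker (innerₗ (E n) ν))
    fun h => by
      have : ν ∈ LinearMap.ker (innerₗ (E n) ν) := h ▸ Submodule.mem_top
      simp [hν] at this
  convert h using 2
  ext x
  simp [Pl, real_inner_comm]

theorem lap_rf {ν : E n} (hν : ‖ν‖ = 1) {f : E n → ℂ} {x : E n}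
    (hf : ContDiffAt ℝ 2 f (rf ν x)) : Δ (fun y => f (rf ν y)) x = Δ f (rf ν x) := by
  rw [InnerProductSpace.laplacian_eq_iteratedFDeriv_orthonormalBasis _
      (EuclideanSpace.basisFun (Fin n) ℝ),
    InnerProductSpace.laplacian_eq_iteratedFDeriv_orthonormalBasis f
      ((EuclideanSpace.basisFun (Fin n) ℝ).map (reflI hν))]
  refine Finset.sum_congr rfl fun i _ => ?_
  have := (reflI hν).toContinuousLinearEquiv.iteratedFDerivWithin_comp_right f uniqueDiffOn_univ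
    (mem_univ ((reflI hν).toContinuousLinearEquiv x)) 2
  simp only [preimage_univ, iteratedFDerivWithin_univ] at this
  have e : (fun y => f (rf ν y)) = f ∘ (reflI hν).toContinuousLinearEquiv := rfl
  rw [e, this, ContinuousMultilinearMap.compContinuousLinearMap_apply]
  congr 1
  funext j
  fin_cases j <;> rfl

theorem Tst.rf {ν : E n} (hν : ‖ν‖ = 1) {φ : E n → ℂ} (h : Tst φ) : Tst fun x => φ (rf ν x) :=
  ⟨h.1.comp (contDiff_rf ν), h.2.comp_homeomorph (reflI hν).toHomeomorph⟩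

theorem ON.rf {ν a b : E n} (hν : ‖ν‖ = 1) (h : ON a b) : ON (rf ν a) (rf ν b) :=
  ⟨(norm_rf hν a).trans h.1, (norm_rf hν b).trans h.2.1, (inner_rf_rf hν a b).trans h.2.2⟩

theorem ON.neg {a b : E n} (h : ON a b) : ON a (-b) :=
  ⟨h.1, (norm_neg b).trans h.2.1, by rw [inner_neg_right, h.2.2, neg_zero]⟩

theorem ON.sq_le {a b : E n} (h : ON a b) (x : E n) : ⟪x, a⟫ ^ 2 + ⟪x, b⟫ ^ 2 ≤ ‖x‖ ^ 2 := by
  have h0 := real_inner_self_nonneg (x := x - ⟪x, a⟫ • a - ⟪x, b⟫ • b)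
  have h1 : ⟪b, a⟫ = 0 := by rw [real_inner_comm, h.2.2]
  simp only [inner_sub_left, inner_sub_right, real_inner_smul_left, real_inner_smul_right,
    real_inner_self_eq_norm_sq, norm_smul, mul_pow, Real.norm_eq_abs, sq_abs, h.1, h.2.1, h.2.2,
    h1, real_inner_comm x a, real_inner_comm x b] at h0
  nlinarith

theorem Dec.evn {ν : E n} (hν : ‖ν‖ = 1) {A : ℝ} {q : E n → ℂ} (h : Dec A q) :
    Dec A (evn ν q) := by
  have hm := h.1.indicator (isOpen_Hs ν).measurableSet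
  refine ⟨hm.add (hm.comp (contDiff_rf ν).continuous.measurable), fun x => ?_⟩
  unfold MP_71da5e_an.evn
  by_cases hx : x ∈ Hs ν
  · have h1 : rf ν x ∉ Hs ν := by
      have : 0 < ⟪x, ν⟫ := hx
      simp only [Hs, mem_ofPred_eq, inner_rf_nu hν, not_lt]
      linarith
    rw [indicator_of_mem hx, indicator_of_notMem h1, add_zero]
    exact h.2 x
  · rw [indicator_of_notMem hx, zero_add]
    refine (norm_indicator_le_norm_self q _).trans ((h.2 _).trans_eq ?_)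
    simp only [wt, norm_rf hν]

end Pool.Agent.MP_71da5e_an

end

section

namespace Pool.Agent.MP_71da5e_an

open MeasureTheory Metric Set Laplacian Filter Topology
open scoped ContDiff ENNReal RealInnerProductSpace

variable {n : ℕ}

theorem cs_lintegral {a : E n → ℝ} (ha : Measurable a) (ha0 : ∀ x, 0 < a x) {f g : E n → ℂ}
    (hf : Measurable f) (hg : Measurable g) :
    (∫⁻ x, ‖f x * g x‖ₑ) ^ 2 ≤ Q (fun x => (a x)⁻¹) f * Q a g := by
  have h := ENNReal.lintegral_mul_le_Lp_mul_Lq (volume : Measure (E n))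
    Real.HolderConjugate.two_two (f := fun x => ENNReal.ofReal (‖f x‖ / √(a x)))
    (g := fun x => ENNReal.ofReal (√(a x) * ‖g x‖)) (by fun_prop) (by fun_prop)
  have e0 : ∀ x, ‖f x * g x‖ₑ =
      ENNReal.ofReal (‖f x‖ / √(a x)) * ENNReal.ofReal (√(a x) * ‖g x‖) := fun x => by
    have := Real.sqrt_pos.2 (ha0 x)
    rw [← ENNReal.ofReal_mul (by positivity), ← ofReal_norm, norm_mul]
    congr 1; field_simp
  have e1 : ∀ x, ENNReal.ofReal (‖f x‖ / √(a x)) ^ (2 : ℝ) =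
      ENNReal.ofReal ((a x)⁻¹ * ‖f x‖ ^ 2) := fun x => by
    rw [ENNReal.rpow_two, ← ENNReal.ofReal_pow (by positivity), div_pow, Real.sq_sqrt (ha0 x).le]
    congr 1; ring
  have e2 : ∀ x, ENNReal.ofReal (√(a x) * ‖g x‖) ^ (2 : ℝ) =
      ENNReal.ofReal (a x * ‖g x‖ ^ 2) := fun x => by
    rw [ENNReal.rpow_two, ← ENNReal.ofReal_pow (by positivity), mul_pow, Real.sq_sqrt (ha0 x).le]
  simp only [Pi.mul_apply, ← e0, e1, e2] at h
  refine (pow_le_pow_left' h 2).trans (le_of_eq ?_)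
  rw [mul_pow, ← ENNReal.rpow_two, ← ENNReal.rpow_two, ← ENNReal.rpow_mul, ← ENNReal.rpow_mul]
  norm_num [Q]

theorem cs_integrable {a : E n → ℝ} (ha : Measurable a) (ha0 : ∀ x, 0 < a x) {f g : E n → ℂ}
    (hf : Measurable f) (hg : Measurable g) (h₁ : Q (fun x => (a x)⁻¹) f ≠ ⊤) (h₂ : Q a g ≠ ⊤) :
    Integrable fun x => f x * g x := by
  refine ⟨(hf.mul hg).aestronglyMeasurable, ?_⟩
  have h := (cs_lintegral ha ha0 hf hg).trans_lt (ENNReal.mul_ne_top h₁ h₂).lt_top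
  exact (ENNReal.pow_ne_top_iff.1 h.ne).resolve_right two_ne_zero |>.lt_top

theorem cs_enorm {a : E n → ℝ} (ha : Measurable a) (ha0 : ∀ x, 0 < a x) {f g : E n → ℂ}
    (hf : Measurable f) (hg : Measurable g) :
    ‖∫ x, f x * g x‖ₑ ^ 2 ≤ Q (fun x => (a x)⁻¹) f * Q a g :=
  (pow_le_pow_left' (enorm_integral_le_lintegral_enorm _) 2).trans (cs_lintegral ha ha0 hf hg)

theorem cs_real {a : E n → ℝ} (ha : Measurable a) (ha0 : ∀ x, 0 < a x) {f g : E n → ℂ}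
    (hf : Measurable f) (hg : Measurable g) {s t : ℝ} (hs : 0 ≤ s) (ht : 0 ≤ t)
    (h₁ : Q (fun x => (a x)⁻¹) f ≤ ENNReal.ofReal s) (h₂ : Q a g ≤ ENNReal.ofReal t) :
    ‖∫ x, f x * g x‖ ≤ √s * √t := by
  have h := (cs_enorm ha ha0 hf hg).trans (mul_le_mul' h₁ h₂)
  rw [← ofReal_norm, ← ENNReal.ofReal_pow (norm_nonneg _), ← ENNReal.ofReal_mul hs,
    ENNReal.ofReal_le_ofReal_iff (mul_nonneg hs ht)] at h
  rw [← Real.sqrt_mul hs]
  exact Real.le_sqrt_of_sq_le h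

theorem Q_eq_ofReal {a : E n → ℝ} {w : E n → ℂ} (ha : ∀ x, 0 ≤ a x)
    (h : Integrable fun x => a x * ‖w x‖ ^ 2) :
    Q a w = ENNReal.ofReal (∫ x, a x * ‖w x‖ ^ 2) :=
  (ofReal_integral_eq_lintegral_ofReal h
    (Eventually.of_forall fun x => mul_nonneg (ha x) (sq_nonneg _))).symm

theorem Q_ne_top_of_le {a : E n → ℝ} {w : E n → ℂ} (hw : Q wt w ≠ ⊤) {c : ℝ}
    (h : ∀ x, a x ≤ c * wt x) : Q a w ≠ ⊤ := by
  have h1 : Q a w ≤ Q (fun x => max c 0 * wt x) w := Q_mono_left w fun x =>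
    (h x).trans (mul_le_mul_of_nonneg_right (le_max_left _ _) (wt_pos x).le)
  rw [Q_const_mul (le_max_right _ _)] at h1
  exact ne_top_of_le_ne_top (ENNReal.mul_ne_top ENNReal.ofReal_ne_top hw) h1

theorem Q_sh_ne_top {w : E n → ℂ} (hw : WL2 w) (y : E n) (s t : ℝ) : Q (sh y s t) w ≠ ⊤ := by
  refine Q_ne_top_of_le hw.2 (c := (1 + (‖y‖ + t) ^ 2) ^ 2) fun x => ?_
  unfold sh
  split_ifs with h
  · have h1 : ‖x‖ ≤ ‖y‖ + t := by
      have := norm_sub_norm_le x y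
      linarith [h.2]
    unfold wt
    rw [← div_eq_mul_inv, le_div_iff₀ (by positivity), one_mul]
    gcongr
  · exact mul_nonneg (by positivity) (wt_pos x).le

theorem qb_le_ball {a : E n → ℝ} {w : E n → ℂ} {c R : ℝ} (hc : 0 ≤ c) (hR : 0 ≤ R)
    (h : ∀ x, a x * ‖w x‖ ^ 2 ≤ c) (h0 : ∀ x, R < ‖x‖ → a x * ‖w x‖ ^ 2 ≤ 0) :
    Q a w ≤ ENNReal.ofReal (c * R ^ n * (volume (closedBall (0 : E n) 1)).toReal) := by
  have h1 : Q a w ≤ ∫⁻ x, (closedBall (0 : E n) R).indicator (fun _ => ENNReal.ofReal c) x := by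
    refine lintegral_mono fun x => ?_
    by_cases hx : x ∈ closedBall (0 : E n) R
    · rw [indicator_of_mem hx]; exact ENNReal.ofReal_le_ofReal (h x)
    · rw [mem_closedBall_zero_iff, not_le] at hx
      simp only [ENNReal.ofReal_of_nonpos (h0 x hx), zero_le]
  refine h1.trans (le_of_eq ?_)
  rw [lintegral_indicator_const measurableSet_closedBall, Measure.addHaar_closedBall' _ _ hR,
    finrank_euclideanSpace_fin, ENNReal.ofReal_mul (by positivity), ENNReal.ofReal_mul hc,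
    ENNReal.ofReal_toReal (isCompact_closedBall _ _).measure_ne_top, mul_assoc]

theorem Q_ne_top_of_bdd {a : E n → ℝ} {w : E n → ℂ} {c R : ℝ}
    (h : ∀ x, a x * ‖w x‖ ^ 2 ≤ c) (h0 : ∀ x, R < ‖x‖ → w x = 0) : Q a w ≠ ⊤ :=
  ne_top_of_le_ne_top ENNReal.ofReal_ne_top (qb_le_ball (le_max_right c 0) (le_max_right R 0)
    (fun x => (h x).trans (le_max_left _ _))
    fun x hx => by simp [h0 x ((le_max_left _ _).trans_lt hx)])

theorem Q_le_ball {a : E n → ℝ} {w : E n → ℂ} {c R : ℝ} (hc : 0 ≤ c) (hR : 0 ≤ R)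
    (h : ∀ x, a x * ‖w x‖ ^ 2 ≤ c) (h0 : ∀ x, R < ‖x‖ → a x * ‖w x‖ ^ 2 ≤ 0) :
    Q a w ≤ ENNReal.ofReal (c * R ^ n * (volume (closedBall (0 : E n) 1)).toReal) :=
  qb_le_ball hc hR h h0

theorem Q_rf {ν : E n} (hν : ‖ν‖ = 1) {a : E n → ℝ} (ha : ∀ x, a (rf ν x) = a x) (w : E n → ℂ) :
    Q a (fun x => w (rf ν x)) = Q a w := by
  have h := lintegral_rf hν fun x => ENNReal.ofReal (a x * ‖w x‖ ^ 2)
  simp only [ha] at h
  exact h

theorem Q_odd {ν : E n} (hν : ‖ν‖ = 1) {a : E n → ℝ} (ham : Measurable a) (ha0 : ∀ x, 0 ≤ a x)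
    (ha : ∀ x, a (rf ν x) = a x) {w : E n → ℂ} (hw : Measurable w)
    (h0 : ∀ x, x ∉ Hs ν → w x = 0) : Q a (fun x => w x - w (rf ν x)) = 2 * Q a w := by
  rw [two_mul]
  nth_rewrite 2 [← Q_rf hν ha w]
  unfold Q
  rw [← lintegral_add_left (by fun_prop)]
  refine lintegral_congr fun x => ?_
  by_cases hx : x ∈ Hs ν
  · have : w (rf ν x) = 0 := h0 _ fun h' => by
      simp only [Hs, mem_ofPred_eq, inner_rf_nu hν] at h' hx
      linarith
    simp [this]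
  · simp [h0 x hx]

theorem qb_int {w : E n → ℂ} (hw : WL2 w) : Integrable fun x => wt x * ‖w x‖ ^ 2 := by
  have h1 : Measurable fun x => wt x * ‖w x‖ ^ 2 :=
    continuous_wt.measurable.mul (hw.1.norm.pow_const 2)
  refine ⟨h1.aestronglyMeasurable, ?_⟩
  rw [hasFiniteIntegral_iff_ofReal
    (Eventually.of_forall fun x => mul_nonneg (wt_pos x).le (sq_nonneg _))]
  exact hw.2.lt_top

theorem qb_li_sq {w : E n → ℂ} (hw : WL2 w) : LocallyIntegrable fun x => ‖w x‖ ^ 2 := by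
  have h := (qb_int hw).locallyIntegrable.continuous_mul
    (g := fun x : E n => (1 + ‖x‖ ^ 2) ^ 2) (by fun_prop)
  convert h using 2 with x
  unfold wt
  field_simp

theorem WL2.locallyIntegrable {w : E n → ℂ} (hw : WL2 w) : LocallyIntegrable w := by
  have h := (locallyIntegrable_const (μ := (volume : Measure (E n))) (1 : ℝ)).add (qb_li_sq hw)
  refine h.mono hw.1.aestronglyMeasurable (Eventually.of_forall fun x => ?_)
  simp only [Pi.add_apply]
  rw [Real.norm_of_nonneg (by positivity)]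
  nlinarith [norm_nonneg (w x), sq_nonneg (‖w x‖ - 1)]

theorem WL2.locallyIntegrable_sq {w : E n → ℂ} (hw : WL2 w) :
    LocallyIntegrable fun x => ‖w x‖ ^ 2 := qb_li_sq hw

theorem WL2.integrable_mul {w : E n → ℂ} (hw : WL2 w) {φ : E n → ℂ} (hφ : Continuous φ)
    (hc : HasCompactSupport φ) : Integrable fun x => w x * φ x :=
  hw.locallyIntegrable.integrable_smul_right_of_hasCompactSupport hφ hc

theorem qb_two {w w' v : E n → ℂ} (h : WL2 w) (h' : WL2 w') (hv : Measurable v)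
    (hle : ∀ x, ‖v x‖ ≤ ‖w x‖ + ‖w' x‖) : WL2 v := by
  refine ⟨hv, ne_top_of_le_ne_top (ENNReal.add_ne_top.2
    ⟨Q_ne_top_of_le h.2 (a := fun x => 2 * wt x) fun _ => le_rfl,
      Q_ne_top_of_le h'.2 (a := fun x => 2 * wt x) fun _ => le_rfl⟩)
    (Q_le_add (continuous_wt.measurable.const_mul 2) h.1 fun x => ?_)⟩
  have h1 : ‖v x‖ ^ 2 ≤ 2 * ‖w x‖ ^ 2 + 2 * ‖w' x‖ ^ 2 := by
    have := pow_le_pow_left₀ (norm_nonneg _) (hle x) 2
    nlinarith [sq_nonneg (‖w x‖ - ‖w' x‖)]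
  nlinarith [mul_le_mul_of_nonneg_left h1 (wt_pos x).le]

theorem WL2.add {w w' : E n → ℂ} (h : WL2 w) (h' : WL2 w') : WL2 fun x => w x + w' x :=
  qb_two h h' (h.1.add h'.1) fun _ => norm_add_le _ _

theorem WL2.sub {w w' : E n → ℂ} (h : WL2 w) (h' : WL2 w') : WL2 fun x => w x - w' x :=
  qb_two h h' (h.1.sub h'.1) fun _ => norm_sub_le _ _

theorem WL2.mul {w g : E n → ℂ} (h : WL2 w) (hg : Measurable g) {c : ℝ} (hc : ∀ x, ‖g x‖ ≤ c) :
    WL2 fun x => g x * w x := by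
  refine ⟨hg.mul h.1, ne_top_of_le_ne_top
    (Q_ne_top_of_le h.2 (a := fun x => c ^ 2 * wt x) fun _ => le_rfl) (Q_mono fun x => ?_)⟩
  have h1 : ‖g x‖ ^ 2 ≤ c ^ 2 := pow_le_pow_left₀ (norm_nonneg _) (hc x) 2
  rw [norm_mul, mul_pow]
  nlinarith [mul_le_mul_of_nonneg_left h1 (mul_nonneg (wt_pos x).le (sq_nonneg ‖w x‖))]

theorem WL2.dec {w q : E n → ℂ} (h : WL2 w) {A : ℝ} (hq : Dec A q) : WL2 fun x => q x * w x :=
  h.mul hq.1 fun x => (hq.2 x).trans (mul_le_of_le_one_right hq.nonneg (wt_le_one x))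

theorem WL2.indicator {w : E n → ℂ} (h : WL2 w) {s : Set (E n)} (hs : MeasurableSet s) :
    WL2 (s.indicator w) :=
  ⟨h.1.indicator hs, ne_top_of_le_ne_top h.2 (Q_mono fun x => mul_le_mul_of_nonneg_left
    (pow_le_pow_left₀ (norm_nonneg _) (norm_indicator_le_norm_self w x) 2) (wt_pos x).le)⟩

theorem WL2.rf {ν : E n} (hν : ‖ν‖ = 1) {w : E n → ℂ} (h : WL2 w) : WL2 fun x => w (rf ν x) :=
  ⟨h.1.comp (contDiff_rf ν).continuous.measurable,
    (Q_rf hν (fun x => by simp only [wt, norm_rf hν]) w).trans_ne h.2⟩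

theorem Tst.wl2 {φ : E n → ℂ} (h : Tst φ) : WL2 φ := by
  have hc := h.1.continuous
  refine ⟨hc.measurable, ?_⟩
  have h1 : HasCompactSupport fun x => wt x * ‖φ x‖ ^ 2 :=
    h.2.mono fun x hx h0 => hx (by simp [h0])
  rw [Q_eq_ofReal (fun x => (wt_pos x).le)
    ((continuous_wt.mul (hc.norm.pow 2)).integrable_of_hasCompactSupport h1)]
  exact ENNReal.ofReal_ne_top

theorem wt_add_le (z x : E n) : wt (x + z) ≤ (2 * (1 + ‖z‖ ^ 2)) ^ 2 * wt x := by
  have h1 : ‖x‖ ≤ ‖x + z‖ + ‖z‖ := by simpa using norm_sub_le (x + z) z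
  have h2 : 1 + ‖x‖ ^ 2 ≤ 2 * (1 + ‖z‖ ^ 2) * (1 + ‖x + z‖ ^ 2) := by
    have := pow_le_pow_left₀ (norm_nonneg _) h1 2
    nlinarith [sq_nonneg (‖x + z‖ - ‖z‖), sq_nonneg (‖x + z‖ * ‖z‖)]
  unfold wt
  rw [← div_eq_mul_inv, le_div_iff₀ (by positivity), inv_mul_le_iff₀ (by positivity), ← mul_pow,
    mul_comm]
  exact pow_le_pow_left₀ (by positivity) h2 2

theorem WL2.add_const {w : E n → ℂ} (h : WL2 w) (z : E n) : WL2 fun x => w (x + z) := by
  refine ⟨h.1.comp (measurable_add_const z), ?_⟩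
  have h1 : Q wt (fun x => w (x + z)) = Q (fun x => wt (x + -z)) w := by
    unfold Q
    rw [← lintegral_add_right_eq_self (fun x => ENNReal.ofReal (wt (x + -z) * ‖w x‖ ^ 2)) z]
    simp only [add_neg_cancel_right]
  rw [h1]
  exact Q_ne_top_of_le h.2 (wt_add_le (-z))

theorem Dec.add_const {A : ℝ} {q : E n → ℂ} (h : Dec A q) (z : E n) :
    Dec (A * (2 * (1 + ‖z‖ ^ 2)) ^ 2) fun x => q (x + z) :=
  ⟨h.1.comp (measurable_add_const z), fun x => (h.2 _).trans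
    ((mul_le_mul_of_nonneg_left (wt_add_le z x) h.nonneg).trans_eq (mul_assoc _ _ _).symm)⟩

theorem Dec.sub {A : ℝ} {q₁ q₂ : E n → ℂ} (h₁ : Dec A q₁) (h₂ : Dec A q₂) :
    Dec (2 * A) fun x => q₁ x - q₂ x :=
  ⟨h₁.1.sub h₂.1, fun x => (norm_sub_le _ _).trans (by linarith [h₁.2 x, h₂.2 x])⟩

theorem pair_eq {w F φ : E n → ℂ} (hw : WL2 w) (hF : WL2 F) (hφ : Tst φ) :
    pair w F φ = (∫ x, F x * φ x) - ∫ x, w x * Δ φ x :=
  integral_sub (hF.integrable_mul hφ.1.continuous hφ.2)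
    (hw.integrable_mul hφ.lap.1.continuous hφ.lap.2)

theorem pair_congr {w w' F F' : E n → ℂ} (hw : w =ᵐ[volume] w') (hF : F =ᵐ[volume] F')
    (φ : E n → ℂ) : pair w F φ = pair w' F' φ := by
  refine integral_congr_ae ?_
  filter_upwards [hw, hF] with x h1 h2
  rw [h1, h2]

theorem pair_add_const (w F φ : E n → ℂ) (z : E n) :
    pair (fun x => w (x + z)) (fun x => F (x + z)) (fun x => φ (x + z)) = pair w F φ := by
  unfold pair
  simp only [lap_add_const]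
  exact integral_add_right_eq_self (fun x => F x * φ x - w x * Δ φ x) z

theorem qb_odd {ν : E n} (hν : ‖ν‖ = 1) {F φ : E n → ℂ} (hF : WL2 F) (hφ : Tst φ) :
    ∫ x, (F x - F (rf ν x)) * φ x = ∫ x, F x * (φ x - φ (rf ν x)) := by
  have h1 := integral_rf hν fun x => F x * φ (rf ν x)
  simp only [rf_rf hν] at h1
  simp only [sub_mul, mul_sub]
  rw [integral_sub (hF.integrable_mul hφ.1.continuous hφ.2)
    ((hF.rf hν).integrable_mul hφ.1.continuous hφ.2),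
    integral_sub (hF.integrable_mul hφ.1.continuous hφ.2)
    (hF.integrable_mul (hφ.rf hν).1.continuous (hφ.rf hν).2), h1]

theorem HP.odd {ν : E n} (hν : ‖ν‖ = 1) {G : Set (E n)} {w F : E n → ℂ} (h : HP ν G w F) :
    WP univ (fun x => w x - w (rf ν x)) fun x => F x - F (rf ν x) := by
  have hw := h.l2w.sub (h.l2w.rf hν)
  have hF := h.l2F.sub (h.l2F.rf hν)
  refine ⟨hw, hF, fun φ hφ _ => ?_⟩
  have hr := hφ.rf hν
  have hψ : Tst fun x => φ x - φ (rf ν x) := ⟨hφ.1.sub hr.1, hφ.2.sub hr.2⟩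
  have h1 := h.weak _ hψ (Or.inl fun x hx => by rw [rf_of_mem_Pl hx, sub_self])
  have h2 : ∀ x, Δ (fun x => φ x - φ (rf ν x)) x = Δ φ x - Δ φ (rf ν x) := fun x => by
    have h3 : ContDiff ℝ 2 φ := hφ.1.of_le (by norm_cast)
    have h4 : ContDiff ℝ 2 fun x => φ (rf ν x) := hr.1.of_le (by norm_cast)
    rw [← lap_rf hν h3.contDiffAt]
    exact h3.contDiffAt.laplacian_sub h4.contDiffAt
  rw [pair_eq h.l2w h.l2F hψ] at h1
  simp only [h2] at h1
  rw [pair_eq hw hF hφ, qb_odd hν h.l2F hφ, qb_odd hν h.l2w hφ.lap, h1]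

theorem qb_tst {φ : E n → ℂ} (h : Tst φ) (z : E n) : Tst fun x => φ (x + z) :=
  ⟨h.1.comp (contDiff_id.add contDiff_const), h.2.comp_homeomorph (Homeomorph.addRight z)⟩

theorem qb_ts (φ : E n → ℂ) (z : E n) {x : E n} (hx : x ∈ tsupport fun x => φ (x + z)) :
    x + z ∈ tsupport φ :=
  tsupport_comp_subset_preimage φ (f := fun x => x + z) (by fun_prop) hx

theorem qb_inner {ν z : E n} (hz : z ∈ Pl ν) (x : E n) : ⟪x + z, ν⟫ = ⟪x, ν⟫ := by
  rw [inner_add_left, show ⟪z, ν⟫ = 0 from hz, add_zero]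

theorem qb_neg {ν z : E n} (hz : z ∈ Pl ν) : -z ∈ Pl ν := by
  show ⟪-z, ν⟫ = 0
  rw [inner_neg_left, show ⟪z, ν⟫ = 0 from hz, neg_zero]

theorem qb_Hs {ν z : E n} (hz : z ∈ Pl ν) {x : E n} (hx : x ∉ Hs ν) : x + z ∉ Hs ν := fun h =>
  hx (by simpa only [Hs, mem_ofPred_eq, qb_inner hz] using h)

theorem qb_Pl {ν z : E n} (hz : z ∈ Pl ν) {x : E n} (hx : x ∈ Pl ν) : x + z ∈ Pl ν :=
  (qb_inner hz x).trans hx

theorem Hyp.add_const {ν : E n} {D G : Set (E n)} {q₁ q₂ : E n → ℂ} (h : Hyp ν D G q₁ q₂)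
    {z : E n} (hz : z ∈ Pl ν) :
    Hyp ν {x | x + z ∈ D} {x | x + z ∈ G} (fun x => q₁ (x + z)) fun x => q₂ (x + z) := by
  intro u hu
  have hu' : Adm ν D q₁ fun x => u (x + -z) := by
    refine ⟨hu.l2.add_const _, fun x hx => hu.z _ (qb_Hs (qb_neg hz) hx), fun φ hφ h₁ h₂ => ?_⟩
    rw [← pair_add_const _ _ _ z]
    simp only [add_neg_cancel_right]
    exact hu.weak _ (qb_tst hφ z) (fun x hx => h₁ _ (qb_Pl hz hx))
      fun x hx => h₂ ⟨qb_ts φ z hx.1, qb_Pl hz hx.2⟩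
  obtain ⟨w, hw⟩ := h _ hu'
  have hF := hw.l2F.add_const z
  simp only [add_neg_cancel_right] at hF
  refine ⟨fun x => w (x + z), hw.l2w.add_const z, hF, fun x hx => hw.zw _ (qb_Hs hz hx),
    fun x hx => ?_, fun φ hφ h₁ => ?_⟩
  · simpa only [add_neg_cancel_right] using hw.zF _ (qb_Hs hz hx)
  · have h2 := hw.weak _ (qb_tst hφ (-z)) (h₁.imp (fun h₃ x hx => h₃ _ (qb_Pl (qb_neg hz) hx))
      fun h₃ x hx => by simpa using h₃ (qb_ts φ (-z) hx))
    rw [← pair_add_const _ _ _ z] at h2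
    simpa only [add_neg_cancel_right] using h2

end Pool.Agent.MP_71da5e_an

end

section

namespace Pool.Agent.MP_71da5e_an

open MeasureTheory Metric Set Laplacian Filter Topology
open scoped ContDiff ENNReal RealInnerProductSpace

variable {n : ℕ}

lemma scut_two : (2 : WithTop ℕ∞) ≤ (∞ : WithTop ℕ∞) :=
  WithTop.coe_le_coe.2 (le_top : (2 : ℕ∞) ≤ ⊤)

lemma scut_contDiff_dir {W : E n → ℂ} (hW : ContDiff ℝ ∞ W) (v : E n) :
    ContDiff ℝ ∞ fun y => fderiv ℝ W y v :=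
  (hW.fderiv_right (m := ∞) le_rfl).clm_apply contDiff_const

lemma scut_fderiv {W : E n → ℂ} (hW : ContDiff ℝ ∞ W) {θ : E n → ℝ} (hθ : ContDiff ℝ ∞ θ)
    (v x : E n) :
    fderiv ℝ (fun y => θ y ^ 2 * ⟪W y, fderiv ℝ W y v⟫) x v =
      θ x ^ 2 * (⟪W x, fderiv ℝ (fun y => fderiv ℝ W y v) x v⟫ + ‖fderiv ℝ W x v‖ ^ 2) +
        2 * θ x * fderiv ℝ θ x v * ⟪W x, fderiv ℝ W x v⟫ := by
  have h1 : HasFDerivAt θ (fderiv ℝ θ x) x := (hθ.differentiable (by simp) x).hasFDerivAt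
  have h2 : HasFDerivAt W (fderiv ℝ W x) x := (hW.differentiable (by simp) x).hasFDerivAt
  have h3 : HasFDerivAt (fun y => fderiv ℝ W y v) (fderiv ℝ (fun y => fderiv ℝ W y v) x) x :=
    ((scut_contDiff_dir hW v).differentiable (by simp) x).hasFDerivAt
  have h4 := (h1.pow 2).mul (h2.inner ℝ h3)
  have h5 : fderiv ℝ (fun y => θ y ^ 2 * ⟪W y, fderiv ℝ W y v⟫) x = _ := h4.fderiv
  rw [h5]
  simp only [add_apply, smul_apply,
    ContinuousLinearMap.comp_apply, ContinuousLinearMap.prod_apply, fderivInnerCLM_apply,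
    smul_eq_mul, real_inner_self_eq_norm_sq, nsmul_eq_mul]
  push_cast
  ring

lemma scut_pt {t d a p s : ℝ} (h : |s| ≤ a * p) :
    0 ≤ t ^ 2 * p ^ 2 + 4 * (t * d * s) + 4 * (d ^ 2 * a ^ 2) := by
  have h1 : |t * d * s| ≤ |t| * |d| * (a * p) := by
    rw [abs_mul, abs_mul]
    exact mul_le_mul_of_nonneg_left h (by positivity)
  have h2 := neg_abs_le (t * d * s)
  have h3 := sq_nonneg (|t| * p - 2 * (|d| * a))
  have h4 : |t| ^ 2 = t ^ 2 := sq_abs t
  have h5 : |d| ^ 2 = d ^ 2 := sq_abs d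
  have h6 : (|t| * p - 2 * (|d| * a)) ^ 2 =
      |t| ^ 2 * p ^ 2 - 4 * (|t| * |d| * (a * p)) + 4 * (|d| ^ 2 * a ^ 2) := by ring
  rw [h6, h4, h5] at h3
  linarith

lemma scut_pt2 {κ a l s : ℝ} (hκ : 0 < κ) (h : |s| ≤ a * l) :
    0 ≤ 2 * s + κ⁻¹ * l ^ 2 + κ * a ^ 2 := by
  have h2 := neg_abs_le s
  have h3 : 0 ≤ κ⁻¹ * (l - κ * a) ^ 2 := by positivity
  have h4 : κ⁻¹ * (l - κ * a) ^ 2 = κ⁻¹ * l ^ 2 - 2 * (a * l) + κ * a ^ 2 := by
    field_simp
    ring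
  linarith

lemma scut_pointwise {W : E n → ℂ} (hW : ContDiff ℝ ∞ W) {θ : E n → ℝ} (hθ : ContDiff ℝ ∞ θ)
    {κ : ℝ} (hκ : 0 < κ) (x : E n) :
    θ x ^ 2 * ‖fderiv ℝ W x‖ ^ 2 ≤
      2 * (∑ i, fderiv ℝ (fun y => θ y ^ 2 * ⟪W y, fderiv ℝ W y (ev i)⟫) x (ev i)) +
        (κ⁻¹ * θ x ^ 2 * ‖Δ W x‖ ^ 2 + (κ * θ x ^ 2 + 4 * ‖fderiv ℝ θ x‖ ^ 2) * ‖W x‖ ^ 2) := by
  have hL : Δ W x = ∑ i, fderiv ℝ (fun y => fderiv ℝ W y (ev i)) x (ev i) :=
    lap_eq (hW.contDiffAt.of_le scut_two)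
  have h1 : θ x ^ 2 * ‖fderiv ℝ W x‖ ^ 2 ≤ ∑ i, θ x ^ 2 * ‖fderiv ℝ W x (ev i)‖ ^ 2 := by
    rw [← Finset.mul_sum]
    exact mul_le_mul_of_nonneg_left (opNorm_sq_le _) (sq_nonneg _)
  have h2 : ∑ i, fderiv ℝ (fun y => θ y ^ 2 * ⟪W y, fderiv ℝ W y (ev i)⟫) x (ev i) =
      θ x ^ 2 * ⟪W x, Δ W x⟫ + (∑ i, θ x ^ 2 * ‖fderiv ℝ W x (ev i)‖ ^ 2) +
        2 * ∑ i, θ x * fderiv ℝ θ x (ev i) * ⟪W x, fderiv ℝ W x (ev i)⟫ := by
    rw [hL, inner_sum, Finset.mul_sum, Finset.mul_sum, ← Finset.sum_add_distrib,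
      ← Finset.sum_add_distrib]
    refine Finset.sum_congr rfl fun i _ => ?_
    rw [scut_fderiv hW hθ]
    ring
  have h3 : 0 ≤ ∑ i, (θ x ^ 2 * ‖fderiv ℝ W x (ev i)‖ ^ 2 +
      4 * (θ x * fderiv ℝ θ x (ev i) * ⟪W x, fderiv ℝ W x (ev i)⟫) +
        4 * (fderiv ℝ θ x (ev i) ^ 2 * ‖W x‖ ^ 2)) :=
    Finset.sum_nonneg fun i _ => scut_pt (abs_real_inner_le_norm _ _)
  rw [Finset.sum_add_distrib, Finset.sum_add_distrib, ← Finset.mul_sum (a := (4 : ℝ)),
    ← Finset.mul_sum (a := (4 : ℝ)), ← Finset.sum_mul, sum_sq_fderiv] at h3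
  have h4 : 0 ≤ θ x ^ 2 * (2 * ⟪W x, Δ W x⟫ + κ⁻¹ * ‖Δ W x‖ ^ 2 + κ * ‖W x‖ ^ 2) :=
    mul_nonneg (sq_nonneg _) (scut_pt2 hκ (abs_real_inner_le_norm _ _))
  rw [h2]
  nlinarith

lemma scut_int {θ g : E n → ℝ} (hθ : Continuous θ) (hc : HasCompactSupport θ)
    (hg : Continuous g) : Integrable fun x => θ x * g x :=
  (hθ.mul hg).integrable_of_hasCompactSupport hc.mul_right

lemma scut_sq {θ : E n → ℝ} (hc : HasCompactSupport θ) : HasCompactSupport fun x => θ x ^ 2 :=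
  hc.comp_left (g := fun t : ℝ => t ^ 2) (by simp)

lemma scut_sq_fderiv {θ : E n → ℝ} (hc : HasCompactSupport θ) :
    HasCompactSupport fun x => ‖fderiv ℝ θ x‖ ^ 2 :=
  (hc.fderiv (𝕜 := ℝ)).comp_left (g := fun t : E n →L[ℝ] ℝ => ‖t‖ ^ 2) (by simp)

lemma scut_int1 {W : E n → ℂ} (hW : ContDiff ℝ ∞ W) {θ : E n → ℝ} (hθ : ContDiff ℝ ∞ θ)
    (hc : HasCompactSupport θ) : Integrable fun x => θ x ^ 2 * ‖fderiv ℝ W x‖ ^ 2 :=
  scut_int (hθ.continuous.pow 2) (scut_sq hc) ((hW.continuous_fderiv (by simp)).norm.pow 2)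

lemma scut_int2 {W : E n → ℂ} (hW : ContDiff ℝ ∞ W) {θ : E n → ℝ} (hθ : ContDiff ℝ ∞ θ)
    (hc : HasCompactSupport θ) (κ : ℝ) : Integrable fun x => κ * θ x ^ 2 * ‖Δ W x‖ ^ 2 :=
  scut_int (continuous_const.mul (hθ.continuous.pow 2)) (scut_sq hc).mul_left
    ((contDiff_lap hW).continuous.norm.pow 2)

lemma scut_int3 {W : E n → ℂ} (hW : ContDiff ℝ ∞ W) {θ : E n → ℝ} (hθ : ContDiff ℝ ∞ θ)
    (hc : HasCompactSupport θ) (κ : ℝ) :
    Integrable fun x => (κ * θ x ^ 2 + 4 * ‖fderiv ℝ θ x‖ ^ 2) * ‖W x‖ ^ 2 :=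
  scut_int ((continuous_const.mul (hθ.continuous.pow 2)).add
      (continuous_const.mul ((hθ.continuous_fderiv (by simp)).norm.pow 2)))
    (HasCompactSupport.add (f := fun x => κ * θ x ^ 2) (scut_sq hc).mul_left
      (scut_sq_fderiv hc).mul_left)
    (hW.continuous.norm.pow 2)

theorem cacc {W : E n → ℂ} (hW : ContDiff ℝ ∞ W) {θ : E n → ℝ} (hθ : ContDiff ℝ ∞ θ)
    (hc : HasCompactSupport θ) {κ : ℝ} (hκ : 0 < κ) :
    ∫ x, θ x ^ 2 * ‖fderiv ℝ W x‖ ^ 2 ≤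
      (∫ x, κ⁻¹ * θ x ^ 2 * ‖Δ W x‖ ^ 2) +
        ∫ x, (κ * θ x ^ 2 + 4 * ‖fderiv ℝ θ x‖ ^ 2) * ‖W x‖ ^ 2 := by
  have hg : ∀ i, ContDiff ℝ ∞ fun y => θ y ^ 2 * ⟪W y, fderiv ℝ W y (ev i)⟫ := fun i =>
    (hθ.pow 2).mul (hW.inner ℝ (scut_contDiff_dir hW _))
  have hgc : ∀ i, HasCompactSupport fun y => θ y ^ 2 * ⟪W y, fderiv ℝ W y (ev i)⟫ := fun i =>
    (scut_sq hc).mul_right
  have hi : ∀ i, Integrable fun x =>
      fderiv ℝ (fun y => θ y ^ 2 * ⟪W y, fderiv ℝ W y (ev i)⟫) x (ev i) := fun i =>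
    (((hg i).continuous_fderiv (by simp)).clm_apply continuous_const).integrable_of_hasCompactSupport
      ((hgc i).fderiv_apply (𝕜 := ℝ) _)
  have hs : Integrable fun x =>
      ∑ i, fderiv ℝ (fun y => θ y ^ 2 * ⟪W y, fderiv ℝ W y (ev i)⟫) x (ev i) :=
    integrable_finsetSum _ fun i _ => hi i
  have h0 : ∫ x, ∑ i, fderiv ℝ (fun y => θ y ^ 2 * ⟪W y, fderiv ℝ W y (ev i)⟫) x (ev i) = 0 := by
    rw [integral_finsetSum _ fun i _ => hi i]
    exact Finset.sum_eq_zero fun i _ =>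
      integral_fderiv_zero ((hg i).of_le (by exact_mod_cast le_top)) (hgc i) _
  have h1 := integral_mono (scut_int1 hW hθ hc)
    ((hs.const_mul 2).add ((scut_int2 hW hθ hc κ⁻¹).add (scut_int3 hW hθ hc κ)))
    (scut_pointwise hW hθ hκ)
  rw [integral_add' (hs.const_mul 2) ((scut_int2 hW hθ hc κ⁻¹).add (scut_int3 hW hθ hc κ)),
    integral_add' (scut_int2 hW hθ hc κ⁻¹) (scut_int3 hW hθ hc κ), integral_const_mul, h0] at h1
  simpa using h1

lemma scut_three (x y z : ℂ) : ‖x + y + z‖ ^ 2 ≤ 3 * (‖x‖ ^ 2 + ‖y‖ ^ 2 + ‖z‖ ^ 2) := by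
  have h : ‖x + y + z‖ ≤ ‖x‖ + ‖y‖ + ‖z‖ := norm_add₃_le
  have h' : ‖x + y + z‖ ^ 2 ≤ (‖x‖ + ‖y‖ + ‖z‖) ^ 2 := by gcongr
  nlinarith [sq_nonneg (‖x‖ - ‖y‖), sq_nonneg (‖x‖ - ‖z‖), sq_nonneg (‖y‖ - ‖z‖)]

lemma scut_grad {W : E n → ℂ} (hW : ContDiff ℝ ∞ W) {θ : E n → ℝ} (hθ : ContDiff ℝ ∞ θ)
    (hc : HasCompactSupport θ) {κ : ℝ} (hκ : 0 < κ) :
    ∫⁻ x, ENNReal.ofReal (12 * (θ x ^ 2 * ‖fderiv ℝ W x‖ ^ 2)) ≤
      Q (fun x => 12 * (κ⁻¹ * θ x ^ 2)) (Δ W) +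
        Q (fun x => 12 * (κ * θ x ^ 2 + 4 * ‖fderiv ℝ θ x‖ ^ 2)) W := by
  have e1 : ∫⁻ x, ENNReal.ofReal (12 * (θ x ^ 2 * ‖fderiv ℝ W x‖ ^ 2)) =
      ENNReal.ofReal 12 * ENNReal.ofReal (∫ x, θ x ^ 2 * ‖fderiv ℝ W x‖ ^ 2) := by
    rw [ofReal_integral_eq_lintegral_ofReal (scut_int1 hW hθ hc)
      (Eventually.of_forall fun x => by positivity),
      ← lintegral_const_mul' _ _ ENNReal.ofReal_ne_top]
    exact lintegral_congr fun x => ENNReal.ofReal_mul (by norm_num)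
  rw [e1, Q_const_mul (c := 12) (by norm_num), Q_const_mul (c := 12) (by norm_num), ← mul_add,
    Q_eq_ofReal (fun x => by positivity) (scut_int2 hW hθ hc κ⁻¹),
    Q_eq_ofReal (fun x => by positivity) (scut_int3 hW hθ hc κ)]
  gcongr
  exact (ENNReal.ofReal_le_ofReal (cacc hW hθ hc hκ)).trans ENNReal.ofReal_add_le

theorem scut {a b : E n → ℝ} {V : Set (E n)} (hb : Measurable b) (hb0 : ∀ x, 0 ≤ b x)
    (hC : ∀ v, Tst v → tsupport v ⊆ V → Q a v ≤ Q b (Δ v)) {χ θ₁ θ₂ : E n → ℝ}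
    (hχ : ContDiff ℝ ∞ χ) (hχc : HasCompactSupport χ) (hχV : tsupport χ ⊆ V)
    (h₁ : ContDiff ℝ ∞ θ₁) (h₁c : HasCompactSupport θ₁) (h₂ : ContDiff ℝ ∞ θ₂)
    (h₂c : HasCompactSupport θ₂) (hθ : ∀ x, b x * ‖fderiv ℝ χ x‖ ^ 2 ≤ θ₁ x ^ 2 + θ₂ x ^ 2)
    {κ₁ κ₂ : ℝ} (hκ₁ : 0 < κ₁) (hκ₂ : 0 < κ₂) {W : E n → ℂ} (hW : ContDiff ℝ ∞ W) :
    Q (fun x => a x * χ x ^ 2) W ≤
      Q (fun x => 3 * (b x * χ x ^ 2) + 12 * (κ₁⁻¹ * θ₁ x ^ 2 + κ₂⁻¹ * θ₂ x ^ 2)) (Δ W) +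
      Q (fun x => 3 * (b x * Δ χ x ^ 2) + 12 * (κ₁ * θ₁ x ^ 2 + κ₂ * θ₂ x ^ 2) +
        48 * (‖fderiv ℝ θ₁ x‖ ^ 2 + ‖fderiv ℝ θ₂ x‖ ^ 2)) W := by
  have hχC : ContDiff ℝ ∞ fun y => (χ y : ℂ) := Complex.ofRealCLM.contDiff.comp hχ
  have hsub : tsupport (fun y => (χ y : ℂ) * W y) ⊆ tsupport χ := by
    refine closure_mono fun y hy h => hy ?_
    simp [h]
  have hv : Tst fun y => (χ y : ℂ) * W y :=
    ⟨hχC.mul hW, hχc.of_isClosed_subset (isClosed_tsupport _) hsub⟩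
  have e0 : Q (fun x => a x * χ x ^ 2) W = Q a fun y => (χ y : ℂ) * W y := by
    unfold Q
    refine lintegral_congr fun x => ?_
    rw [norm_mul, Complex.norm_real, mul_pow, Real.norm_eq_abs, sq_abs, mul_assoc]
  have mW : Measurable W := hW.continuous.measurable
  have mL : Measurable (Δ W) := (contDiff_lap hW).continuous.measurable
  have mχ : Measurable χ := hχ.continuous.measurable
  have mLχ : Measurable (Δ χ) := (contDiff_lap hχ).continuous.measurable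
  have m₁ : Measurable θ₁ := h₁.continuous.measurable
  have m₂ : Measurable θ₂ := h₂.continuous.measurable
  have md₁ : Measurable fun x => ‖fderiv ℝ θ₁ x‖ :=
    (h₁.continuous_fderiv (by simp)).norm.measurable
  have md₂ : Measurable fun x => ‖fderiv ℝ θ₂ x‖ :=
    (h₂.continuous_fderiv (by simp)).norm.measurable
  have mdW : Measurable fun x => ‖fderiv ℝ W x‖ :=
    (hW.continuous_fderiv (by simp)).norm.measurable
  have hpt : ∀ x, b x * ‖Δ (fun y => (χ y : ℂ) * W y) x‖ ^ 2 ≤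
      3 * (b x * χ x ^ 2) * ‖Δ W x‖ ^ 2 + 3 * (b x * Δ χ x ^ 2) * ‖W x‖ ^ 2 +
        (12 * (θ₁ x ^ 2 * ‖fderiv ℝ W x‖ ^ 2) + 12 * (θ₂ x ^ 2 * ‖fderiv ℝ W x‖ ^ 2)) := by
    intro x
    rw [lap_smul (hχ.contDiffAt.of_le scut_two) (hW.contDiffAt.of_le scut_two)]
    have h3 := scut_three ((χ x : ℂ) * Δ W x) (2 * fderiv ℝ W x (gradient χ x))
      (((Δ χ x : ℝ) : ℂ) * W x)
    have hg : ‖fderiv ℝ W x (gradient χ x)‖ ≤ ‖fderiv ℝ W x‖ * ‖fderiv ℝ χ x‖ := by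
      rw [← norm_gradient_eq]
      exact ContinuousLinearMap.le_opNorm _ _
    have hg2 : ‖fderiv ℝ W x (gradient χ x)‖ ^ 2 ≤ (‖fderiv ℝ W x‖ * ‖fderiv ℝ χ x‖) ^ 2 := by
      gcongr
    simp only [norm_mul, Complex.norm_real, mul_pow, Real.norm_eq_abs, sq_abs,
      Complex.norm_ofNat] at h3 hg2
    have h4 := mul_le_mul_of_nonneg_left h3 (hb0 x)
    have h5 := mul_le_mul_of_nonneg_left hg2 (hb0 x)
    have h6 := mul_le_mul_of_nonneg_left (hθ x) (sq_nonneg ‖fderiv ℝ W x‖)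
    nlinarith
  have hle : Q b (Δ fun y => (χ y : ℂ) * W y) ≤
      Q (fun x => 3 * (b x * χ x ^ 2)) (Δ W) + Q (fun x => 3 * (b x * Δ χ x ^ 2)) W +
        ((∫⁻ x, ENNReal.ofReal (12 * (θ₁ x ^ 2 * ‖fderiv ℝ W x‖ ^ 2))) +
          ∫⁻ x, ENNReal.ofReal (12 * (θ₂ x ^ 2 * ‖fderiv ℝ W x‖ ^ 2))) := by
    unfold Q
    rw [← lintegral_add_left (by fun_prop), ← lintegral_add_left (by fun_prop),
      ← lintegral_add_left (by fun_prop)]
    refine lintegral_mono fun x => (ENNReal.ofReal_le_ofReal (hpt x)).trans ?_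
    exact ENNReal.ofReal_add_le.trans (add_le_add ENNReal.ofReal_add_le ENNReal.ofReal_add_le)
  have e1 : Q (fun x => 3 * (b x * χ x ^ 2) + 12 * (κ₁⁻¹ * θ₁ x ^ 2 + κ₂⁻¹ * θ₂ x ^ 2)) (Δ W) =
      Q (fun x => 3 * (b x * χ x ^ 2)) (Δ W) + (Q (fun x => 12 * (κ₁⁻¹ * θ₁ x ^ 2)) (Δ W) +
        Q (fun x => 12 * (κ₂⁻¹ * θ₂ x ^ 2)) (Δ W)) := by
    rw [← Q_add_left (by fun_prop) mL (fun x => by positivity) (fun x => by positivity),
      ← Q_add_left (by fun_prop) mL (fun x => by have := hb0 x; positivity)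
        (fun x => by positivity)]
    congr 1
    funext x
    ring
  have e2 : Q (fun x => 3 * (b x * Δ χ x ^ 2) + 12 * (κ₁ * θ₁ x ^ 2 + κ₂ * θ₂ x ^ 2) +
        48 * (‖fderiv ℝ θ₁ x‖ ^ 2 + ‖fderiv ℝ θ₂ x‖ ^ 2)) W =
      Q (fun x => 3 * (b x * Δ χ x ^ 2)) W +
        (Q (fun x => 12 * (κ₁ * θ₁ x ^ 2 + 4 * ‖fderiv ℝ θ₁ x‖ ^ 2)) W +
          Q (fun x => 12 * (κ₂ * θ₂ x ^ 2 + 4 * ‖fderiv ℝ θ₂ x‖ ^ 2)) W) := by
    rw [← Q_add_left (by fun_prop) mW (fun x => by positivity) (fun x => by positivity),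
      ← Q_add_left (by fun_prop) mW (fun x => by have := hb0 x; positivity)
        (fun x => by positivity)]
    congr 1
    funext x
    ring
  rw [e0, e1, e2]
  refine (hC _ hv (hsub.trans hχV)).trans (hle.trans ?_)
  refine (add_le_add le_rfl (add_le_add (scut_grad hW h₁ h₁c hκ₁) (scut_grad hW h₂ h₂c hκ₂))).trans
    (le_of_eq ?_)
  ring

end Pool.Agent.MP_71da5e_an

end
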