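import Pool.Agent.Mg.F71da5ea.G8bae5f
import Pool.Agent.Mg.F71da5ea.G432663

section

namespace Pool.Agent.MP_71da5e_an.L

open MeasureTheory Metric Set Laplacian Complex Filter Topology
open scoped ContDiff RealInnerProductSpace ENNReal Real ComplexConjugate Manifold

namespace Ac

variable {n : ℕ}

/-- `sg` as a real linear map. -/
noncomputable def sgL (e : E n) : (ℂ × V n) →ₗ[ℝ] X n where
  toFun := sg e
  map_add' W W' := by
    unfold sg reV imV X1 X2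
    refine Prod.ext (Prod.ext ?_ ?_) (Prod.ext ?_ ?_)
    · simp
    · ext k; simp
    · ext k; simp; ring
    · ext k; simp; ring
  map_smul' c W := by
    unfold sg reV imV X1 X2
    refine Prod.ext (Prod.ext ?_ ?_) (Prod.ext ?_ ?_)
    · simp
    · ext k; simp
    · ext k; simp; ring
    · ext k; simp; ring

/-- `zz` as a real linear map. -/
noncomputable def zzL (e : E n) : X n →ₗ[ℝ] V n × V n where
  toFun := zz e
  map_add' x y := by
    unfold zz z1 z2 zc a1 a2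
    refine Prod.ext ?_ ?_ <;> (funext k; simp; ring)
  map_smul' c x := by
    unfold zz z1 z2 zc a1 a2
    refine Prod.ext ?_ ?_ <;> (funext k; simp; ring)

lemma zz_sg (e : E n) (W : ℂ × V n) : zz e (sg e W) = (X1 e W, X2 e W) := by
  unfold zz z1 z2 zc a1 a2 sg reV imV X1 X2
  refine Prod.ext ?_ ?_ <;> (funext k; apply Complex.ext <;> simp <;> ring)

lemma zz_sg_I (e : E n) (W : ℂ × V n) : zz e (sg e (I • W)) = I • zz e (sg e W) := by
  rw [zz_sg, zz_sg]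
  unfold X1 X2
  refine Prod.ext ?_ ?_ <;> (funext k; simp; ring)

lemma hol_comp (e : E n) {g : V n × V n → ℂ} (hg : ContDiff ℂ ∞ g) :
    ContDiff ℝ ∞ (fun x : X n => g (zz e x)) ∧
      ∀ (W : ℂ × V n) (x : X n), cd (sg e W) (sg e (I • W)) I (fun x : X n => g (zz e x)) x = 0 := by
  let Z : X n →L[ℝ] V n × V n := LinearMap.toContinuousLinearMap (zzL e)
  have hZ : ∀ x, Z x = zz e x := fun _ => rfl
  refine ⟨(hg.restrict_scalars ℝ).comp Z.contDiff, fun W x => ?_⟩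
  have h1 : HasFDerivAt (fun x : X n => g (zz e x))
      (((fderiv ℂ g (zz e x)).restrictScalars ℝ).comp Z) x :=
    (((hg.differentiable (by simp)) (zz e x)).hasFDerivAt.restrictScalars ℝ).comp x Z.hasFDerivAt
  unfold cd
  rw [h1.fderiv]
  simp only [ContinuousLinearMap.comp_apply, ContinuousLinearMap.coe_restrictScalars', hZ, zz_sg_I,
    map_smul, smul_eq_mul]
  linear_combination (fderiv ℂ g (zz e x) (zz e (sg e W))) * I_mul_I

lemma real_smul_eq (c : ℂ) (y : ℂ × V n) : c • y = c.re • y + c.im • (I • y) := by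
  conv_lhs => rw [← re_add_im c]
  rw [add_smul, mul_smul, Complex.coe_smul, Complex.coe_smul]

lemma ext_smooth {m : B n → ℝ} {D K : Set (B n)} (hD : IsOpen D) (hm : ContDiffOn ℝ ∞ m D)
    (hK : IsClosed K) (hKD : K ⊆ D) :
    ∃ m' : B n → ℝ, ContDiff ℝ ∞ m' ∧ ∀ p ∈ K, m' =ᶠ[𝓝 p] m := by
  obtain ⟨f, h0, h1, -⟩ := exists_contMDiffMap_zero_one_nhds_of_isClosed (n := ⊤) 𝓘(ℝ, B n)
    hD.isClosed_compl hK (Set.disjoint_left.mpr fun x hx hx' => hx (hKD hx'))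
  have hf : ContDiff ℝ ∞ (f : B n → ℝ) := f.contMDiff.contDiff
  refine ⟨fun p => f p * m p, contDiff_iff_contDiffAt.mpr fun p => ?_, fun p hp => ?_⟩
  · by_cases hp : p ∈ D
    · exact hf.contDiffAt.mul (hm.contDiffAt (hD.mem_nhds hp))
    · have : ∀ᶠ q in 𝓝 p, f q = 0 := h0.filter_mono (nhds_le_nhdsSet hp)
      refine (contDiffAt_const (c := (0 : ℝ))).congr_of_eventuallyEq ?_
      filter_upwards [this] with q hq
      simp [hq]
  · have : ∀ᶠ q in 𝓝 p, f q = 1 := h1.filter_mono (nhds_le_nhdsSet hp)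
    filter_upwards [this] with q hq
    simp [hq]

lemma D2_congr {m m' : B n → ℝ} {p : B n} (h : m' =ᶠ[𝓝 p] m) (u : B n) :
    D2 m' p u = D2 m p u := by
  unfold D2
  have : (fun q => fderiv ℝ m' q u) =ᶠ[𝓝 p] fun q => fderiv ℝ m q u := by
    filter_upwards [h.fderiv (𝕜 := ℝ)] with q hq
    rw [hq]
  rw [this.fderiv_eq]

lemma D2_neg (m : B n → ℝ) (p u : B n) : D2 m p (-u) = D2 m p u := by
  unfold D2
  simp only [map_neg, fderiv_fun_neg, neg_apply, neg_neg]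

lemma dd_base {m : B n → ℝ} (hm : Differentiable ℝ m) (x y : X n) :
    fderiv ℝ (fun x : X n => (m x.1 : ℂ)) x y = (fderiv ℝ m x.1 y.1 : ℂ) := by
  have h1 : HasFDerivAt (fun x : X n => (m x.1 : ℂ))
      (ofRealCLM.comp ((fderiv ℝ m x.1).comp (ContinuousLinearMap.fst ℝ _ _))) x :=
    ofRealCLM.hasFDerivAt.comp x ((hm x.1).hasFDerivAt.comp x hasFDerivAt_fst)
  rw [h1.fderiv]
  rfl

lemma D2_base {m : B n → ℝ} (hm : ContDiff ℝ ∞ m) (x y : X n) :
    fderiv ℝ (fun z => fderiv ℝ (fun x : X n => (m x.1 : ℂ)) z y) x y = (D2 m x.1 y.1 : ℂ) := by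
  simp only [dd_base (hm.differentiable (by simp))]
  exact dd_base (m := fun q => fderiv ℝ m q y.1)
    (((hm.fderiv_right (m := ∞) (by simp)).clm_apply contDiff_const).differentiable (by simp)) x y

lemma ac_global (e : E n) (W : V n × V n → ℂ × V n) (hW : ContDiff ℂ ∞ W) (m : B n → ℝ)
    (hm : ContDiff ℝ ∞ m) (v : X n → ℂ) (hv : ContDiff ℝ 1 v) (hc : HasCompactSupport v) :
    Integrable (fun x : X n => -2 * lev m x.1 (W (zz e x)) * Real.exp (-2 * m x.1) * ‖v x‖ ^ 2) ∧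
    Integrable (fun x : X n => Real.exp (-2 * m x.1) * ‖dbar e v x (W (zz e x))‖ ^ 2) ∧
    ∫ x : X n, -2 * lev m x.1 (W (zz e x)) * Real.exp (-2 * m x.1) * ‖v x‖ ^ 2 ≤
      ∫ x : X n, Real.exp (-2 * m x.1) * ‖dbar e v x (W (zz e x))‖ ^ 2 := by
  let bs := Module.finBasis ℂ (ℂ × V n)
  let u := fun k => sg e (bs k)
  let w := fun k => sg e (I • bs k)
  let a := fun k (x : X n) => bs.repr (W (zz e x)) k
  have hs : ∀ k, ContDiff ℂ ∞ (fun ζ => bs.repr (W ζ) k) := fun k =>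
    (LinearMap.toContinuousLinearMap (bs.coord k)).contDiff.comp hW
  have hol : Hol u w a :=
    ⟨fun k => (hol_comp e (hs k)).1, fun j k x => (hol_comp e (hs k)).2 (bs j) x⟩
  have hA : ∀ y : ℂ × V n, fA u w (fun k => bs.repr y k) = sg e y := by
    intro y
    have : sgL e y = sgL e (∑ k, bs.repr y k • bs k) := by rw [bs.sum_repr]
    rw [map_sum] at this
    refine Eq.trans ?_ this.symm
    refine Finset.sum_congr rfl fun k _ => ?_
    rw [real_smul_eq, map_add, map_smul, map_smul]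
    rfl
  have hB : ∀ y : ℂ × V n, fB u w (fun k => bs.repr y k) = sg e (I • y) := by
    intro y
    rw [← hA]
    unfold fA fB
    refine Finset.sum_congr rfl fun k _ => ?_
    simp
  have hLB : ∀ (g : X n → ℂ) x, LB u w a g x = dbar e g x (W (zz e x)) := by
    intro g x
    unfold LB
    rw [Op_bar, hA, hB]
    rfl
  have hM : ContDiff ℝ ∞ (fun x : X n => m x.1) := hm.comp contDiff_fst
  have hMc : ContDiff ℝ ∞ (fun x : X n => (m x.1 : ℂ)) := ofRealCLM.contDiff.comp hM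
  have hB1 : (volume : Measure (B n)).IsAddHaarMeasure := Measure.prod.instIsAddHaarMeasure _ _
  have hB2 : (volume : Measure (E n × E n)).IsAddHaarMeasure :=
    Measure.prod.instIsAddHaarMeasure _ _
  have hB3 : (volume : Measure (X n)).IsAddHaarMeasure := Measure.prod.instIsAddHaarMeasure _ _
  have := carleman (μ := (volume : Measure (X n))) hol hM hv hc
    (fun x => lev m x.1 (W (zz e x))) (fun x => by
      unfold LB
      rw [Op_lev hol hMc, hA, hB]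
      have e1 := D2_base hm x (sg e (W (zz e x)))
      have e2 := D2_base hm x (sg e (I • W (zz e x)))
      have e3 : (sg e (I • W (zz e x))).1 = -((W (zz e x)).1.im, imV (W (zz e x)).2) := by
        unfold sg reV imV
        refine Prod.ext ?_ ?_
        · simp
        · ext k; simp
      rw [e3, D2_neg] at e2
      refine (congrArg₂ (· + ·) e1 e2).trans ?_
      unfold lev
      push_cast
      rfl)
  simpa only [hLB] using this

end Ac

theorem acStmt (n : ℕ) : AcStmt n := by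
  intro e W hW m D hD hm v hv hc hs
  have hK : IsCompact (Prod.fst '' tsupport v) := hc.isCompact.image continuous_fst
  obtain ⟨m', h1, h2⟩ := Ac.ext_smooth hD hm hK.isClosed (by
    rintro _ ⟨x, hx, rfl⟩; exact hs x hx)
  have e1 : (fun x : X n => -2 * lev m x.1 (W (zz e x)) * Real.exp (-2 * m x.1) * ‖v x‖ ^ 2) =
      fun x : X n => -2 * lev m' x.1 (W (zz e x)) * Real.exp (-2 * m' x.1) * ‖v x‖ ^ 2 := by
    funext x
    by_cases hx : x ∈ tsupport v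
    · have h := h2 x.1 ⟨x, hx, rfl⟩
      unfold lev
      rw [Ac.D2_congr h, Ac.D2_congr h, h.self_of_nhds]
    · simp [image_eq_zero_of_notMem_tsupport hx]
  have e2 : (fun x : X n => Real.exp (-2 * m x.1) * ‖dbar e v x (W (zz e x))‖ ^ 2) =
      fun x : X n => Real.exp (-2 * m' x.1) * ‖dbar e v x (W (zz e x))‖ ^ 2 := by
    funext x
    by_cases hx : x ∈ tsupport v
    · rw [(h2 x.1 ⟨x, hx, rfl⟩).self_of_nhds]
    · have : fderiv ℝ v x = 0 := by
        by_contra h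
        exact hx (support_fderiv_subset ℝ (Function.mem_support.mpr h))
      simp [dbar, this]
  rw [e1, e2]
  exact Ac.ac_global e W hW m' h1 v hv hc

end Pool.Agent.MP_71da5e_an.L

end

section

namespace Pool.Agent.MP_71da5e_an.L

open MeasureTheory Metric Set Laplacian Complex
open scoped ContDiff RealInnerProductSpace ENNReal Real ComplexConjugate

variable {n : ℕ}

theorem le_of_sq_le_sq_Bad {a b : ℝ} (h : a ^ 2 ≤ b ^ 2) (hb : 0 ≤ b) : a ≤ b :=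
  (abs_le_of_sq_le_sq' h hb).2

theorem hb_nonneg_Bad {t : ℝ} (ht : 0 ≤ t) : 0 ≤ hb t := by
  unfold hb
  apply Real.log_nonneg
  rw [Real.le_log_iff_exp_le (by have := Real.exp_pos 1; have := inv_nonneg.mpr ht; linarith)]
  have := inv_nonneg.mpr ht
  linarith

theorem hb_anti_Bad {t u : ℝ} (ht : 0 < t) (h : t ≤ u) : hb u ≤ hb t := by
  unfold hb
  have hu : 0 < u := ht.trans_le h
  have h1 : u⁻¹ ≤ t⁻¹ := inv_anti₀ ht h
  have h2 : 0 < u⁻¹ := inv_pos.mpr hu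
  have he := Real.exp_pos 1
  have h3 : 1 ≤ Real.log (Real.exp 1 + u⁻¹) := by
    rw [Real.le_log_iff_exp_le (by linarith)]
    linarith
  apply Real.log_le_log (by linarith)
  exact Real.log_le_log (by linarith) (by linarith)

theorem sq_le_R2_Bad (p : B n) : p.1 ^ 2 ≤ R2 p := by
  unfold R2
  have := sq_nonneg ‖p.2‖
  linarith

theorem le_sqrt_R2_Bad (p : B n) : p.1 ≤ √(R2 p) :=
  Real.le_sqrt_of_sq_le (sq_le_R2_Bad p)

/-- Lower bound for the weight. -/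
theorem mA_ge_Bad (e : E n) {K η κ x₀ ε : ℝ} (P : Par K η κ x₀) (hε : 0 ≤ ε) (p : B n)
    (hs : 1 ≤ p.1) :
    π * p.1 - π * p.1 / 20 + (κ * (p.1 * hb (‖a1 e p‖ ^ 2 / p.1 ^ 2)) +
      κ * (p.1 * hb (‖a2 e p‖ ^ 2 / p.1 ^ 2)) + ε * (p.1 * Real.log (R2 p / p.1))) ≤
      mA e K η κ ε p := by
  unfold mA
  have hs0 : 0 < p.1 := by linarith
  have h1 : p.1 / √(R2 p) ≤ 1 := by
    rw [div_le_one (hs0.trans_le (le_sqrt_R2_Bad p))]
    exact le_sqrt_R2_Bad p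
  have h2 : Real.exp (K * (p.1 / √(R2 p))) ≤ Real.exp K := by
    apply Real.exp_le_exp.mpr
    have := mul_le_mul_of_nonneg_left h1 P.K_nonneg
    linarith
  have h3 : η * Real.exp (K * (p.1 / √(R2 p))) ≤ π / 20 :=
    (mul_le_mul_of_nonneg_left h2 P.η_pos.le).trans P.η_le
  have h4 := mul_le_mul_of_nonneg_left h3 hs0.le
  nlinarith

theorem Ob_of_Sp_Bad (e : E n) {a₀ x₀ s₀ R₀ : ℝ} (ha : 4 ≤ a₀) (hs : 1 ≤ s₀) (hx : 0 < x₀)
    (hax : a₀ < x₀ * s₀) {p : B n} (hp : p ∈ Sp e s₀ x₀ R₀) : p ∈ Ob e a₀ := by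
  obtain ⟨⟨h1, -, h3, h4⟩, -⟩ := hp
  have h5 : a₀ < x₀ * p.1 := hax.trans_le (mul_le_mul_of_nonneg_left h1 hx.le)
  have h6 : a₀ ^ 2 < x₀ ^ 2 * p.1 ^ 2 := by
    rw [← mul_pow]
    exact pow_lt_pow_left₀ h5 (by linarith) two_ne_zero
  exact ⟨lt_of_pow_lt_pow_left₀ 2 (norm_nonneg _) (h6.trans_le h3),
    lt_of_pow_lt_pow_left₀ 2 (norm_nonneg _) (h6.trans_le h4)⟩

/-- The pointwise bound on the bad set. -/
theorem pt_Bad (e : E n) (f : E n → ℂ) {C a₀ K η κ x₀ s₀ ε R₀ lam : ℝ} (hC : 0 ≤ C) (ha : 4 ≤ a₀)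
    (P : Par K η κ x₀) (hs : 1 ≤ s₀) (hax : a₀ < x₀ * s₀) (hε : 0 ≤ ε) (hR : 1 ≤ R₀)
    (hεR : π / 20 ≤ ε * Real.log R₀) (hl : lam ≤ Real.exp (-(8 * π * R₀)))
    {F : X n → ℂ} (hF : FamA e f C a₀ lam F) (x : X n) (hx : x.1 ∈ Bad e s₀ x₀ R₀)
    (h1 : ‖p1 e x‖ ≤ lam) (h2 : ‖p2 e x‖ ≤ lam) :
    ‖F x‖ ≤ 2 * C * Real.exp (π * s₀) * Real.exp (mA e K η κ ε x.1) := by
  obtain ⟨hSp, hcase⟩ := hx
  have hOb := Ob_of_Sp_Bad e ha hs P.x_pos hax hSp
  have hs1 : 1 ≤ x.1.1 := hs.trans hSp.1.1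
  have hs0 : 0 < x.1.1 := by linarith
  have hm := mA_ge_Bad e P hε x.1 hs1
  have hpi := Real.pi_pos
  have hk1 : 0 ≤ κ * (x.1.1 * hb (‖a1 e x.1‖ ^ 2 / x.1.1 ^ 2)) :=
    mul_nonneg P.κ_nonneg (mul_nonneg hs0.le (hb_nonneg_Bad (by positivity)))
  have hk2 : 0 ≤ κ * (x.1.1 * hb (‖a2 e x.1‖ ^ 2 / x.1.1 ^ 2)) :=
    mul_nonneg P.κ_nonneg (mul_nonneg hs0.le (hb_nonneg_Bad (by positivity)))
  have hq := sq_le_R2_Bad x.1
  have hk3 : 0 ≤ ε * (x.1.1 * Real.log (R2 x.1 / x.1.1)) := by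
    refine mul_nonneg hε (mul_nonneg hs0.le (Real.log_nonneg ?_))
    rw [le_div_iff₀ hs0]
    nlinarith
  have hps : 0 < π * x.1.1 := mul_pos hpi hs0
  have hps0 : 0 < π * s₀ := mul_pos hpi (by linarith)
  have hgen : π * x.1.1 ≤ π * s₀ + mA e K η κ ε x.1 →
      ‖F x‖ ≤ 2 * C * Real.exp (π * s₀) * Real.exp (mA e K η κ ε x.1) := by
    intro h
    refine (hF.bdd x hOb hs0.le).trans ?_
    rw [mul_assoc (2 * C), ← Real.exp_add]
    have h3 := Real.exp_le_exp.mpr h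
    have h4 := Real.exp_pos (π * x.1.1)
    nlinarith
  have htip : ∀ a : E n, a₀ < ‖a‖ → ‖a‖ ^ 2 ≤ 2 * x₀ ^ 2 * x.1.1 ^ 2 →
      π * x.1.1 / 20 ≤ κ * (x.1.1 * hb (‖a‖ ^ 2 / x.1.1 ^ 2)) := by
    intro a ha1 ha2
    have ha0 : 0 < ‖a‖ := by linarith
    have h3 : hb (2 * x₀ ^ 2) ≤ hb (‖a‖ ^ 2 / x.1.1 ^ 2) :=
      hb_anti_Bad (by positivity) (by rwa [div_le_iff₀ (by positivity)])
    have h4 := P.bar.trans (mul_le_mul_of_nonneg_left h3 P.κ_nonneg)
    have h5 := mul_le_mul_of_nonneg_left h4 hs0.le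
    nlinarith
  rcases hcase with h | h | h | h | h
  · apply hgen
    have := mul_le_mul_of_nonneg_left h hpi.le
    nlinarith
  · have h3 : ‖x.1.2‖ ≤ x.1.1 / 40 := by
      apply le_of_sq_le_sq_Bad _ (by positivity)
      calc ‖x.1.2‖ ^ 2 ≤ x.1.1 ^ 2 / 1600 := h
        _ = (x.1.1 / 40) ^ 2 := by ring
    refine (hF.small x hOb hs0.le h3 h1 h2).trans ?_
    have h4 : x.1.1 ≤ 2 * R₀ := by
      apply le_of_sq_le_sq_Bad _ (by positivity)
      have := hSp.2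
      nlinarith
    have h5 : lam * Real.exp (4 * π * x.1.1) ≤ 1 := by
      refine (mul_le_mul_of_nonneg_right hl (Real.exp_pos _).le).trans ?_
      rw [← Real.exp_add, Real.exp_le_one_iff]
      have := mul_le_mul_of_nonneg_left h4 hpi.le
      nlinarith
    have h6 : Real.exp (π * x.1.1 - π * x.1.1 / 20) ≤ Real.exp (π * s₀ + mA e K η κ ε x.1) :=
      Real.exp_le_exp.mpr (by linarith)
    have h7 : 1 ≤ Real.exp (π * s₀ + mA e K η κ ε x.1) := Real.one_le_exp (by linarith)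
    rw [mul_assoc (2 * C), ← Real.exp_add, mul_assoc C]
    have h8 := mul_le_mul_of_nonneg_left h6 hC
    have h9 := mul_le_mul_of_nonneg_left (h5.trans h7) hC
    linarith
  · apply hgen
    have := htip _ hOb.1 h
    linarith
  · apply hgen
    have := htip _ hOb.2 h
    linarith
  · apply hgen
    have h3 : R₀ ≤ R2 x.1 / x.1.1 := by
      rw [le_div_iff₀ hs0]
      apply le_of_sq_le_sq_Bad _ (by nlinarith)
      rw [mul_pow, sq (R2 x.1)]
      exact mul_le_mul h hq (sq_nonneg _) (by nlinarith)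
    have h4 : Real.log R₀ ≤ Real.log (R2 x.1 / x.1.1) := Real.log_le_log (by linarith) h3
    have h5 := hεR.trans (mul_le_mul_of_nonneg_left h4 hε)
    have h6 := mul_le_mul_of_nonneg_left h5 hs0.le
    nlinarith

theorem cont_a1_Bad (e : E n) : Continuous (a1 e) := by
  unfold a1
  fun_prop

theorem cont_a2_Bad (e : E n) : Continuous (a2 e) := by
  unfold a2
  fun_prop

theorem cont_R2_Bad : Continuous (R2 : B n → ℝ) := by
  unfold R2
  fun_prop

theorem closed_Bad (e : E n) (s₀ x₀ R₀ : ℝ) : IsClosed (Bad e s₀ x₀ R₀) := by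
  have h1 := cont_a1_Bad e
  have h2 := cont_a2_Bad e
  have h3 : Continuous (R2 : B n → ℝ) := cont_R2_Bad
  have c : ∀ f g : B n → ℝ, Continuous f → Continuous g → IsClosed {p | f p ≤ g p} :=
    fun f g hf hg => isClosed_le hf hg
  simp only [Bad, Sp, Gd, mem_setOf_eq, setOf_and, setOf_or]
  refine IsClosed.inter (IsClosed.inter (IsClosed.inter (c _ _ ?_ ?_) (IsClosed.inter
    (c _ _ ?_ ?_) (IsClosed.inter (c _ _ ?_ ?_) (c _ _ ?_ ?_))))
    (c _ _ ?_ ?_)) (IsClosed.union (c _ _ ?_ ?_) (IsClosed.union (c _ _ ?_ ?_)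
      (IsClosed.union (c _ _ ?_ ?_) (IsClosed.union (c _ _ ?_ ?_)
        (c _ _ ?_ ?_))))) <;> fun_prop

theorem mul_le_R2_Bad (e : E n) (he : ‖e‖ = 1) (p : B n) : ‖a1 e p‖ * ‖a2 e p‖ ≤ R2 p := by
  have h := parallelogram_law_with_norm ℝ ((p.1 / 2) • e) p.2
  have h1 : ‖(p.1 / 2) • e‖ * ‖(p.1 / 2) • e‖ = p.1 ^ 2 / 4 := by
    rw [norm_smul, he, mul_one, Real.norm_eq_abs, abs_mul_abs_self]
    ring
  unfold a1 a2 R2
  nlinarith [sq_nonneg (‖(p.1 / 2) • e + p.2‖ - ‖(p.1 / 2) • e - p.2‖), sq_nonneg p.1]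

theorem one_add_sq_le_Bad (p : B n) (h : 1 ≤ R2 p) : (1 + ‖p‖) ^ 2 ≤ 4 * R2 p := by
  have h1 : ‖p‖ ^ 2 ≤ R2 p := by
    unfold R2
    rw [Prod.norm_def]
    rcases le_total ‖p.1‖ ‖p.2‖ with h | h
    · rw [max_eq_right h]
      nlinarith [sq_nonneg p.1]
    · rw [max_eq_left h, Real.norm_eq_abs, sq_abs]
      nlinarith [sq_nonneg ‖p.2‖]
  nlinarith [sq_nonneg (1 - ‖p‖)]

theorem fib_Bad (A : Api n) {Cu : ℝ}
    (hU : ∀ a : E n, 4 ≤ ‖a‖ → ∀ k : ℂ → ℝ≥0∞, Measurable k → (∀ p, ‖a‖ < ‖p‖ → k p = 0) →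
      (∀ η₀, ∫⁻ η, k (pz a η) * gs η₀ η ≤ ENNReal.ofReal (Cu / ‖a‖ ^ 2) * ∫⁻ p, k p) ∧
        ∫⁻ η, k (pz a η) ≤ ENNReal.ofReal (Cu * ‖a‖ ^ n) * ∫⁻ p, k p)
    (hCu : 0 ≤ Cu) {lam tau : ℝ} (hl : lam ≤ 1) (ρ : Reg lam tau) (a : E n) (ha : 4 ≤ ‖a‖) :
    Measurable (fun η => ENNReal.ofReal (ρ.ph (pz a η))) ∧
      ∫⁻ η, ENNReal.ofReal (ρ.ph (pz a η)) ≤ ENNReal.ofReal (Cu * ‖a‖ ^ n * π) := by
  have hk : Measurable fun p => ENNReal.ofReal (ρ.ph p) := by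
    have := ρ.γ_smooth.continuous
    refine ENNReal.measurable_ofReal.comp (Continuous.measurable ?_)
    unfold Reg.ph
    fun_prop
  have hp : Continuous fun η : E n => pz a η :=
    A.smooth_pz.continuous.comp (Continuous.prodMk_right a)
  refine ⟨hk.comp hp.measurable, ?_⟩
  have h := (hU a ha _ hk fun p hp => by
    unfold Reg.ph
    rw [ρ.γ_zero p (by linarith)]
    simp).2
  rw [ENNReal.ofReal_mul (by positivity), ← ρ.mass]
  exact h

theorem badStmt {n : ℕ} (A : Api n) (Up : CaUp n) : BadStmt n := by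
  intro e he f C a₀ K η κ x₀ s₀ hC ha P hs hax
  obtain ⟨Cu, hCu, hU⟩ := Up
  set D : ℝ := 2 * C * Real.exp (π * s₀) with hD
  have hD0 : 0 ≤ D := by positivity
  set Q : ℝ := D ^ 2 * (Cu * π) ^ 2 * 4 ^ (n + 2) with hQ
  have hQ0 : 0 ≤ Q := by positivity
  have hfin : ∫⁻ p : B n, ENNReal.ofReal ((1 + ‖p‖) ^ (-((2 * n + 4 : ℕ) : ℝ))) < ⊤ := by
    haveI : (volume : Measure (B n)).IsAddHaarMeasure :=
      Measure.prod.instIsAddHaarMeasure (volume : Measure ℝ) (volume : Measure (E n))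
    apply finite_integral_one_add_norm
    rw [Module.finrank_prod, Module.finrank_self, finrank_euclideanSpace_fin]
    exact_mod_cast (by omega : 1 + n < 2 * n + 4)
  set J := ∫⁻ p : B n, ENNReal.ofReal ((1 + ‖p‖) ^ (-((2 * n + 4 : ℕ) : ℝ))) with hJ
  refine ⟨(ENNReal.ofReal Q * J).toReal, fun ε R₀ hε hR hεR =>
    ⟨Real.exp (-(8 * π * R₀)), Real.exp_pos _, fun lam tau hl0 hl hl1 ρ F hF => ?_⟩⟩
  rw [ENNReal.ofReal_toReal (ENNReal.mul_ne_top ENNReal.ofReal_ne_top hfin.ne)]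
  have hS : MeasurableSet {x : X n | x.1 ∈ Bad e s₀ x₀ R₀} :=
    ((closed_Bad e s₀ x₀ R₀).preimage continuous_fst).measurableSet
  rw [← lintegral_indicator hS, Measure.volume_eq_prod]
  refine (lintegral_prod_le _).trans ?_
  rw [hJ, ← lintegral_const_mul' _ _ ENNReal.ofReal_ne_top]
  refine lintegral_mono fun p => ?_
  by_cases hp : p ∈ Bad e s₀ x₀ R₀
  swap
  · have : ∀ b : E n × E n, (p, b) ∉ {x : X n | x.1 ∈ Bad e s₀ x₀ R₀} := fun b => hp
    simp only [indicator_of_notMem (this _), lintegral_zero, zero_le]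
  have hOb := Ob_of_Sp_Bad e ha hs P.x_pos hax hp.1
  have hs1 : 1 ≤ p.1 := hs.trans hp.1.1.1
  have hR1 : 1 ≤ R2 p := by
    have := sq_le_R2_Bad p
    nlinarith
  have hR0 : 0 < R2 p := by linarith
  obtain ⟨hm1, hf1⟩ := fib_Bad A hU hCu hl1 ρ (a1 e p) (ha.trans hOb.1.le)
  obtain ⟨hm2, hf2⟩ := fib_Bad A hU hCu hl1 ρ (a2 e p) (ha.trans hOb.2.le)
  have hpt : ∀ b : E n × E n, indicator {x : X n | x.1 ∈ Bad e s₀ x₀ R₀}
      (fun x => ENNReal.ofReal (Real.exp (-2 * mm e K η κ ε (n + 2) 0 x.1) * R2 x.1 ^ 2 *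
        pp ρ e x * ‖F x‖ ^ 2)) (p, b) ≤
      ENNReal.ofReal (D ^ 2 / R2 p ^ (2 * n + 2)) *
        (ENNReal.ofReal (ρ.ph (pz (a1 e p) b.1)) * ENNReal.ofReal (ρ.ph (pz (a2 e p) b.2))) := by
    intro b
    have hmem : (p, b) ∈ {x : X n | x.1 ∈ Bad e s₀ x₀ R₀} := hp
    have hph : ∀ z, 0 ≤ ρ.ph z := fun z => sq_nonneg _
    rw [indicator_of_mem hmem, ← ENNReal.ofReal_mul (hph _), ← ENNReal.ofReal_mul (by positivity)]
    apply ENNReal.ofReal_le_ofReal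
    change _ ≤ _ * pp ρ e (p, b)
    have hpp : 0 ≤ pp ρ e (p, b) := mul_nonneg (hph _) (hph _)
    rcases hpp.eq_or_lt with h0 | h0
    · rw [← h0]
      simp
    have hle : ∀ z, ρ.ph z ≠ 0 → ‖z‖ ≤ lam := fun z hz => by
      by_contra hc
      apply hz
      unfold Reg.ph
      rw [ρ.γ_zero z (not_le.mp hc)]
      simp
    have h1 := hle _ (left_ne_zero_of_mul h0.ne')
    have h2 := hle _ (right_ne_zero_of_mul h0.ne')
    have h3 := pt_Bad e f hC ha P hs hax hε hR hεR hl hF (p, b) hp h1 h2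
    rw [← hD] at h3
    have h4 : ‖F (p, b)‖ ^ 2 ≤ (D * Real.exp (mA e K η κ ε p)) ^ 2 :=
      pow_le_pow_left₀ (norm_nonneg _) h3 2
    have h5 : Real.exp (-2 * mm e K η κ ε (n + 2) 0 p) * R2 p ^ 2 *
        (D * Real.exp (mA e K η κ ε p)) ^ 2 = D ^ 2 / R2 p ^ (2 * n + 2) := by
      have h6 : Real.exp (-2 * mm e K η κ ε (n + 2) 0 p) * Real.exp (mA e K η κ ε p) ^ 2 *
          R2 p ^ (2 * n + 4) = 1 := by
        rw [← Real.exp_log hR0, ← Real.exp_nat_mul, ← Real.exp_nat_mul, ← Real.exp_add,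
          ← Real.exp_add, Real.exp_eq_one_iff]
        unfold mm
        push_cast
        ring
      rw [eq_div_iff (by positivity)]
      calc _ = D ^ 2 * (Real.exp (-2 * mm e K η κ ε (n + 2) 0 p) * Real.exp (mA e K η κ ε p) ^ 2 *
          R2 p ^ (2 * n + 4)) := by ring
        _ = D ^ 2 := by rw [h6, mul_one]
    rw [← h5]
    have h7 : 0 ≤ Real.exp (-2 * mm e K η κ ε (n + 2) 0 p) * R2 p ^ 2 * pp ρ e (p, b) := by
      positivity
    calc _ ≤ Real.exp (-2 * mm e K η κ ε (n + 2) 0 p) * R2 p ^ 2 * pp ρ e (p, b) *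
          (D * Real.exp (mA e K η κ ε p)) ^ 2 := mul_le_mul_of_nonneg_left h4 h7
      _ = _ := by ring
  refine (lintegral_mono hpt).trans ?_
  rw [lintegral_const_mul' _ _ ENNReal.ofReal_ne_top, Measure.volume_eq_prod,
    lintegral_prod_mul hm1.aemeasurable hm2.aemeasurable]
  refine (mul_le_mul_right (mul_le_mul' hf1 hf2) _).trans ?_
  rw [← ENNReal.ofReal_mul (by positivity), ← ENNReal.ofReal_mul (by positivity),
    ← ENNReal.ofReal_mul hQ0]
  apply ENNReal.ofReal_le_ofReal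
  rw [Real.rpow_neg (by positivity), Real.rpow_natCast, ← div_eq_mul_inv,
    le_div_iff₀ (by positivity), div_mul_eq_mul_div, div_mul_eq_mul_div,
    div_le_iff₀ (by positivity)]
  have h1 : (‖a1 e p‖ * ‖a2 e p‖) ^ n ≤ R2 p ^ n :=
    pow_le_pow_left₀ (by positivity) (mul_le_R2_Bad e he p) n
  have h2 : ((1 + ‖p‖) ^ 2) ^ (n + 2) ≤ (4 * R2 p) ^ (n + 2) :=
    pow_le_pow_left₀ (by positivity) (one_add_sq_le_Bad p hR1) _
  have h3 := mul_le_mul h1 h2 (by positivity) (by positivity)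
  have h4 : 0 ≤ D ^ 2 * (Cu * π) ^ 2 := by positivity
  generalize 1 + ‖p‖ = t at h3 ⊢
  calc _ = D ^ 2 * (Cu * π) ^ 2 * ((‖a1 e p‖ * ‖a2 e p‖) ^ n * (t ^ 2) ^ (n + 2)) := by ring
    _ ≤ D ^ 2 * (Cu * π) ^ 2 * (R2 p ^ n * (4 * R2 p) ^ (n + 2)) := mul_le_mul_of_nonneg_left h3 h4
    _ = _ := by rw [hQ]; ring

end Pool.Agent.MP_71da5e_an.L

end

section

/-! From exponential decay of the Laplace transform to vanishing near the boundary point. -/

namespace Pool.Agent.MP_71da5e_an.L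

open MeasureTheory Metric Set Complex Filter Topology Asymptotics FourierTransform
open scoped ContDiff RealInnerProductSpace ENNReal Real ComplexConjugate SchwartzMap

namespace Fn

section Key

variable {α : Type*} [MeasurableSpace α] {μ : Measure α} {g : α → ℂ} {l : α → ℝ} {R : ℝ}

omit [MeasurableSpace α] in
theorem nrm (g : α → ℂ) (l : α → ℝ) (w : ℂ) (x : α) :
    ‖g x * cexp (w * l x)‖ = ‖g x‖ * Real.exp (w.re * l x) := by
  rw [norm_mul, Complex.norm_exp]; simp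

omit [MeasurableSpace α] in
theorem pt_le {x : α} {w : ℂ} {T : ℝ} (h : g x ≠ 0 → w.re * l x ≤ T) :
    ‖g x * cexp (w * l x)‖ ≤ ‖g x‖ * Real.exp T := by
  rw [nrm]
  by_cases h0 : g x = 0
  · simp [h0]
  · exact mul_le_mul_of_nonneg_left (Real.exp_le_exp.2 (h h0)) (norm_nonneg _)

theorem meas (hg : Integrable g μ) (hl : Measurable l) (w : ℂ) :
    AEStronglyMeasurable (fun x => g x * cexp (w * l x)) μ :=
  hg.1.mul (Measurable.aestronglyMeasurable (by fun_prop))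

theorem int_le (hg : Integrable g μ) {w : ℂ} {T : ℝ} (h : ∀ x, g x ≠ 0 → w.re * l x ≤ T) :
    ‖∫ x, g x * cexp (w * l x) ∂μ‖ ≤ (∫ x, ‖g x‖ ∂μ) * Real.exp T := by
  rw [← integral_mul_const]
  exact norm_integral_le_of_norm_le (hg.norm.mul_const _) (ae_of_all _ fun x => pt_le (h x))

theorem mul_le_of_abs {a b A B : ℝ} (ha : |a| ≤ A) (hb : |b| ≤ B) : a * b ≤ A * B :=
  (le_abs_self _).trans (by
    rw [abs_mul]; exact mul_le_mul ha hb (abs_nonneg _) ((abs_nonneg _).trans ha))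

theorem integ (hg : Integrable g μ) (hl : Measurable l) (hb : ∀ x, g x ≠ 0 → |l x| ≤ R) (w : ℂ) :
    Integrable (fun x => g x * cexp (w * l x)) μ :=
  (hg.norm.mul_const (Real.exp (‖w‖ * R))).mono' (meas hg hl w) (ae_of_all _ fun x =>
    pt_le fun h => mul_le_of_abs (abs_re_le_norm w) (hb x h))

theorem diff (hg : Integrable g μ) (hl : Measurable l) (hb : ∀ x, g x ≠ 0 → |l x| ≤ R) :
    Differentiable ℂ fun w : ℂ => ∫ x, g x * cexp (w * l x) ∂μ := by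
  intro w
  refine (hasDerivAt_integral_of_dominated_loc_of_deriv_le (ball_mem_nhds w one_pos)
    (F' := fun z x => g x * cexp (z * l x) * l x)
    (bound := fun x => ‖g x‖ * Real.exp ((‖w‖ + 1) * R) * |R|)
    (Eventually.of_forall fun z => meas hg hl z) (integ hg hl hb w)
    ((meas hg hl w).mul (Measurable.aestronglyMeasurable (by fun_prop)))
    (ae_of_all _ fun x z hz => ?_) ((hg.norm.mul_const _).mul_const _)
    (ae_of_all _ fun x z _ => ?_)).2.differentiableAt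
  · by_cases h0 : g x = 0
    · simp [h0]
    · rw [norm_mul, Complex.norm_real, Real.norm_eq_abs]
      refine mul_le_mul (pt_le fun h => mul_le_of_abs ((abs_re_le_norm z).trans ?_) (hb x h))
        ((hb x h0).trans (le_abs_self _)) (abs_nonneg _) (by positivity)
      have := norm_le_norm_add_norm_sub' z w
      have := mem_ball_iff_norm.1 hz
      linarith
  · have := (((hasDerivAt_id z).mul_const (l x : ℂ)).cexp).const_mul (g x)
    simpa [mul_assoc] using this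

theorem key (hg : Integrable g μ) (hl : Measurable l) (hb : ∀ x, g x ≠ 0 → 0 < l x ∧ l x ≤ R)
    (hre : IsBoundedUnder (· ≤ ·) atTop fun s : ℝ => ‖∫ x, g x * cexp (s * l x) ∂μ‖) (w : ℂ) :
    ∫ x, g x * cexp (w * l x) ∂μ = 0 := by
  set F := fun w : ℂ => ∫ x, g x * cexp (w * l x) ∂μ with hF
  have hb' : ∀ x, g x ≠ 0 → |l x| ≤ R := fun x h => by
    rw [abs_of_pos (hb x h).1]; exact (hb x h).2
  have hd : Differentiable ℂ F := diff hg hl hb'
  have h1 : ∀ z : ℂ, z.re ≤ 0 → ‖F z‖ ≤ (∫ x, ‖g x‖ ∂μ) * Real.exp 0 := fun z hz =>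
    int_le hg fun x h => mul_nonpos_of_nonpos_of_nonneg hz (hb x h).1.le
  have h2 : ∀ z : ℂ, ‖F z‖ ≤ (∫ x, ‖g x‖ ∂μ) * Real.exp 0 := fun z => by
    rcases le_total z.re 0 with hz | hz
    · exact h1 z hz
    · refine PhragmenLindelof.right_half_plane_of_bounded_on_real hd.diffContOnCl
        ⟨1, one_lt_two, R, IsBigO.of_bound (∫ x, ‖g x‖ ∂μ) (Eventually.of_forall fun y => ?_)⟩ hre
        (fun y => h1 _ (by simp)) hz
      rw [Real.rpow_one, Real.norm_eq_abs, Real.abs_exp, mul_comm R]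
      exact int_le hg fun x h => mul_le_of_abs (abs_re_le_norm y) (hb' x h)
  have h3 : ∀ z, F z = F w := fun z => hd.apply_eq_apply_of_bounded
    (isBounded_iff_forall_norm_le.2 ⟨_, by rintro _ ⟨y, rfl⟩; exact h2 y⟩) z w
  have h4 : Tendsto (fun k : ℕ => F (-(k : ℝ) : ℝ)) atTop (𝓝 (∫ _ : α, (0 : ℂ) ∂μ)) := by
    refine tendsto_integral_of_dominated_convergence (fun x => ‖g x‖ * Real.exp 0)
      (fun k => meas hg hl _) (hg.norm.mul_const _) (fun k => ae_of_all _ fun x => pt_le fun h =>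
        mul_nonpos_of_nonpos_of_nonneg (by simp) (hb x h).1.le) (ae_of_all _ fun x => ?_)
    by_cases h0 : g x = 0
    · simp [h0]
    · rw [tendsto_zero_iff_norm_tendsto_zero]
      simp only [nrm, ofReal_re]
      rw [← mul_zero ‖g x‖]
      refine (Real.tendsto_exp_atBot.comp ?_).const_mul _
      exact (tendsto_neg_atTop_atBot.comp tendsto_natCast_atTop_atTop).atBot_mul_const (hb x h0).1
  simp only [h3, integral_zero] at h4
  exact tendsto_nhds_unique tendsto_const_nhds h4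

end Key

variable {n : ℕ}

/-- Uniqueness for the Fourier transform. -/
theorem four_uniq {g : E n → ℂ} (hg : Integrable g) (h : ∀ ξ, 𝓕 g ξ = 0) : ∀ᵐ x, g x = 0 := by
  refine ae_eq_zero_of_integral_contDiff_smul_eq_zero hg.locallyIntegrable fun φ h1 h2 => ?_
  set ψ : 𝓢(E n, ℂ) := (h2.comp_left (g := ofRealCLM) rfl).toSchwartzMap
    (ofRealCLM.contDiff.comp h1) with hψ
  have h3 := VectorFourier.integral_fourierIntegral_smul_eq_flip (L := innerₗ (E n))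
    (μ := volume) (ν := volume) Real.continuous_fourierChar continuous_inner
    (𝓕⁻ ψ).integrable hg
  rw [flip_innerₗ] at h3
  have h4 : ∀ x, VectorFourier.fourierIntegral Real.fourierChar volume (innerₗ (E n)) g x = 0 := h
  have h5 : ∀ x, VectorFourier.fourierIntegral Real.fourierChar volume (innerₗ (E n))
      (𝓕⁻ ψ : 𝓢(E n, ℂ)) x = φ x := fun x => by
    have := congrArg (fun u : 𝓢(E n, ℂ) => u x) (fourier_fourierInv_eq (F := 𝓢(E n, ℂ)) ψ)
    exact this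
  simp only [h4, h5, smul_zero, integral_zero] at h3
  simpa using h3

theorem integ_f {f : E n → ℂ} (hf : Bdd f) (h0 : ∀ x, 1 / 2 < ‖x‖ → f x = 0) : Integrable f := by
  obtain ⟨hm, C, hC⟩ := hf
  refine (integrableOn_iff_integrable_of_support_subset (s := closedBall 0 (1 / 2)) ?_).1
    (Measure.integrableOn_of_bounded measure_closedBall_lt_top.ne hm.aestronglyMeasurable
      (ae_of_all _ hC))
  intro x hx
  exact mem_closedBall_zero_iff.2 (not_lt.1 fun h => hx (h0 x h))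

theorem integ_ex {f : E n → ℂ} (hf : Integrable f) (ξ : E n) :
    Integrable fun x => f x * exf 0 ξ x := by
  refine hf.mul_bdd (c := 1) (Continuous.aestronglyMeasurable (by unfold exf; fun_prop))
    (ae_of_all _ fun x => le_of_eq ?_)
  unfold exf
  rw [Complex.norm_exp]
  simp

theorem core {f : E n → ℂ} (hf : Bdd f) (h0 : ∀ x, 1 / 2 < ‖x‖ → f x = 0) {e : E n}
    (he : ‖e‖ = 1) {a : ℝ} (h : ∀ ξ : E n, ⟪ξ, e⟫ = 0 → IsBoundedUnder (· ≤ ·) atTop
      fun s : ℝ => ‖lt f (s • e) ξ‖ * Real.exp (-(2 * π * a * s))) :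
    ∀ᵐ x : E n, a < ⟪x, e⟫ → f x = 0 := by
  have hi := integ_f hf h0
  set S : Set (E n) := {x | a < ⟪x, e⟫} with hS
  have mS : MeasurableSet S := measurableSet_lt measurable_const (by fun_prop)
  set l : E n → ℝ := fun x => 2 * π * (⟪x, e⟫ - a) with hl
  have ml : Measurable l := by fun_prop
  have hle : ∀ x, f x ≠ 0 → |⟪x, e⟫| ≤ 1 / 2 := fun x hx =>
    (abs_real_inner_le_norm x e).trans (by
      rw [he, mul_one]; exact not_lt.1 fun h => hx (h0 x h))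
  have hk : ∀ ξ : E n, ⟪ξ, e⟫ = 0 → ∀ w : ℂ,
      ∫ x, S.indicator f x * exf 0 ξ x * cexp (w * l x) = 0 := by
    intro ξ hξ
    have i1 := integ_ex (hi.indicator mS) ξ
    have i2 := integ_ex (hi.indicator mS.compl) ξ
    have b0 : ∀ (T : Set (E n)) x, T.indicator f x * exf 0 ξ x ≠ 0 → x ∈ T ∧ f x ≠ 0 :=
      fun T x hx => by
        by_cases hT : x ∈ T
        · exact ⟨hT, fun h => hx (by simp [hT, h])⟩
        · exact absurd (by simp [hT]) hx
    have b1 : ∀ (T : Set (E n)) x, T.indicator f x * exf 0 ξ x ≠ 0 →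
        |l x| ≤ 2 * π * (1 / 2 + |a|) := fun T x hx => by
      rw [hl, abs_mul, abs_of_pos Real.two_pi_pos]
      exact mul_le_mul_of_nonneg_left ((abs_sub _ _).trans
        (add_le_add_left (hle x (b0 T x hx).2) _)) Real.two_pi_pos.le
    refine key (R := 2 * π * (1 / 2 + |a|)) i1 ml (fun x hx => ⟨mul_pos Real.two_pi_pos
      (sub_pos.2 (b0 S x hx).1), (le_abs_self _).trans (b1 S x hx)⟩) ?_
    obtain ⟨C, hC⟩ := h ξ hξ
    refine ⟨C + (∫ x, ‖Sᶜ.indicator f x * exf 0 ξ x‖) * Real.exp 0, ?_⟩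
    rw [eventually_map] at hC ⊢
    filter_upwards [hC, eventually_ge_atTop 0] with s h1 h2
    have h3 := int_le (l := l) (w := s) (T := 0) i2 fun x hx =>
      mul_nonpos_of_nonneg_of_nonpos h2 (mul_nonpos_of_nonneg_of_nonpos Real.two_pi_pos.le
        (sub_nonpos.2 (not_lt.1 (b0 _ x hx).1)))
    have h4 : ∫ x, S.indicator f x * exf 0 ξ x * cexp (s * l x) =
        lt f (s • e) ξ * (Real.exp (-(2 * π * a * s)) : ℝ) -
          ∫ x, Sᶜ.indicator f x * exf 0 ξ x * cexp (s * l x) := by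
      rw [eq_sub_iff_add_eq, ← integral_add (integ i1 ml (b1 _) _) (integ i2 ml (b1 _) _), lt,
        ← integral_mul_const]
      refine integral_congr_ae (ae_of_all _ fun x => ?_)
      have : S.indicator f x + Sᶜ.indicator f x = f x := congrFun (indicator_self_add_compl S f) x
      simp only
      rw [← add_mul, ← add_mul, this, mul_assoc, mul_assoc, exf, exf, ofReal_exp,
        ← Complex.exp_add, ← Complex.exp_add, hl, real_inner_smul_left, real_inner_comm x e]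
      congr 2
      simp only [inner_zero_left]
      push_cast
      ring
    rw [h4]
    refine (norm_sub_le _ _).trans (add_le_add (le_of_eq_of_le ?_ h1) h3)
    rw [norm_mul, Complex.norm_real, Real.norm_eq_abs, Real.abs_exp]
  have hz := four_uniq (hi.indicator mS) fun η => by
    have h1 := hk (⟪η, e⟫ • e - η) (by
      rw [inner_sub_left, real_inner_smul_left, real_inner_self_eq_norm_sq, he]; ring)
      (-(⟪η, e⟫ : ℝ) * I)
    have h2 : ∀ x, S.indicator f x * exf 0 (⟪η, e⟫ • e - η) x * cexp (-(⟪η, e⟫ : ℝ) * I * l x) =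
        cexp (2 * π * a * (⟪η, e⟫ : ℝ) * I) *
          (cexp ((-2 * π * ⟪x, η⟫ : ℝ) * I) • S.indicator f x) := fun x => by
      rw [smul_eq_mul, mul_assoc, exf, ← Complex.exp_add, ← mul_assoc, ← Complex.exp_add,
        mul_comm, hl, inner_sub_left, real_inner_smul_left, real_inner_comm x e,
        real_inner_comm x η]
      congr 2
      simp only [inner_zero_left]
      push_cast
      ring
    simp only [h2] at h1
    rw [integral_const_mul] at h1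
    rw [Real.fourier_eq']
    exact (mul_eq_zero.1 h1).resolve_left (Complex.exp_ne_zero _)
  filter_upwards [hz] with x h1 h2
  rwa [indicator_of_mem (show x ∈ S from h2)] at h1

end Fn

theorem fin_stmt (n : ℕ) : FinStmt n := by
  intro e he f hf h0 c _ h
  refine Fn.core hf h0 he fun ξ hξ => ?_
  obtain ⟨C, s₁, hC⟩ := h ξ hξ
  refine ⟨C, ?_⟩
  rw [eventually_map]
  filter_upwards [eventually_ge_atTop s₁] with s hs
  refine (mul_le_mul_of_nonneg_right (hC s hs) (Real.exp_pos _).le).trans (le_of_eq ?_)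
  rw [mul_assoc, ← Real.exp_add, show π * s - c * s + -(2 * π * (1 / 2 - c / (2 * π)) * s) = 0 by
    have := Real.pi_pos
    field_simp
    ring, Real.exp_zero, mul_one]

end Pool.Agent.MP_71da5e_an.L

end

section

/-! Extraction of the decay of the Laplace transform from the main estimate. -/

namespace Pool.Agent.MP_71da5e_an.L

open MeasureTheory Metric Set Complex Filter Topology
open scoped ContDiff RealInnerProductSpace ENNReal Real

namespace De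

variable {n : ℕ}

theorem integ_exf (hA : Api n) {f : E n → ℂ} (hi : Integrable f)
    (h0 : ∀ x, 1 / 2 < ‖x‖ → f x = 0) (a b : E n) :
    (∀ x, ‖f x * exf a b x‖ ≤ ‖f x‖ * Real.exp (π * ‖a‖)) ∧ Integrable fun x => f x * exf a b x := by
  have h1 : ∀ x, ‖f x * exf a b x‖ ≤ ‖f x‖ * Real.exp (π * ‖a‖) := fun x => by
    by_cases hx : f x = 0
    · simp [hx]
    · rw [norm_mul, hA.norm_exf]
      refine mul_le_mul_of_nonneg_left (Real.exp_le_exp.2 ?_) (norm_nonneg _)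
      have h2 : ‖x‖ ≤ 1 / 2 := not_lt.1 fun h => hx (h0 x h)
      have h3 := (real_inner_le_norm a x).trans (mul_le_mul_of_nonneg_left h2 (norm_nonneg a))
      nlinarith [Real.pi_pos]
  have hc : Continuous (exf a b) := by unfold exf; fun_prop
  exact ⟨h1, (hi.norm.mul_const _).mono' (hi.1.mul hc.aestronglyMeasurable) (ae_of_all _ h1)⟩

theorem lip (hA : Api n) {f : E n → ℂ} (hi : Integrable f) (h0 : ∀ x, 1 / 2 < ‖x‖ → f x = 0)
    (a b u v : E n) {d : ℝ} (hd : ‖u‖ + ‖v‖ ≤ d) (hd' : π * d ≤ 1) :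
    ‖lt f (a + u) (b + v) - lt f a b‖ ≤ (∫ x, ‖f x‖) * (Real.exp (π * ‖a‖) * (2 * (π * d))) := by
  rw [lt, lt, ← integral_sub (integ_exf hA hi h0 _ _).2 (integ_exf hA hi h0 _ _).2,
    ← integral_mul_const]
  refine norm_integral_le_of_norm_le (hi.norm.mul_const _) (ae_of_all _ fun x => ?_)
  by_cases hx : f x = 0
  · simp [hx]
  have h2 : ‖x‖ ≤ 1 / 2 := not_lt.1 fun h => hx (h0 x h)
  have h3 : ‖(2 * π * (((⟪u, x⟫ : ℝ) : ℂ) + ((⟪v, x⟫ : ℝ) : ℂ) * I) : ℂ)‖ ≤ π * d := by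
    have a1 := (abs_real_inner_le_norm u x).trans (mul_le_mul_of_nonneg_left h2 (norm_nonneg u))
    have a2 := (abs_real_inner_le_norm v x).trans (mul_le_mul_of_nonneg_left h2 (norm_nonneg v))
    have a3 : ‖(((⟪u, x⟫ : ℝ) : ℂ) + ((⟪v, x⟫ : ℝ) : ℂ) * I : ℂ)‖ ≤ |⟪u, x⟫| + |⟪v, x⟫| :=
      (norm_add_le _ _).trans (by simp)
    rw [norm_mul, norm_mul, Complex.norm_real, Real.norm_of_nonneg Real.pi_pos.le,
      Complex.norm_ofNat]
    nlinarith [Real.pi_pos]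
  have h4 : ‖exf u v x - 1‖ ≤ 2 * (π * d) :=
    (Complex.norm_exp_sub_one_le (h3.trans hd')).trans (by linarith)
  rw [hA.exf_add, show f x * (exf a b x * exf u v x) - f x * exf a b x =
    f x * exf a b x * (exf u v x - 1) by ring, norm_mul, ← mul_assoc]
  exact mul_le_mul ((integ_exf hA hi h0 a b).1 x) h4 (norm_nonneg _) (by positivity)

theorem pz_near (hA : Api n) {a b a' : E n} (h : pz a b = 0) {d : ℝ} (hd : ‖a' - a‖ ≤ d)
    (h1 : d ≤ ‖a'‖) : ‖pz a' b‖ ≤ 10 * d * ‖a'‖ := by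
  rw [hA.pz_eq] at h ⊢
  have r1 : ‖a‖ ^ 2 - ‖b‖ ^ 2 = 0 := by simpa [-ofReal_pow, -ofReal_sub] using congrArg re h
  have r2 : 2 * ⟪a, b⟫ = 0 := by simpa [-ofReal_pow, -ofReal_sub, -ofReal_mul] using congrArg im h
  have e1 : ‖b‖ = ‖a‖ := (pow_left_inj₀ (norm_nonneg _) (norm_nonneg _) two_ne_zero).1 (by linarith)
  have d0 : 0 ≤ d := (norm_nonneg _).trans hd
  have e2 := abs_le.1 ((abs_norm_sub_norm_le a' a).trans hd)
  have e3 : ⟪a', b⟫ = ⟪a' - a, b⟫ := by rw [inner_sub_left]; linarith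
  have e4 : |⟪a', b⟫| ≤ d * ‖a‖ := by
    rw [e3, ← e1]
    exact (abs_real_inner_le_norm _ _).trans (mul_le_mul_of_nonneg_right hd (norm_nonneg _))
  have e5 : |‖a'‖ ^ 2 - ‖b‖ ^ 2| ≤ d * (‖a'‖ + ‖a‖) := by
    rw [e1, sq_sub_sq, abs_mul, abs_of_nonneg (by positivity), mul_comm]
    exact mul_le_mul_of_nonneg_right (abs_le.2 e2) (by positivity)
  refine (norm_add_le _ _).trans ?_
  rw [norm_mul, Complex.norm_I, mul_one, Complex.norm_real, Complex.norm_real, Real.norm_eq_abs,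
    Real.norm_eq_abs, abs_mul, abs_two]
  have e6 : ‖a‖ ≤ 2 * ‖a'‖ := by linarith
  nlinarith [mul_le_mul_of_nonneg_left e6 d0, mul_nonneg d0 (norm_nonneg a')]

/-- Sizes on the box. -/
theorem box {e : E n} (he : ‖e‖ = 1) {s ϱ δ : ℝ} {r : E n} (hs : 1 ≤ s) (hϱ : 4 * (s + 1) ^ 2 ≤ ϱ)
    (r1 : ϱ / 2 ≤ ‖r‖) (r2 : ‖r‖ ≤ ϱ) (hδ : δ ≤ 1) {p : B n} (hp : p ∈ ball ((s, r) : B n) δ) :
    |p.1 - s| ≤ δ ∧ p.1 ^ 2 ≤ ‖p.2‖ ∧ ‖p.2‖ ≤ 2 * ϱ ∧ R2 p ≤ 9 * ϱ ^ 2 ∧ 0 < R2 p ∧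
      (‖a1 e p - a1 e (s, r)‖ ≤ 2 * δ ∧ ϱ / 4 ≤ ‖a1 e p‖ ∧ ‖a1 e p‖ ≤ 2 * ϱ) ∧
      (‖a2 e p - a2 e (s, r)‖ ≤ 2 * δ ∧ ϱ / 4 ≤ ‖a2 e p‖ ∧ ‖a2 e p‖ ≤ 2 * ϱ) := by
  rw [mem_ball, Prod.dist_eq, max_lt_iff, Real.dist_eq, dist_eq_norm] at hp
  obtain ⟨h1, h2⟩ := hp
  simp only at h1 h2
  have h3 := abs_le.1 h1.le
  have h4 := abs_le.1 ((abs_norm_sub_norm_le p.2 r).trans h2.le)
  have h5 : 16 ≤ ϱ := by nlinarith
  have h6 : p.1 ^ 2 ≤ (s + 1) ^ 2 := pow_le_pow_left₀ (by linarith) (by linarith) 2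
  have h7 : p.1 ^ 2 ≤ ‖p.2‖ := by linarith
  have h8 : ‖(p.1 / 2) • e‖ ≤ ϱ / 8 := by
    rw [norm_smul, he, mul_one, Real.norm_of_nonneg (by linarith)]
    nlinarith
  have h9 : ‖((p.1 - s) / 2) • e‖ ≤ δ := by
    rw [norm_smul, he, mul_one, Real.norm_eq_abs, abs_div, abs_two]
    linarith [abs_nonneg (p.1 - s)]
  refine ⟨h1.le, h7, by linarith, by unfold R2; nlinarith, by unfold R2; nlinarith, ⟨?_, ?_, ?_⟩,
    ?_, ?_, ?_⟩
  · rw [show a1 e p - a1 e (s, r) = ((p.1 - s) / 2) • e + (p.2 - r) by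
      simp only [a1]; module]
    linarith [norm_add_le (((p.1 - s) / 2) • e) (p.2 - r)]
  · have := norm_sub_le (a1 e p) ((p.1 / 2) • e)
    rw [a1, add_sub_cancel_left, ← a1] at this
    linarith
  · linarith [show ‖a1 e p‖ ≤ _ from norm_add_le ((p.1 / 2) • e) p.2]
  · rw [show a2 e p - a2 e (s, r) = ((p.1 - s) / 2) • e - (p.2 - r) by
      simp only [a2]; module]
    linarith [norm_sub_le (((p.1 - s) / 2) • e) (p.2 - r)]
  · have := norm_sub_le ((p.1 / 2) • e) (a2 e p)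
    rw [a2, sub_sub_cancel, ← a2] at this
    linarith
  · linarith [show ‖a2 e p‖ ≤ _ from norm_sub_le ((p.1 / 2) • e) p.2]

/-- The mass of the density on a box. -/
theorem mass (hA : Api n) {lam tau : ℝ} (ρ : Reg lam tau) (e : E n) {U : Set (B n)}
    (hU : MeasurableSet U) (S T : Set (E n)) {m : ℝ≥0∞}
    (h1 : ∀ p ∈ U, m ≤ ∫⁻ η in S, ENNReal.ofReal (ρ.ph (pz (a1 e p) η)))
    (h2 : ∀ p ∈ U, m ≤ ∫⁻ η in T, ENNReal.ofReal (ρ.ph (pz (a2 e p) η))) :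
    m * m * volume U ≤ ∫⁻ x in U ×ˢ (S ×ˢ T), ENNReal.ofReal (pp ρ e x) := by
  have c0 : Continuous fun y : E n × E n => ρ.ph (pz y.1 y.2) :=
    ((ρ.γ_smooth.continuous.comp hA.smooth_pz.continuous).norm).pow 2
  have c1 : Continuous fun x : X n => pp ρ e x :=
    (c0.comp (f := fun x : X n => (a1 e x.1, x.2.1)) (by unfold a1; fun_prop)).mul
      (c0.comp (f := fun x : X n => (a2 e x.1, x.2.2)) (by unfold a2; fun_prop))
  have c2 : ∀ a : E n, Measurable fun η => ENNReal.ofReal (ρ.ph (pz a η)) := fun a =>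
    (c0.comp (f := fun η : E n => (a, η)) (by fun_prop)).measurable.ennreal_ofReal
  rw [Measure.volume_eq_prod (B n) (E n × E n), ← Measure.prod_restrict,
    lintegral_prod _ c1.measurable.ennreal_ofReal.aemeasurable, ← setLIntegral_const]
  refine setLIntegral_mono' hU fun p hp => ?_
  rw [Measure.volume_eq_prod, ← Measure.prod_restrict]
  refine (mul_le_mul' (h1 p hp) (h2 p hp)).trans (le_of_eq ?_)
  rw [← lintegral_prod_mul (c2 _).aemeasurable (c2 _).aemeasurable]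
  refine lintegral_congr fun b => ?_
  exact (ENNReal.ofReal_mul (sq_nonneg _)).symm

/-- The lower bound in one fibre. -/
theorem fib (hA : Api n) {γ c : ℝ} (γ0 : 0 < γ) (γ1 : γ ≤ 1) (c0 : 0 < c)
    (hD : ∀ (a η₀ : E n) (κ : ℝ), 1 ≤ ‖a‖ → 0 < κ → κ ≤ 1 →
      ‖pz a η₀‖ ≤ γ * κ * ‖a‖ → ∀ k : ℂ → ℝ≥0∞, Measurable k →
      (∀ p, γ * κ * ‖a‖ < ‖p‖ → k p = 0) →
      ENNReal.ofReal (c * κ ^ (n - 2) / ‖a‖ ^ 2) * ∫⁻ p, k p ≤ ∫⁻ η in ball η₀ κ, k (pz a η))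
    {lam tau ϱ : ℝ} (ρ : Reg lam tau) (h16 : 16 ≤ ϱ) (hl : lam ≤ γ * ϱ⁻¹) {a b a' : E n}
    (hab : pz a b = 0) (h : ‖a' - a‖ ≤ 2 * (γ * ϱ⁻¹ / 20) ∧ ϱ / 4 ≤ ‖a'‖ ∧ ‖a'‖ ≤ 2 * ϱ) :
    ENNReal.ofReal (c * π / 4 / ϱ ^ (n + 2)) ≤
      ∫⁻ η in ball b ϱ⁻¹, ENNReal.ofReal (ρ.ph (pz a' η)) := by
  obtain ⟨h1, h2, h3⟩ := h
  have k0 : 0 < ϱ⁻¹ := by positivity
  have k1 : ϱ⁻¹ ≤ 1 := inv_le_one_of_one_le₀ (by linarith)
  have k2 : γ * ϱ⁻¹ ≤ 1 := mul_le_one₀ γ1 k0.le k1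
  have k3 : 1 ≤ ‖a'‖ := by linarith
  have h4 := hD a' b ϱ⁻¹ k3 k0 k1 ((pz_near hA hab h1 (by linarith)).trans (le_of_eq (by ring)))
    (fun p => ENNReal.ofReal (ρ.ph p))
    ((ρ.γ_smooth.continuous.norm.pow 2).measurable.ennreal_ofReal) fun p hp => by
      rw [Reg.ph, ρ.γ_zero p (lt_of_le_of_lt (hl.trans
        (le_mul_of_one_le_right (by positivity) k3)) hp)]
      simp
  refine le_trans ?_ h4
  rw [show ∫⁻ p, ENNReal.ofReal (ρ.ph p) = ENNReal.ofReal π from ρ.mass,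
    ← ENNReal.ofReal_mul (by positivity)]
  refine ENNReal.ofReal_le_ofReal ?_
  calc c * π / 4 / ϱ ^ (n + 2) = c * ϱ⁻¹ ^ n / (2 * ϱ) ^ 2 * π := by
        rw [inv_pow]; field_simp; ring
    _ ≤ c * ϱ⁻¹ ^ (n - 2) / (2 * ϱ) ^ 2 * π := by
        have := pow_le_pow_of_le_one k0.le k1 (Nat.sub_le n 2)
        refine mul_le_mul_of_nonneg_right (div_le_div_of_nonneg_right
          (mul_le_mul_of_nonneg_left this c0.le) (by positivity)) Real.pi_pos.le
    _ ≤ _ := by gcongr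

/-- The estimate at one height. -/
theorem step (hA : Api n) {γ c : ℝ} (γ0 : 0 < γ) (γ1 : γ ≤ 1) (c0 : 0 < c)
    (hD : ∀ (a η₀ : E n) (κ : ℝ), 1 ≤ ‖a‖ → 0 < κ → κ ≤ 1 →
      ‖pz a η₀‖ ≤ γ * κ * ‖a‖ → ∀ k : ℂ → ℝ≥0∞, Measurable k →
      (∀ p, γ * κ * ‖a‖ < ‖p‖ → k p = 0) →
      ENNReal.ofReal (c * κ ^ (n - 2) / ‖a‖ ^ 2) * ∫⁻ p, k p ≤ ∫⁻ η in ball η₀ κ, k (pz a η))
    {e : E n} (he : ‖e‖ = 1) {f : E n → ℂ} (hi : Integrable f) (h0 : ∀ x, 1 / 2 < ‖x‖ → f x = 0)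
    {C a₀ lam tau η s₀ C₁ s ϱ : ℝ} (hC : 0 ≤ C) (hη : 0 < η) (ρ : Reg lam tau) {F : X n → ℂ}
    (hF : FamA e f C a₀ lam F) (hl : lam ≤ γ * ϱ⁻¹) (hs : 1 ≤ s) (hs₀ : s₀ + 1 ≤ s)
    (hϱ : 4 * (s + 1) ^ 2 ≤ ϱ) (ha : a₀ < ϱ / 4) {r b₁ b₂ : E n} (z1 : pz (a1 e (s, r)) b₁ = 0)
    (z2 : pz (a2 e (s, r)) b₂ = 0) (r1 : ϱ / 2 ≤ ‖r‖) (r2 : ‖r‖ ≤ ϱ)
    (hI : ∫⁻ x in {x : X n | x.1 ∈ Tg s₀ (2 * ϱ)},
      ENNReal.ofReal (Real.exp (-2 * π * x.1.1 + 2 * η * x.1.1) / R2 x.1 ^ (2 * n + 4) *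
        pp ρ e x * ‖F x‖ ^ 2) ≤ ENNReal.ofReal C₁)
    (hL : 2 * ((8 * C * Real.exp π + 6 * π * ∫ x, ‖f x‖) * Real.exp (π * s) / ϱ) ≤
      ‖lt f (s • e) (b₁ + b₂)‖) :
    Real.exp (-2 * π - 2 * η) / 9 ^ (2 * n + 4) / 4 * (c * π / 4) ^ 2 * (γ / 20) ^ (n + 1) *
      (volume (ball (0 : B n) 1)).toReal *
      (‖lt f (s • e) (b₁ + b₂)‖ ^ 2 * Real.exp (-2 * π * s + 2 * η * s) / ϱ ^ (7 * n + 13)) ≤
        max C₁ 0 := by
  have h16 : 16 ≤ ϱ := by nlinarith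
  have k0 : 0 < ϱ⁻¹ := by positivity
  have k1 : ϱ⁻¹ ≤ 1 / 16 := by rw [one_div]; exact inv_anti₀ (by norm_num) h16
  have k2 : γ * ϱ⁻¹ ≤ ϱ⁻¹ := mul_le_of_le_one_left k0.le γ1
  have k3 : 0 < γ * ϱ⁻¹ / 20 := by positivity
  have hpi := Real.pi_pos
  have hI0 : 0 ≤ ∫ x, ‖f x‖ := integral_nonneg fun _ => norm_nonneg _
  set A := ‖lt f (s • e) (b₁ + b₂)‖ with hAdef
  set M := Real.exp (-2 * π * (s + 1) + 2 * η * (s - 1)) / (9 * ϱ ^ 2) ^ (2 * n + 4) * (A / 2) ^ 2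
    with hM
  have bx := fun p (hp : p ∈ ball ((s, r) : B n) (γ * ϱ⁻¹ / 20)) =>
    box he hs hϱ r1 r2 (by linarith) hp
  have hm := mass hA ρ e measurableSet_ball (ball b₁ ϱ⁻¹) (ball b₂ ϱ⁻¹)
    (fun p hp => fib hA γ0 γ1 c0 hD ρ h16 hl z1 (bx p hp).2.2.2.2.2.1)
    fun p hp => fib hA γ0 γ1 c0 hD ρ h16 hl z2 (bx p hp).2.2.2.2.2.2
  have hpt : ∀ x ∈ ball ((s, r) : B n) (γ * ϱ⁻¹ / 20) ×ˢ (ball b₁ ϱ⁻¹ ×ˢ ball b₂ ϱ⁻¹),
      ENNReal.ofReal M * ENNReal.ofReal (pp ρ e x) ≤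
        ENNReal.ofReal (Real.exp (-2 * π * x.1.1 + 2 * η * x.1.1) / R2 x.1 ^ (2 * n + 4) *
          pp ρ e x * ‖F x‖ ^ 2) := by
    rintro x ⟨hx, hx1, hx2⟩
    obtain ⟨b1, -, -, b4, b5, ⟨-, b6, -⟩, -, b7, -⟩ := bx _ hx
    have b8 := abs_le.1 b1
    have l1 := hF.lim x ⟨by linarith, by linarith⟩ (by linarith)
    have l2 := lip hA hi h0 (s • e) (b₁ + b₂) ((x.1.1 - s) • e) ((x.2.1 - b₁) + (x.2.2 - b₂))
      (d := 3 * ϱ⁻¹) (by
        rw [norm_smul, he, mul_one, Real.norm_eq_abs]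
        linarith [norm_add_le (x.2.1 - b₁) (x.2.2 - b₂), mem_ball_iff_norm.1 hx1,
          mem_ball_iff_norm.1 hx2]) (by nlinarith [Real.pi_le_four])
    rw [← add_smul, add_sub_cancel, show b₁ + b₂ + (x.2.1 - b₁ + (x.2.2 - b₂)) = x.2.1 + x.2.2 by
      abel, norm_smul, he, mul_one, Real.norm_of_nonneg (by linarith)] at l2
    have l3 : C * Real.exp (π * x.1.1) * (‖a1 e x.1‖⁻¹ + ‖a2 e x.1‖⁻¹) ≤
        C * Real.exp (π * (s + 1)) * ((ϱ / 4)⁻¹ + (ϱ / 4)⁻¹) := by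
      gcongr
      linarith
    have l4 : C * Real.exp (π * (s + 1)) * ((ϱ / 4)⁻¹ + (ϱ / 4)⁻¹) +
        (∫ x, ‖f x‖) * (Real.exp (π * s) * (2 * (π * (3 * ϱ⁻¹)))) =
        (8 * C * Real.exp π + 6 * π * ∫ x, ‖f x‖) * Real.exp (π * s) / ϱ := by
      rw [mul_add π, Real.exp_add, mul_one]; field_simp; ring
    have l5 : A / 2 ≤ ‖F x‖ := by
      have t1 := norm_sub_norm_le (lt f (x.1.1 • e) (x.2.1 + x.2.2)) (F x)
      have t2 := norm_sub_norm_le (lt f (s • e) (b₁ + b₂)) (lt f (x.1.1 • e) (x.2.1 + x.2.2))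
      rw [norm_sub_rev] at t1 t2
      linarith
    have p0 : 0 ≤ pp ρ e x := mul_nonneg (sq_nonneg _) (sq_nonneg _)
    rw [← ENNReal.ofReal_mul (by positivity), hM, mul_right_comm]
    refine ENNReal.ofReal_le_ofReal ?_
    have l6 : -2 * π * (s + 1) + 2 * η * (s - 1) ≤ -2 * π * x.1.1 + 2 * η * x.1.1 := by
      nlinarith
    gcongr
  have hsub : ball ((s, r) : B n) (γ * ϱ⁻¹ / 20) ×ˢ (ball b₁ ϱ⁻¹ ×ˢ ball b₂ ϱ⁻¹) ⊆
      {x : X n | x.1 ∈ Tg s₀ (2 * ϱ)} := by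
    rintro x ⟨hx, -⟩
    obtain ⟨b1, b2, b3, -⟩ := bx _ hx
    exact ⟨by linarith [(abs_le.1 b1).1], b2, b3⟩
  have h1 := ((setLIntegral_mono' (measurableSet_ball.prod
    (measurableSet_ball.prod measurableSet_ball)) hpt).trans (lintegral_mono_set hsub)).trans hI
  rw [lintegral_const_mul' _ _ ENNReal.ofReal_ne_top] at h1
  have h2 := (mul_le_mul_right hm _).trans h1
  have hH : (volume : Measure (B n)).IsAddHaarMeasure :=
    Measure.prod.instIsAddHaarMeasure volume volume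
  rw [Measure.addHaar_ball _ _ k3.le, ← ENNReal.ofReal_toReal
    (measure_ball_lt_top (μ := volume) (x := (0 : B n)) (r := 1)).ne,
    ← ENNReal.ofReal_mul (by positivity), ← ENNReal.ofReal_mul (by positivity),
    ← ENNReal.ofReal_mul (by positivity), ← ENNReal.ofReal_mul (by positivity),
    show Module.finrank ℝ (B n) = n + 1 by simp [add_comm]] at h2
  refine le_of_eq_of_le ?_ ((ENNReal.ofReal_le_ofReal_iff (le_max_right _ _)).1
    (h2.trans (ENNReal.ofReal_le_ofReal (le_max_left _ _))))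
  rw [hM, show -2 * π * (s + 1) + 2 * η * (s - 1) =
    (-2 * π - 2 * η) + (-2 * π * s + 2 * η * s) by ring, Real.exp_add (-2 * π - 2 * η),
    show ϱ ^ (7 * n + 13) = (ϱ ^ 2) ^ (2 * n + 4) * (ϱ ^ (n + 2) * ϱ ^ (n + 2)) * ϱ ^ (n + 1) by
      ring, mul_pow 9, show γ * ϱ⁻¹ / 20 = γ / 20 / ϱ by ring, div_pow (γ / 20)]
  generalize Real.exp (-2 * π - 2 * η) = y₁
  generalize Real.exp (-2 * π * s + 2 * η * s) = y₂
  field_simp
  ring

end De

theorem decStmt {n : ℕ} (A : Api n) (Re : RegStmt) (Dn : CaDown n) (Ge : GeoStmt n)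
    (Tg : TgStmt n) : DecStmt n := by
  intro e he f hf h0 C a₀ hC ha hF
  obtain ⟨γ, c, γ0, γ1, c0, hD⟩ := Dn
  obtain ⟨η, s₀, C₁, hη, hT⟩ := Tg e he f C a₀ hC ha
  have hi := Fn.integ_f hf h0
  have hpi := Real.pi_pos
  have hI0 : 0 ≤ ∫ x, ‖f x‖ := integral_nonneg fun _ => norm_nonneg _
  have hH : (volume : Measure (B n)).IsAddHaarMeasure :=
    Measure.prod.instIsAddHaarMeasure volume volume
  have hV : 0 < (volume (ball (0 : B n) 1)).toReal :=
    ENNReal.toReal_pos (measure_ball_pos _ _ one_pos).ne' measure_ball_lt_top.ne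
  set K := Real.exp (-2 * π - 2 * η) / 9 ^ (2 * n + 4) / 4 * (c * π / 4) ^ 2 * (γ / 20) ^ (n + 1) *
    (volume (ball (0 : B n) 1)).toReal with hK
  have K0 : 0 < K := by positivity
  set d := 2 * η / (7 * n + 15) with hd
  have d0 : 0 < d := by positivity
  refine ⟨d, d0, fun ξ hξ => ?_⟩
  have t1 : Tendsto (fun s : ℝ => Real.exp (d * s) / s ^ 2) atTop atTop := by
    simpa using tendsto_exp_mul_div_rpow_atTop 2 d d0
  have t2 : Tendsto (fun s : ℝ => Real.exp (d * s)) atTop atTop :=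
    Real.tendsto_exp_atTop.comp (tendsto_id.const_mul_atTop d0)
  obtain ⟨s₁, hs₁⟩ := eventually_atTop.1 ((t1.eventually_ge_atTop 16).and
    ((t2.eventually_gt_atTop (4 * a₀)).and ((eventually_ge_atTop 1).and
      ((eventually_ge_atTop (s₀ + 1)).and (eventually_ge_atTop ‖ξ‖)))))
  refine ⟨2 * (8 * C * Real.exp π + 6 * π * ∫ x, ‖f x‖) + √(max C₁ 0 / K), s₁, fun s hs => ?_⟩
  obtain ⟨u1, u2, u3, u4, u5⟩ := hs₁ s hs
  set ϱ := Real.exp (d * s) with hϱ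
  have ϱ0 : 0 < ϱ := Real.exp_pos _
  rw [le_div_iff₀ (by positivity)] at u1
  have u6 : 4 * (s + 1) ^ 2 ≤ ϱ := by nlinarith
  obtain ⟨r, b₁, b₂, rfl, z1, z2, r1, r2⟩ := Ge e ξ he hξ s ϱ (by linarith) u5 (by nlinarith)
  rw [Real.exp_sub, ← hϱ, add_mul]
  rcases le_total ‖lt f (s • e) (b₁ + b₂)‖
    (2 * ((8 * C * Real.exp π + 6 * π * ∫ x, ‖f x‖) * Real.exp (π * s) / ϱ)) with hL | hL
  · exact hL.trans (le_add_of_le_of_nonneg (le_of_eq (by ring)) (by positivity))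
  obtain ⟨lam₀, tau₀, l0, t0, hT⟩ := hT (2 * ϱ) (by nlinarith)
  have l1 : 0 < min lam₀ (min 1 (γ * ϱ⁻¹)) := by positivity
  obtain ⟨ρ⟩ := Re _ tau₀ l1 t0
  obtain ⟨F, hFA, hFB⟩ := hF _ tau₀ l1 ((min_le_right _ _).trans (min_le_left _ _)) ρ
  have h1 := De.step A γ0 γ1 c0 hD he hi h0 hC hη ρ hFA
    ((min_le_right _ _).trans (min_le_right _ _)) u3 u4 u6 (by linarith) z1 z2 r1 r2
    (hT _ _ l1 (min_le_left _ _) le_rfl ρ F hFA hFB) hL
  rw [← hK, ← le_div_iff₀' K0] at h1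
  have h2 : Real.exp (-2 * π * s + 2 * η * s) / ϱ ^ (7 * n + 13) =
      ((Real.exp (π * s) / ϱ) ^ 2)⁻¹ := by
    rw [hϱ, ← Real.exp_sub, ← Real.exp_nat_mul, ← Real.exp_nat_mul, ← Real.exp_sub, ← Real.exp_neg,
      hd]
    congr 1
    push_cast
    field_simp
    ring
  rw [mul_div_assoc, h2, ← div_eq_mul_inv, ← div_pow] at h1
  have h3 := Real.le_sqrt_of_sq_le h1
  rw [div_le_iff₀ (by positivity)] at h3
  exact h3.trans (le_add_of_nonneg_left (by positivity))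

end Pool.Agent.MP_71da5e_an.L

end

section

namespace Pool.Agent.MP_71da5e_an.L

theorem finStmt {n : ℕ} (_A : Api n) : FinStmt n := fin_stmt n

end Pool.Agent.MP_71da5e_an.L

end

section

namespace Pool.Agent.MP_71da5e_an.L

open MeasureTheory Metric Set Laplacian Complex Filter Topology
open scoped ContDiff RealInnerProductSpace ENNReal Real ComplexConjugate

namespace Vs

variable {n : ℕ}

/-- `ζ₁` as a real-linear map. -/
noncomputable def Z1 (e : E n) : X n →L[ℝ] V n :=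
  LinearMap.toContinuousLinearMap
    { toFun := z1 e
      map_add' := fun x y => funext fun k => by simp [z1, zc, a1]; ring
      map_smul' := fun c x => funext fun k => by simp [z1, zc, a1]; ring }

/-- `ζ₂` as a real-linear map. -/
noncomputable def Z2 (e : E n) : X n →L[ℝ] V n :=
  LinearMap.toContinuousLinearMap
    { toFun := z2 e
      map_add' := fun x y => funext fun k => by simp [z2, zc, a2]; ring
      map_smul' := fun c x => funext fun k => by simp [z2, zc, a2]; ring }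

theorem Z1_sg (e : E n) (W : ℂ × V n) : Z1 e (sg e W) = X1 e W := by
  funext k
  change z1 e (sg e W) k = _
  apply Complex.ext <;> simp [z1, zc, a1, sg, X1, reV, imV]
  ring

theorem Z2_sg (e : E n) (W : ℂ × V n) : Z2 e (sg e W) = X2 e W := by
  funext k
  change z2 e (sg e W) k = _
  apply Complex.ext <;> simp [z2, zc, a2, sg, X2, reV, imV]
  ring

theorem X1_I (e : E n) (W : ℂ × V n) : X1 e (I • W) = I • X1 e W := by
  funext k
  simp [X1]
  ring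

theorem X2_I (e : E n) (W : ℂ × V n) : X2 e (I • W) = I • X2 e W := by
  funext k
  simp [X2]
  ring

theorem lin_db (L : ℂ →L[ℝ] ℂ) (c : ℂ) : L c + I * L (I * c) = (L 1 + I * L I) * conj c := by
  have h : ∀ c : ℂ, L c = c.re * L 1 + c.im * L I := fun c => by
    conv_lhs => rw [show c = c.re • (1 : ℂ) + c.im • I by simp]
    rw [map_add, map_smul, map_smul, real_smul, real_smul]
  rw [h c, h (I * c)]
  conv_rhs => rw [← re_add_im c]
  simp only [mul_re, mul_im, I_re, I_im, zero_mul, one_mul, zero_sub, zero_add, map_add, map_mul,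
    conj_ofReal, conj_I, ofReal_neg]
  linear_combination (c.im * L I) * I_mul_I

theorem smooth_q (Z : X n →L[ℝ] V n) : ContDiff ℝ ∞ fun x => bd (Z x) (Z x) := by
  unfold bd
  fun_prop

theorem fderiv_q (Z : X n →L[ℝ] V n) (x v : X n) :
    fderiv ℝ (fun x => bd (Z x) (Z x)) x v = 2 * bd (Z v) (Z x) := by
  have h : ∀ k, HasFDerivAt (fun x => Z x k) ((ContinuousLinearMap.proj k).comp Z) x := fun k =>
    ((ContinuousLinearMap.proj k).comp Z).hasFDerivAt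
  have h' := HasFDerivAt.fun_sum (u := Finset.univ) fun k _ => (h k).mul (h k)
  unfold bd
  rw [show (fun x => ∑ k, Z x k * Z x k) = fun x => ∑ k, ((fun x => Z x k) * fun x => Z x k) x
    from rfl, h'.fderiv, ContinuousLinearMap.sum_apply, Finset.mul_sum]
  refine Finset.sum_congr rfl fun k _ => ?_
  simp
  ring

theorem dbar_comp (e : E n) (Z : X n →L[ℝ] V n) {γ : ℂ → ℂ} (hγ : ContDiff ℝ ∞ γ) (x : X n)
    (W : ℂ × V n) (h : Z (sg e (I • W)) = I • Z (sg e W)) :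
    ‖dbar e (fun x => γ (bd (Z x) (Z x))) x W‖ =
      2 * (‖db γ (bd (Z x) (Z x))‖ * ‖bd (Z (sg e W)) (Z x)‖) := by
  have h1 := fderiv_comp' x (hγ.differentiable (by simp) _)
    ((smooth_q Z).differentiable (by simp) x)
  have h2 : 2 * bd (I • Z (sg e W)) (Z x) = I * (2 * bd (Z (sg e W)) (Z x)) := by
    simp only [bd, Finset.mul_sum, Pi.smul_apply, smul_eq_mul]
    exact Finset.sum_congr rfl fun k _ => by ring
  rw [dbar, h1, ContinuousLinearMap.comp_apply, ContinuousLinearMap.comp_apply, fderiv_q,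
    fderiv_q, h, h2, lin_db, norm_mul, norm_conj, norm_mul, Complex.norm_ofNat, db]
  ring

theorem dbar_mul (e : E n) {f g : X n → ℂ} {x : X n} (hf : DifferentiableAt ℝ f x)
    (hg : DifferentiableAt ℝ g x) (W : ℂ × V n) :
    dbar e (fun x => f x * g x) x W = f x * dbar e g x W + g x * dbar e f x W := by
  simp only [dbar, fderiv_fun_mul hf hg, ContinuousLinearMap.add_apply,
    ContinuousLinearMap.smul_apply, smul_eq_mul]
  ring

theorem nsq_nonneg (u : V n) : 0 ≤ nsq u := Finset.sum_nonneg fun _ _ => sq_nonneg _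

theorem sg_le (e : E n) (W : ℂ × V n) : ‖(sg e W).1‖ ^ 2 ≤ ‖W.1‖ ^ 2 + nsq W.2 := by
  have h1 : ‖W.1.re‖ ^ 2 ≤ ‖W.1‖ ^ 2 := pow_le_pow_left₀ (norm_nonneg _) (abs_re_le_norm _) 2
  have h2 : ‖reV W.2‖ ^ 2 ≤ nsq W.2 := by
    rw [EuclideanSpace.norm_sq_eq]
    exact Finset.sum_le_sum fun k _ => pow_le_pow_left₀ (norm_nonneg _) (abs_re_le_norm _) 2
  change (max ‖W.1.re‖ ‖reV W.2‖) ^ 2 ≤ _
  rcases max_choice ‖W.1.re‖ ‖reV W.2‖ with h | h <;> rw [h]
  · linarith [nsq_nonneg W.2]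
  · linarith [sq_nonneg ‖W.1‖]

theorem dbar_cut (e : E n) {Ξ : B n → ℝ} (hΞ : ContDiff ℝ ∞ Ξ) (x : X n) (W : ℂ × V n) :
    ‖dbar e (fun x => (Ξ x.1 : ℂ)) x W‖ ^ 2 ≤
      2 * ‖fderiv ℝ Ξ x.1‖ ^ 2 * (‖W.1‖ ^ 2 + nsq W.2) := by
  have h1 : HasFDerivAt (fun x : X n => (Ξ x.1 : ℂ))
      (ofRealCLM.comp ((fderiv ℝ Ξ x.1).comp (ContinuousLinearMap.fst ℝ _ _))) x :=
    ofRealCLM.hasFDerivAt.comp x
      ((hΞ.differentiable (by simp) x.1).hasFDerivAt.comp x hasFDerivAt_fst)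
  have h2 : ∀ W : ℂ × V n, fderiv ℝ Ξ x.1 (sg e W).1 ^ 2 ≤
      ‖fderiv ℝ Ξ x.1‖ ^ 2 * (‖W.1‖ ^ 2 + nsq W.2) := fun W => by
    refine le_trans ?_ (mul_le_mul_of_nonneg_left (sg_le e W) (sq_nonneg _))
    rw [← mul_pow, ← sq_abs]
    exact pow_le_pow_left₀ (abs_nonneg _) ((fderiv ℝ Ξ x.1).le_opNorm _) 2
  have h3 := h2 (I • W)
  have h4 : ‖(I • W).1‖ ^ 2 + nsq (I • W).2 = ‖W.1‖ ^ 2 + nsq W.2 := by simp [nsq]
  rw [h4] at h3
  rw [dbar, h1.fderiv, mul_comm I]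
  change ‖((fderiv ℝ Ξ x.1 (sg e W).1 : ℝ) : ℂ) + (fderiv ℝ Ξ x.1 (sg e (I • W)).1 : ℝ) * I‖ ^ 2 ≤ _
  rw [Complex.sq_norm, normSq_add_mul_I]
  linarith [h2 W]

theorem four_sq (a b c d : ℂ) :
    ‖a + b + c + d‖ ^ 2 ≤ 4 * (‖a‖ ^ 2 + ‖b‖ ^ 2 + ‖c‖ ^ 2 + ‖d‖ ^ 2) := by
  have h : ‖a + b + c + d‖ ≤ ‖a‖ + ‖b‖ + ‖c‖ + ‖d‖ :=
    (norm_add_le _ _).trans (add_le_add_left norm_add₃_le _)
  refine (pow_le_pow_left₀ (norm_nonneg _) h 2).trans ?_
  nlinarith [sq_nonneg (‖a‖ - ‖b‖), sq_nonneg (‖a‖ - ‖c‖), sq_nonneg (‖a‖ - ‖d‖),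
    sq_nonneg (‖b‖ - ‖c‖), sq_nonneg (‖b‖ - ‖d‖), sq_nonneg (‖c‖ - ‖d‖)]

theorem norm_le (A : Api n) {a b : E n} {lam R : ℝ} (h : ‖pz a b‖ ≤ lam) (ha : ‖a‖ ≤ R) :
    ‖b‖ ≤ √(R ^ 2 + lam) := by
  have h1 := (abs_re_le_norm (pz a b)).trans h
  rw [A.pz_eq] at h1
  simp only [add_re, ofReal_re, mul_re, I_re, mul_zero, ofReal_im, I_im, mul_one, sub_self,
    add_zero] at h1
  refine Real.le_sqrt_of_sq_le ?_
  linarith [(abs_le.1 h1).1, pow_le_pow_left₀ (norm_nonneg _) ha 2]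

end Vs

open Vs in
theorem vsStmt {n : ℕ} (A : Api n) : VsStmt n := by
  intro e a₀ lam tau ρ F Ξ hF hΞ hc hs
  have c1 : Continuous (a1 e) := by unfold a1; fun_prop
  have c2 : Continuous (a2 e) := by unfold a2; fun_prop
  have hO : IsOpen {x : X n | x.1 ∈ Ob e a₀} :=
    ((isOpen_lt continuous_const c1.norm).inter (isOpen_lt continuous_const c2.norm)).preimage
      continuous_fst
  have s0 : ContDiff ℝ ∞ fun x : X n => (Ξ x.1 : ℂ) :=
    ofRealCLM.contDiff.comp (hΞ.comp contDiff_fst)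
  have s1 : ContDiff ℝ ∞ fun x => ρ.γ (p1 e x) := ρ.γ_smooth.comp (smooth_q (Z1 e))
  have s2 : ContDiff ℝ ∞ fun x => ρ.γ (p2 e x) := ρ.γ_smooth.comp (smooth_q (Z2 e))
  have hz : ∀ x : X n, x.1 ∉ tsupport Ξ → vv ρ e Ξ F =ᶠ[𝓝 x] 0 := fun x hx => by
    filter_upwards [continuous_fst.continuousAt.eventually (notMem_tsupport_iff_eventuallyEq.1 hx)]
      with y hy
    rw [vv, hy]
    simp
  have hFx : ∀ x : X n, x.1 ∈ tsupport Ξ → ContDiffAt ℝ 1 F x := fun x hx =>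
    hF.contDiffAt (hO.mem_nhds (hs hx))
  refine ⟨contDiff_iff_contDiffAt.2 fun x => ?_, ?_,
    fun x hx => by_contra fun h => notMem_tsupport_iff_eventuallyEq.2 (hz x h) hx,
    fun x => ?_, fun x W => ?_⟩
  · by_cases hx : x.1 ∈ tsupport Ξ
    · exact (((s0.mul s1).mul s2).of_le (by simp)).contDiffAt.mul (hFx x hx)
    · exact contDiffAt_const.congr_of_eventuallyEq (hz x hx)
  · obtain ⟨R₁, h₁⟩ := hc.isCompact.exists_bound_of_continuousOn c1.continuousOn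
    obtain ⟨R₂, h₂⟩ := hc.isCompact.exists_bound_of_continuousOn c2.continuousOn
    refine HasCompactSupport.intro (hc.isCompact.prod
      ((isCompact_closedBall (0 : E n) √(R₁ ^ 2 + lam)).prod
        (isCompact_closedBall (0 : E n) √(R₂ ^ 2 + lam)))) fun x hx => by_contra fun h => hx ?_
    simp only [vv, mul_eq_zero, not_or, ofReal_eq_zero] at h
    have hx1 : x.1 ∈ tsupport Ξ := subset_tsupport _ h.1.1.1
    exact ⟨hx1, mem_closedBall_zero_iff.2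
        (norm_le A (not_lt.1 fun h' => h.1.1.2 (ρ.γ_zero _ h')) (h₁ _ hx1)),
      mem_closedBall_zero_iff.2 (norm_le A (not_lt.1 fun h' => h.1.2 (ρ.γ_zero _ h')) (h₂ _ hx1))⟩
  · simp only [vv, pp, Reg.ph, norm_mul, mul_pow, norm_real, Real.norm_eq_abs, sq_abs]
    ring
  · have hn := nsq_nonneg W.2
    by_cases hx : x.1 ∈ tsupport Ξ
    · have d0 := s0.differentiable (by simp) x
      have d1 := s1.differentiable (by simp) x
      have d2 := s2.differentiable (by simp) x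
      have d3 := (hFx x hx).differentiableAt (by simp)
      have e1 : ‖dbar e (fun x => ρ.γ (p1 e x)) x W‖ =
          2 * (‖db ρ.γ (p1 e x)‖ * ‖bd (X1 e W) (z1 e x)‖) := by
        rw [← Z1_sg]
        exact dbar_comp e (Z1 e) ρ.γ_smooth x W (by rw [Z1_sg, Z1_sg, X1_I])
      have e2 : ‖dbar e (fun x => ρ.γ (p2 e x)) x W‖ =
          2 * (‖db ρ.γ (p2 e x)‖ * ‖bd (X2 e W) (z2 e x)‖) := by
        rw [← Z2_sg]
        exact dbar_comp e (Z2 e) ρ.γ_smooth x W (by rw [Z2_sg, Z2_sg, X2_I])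
      have e3 : dbar e (vv ρ e Ξ F) x W =
          Ξ x.1 * ρ.γ (p1 e x) * ρ.γ (p2 e x) * dbar e F x W +
          ρ.γ (p1 e x) * ρ.γ (p2 e x) * F x * dbar e (fun x => (Ξ x.1 : ℂ)) x W +
          Ξ x.1 * F x * ρ.γ (p2 e x) * dbar e (fun x => ρ.γ (p1 e x)) x W +
          Ξ x.1 * F x * ρ.γ (p1 e x) * dbar e (fun x => ρ.γ (p2 e x)) x W := by
        unfold vv
        rw [dbar_mul e ((d0.fun_mul d1).fun_mul d2) d3, dbar_mul e (d0.fun_mul d1) d2,
          dbar_mul e d0 d1]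
        ring
      have e4 := mul_le_mul_of_nonneg_left (dbar_cut e hΞ x W)
        (show 0 ≤ ‖ρ.γ (p1 e x)‖ ^ 2 * ‖ρ.γ (p2 e x)‖ ^ 2 * ‖F x‖ ^ 2 by positivity)
      rw [e3]
      refine (four_sq _ _ _ _).trans ?_
      simp only [pp, Reg.ph, norm_mul, mul_pow, norm_real, Real.norm_eq_abs, sq_abs, e1, e2]
      linarith
    · rw [dbar, (hz x hx).fderiv_eq, fderiv_zero]
      simp only [pp, Reg.ph, Pi.zero_apply, ContinuousLinearMap.zero_apply, mul_zero, add_zero,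
        norm_zero, ne_eq, OfNat.ofNat_ne_zero, not_false_eq_true, zero_pow]
      positivity

end Pool.Agent.MP_71da5e_an.L

end
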