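import Pool.Agent.Mg.F71da5ea.G614156
import Pool.Agent.Mg.F71da5ea.Ge9e9cd
import Pool.Agent.Mg.F71da5ea.G8bae5f
import Pool.Agent.Mg.F71da5ea.G17b4dd
import Pool.Agent.Mg.F71da5ea.Gbdf581
import Pool.Agent.Mg.F71da5ea.Gd504cb
import Pool.Agent.Mg.F71da5ea.Gfc9d0a
import Pool.Agent.Mg.F71da5ea.G606037
import Pool.Agent.Mg.F71da5ea.Ge300b9
import Pool.Agent.Mg.F71da5ea.G82325a

section

namespace Pool.Agent.MP_71da5e_an.A

open MeasureTheory Metric Set Laplacian Filter Topology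
open scoped ContDiff ENNReal RealInnerProductSpace

variable {n : ℕ}

lemma mol2_fin {b : E n → ℝ} (hb : Continuous b) (hc : HasCompactSupport b) {F : E n → ℂ}
    (hF : WL2 F) : Q b F ≠ ⊤ := by
  have h1 : Continuous fun x => b x / wt x := hb.div continuous_wt fun x => (wt_pos x).ne'
  have h2 : HasCompactSupport fun x => b x / wt x :=
    hc.mono fun x hx h0 => hx (by simp [h0])
  obtain ⟨c, hc⟩ := h1.bddAbove_range_of_hasCompactSupport h2
  exact Q_ne_top_of_le hF.2 (c := c) fun x => (div_le_iff₀ (wt_pos x)).1 (hc (mem_range_self x))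

lemma mol2_sq (a b : ℂ) : ‖a + b‖ ^ 2 ≤ 2 * ‖a‖ ^ 2 + 2 * ‖b‖ ^ 2 := by
  have := pow_le_pow_left₀ (norm_nonneg _) (norm_add_le a b) 2
  nlinarith [sq_nonneg (‖a‖ - ‖b‖)]

lemma mol2_sq' (a b : ℂ) : ‖a - b‖ ^ 2 ≤ 2 * ‖a‖ ^ 2 + 2 * ‖b‖ ^ 2 := by
  simpa only [norm_neg, ← sub_eq_add_neg] using mol2_sq a (-b)

lemma mol2_two (b : E n → ℝ) (w : E n → ℂ) : Q (fun x => 2 * b x) w = 2 * Q b w := by
  rw [Q_const_mul zero_le_two, ENNReal.ofReal_ofNat]

/-- Mollifications converge locally in `L²`. -/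
theorem mol_L2 {η : ℕ → ContDiffBump (0 : E n)} (h₁ : Tendsto (fun j => (η j).rOut) atTop (𝓝 0))
    (h₂ : ∀ j, (η j).rOut ≤ 2 * (η j).rIn) {b : E n → ℝ} (hb : Continuous b)
    (hc : HasCompactSupport b) (hb0 : ∀ x, 0 ≤ b x) {F : E n → ℂ} (hF : WL2 F) :
    Tendsto (fun j => Q b fun x => mol (η j) F x - F x) atTop (𝓝 0) := by
  have hM := mol2_fin hb hc hF
  have hbm := hb.measurable
  have hFm := hF.1
  have hm : ∀ j, Measurable (mol (η j) F) := fun j =>
    (contDiff_mol (η j) hF).continuous.measurable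
  let r : ℕ → E n → ℝ := fun j x =>
    b x * (2 * ‖mol (η j) F x‖ ^ 2 + 2 * ‖F x‖ ^ 2 - ‖mol (η j) F x - F x‖ ^ 2)
  have hr : ∀ j, Measurable fun x => ENNReal.ofReal (r j x) := fun j => by
    have := hm j
    simp only [r]
    fun_prop
  have e1 : ∀ j, (∫⁻ x, ENNReal.ofReal (r j x)) + Q b (fun x => mol (η j) F x - F x) ≤
      2 * Q b (mol (η j) F) + 2 * Q b F := fun j => by
    have := hm j
    rw [← mol2_two, ← mol2_two]
    unfold Q
    rw [← lintegral_add_left (hr j), ← lintegral_add_left (by fun_prop)]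
    refine lintegral_mono fun x => le_of_eq ?_
    have k := hb0 x
    rw [← ENNReal.ofReal_add (mul_nonneg k (sub_nonneg.2 (mol2_sq' _ _))) (by positivity),
      ← ENNReal.ofReal_add (by positivity) (by positivity)]
    congr 1
    ring
  have e2 : 4 * Q b F ≤ liminf (fun j => ∫⁻ x, ENNReal.ofReal (r j x)) atTop := by
    refine le_trans (le_of_eq ?_) (lintegral_liminf_le hr)
    rw [← ENNReal.ofReal_ofNat, ← Q_const_mul (by norm_num)]
    refine lintegral_congr_ae ((tendsto_mol h₁ h₂ hF).mono fun x hx => ?_)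
    have k : Tendsto (fun j => r j x) atTop
        (𝓝 (b x * (2 * ‖F x‖ ^ 2 + 2 * ‖F x‖ ^ 2 - ‖F x - F x‖ ^ 2))) :=
      ((((hx.norm.pow 2).const_mul 2).add_const _).sub
        ((hx.sub_const _).norm.pow 2)).const_mul _
    beta_reduce
    rw [(ENNReal.tendsto_ofReal k).liminf_eq]
    congr 1
    rw [sub_self, norm_zero]
    ring
  rw [ENNReal.tendsto_nhds_zero]
  intro ε hε
  obtain ⟨δ, hδ, hδε⟩ := ENNReal.exists_nnreal_pos_mul_lt (a := 3) (by simp) hε.ne'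
  have hδ' : (δ : ℝ≥0∞) ≠ 0 := by simp [hδ.ne']
  have h4 : 4 * Q b F ≠ ⊤ := ENNReal.mul_ne_top (by simp) hM
  have e3 : ∀ᶠ j in atTop, 4 * Q b F ≤ (∫⁻ x, ENNReal.ofReal (r j x)) + δ := by
    by_cases h0 : 4 * Q b F = 0
    · simp [h0]
    · filter_upwards [eventually_lt_of_lt_liminf
        ((ENNReal.sub_lt_self h4 h0 hδ').trans_le e2)] with j hj
      exact tsub_le_iff_right.1 hj.le
  filter_upwards [e3, limsup_Q_mol h₁ hb hc hb0 hF hδ'] with j j1 j2
  have e4 : (∫⁻ x, ENNReal.ofReal (r j x)) + Q b (fun x => mol (η j) F x - F x) ≤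
      4 * Q b F + 2 * δ :=
    (e1 j).trans ((add_le_add_left (mul_le_mul_right j2 2) _).trans_eq (by ring))
  have e5 : ∫⁻ x, ENNReal.ofReal (r j x) ≠ ⊤ :=
    ne_top_of_le_ne_top (ENNReal.add_ne_top.2 ⟨h4, ENNReal.mul_ne_top (by simp) (by simp)⟩)
      (le_self_add.trans e4)
  refine le_trans ((ENNReal.add_le_add_iff_left e5).1 (e4.trans ?_)) hδε.le
  exact (add_le_add_left j1 _).trans_eq (by ring)

/-- Transfer of an estimate with a bounded potential from smooth functions to weak solutions. -/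
theorem transferV {a b₁ b₂ b₃ : E n → ℝ} {U : Set (E n)} (hU : IsOpen U) (ha : Measurable a)
    (h₁ : Continuous b₁) (h₁c : HasCompactSupport b₁) (h₁0 : ∀ x, 0 ≤ b₁ x)
    (h₁U : tsupport b₁ ⊆ U) (h₂ : Continuous b₂) (h₂c : HasCompactSupport b₂)
    (h₂0 : ∀ x, 0 ≤ b₂ x) (h₃ : Continuous b₃) (h₃c : HasCompactSupport b₃)
    (h₃0 : ∀ x, 0 ≤ b₃ x) (h₃U : tsupport b₃ ⊆ U) {A : ℝ} {q : E n → ℂ} (hq : Bd A q)
    (h : ∀ W : E n → ℂ, ContDiff ℝ ∞ W → Q a W ≤ Q b₁ (Pq q W) + Q b₂ W + Q b₃ (Δ W))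
    {w F : E n → ℂ} (hw : WP U w F) :
    Q a w ≤ 2 * Q b₁ (fun x => F x - q x * w x) + Q b₂ w + Q b₃ F := by
  let η : ℕ → ContDiffBump (0 : E n) := fun j =>
    ⟨1 / ((j : ℝ) + 1) / 2, 1 / ((j : ℝ) + 1), by positivity, half_lt_self (by positivity)⟩
  have hη : Tendsto (fun j => (η j).rOut) atTop (𝓝 0) := tendsto_one_div_add_atTop_nhds_zero_nat
  have hη2 : ∀ j, (η j).rOut ≤ 2 * (η j).rIn := fun j => le_of_eq (by simp only [η]; ring)
  obtain ⟨r, hr, hrU⟩ := h₁c.isCompact.exists_cthickening_subset_open hU h₁U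
  obtain ⟨r', hr', hrU'⟩ := h₃c.isCompact.exists_cthickening_subset_open hU h₃U
  refine ENNReal.le_of_forall_pos_le_add fun ε hε _ => ?_
  obtain ⟨δ, hδ, hδε⟩ := ENNReal.exists_nnreal_pos_mul_lt (a := 3) (by simp)
    (ENNReal.coe_ne_zero.2 hε.ne')
  have hδ' : (δ : ℝ≥0∞) ≠ 0 := by simp [hδ.ne']
  have hlim : Tendsto (fun j => ENNReal.ofReal 4 * Q b₁ (fun x => mol (η j) F x - F x) +
      ENNReal.ofReal (4 * A ^ 2) * Q b₁ (fun x => mol (η j) w x - w x)) atTop (𝓝 0) := by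
    have k1 := ENNReal.Tendsto.const_mul (a := ENNReal.ofReal 4)
      (mol_L2 hη hη2 h₁ h₁c h₁0 hw.2.1) (Or.inr ENNReal.ofReal_ne_top)
    have k2 := ENNReal.Tendsto.const_mul (a := ENNReal.ofReal (4 * A ^ 2))
      (mol_L2 hη hη2 h₁ h₁c h₁0 hw.1) (Or.inr ENNReal.ofReal_ne_top)
    simpa only [mul_zero, add_zero] using k1.add k2
  have hev : ∀ᶠ j in atTop, Q a (mol (η j) w) ≤
      2 * Q b₁ (fun x => F x - q x * w x) + Q b₂ w + Q b₃ F + ε := by
    filter_upwards [ENNReal.tendsto_nhds_zero.1 hlim δ (pos_iff_ne_zero.2 hδ'),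
      limsup_Q_mol hη h₂ h₂c h₂0 hw.1 hδ', limsup_Q_mol hη h₃ h₃c h₃0 hw.2.1 hδ',
      hη.eventually (gt_mem_nhds hr), hη.eventually (gt_mem_nhds hr')] with j j1 j2 j3 j4 j5
    have e₃ : Q b₃ (Δ (mol (η j) w)) ≤ Q b₃ (mol (η j) F) := by
      refine Q_mono fun x => ?_
      by_cases hx : b₃ x = 0
      · simp [hx]
      · rw [lap_mol (η j) hw ((closedBall_subset_closedBall j5.le).trans
          ((closedBall_subset_cthickening (subset_tsupport _ hx) r').trans hrU'))]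
    have e₂ : Q (fun x => 2 * b₁ x)
        (fun x => (mol (η j) F x - F x) - q x * (mol (η j) w x - w x)) ≤ δ := by
      refine le_trans ?_ j1
      rw [← Q_const_mul (by norm_num), ← Q_const_mul (by positivity)]
      refine Q_le_add (h₁.measurable.const_mul _)
        ((contDiff_mol (η j) hw.2.1).continuous.measurable.sub hw.2.1.1) fun x => ?_
      have k1 := mol2_sq' (mol (η j) F x - F x) (q x * (mol (η j) w x - w x))
      have k2 : ‖q x‖ ^ 2 ≤ A ^ 2 := pow_le_pow_left₀ (norm_nonneg _) (hq.2 x) 2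
      rw [norm_mul, mul_pow] at k1
      have k3 := mul_le_mul_of_nonneg_right k2 (sq_nonneg ‖mol (η j) w x - w x‖)
      have k4 := mul_le_mul_of_nonneg_left (k1.trans (add_le_add_right
        (mul_le_mul_of_nonneg_left k3 zero_le_two) _)) (h₁0 x)
      linarith
    have e₁ : Q b₁ (Pq q (mol (η j) w)) ≤ 2 * Q b₁ (fun x => F x - q x * w x) + δ := by
      refine le_trans ?_ (add_le_add_right e₂ _)
      rw [← mol2_two]
      refine Q_le_add (h₁.measurable.const_mul _) (hw.2.1.1.sub (hq.1.mul hw.1.1)) fun x => ?_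
      by_cases hx : b₁ x = 0
      · simp [hx]
      have k1 := mul_le_mul_of_nonneg_left (mol2_sq (F x - q x * w x)
        ((mol (η j) F x - F x) - q x * (mol (η j) w x - w x))) (h₁0 x)
      have k2 : Pq q (mol (η j) w) x =
          F x - q x * w x + ((mol (η j) F x - F x) - q x * (mol (η j) w x - w x)) := by
        rw [Pq, lap_mol (η j) hw ((closedBall_subset_closedBall j4.le).trans
          ((closedBall_subset_cthickening (subset_tsupport _ hx) r).trans hrU))]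
        ring
      rw [k2]
      linarith
    calc Q a (mol (η j) w)
        ≤ Q b₁ (Pq q (mol (η j) w)) + Q b₂ (mol (η j) w) + Q b₃ (Δ (mol (η j) w)) :=
          h _ (contDiff_mol _ hw.1)
      _ ≤ (2 * Q b₁ (fun x => F x - q x * w x) + δ) + (Q b₂ w + δ) + (Q b₃ F + δ) :=
          add_le_add (add_le_add e₁ j2) (e₃.trans j3)
      _ = 2 * Q b₁ (fun x => F x - q x * w x) + Q b₂ w + Q b₃ F + δ * 3 := by ring
      _ ≤ _ := add_le_add_right hδε.le _
  calc Q a w = ∫⁻ x, liminf (fun j => ENNReal.ofReal (a x * ‖mol (η j) w x‖ ^ 2)) atTop := by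
        refine lintegral_congr_ae ((tendsto_mol hη hη2 hw.1).mono fun x hx => ?_)
        exact (ENNReal.tendsto_ofReal ((hx.norm.pow 2).const_mul (a x))).liminf_eq.symm
    _ ≤ liminf (fun j => Q a (mol (η j) w)) atTop := by
        refine lintegral_liminf_le fun j => ?_
        have := (contDiff_mol (η j) hw.1).continuous.measurable
        fun_prop
    _ ≤ _ := liminf_le_of_frequently_le' hev.frequently

end Pool.Agent.MP_71da5e_an.A

end

section

namespace Pool.Agent.MP_71da5e_an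

open MeasureTheory Metric Set Laplacian Filter Topology
open scoped ContDiff ENNReal RealInnerProductSpace

variable {n : ℕ}

lemma dual_eLp (f : E n → ℂ) :
    eLpNorm f 2 volume ^ 2 = ∫⁻ x, ENNReal.ofReal (‖f x‖ ^ 2) := by
  have h := eLpNorm_nnreal_pow_eq_lintegral (f := f) (μ := volume) (p := 2) (by norm_num)
  have h2 : ((2 : NNReal) : ℝ) = ((2 : ℕ) : ℝ) := by norm_num
  rw [h2] at h
  simp only [ENNReal.rpow_natCast] at h
  have h3 : ((2 : NNReal) : ℝ≥0∞) = 2 := by norm_num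
  rw [h3] at h
  rw [h]
  refine lintegral_congr fun x => ?_
  rw [ENNReal.ofReal_pow (norm_nonneg _), ofReal_norm]

lemma dual_sq {b : E n → ℝ} (hb0 : ∀ x, 0 < b x) (w : E n → ℂ) :
    eLpNorm (fun x => ((√(b x) : ℝ) : ℂ) * w x) 2 volume ^ 2 = Q b w := by
  rw [dual_eLp]
  refine lintegral_congr fun x => ?_
  rw [norm_mul, Complex.norm_real, Real.norm_eq_abs, abs_of_nonneg (Real.sqrt_nonneg _), mul_pow,
    Real.sq_sqrt (hb0 x).le]

lemma dual_mem {b : E n → ℝ} (hb : Measurable b) (hb0 : ∀ x, 0 < b x) {w : E n → ℂ}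
    (hw : Measurable w) (hfin : Q b w ≠ ⊤) :
    MemLp (fun x => ((√(b x) : ℝ) : ℂ) * w x) 2 volume := by
  refine ⟨(Measurable.mul (Complex.measurable_ofReal.comp hb.sqrt) hw).aestronglyMeasurable, ?_⟩
  rw [← dual_sq hb0] at hfin
  exact lt_top_iff_ne_top.2 fun h => hfin (by rw [h]; simp)

lemma dual_hilbert {V H : Type*} [AddCommGroup V] [Module ℂ V] [NormedAddCommGroup H]
    [InnerProductSpace ℂ H] [CompleteSpace H] (T : V →ₗ[ℂ] H) (l : V →ₗ[ℂ] ℂ) {c : ℝ} (hc : 0 ≤ c)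
    (h : ∀ v, ‖l v‖ ≤ c * ‖T v‖) : ∃ g : H, ‖g‖ ≤ c ∧ ∀ v, inner ℂ g (T v) = l v := by
  have hk : LinearMap.ker T ≤ LinearMap.ker l := fun v hv => by
    have h1 := h v
    rw [LinearMap.mem_ker.1 hv, norm_zero, mul_zero] at h1
    exact LinearMap.mem_ker.2 (norm_le_zero_iff.1 h1)
  let φ : LinearMap.range T →ₗ[ℂ] ℂ :=
    ((LinearMap.ker T).liftQ l hk).comp (T.quotKerEquivRange.symm : _ →ₗ[ℂ] _)
  have hφ : ∀ v, φ ⟨T v, LinearMap.mem_range_self T v⟩ = l v := fun v => by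
    simp only [φ, LinearMap.comp_apply, LinearEquiv.coe_coe]
    rw [LinearMap.quotKerEquivRange_symm_apply_image]
    simp
  have hb : ∀ y : LinearMap.range T, ‖φ y‖ ≤ c * ‖y‖ := by
    rintro ⟨_, v, rfl⟩
    rw [hφ]
    exact h v
  obtain ⟨g, hg, hn⟩ := exists_extension_norm_eq (LinearMap.range T) (φ.mkContinuous c hb)
  refine ⟨(InnerProductSpace.toDual ℂ H).symm g, ?_, fun v => ?_⟩
  · rw [LinearIsometryEquiv.norm_map, hn]
    exact φ.mkContinuous_norm_le hc hb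
  · rw [InnerProductSpace.toDual_symm_apply]
    have := hg ⟨T v, LinearMap.mem_range_self T v⟩
    rw [LinearMap.mkContinuous_apply, hφ] at this
    exact this

theorem dual {V : Type*} [AddCommGroup V] [Module ℂ V] (G : V →ₗ[ℂ] (E n → ℂ)) (l : V →ₗ[ℂ] ℂ)
    {b : E n → ℝ} (hb : Measurable b) (hb0 : ∀ x, 0 < b x) (hG : ∀ v, Measurable (G v))
    (hfin : ∀ v, Q b (G v) ≠ ⊤) {C : ℝ≥0∞} (hC : C ≠ ⊤) (h : ∀ v, ‖l v‖ₑ ^ 2 ≤ C * Q b (G v)) :
    ∃ U : E n → ℂ, Measurable U ∧ Q (fun x => (b x)⁻¹) U ≤ C ∧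
      ∀ v, ∫ x, U x * G v x = l v := by
  have hm : ∀ v, MemLp (fun x => ((√(b x) : ℝ) : ℂ) * G v x) 2 volume := fun v =>
    dual_mem hb hb0 (hG v) (hfin v)
  let T : V →ₗ[ℂ] Lp ℂ 2 (volume : Measure (E n)) :=
    { toFun := fun v => (hm v).toLp _
      map_add' := fun v w => by
        rw [← MemLp.toLp_add]
        congr 1
        funext x
        simp [mul_add]
      map_smul' := fun a v => by
        rw [RingHom.id_apply, ← MemLp.toLp_const_smul]
        congr 1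
        funext x
        simp only [map_smul, Pi.smul_apply, smul_eq_mul]
        ring }
  have hT : ∀ v, ‖T v‖ₑ ^ 2 = Q b (G v) := fun v => by
    rw [← dual_sq hb0]
    congr 1
    exact Lp.enorm_toLp (hm v)
  have hl : ∀ v, ‖l v‖ ≤ √(C.toReal) * ‖T v‖ := fun v => by
    have h1 := h v
    rw [← hT] at h1
    have h2 := ENNReal.toReal_mono (ENNReal.mul_ne_top hC (ENNReal.pow_ne_top enorm_ne_top)) h1
    simp only [ENNReal.toReal_mul, ENNReal.toReal_pow, toReal_enorm] at h2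
    refine (pow_le_pow_iff_left₀ (norm_nonneg _) (by positivity) two_ne_zero).1 ?_
    rw [mul_pow, Real.sq_sqrt ENNReal.toReal_nonneg]
    exact h2
  obtain ⟨g, hg, hgT⟩ := dual_hilbert T l (Real.sqrt_nonneg _) hl
  have hs := Lp.aestronglyMeasurable g
  refine ⟨fun x => (starRingEnd ℂ) (hs.mk g x) * ((√(b x) : ℝ) : ℂ), ?_, ?_, fun v => ?_⟩
  · exact Measurable.mul (Complex.continuous_conj.measurable.comp hs.stronglyMeasurable_mk.measurable)
      (Complex.measurable_ofReal.comp hb.sqrt)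
  · have h1 : Q (fun x => (b x)⁻¹) (fun x => (starRingEnd ℂ) (hs.mk g x) * ((√(b x) : ℝ) : ℂ)) =
        eLpNorm g 2 volume ^ 2 := by
      rw [eLpNorm_congr_ae hs.ae_eq_mk, dual_eLp]
      refine lintegral_congr fun x => ?_
      have := (hb0 x).ne'
      simp only []
      rw [norm_mul, Complex.norm_real, Real.norm_eq_abs, abs_of_nonneg (Real.sqrt_nonneg _), mul_pow,
        Real.sq_sqrt (hb0 x).le, Complex.norm_conj]
      congr 1
      field_simp
    rw [h1, ← Lp.enorm_def, ← ofReal_norm, ← ENNReal.ofReal_pow (norm_nonneg _),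
      ← ENNReal.ofReal_toReal hC]
    refine ENNReal.ofReal_le_ofReal ?_
    calc ‖g‖ ^ 2 ≤ √(C.toReal) ^ 2 := by gcongr
      _ = C.toReal := Real.sq_sqrt ENNReal.toReal_nonneg
  · rw [← hgT v, L2.inner_def]
    refine integral_congr_ae ?_
    filter_upwards [hs.ae_eq_mk, (hm v).coeFn_toLp] with x h1 h2
    have h3 : (T v) x = ((√(b x) : ℝ) : ℂ) * G v x := h2
    rw [h3, ← h1, RCLike.inner_apply]
    ring

end Pool.Agent.MP_71da5e_an

end

section

namespace Pool.Agent.MP_71da5e_an.A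

open MeasureTheory Metric Set Laplacian Filter Topology
open scoped ContDiff ENNReal RealInnerProductSpace

variable {n : ℕ}

lemma liou_bd (ν : E n) (t : ℝ) : Bd (t ^ 2)⁻¹ fun x => (Vt ν t x : ℂ) :=
  ⟨Complex.measurable_ofReal.comp (measurable_Vt ν t), fun x => by
    rw [Complex.norm_real, Real.norm_of_nonneg (Vt_nonneg ν t x)]
    exact Vt_le ν t x⟩

lemma liou_const {a : E n → ℝ} {c : ℝ} (hc : 0 ≤ c) (h : ∀ x, a x ≤ c) (w : E n → ℂ) :
    Q a w ≤ ENNReal.ofReal c * N2 w := by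
  rw [N2, ← Q_const_mul hc]
  exact Q_mono_left w fun x => (h x).trans_eq (mul_one c).symm

lemma liou_mul {A : ℝ} {q w : E n → ℂ} (hq : Bd A q) (hw : N2 w ≠ ⊤) :
    N2 (fun x => q x * w x) ≠ ⊤ := by
  refine ne_top_of_le_ne_top (ENNReal.mul_ne_top (ENNReal.ofReal_ne_top (r := A ^ 2)) hw)
    (le_trans (Q_mono fun x => ?_) (liou_const (a := fun _ => A ^ 2) (sq_nonneg A)
      (fun _ => le_rfl) w))
  rw [one_mul, norm_mul, mul_pow]
  exact mul_le_mul_of_nonneg_right (pow_le_pow_left₀ (norm_nonneg _) (hq.2 x) 2) (sq_nonneg _)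

lemma liou_sub {w w' : E n → ℂ} (hw : Measurable w) :
    N2 (fun x => w x - w' x) ≤ 2 * N2 w + 2 * N2 w' := by
  have h : ∀ v : E n → ℂ, Q (fun _ => 2) v ≤ 2 * N2 v := fun v => by
    simpa using liou_const (a := fun _ => 2) zero_le_two (fun _ => le_rfl) v
  refine le_trans (Q_le_add measurable_const hw fun x => ?_) (add_le_add (h w) (h w'))
  have h1 := pow_le_pow_left₀ (norm_nonneg _) (norm_sub_le (w x) (w' x)) 2
  nlinarith [sq_nonneg (‖w x‖ - ‖w' x‖)]

lemma liou_sub_ne {w w' : E n → ℂ} (hw : Measurable w) (h : N2 w ≠ ⊤) (h' : N2 w' ≠ ⊤) :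
    N2 (fun x => w x - w' x) ≠ ⊤ :=
  ne_top_of_le_ne_top (ENNReal.add_ne_top.2 ⟨ENNReal.mul_ne_top (by simp) h,
    ENNReal.mul_ne_top (by simp) h'⟩) (liou_sub hw)

lemma liou_tst {φ : E n → ℂ} (h : Tst φ) : N2 φ ≠ ⊤ := by
  have h1 : HasCompactSupport fun x => 1 * ‖φ x‖ ^ 2 :=
    h.2.mono fun x hx h0 => hx (by simp [h0])
  rw [N2, Q_eq_ofReal (fun _ => zero_le_one) ((continuous_const.mul
    (h.1.continuous.norm.pow 2)).integrable_of_hasCompactSupport h1)]
  exact ENNReal.ofReal_ne_top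

lemma liou_rf {ν : E n} (hν : ‖ν‖ = 1) (w : E n → ℂ) : N2 (fun x => w (rf ν x)) = N2 w :=
  Q_rf hν (fun _ => rfl) w

lemma liou_smooth {ν : E n} (hν : ‖ν‖ = 1) {t : ℝ} (ht : 0 < t) {χ θ : E n → ℝ}
    (hχ : ContDiff ℝ ∞ χ) (hχc : HasCompactSupport χ) (h₁ : ContDiff ℝ ∞ θ)
    (h₁c : HasCompactSupport θ) (hθ : ∀ x, ‖fderiv ℝ χ x‖ ≤ θ x) {W : E n → ℂ}
    (hW : ContDiff ℝ ∞ W) :
    Q (fun x => (10 ^ 4 * t ^ 4)⁻¹ * χ x ^ 2) W ≤
      Q (fun x => 3 * χ x ^ 2) (Pq (fun x => (Vt ν t x : ℂ)) W) +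
      Q (fun x => 3 * Δ χ x ^ 2 + 12 * (1 * θ x ^ 2 + 4 * ‖fderiv ℝ θ x‖ ^ 2)) W +
      Q (fun x => 12 * (1⁻¹ * θ x ^ 2)) (Δ W) := by
  have hχC : ContDiff ℝ ∞ fun y => (χ y : ℂ) := Complex.ofRealCLM.contDiff.comp hχ
  have hv : Tst fun y => (χ y : ℂ) * W y :=
    ⟨hχC.mul hW, hχc.mono fun y hy h => hy (by simp [h])⟩
  have e0 : Q (fun x => χ x ^ 2) W = N2 fun y => (χ y : ℂ) * W y := by
    unfold N2 Q
    refine lintegral_congr fun x => ?_
    rw [norm_mul, Complex.norm_real, mul_pow, Real.norm_eq_abs, sq_abs, one_mul]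
  have hc : (0 : ℝ) < 10 ^ 4 * t ^ 4 := by positivity
  have e1 : Q (fun x => (10 ^ 4 * t ^ 4)⁻¹ * χ x ^ 2) W ≤ N2 (Lt ν t fun y => (χ y : ℂ) * W y) := by
    rw [Q_const_mul (inv_pos.2 hc).le, e0]
    refine (mul_le_mul_right (model_est hν ht hv).1 _).trans_eq ?_
    rw [← mul_assoc, ← ENNReal.ofReal_mul (inv_pos.2 hc).le, inv_mul_cancel₀ hc.ne',
      ENNReal.ofReal_one, one_mul]
  have mW : Measurable W := hW.continuous.measurable
  have mP : Measurable (Pq (fun x => (Vt ν t x : ℂ)) W) :=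
    (contDiff_lap hW).continuous.measurable.sub ((liou_bd ν t).1.mul mW)
  have mχ : Measurable χ := hχ.continuous.measurable
  have mLχ : Measurable (Δ χ) := (contDiff_lap hχ).continuous.measurable
  have hpt : ∀ x, 1 * ‖Lt ν t (fun y => (χ y : ℂ) * W y) x‖ ^ 2 ≤
      3 * χ x ^ 2 * ‖Pq (fun x => (Vt ν t x : ℂ)) W x‖ ^ 2 + 3 * Δ χ x ^ 2 * ‖W x‖ ^ 2 +
        12 * (θ x ^ 2 * ‖fderiv ℝ W x‖ ^ 2) := by
    intro x
    have e : Lt ν t (fun y => (χ y : ℂ) * W y) x = (χ x : ℂ) * Pq (fun x => (Vt ν t x : ℂ)) W x +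
        2 * fderiv ℝ W x (gradient χ x) + ((Δ χ x : ℝ) : ℂ) * W x := by
      rw [Lt, Pq, lap_smul (hχ.contDiffAt.of_le scut_two) (hW.contDiffAt.of_le scut_two)]
      ring
    have h3 := scut_three ((χ x : ℂ) * Pq (fun x => (Vt ν t x : ℂ)) W x)
      (2 * fderiv ℝ W x (gradient χ x)) (((Δ χ x : ℝ) : ℂ) * W x)
    have hg : ‖fderiv ℝ W x (gradient χ x)‖ ≤ ‖fderiv ℝ W x‖ * θ x :=
      (ContinuousLinearMap.le_opNorm _ _).trans (mul_le_mul_of_nonneg_left
        ((norm_gradient_eq χ x).trans_le (hθ x)) (norm_nonneg _))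
    have hg2 := pow_le_pow_left₀ (norm_nonneg _) hg 2
    rw [e]
    simp only [norm_mul, Complex.norm_real, mul_pow, Real.norm_eq_abs, sq_abs,
      Complex.norm_ofNat] at h3 hg2
    nlinarith
  have hle : N2 (Lt ν t fun y => (χ y : ℂ) * W y) ≤
      Q (fun x => 3 * χ x ^ 2) (Pq (fun x => (Vt ν t x : ℂ)) W) + Q (fun x => 3 * Δ χ x ^ 2) W +
        ∫⁻ x, ENNReal.ofReal (12 * (θ x ^ 2 * ‖fderiv ℝ W x‖ ^ 2)) := by
    unfold N2 Q
    rw [← lintegral_add_left (by fun_prop), ← lintegral_add_left (by fun_prop)]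
    refine lintegral_mono fun x => (ENNReal.ofReal_le_ofReal (hpt x)).trans ?_
    exact ENNReal.ofReal_add_le.trans (add_le_add ENNReal.ofReal_add_le le_rfl)
  rw [Q_add_left (by fun_prop) mW (fun x => by positivity) fun x => by positivity]
  refine (e1.trans hle).trans ((add_le_add le_rfl (scut_grad hW h₁ h₁c one_pos)).trans_eq ?_)
  ring

lemma liou_weak {ν : E n} (hν : ‖ν‖ = 1) {t : ℝ} (ht : 0 < t) {χ θ : E n → ℝ}
    (hχ : ContDiff ℝ ∞ χ) (hχc : HasCompactSupport χ) (hθ : ContDiff ℝ ∞ θ)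
    (hθc : HasCompactSupport θ) (hd : ∀ x, ‖fderiv ℝ χ x‖ ≤ θ x) {W : E n → ℂ}
    (h : WP univ W fun x => Vt ν t x * W x) {c : ℝ} (hc : 0 ≤ c)
    (h₂ : ∀ x, 3 * Δ χ x ^ 2 + 12 * (1 * θ x ^ 2 + 4 * ‖fderiv ℝ θ x‖ ^ 2) ≤ c)
    (h₃ : ∀ x, 12 * (1⁻¹ * θ x ^ 2) ≤ c) :
    Q (fun x => (10 ^ 4 * t ^ 4)⁻¹ * χ x ^ 2) W ≤
      ENNReal.ofReal c * (N2 W + N2 fun x => Vt ν t x * W x) := by
  have hLc : HasCompactSupport (Δ χ) :=
    IsCompact.of_isClosed_subset hχc (isClosed_tsupport _) (tsupport_lap _)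
  have c1 := hχ.continuous
  have c2 := hθ.continuous
  have c3 := (contDiff_lap hχ).continuous
  have c4 := hθ.continuous_fderiv (by simp)
  have s1 : HasCompactSupport fun x => 3 * χ x ^ 2 := (scut_sq hχc).mul_left
  have s2 : HasCompactSupport fun x => 3 * Δ χ x ^ 2 := (scut_sq hLc).mul_left
  have s3 : HasCompactSupport fun x => 1 * θ x ^ 2 := (scut_sq hθc).mul_left
  have s4 : HasCompactSupport fun x => 4 * ‖fderiv ℝ θ x‖ ^ 2 := (scut_sq_fderiv hθc).mul_left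
  have s5 : HasCompactSupport fun x => 1 * θ x ^ 2 + 4 * ‖fderiv ℝ θ x‖ ^ 2 := s3.add s4
  have s6 : HasCompactSupport fun x => 12 * (1 * θ x ^ 2 + 4 * ‖fderiv ℝ θ x‖ ^ 2) := s5.mul_left
  have s7 : HasCompactSupport fun x =>
      3 * Δ χ x ^ 2 + 12 * (1 * θ x ^ 2 + 4 * ‖fderiv ℝ θ x‖ ^ 2) := s2.add s6
  have s8 : HasCompactSupport fun x => 1⁻¹ * θ x ^ 2 := (scut_sq hθc).mul_left
  have s9 : HasCompactSupport fun x => 12 * (1⁻¹ * θ x ^ 2) := s8.mul_left
  have h0 := transferV (a := fun x => (10 ^ 4 * t ^ 4)⁻¹ * χ x ^ 2) isOpen_univ (by fun_prop)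
    (by fun_prop) s1 (fun x => by positivity) (subset_univ _) (by fun_prop) s7
    (fun x => by positivity) (by fun_prop) s9 (fun x => by positivity) (subset_univ _)
    (liou_bd ν t) (fun W hW => liou_smooth hν ht hχ hχc hθ hθc hd hW) h
  have h1 : Q (fun x => 3 * χ x ^ 2) (fun x => Vt ν t x * W x - Vt ν t x * W x) = 0 := by
    simp [Q]
  rw [h1, mul_zero, zero_add] at h0
  rw [mul_add]
  exact h0.trans (add_le_add (liou_const hc h₂ W) (liou_const hc h₃ _))

lemma liou_supp {R : ℝ} (hR : 0 < R) : HasCompactSupport (annB (0 : E n) R) :=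
  HasCompactSupport.intro (isCompact_closedBall 0 (2 * R)) fun x hx => annB_zero hR (by
    rw [mem_closedBall, dist_eq_norm, not_le] at hx
    exact hx.le)

lemma liou_cut {ν : E n} (hν : ‖ν‖ = 1) {t : ℝ} (ht : 0 < t) : ∃ C : ℝ, ∀ W : E n → ℂ,
    (WP univ W fun x => Vt ν t x * W x) → ∀ R : ℝ, 1 ≤ R →
    Q (fun x => (10 ^ 4 * t ^ 4)⁻¹ * annB 0 R x ^ 2) W ≤
      ENNReal.ofReal (C / R) * (N2 W + N2 fun x => Vt ν t x * W x) := by
  obtain ⟨K, hK, k1, k2⟩ := annK n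
  refine ⟨15 * K ^ 2 + 48 * K ^ 4, fun W h R hR => ?_⟩
  have hR0 : 0 < R := by linarith
  have hR2 : 0 < 2 * R := by linarith
  have hχ := annB_smooth (0 : E n) R
  have hχc := liou_supp (n := n) hR0
  have hθ : ContDiff ℝ ∞ fun x : E n => K / R * annB 0 (2 * R) x :=
    contDiff_const.mul (annB_smooth 0 _)
  have hθc : HasCompactSupport fun x : E n => K / R * annB 0 (2 * R) x :=
    (liou_supp hR2).mul_left
  have hKR : 0 ≤ K / R := by positivity
  have hd : ∀ x : E n, ‖fderiv ℝ (annB 0 R) x‖ ≤ K / R * annB 0 (2 * R) x := fun x => by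
    refine (annB_fderiv k1 hR0 x).trans ?_
    unfold sh
    split_ifs with h1
    · rw [annB_one hR2 h1.2, mul_comm]
    · rw [zero_mul]
      exact mul_nonneg hKR (annB_nonneg _ _ _)
  have b0 : (K / R) ^ 2 ≤ K ^ 2 / R := by
    rw [div_pow]
    exact div_le_div_of_nonneg_left (sq_nonneg K) hR0 (by nlinarith)
  have b1 : ∀ x : E n, (K / R * annB 0 (2 * R) x) ^ 2 ≤ K ^ 2 / R := fun x =>
    (pow_le_pow_left₀ (mul_nonneg hKR (annB_nonneg _ _ _))
      (mul_le_of_le_one_right hKR (annB_le_one _ _ _)) 2).trans b0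
  have b2 : ∀ x : E n, Δ (annB 0 R) x ^ 2 ≤ K ^ 2 / R := fun x => by
    rw [← sq_abs]
    refine (pow_le_pow_left₀ (abs_nonneg _) ((annB_lap k2 hR0 x).trans
      ((mul_le_of_le_one_left (by positivity) (sh_le_one _ _ _ _)).trans ?_)) 2).trans b0
    exact div_le_div_of_nonneg_left hK.le hR0 (by nlinarith)
  have b3 : ∀ x : E n, ‖fderiv ℝ (fun x : E n => K / R * annB 0 (2 * R) x) x‖ ^ 2 ≤
      K ^ 4 / R := fun x => by
    have h1 : ‖fderiv ℝ (annB (0 : E n) (2 * R)) x‖ ≤ K := (annB_fderiv k1 hR2 x).trans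
      ((mul_le_of_le_one_left (by positivity) (sh_le_one _ _ _ _)).trans
        (div_le_self hK.le (by linarith)))
    rw [fderiv_const_mul ((annB_smooth 0 _).differentiable (by simp) x), norm_smul, mul_pow,
      Real.norm_eq_abs, sq_abs]
    refine (mul_le_mul b0 (pow_le_pow_left₀ (norm_nonneg _) h1 2) (sq_nonneg _)
      (by positivity)).trans_eq ?_
    ring
  have p2 : 0 ≤ K ^ 2 / R := by positivity
  have p4 : 0 ≤ K ^ 4 / R := by positivity
  have e : (15 * K ^ 2 + 48 * K ^ 4) / R = 15 * (K ^ 2 / R) + 48 * (K ^ 4 / R) := by ring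
  refine liou_weak hν ht hχ hχc hθ hθc hd h (by positivity) (fun x => ?_) fun x => ?_
  · linarith [b1 x, b2 x, b3 x]
  · linarith [b1 x]

/-- The model operator has no square integrable null solution. -/
theorem liouville {ν : E n} (hν : ‖ν‖ = 1) {t : ℝ} (ht : 0 < t) {W : E n → ℂ} (hW : Measurable W)
    (hfin : N2 W ≠ ⊤) (h : WP univ W fun x => Vt ν t x * W x) : ∀ᵐ x, W x = 0 := by
  obtain ⟨C, hC⟩ := liou_cut hν ht
  have hc : (0 : ℝ) < (10 ^ 4 * t ^ 4)⁻¹ := by positivity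
  have hM : N2 W + N2 (fun x => Vt ν t x * W x) ≠ ⊤ :=
    ENNReal.add_ne_top.2 ⟨hfin, liou_mul (liou_bd ν t) hfin⟩
  have hlim : Tendsto (fun R : ℝ => ENNReal.ofReal (C / R) *
      (N2 W + N2 fun x => Vt ν t x * W x)) atTop (𝓝 0) := by
    have h1 := ENNReal.tendsto_ofReal (tendsto_const_nhds.div_atTop (a := C) tendsto_id)
    simpa using ENNReal.Tendsto.mul_const h1 (Or.inr hM)
  have hz : ∀ m : ℕ, ∀ᵐ x, x ∈ ball (0 : E n) m → W x = 0 := by
    intro m
    have h1 : Q (fun x => (10 ^ 4 * t ^ 4)⁻¹ * ind (ball 0 m) x) W ≤ 0 := by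
      refine ge_of_tendsto hlim ?_
      filter_upwards [eventually_ge_atTop (1 : ℝ), eventually_ge_atTop (m : ℝ)] with R h1 h2
      refine le_trans (Q_mono_left W fun x => mul_le_mul_of_nonneg_left ?_ hc.le) (hC W h R h1)
      by_cases hx : x ∈ ball (0 : E n) m
      · rw [ind_of_mem hx, annB_one (by linarith) ((mem_ball_iff_norm.1 hx).le.trans h2), one_pow]
      · rw [ind_of_notMem hx]
        exact sq_nonneg _
    have h2 := measurable_ind (n := n) (measurableSet_ball (x := 0) (ε := m))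
    rw [nonpos_iff_eq_zero, Q, lintegral_eq_zero_iff (by fun_prop)] at h1
    filter_upwards [h1] with x hx hm
    rw [ind_of_mem hm, mul_one, Pi.zero_apply, ENNReal.ofReal_eq_zero] at hx
    exact norm_eq_zero.1 (pow_eq_zero_iff two_ne_zero |>.1 (le_antisymm
      (nonpos_of_mul_nonpos_right hx hc) (sq_nonneg _)))
  filter_upwards [ae_all_iff.2 hz] with x hx
  obtain ⟨m, hm⟩ := exists_nat_gt ‖x‖
  exact hx m (mem_ball_zero_iff.2 hm)

/-- The range of the model operator on odd test functions is dense, in dual form. -/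
theorem model_dual {ν : E n} (hν : ‖ν‖ = 1) {t : ℝ} (ht : 0 < t) {W : E n → ℂ}
    (hW : L2 (Hs ν) W) {B : ℝ≥0∞}
    (h : ∀ φ, Tst φ → IsOdd ν φ → ‖∫ x, W x * Lt ν t φ x‖ₑ ^ 2 ≤ B * N2 (Lt ν t φ)) :
    N2 W ≤ 2 * B := by
  rcases eq_or_ne B ⊤ with rfl | hB
  · simp
  have two : ∀ {φ : E n → ℂ}, Tst φ → ∀ x, ContDiffAt ℝ 2 φ x := fun hφ x =>
    hφ.1.contDiffAt.of_le scut_two
  have hV := liou_bd ν t
  have hint : ∀ {D φ : E n → ℂ}, WL2 D → Tst φ → Integrable fun x => D x * Lt ν t φ x := by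
    intro D φ hD hφ
    refine ((hD.integrable_mul hφ.lap.1.continuous hφ.lap.2).sub
      ((hD.mul hV.1 hV.2).integrable_mul hφ.1.continuous hφ.2)).congr
      (Eventually.of_forall fun x => ?_)
    simp only [Lt, Pi.sub_apply]
    ring
  let S : Submodule ℂ (E n → ℂ) :=
    { carrier := {φ | Tst φ ∧ IsOdd ν φ}
      add_mem' := fun {a b} ha hb => ⟨⟨ha.1.1.add hb.1.1, ha.1.2.add hb.1.2⟩, fun x => by
        rw [Pi.add_apply, Pi.add_apply, ha.2 x, hb.2 x, neg_add]⟩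
      zero_mem' := ⟨⟨contDiff_const, HasCompactSupport.zero⟩, fun x => neg_zero.symm⟩
      smul_mem' := fun c a ha => ⟨⟨ha.1.1.const_smul c, ha.1.2.smul_left (f := fun _ => c)⟩,
        fun x => by rw [Pi.smul_apply, Pi.smul_apply, ha.2 x, smul_neg]⟩ }
  let G : S →ₗ[ℂ] (E n → ℂ) :=
    { toFun := fun φ => Lt ν t φ.1
      map_add' := fun a b => by
        funext x
        simp only [Lt, Submodule.coe_add, Pi.add_apply,
          (two a.2.1 x).laplacian_add (two b.2.1 x)]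
        ring
      map_smul' := fun c a => by
        funext x
        simp only [Lt, Submodule.coe_smul, Pi.smul_apply, RingHom.id_apply,
          InnerProductSpace.laplacian_smul c (two a.2.1 x), smul_eq_mul]
        ring }
  let l : S →ₗ[ℂ] ℂ :=
    { toFun := fun φ => ∫ x, W x * G φ x
      map_add' := fun a b => by
        rw [map_add]
        exact (integral_congr_ae (Eventually.of_forall fun x => mul_add _ _ _)).trans
          (integral_add (hint hW.wl2 a.2.1) (hint hW.wl2 b.2.1))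
      map_smul' := fun c a => by
        rw [map_smul, RingHom.id_apply, smul_eq_mul, ← integral_const_mul]
        exact integral_congr_ae (Eventually.of_forall fun x => mul_left_comm _ _ _) }
  obtain ⟨U, hU, hUB, hUl⟩ := dual G l (b := fun _ => 1) measurable_const (fun _ => one_pos)
    (fun v => v.2.1.lap.1.continuous.measurable.sub (hV.1.mul v.2.1.1.continuous.measurable))
    (fun v => liou_sub_ne v.2.1.lap.1.continuous.measurable (liou_tst v.2.1.lap)
      (liou_mul hV (liou_tst v.2.1))) hB fun v => h v.1 v.2.1 v.2.2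
  replace hUB : N2 U ≤ B := by simpa only [inv_one, N2] using hUB
  have hUf : N2 U ≠ ⊤ := ne_top_of_le_ne_top hB hUB
  have mD : Measurable fun x => W x - U x := hW.meas.sub hU
  have fD : N2 (fun x => W x - U x) ≠ ⊤ := liou_sub_ne hW.meas hW.fin hUf
  have hD := wl2_of_N2 mD fD
  have hF := hD.mul hV.1 hV.2
  have hw := hD.sub (hD.rf hν)
  have hz := liouville hν ht hw.1
    (liou_sub_ne mD fD ((liou_rf hν fun x => W x - U x).trans_ne fD))
    ⟨hw, hw.mul hV.1 hV.2, fun φ hφ _ => by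
      have hr := hφ.rf hν
      have hψ : Tst fun x => φ x - φ (rf ν x) := ⟨hφ.1.sub hr.1, hφ.2.sub hr.2⟩
      have h1 := hUl ⟨_, hψ, fun x => by simp only [rf_rf hν, neg_sub]⟩
      have h2 : ∀ x, Δ (fun x => φ x - φ (rf ν x)) x = Δ φ x - Δ φ (rf ν x) := fun x => by
        rw [← lap_rf hν (two hφ _)]
        exact (two hφ x).laplacian_sub (two hr x)
      have h3 : ∫ x, (W x - U x) * Lt ν t (fun x => φ x - φ (rf ν x)) x = 0 := by
        simp only [sub_mul]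
        rw [integral_sub (hint hW.wl2 hψ) (hint (wl2_of_N2 hU hUf) hψ)]
        exact sub_eq_zero.2 h1.symm
      have h4 : ∀ x, (Vt ν t x : ℂ) * (W x - U x - (W (rf ν x) - U (rf ν x))) =
          Vt ν t x * (W x - U x) - Vt ν t (rf ν x) * (W (rf ν x) - U (rf ν x)) := fun x => by
        rw [Vt_rf hν, mul_sub]
      rw [pair_eq hw (hw.mul hV.1 hV.2) hφ]
      simp only [h4]
      rw [qb_odd hν hF hφ, qb_odd hν hD hφ.lap]
      simp only [← h2]
      rw [← pair_eq hD hF hψ, ← neg_eq_zero, ← h3, pair, ← integral_neg]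
      refine integral_congr_ae (Eventually.of_forall fun x => ?_)
      simp only [Lt]
      ring⟩
  have e1 : N2 (fun x => W x - W (rf ν x)) = N2 fun x => U x - U (rf ν x) :=
    Q_congr (hz.mono fun x hx => by linear_combination hx)
  have e2 : N2 (fun x => W x - W (rf ν x)) = 2 * N2 W :=
    Q_odd hν measurable_const (fun _ => zero_le_one) (fun _ => rfl) hW.meas hW.zero
  have e3 := liou_sub (w' := fun x => U (rf ν x)) hU
  rw [← e1, e2, liou_rf hν, ← mul_add] at e3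
  refine ((ENNReal.mul_le_mul_iff_right (by simp) (by simp)).1 e3).trans ?_
  rw [two_mul]
  exact add_le_add hUB hUB

end Pool.Agent.MP_71da5e_an.A

end

section

namespace Pool.Agent.MP_71da5e_an.A

open MeasureTheory Metric Set Laplacian Filter Topology
open scoped ContDiff ENNReal RealInnerProductSpace

variable {n : ℕ}

/-- The Hilbert space of square integrable functions on `Ω`. -/
abbrev hilbH (Ω : Set (E n)) : Type := Lp ℂ 2 (volume.restrict Ω)

/-- The representative that vanishes off `Ω`. -/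
noncomputable def hilbRep {Ω : Set (E n)} (F : hilbH Ω) : E n → ℂ := Ω.indicator F

lemma hilb_N2 (w : E n → ℂ) : N2 w = eLpNorm w 2 volume ^ 2 := by
  rw [dual_eLp]
  simp [N2, Q]

lemma hilb_N2_rep {Ω : Set (E n)} (hΩ : MeasurableSet Ω) (F : hilbH Ω) :
    N2 (hilbRep F) = ‖F‖ₑ ^ 2 := by
  rw [hilb_N2, hilbRep, eLpNorm_indicator_eq_eLpNorm_restrict hΩ, Lp.enorm_def]

lemma hilb_L2 {Ω : Set (E n)} (hΩ : MeasurableSet Ω) (F : hilbH Ω) : L2 Ω (hilbRep F) :=
  ⟨(Lp.stronglyMeasurable F).measurable.indicator hΩ, by rw [hilb_N2_rep hΩ]; finiteness,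
    fun _ hx => indicator_of_notMem hx _⟩

lemma hilb_mem {Ω : Set (E n)} {w : E n → ℂ} (h : L2 Ω w) : MemLp w 2 (volume.restrict Ω) := by
  refine MemLp.restrict Ω ⟨h.meas.aestronglyMeasurable, ?_⟩
  have := h.fin
  rw [hilb_N2] at this
  exact lt_top_iff_ne_top.2 fun e => this (by simp [e])

lemma hilb_rep_toLp {Ω : Set (E n)} (hΩ : MeasurableSet Ω) {w : E n → ℂ} (h : L2 Ω w) :
    hilbRep ((hilb_mem h).toLp w) =ᵐ[volume] w := by
  have h1 := (ae_restrict_iff' hΩ).1 (hilb_mem h).coeFn_toLp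
  filter_upwards [h1] with x hx
  by_cases hm : x ∈ Ω
  · rw [hilbRep, indicator_of_mem hm, hx hm]
  · rw [hilbRep, indicator_of_notMem hm, h.zero x hm]

lemma hilb_inner {Ω : Set (E n)} (hΩ : MeasurableSet Ω) {f : E n → ℂ} {F : hilbH Ω}
    (hf : F =ᵐ[volume.restrict Ω] fun x => (starRingEnd ℂ) (f x)) (G : hilbH Ω) :
    inner ℂ F G = ∫ x, hilbRep G x * f x := by
  rw [L2.inner_def]
  have : ∀ x, hilbRep G x * f x = Ω.indicator (fun x => G x * f x) x := fun x => by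
    rw [hilbRep, indicator_mul_left]
  simp_rw [this]
  rw [integral_indicator hΩ]
  refine integral_congr_ae ?_
  filter_upwards [hf] with x hx
  rw [hx]
  simp

lemma hilb_test {Ω : Set (E n)} (hΩ : MeasurableSet Ω) {A : ℝ} {q φ : E n → ℂ} (hq : Bd A q)
    (hφ : Tst φ) : ∃ a b : hilbH Ω, ∀ W G : hilbH Ω,
      pair (hilbRep W) (fun x => hilbRep G x + q x * hilbRep W x) φ = inner ℂ a G + inner ℂ b W := by
  have hc : Continuous φ := hφ.1.continuous
  have m1 : MemLp φ 2 volume := hc.memLp_of_hasCompactSupport hφ.2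
  have m2 : MemLp (Δ φ) 2 volume := hφ.lap.1.continuous.memLp_of_hasCompactSupport hφ.lap.2
  have m3 : MemLp (fun x => q x * φ x) 2 volume :=
    MemLp.of_le_mul (c := A) m1 (hq.1.mul hc.measurable).aestronglyMeasurable
      (Eventually.of_forall fun x => by rw [norm_mul]; gcongr; exact hq.2 x)
  have k1 := (m1.restrict Ω).star
  have k2 := ((m3.sub m2).restrict Ω).star
  refine ⟨k1.toLp _, k2.toLp _, fun W G => ?_⟩
  rw [hilb_inner hΩ (f := φ) k1.coeFn_toLp,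
    hilb_inner hΩ (f := fun x => q x * φ x - Δ φ x) k2.coeFn_toLp, pair, ← integral_add]
  · refine integral_congr_ae (Eventually.of_forall fun x => ?_)
    ring
  · exact (hilb_L2 hΩ G).wl2.integrable_mul hc hφ.2
  · have i1 := ((hilb_L2 hΩ W).wl2.mul hq.1 hq.2).integrable_mul hc hφ.2
    have i2 := (hilb_L2 hΩ W).wl2.integrable_mul hφ.lap.1.continuous hφ.lap.2
    refine (i1.sub i2).congr (Eventually.of_forall fun x => ?_)
    simp only [Pi.sub_apply]
    ring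

lemma hilb_congr {Ω B : Set (E n)} {q w g w' g' : E n → ℂ} (h : VW Ω B q w g) (hw : L2 Ω w')
    (hg : L2 Ω g') (e1 : w =ᵐ[volume] w') (e2 : g =ᵐ[volume] g') : VW Ω B q w' g' := by
  refine ⟨hw, hg, fun φ hφ h0 => ?_⟩
  rw [← h.weak φ hφ h0]
  refine pair_congr e1.symm ?_ φ
  filter_upwards [e1, e2] with x h1 h2
  rw [h1, h2]

/-- Closed range: a function orthogonal to the annihilator is in the range. -/
theorem range_of_perp {Ω B : Set (E n)} (hΩ : MeasurableSet Ω) {A C : ℝ} {q g : E n → ℂ}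
    (hq : Bd A q) (he : Est Ω B q C) (hg : L2 Ω g)
    (h : ∀ u, Ann Ω B q u → ∫ x, u x * g x = 0) : ∃ w, VW Ω B q w g := by
  choose a b hab using fun φ : {φ : E n → ℂ // Tst φ ∧ ∀ x ∈ frontier Ω \ B, φ x = 0} =>
    hilb_test hΩ hq φ.2.1
  let l : {φ : E n → ℂ // Tst φ ∧ ∀ x ∈ frontier Ω \ B, φ x = 0} →
      (hilbH Ω × hilbH Ω →L[ℂ] ℂ) := fun φ =>
    (innerSL ℂ (a φ)).comp (.snd ℂ _ _) + (innerSL ℂ (b φ)).comp (.fst ℂ _ _)
  let Γ : Submodule ℂ (hilbH Ω × hilbH Ω) := ⨅ φ, (l φ).ker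
  have hΓ : ∀ p, p ∈ Γ ↔ VW Ω B q (hilbRep p.1) (hilbRep p.2) := fun p => by
    rw [Submodule.mem_iInf]
    constructor
    · exact fun H => ⟨hilb_L2 hΩ _, hilb_L2 hΩ _, fun φ hφ h0 =>
        (hab ⟨φ, hφ, h0⟩ p.1 p.2).trans (H ⟨φ, hφ, h0⟩)⟩
    · exact fun H φ => (hab φ p.1 p.2).symm.trans (H.weak φ.1 φ.2.1 φ.2.2)
  have hcl : IsClosed (Γ : Set (hilbH Ω × hilbH Ω)) := by
    rw [Submodule.coe_iInf]
    exact isClosed_iInter fun φ => (l φ).isClosed_ker
  have : CompleteSpace Γ := hcl.completeSpace_coe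
  let T : Γ →L[ℂ] hilbH Ω := (ContinuousLinearMap.snd ℂ _ _).comp Γ.subtypeL
  have hanti : AntilipschitzWith ⟨√C + 1, by positivity⟩ T := by
    refine T.antilipschitz_of_bound fun p => ?_
    have h1 := he _ _ ((hΓ p.1).1 p.2)
    rw [hilb_N2_rep hΩ, hilb_N2_rep hΩ, ← ofReal_norm, ← ofReal_norm,
      ← ENNReal.ofReal_pow (norm_nonneg _), ← ENNReal.ofReal_pow (norm_nonneg _)] at h1
    have h2 : ‖p.1.1‖ ^ 2 ≤ (√C * ‖p.1.2‖) ^ 2 := by
      refine (ENNReal.ofReal_le_ofReal_iff (by positivity)).1 (h1.trans_eq ?_)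
      rw [mul_pow, ENNReal.ofReal_mul (by positivity), Real.sq_sqrt', ENNReal.ofReal_max]
      simp
    have h3 := (sq_le_sq₀ (norm_nonneg _) (by positivity)).1 h2
    change max ‖p.1.1‖ ‖p.1.2‖ ≤ (√C + 1) * ‖p.1.2‖
    have := norm_nonneg p.1.2
    have := Real.sqrt_nonneg C
    exact max_le (by nlinarith) (by nlinarith)
  have hS : IsClosed (T.range : Set (hilbH Ω)) := hanti.isClosed_range T.uniformContinuous
  have : CompleteSpace T.range := hS.completeSpace_coe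
  have key : ∀ (F : hilbH Ω) (g' : E n → ℂ) (hg' : L2 Ω g'),
      inner ℂ F ((hilb_mem hg').toLp g') = ∫ x, (starRingEnd ℂ) (hilbRep F x) * g' x := by
    intro F g' hg'
    rw [hilb_inner hΩ (f := fun x => (starRingEnd ℂ) (hilbRep F x))]
    · refine integral_congr_ae ?_
      filter_upwards [hilb_rep_toLp hΩ hg'] with x hx
      rw [hx, mul_comm]
    · refine (ae_restrict_iff' hΩ).2 (Eventually.of_forall fun x hx => ?_)
      simp [hilbRep, indicator_of_mem hx]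
  have hmem : (hilb_mem hg).toLp g ∈ T.rangeᗮᗮ := by
    refine (Submodule.mem_orthogonal _ _).2 fun F hF => ?_
    rw [key F g hg]
    refine h _ ⟨⟨Complex.continuous_conj.measurable.comp (hilb_L2 hΩ F).meas, ?_, fun x hx => by
      rw [(hilb_L2 hΩ F).zero x hx, map_zero]⟩, fun w g' hv => ?_⟩
    · have := (hilb_L2 hΩ F).fin
      simpa [N2, Q] using this
    · rw [← key F g' hv.lg]
      refine (Submodule.mem_orthogonal' _ _).1 hF _
        ⟨⟨((hilb_mem hv.lw).toLp w, (hilb_mem hv.lg).toLp g'), (hΓ _).2 ?_⟩, rfl⟩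
      exact hilb_congr hv (hilb_L2 hΩ _) (hilb_L2 hΩ _) (hilb_rep_toLp hΩ hv.lw).symm
        (hilb_rep_toLp hΩ hv.lg).symm
  rw [Submodule.orthogonal_orthogonal] at hmem
  obtain ⟨p, hp⟩ := hmem
  refine ⟨_, hilb_congr ((hΓ p.1).1 p.2) (hilb_L2 hΩ _) hg (EventuallyEq.refl _ _) ?_⟩
  have e : p.1.2 = (hilb_mem hg).toLp g := hp
  rw [e]
  exact hilb_rep_toLp hΩ hg

end Pool.Agent.MP_71da5e_an.A

end

section

namespace Pool.Agent.MP_71da5e_an.A

open MeasureTheory Metric Set Laplacian Filter Topology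
open scoped ContDiff ENNReal RealInnerProductSpace

variable {n : ℕ}

lemma dataA_cs {f g : E n → ℂ} (hf : Measurable f) (hg : Measurable g) :
    ‖∫ x, f x * g x‖ₑ ^ 2 ≤ N2 f * N2 g := by
  have h := cs_enorm (a := fun _ => (1 : ℝ)) measurable_const (fun _ => one_pos) hf hg
  simpa only [inv_one, N2] using h

lemma dataA_int {f g : E n → ℂ} (hf : Measurable f) (hg : Measurable g) (h₁ : N2 f ≠ ⊤)
    (h₂ : N2 g ≠ ⊤) : Integrable fun x => f x * g x :=
  cs_integrable (a := fun _ => (1 : ℝ)) measurable_const (fun _ => one_pos) hf hg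
    (by simpa only [inv_one, N2] using h₁) h₂

lemma dataA_ind (Z : Set (E n)) (w : E n → ℂ) : N2 (Z.indicator w) = Q (ind Z) w := by
  refine lintegral_congr fun x => ?_
  by_cases hx : x ∈ Z
  · rw [indicator_of_mem hx, ind_of_mem hx]
  · simp [indicator_of_notMem hx, ind_of_notMem hx]

lemma dataA_tst {v : E n → ℂ} (h : Tst v) : N2 v ≠ ⊤ := by
  have hc := h.1.continuous
  have h1 : HasCompactSupport fun x => (1 : ℝ) * ‖v x‖ ^ 2 :=
    h.2.mono fun x hx h0 => hx (by simp [h0])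
  rw [N2, Q_eq_ofReal (fun _ => zero_le_one)
    ((continuous_const.mul (hc.norm.pow 2)).integrable_of_hasCompactSupport h1)]
  exact ENNReal.ofReal_ne_top

lemma dataA_two {v w w' : E n → ℂ} (hw : Measurable w) (h : ∀ x, ‖v x‖ ≤ ‖w x‖ + ‖w' x‖) :
    N2 v ≤ 2 * N2 w + 2 * N2 w' := by
  have e : ∀ u : E n → ℂ, 2 * N2 u = Q (fun _ => 2 * 1) u := fun u => by
    rw [Q_const_mul zero_le_two, ENNReal.ofReal_ofNat, N2]
  rw [e, e]
  refine Q_le_add measurable_const hw fun x => ?_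
  have := pow_le_pow_left₀ (norm_nonneg _) (h x) 2
  nlinarith [sq_nonneg (‖w x‖ - ‖w' x‖)]

lemma dataA_two' {v w w' : E n → ℂ} (hw : Measurable w) (h : ∀ x, ‖v x‖ ≤ ‖w x‖ + ‖w' x‖)
    (h₁ : N2 w ≠ ⊤) (h₂ : N2 w' ≠ ⊤) : N2 v ≠ ⊤ :=
  ne_top_of_le_ne_top (by finiteness) (dataA_two hw h)

lemma dataA_mul {v w : E n → ℂ} {c : ℝ} (h : ∀ x, ‖v x‖ ≤ c * ‖w x‖) :
    N2 v ≤ ENNReal.ofReal (c ^ 2) * N2 w := by
  rw [N2, N2, ← Q_const_mul (sq_nonneg c)]
  refine Q_mono fun x => ?_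
  have := pow_le_pow_left₀ (norm_nonneg _) (h x) 2
  rw [mul_pow] at this
  linarith

lemma dataA_mul' {v w : E n → ℂ} {c : ℝ} (h : ∀ x, ‖v x‖ ≤ c * ‖w x‖) (h₁ : N2 w ≠ ⊤) :
    N2 v ≠ ⊤ :=
  ne_top_of_le_ne_top (by finiteness) (dataA_mul h)

lemma dataA_Pq {A : ℝ} {q v : E n → ℂ} (hq : Bd A q) (hv : Tst v) :
    Measurable (Pq q v) ∧ N2 (Pq q v) ≠ ⊤ :=
  ⟨hv.lap.1.continuous.measurable.sub (hq.1.mul hv.1.continuous.measurable),
    dataA_two' (w' := fun x => q x * v x) hv.lap.1.continuous.measurable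
      (fun _ => norm_sub_le _ _) (dataA_tst hv.lap)
      (dataA_mul' (c := A) (fun x => by
        rw [norm_mul]
        exact mul_le_mul_of_nonneg_right (hq.2 x) (norm_nonneg _)) (dataA_tst hv))⟩

lemma dataA_sq (a b : ℂ) : ‖a + b‖ₑ ^ 2 ≤ 2 * ‖a‖ₑ ^ 2 + 2 * ‖b‖ₑ ^ 2 := by
  have h : ‖a + b‖ ^ 2 ≤ 2 * ‖a‖ ^ 2 + 2 * ‖b‖ ^ 2 := by
    have := pow_le_pow_left₀ (norm_nonneg _) (norm_add_le a b) 2
    nlinarith [sq_nonneg (‖a‖ - ‖b‖)]
  have h' : ‖a + b‖₊ ^ 2 ≤ 2 * ‖a‖₊ ^ 2 + 2 * ‖b‖₊ ^ 2 := by exact_mod_cast h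
  simp only [enorm_eq_nnnorm]
  exact_mod_cast h'

/-- Testing a very weak solution that vanishes off `Z`. -/
theorem VW.test_le {Ω B Z : Set (E n)} (hΩ : IsOpen Ω) (hZ : MeasurableSet Z) {A C : ℝ}
    {q w g v : E n → ℂ} (hq : Bd A q) (he : Est Ω B q C) (hu : UC Ω B Z q) (h : VW Ω B q w g)
    (hg : ∀ᵐ x, x ∉ Z → g x = 0) (hv : Tst v) (hs : tsupport v ⊆ Ω ∪ B) :
    ‖∫ x, g x * v x‖ₑ ^ 2 ≤ ENNReal.ofReal C * N2 g * Q (ind Z) (Pq q v) := by
  obtain ⟨p1, p2⟩ := dataA_Pq hq hv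
  have h1 : ∫ x, (g x * v x - w x * Pq q v x) = 0 := by
    rw [← h.test hΩ hv hs]
    refine integral_congr_ae (Eventually.of_forall fun x => ?_)
    simp only [Pq]
    ring
  rw [integral_sub (h.lg.wl2.integrable_mul hv.1.continuous hv.2)
    (dataA_int h.lw.meas p1 h.lw.fin p2), sub_eq_zero] at h1
  have h2 : ∫ x, w x * Pq q v x = ∫ x, w x * Z.indicator (Pq q v) x := by
    refine integral_congr_ae ?_
    filter_upwards [hu w g h hg] with x hx
    by_cases e : x ∈ Z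
    · rw [indicator_of_mem e]
    · rw [hx e, zero_mul, zero_mul]
  rw [h1, h2, ← dataA_ind]
  exact (dataA_cs h.lw.meas (p1.indicator hZ)).trans (mul_le_mul_left (he w g h) _)

/-- The annihilator as a vector space. -/
def dataA_V (Ω B : Set (E n)) (q : E n → ℂ) : Submodule ℂ (E n → ℂ) where
  carrier := {u | Ann Ω B q u}
  add_mem' {a b} ha hb := by
    refine ⟨⟨ha.l2.meas.add hb.l2.meas, dataA_two' ha.l2.meas (fun _ => norm_add_le _ _)
      ha.l2.fin hb.l2.fin, fun x hx => ?_⟩, fun w g h => ?_⟩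
    · rw [Pi.add_apply, ha.l2.zero x hx, hb.l2.zero x hx, add_zero]
    · simp only [Pi.add_apply, add_mul]
      rw [integral_add (dataA_int ha.l2.meas h.lg.meas ha.l2.fin h.lg.fin)
        (dataA_int hb.l2.meas h.lg.meas hb.l2.fin h.lg.fin), ha.perp w g h, hb.perp w g h,
        add_zero]
  zero_mem' := ⟨⟨measurable_const, by simp [N2, Q], fun _ _ => rfl⟩, fun w g _ => by simp⟩
  smul_mem' c a ha := by
    refine ⟨⟨ha.l2.meas.const_smul c, dataA_mul' (c := ‖c‖) (fun x => (norm_smul c (a x)).le)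
      ha.l2.fin, fun x hx => ?_⟩, fun w g h => ?_⟩
    · rw [Pi.smul_apply, ha.l2.zero x hx, smul_zero]
    · simp only [Pi.smul_apply, smul_eq_mul, mul_assoc]
      rw [integral_const_mul, ha.perp w g h, mul_zero]

lemma dataA_dual {Ω B Z : Set (E n)} (hZ : MeasurableSet Z) {q F : E n → ℂ} (hF : Measurable F)
    (hF' : N2 F ≠ ⊤) {C : ℝ≥0∞} (hC : C ≠ ⊤)
    (h : ∀ u, Ann Ω B q u → ‖∫ x, u x * F x‖ₑ ^ 2 ≤ C * N2 (Z.indicator u)) :
    ∃ U : E n → ℂ, Measurable U ∧ N2 U ≤ C ∧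
      ∀ u, Ann Ω B q u → ∫ x, U x * Z.indicator u x = ∫ x, u x * F x := by
  let G : dataA_V Ω B q →ₗ[ℂ] (E n → ℂ) :=
    { toFun := fun u => Z.indicator u.1
      map_add' := fun a b => indicator_add' Z a.1 b.1
      map_smul' := fun c a => indicator_const_smul Z c a.1 }
  let l : dataA_V Ω B q →ₗ[ℂ] ℂ :=
    { toFun := fun u => ∫ x, u.1 x * F x
      map_add' := fun a b => by
        simp only [Submodule.coe_add, Pi.add_apply, add_mul]
        exact integral_add (dataA_int a.2.l2.meas hF a.2.l2.fin hF')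
          (dataA_int b.2.l2.meas hF b.2.l2.fin hF')
      map_smul' := fun c a => by
        simp only [Submodule.coe_smul, Pi.smul_apply, smul_eq_mul, mul_assoc, RingHom.id_apply]
        exact integral_const_mul _ _ }
  obtain ⟨U, h1, h2, h3⟩ := dual G l (b := fun _ => 1) measurable_const (fun _ => one_pos)
    (fun u => u.2.l2.meas.indicator hZ)
    (fun u => by
      have := ne_top_of_le_ne_top u.2.l2.fin (Q_ind_le Z u.1)
      rwa [← dataA_ind] at this) hC fun u => h u.1 u.2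
  exact ⟨U, h1, by simpa only [inv_one, N2] using h2, fun u hu => h3 ⟨u, hu⟩⟩

theorem data_of_hyp {Ω B Z : Set (E n)} (hΩ : IsOpen Ω) (hZ : MeasurableSet Z) (hZΩ : Z ⊆ Ω)
    {A C₁ C₂ : ℝ} {q₁ q₂ : E n → ℂ} (h₁ : Bd A q₁) (h₂ : Bd A q₂) (e₁ : Est Ω B q₁ C₁)
    (e₂ : Est Ω B q₂ C₂) (u₁ : UC Ω B Z q₁) (u₂ : UC Ω B Z q₂)
    (hf : ∀ᵐ x, x ∈ Ω → x ∉ Z → q₁ x = q₂ x) (hyp : HypW Ω B q₁ q₂) :
    ∃ C : ℝ, Data (Ω ∪ B) Z q₁ q₂ (Z.indicator fun x => q₁ x - q₂ x) C := by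
  generalize hc₁ : ENNReal.ofReal C₁ = c₁
  generalize hc₂ : ENNReal.ofReal C₂ = c₂
  generalize ha : ENNReal.ofReal ((2 * A) ^ 2) = a
  have t1 : c₁ ≠ ⊤ := hc₁ ▸ ENNReal.ofReal_ne_top
  have t2 : c₂ ≠ ⊤ := hc₂ ▸ ENNReal.ofReal_ne_top
  have t3 : a ≠ ⊤ := ha ▸ ENNReal.ofReal_ne_top
  refine ⟨(4 * c₁ * a + 4 * c₁ * c₂ * a + 2 * c₂ * a).toReal, fun v₁ v₂ hv₁ hv₂ s₁ s₂ => ?_⟩
  rw [ENNReal.ofReal_toReal (by finiteness)]
  generalize hf' : (Z.indicator fun x => q₁ x - q₂ x) = f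
  have f1 : Measurable f := hf' ▸ (h₁.1.sub h₂.1).indicator hZ
  have f2 : ∀ x, x ∉ Z → f x = 0 := fun x hx => hf' ▸ indicator_of_notMem hx _
  have f3 : ∀ x ∈ Z, f x = q₁ x - q₂ x := fun x hx => hf' ▸ indicator_of_mem hx _
  have f4 : ∀ u : E n → ℂ, N2 (fun x => f x * u x) ≤ a * Q (ind Z) u := fun u => by
    rw [← ha, ← dataA_ind]
    refine dataA_mul fun x => ?_
    by_cases e : x ∈ Z
    · rw [indicator_of_mem e, norm_mul, f3 x e]
      exact mul_le_mul_of_nonneg_right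
        ((norm_sub_le _ _).trans (by linarith [h₁.2 x, h₂.2 x])) (norm_nonneg _)
    · simp [f2 x e, indicator_of_notMem e]
  have m1 := hv₁.1.continuous.measurable
  have m2 := hv₂.1.continuous.measurable
  have m3 : Measurable fun x => f x * v₂ x := f1.mul m2
  have y1 : Q (ind Z) v₂ ≠ ⊤ := ne_top_of_le_ne_top (dataA_tst hv₂) (Q_ind_le _ _)
  have y2 : Q (ind Z) (Pq q₂ v₂) ≠ ⊤ := ne_top_of_le_ne_top (dataA_Pq h₂ hv₂).2 (Q_ind_le _ _)
  have y3 : N2 (fun x => f x * v₂ x) ≠ ⊤ := ne_top_of_le_ne_top (by finiteness) (f4 v₂)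
  obtain ⟨U, k1, k2, k3⟩ := dataA_dual (Ω := Ω) (B := B) (q := q₁) hZ m3 y3
    (C := c₂ * a * Q (ind Z) (Pq q₂ v₂)) (by finiteness) fun u hu => by
      obtain ⟨w, hw⟩ := hyp u hu
      have e0 : ∀ᵐ x, x ∉ Z → (q₁ x - q₂ x) * u x = 0 := by
        filter_upwards [hf] with x hx e
        by_cases e' : x ∈ Ω
        · rw [hx e' e, sub_self, zero_mul]
        · rw [hu.l2.zero x e', mul_zero]
      have e1 : (fun x => (q₁ x - q₂ x) * u x) =ᵐ[volume] fun x => f x * u x := by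
        filter_upwards [e0] with x hx
        by_cases e : x ∈ Z
        · rw [f3 x e]
        · rw [hx e, f2 x e, zero_mul]
      have e2 := hw.test_le hΩ hZ h₂ e₂ u₂ e0 hv₂ s₂
      have e3 : ∫ x, u x * (f x * v₂ x) = ∫ x, (q₁ x - q₂ x) * u x * v₂ x := by
        refine integral_congr_ae ?_
        filter_upwards [e1] with x hx
        rw [hx]
        ring
      rw [e3, dataA_ind]
      refine e2.trans ?_
      rw [hc₂, N2, Q_congr e1]
      calc _ ≤ c₂ * (a * Q (ind Z) u) * Q (ind Z) (Pq q₂ v₂) := by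
            gcongr
            exact f4 u
        _ = _ := by ring
  have k4 : N2 (Z.indicator U) ≤ c₂ * a * Q (ind Z) (Pq q₂ v₂) := by
    rw [dataA_ind]
    exact (Q_ind_le _ _).trans k2
  have k5 : N2 (Z.indicator U) ≠ ⊤ := ne_top_of_le_ne_top (by finiteness) k4
  have k6 : ∀ u : E n → ℂ, (fun x => Z.indicator U x * u x) = fun x => U x * Z.indicator u x :=
    fun u => funext fun x => by by_cases e : x ∈ Z <;> simp [e]
  have g0 : ∀ x, x ∉ Z → f x * v₂ x - Z.indicator U x = 0 := fun x hx => by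
    rw [f2 x hx, indicator_of_notMem hx, zero_mul, sub_zero]
  have g1 : N2 (fun x => f x * v₂ x - Z.indicator U x) ≤
      2 * (a * Q (ind Z) v₂) + 2 * (c₂ * a * Q (ind Z) (Pq q₂ v₂)) := by
    refine (dataA_two m3 fun _ => norm_sub_le _ _).trans ?_
    gcongr
    exact f4 v₂
  have g2 : L2 Ω fun x => f x * v₂ x - Z.indicator U x :=
    ⟨m3.sub (k1.indicator hZ), ne_top_of_le_ne_top (by finiteness) g1,
      fun x hx => g0 x fun e => hx (hZΩ e)⟩
  obtain ⟨w, hw⟩ := range_of_perp hΩ.measurableSet h₁ e₁ g2 fun u hu => by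
    simp only [mul_sub]
    rw [integral_sub (dataA_int hu.l2.meas m3 hu.l2.fin y3)
      (dataA_int hu.l2.meas (k1.indicator hZ) hu.l2.fin k5), ← k3 u hu, ← k6 u, sub_eq_zero]
    simp only [mul_comm]
  have b1 := hw.test_le hΩ hZ h₁ e₁ u₁ (Eventually.of_forall g0) hv₁ s₁
  have b2 := dataA_cs k1 (m1.indicator hZ)
  rw [dataA_ind, ← k6] at b2
  have b3 : ∫ x, f x * v₁ x * v₂ x =
      (∫ x, (f x * v₂ x - Z.indicator U x) * v₁ x) + ∫ x, Z.indicator U x * v₁ x := by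
    rw [← integral_add (dataA_int g2.meas m1 g2.fin (dataA_tst hv₁))
      (dataA_int (k1.indicator hZ) m1 k5 (dataA_tst hv₁))]
    refine integral_congr_ae (Eventually.of_forall fun x => ?_)
    simp only
    ring
  rw [b3]
  refine (dataA_sq _ _).trans ?_
  rw [hc₁] at b1
  generalize Q (ind Z) (Pq q₁ v₁) = X at *
  generalize Q (ind Z) v₂ = Y at *
  generalize Q (ind Z) (Pq q₂ v₂) = W at *
  generalize Q (ind Z) v₁ = T at *
  calc _ ≤ 2 * (c₁ * (2 * (a * Y) + 2 * (c₂ * a * W)) * X) + 2 * (c₂ * a * W * T) := by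
        gcongr
        · exact b1.trans (by gcongr)
        · exact b2.trans (by gcongr)
    _ ≤ _ + (4 * c₁ * a * (X * W + T * W) + 4 * c₁ * c₂ * a * (X * Y + T * W) +
        2 * c₂ * a * (X * (Y + W))) := le_self_add
    _ = _ := by ring

end Pool.Agent.MP_71da5e_an.A

end

section

namespace Pool.Agent.MP_71da5e_an.L

open scoped ContDiff

theorem exStmt (n : ℕ) : ExStmt n :=
  ⟨Cg.contDiff_ex.of_le (by exact_mod_cast le_top), Cg.dbar_ex⟩

theorem wkEx (n : ℕ) : WkEx n := fun a b => by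
  have h := Cg.wk_ex a b
  rwa [show (4 * Real.pi ^ 2 * pz a b : ℂ) = ((4 * Real.pi ^ 2 : ℝ) : ℂ) * pz a b by
    push_cast; ring] at h

end Pool.Agent.MP_71da5e_an.L

end

section

namespace Pool.Agent.MP_71da5e_an.L

open MeasureTheory Metric Set Laplacian Complex
open scoped ContDiff RealInnerProductSpace ENNReal Real ComplexConjugate

theorem gauss {n : ℕ} (_A : Api n) (_P : Pars n) : Gauss n := fun W hW c hc h => by
  rw [mul_comm _ c]
  refine ⟨?_, G.gauss hW hc h⟩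
  simpa only [G.fh, neg_neg] using G.gauss_neg hW hc h

end Pool.Agent.MP_71da5e_an.L

end

section

namespace Pool.Agent.MP_71da5e_an.L

open MeasureTheory Metric Set Laplacian Complex
open scoped ContDiff RealInnerProductSpace ENNReal Real ComplexConjugate

namespace Moll

open Filter Topology

variable {n : ℕ}

lemma restr {ρ : ℝ} (hρ : ρ ≤ 1) :
    (mu n).restrict (ball 0 ρ) = volume.restrict (ball (0 : E n) ρ) := by
  rw [mu, Measure.restrict_restrict measurableSet_ball,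
    inter_eq_left.2 (ball_subset_ball hρ)]

lemma nb_congr {ρ : ℝ} (hρ : ρ ≤ 1) {v w : E n → ℂ} (h : v =ᵐ[mu n] w) : nb ρ v = nb ρ w := by
  unfold nb
  rw [← restr hρ]
  congr 1
  exact integral_congr_ae ((ae_restrict_of_ae h).mono fun x hx => by simp only [hx])

lemma cont_nb (A : Api n) {ρ : ℝ} (hρ : ρ ≤ 1) : Continuous fun h : H n => nb ρ h := by
  have hb : Bdd ((ball (0 : E n) ρ).indicator fun _ => (1 : ℂ)) :=
    ⟨measurable_const.indicator measurableSet_ball, 1, fun x =>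
      (norm_indicator_le_norm_self _ _).trans norm_one.le⟩
  have e : ∀ h : H n, nb ρ h = ‖mulH ((ball (0 : E n) ρ).indicator fun _ => (1 : ℂ)) h‖ := by
    intro h
    rw [← Real.sqrt_sq (norm_nonneg (mulH _ h)), A.norm_sq, nb, ← restr hρ,
      ← integral_indicator measurableSet_ball]
    congr 1
    refine integral_congr_ae ((A.coe_mulH _ (A.mem_bdd _ hb) h).mono fun x hx => ?_)
    simp only [hx]
    by_cases h' : x ∈ ball (0 : E n) ρ <;> simp [h']
  simp only [e]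
  fun_prop

lemma cont_res (A : Api n) {q : E n → ℂ} (hq : Bdd q) :
    Continuous fun p : H n × H n => nb (1 / 2) fun x => p.2 x - q x * p.1 x := by
  have e : ∀ p : H n × H n, (nb (1 / 2) fun x => p.2 x - q x * p.1 x) =
      nb (1 / 2) (p.2 - mulH q p.1 : H n) := fun p => by
    refine nb_congr (by norm_num) ?_
    filter_upwards [Lp.coeFn_sub p.2 (mulH q p.1), A.coe_mulH q (A.mem_bdd q hq) p.1] with x h1 h2
    rw [h1, Pi.sub_apply, h2]
  simp only [e]
  exact (cont_nb A (by norm_num)).comp (by fun_prop)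

lemma wl2_e0 (h : H n) : WL2 (G.e0 h) := by
  refine ⟨(Lp.stronglyMeasurable h).measurable.indicator measurableSet_ball, ?_⟩
  refine ne_top_of_le_ne_top ((G.memLp_e0 h).integrable_norm_pow two_ne_zero).lintegral_lt_top.ne
    (lintegral_mono fun x => ENNReal.ofReal_le_ofReal ?_)
  exact mul_le_of_le_one_left (sq_nonneg _) (wt_le_one x)

lemma pr_toH (A : Api n) (h : H n) {φ : E n → ℂ} (hφ : Continuous φ) :
    pr h (toH φ) = ∫ x, G.e0 h x * φ x := by
  rw [G.integral_e0_mul, A.pr_eq]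
  exact integral_congr_ae ((A.coe_toH φ (A.mem_cont φ hφ).2).mono fun x hx => by simp only [hx])

lemma wp_e0 (A : Api n) {u g : H n} (h : Wk u g) : WP (ball 0 1) (G.e0 u) (G.e0 g) := by
  refine ⟨wl2_e0 u, wl2_e0 g, fun φ hφ hs => ?_⟩
  rw [pair_eq (wl2_e0 u) (wl2_e0 g) hφ, ← pr_toH A g hφ.1.continuous,
    ← pr_toH A u hφ.lap.1.continuous, h φ hφ.1 hs, sub_self]

/-- The mollifiers. -/
noncomputable def eta (n j : ℕ) : ContDiffBump (0 : E n) :=
  ⟨1 / ((j : ℝ) + 1) / 4 / 2, 1 / ((j : ℝ) + 1) / 4, by positivity, half_lt_self (by positivity)⟩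

lemma sq_le (A : Api n) (h : H n) {U : E n → ℂ} (hU : Continuous U) :
    ENNReal.ofReal (‖toH U - h‖ ^ 2) ≤ Q (bump n) fun x => U x - G.e0 h x := by
  rw [A.norm_sq, ofReal_integral_eq_lintegral_ofReal
    ((Lp.memLp _).integrable_norm_pow two_ne_zero) (Eventually.of_forall fun x => sq_nonneg _)]
  refine le_trans (le_of_eq (lintegral_congr_ae ?_))
    (setLIntegral_le_lintegral (ball (0 : E n) 1) _)
  filter_upwards [Lp.coeFn_sub (toH U) h, A.coe_toH U (A.mem_cont U hU).2,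
    G.ae_mu (p := fun x => x ∈ ball (0 : E n) 1) fun x hx => mem_ball_zero_iff.2 hx]
    with x h1 h2 h3
  rw [h1, Pi.sub_apply, h2, G.e0, indicator_of_mem h3,
    (bump n).one_of_mem_closedBall (ball_subset_closedBall h3), one_mul]

lemma tendsto_toH (A : Api n) (h : H n) :
    Tendsto (fun j => toH (mol (eta n j) (G.e0 h))) atTop (𝓝 h) := by
  have h1 : Tendsto (fun j => (eta n j).rOut) atTop (𝓝 0) := by
    have := tendsto_one_div_add_atTop_nhds_zero_nat.div_const (4 : ℝ)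
    rwa [zero_div] at this
  have h2 := Pool.Agent.MP_71da5e_an.A.mol_L2 h1
    (fun j => le_of_eq (by simp only [eta]; ring)) (bump n).continuous
    (bump n).hasCompactSupport (fun x => (bump n).nonneg) (wl2_e0 h)
  have h3 := (ENNReal.tendsto_toReal ENNReal.zero_ne_top).comp
    (tendsto_of_tendsto_of_tendsto_of_le_of_le tendsto_const_nhds h2 (fun _ => zero_le)
      fun j => sq_le A h (contDiff_mol (eta n j) (wl2_e0 h)).continuous)
  have h4 := h3.sqrt
  rw [tendsto_iff_norm_sub_tendsto_zero]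
  simpa only [Function.comp_apply, ENNReal.toReal_ofReal (sq_nonneg _),
    Real.sqrt_sq (norm_nonneg _), ENNReal.toReal_zero, Real.sqrt_zero] using h4

lemma nb_toH (A : Api n) {ρ : ℝ} (hρ : ρ ≤ 1) {U : E n → ℂ} (hU : Continuous U) :
    nb ρ U = nb ρ (toH U) := nb_congr hρ (A.coe_toH U (A.mem_cont U hU).2).symm

lemma res_mol (A : Api n) (q : E n → ℂ) {u g : H n} (h : Wk u g) (j : ℕ) :
    res q (mol (eta n j) (G.e0 u)) = nb (1 / 2) fun x =>
      toH (mol (eta n j) (G.e0 g)) x - q x * toH (mol (eta n j) (G.e0 u)) x := by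
  have e : res q (mol (eta n j) (G.e0 u)) = nb (1 / 2) fun x =>
      mol (eta n j) (G.e0 g) x - q x * mol (eta n j) (G.e0 u) x := by
    unfold res nb
    congr 1
    refine setIntegral_congr_fun measurableSet_ball fun x hx => ?_
    have h1 : (eta n j).rOut ≤ 1 / 4 :=
      div_le_div_of_nonneg_right ((div_le_one (by positivity)).2
        (le_add_of_nonneg_left j.cast_nonneg)) (by norm_num)
    rw [mem_ball, dist_comm] at hx
    simp only [lap_mol (eta n j) (wp_e0 A h) (x := x)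
      (closedBall_subset_ball' (by rw [dist_comm]; linarith))]
  rw [e]
  refine nb_congr (by norm_num) ?_
  filter_upwards [A.coe_toH _ (A.mem_cont _ (contDiff_mol (eta n j) (wl2_e0 g)).continuous).2,
    A.coe_toH _ (A.mem_cont _ (contDiff_mol (eta n j) (wl2_e0 u)).continuous).2] with x h1 h2
  rw [h1, h2]

lemma pr_smooth (A : Api n) {f : E n → ℂ} (hf : Bdd f) (h0 : ∀ x, 1 / 2 < ‖x‖ → f x = 0)
    {U V : E n → ℂ} (hU : Continuous U) (hV : Continuous V) :
    ∫ x, f x * U x * V x = pr (mulH f (toH U)) (toH V) := by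
  rw [A.pr_eq, ← setIntegral_eq_integral_of_forall_compl_eq_zero (s := ball (0 : E n) 1)
    fun x hx => by
      rw [mem_ball_zero_iff, not_lt] at hx
      rw [h0 x (by linarith), zero_mul, zero_mul]]
  refine integral_congr_ae ?_
  filter_upwards [A.coe_mulH f (A.mem_bdd f hf) (toH U), A.coe_toH U (A.mem_cont U hU).2,
    A.coe_toH V (A.mem_cont V hV).2] with x h1 h2 h3
  rw [h1, h2, h3]

lemma nb_nonneg (ρ : ℝ) (u : E n → ℂ) : 0 ≤ nb ρ u := Real.sqrt_nonneg _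

end Moll

theorem mollStmt {n : ℕ} (A : Api n) : MollStmt n := by
  rintro q₁ q₂ f h₁ h₂ hf h0 ⟨C, hC⟩
  refine ⟨max C 0, le_max_right _ _, fun u₁ g₁ u₂ g₂ w₁ w₂ => ?_⟩
  have t1 := Moll.tendsto_toH A u₁
  have t2 := Moll.tendsto_toH A u₂
  have r1 := ((Moll.cont_res A h₁).tendsto (u₁, g₁)).comp
    (t1.prodMk_nhds (Moll.tendsto_toH A g₁))
  have r2 := ((Moll.cont_res A h₂).tendsto (u₂, g₂)).comp
    (t2.prodMk_nhds (Moll.tendsto_toH A g₂))
  have a1 := ((Moll.cont_nb A (ρ := 2 / 5) (by norm_num)).tendsto u₁).comp t1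
  have a2 := ((Moll.cont_nb A (ρ := 2 / 5) (by norm_num)).tendsto u₂).comp t2
  have b1 := ((Moll.cont_nb A (ρ := 1 / 2) (by norm_num)).tendsto u₁).comp t1
  have b2 := ((Moll.cont_nb A (ρ := 1 / 2) (by norm_num)).tendsto u₂).comp t2
  have hc : Continuous fun p : H n × H n => ‖pr (mulH f p.1) p.2‖ := by fun_prop
  refine le_of_tendsto_of_tendsto' ((hc.tendsto (u₁, u₂)).comp (t1.prodMk_nhds t2))
    ((((a1.add r1).mul (b2.add r2)).add ((b1.add r1).mul (a2.add r2))).const_mul (max C 0))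
    fun j => ?_
  have s1 := contDiff_mol (Moll.eta n j) (Moll.wl2_e0 u₁)
  have s2 := contDiff_mol (Moll.eta n j) (Moll.wl2_e0 u₂)
  have h := hC _ _ s1 s2
  rw [Moll.pr_smooth A hf h0 s1.continuous s2.continuous, Moll.res_mol A q₁ w₁,
    Moll.res_mol A q₂ w₂, Moll.nb_toH A (ρ := 2 / 5) (by norm_num) s1.continuous,
    Moll.nb_toH A (ρ := 2 / 5) (by norm_num) s2.continuous,
    Moll.nb_toH A (ρ := 1 / 2) (by norm_num) s1.continuous,
    Moll.nb_toH A (ρ := 1 / 2) (by norm_num) s2.continuous] at h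
  refine h.trans (mul_le_mul_of_nonneg_right (le_max_left _ _) (add_nonneg ?_ ?_)) <;>
    exact mul_nonneg (add_nonneg (Moll.nb_nonneg _ _) (Moll.nb_nonneg _ _))
      (add_nonneg (Moll.nb_nonneg _ _) (Moll.nb_nonneg _ _))

end Pool.Agent.MP_71da5e_an.L

end

section

namespace Pool.Agent.MP_71da5e_an.L

open MeasureTheory Metric Set
open scoped RealInnerProductSpace Real

/-- The local theorem. -/
theorem core : CoreStmt := by
  intro n hn q₁ q₂ f h₁ h₂ hf h0 hc e he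
  have hn2 : 2 ≤ n := by omega
  have A := api n
  have P := pars A
  have Ga := gauss A P
  have Up := caUp hn2 A
  have Go := gopStmt A (exStmt n) P Ga (opStmt A (exStmt n) Ga) Up (wkEx n)
    (dgStmt A (exStmt n) P)
  have Ma := mainStmt A (fld n) (acStmt n) (smStmt n) (weightStmt A (fld n))
    (offStmt A (fld n) (smStmt n)) (cutStmt n) (vsStmt A) (badStmt A Up) (tauStmt A Up)
    (absStmt A (fld n))
  obtain ⟨m₁, Q₁, b₁⟩ := id h₁
  obtain ⟨m₂, Q₂, b₂⟩ := id h₂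
  obtain ⟨C, a₀, hC, ha, hΦ⟩ := cgoStmt A (exStmt n) (wkEx n) Go (max (max Q₁ Q₂) 0)
    (le_max_right _ _)
  obtain ⟨Cw, hCw, hW⟩ := mollStmt A q₁ q₂ f h₁ h₂ hf h0 hc
  obtain ⟨CA, hA⟩ := famAStmt A e he q₁ q₂ f h₁ h₂ hf h0 Cw hCw hW C a₀ hC ha
  obtain ⟨CB, hB⟩ := famBStmt A e q₁ q₂ f C a₀ hC ha
  obtain ⟨c, hc0, hd⟩ := decStmt A regStmt (caDown hn2 A) (geoStmt hn A) (tgStmt Ma) e he f hf h0
    (max (max CA CB) 0) a₀ (le_max_right _ _) ha fun lam tau hl hl1 ρ => by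
      obtain ⟨Φ₁⟩ := hΦ q₁ m₁ (fun x => (b₁ x).trans ((le_max_left _ _).trans (le_max_left _ _)))
        lam tau hl hl1 ρ
      obtain ⟨Φ₂⟩ := hΦ q₂ m₂ (fun x => (b₂ x).trans ((le_max_right _ _).trans (le_max_left _ _)))
        lam tau hl hl1 ρ
      exact ⟨_, hA _ ((le_max_left _ _).trans (le_max_left _ _)) lam tau hl hl1 ρ Φ₁ Φ₂,
        hB _ ((le_max_right _ _).trans (le_max_left _ _)) lam tau hl hl1 ρ Φ₁ Φ₂ he⟩
  exact ⟨c / (2 * π), by positivity, finStmt A e he f hf h0 c hc0 hd⟩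

end Pool.Agent.MP_71da5e_an.L

end
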