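import Pool.Agent.MP_71da5e_an.A.Defs
import Pool.Agent.Mg.F71da5ea.Ge9e9cd

section

namespace Pool.Agent.MP_71da5e_an.A

open MeasureTheory Metric Set Laplacian Filter Topology
open scoped ContDiff ENNReal RealInnerProductSpace

variable {n : ℕ}

/-- The indicator function of a set as a weight. -/
noncomputable def ind (K : Set (E n)) (x : E n) : ℝ := K.indicator (fun _ => 1) x

/-- The squared `L²` norm. -/
noncomputable def N2 (w : E n → ℂ) : ℝ≥0∞ := Q (fun _ => 1) w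

/-- A bounded open set with smooth boundary. -/
structure Dom (Ω : Set (E n)) : Prop where
  op : IsOpen Ω
  bd : Bornology.IsBounded Ω
  sm : SmoothBoundary Ω

/-- A square integrable function that vanishes off `Ω`. -/
structure L2 (Ω : Set (E n)) (w : E n → ℂ) : Prop where
  meas : Measurable w
  fin : N2 w ≠ ⊤
  zero : ∀ x, x ∉ Ω → w x = 0

/-- Measurable and bounded by `A`. -/
def Bd (A : ℝ) (q : E n → ℂ) : Prop := Measurable q ∧ ∀ x, ‖q x‖ ≤ A

/-- `Δ w = g + q w` in `Ω ∪ B` (with `w` and `g` extended by zero, so `w` has zero Cauchy data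
in `B`), and `w` has zero Dirichlet data in the very weak sense. -/
structure VW (Ω B : Set (E n)) (q w g : E n → ℂ) : Prop where
  lw : L2 Ω w
  lg : L2 Ω g
  weak : ∀ φ, Tst φ → (∀ x ∈ frontier Ω \ B, φ x = 0) →
    pair w (fun x => g x + q x * w x) φ = 0

/-- The annihilator of the range of `Δ - q` on `VW`. -/
structure Ann (Ω B : Set (E n)) (q u : E n → ℂ) : Prop where
  l2 : L2 Ω u
  perp : ∀ w g, VW Ω B q w g → ∫ x, u x * g x = 0

/-- The form in which the equality of the Cauchy data is used. -/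
def HypW (Ω B : Set (E n)) (q₁ q₂ : E n → ℂ) : Prop :=
  ∀ u, Ann Ω B q₁ u → ∃ w, VW Ω B q₂ w fun x => (q₁ x - q₂ x) * u x

/-- The a priori estimate. -/
def Est (Ω B : Set (E n)) (q : E n → ℂ) (C : ℝ) : Prop :=
  ∀ w g, VW Ω B q w g → N2 w ≤ ENNReal.ofReal C * N2 g

/-- Unique continuation off `Z`. -/
def UC (Ω B Z : Set (E n)) (q : E n → ℂ) : Prop :=
  ∀ w g, VW Ω B q w g → (∀ᵐ x, x ∉ Z → g x = 0) → ∀ᵐ x, x ∉ Z → w x = 0

/-- The operator `Δ - q`. -/
noncomputable def Pq (q v : E n → ℂ) (x : E n) : ℂ := Δ v x - q x * v x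

/-- The estimate that the boundary data give for test functions supported in `U`. -/
def Data (U Z : Set (E n)) (q₁ q₂ f : E n → ℂ) (C : ℝ) : Prop :=
  ∀ v₁ v₂, Tst v₁ → Tst v₂ → tsupport v₁ ⊆ U → tsupport v₂ ⊆ U →
    ‖∫ x, f x * v₁ x * v₂ x‖ₑ ^ 2 ≤ ENNReal.ofReal C *
      (Q (ind Z) (Pq q₁ v₁) * (Q (ind Z) v₂ + Q (ind Z) (Pq q₂ v₂)) +
        Q (ind Z) v₁ * Q (ind Z) (Pq q₂ v₂))

/-- A chart that flattens the boundary near `p` and is close to an isometry. -/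
structure Chart (Ω : Set (E n)) (p : E n) (δ r M : ℝ) (ν : E n) (Ψ : E n ≃ₜ E n) : Prop where
  r_pos : 0 < r
  unit : ‖ν‖ = 1
  smooth : ContDiff ℝ ∞ Ψ
  d1 : ∀ x, ‖fderiv ℝ Ψ x - ContinuousLinearMap.id ℝ (E n)‖ ≤ δ
  d2 : ∀ x, ‖fderiv ℝ (fderiv ℝ Ψ) x‖ ≤ M
  mem : ∀ x ∈ ball p r, x ∈ Ω ↔ Ψ x ∈ Hs ν
  fr : ∀ x ∈ ball p r, x ∈ frontier Ω → Ψ x ∈ Pl ν

/-- The confining potential. -/
noncomputable def Vt (ν : E n) (t : ℝ) (x : E n) : ℝ := if t ≤ |⟪x, ν⟫| then (t ^ 2)⁻¹ else 0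

/-- The model operator. -/
noncomputable def Lt (ν : E n) (t : ℝ) (φ : E n → ℂ) (x : E n) : ℂ := Δ φ x - Vt ν t x * φ x

/-- Odd under the reflection. -/
def IsOdd (ν : E n) (φ : E n → ℂ) : Prop := ∀ x, φ (rf ν x) = -φ x

lemma ind_nonneg (K : Set (E n)) (x : E n) : 0 ≤ ind K x :=
  indicator_nonneg (fun _ _ => zero_le_one) x

lemma ind_le_one (K : Set (E n)) (x : E n) : ind K x ≤ 1 :=
  indicator_le_self' (fun _ _ => zero_le_one) x

lemma ind_of_mem {K : Set (E n)} {x : E n} (h : x ∈ K) : ind K x = 1 := indicator_of_mem h _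

lemma ind_of_notMem {K : Set (E n)} {x : E n} (h : x ∉ K) : ind K x = 0 :=
  indicator_of_notMem h _

lemma ind_mono {K L : Set (E n)} (h : K ⊆ L) (x : E n) : ind K x ≤ ind L x :=
  indicator_le_indicator_of_subset h (fun _ => zero_le_one) x

lemma measurable_ind {K : Set (E n)} (h : MeasurableSet K) : Measurable (ind K) :=
  measurable_const.indicator h

lemma Q_ind_le (K : Set (E n)) (w : E n → ℂ) : Q (ind K) w ≤ N2 w :=
  Q_mono_left w (ind_le_one K)

lemma Q_ind_mono {K L : Set (E n)} (h : K ⊆ L) (w : E n → ℂ) : Q (ind K) w ≤ Q (ind L) w :=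
  Q_mono_left w (ind_mono h)

lemma wl2_of_N2 {w : E n → ℂ} (hw : Measurable w) (h : N2 w ≠ ⊤) : WL2 w :=
  ⟨hw, ne_top_of_le_ne_top h (Q_mono_left w wt_le_one)⟩

lemma L2.wl2 {Ω : Set (E n)} {w : E n → ℂ} (h : L2 Ω w) : WL2 w := wl2_of_N2 h.meas h.fin

lemma Bd.nonneg {A : ℝ} {q : E n → ℂ} (h : Bd A q) : 0 ≤ A := (norm_nonneg _).trans (h.2 0)

lemma measurable_Vt (ν : E n) (t : ℝ) : Measurable (Vt ν t) :=
  Measurable.ite (measurableSet_le measurable_const (by fun_prop)) measurable_const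
    measurable_const

lemma Vt_nonneg (ν : E n) (t : ℝ) (x : E n) : 0 ≤ Vt ν t x := by
  unfold Vt; split_ifs <;> positivity

lemma Vt_le (ν : E n) (t : ℝ) (x : E n) : Vt ν t x ≤ (t ^ 2)⁻¹ := by
  unfold Vt; split_ifs
  · exact le_rfl
  · positivity

lemma Vt_rf {ν : E n} (hν : ‖ν‖ = 1) (t : ℝ) (x : E n) : Vt ν t (rf ν x) = Vt ν t x := by
  unfold Vt; rw [inner_rf_nu hν, abs_neg]

/-- Test functions supported in `Ω ∪ B` are admissible. -/
lemma VW.test {Ω B : Set (E n)} (hΩ : IsOpen Ω) {q w g φ : E n → ℂ} (h : VW Ω B q w g)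
    (hφ : Tst φ) (hs : tsupport φ ⊆ Ω ∪ B) : pair w (fun x => g x + q x * w x) φ = 0 := by
  refine h.weak φ hφ fun x hx => image_eq_zero_of_notMem_tsupport fun h' => ?_
  rcases hs h' with h₁ | h₁
  · exact (hΩ.frontier_eq ▸ hx.1).2 h₁
  · exact hx.2 h₁

lemma VW.wp {Ω B : Set (E n)} (hΩ : IsOpen Ω) {A : ℝ} {q w g : E n → ℂ} (hq : Bd A q)
    (h : VW Ω B q w g) : WP (Ω ∪ B) w fun x => g x + q x * w x :=
  ⟨h.lw.wl2, h.lg.wl2.add (h.lw.wl2.mul hq.1 hq.2), fun _ hφ hs => h.test hΩ hφ hs⟩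

lemma WP.mono' {U V : Set (E n)} {w F : E n → ℂ} (h : WP U w F) (hV : V ⊆ U) : WP V w F :=
  ⟨h.1, h.2.1, fun φ hφ hs => h.2.2 φ hφ (hs.trans hV)⟩

end Pool.Agent.MP_71da5e_an.A

end

section

namespace Pool.Agent.MP_71da5e_an

open MeasureTheory Metric Set Laplacian Filter Topology
open scoped ContDiff ENNReal RealInnerProductSpace

variable {n : ℕ}

/-- Mollification. -/
noncomputable def mol (η : ContDiffBump (0 : E n)) (w : E n → ℂ) (x : E n) : ℂ :=
  ∫ y, (η.normed volume (x - y) : ℂ) * w y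

/-- Convolution with a test function. -/
noncomputable def mollCv (w φ : E n → ℂ) : E n → ℂ :=
  convolution w φ (ContinuousLinearMap.mul ℝ ℂ) volume

lemma mollCv_apply (w φ : E n → ℂ) (x : E n) : mollCv w φ x = ∫ y, w y * φ (x - y) := rfl

lemma moll_tst_fderiv {φ : E n → ℂ} (h : Tst φ) (v : E n) : Tst fun y => fderiv ℝ φ y v :=
  ⟨(h.1.fderiv_right (m := ∞) (by simp)).clm_apply contDiff_const, h.2.fderiv_apply ℝ v⟩

lemma moll_contDiff {w φ : E n → ℂ} (hw : LocallyIntegrable w) (h : Tst φ) :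
    ContDiff ℝ ∞ (mollCv w φ) :=
  h.2.contDiff_convolution_right _ hw h.1

lemma moll_fderiv {w φ : E n → ℂ} (hw : LocallyIntegrable w) (h : Tst φ) (v : E n) :
    (fun x => fderiv ℝ (mollCv w φ) x v) = mollCv w fun y => fderiv ℝ φ y v := by
  funext x
  have h1 : ContDiff ℝ 1 φ := h.1.of_le (by simp)
  rw [mollCv, (h.2.hasFDerivAt_convolution_right _ hw h1 x).fderiv,
    convolution_precompR_apply _ hw (h.2.fderiv ℝ) (h1.continuous_fderiv one_ne_zero)]
  rfl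

lemma moll_tst_sub {φ : E n → ℂ} (h : Tst φ) (x : E n) : Tst fun y => φ (x - y) :=
  ⟨h.1.comp (contDiff_const.sub contDiff_id), h.2.comp_homeomorph (Homeomorph.subLeft x)⟩

lemma moll_lap {w φ : E n → ℂ} (hw : WL2 w) (h : Tst φ) (x : E n) :
    Δ (mollCv w φ) x = ∫ y, w y * Δ φ (x - y) := by
  have hl := hw.locallyIntegrable
  have h2 : (2 : WithTop ℕ∞) ≤ ((⊤ : ℕ∞) : WithTop ℕ∞) := by
    rw [show (2 : WithTop ℕ∞) = ((2 : ℕ∞) : WithTop ℕ∞) from rfl]
    exact_mod_cast le_top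
  rw [lap_eq ((moll_contDiff hl h).of_le h2).contDiffAt]
  have e : ∀ i, fderiv ℝ (fun y => fderiv ℝ (mollCv w φ) y (ev i)) x (ev i) =
      ∫ y, w y * fderiv ℝ (fun y => fderiv ℝ φ y (ev i)) (x - y) (ev i) := fun i => by
    rw [moll_fderiv hl h]
    exact congrFun (moll_fderiv hl (moll_tst_fderiv h _) (ev i)) x
  simp only [e]
  rw [← integral_finsetSum]
  · refine integral_congr_ae (Eventually.of_forall fun y => ?_)
    simp only [lap_eq (h.1.of_le h2).contDiffAt, Finset.mul_sum]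
  · intro i _
    have h3 := moll_tst_sub (moll_tst_fderiv (moll_tst_fderiv h (ev i)) (ev i)) x
    exact hw.integrable_mul h3.1.continuous h3.2

lemma moll_tst_normed (η : ContDiffBump (0 : E n)) : Tst fun y => (η.normed volume y : ℂ) :=
  ⟨Complex.ofRealCLM.contDiff.comp η.contDiff_normed,
    η.hasCompactSupport_normed.comp_left (g := fun t : ℝ => (t : ℂ)) Complex.ofReal_zero⟩

lemma moll_eq (η : ContDiffBump (0 : E n)) (w : E n → ℂ) :
    mol η w = mollCv w fun y => (η.normed volume y : ℂ) := by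
  funext x
  simp only [mol, mollCv_apply, mul_comm]

theorem contDiff_mol (η : ContDiffBump (0 : E n)) {w : E n → ℂ} (hw : WL2 w) :
    ContDiff ℝ ∞ (mol η w) := by
  rw [moll_eq]
  exact moll_contDiff hw.locallyIntegrable (moll_tst_normed η)

theorem lap_mol (η : ContDiffBump (0 : E n)) {U : Set (E n)} {w F : E n → ℂ} (h : WP U w F)
    {x : E n} (hx : closedBall x η.rOut ⊆ U) : Δ (mol η w) x = mol η F x := by
  have hη := moll_tst_normed η
  have ht := moll_tst_sub hη x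
  have h2 : (2 : WithTop ℕ∞) ≤ ((⊤ : ℕ∞) : WithTop ℕ∞) := by
    rw [show (2 : WithTop ℕ∞) = ((2 : ℕ∞) : WithTop ℕ∞) from rfl]
    exact_mod_cast le_top
  have hs : tsupport (fun y => (η.normed volume (x - y) : ℂ)) ⊆ U := by
    refine subset_trans (closure_minimal (fun y hy => ?_) isClosed_closedBall) hx
    have h1 : x - y ∈ Function.support (η.normed volume) := by
      intro h0
      exact hy (by simp [h0])
    rw [η.support_normed_eq, mem_ball_zero_iff] at h1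
    rw [mem_closedBall, dist_comm, dist_eq_norm]
    exact h1.le
  have h3 := h.2.2 _ ht hs
  rw [pair_eq h.1 h.2.1 ht, sub_eq_zero] at h3
  have h4 : ∀ y, Δ (fun y => (η.normed volume (x - y) : ℂ)) y =
      Δ (fun y => (η.normed volume y : ℂ)) (x - y) := fun y => by
    have h5 := lap_affine (f := fun y => (η.normed volume y : ℂ)) x (-1) (x := y)
      (hη.1.of_le h2).contDiffAt
    simpa only [neg_one_smul, ← sub_eq_add_neg, neg_one_sq, one_smul] using h5
  rw [moll_eq η w, moll_lap h.1 hη, moll_eq η F, mollCv_apply, h3]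
  simp only [h4]

theorem tendsto_mol {η : ℕ → ContDiffBump (0 : E n)} (h₁ : Tendsto (fun j => (η j).rOut) atTop (𝓝 0))
    (h₂ : ∀ j, (η j).rOut ≤ 2 * (η j).rIn) {w : E n → ℂ} (hw : WL2 w) :
    ∀ᵐ x, Tendsto (fun j => mol (η j) w x) atTop (𝓝 (w x)) := by
  filter_upwards [ContDiffBump.ae_convolution_tendsto_right_of_locallyIntegrable h₁
    (Eventually.of_forall h₂) hw.locallyIntegrable] with x hx
  simpa only [mol, convolution_lsmul_swap, Complex.real_smul] using hx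

end Pool.Agent.MP_71da5e_an

end

section

namespace Pool.Agent.MP_71da5e_an

open MeasureTheory Metric Set Laplacian Filter Topology
open scoped ContDiff ENNReal RealInnerProductSpace

variable {n : ℕ}

lemma mollB_one (η : ContDiffBump (0 : E n)) :
    ∫⁻ z, ENNReal.ofReal (η.normed volume z) = 1 := by
  rw [← ofReal_integral_eq_lintegral_ofReal η.integrable_normed
    (Eventually.of_forall fun z => η.nonneg_normed z), η.integral_normed, ENNReal.ofReal_one]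

lemma mollB_jensen (η : ContDiffBump (0 : E n)) {F : E n → ℂ} (hF : Measurable F) (x : E n) :
    ENNReal.ofReal (‖mol η F x‖ ^ 2) ≤
      ∫⁻ y, ENNReal.ofReal (η.normed volume (x - y)) * ENNReal.ofReal (‖F y‖ ^ 2) := by
  have hk : Measurable fun y => ENNReal.ofReal (η.normed volume (x - y)) :=
    (η.continuous_normed.measurable.comp (by fun_prop)).ennreal_ofReal
  have h1 : ∫⁻ y, ENNReal.ofReal (η.normed volume (x - y)) = 1 := by
    rw [lintegral_sub_left_eq_self (fun z => ENNReal.ofReal (η.normed volume z)) x, mollB_one]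
  have h2 := ENNReal.lintegral_mul_norm_pow_le (μ := volume) hk.aemeasurable
    (g := fun y => ENNReal.ofReal (η.normed volume (x - y)) * ENNReal.ofReal (‖F y‖ ^ 2))
    (hk.mul (by fun_prop)).aemeasurable (p := 1 / 2) (q := 1 / 2) (by norm_num) (by norm_num)
    (by norm_num)
  rw [h1, ENNReal.one_rpow, one_mul] at h2
  have h3 : ‖mol η F x‖ₑ ≤ ∫⁻ y, ENNReal.ofReal (η.normed volume (x - y)) ^ (1 / 2 : ℝ) *
      (ENNReal.ofReal (η.normed volume (x - y)) * ENNReal.ofReal (‖F y‖ ^ 2)) ^ (1 / 2 : ℝ) := by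
    refine (enorm_integral_le_lintegral_enorm _).trans (le_of_eq (lintegral_congr fun y => ?_))
    rw [← ENNReal.mul_rpow_of_nonneg _ _ (by norm_num), ← mul_assoc, ← pow_two,
      ENNReal.ofReal_pow (norm_nonneg _), ← mul_pow, ← ENNReal.rpow_natCast, ← ENNReal.rpow_mul,
      enorm_mul, ofReal_norm]
    norm_num
    congr 1
    rw [← ofReal_norm, Complex.norm_real, Real.norm_of_nonneg (η.nonneg_normed _)]
  rw [ENNReal.ofReal_pow (norm_nonneg _), ofReal_norm]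
  refine (pow_le_pow_left' (h3.trans h2) 2).trans (le_of_eq ?_)
  rw [← ENNReal.rpow_natCast, ← ENNReal.rpow_mul]
  norm_num

lemma mollB_le (η : ContDiffBump (0 : E n)) {b c : E n → ℝ} (hb0 : ∀ x, 0 ≤ b x)
    (hc : Measurable c) (hc0 : ∀ x, 0 ≤ c x) (h : ∀ x y, ‖x - y‖ < η.rOut → b x ≤ c y)
    {F : E n → ℂ} (hF : Measurable F) : Q b (mol η F) ≤ Q c F := by
  have hk : Measurable fun p : E n × E n => ENNReal.ofReal (η.normed volume (p.1 - p.2)) :=
    (η.continuous_normed.measurable.comp (by fun_prop)).ennreal_ofReal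
  calc Q b (mol η F)
      ≤ ∫⁻ x, ∫⁻ y, ENNReal.ofReal (η.normed volume (x - y)) *
          ENNReal.ofReal (c y * ‖F y‖ ^ 2) := by
        refine lintegral_mono fun x => ?_
        rw [ENNReal.ofReal_mul (hb0 x)]
        refine (mul_le_mul_right (mollB_jensen η hF x) _).trans ?_
        rw [← lintegral_const_mul' _ _ ENNReal.ofReal_ne_top]
        refine lintegral_mono fun y => ?_
        by_cases hxy : ‖x - y‖ < η.rOut
        · rw [mul_left_comm, ENNReal.ofReal_mul (hc0 y)]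
          gcongr
          exact h x y hxy
        · have : η.normed volume (x - y) = 0 := by
            by_contra hne
            have : x - y ∈ Function.support (η.normed volume) := hne
            rw [η.support_normed_eq, mem_ball_zero_iff] at this
            exact hxy this
          simp [this]
    _ = ∫⁻ y, ∫⁻ x, ENNReal.ofReal (η.normed volume (x - y)) *
          ENNReal.ofReal (c y * ‖F y‖ ^ 2) :=
        lintegral_lintegral_swap (hk.mul (by fun_prop)).aemeasurable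
    _ = Q c F := by
        refine lintegral_congr fun y => ?_
        rw [lintegral_mul_const' _ _ ENNReal.ofReal_ne_top,
          lintegral_sub_right_eq_self (fun z => ENNReal.ofReal (η.normed volume z)) y, mollB_one,
          one_mul]

theorem limsup_Q_mol {η : ℕ → ContDiffBump (0 : E n)}
    (h₁ : Tendsto (fun j => (η j).rOut) atTop (𝓝 0)) {b : E n → ℝ} (hb : Continuous b)
    (hc : HasCompactSupport b) (hb0 : ∀ x, 0 ≤ b x) {F : E n → ℂ} (hF : WL2 F) {δ : ℝ≥0∞}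
    (hδ : δ ≠ 0) : ∀ᶠ j in atTop, Q b (mol (η j) F) ≤ Q b F + δ := by
  obtain ⟨R, hR⟩ := hc.isCompact.isBounded.subset_closedBall 0
  obtain ⟨ε, hε, hεδ⟩ := ENNReal.exists_nnreal_pos_mul_lt (Q_sh_ne_top hF 0 0 (R + 1)) hδ
  have hε' : (0 : ℝ) < ε := hε
  obtain ⟨r, hr, hru⟩ := Metric.uniformContinuous_iff.1
    (hc.uniformContinuous_of_continuous hb) ε hε'
  filter_upwards [h₁.eventually (gt_mem_nhds (lt_min hr one_pos))] with j hj
  have hs : ∀ x : E n, 0 ≤ (ε : ℝ) * sh 0 0 (R + 1) x := fun x =>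
    mul_nonneg hε'.le (sh_nonneg _ _ _ _)
  refine (mollB_le (η j) (c := fun x => b x + ε * sh 0 0 (R + 1) x) hb0
    (hb.measurable.add ((measurable_sh _ _ _).const_mul _))
    (fun x => add_nonneg (hb0 x) (hs x)) (fun x y hxy => ?_) hF.1).trans ?_
  · by_cases hx : b x = 0
    · rw [hx]; exact add_nonneg (hb0 y) (hs y)
    have hxR : ‖x‖ ≤ R := mem_closedBall_zero_iff.1 (hR (subset_tsupport _ hx))
    have h1 : ‖x - y‖ < r := hxy.trans (hj.trans_le (min_le_left _ _))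
    have h2 : ‖x - y‖ < 1 := hxy.trans (hj.trans_le (min_le_right _ _))
    have h3 : ‖y‖ ≤ R + 1 := by
      have := norm_sub_le x (x - y)
      rw [sub_sub_cancel] at this
      linarith
    have h4 : sh 0 0 (R + 1) y = 1 := by simp [sh, h3]
    have h5 := hru (a := x) (b := y) (by rwa [dist_eq_norm])
    rw [Real.dist_eq, abs_lt] at h5
    simp only [h4]
    linarith [h5.2]
  · rw [Q_add_left hb.measurable hF.1 hb0 hs, Q_const_mul hε'.le, ENNReal.ofReal_coe_nnreal]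
    exact add_le_add_right hεδ.le _

theorem transfer {a b₁ b₂ : E n → ℝ} {U : Set (E n)} (hU : IsOpen U) (ha : Measurable a)
    (h₁ : Continuous b₁) (h₁c : HasCompactSupport b₁) (h₁0 : ∀ x, 0 ≤ b₁ x)
    (h₁U : tsupport b₁ ⊆ U) (h₂ : Continuous b₂) (h₂c : HasCompactSupport b₂)
    (h₂0 : ∀ x, 0 ≤ b₂ x)
    (h : ∀ W : E n → ℂ, ContDiff ℝ ∞ W → Q a W ≤ Q b₁ (Δ W) + Q b₂ W) {w F : E n → ℂ}
    (hw : WP U w F) : Q a w ≤ Q b₁ F + Q b₂ w := by
  let η : ℕ → ContDiffBump (0 : E n) := fun j =>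
    ⟨1 / ((j : ℝ) + 1) / 2, 1 / ((j : ℝ) + 1), by positivity, half_lt_self (by positivity)⟩
  have hη : Tendsto (fun j => (η j).rOut) atTop (𝓝 0) := tendsto_one_div_add_atTop_nhds_zero_nat
  have hη2 : ∀ j, (η j).rOut ≤ 2 * (η j).rIn := fun j => le_of_eq (by simp only [η]; ring)
  obtain ⟨r, hr, hrU⟩ := h₁c.isCompact.exists_cthickening_subset_open hU h₁U
  refine ENNReal.le_of_forall_pos_le_add fun ε hε _ => ?_
  have hδ : (ε : ℝ≥0∞) / 2 ≠ 0 := by simp [hε.ne']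
  have hev : ∀ᶠ j in atTop, Q a (mol (η j) w) ≤ Q b₁ F + Q b₂ w + ε := by
    filter_upwards [limsup_Q_mol hη h₁ h₁c h₁0 hw.2.1 hδ, limsup_Q_mol hη h₂ h₂c h₂0 hw.1 hδ,
      hη.eventually (gt_mem_nhds hr)] with j j1 j2 j3
    have e : Q b₁ (Δ (mol (η j) w)) ≤ Q b₁ (mol (η j) F) := by
      refine Q_mono fun x => ?_
      by_cases hx : b₁ x = 0
      · simp [hx]
      · rw [lap_mol (η j) hw ((closedBall_subset_closedBall j3.le).trans
          ((closedBall_subset_cthickening (subset_tsupport _ hx) r).trans hrU))]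
    calc Q a (mol (η j) w) ≤ Q b₁ (Δ (mol (η j) w)) + Q b₂ (mol (η j) w) :=
          h _ (contDiff_mol _ hw.1)
      _ ≤ (Q b₁ F + ε / 2) + (Q b₂ w + ε / 2) := add_le_add (e.trans j1) j2
      _ = Q b₁ F + Q b₂ w + ε := by rw [add_add_add_comm, ENNReal.add_halves]
  calc Q a w = ∫⁻ x, liminf (fun j => ENNReal.ofReal (a x * ‖mol (η j) w x‖ ^ 2)) atTop := by
        refine lintegral_congr_ae ((tendsto_mol hη hη2 hw.1).mono fun x hx => ?_)
        exact (ENNReal.tendsto_ofReal ((hx.norm.pow 2).const_mul (a x))).liminf_eq.symm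
    _ ≤ liminf (fun j => Q a (mol (η j) w)) atTop := by
        refine lintegral_liminf_le fun j => ?_
        have := (contDiff_mol (η j) hw.1).continuous.measurable
        fun_prop
    _ ≤ _ := liminf_le_of_frequently_le' hev.frequently

end Pool.Agent.MP_71da5e_an

end

section

namespace Pool.Agent.MP_71da5e_an

open MeasureTheory Metric Set Laplacian Filter Topology
open scoped ContDiff ENNReal RealInnerProductSpace

variable {n : ℕ}

/-- The rescaled bump function with centre `y`. -/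
noncomputable def annB (y : E n) (t : ℝ) (x : E n) : ℝ := bump n (t⁻¹ • (x - y))

lemma annB_smooth (y : E n) (t : ℝ) : ContDiff ℝ ∞ (annB y t) :=
  (bump n).contDiff.comp ((contDiff_id.sub contDiff_const).const_smul t⁻¹)

lemma annB_one {y x : E n} {t : ℝ} (ht : 0 < t) (h : ‖x - y‖ ≤ t) : annB y t x = 1 := by
  refine (bump n).one_of_mem_closedBall ?_
  rw [mem_closedBall_zero_iff, norm_smul, norm_inv, Real.norm_of_nonneg ht.le]
  exact (inv_mul_le_iff₀ ht).2 (by simpa [bump] using h)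

lemma annB_zero {y x : E n} {t : ℝ} (ht : 0 < t) (h : 2 * t ≤ ‖x - y‖) : annB y t x = 0 := by
  refine (bump n).zero_of_le_dist ?_
  rw [dist_zero_right, norm_smul, norm_inv, Real.norm_of_nonneg ht.le]
  exact (le_inv_mul_iff₀ ht).2 (by simpa [bump, mul_comm] using h)

lemma annB_nonneg (y : E n) (t : ℝ) (x : E n) : 0 ≤ annB y t x := (bump n).nonneg

lemma annB_le_one (y : E n) (t : ℝ) (x : E n) : annB y t x ≤ 1 := (bump n).le_one

lemma annK (n : ℕ) : ∃ K : ℝ, 0 < K ∧ (∀ x, ‖fderiv ℝ (bump n) x‖ ≤ K) ∧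
    ∀ x, |Δ (bump n : E n → ℝ) x| ≤ K := by
  have hs : ContDiff ℝ ∞ (bump n : E n → ℝ) := (bump n).contDiff
  have hc : HasCompactSupport (bump n : E n → ℝ) := (bump n).hasCompactSupport
  obtain ⟨K₁, h₁⟩ := (hs.continuous_fderiv (by simp)).bounded_above_of_compact_support
    (hc.fderiv ℝ)
  obtain ⟨K₂, h₂⟩ := (contDiff_lap hs).continuous.bounded_above_of_compact_support
    (hc.of_isClosed_subset (isClosed_tsupport _) (tsupport_lap _))
  refine ⟨max (max K₁ K₂) 1, lt_max_of_lt_right one_pos, fun x => ?_, fun x => ?_⟩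
  · exact (h₁ x).trans (le_max_of_le_left (le_max_left _ _))
  · exact (h₂ x).trans (le_max_of_le_left (le_max_right _ _))

lemma annB_ev {y x : E n} {t : ℝ} (ht : 0 < t) (h : ¬(t ≤ ‖x - y‖ ∧ ‖x - y‖ ≤ 2 * t)) :
    ∃ c : ℝ, annB y t =ᶠ[𝓝 x] fun _ => c := by
  have hcont : Continuous fun z : E n => ‖z - y‖ := by fun_prop
  rcases not_and_or.1 h with h | h
  · refine ⟨1, ?_⟩
    filter_upwards [hcont.continuousAt.eventually_lt continuousAt_const (not_le.1 h)] with z hz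
    exact annB_one ht hz.le
  · refine ⟨0, ?_⟩
    filter_upwards [continuousAt_const.eventually_lt hcont.continuousAt (not_le.1 h)] with z hz
    exact annB_zero ht hz.le

lemma annB_fderiv {K : ℝ} (hK : ∀ x, ‖fderiv ℝ (bump n) x‖ ≤ K) {y : E n} {t : ℝ} (ht : 0 < t)
    (x : E n) : ‖fderiv ℝ (annB y t) x‖ ≤ sh y t (2 * t) x * (K / t) := by
  unfold sh
  split_ifs with h
  · have h1 : HasFDerivAt (fun z : E n => t⁻¹ • (z - y)) (t⁻¹ • ContinuousLinearMap.id ℝ (E n))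
        x := ((hasFDerivAt_id x).sub_const y).const_smul t⁻¹
    have h2 : HasFDerivAt (bump n : E n → ℝ) (fderiv ℝ (bump n) (t⁻¹ • (x - y)))
        (t⁻¹ • (x - y)) :=
      (((bump n).contDiff (n := 1)).differentiable (by simp) _).hasFDerivAt
    have h3 : HasFDerivAt (annB y t) _ x := h2.comp x h1
    rw [h3.fderiv, one_mul]
    refine (ContinuousLinearMap.opNorm_comp_le _ _).trans ?_
    rw [div_eq_mul_inv]
    refine mul_le_mul (hK _) ?_ (norm_nonneg _) ((norm_nonneg _).trans (hK 0))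
    rw [norm_smul, norm_inv, Real.norm_of_nonneg ht.le]
    exact mul_le_of_le_one_right (inv_nonneg.2 ht.le) ContinuousLinearMap.norm_id_le
  · obtain ⟨c, hc⟩ := annB_ev ht h
    rw [hc.fderiv_eq]
    simp

lemma annB_lap {K : ℝ} (hK : ∀ x, |Δ (bump n : E n → ℝ) x| ≤ K) {y : E n} {t : ℝ} (ht : 0 < t)
    (x : E n) : |Δ (annB y t) x| ≤ sh y t (2 * t) x * (K / t ^ 2) := by
  unfold sh
  split_ifs with h
  · have he : annB y t = fun z => bump n (-(t⁻¹ • y) + t⁻¹ • z) := by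
      funext z
      rw [annB, smul_sub, neg_add_eq_sub]
    rw [he, lap_affine _ _ ((bump n).contDiff (n := 2)).contDiffAt, smul_eq_mul, abs_mul,
      abs_of_nonneg (sq_nonneg _), one_mul, inv_pow, div_eq_inv_mul]
    exact mul_le_mul_of_nonneg_left (hK _) (by positivity)
  · obtain ⟨c, hc⟩ := annB_ev ht h
    rw [lap_congr hc]
    simp

/-- The annular cut-off function. -/
noncomputable def annD (y : E n) (s t : ℝ) (x : E n) : ℝ := annB y t x - annB y s x

lemma annD_smooth (y : E n) (s t : ℝ) : ContDiff ℝ ∞ (annD y s t) :=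
  (annB_smooth y t).sub (annB_smooth y s)

lemma annD_one {y x : E n} {s t : ℝ} (hs : 0 < s) (h₁ : 2 * s ≤ ‖x - y‖) (h₂ : ‖x - y‖ ≤ t) :
    annD y s t x = 1 := by
  rw [annD, annB_one (by linarith) h₂, annB_zero hs h₁, sub_zero]

lemma annD_zero {y x : E n} {s t : ℝ} (hs : 0 < s) (hst : s ≤ t)
    (h : ¬(s ≤ ‖x - y‖ ∧ ‖x - y‖ ≤ 2 * t)) : annD y s t x = 0 := by
  rcases not_and_or.1 h with h | h
  · rw [annD, annB_one (hs.trans_le hst) ((not_le.1 h).le.trans hst), annB_one hs (not_le.1 h).le,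
      sub_self]
  · have := not_le.1 h
    rw [annD, annB_zero (hs.trans_le hst) this.le, annB_zero hs (by linarith), sub_self]

lemma annD_sq {y : E n} {s t : ℝ} (hs : 0 < s) (hst : s ≤ t) (x : E n) :
    annD y s t x ^ 2 ≤ sh y s (2 * t) x := by
  unfold sh
  split_ifs with h
  · have h1 := annB_nonneg y t x
    have h2 := annB_nonneg y s x
    have h3 := annB_le_one y t x
    have h4 := annB_le_one y s x
    rw [annD]
    nlinarith
  · rw [annD_zero hs hst h]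
    simp

lemma annD_fderiv {K : ℝ} (hK : ∀ x, ‖fderiv ℝ (bump n) x‖ ≤ K) {y : E n} {s t : ℝ} (hs : 0 < s)
    (ht : 0 < t) (x : E n) : ‖fderiv ℝ (annD y s t) x‖ ≤
      sh y s (2 * s) x * (K / s) + sh y t (2 * t) x * (K / t) := by
  have h : annD y s t = annB y t - annB y s := rfl
  rw [h, fderiv_sub ((annB_smooth y t).differentiable (by simp) x)
    ((annB_smooth y s).differentiable (by simp) x), add_comm]
  exact (norm_sub_le _ _).trans (add_le_add (annB_fderiv hK ht x) (annB_fderiv hK hs x))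

lemma annD_lap {K : ℝ} (hK : ∀ x, |Δ (bump n : E n → ℝ) x| ≤ K) {y : E n} {s t : ℝ} (hs : 0 < s)
    (ht : 0 < t) (x : E n) : |Δ (annD y s t) x| ≤
      sh y s (2 * s) x * (K / s ^ 2) + sh y t (2 * t) x * (K / t ^ 2) := by
  have h : annD y s t = annB y t - annB y s := rfl
  have h2 : (2 : WithTop ℕ∞) ≤ (∞ : WithTop ℕ∞) := WithTop.coe_le_coe.2 le_top
  rw [h, ContDiffAt.laplacian_sub ((annB_smooth y t).of_le h2).contDiffAt
    ((annB_smooth y s).of_le h2).contDiffAt, add_comm]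
  exact (abs_sub _ _).trans (add_le_add (annB_lap hK ht x) (annB_lap hK hs x))

/-- The closed shell. -/
def annS (y : E n) (s t : ℝ) : Set (E n) := {x | s ≤ ‖x - y‖ ∧ ‖x - y‖ ≤ t}

lemma annS_closed (y : E n) (s t : ℝ) : IsClosed (annS y s t) := by
  have h : Continuous fun x : E n => ‖x - y‖ := by fun_prop
  exact (isClosed_le continuous_const h).inter (isClosed_le h continuous_const)

lemma annS_compact (y : E n) (s t : ℝ) : IsCompact (annS y s t) :=
  (isCompact_closedBall y t).of_isClosed_subset (annS_closed y s t) fun x hx => by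
    rw [mem_closedBall, dist_eq_norm]
    exact hx.2

lemma annS_tsupport {y : E n} {s t : ℝ} {f : E n → ℝ} (h : ∀ x, x ∉ annS y s t → f x = 0) :
    tsupport f ⊆ annS y s t :=
  closure_minimal (fun x hx => by_contra fun h' => hx (h x h')) (annS_closed y s t)

lemma annS_supp {y : E n} {s t : ℝ} {f : E n → ℝ} (h : ∀ x, x ∉ annS y s t → f x = 0) :
    HasCompactSupport f := HasCompactSupport.intro (annS_compact y s t) h

lemma annT_sq {y : E n} {s : ℝ} (hs : 0 < s) (c : ℝ) (x : E n) :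
    (c * annD y s (4 * s) x) ^ 2 ≤ c ^ 2 * sh y s (8 * s) x := by
  rw [mul_pow, show 8 * s = 2 * (4 * s) by ring]
  exact mul_le_mul_of_nonneg_left (annD_sq hs (by linarith) x) (sq_nonneg c)

lemma annT_fderiv {K : ℝ} (hK : ∀ x, ‖fderiv ℝ (bump n) x‖ ≤ K) {y : E n} {s : ℝ} (hs : 0 < s)
    (c : ℝ) (x : E n) : ‖fderiv ℝ (fun z => c * annD y s (4 * s) z) x‖ ^ 2 ≤
      c ^ 2 * (K / s) ^ 2 * sh y s (8 * s) x := by
  have hK0 : 0 ≤ K := (norm_nonneg _).trans (hK 0)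
  rw [fderiv_const_mul ((annD_smooth y s (4 * s)).differentiable (by simp) x), norm_smul, mul_pow,
    Real.norm_eq_abs, sq_abs, mul_assoc]
  refine mul_le_mul_of_nonneg_left ?_ (sq_nonneg c)
  have h := annD_fderiv hK (y := y) hs (show 0 < 4 * s by linarith) x
  have h4 : K / (4 * s) ≤ K / s := div_le_div_of_nonneg_left hK0 hs (by linarith)
  have h5 : 0 ≤ K / (4 * s) := by positivity
  have h' : ‖fderiv ℝ (annD y s (4 * s)) x‖ ≤ K / s * sh y s (8 * s) x := by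
    refine h.trans ?_
    unfold sh
    split_ifs with h1 h2 h3 h4 h5 h6 h7
    · exfalso; linarith [h1.2, h2.1]
    · exfalso; linarith [h1.2, h2.1]
    · simp
    · exact absurd ⟨h1.1, by linarith [h1.2]⟩ h4
    · simpa using h4
    · exact absurd ⟨by linarith [h5.1], by linarith [h5.2]⟩ h6
    · simp only [zero_mul, add_zero, mul_one]
      positivity
    · simp
  refine (pow_le_pow_left₀ (norm_nonneg _) h' 2).trans ?_
  rw [mul_pow]
  refine mul_le_mul_of_nonneg_left ?_ (sq_nonneg _)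
  have := sh_nonneg y s (8 * s) x
  have := sh_le_one y s (8 * s) x
  nlinarith

end Pool.Agent.MP_71da5e_an

end

section

namespace Pool.Agent.MP_71da5e_an.A

open MeasureTheory Metric Set Laplacian Filter Topology
open scoped ContDiff ENNReal RealInnerProductSpace

variable {n : ℕ}

lemma flat_fderiv (ρ : E n → ℝ) (p v : E n) : fderiv ℝ ρ p v = ⟪gradient ρ p, v⟫ := by
  rw [gradient, InnerProductSpace.toDual_symm_apply]

theorem IsDef.zero {Ω : Set (E n)} (hΩ : IsOpen Ω) {p : E n} {ρ : E n → ℝ} (h : IsDef Ω p ρ) :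
    ∀ᶠ x in 𝓝 p, x ∈ frontier Ω → ρ x = 0 := by
  filter_upwards [h.2.2.eventually_nhds] with x hx hf
  have h1 : x ∉ Ω := (hΩ.frontier_eq ▸ hf).2
  have h2 : 0 ≤ ρ x := not_lt.1 fun h' => h1 (hx.self_of_nhds.2 h')
  refine le_antisymm (not_lt.1 fun h3 => ?_) h2
  have h4 : ∀ᶠ y in 𝓝 x, 0 < ρ y := h.1.continuous.continuousAt.eventually (lt_mem_nhds h3)
  have h5 : ∃ᶠ y in 𝓝 x, y ∈ Ω := mem_closure_iff_frequently.1 (frontier_subset_closure hf)
  obtain ⟨y, hy, hy1, hy2⟩ := (h5.and_eventually (hx.and h4)).exists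
  exact lt_asymm (hy1.1 hy) hy2

lemma flat_cont_gradient {ρ : E n → ℝ} (h : ContDiff ℝ ∞ ρ) : Continuous (gradient ρ) :=
  (InnerProductSpace.toDual ℝ (E n)).symm.continuous.comp (h.continuous_fderiv (by simp))

theorem IsDef.near {Ω : Set (E n)} {p : E n} {ρ : E n → ℝ} (h : IsDef Ω p ρ) :
    ∀ᶠ x in 𝓝 p, IsDef Ω x ρ := by
  have h1 : ∀ᶠ x in 𝓝 p, gradient ρ x ≠ 0 :=
    (flat_cont_gradient h.1).continuousAt.eventually_ne h.2.1
  filter_upwards [h1, h.2.2.eventually_nhds] with x hx1 hx2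
  exact ⟨h.1, hx1, hx2⟩

lemma flat_line (p v : E n) : Tendsto (fun t : ℝ => p + t • v) (𝓝[>] 0) (𝓝 p) := by
  have : Continuous fun t : ℝ => p + t • v := by fun_prop
  have h := this.tendsto 0
  simp only [zero_smul, add_zero] at h
  exact h.mono_left nhdsWithin_le_nhds

lemma flat_dir {ρ : E n → ℝ} (h : ContDiff ℝ ∞ ρ) {p : E n} (h0 : ρ p = 0) (v : E n) :
    Tendsto (fun t : ℝ => t⁻¹ * ρ (p + t • v)) (𝓝[>] 0) (𝓝 ⟪gradient ρ p, v⟫) := by
  have h1 : HasDerivAt (fun t : ℝ => p + t • v) v 0 := by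
    simpa using ((hasDerivAt_id (0 : ℝ)).smul_const v).const_add p
  have h2 : HasFDerivAt ρ (fderiv ℝ ρ p) (p + (0 : ℝ) • v) := by
    simpa using (h.differentiable (by simp) p).hasFDerivAt
  have h3 := (h2.comp_hasDerivAt (0 : ℝ) h1).tendsto_slope_zero_right
  rw [flat_fderiv] at h3
  simpa [h0] using h3

lemma flat_neg {ρ : E n → ℝ} (h : ContDiff ℝ ∞ ρ) {p : E n} (h0 : ρ p = 0) {v : E n}
    (hv : ⟪gradient ρ p, v⟫ < 0) : ∀ᶠ t : ℝ in 𝓝[>] 0, ρ (p + t • v) < 0 := by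
  filter_upwards [(flat_dir h h0 v).eventually (gt_mem_nhds hv), self_mem_nhdsWithin]
    with t ht ht0
  exact neg_of_mul_neg_right ht (inv_nonneg.2 (le_of_lt ht0))

lemma flat_pos {ρ : E n → ℝ} (h : ContDiff ℝ ∞ ρ) {p : E n} (h0 : ρ p = 0) {v : E n}
    (hv : 0 < ⟪gradient ρ p, v⟫) : ∀ᶠ t : ℝ in 𝓝[>] 0, 0 < ρ (p + t • v) := by
  filter_upwards [(flat_dir h h0 v).eventually (lt_mem_nhds hv), self_mem_nhdsWithin]
    with t ht ht0
  exact (mul_pos_iff_of_pos_left (inv_pos.2 ht0)).1 ht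

/-- Two defining functions have parallel gradients. -/
theorem IsDef.parallel {Ω : Set (E n)} (hΩ : IsOpen Ω) {p : E n} (hp : p ∈ frontier Ω)
    {ρ₁ ρ₂ : E n → ℝ} (h₁ : IsDef Ω p ρ₁) (h₂ : IsDef Ω p ρ₂) :
    ∃ c : ℝ, gradient ρ₂ p = c • gradient ρ₁ p := by
  have z1 := (h₁.zero hΩ).self_of_nhds hp
  have z2 := (h₂.zero hΩ).self_of_nhds hp
  have key : ∀ v, ⟪gradient ρ₁ p, v⟫ < 0 → ⟪gradient ρ₂ p, v⟫ ≤ 0 := by
    intro v hv
    by_contra hc
    have a1 := flat_neg h₁.1 z1 hv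
    have a2 := flat_pos h₂.1 z2 (not_le.1 hc)
    have a3 := (flat_line p v).eventually h₁.2.2
    have a4 := (flat_line p v).eventually h₂.2.2
    obtain ⟨t, b1, b2, b3, b4⟩ := (a1.and (a2.and (a3.and a4))).exists
    exact lt_asymm (b4.1 (b3.2 b1)) b2
  set g₁ := gradient ρ₁ p
  set g₂ := gradient ρ₂ p
  have hg : 0 < ⟪g₁, g₁⟫ := real_inner_self_pos.2 h₁.2.1
  refine ⟨⟪g₁, g₂⟫ / ⟪g₁, g₁⟫, ?_⟩
  set c := ⟪g₁, g₂⟫ / ⟪g₁, g₁⟫ with hc
  set w := g₂ - c • g₁ with hw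
  have e1 : ⟪g₁, w⟫ = 0 := by
    rw [hw, inner_sub_right, real_inner_smul_right, hc, div_mul_cancel₀ _ hg.ne', sub_self]
  have e2 : ⟪g₂, w⟫ = ⟪w, w⟫ := by
    have : g₂ = w + c • g₁ := by rw [hw, sub_add_cancel]
    conv_lhs => rw [this]
    rw [inner_add_left, real_inner_smul_left, e1, mul_zero, add_zero]
  by_contra hne
  have hw0 : 0 < ⟪w, w⟫ := real_inner_self_pos.2 (sub_ne_zero.2 hne)
  have := key (((|⟪g₂, g₁⟫| + 1) / ⟪w, w⟫) • w - g₁) (by
    rw [inner_sub_right, real_inner_smul_right, e1, mul_zero, zero_sub]; exact neg_neg_of_pos hg)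
  rw [inner_sub_right, real_inner_smul_right, e2, div_mul_cancel₀ _ hw0.ne'] at this
  linarith [le_abs_self ⟪g₂, g₁⟫]

/-- There are exterior balls near a boundary point. -/
theorem IsDef.exterior {Ω : Set (E n)} (hΩ : IsOpen Ω) {p : E n} (hp : p ∈ frontier Ω)
    {ρ : E n → ℝ} (h : IsDef Ω p ρ) {r : ℝ} (hr : 0 < r) :
    ∃ (y : E n) (s : ℝ), 0 < s ∧ ball y s ⊆ ball p r ∧ Disjoint (ball y s) Ω := by
  have z := (h.zero hΩ).self_of_nhds hp
  have a1 := flat_pos h.1 z (real_inner_self_pos.2 h.2.1)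
  have a2 := (flat_line p (gradient ρ p)).eventually
    (h.2.2.and (ball_mem_nhds p hr)).eventually_nhds
  obtain ⟨t, b1, b2⟩ := (a1.and a2).exists
  have b3 : ∀ᶠ x in 𝓝 (p + t • gradient ρ p), 0 < ρ x :=
    h.1.continuous.continuousAt.eventually (lt_mem_nhds b1)
  obtain ⟨s, hs, hb⟩ := Metric.eventually_nhds_iff_ball.1 (b2.and b3)
  refine ⟨_, s, hs, fun x hx => (hb x hx).1.2, disjoint_left.2 fun x hx hx' => ?_⟩
  exact lt_asymm ((hb x hx).1.1.1 hx') (hb x hx).2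

lemma flat_cut {h : E n → ℝ} (hh : ContDiff ℝ ∞ h) {p : E n} (h0 : h p = 0)
    (h1 : fderiv ℝ h p = 0) {δ r₀ : ℝ} (hδ : 0 < δ) (hr₀ : 0 < r₀) :
    ∃ (r : ℝ) (k : E n → ℝ), 0 < r ∧ r ≤ r₀ ∧ ContDiff ℝ ∞ k ∧ HasCompactSupport k ∧
      (∀ x, ‖fderiv ℝ k x‖ ≤ δ) ∧ ∀ x ∈ ball p r, k x = h x := by
  obtain ⟨K, hK, hK1, -⟩ := annK n
  set ε := δ / (1 + 2 * K) with hε
  have hε0 : 0 < ε := by positivity
  have hc : ∀ᶠ x in 𝓝 p, ‖fderiv ℝ h x‖ < ε :=
    (hh.continuous_fderiv (by simp)).norm.continuousAt.eventually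
      (gt_mem_nhds (by simpa [h1] using hε0))
  obtain ⟨s, hs, hb⟩ := Metric.eventually_nhds_iff_ball.1 hc
  set r := min r₀ (s / 3) with hr
  have hr0 : 0 < r := lt_min hr₀ (by positivity)
  have hrs : 2 * r < s := by
    have : r ≤ s / 3 := min_le_right _ _
    linarith
  have hd : Differentiable ℝ h := hh.differentiable (by simp)
  have hbd : Differentiable ℝ (annB p r) := (annB_smooth p r).differentiable (by simp)
  refine ⟨r, fun x => annB p r x * h x, hr0, min_le_left _ _, (annB_smooth p r).mul hh, ?_, ?_, ?_⟩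
  · refine HasCompactSupport.intro (isCompact_closedBall p (2 * r)) fun x hx => ?_
    rw [mem_closedBall, dist_eq_norm, not_le] at hx
    rw [annB_zero hr0 hx.le, zero_mul]
  · intro x
    by_cases hx : ‖x - p‖ ≤ 2 * r
    · have hxs : x ∈ ball p s := by
        rw [mem_ball, dist_eq_norm]; linarith
      have e1 : ‖h x - h p‖ ≤ ε * ‖x - p‖ :=
        (convex_ball p s).norm_image_sub_le_of_norm_fderiv_le (fun y _ => hd y)
          (fun y hy => (hb y hy).le) (mem_ball_self hs) hxs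
      rw [h0, sub_zero] at e1
      have e2 : ‖h x‖ ≤ ε * (2 * r) := e1.trans (by gcongr)
      have e3 : ‖fderiv ℝ (annB p r) x‖ ≤ K / r :=
        (annB_fderiv hK1 hr0 x).trans
          (mul_le_of_le_one_left (by positivity) (sh_le_one _ _ _ _))
      have e4 : ‖annB p r x‖ ≤ 1 := by
        rw [Real.norm_of_nonneg (annB_nonneg _ _ _)]; exact annB_le_one _ _ _
      rw [fderiv_fun_mul (hbd x) (hd x)]
      refine (norm_add_le _ _).trans ?_
      rw [norm_smul, norm_smul]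
      have e5 : ‖annB p r x‖ * ‖fderiv ℝ h x‖ ≤ 1 * ε := by
        gcongr; exact (hb x hxs).le
      have e6 : ‖h x‖ * ‖fderiv ℝ (annB p r) x‖ ≤ ε * (2 * r) * (K / r) := by gcongr
      have e7 : ε * (2 * r) * (K / r) = ε * (2 * K) := by field_simp
      have e8 : ε * (1 + 2 * K) = δ := by rw [hε]; field_simp
      linarith
    · have e1 : (fun y => annB p r y * h y) =ᶠ[𝓝 x] fun _ => 0 := by
        have : ∀ᶠ y in 𝓝 x, 2 * r < ‖y - p‖ :=
          (by fun_prop : Continuous fun y : E n => ‖y - p‖).continuousAt.eventually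
            (lt_mem_nhds (not_le.1 hx))
        filter_upwards [this] with y hy
        rw [annB_zero hr0 hy.le, zero_mul]
      rw [e1.fderiv_eq]
      simpa using hδ.le
  · intro x hx
    rw [mem_ball, dist_eq_norm] at hx
    simp only [annB_one hr0 hx.le, one_mul]

lemma flat_homeo {k : E n → ℝ} (hk : ContDiff ℝ ∞ k) (hd : ∀ x, ‖fderiv ℝ k x‖ ≤ 1 / 2)
    (p : E n) {ν : E n} (hν : ‖ν‖ = 1) :
    ∃ Ψ : E n ≃ₜ E n, (Ψ : E n → E n) = fun x => x - p + k x • ν := by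
  have ha : ApproximatesLinearOn (fun x => x - p + k x • ν)
      ((ContinuousLinearEquiv.refl ℝ (E n) : E n ≃L[ℝ] E n) : E n →L[ℝ] E n) univ (1 / 2) := by
    intro x _ y _
    have e1 : ‖k x - k y‖ ≤ 1 / 2 * ‖x - y‖ :=
      convex_univ.norm_image_sub_le_of_norm_fderiv_le
        (fun z _ => hk.differentiable (by simp) z) (fun z _ => hd z) (mem_univ y) (mem_univ x)
    have e2 : x - p + k x • ν - (y - p + k y • ν) - (x - y) = (k x - k y) • ν := by
      rw [sub_smul]; abel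
    simp only [ContinuousLinearEquiv.coe_refl, ContinuousLinearMap.id_apply]
    rw [e2, norm_smul, hν, mul_one]
    simpa using e1
  have hnt : Nontrivial (E n) := ⟨⟨ν, 0, fun h => by simp [h] at hν⟩⟩
  refine ⟨ha.toHomeomorph _ (Or.inr ?_), rfl⟩
  simp only [ContinuousLinearEquiv.refl_symm, ContinuousLinearEquiv.coe_refl,
    ContinuousLinearMap.nnnorm_id, inv_one]
  exact one_half_lt_one

theorem exists_chart {Ω : Set (E n)} (hΩ : IsOpen Ω) {p : E n} (hp : p ∈ frontier Ω)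
    {ρ : E n → ℝ} (h : IsDef Ω p ρ) {δ : ℝ} (hδ : 0 < δ) :
    ∃ (r M : ℝ) (ν : E n) (Ψ : E n ≃ₜ E n), Chart Ω p δ r M ν Ψ := by
  have z := (h.zero hΩ).self_of_nhds hp
  set g := gradient ρ p with hg
  have ha : 0 < ‖g‖ := norm_pos_iff.2 h.2.1
  set ν : E n := (-‖g‖⁻¹) • g with hν
  have hν1 : ‖ν‖ = 1 := by
    rw [hν, norm_smul, norm_neg, norm_inv, norm_norm, inv_mul_cancel₀ ha.ne']
  set f : E n → ℝ := fun x => -‖g‖⁻¹ * ρ x - ⟪ν, x - p⟫ with hf
  have hfs : ContDiff ℝ ∞ f :=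
    (contDiff_const.mul h.1).sub (contDiff_const.inner ℝ (contDiff_id.sub contDiff_const))
  have hf0 : f p = 0 := by simp [hf, z]
  have hf1 : fderiv ℝ f p = 0 := by
    have d1 : HasFDerivAt (fun x => -‖g‖⁻¹ * ρ x) ((-‖g‖⁻¹) • fderiv ℝ ρ p) p :=
      (h.1.differentiable (by simp) p).hasFDerivAt.const_mul _
    have d2 : HasFDerivAt (fun x : E n => ⟪ν, x - p⟫) (innerSL ℝ ν) p := by
      have := (innerSL ℝ ν).hasFDerivAt.comp p ((hasFDerivAt_id p).sub_const p)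
      simpa [Function.comp_def] using this
    rw [hf, (d1.fun_sub d2).fderiv]
    ext v
    simp only [sub_apply, smul_apply, flat_fderiv,
      innerSL_apply_apply, hν, real_inner_smul_left, smul_eq_mul, zero_apply]
    rw [← hg, sub_self]
  obtain ⟨r₀, hr₀, hb⟩ := Metric.eventually_nhds_iff_ball.1 (h.2.2.and (h.zero hΩ))
  obtain ⟨r, k, hr, hrr, hk, hkc, hkd, hkf⟩ :=
    flat_cut hfs hf0 hf1 (lt_min hδ one_half_pos) hr₀
  obtain ⟨Ψ, hΨ⟩ := flat_homeo hk (fun x => (hkd x).trans (min_le_right _ _)) p hν1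
  have hkdiff : Differentiable ℝ k := hk.differentiable (by simp)
  have hD : ∀ x, fderiv ℝ Ψ x =
      ContinuousLinearMap.id ℝ (E n) + fderiv ℝ (fun y => k y • ν) x := by
    intro x
    rw [hΨ]
    exact (((hasFDerivAt_id x).sub_const p).fun_add
      ((hkdiff x).smul_const ν).hasFDerivAt).fderiv
  have hks : ContDiff ℝ ∞ fun y => k y • ν := hk.smul contDiff_const
  have hkcs : HasCompactSupport fun y => k y • ν := hkc.smul_right
  have hk2 : ContDiff ℝ ∞ (fderiv ℝ fun y => k y • ν) := hks.fderiv_right (by simp)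
  obtain ⟨M, hM⟩ := (hk2.continuous_fderiv (by simp)).bounded_above_of_compact_support
    ((hkcs.fderiv ℝ).fderiv ℝ)
  have hin : ∀ x ∈ ball p r, ⟪Ψ x, ν⟫ = -‖g‖⁻¹ * ρ x := by
    intro x hx
    rw [hΨ]
    simp only [inner_add_left, real_inner_smul_left, real_inner_self_eq_norm_sq, hν1, hkf x hx, hf]
    rw [real_inner_comm]; ring
  refine ⟨r, M, ν, Ψ, hr, hν1, ?_, fun x => ?_, fun x => ?_, fun x hx => ?_, fun x hx hx' => ?_⟩
  · rw [hΨ]; exact (contDiff_id.sub contDiff_const).add hks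
  · rw [hD, add_sub_cancel_left, ((hkdiff x).hasFDerivAt.smul_const ν).fderiv,
      ContinuousLinearMap.norm_smulRight_apply, hν1, mul_one]
    exact (hkd x).trans (min_le_left _ _)
  · rw [funext hD, fderiv_const_add]
    exact hM x
  · rw [(hb x (ball_subset_ball hrr hx)).1]
    change _ ↔ 0 < ⟪Ψ x, ν⟫
    rw [hin x hx, neg_mul, neg_pos]
    exact ⟨fun h' => mul_neg_of_pos_of_neg (inv_pos.2 ha) h',
      fun h' => neg_of_mul_neg_right h' (inv_pos.2 ha).le⟩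
  · change ⟪Ψ x, ν⟫ = 0
    rw [hin x hx, (hb x (ball_subset_ball hrr hx)).2 hx', mul_zero]

end Pool.Agent.MP_71da5e_an.A

end

section

namespace Pool.Agent.MP_71da5e_an.A

open MeasureTheory Metric Set Laplacian Filter Topology
open scoped ContDiff ENNReal RealInnerProductSpace

variable {n : ℕ}

theorem chart_det (n : ℕ) : ∃ δ₀ : ℝ, 0 < δ₀ ∧ δ₀ ≤ 1 ∧ ∀ L : E n →L[ℝ] E n,
    ‖L - ContinuousLinearMap.id ℝ (E n)‖ ≤ δ₀ → 1 / 2 ≤ |L.det| ∧ |L.det| ≤ 2 := by
  have hc : Continuous fun L : E n →L[ℝ] E n => L.det := ContinuousLinearMap.continuous_det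
  obtain ⟨δ, hδ, h⟩ := Metric.continuous_iff.1 hc (ContinuousLinearMap.id ℝ (E n)) (1 / 2)
    (by norm_num)
  refine ⟨min (δ / 2) 1, lt_min (by linarith) one_pos, min_le_right _ _, fun L hL => ?_⟩
  have h1 := h L (by
    rw [dist_eq_norm]
    exact (hL.trans (min_le_left _ _)).trans_lt (by linarith))
  have h2 : (ContinuousLinearMap.id ℝ (E n)).det = 1 := LinearMap.det_id
  rw [h2, Real.dist_eq, abs_lt] at h1
  rw [abs_of_pos (by linarith [h1.1])]
  constructor <;> linarith [h1.1, h1.2]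

theorem chart_lintegral {Ψ : E n ≃ₜ E n} (hΨ : ContDiff ℝ ∞ Ψ) (g : E n → ℝ≥0∞) :
    ∫⁻ y, g y = ∫⁻ x, ENNReal.ofReal |(fderiv ℝ Ψ x).det| * g (Ψ x) := by
  have h := lintegral_image_eq_lintegral_abs_det_fderiv_mul (volume : Measure (E n))
    MeasurableSet.univ
    (fun x _ => (hΨ.differentiable (by simp) x).hasFDerivAt.hasFDerivWithinAt)
    Ψ.injective.injOn g
  rwa [image_univ, Ψ.surjective.range_eq, Measure.restrict_univ] at h

theorem chart_integral {Ψ : E n ≃ₜ E n} (hΨ : ContDiff ℝ ∞ Ψ) (g : E n → ℂ) :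
    ∫ y, g y = ∫ x, ((|(fderiv ℝ Ψ x).det| : ℝ) : ℂ) * g (Ψ x) := by
  have h := integral_image_eq_integral_abs_det_fderiv_smul (volume : Measure (E n))
    MeasurableSet.univ
    (fun x _ => (hΨ.differentiable (by simp) x).hasFDerivAt.hasFDerivWithinAt)
    Ψ.injective.injOn g
  rw [image_univ, Ψ.surjective.range_eq, Measure.restrict_univ] at h
  simpa only [Complex.real_smul] using h

theorem chart_lintegral_le {Ψ : E n ≃ₜ E n} (hΨ : ContDiff ℝ ∞ Ψ)
    (h : ∀ x, 1 / 2 ≤ |(fderiv ℝ Ψ x).det|) (g : E n → ℝ≥0∞) :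
    ∫⁻ x, g (Ψ x) ≤ 2 * ∫⁻ y, g y := by
  rw [chart_lintegral hΨ g, ← lintegral_const_mul' _ _ ENNReal.ofNat_ne_top]
  refine lintegral_mono fun x => ?_
  rw [← mul_assoc]
  refine le_mul_of_one_le_left zero_le ?_
  have e : ∀ t : ℝ, (2 : ℝ≥0∞) * ENNReal.ofReal t = ENNReal.ofReal (2 * t) := fun t => by
    rw [ENNReal.ofReal_mul (by norm_num), ENNReal.ofReal_ofNat]
  rw [e, ENNReal.one_le_ofReal]
  linarith [h x]

theorem volume_frontier {Ω : Set (E n)} (hΩ : Dom Ω) : volume (frontier Ω) = 0 := by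
  obtain ⟨δ, hδ, -, hd⟩ := chart_det n
  refine measure_null_of_locally_null _ fun p hp => ?_
  obtain ⟨ρ, hρ⟩ := hΩ.sm p hp
  obtain ⟨r, M, ν, Ψ, hc⟩ := exists_chart hΩ.op hp hρ hδ
  refine ⟨frontier Ω ∩ ball p r, inter_mem_nhdsWithin _ (ball_mem_nhds p hc.r_pos), ?_⟩
  have hm : MeasurableSet (Pl ν) :=
    (isClosed_eq (continuous_id.inner continuous_const) continuous_const).measurableSet
  have h1 := chart_lintegral_le hc.smooth (fun x => (hd _ (hc.d1 x)).1) ((Pl ν).indicator 1)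
  rw [lintegral_indicator_one hm, volume_Pl hc.unit, mul_zero] at h1
  have h2 : volume (Ψ ⁻¹' Pl ν) = 0 := by
    rw [← lintegral_indicator_one (Ψ.continuous.measurable hm)]
    exact le_antisymm h1 zero_le
  exact measure_mono_null (fun x hx => hc.fr x hx.2 hx.1) h2

theorem chartI_norm_le {L : E n →L[ℝ] E n} {δ : ℝ}
    (h : ‖L - ContinuousLinearMap.id ℝ (E n)‖ ≤ δ) : ‖L‖ ≤ 1 + δ := by
  have h1 := norm_add_le (ContinuousLinearMap.id ℝ (E n)) (L - ContinuousLinearMap.id ℝ (E n))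
  rw [add_sub_cancel] at h1
  exact h1.trans (add_le_add ContinuousLinearMap.norm_id_le h)

theorem chartI_fderiv {Ψ : E n → E n} (hΨ : ContDiff ℝ ∞ Ψ) {φ : E n → ℂ} (hφ : ContDiff ℝ ∞ φ)
    (x : E n) : fderiv ℝ (fun y => φ (Ψ y)) x = (fderiv ℝ φ (Ψ x)).comp (fderiv ℝ Ψ x) :=
  fderiv_fun_comp x (hφ.differentiable (by simp) _) (hΨ.differentiable (by simp) x)

theorem chart_fderiv_le {Ψ : E n → E n} (hΨ : ContDiff ℝ ∞ Ψ) {δ : ℝ} {x : E n}
    (h : ‖fderiv ℝ Ψ x - ContinuousLinearMap.id ℝ (E n)‖ ≤ δ) {φ : E n → ℂ}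
    (hφ : ContDiff ℝ ∞ φ) :
    ‖fderiv ℝ (fun y => φ (Ψ y)) x‖ ≤ (1 + δ) * ‖fderiv ℝ φ (Ψ x)‖ := by
  rw [chartI_fderiv hΨ hφ, mul_comm]
  exact (ContinuousLinearMap.opNorm_comp_le _ _).trans
    (mul_le_mul_of_nonneg_left (chartI_norm_le h) (norm_nonneg _))

theorem chartI_bil (B : E n →L[ℝ] E n →L[ℝ] ℂ) {e v : E n} {δ : ℝ} (he : ‖e‖ = 1)
    (hv : ‖v - e‖ ≤ δ) : ‖B v v - B e e‖ ≤ (2 * δ + δ ^ 2) * ‖B‖ := by
  obtain ⟨d, rfl⟩ : ∃ d, v = e + d := ⟨v - e, by abel⟩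
  rw [add_sub_cancel_left] at hv
  have h0 : B (e + d) (e + d) - B e e = B d e + B e d + B d d := by
    simp only [map_add, add_apply]
    ring
  have h1 := B.le_opNorm₂ d e
  have h2 := B.le_opNorm₂ e d
  have h3 := B.le_opNorm₂ d d
  rw [he, mul_one] at h1 h2
  have h4 := mul_le_mul_of_nonneg_left hv (norm_nonneg B)
  have h5 := mul_le_mul_of_nonneg_left (mul_self_le_mul_self (norm_nonneg d) hv) (norm_nonneg B)
  rw [h0]
  refine norm_add₃_le.trans ?_
  nlinarith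

theorem chart_lap {Ψ : E n → E n} (hΨ : ContDiff ℝ ∞ Ψ) {δ M : ℝ} {x : E n}
    (h : ‖fderiv ℝ Ψ x - ContinuousLinearMap.id ℝ (E n)‖ ≤ δ)
    (h' : ‖fderiv ℝ (fderiv ℝ Ψ) x‖ ≤ M) {φ : E n → ℂ} (hφ : ContDiff ℝ ∞ φ) :
    ‖Δ (fun y => φ (Ψ y)) x - Δ φ (Ψ x)‖ ≤
      n * (2 * δ + δ ^ 2) * ‖fderiv ℝ (fderiv ℝ φ) (Ψ x)‖ + n * M * ‖fderiv ℝ φ (Ψ x)‖ := by
  have h2 : (2 : WithTop ℕ∞) ≤ ((⊤ : ℕ∞) : WithTop ℕ∞) := by norm_cast
  have hB := (calc_diff_fderiv (x := Ψ x) (hφ.contDiffAt.of_le h2)).hasFDerivAt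
  have hD := (calc_diff_fderiv (x := x) (hΨ.contDiffAt.of_le h2)).hasFDerivAt
  have hP := (hΨ.differentiable (by simp) x).hasFDerivAt
  have he : ∀ i : Fin n, ‖(ev i : E n)‖ = 1 := fun i => by simp [ev]
  have key : ∀ i, fderiv ℝ (fun y => fderiv ℝ (fun y => φ (Ψ y)) y (ev i)) x (ev i) =
      fderiv ℝ φ (Ψ x) (fderiv ℝ (fderiv ℝ Ψ) x (ev i) (ev i)) +
        fderiv ℝ (fderiv ℝ φ) (Ψ x) (fderiv ℝ Ψ x (ev i)) (fderiv ℝ Ψ x (ev i)) := by
    intro i
    have e : (fun y => fderiv ℝ (fun y => φ (Ψ y)) y (ev i)) =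
        fun y => fderiv ℝ φ (Ψ y) (fderiv ℝ Ψ y (ev i)) := funext fun y => by
      rw [chartI_fderiv hΨ hφ]
      rfl
    have h3 := (hB.comp x hP).clm_apply (hD.clm_apply (hasFDerivAt_const (ev i) x))
    simp only [Function.comp_apply] at h3
    rw [e, h3.fderiv]
    simp
  rw [lap_eq (f := fun y => φ (Ψ y)) ((hφ.comp hΨ).contDiffAt.of_le h2), calc_lap_def φ]
  simp only [key]
  rw [← Finset.sum_sub_distrib]
  refine (norm_sum_le _ _).trans ((Finset.sum_le_card_nsmul _ _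
    ((2 * δ + δ ^ 2) * ‖fderiv ℝ (fderiv ℝ φ) (Ψ x)‖ + M * ‖fderiv ℝ φ (Ψ x)‖)
    fun i _ => ?_).trans (le_of_eq ?_))
  · rw [add_comm (fderiv ℝ φ (Ψ x) _), add_sub_right_comm]
    refine (norm_add_le _ _).trans (add_le_add (chartI_bil _ (he i) ?_) ?_)
    · have := (fderiv ℝ Ψ x - ContinuousLinearMap.id ℝ (E n)).le_opNorm (ev i)
      rw [he, mul_one] at this
      exact this.trans h
    · have := (fderiv ℝ (fderiv ℝ Ψ) x).le_opNorm₂ (ev i) (ev i)
      rw [he, mul_one, mul_one] at this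
      rw [mul_comm]
      exact (ContinuousLinearMap.le_opNorm _ _).trans
        (mul_le_mul_of_nonneg_left (this.trans h') (norm_nonneg _))
  · rw [Finset.card_univ, Fintype.card_fin, nsmul_eq_mul]
    ring

end Pool.Agent.MP_71da5e_an.A

end

section

namespace Pool.Agent.MP_71da5e_an.A

open MeasureTheory Metric Set Laplacian Filter Topology
open scoped ContDiff ENNReal RealInnerProductSpace

variable {n : ℕ}

/-- The directional derivative. -/
noncomputable def model_D (v : E n) (φ : E n → ℂ) (x : E n) : ℂ := fderiv ℝ φ x v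

lemma model_tst {φ : E n → ℂ} (hφ : Tst φ) (v : E n) : Tst (model_D v φ) :=
  ⟨scut_contDiff_dir hφ.1 v, hφ.2.fderiv_apply ℝ v⟩

lemma model_diff {φ : E n → ℂ} (hφ : Tst φ) (x : E n) : DifferentiableAt ℝ φ x :=
  hφ.1.differentiable (by simp) x

lemma model_two {φ : E n → ℂ} (hφ : Tst φ) (x : E n) : ContDiffAt ℝ 2 φ x :=
  (hφ.1.of_le scut_two).contDiffAt

lemma model_cs {f g : E n → ℂ} (hf : Tst f) : HasCompactSupport fun x => ⟪f x, g x⟫ :=
  hf.2.mono fun x hx h => hx (by simp only [h, inner_zero_left])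

lemma model_int {f g : E n → ℂ} (hf : Tst f) (hg : Tst g) : Integrable fun x => ⟪f x, g x⟫ :=
  (hf.1.continuous.inner hg.1.continuous).integrable_of_hasCompactSupport (model_cs hf)

lemma model_sq {G : Type*} [NormedAddCommGroup G] {f : E n → G} (hf : Continuous f)
    (hc : HasCompactSupport f) : Integrable fun x => ‖f x‖ ^ 2 :=
  (hf.norm.pow 2).integrable_of_hasCompactSupport
    (hc.mono fun x hx h => hx (by simp only [Pi.pow_apply, h, norm_zero]; norm_num))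

lemma model_sq0 {φ : E n → ℂ} (hφ : Tst φ) : Integrable fun x => ‖φ x‖ ^ 2 :=
  model_sq hφ.1.continuous hφ.2

lemma model_sq1 {φ : E n → ℂ} (hφ : Tst φ) : Integrable fun x => ‖fderiv ℝ φ x‖ ^ 2 :=
  model_sq (hφ.1.continuous_fderiv (by simp)) (hφ.2.fderiv ℝ)

lemma model_sq2 {φ : E n → ℂ} (hφ : Tst φ) :
    Integrable fun x => ‖fderiv ℝ (fderiv ℝ φ) x‖ ^ 2 :=
  model_sq ((hφ.1.fderiv_right (m := ∞) le_rfl).continuous_fderiv (by simp))
    ((hφ.2.fderiv ℝ).fderiv ℝ)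

lemma model_V (ν : E n) (t : ℝ) {φ : E n → ℂ} (hφ : Tst φ) :
    Integrable fun x => Vt ν t x * ‖φ x‖ ^ 2 :=
  (model_sq0 hφ).bdd_mul (c := (t ^ 2)⁻¹) (measurable_Vt ν t).aestronglyMeasurable
    (.of_forall fun x => by rw [Real.norm_of_nonneg (Vt_nonneg ν t x)]; exact Vt_le ν t x)

lemma model_ibp {f g : E n → ℂ} (hf : Tst f) (hg : Tst g) (v : E n) :
    ∫ x, ⟪model_D v f x, g x⟫ = -∫ x, ⟪f x, model_D v g x⟫ := by
  have h := integral_fderiv_zero ((hf.1.inner ℝ hg.1).of_le (by simp)) (model_cs hf) v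
  simp only [fderiv_inner_apply ℝ (model_diff hf _) (model_diff hg _)] at h
  rw [eq_neg_iff_add_eq_zero, add_comm,
    ← integral_add (model_int hf (model_tst hg v)) (model_int (model_tst hf v) hg)]
  exact h

lemma model_DD {φ : E n → ℂ} (hφ : Tst φ) (v w x : E n) :
    model_D v (model_D w φ) x = fderiv ℝ (fderiv ℝ φ) x v w :=
  calc_fderiv_apply (model_two hφ x) w v

lemma model_comm {φ : E n → ℂ} (hφ : Tst φ) (v w : E n) :
    model_D v (model_D w φ) = model_D w (model_D v φ) := funext fun x => by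
  rw [model_DD hφ, model_DD hφ]
  exact (model_two hφ x).isSymmSndFDerivAt (by simp) v w

lemma model_lap {φ : E n → ℂ} (hφ : Tst φ) (x : E n) :
    Δ φ x = ∑ i, model_D (ev i) (model_D (ev i) φ) x := lap_eq (model_two hφ x)

lemma model_op {G : Type*} [NormedAddCommGroup G] [NormedSpace ℝ G] (L : E n →L[ℝ] G) :
    ‖L‖ ^ 2 ≤ ∑ i, ‖L (ev i)‖ ^ 2 := by
  have h0 : 0 ≤ ∑ i, ‖L (ev i)‖ ^ 2 := Finset.sum_nonneg fun i _ => sq_nonneg _
  rw [← Real.le_sqrt (norm_nonneg _) h0]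
  refine L.opNorm_le_bound (Real.sqrt_nonneg _) fun x => ?_
  have h1 : ‖L x‖ ≤ ∑ i, ‖L (ev i)‖ * |x i| := by
    conv_lhs => rw [← calc_sum_coord x, map_sum]
    refine (norm_sum_le _ _).trans (le_of_eq (Finset.sum_congr rfl fun i _ => ?_))
    rw [map_smul, norm_smul, Real.norm_eq_abs, mul_comm]
  refine h1.trans ((Real.sum_mul_le_sqrt_mul_sqrt _ _ _).trans (le_of_eq ?_))
  rw [EuclideanSpace.norm_eq]
  simp

lemma model_swap {φ : E n → ℂ} (hφ : Tst φ) (v w : E n) :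
    ∫ x, ‖model_D v (model_D w φ) x‖ ^ 2 =
      ∫ x, ⟪model_D v (model_D v φ) x, model_D w (model_D w φ) x⟫ := by
  have h1 := model_ibp (model_tst hφ v) (model_tst (model_tst hφ w) v) w
  rw [model_comm (model_tst hφ w) w v, ← model_ibp (model_tst hφ v)
    (model_tst (model_tst hφ w) w) v, model_comm hφ w v] at h1
  rw [← h1]
  simp only [real_inner_self_eq_norm_sq]

lemma model_hess {φ : E n → ℂ} (hφ : Tst φ) :
    ∫ x, ‖fderiv ℝ (fderiv ℝ φ) x‖ ^ 2 ≤ ∫ x, ‖Δ φ x‖ ^ 2 := by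
  have hT : ∀ i j : Fin n, Tst (model_D (ev i) (model_D (ev j) φ)) := fun i j =>
    model_tst (model_tst hφ _) _
  calc _ ≤ ∫ x, ∑ i, ∑ j, ‖model_D (ev i) (model_D (ev j) φ) x‖ ^ 2 := by
        refine integral_mono (model_sq2 hφ) (integrable_finsetSum _ fun i _ =>
          integrable_finsetSum _ fun j _ => model_sq0 (hT i j)) fun x => ?_
        simp only [model_DD hφ]
        exact (model_op _).trans (Finset.sum_le_sum fun i _ => model_op _)
    _ = ∑ i, ∑ j, ∫ x, ⟪model_D (ev i) (model_D (ev i) φ) x,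
          model_D (ev j) (model_D (ev j) φ) x⟫ := by
        rw [integral_finsetSum _ fun i _ => integrable_finsetSum _ fun j _ => model_sq0 (hT i j)]
        refine Finset.sum_congr rfl fun i _ => ?_
        rw [integral_finsetSum _ fun j _ => model_sq0 (hT i j)]
        exact Finset.sum_congr rfl fun j _ => model_swap hφ _ _
    _ = ∫ x, ∑ i, ∑ j, ⟪model_D (ev i) (model_D (ev i) φ) x,
          model_D (ev j) (model_D (ev j) φ) x⟫ := by
        rw [integral_finsetSum _ fun i _ =>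
          integrable_finsetSum _ fun j _ => model_int (hT i i) (hT j j)]
        exact Finset.sum_congr rfl fun i _ =>
          (integral_finsetSum _ fun j _ => model_int (hT i i) (hT j j)).symm
    _ = _ := by
        refine integral_congr_ae (.of_forall fun x => ?_)
        simp only [← inner_sum, ← sum_inner, ← model_lap hφ, real_inner_self_eq_norm_sq]

lemma model_N2 {w : E n → ℂ} (h : Integrable fun x => ‖w x‖ ^ 2) :
    N2 w = ENNReal.ofReal (∫ x, ‖w x‖ ^ 2) := by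
  have := Q_eq_ofReal (a := fun _ => 1) (w := w) (fun _ => zero_le_one) (by simpa using h)
  simpa [N2] using this

lemma model_lint {w : E n → ℝ} (h : Integrable fun x => w x ^ 2) :
    ∫⁻ x, ENNReal.ofReal (w x ^ 2) = ENNReal.ofReal (∫ x, w x ^ 2) :=
  (ofReal_integral_eq_lintegral_ofReal h (.of_forall fun _ => sq_nonneg _)).symm

lemma model_pt {a d t c G p W : ℝ} (ht : 0 < t) (hG : |G| ≤ t)
    (hp : |p| ≤ a * d) (h : (1 / 2 ≤ c ∧ W = 0) ∨ (-1 ≤ c ∧ W = (t ^ 2)⁻¹)) :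
    a ^ 2 ≤ 4 * (G * (p + p) + a ^ 2 * c) + 50 * t ^ 2 * (d ^ 2 + W * a ^ 2) := by
  have h1 : |G * p| ≤ t * (a * d) := by
    rw [abs_mul]
    exact mul_le_mul hG hp (abs_nonneg _) ht.le
  have h2 := (abs_le.1 h1).1
  rcases h with ⟨hc, rfl⟩ | ⟨hc, rfl⟩
  · have := mul_le_mul_of_nonneg_left hc (sq_nonneg a)
    nlinarith [sq_nonneg (a - 4 * (t * d)), sq_nonneg (t * d)]
  · have := mul_le_mul_of_nonneg_left hc (sq_nonneg a)
    have e : t ^ 2 * ((t ^ 2)⁻¹ * a ^ 2) = a ^ 2 := by field_simp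
    nlinarith [sq_nonneg (a - 4 * (t * d)), sq_nonneg (t * d), sq_nonneg a]

lemma model_fd (l : E n →L[ℝ] ℝ) (t : ℝ) {ν : E n} (hl : t * l ν = 1) {φ : E n → ℂ} (hφ : Tst φ)
    (x : E n) : fderiv ℝ (fun y => t * Real.sin (l y) * ⟪φ y, φ y⟫) x ν =
      t * Real.sin (l x) * (⟪φ x, fderiv ℝ φ x ν⟫ + ⟪φ x, fderiv ℝ φ x ν⟫) +
        ‖φ x‖ ^ 2 * Real.cos (l x) := by
  have h1 := ((l.hasFDerivAt (x := x)).sin).const_mul t
  have h2 := (model_diff hφ x).inner ℝ (model_diff hφ x)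
  rw [fderiv_fun_mul h1.differentiableAt h2, h1.fderiv]
  simp only [add_apply, smul_apply, smul_eq_mul,
    fderiv_inner_apply ℝ (model_diff hφ x) (model_diff hφ x)]
  rw [real_inner_self_eq_norm_sq, real_inner_comm (φ x) (fderiv ℝ φ x ν),
    mul_left_comm t (Real.cos _), hl, mul_one]

lemma model_pt' {ν : E n} (hν : ‖ν‖ = 1) {t : ℝ} (ht : 0 < t) (l : E n →L[ℝ] ℝ)
    (hl : ∀ x, l x = t⁻¹ * ⟪x, ν⟫) {φ : E n → ℂ} (hφ : Tst φ) (x : E n) :
    ‖φ x‖ ^ 2 ≤ 4 * fderiv ℝ (fun y => t * Real.sin (l y) * ⟪φ y, φ y⟫) x ν +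
      50 * t ^ 2 * (‖fderiv ℝ φ x‖ ^ 2 + Vt ν t x * ‖φ x‖ ^ 2) := by
  rw [model_fd l t (by
    rw [hl, real_inner_self_eq_norm_sq, hν, one_pow, mul_one, mul_inv_cancel₀ ht.ne']) hφ]
  refine model_pt ht ?_ ?_ ?_
  · rw [abs_mul, abs_of_pos ht]
    exact mul_le_of_le_one_right ht.le (Real.abs_sin_le_one _)
  · refine (abs_real_inner_le_norm _ _).trans (mul_le_mul_of_nonneg_left ?_ (norm_nonneg _))
    exact ((fderiv ℝ φ x).le_opNorm ν).trans_eq (by rw [hν, mul_one])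
  · unfold Vt
    split_ifs with h
    · exact Or.inr ⟨Real.neg_one_le_cos _, rfl⟩
    · refine Or.inl ⟨le_trans ?_ Real.one_sub_sq_div_two_le_cos, rfl⟩
      have h3 : |l x| ≤ 1 := by
        rw [hl, abs_mul, abs_of_pos (inv_pos.2 ht), inv_mul_le_iff₀ ht, mul_one]
        exact (not_le.1 h).le
      have h4 := (sq_le_one_iff_abs_le_one _).2 h3
      linarith

lemma model_num {t X L D P H M : ℝ} (ht : 0 < t) (hX : 0 ≤ X) (hL : 0 ≤ L) (hP : 0 ≤ P)
    (h1 : X ≤ 50 * t ^ 2 * (D + P)) (h2 : D + P ≤ √X * √L) (h3 : H ≤ M)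
    (h4 : M ≤ 2 * L + 2 * ((t ^ 2)⁻¹) ^ 2 * X) :
    X ≤ 10 ^ 4 * t ^ 4 * L ∧ D ≤ 10 ^ 4 * t ^ 2 * L ∧ H ≤ 10 ^ 4 * L := by
  obtain ⟨a, ha, rfl⟩ : ∃ a, 0 ≤ a ∧ X = a ^ 2 := ⟨√X, Real.sqrt_nonneg _, (Real.sq_sqrt hX).symm⟩
  obtain ⟨b, hb, rfl⟩ : ∃ b, 0 ≤ b ∧ L = b ^ 2 := ⟨√L, Real.sqrt_nonneg _, (Real.sq_sqrt hL).symm⟩
  rw [Real.sqrt_sq ha, Real.sqrt_sq hb] at h2
  have k1 : a ≤ 50 * t ^ 2 * b := by
    rcases ha.eq_or_lt with h | h
    · rw [← h]; positivity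
    · refine le_of_mul_le_mul_left ?_ h
      have := mul_le_mul_of_nonneg_left h2 (show 0 ≤ 50 * t ^ 2 by positivity)
      linarith
  have k2 : a ^ 2 ≤ 2500 * (t ^ 4 * b ^ 2) := (pow_le_pow_left₀ ha k1 2).trans_eq (by ring)
  have k3 : a * b ≤ 50 * (t ^ 2 * b ^ 2) := (mul_le_mul_of_nonneg_right k1 hb).trans_eq (by ring)
  have k4 : ((t ^ 2)⁻¹) ^ 2 * a ^ 2 ≤ 2500 * b ^ 2 :=
    (mul_le_mul_of_nonneg_left k2 (sq_nonneg _)).trans_eq (by field_simp)
  have k5 : 0 ≤ t ^ 4 * b ^ 2 := by positivity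
  have k6 : 0 ≤ t ^ 2 * b ^ 2 := by positivity
  exact ⟨by linarith, by linarith, by linarith⟩

lemma model_pt2 (ν : E n) (t : ℝ) (φ : E n → ℂ) (x : E n) :
    ‖Δ φ x‖ ^ 2 ≤ 2 * ‖Lt ν t φ x‖ ^ 2 + 2 * ((t ^ 2)⁻¹) ^ 2 * ‖φ x‖ ^ 2 := by
  have e : ‖Δ φ x‖ ≤ ‖Lt ν t φ x‖ + (t ^ 2)⁻¹ * ‖φ x‖ := by
    rw [← sub_add_cancel (Δ φ x) (Vt ν t x * φ x)]
    refine (norm_add_le _ _).trans (add_le_add le_rfl ?_)
    rw [norm_mul, Complex.norm_real, Real.norm_of_nonneg (Vt_nonneg ν t x)]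
    exact mul_le_mul_of_nonneg_right (Vt_le ν t x) (norm_nonneg _)
  have e2 := pow_le_pow_left₀ (norm_nonneg _) e 2
  nlinarith [sq_nonneg (‖Lt ν t φ x‖ - (t ^ 2)⁻¹ * ‖φ x‖)]

lemma model_mono {f g h : E n → ℝ} (hf : Integrable f) (hg : Integrable g) (hh : Integrable h)
    {a b : ℝ} (H : ∀ x, f x ≤ a * g x + b * h x) : ∫ x, f x ≤ a * (∫ x, g x) + b * ∫ x, h x := by
  rw [← integral_const_mul, ← integral_const_mul, ← integral_add (hg.const_mul a) (hh.const_mul b)]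
  exact integral_mono hf ((hg.const_mul a).add (hh.const_mul b)) H

lemma model_L2 (ν : E n) (t : ℝ) {φ : E n → ℂ} (hφ : Tst φ) : MemLp (Lt ν t φ) 2 := by
  refine (hφ.lap.1.continuous.memLp_of_hasCompactSupport hφ.lap.2).sub
    ((hφ.1.continuous.memLp_of_hasCompactSupport hφ.2).of_le_mul (c := (t ^ 2)⁻¹)
      ((Complex.measurable_ofReal.comp (measurable_Vt ν t)).mul
        hφ.1.continuous.measurable).aestronglyMeasurable (.of_forall fun x => ?_))
  rw [norm_mul, Complex.norm_real, Real.norm_of_nonneg (Vt_nonneg ν t x)]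
  exact mul_le_mul_of_nonneg_right (Vt_le ν t x) (norm_nonneg _)

lemma model_sqL (ν : E n) (t : ℝ) {φ : E n → ℂ} (hφ : Tst φ) :
    Integrable fun x => ‖Lt ν t φ x‖ ^ 2 :=
  (memLp_two_iff_integrable_sq_norm (model_L2 ν t hφ).1).1 (model_L2 ν t hφ)

/-- The Hessian of a test function is controlled by its Laplacian. -/
theorem hess_le {φ : E n → ℂ} (hφ : Tst φ) :
    ∫⁻ x, ENNReal.ofReal (‖fderiv ℝ (fderiv ℝ φ) x‖ ^ 2) ≤ N2 (Δ φ) := by
  rw [model_lint (model_sq2 hφ), model_N2 (model_sq0 hφ.lap)]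
  exact ENNReal.ofReal_le_ofReal (model_hess hφ)

/-- A thin strip carries little mass. -/
theorem strip_le {ν : E n} (hν : ‖ν‖ = 1) {t : ℝ} (ht : 0 < t) {φ : E n → ℂ} (hφ : Tst φ) :
    ∫ x, ‖φ x‖ ^ 2 ≤ 50 * t ^ 2 * ((∫ x, ‖fderiv ℝ φ x‖ ^ 2) + ∫ x, Vt ν t x * ‖φ x‖ ^ 2) := by
  obtain ⟨l, hl⟩ : ∃ l : E n →L[ℝ] ℝ, ∀ x, l x = t⁻¹ * ⟪x, ν⟫ :=
    ⟨t⁻¹ • innerSL ℝ ν, fun x => by rw [real_inner_comm]; rfl⟩
  have hc : ContDiff ℝ 1 fun y => t * Real.sin (l y) * ⟪φ y, φ y⟫ :=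
    (contDiff_const.mul (Real.contDiff_sin.comp l.contDiff)).mul
      ((hφ.1.inner ℝ hφ.1).of_le (by simp))
  have hs : HasCompactSupport fun y => t * Real.sin (l y) * ⟪φ y, φ y⟫ :=
    hφ.2.mono fun x hx h => hx (by simp only [h, inner_zero_left, mul_zero])
  have h0 := integral_fderiv_zero hc hs ν
  have hp := model_pt' hν ht l hl hφ
  generalize (fun y => t * Real.sin (l y) * ⟪φ y, φ y⟫) = g at hc hs h0 hp
  have hi : Integrable fun x => fderiv ℝ g x ν :=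
    ((hc.continuous_fderiv (by simp)).clm_apply continuous_const).integrable_of_hasCompactSupport
      (hs.fderiv_apply ℝ ν)
  have h2 : Integrable fun x => ‖fderiv ℝ φ x‖ ^ 2 + Vt ν t x * ‖φ x‖ ^ 2 :=
    (model_sq1 hφ).add (model_V ν t hφ)
  have h1 := model_mono (model_sq0 hφ) hi h2 hp
  rwa [h0, mul_zero, zero_add, integral_add (model_sq1 hφ) (model_V ν t hφ)] at h1

theorem energy_le (ν : E n) (t : ℝ) {φ : E n → ℂ} (hφ : Tst φ) :
    (∫ x, ‖fderiv ℝ φ x‖ ^ 2) + ∫ x, Vt ν t x * ‖φ x‖ ^ 2 ≤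
      √(∫ x, ‖φ x‖ ^ 2) * √(∫ x, ‖Lt ν t φ x‖ ^ 2) := by
  have hT : ∀ i : Fin n, Tst (model_D (ev i) φ) := fun i => model_tst hφ _
  have h1 : ∫ x, ‖fderiv ℝ φ x‖ ^ 2 ≤ -∫ x, ⟪φ x, Δ φ x⟫ :=
    calc _ ≤ ∫ x, ∑ i, ⟪model_D (ev i) φ x, model_D (ev i) φ x⟫ := by
          refine integral_mono (model_sq1 hφ)
            (integrable_finsetSum _ fun i _ => model_int (hT i) (hT i)) fun x => ?_
          simp only [real_inner_self_eq_norm_sq]
          exact model_op _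
      _ = _ := by
          simp only [model_lap hφ, inner_sum]
          rw [integral_finsetSum _ fun i _ => model_int (hT i) (hT i),
            integral_finsetSum _ fun i _ => model_int hφ (model_tst (hT i) _),
            ← Finset.sum_neg_distrib]
          exact Finset.sum_congr rfl fun i _ => model_ibp hφ (hT i) _
  have hm : MemLp φ 2 := hφ.1.continuous.memLp_of_hasCompactSupport hφ.2
  have h2 := integral_mul_norm_le_Lp_mul_Lq (μ := volume) (f := φ) (g := Lt ν t φ)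
    Real.HolderConjugate.two_two (by simpa using hm) (by simpa using model_L2 ν t hφ)
  simp only [Real.rpow_two, ← Real.sqrt_eq_rpow] at h2
  have h3 := integral_mono ((model_V ν t hφ).sub (model_int hφ hφ.lap))
    (hm.norm.integrable_mul (model_L2 ν t hφ).norm) fun x => by
      have e : Vt ν t x * ‖φ x‖ ^ 2 - ⟪φ x, Δ φ x⟫ = -⟪φ x, Lt ν t φ x⟫ := by
        rw [Lt, inner_sub_right, ← Complex.real_smul, real_inner_smul_right,
          real_inner_self_eq_norm_sq, neg_sub]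
      exact e.trans_le ((neg_le_abs _).trans (abs_real_inner_le_norm _ _))
  rw [integral_sub' (model_V ν t hφ) (model_int hφ hφ.lap)] at h3
  have h4 := h3.trans h2
  linarith

theorem model_est {ν : E n} (hν : ‖ν‖ = 1) {t : ℝ} (ht : 0 < t) {φ : E n → ℂ} (hφ : Tst φ) :
    N2 φ ≤ ENNReal.ofReal (10 ^ 4 * t ^ 4) * N2 (Lt ν t φ) ∧
    ∫⁻ x, ENNReal.ofReal (‖fderiv ℝ φ x‖ ^ 2) ≤ ENNReal.ofReal (10 ^ 4 * t ^ 2) * N2 (Lt ν t φ) ∧
    ∫⁻ x, ENNReal.ofReal (‖fderiv ℝ (fderiv ℝ φ) x‖ ^ 2) ≤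
      ENNReal.ofReal (10 ^ 4) * N2 (Lt ν t φ) := by
  have h4 := model_mono (model_sq0 hφ.lap) (model_sqL ν t hφ) (model_sq0 hφ) (model_pt2 ν t φ)
  obtain ⟨k1, k2, k3⟩ := model_num ht (integral_nonneg fun x => sq_nonneg _)
    (integral_nonneg fun x => sq_nonneg _)
    (integral_nonneg fun x => mul_nonneg (Vt_nonneg ν t x) (sq_nonneg _)) (strip_le hν ht hφ)
    (energy_le ν t hφ) (model_hess hφ) h4
  rw [model_N2 (model_sq0 hφ), model_N2 (model_sqL ν t hφ), model_lint (model_sq1 hφ),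
    model_lint (model_sq2 hφ), ← ENNReal.ofReal_mul (by positivity),
    ← ENNReal.ofReal_mul (by positivity), ← ENNReal.ofReal_mul (by positivity)]
  exact ⟨ENNReal.ofReal_le_ofReal k1, ENNReal.ofReal_le_ofReal k2, ENNReal.ofReal_le_ofReal k3⟩

end Pool.Agent.MP_71da5e_an.A

end
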