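import Pool.Agent.Mg.F71da5ea.Ge9e9cd
import Pool.Agent.Mg.F71da5ea.G614156

section

namespace Pool.Agent.MP_71da5e_an

open MeasureTheory Metric Set Laplacian Filter Topology
open scoped ContDiff ENNReal RealInnerProductSpace

variable {n : ℕ}

lemma annSh_mono {y : E n} {s t s' t' : ℝ} (hs : s' ≤ s) (ht : t ≤ t') (x : E n) :
    sh y s t x ≤ sh y s' t' x := by
  unfold sh
  split_ifs with h1 h2
  · exact le_rfl
  · exact absurd ⟨hs.trans h1.1, h1.2.trans ht⟩ h2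
  · exact zero_le_one
  · exact le_rfl

lemma annSh_zero {y x : E n} {s t : ℝ} (h : x ∉ annS y s t) : sh y s t x = 0 := if_neg h

lemma annW {y x : E n} {b ρ S B₁ B₂ g A₁ A₂ : ℝ} (hρ : 0 < ρ) (hS : 4 * ρ ≤ S) (hb : 0 ≤ b)
    (h₁ : ρ / 2 ≤ ‖x - y‖ → ‖x - y‖ ≤ ρ → b ≤ B₁) (h₂ : S ≤ ‖x - y‖ → ‖x - y‖ ≤ 2 * S → b ≤ B₂)
    (hg : |g| ≤ sh y (ρ / 2) (2 * (ρ / 2)) x * A₁ + sh y S (2 * S) x * A₂) :
    b * g ^ 2 ≤ B₁ * A₁ ^ 2 * sh y (ρ / 2) ρ x + B₂ * A₂ ^ 2 * sh y S (2 * S) x := by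
  rw [show 2 * (ρ / 2) = ρ by ring] at hg
  have hg2 := pow_le_pow_left₀ (abs_nonneg g) hg 2
  rw [sq_abs] at hg2
  revert hg2
  unfold sh
  split_ifs with h3 h4 h5
  · exfalso
    linarith [h3.2, h4.1]
  · intro hg2
    simp only [one_mul, zero_mul, add_zero, mul_one, mul_zero] at hg2 ⊢
    exact mul_le_mul (h₁ h3.1 h3.2) hg2 (sq_nonneg _) (hb.trans (h₁ h3.1 h3.2))
  · intro hg2
    simp only [one_mul, zero_mul, zero_add, mul_one, mul_zero] at hg2 ⊢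
    exact mul_le_mul (h₂ h5.1 h5.2) hg2 (sq_nonneg _) (hb.trans (h₂ h5.1 h5.2))
  · intro hg2
    simp only [zero_mul, add_zero, mul_zero] at hg2 ⊢
    nlinarith [sq_nonneg g]

lemma annT_ge {y : E n} {s : ℝ} (hs : 0 < s) (c : ℝ) (x : E n) :
    c ^ 2 * sh y (2 * s) (4 * s) x ≤ (c * annD y s (4 * s) x) ^ 2 := by
  unfold sh
  split_ifs with h
  · rw [annD_one hs h.1 h.2]
    simp
  · rw [mul_zero]
    exact sq_nonneg _

lemma annCont {y : E n} {b g : E n → ℝ} {s t : ℝ} (hs : 0 < s) (hb : ContinuousOn b {y}ᶜ)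
    (hg : Continuous g) (h0 : ∀ x, x ∉ annS y s t → g x = 0) :
    Continuous fun x => b x * g x ^ 2 := by
  refine continuous_of_closed isOpen_compl_singleton (annS_closed y s t) (fun x hx => ?_)
    (hb.mul (hg.pow 2).continuousOn) fun x hx => by rw [h0 x hx]; simp
  rintro rfl
  have := hx.1
  rw [sub_self, norm_zero] at this
  linarith

lemma annQ {P₀ P₁ P₂ f : E n → ℝ} {w : E n → ℂ} (hw : Measurable w) (m₀ : Measurable P₀)
    (m₁ : Measurable P₁) (p₀ : ∀ x, 0 ≤ P₀ x) (p₁ : ∀ x, 0 ≤ P₁ x) (p₂ : ∀ x, 0 ≤ P₂ x)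
    {c₀ c₁ c₂ : ℝ} (h₀ : 0 ≤ c₀) (h₁ : 0 ≤ c₁) (h₂ : 0 ≤ c₂)
    (h : ∀ x, f x ≤ c₀ * P₀ x + c₁ * P₁ x + c₂ * P₂ x) :
    Q f w ≤ ENNReal.ofReal c₀ * Q P₀ w + ENNReal.ofReal c₁ * Q P₁ w +
      ENNReal.ofReal c₂ * Q P₂ w := by
  refine (Q_mono_left w h).trans (le_of_eq ?_)
  rw [Q_add_left (a₁ := fun x => c₀ * P₀ x + c₁ * P₁ x) (by fun_prop) hw
    (fun x => add_nonneg (mul_nonneg h₀ (p₀ x)) (mul_nonneg h₁ (p₁ x)))
    (fun x => mul_nonneg h₂ (p₂ x)), Q_add_left (a₁ := fun x => c₀ * P₀ x) (by fun_prop) hw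
    (fun x => mul_nonneg h₀ (p₀ x)) (fun x => mul_nonneg h₁ (p₁ x)), Q_const_mul h₀,
    Q_const_mul h₁, Q_const_mul h₂]

theorem ann (n : ℕ) : ∃ C : ℝ, 0 < C ∧ ∀ (y : E n) (a b : E n → ℝ) (w F : E n → ℂ)
    (U : Set (E n)) (ρ S B₁ B₂ : ℝ), 0 < ρ → 4 * ρ ≤ S → 0 ≤ B₁ → 0 ≤ B₂ → Measurable a →
    (∀ x, 0 ≤ a x) →
    Measurable b → ContinuousOn b {y}ᶜ → (∀ x, 0 ≤ b x) →
    (∀ v, Tst v → y ∉ tsupport v → Q a v ≤ Q b (Δ v)) → IsOpen U →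
    (∀ x, ρ / 4 ≤ ‖x - y‖ → ‖x - y‖ ≤ 4 * S → x ∈ U) → WP U w F →
    (∀ x, ρ / 2 ≤ ‖x - y‖ → ‖x - y‖ ≤ ρ → b x ≤ B₁) →
    (∀ x, S ≤ ‖x - y‖ → ‖x - y‖ ≤ 2 * S → b x ≤ B₂) →
    Q (fun x => sh y ρ S x * a x) w ≤ 3 * Q (fun x => sh y (ρ / 2) (2 * S) x * b x) F +
      ENNReal.ofReal (C * B₁) *
        (ENNReal.ofReal (ρ ^ 4)⁻¹ * Q (sh y 0 (2 * ρ)) w + Q (sh y 0 (2 * ρ)) F) +
      ENNReal.ofReal (C * B₂) *
        (ENNReal.ofReal (S ^ 4)⁻¹ * Q (sh y (S / 2) (4 * S)) w + Q (sh y (S / 2) (4 * S)) F) := by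
  obtain ⟨K, hK0, hK₁, hK₂⟩ := annK n
  refine ⟨96 * K ^ 2 + 3072 * K ^ 4, by positivity, ?_⟩
  intro y a b w F U ρ S B₁ B₂ hρ hS hB₁ hB₂ ha ha0 hb hbc hb0 hC hU hU' hw hb₁ hb₂
  set C : ℝ := 96 * K ^ 2 + 3072 * K ^ 4 with hCdef
  have hC0 : 0 < C := by positivity
  have hS0 : 0 < S := by linarith
  have hρ2 : 0 < ρ / 2 := by linarith
  have hρ4 : 0 < ρ / 4 := by linarith
  have hS2 : 0 < S / 2 := by linarith
  obtain ⟨c₁, hc₁⟩ : ∃ c : ℝ, c ^ 2 = B₁ * (K / (ρ / 2)) ^ 2 :=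
    ⟨√B₁ * (K / (ρ / 2)), by rw [mul_pow, Real.sq_sqrt hB₁]⟩
  obtain ⟨c₂, hc₂⟩ : ∃ c : ℝ, c ^ 2 = B₂ * (K / S) ^ 2 :=
    ⟨√B₂ * (K / S), by rw [mul_pow, Real.sq_sqrt hB₂]⟩
  set χ : E n → ℝ := annD y (ρ / 2) S with hχ
  set θ₁ : E n → ℝ := fun z => c₁ * annD y (ρ / 4) (4 * (ρ / 4)) z with hθ₁
  set θ₂ : E n → ℝ := fun z => c₂ * annD y (S / 2) (4 * (S / 2)) z with hθ₂
  have sχ : ContDiff ℝ ∞ χ := annD_smooth y _ _
  have s₁ : ContDiff ℝ ∞ θ₁ := contDiff_const.mul (annD_smooth y _ _)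
  have s₂ : ContDiff ℝ ∞ θ₂ := contDiff_const.mul (annD_smooth y _ _)
  have zχ : ∀ x, x ∉ annS y (ρ / 2) (2 * S) → χ x = 0 := fun x hx =>
    annD_zero hρ2 (by linarith) hx
  have z₁ : ∀ x, x ∉ annS y (ρ / 4) (2 * (4 * (ρ / 4))) → θ₁ x = 0 := fun x hx => by
    simp only [hθ₁]
    rw [annD_zero hρ4 (by linarith) hx, mul_zero]
  have z₂ : ∀ x, x ∉ annS y (S / 2) (2 * (4 * (S / 2))) → θ₂ x = 0 := fun x hx => by
    simp only [hθ₂]
    rw [annD_zero hS2 (by linarith) hx, mul_zero]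
  have zΔ : ∀ x, x ∉ annS y (ρ / 2) (2 * S) → Δ χ x = 0 := fun x hx =>
    lap_eq_zero fun h => hx (annS_tsupport zχ h)
  have hχV : tsupport χ ⊆ {y}ᶜ := fun x hx => by
    rintro rfl
    have := (annS_tsupport zχ hx).1
    rw [sub_self, norm_zero] at this
    linarith
  have hθ : ∀ x, b x * ‖fderiv ℝ χ x‖ ^ 2 ≤ θ₁ x ^ 2 + θ₂ x ^ 2 := fun x => by
    have h1 := annW hρ hS (hb0 x) (hb₁ x) (hb₂ x)
      ((abs_norm _).trans_le (annD_fderiv hK₁ (y := y) hρ2 hS0 x))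
    have h2 := annT_ge (y := y) hρ4 c₁ x
    have h3 := annT_ge (y := y) hS2 c₂ x
    rw [hc₁, show 2 * (ρ / 4) = ρ / 2 by ring] at h2
    rw [hc₂, show 2 * (S / 2) = S by ring] at h3
    refine h1.trans (add_le_add ?_ ?_)
    · refine le_trans ?_ h2
      rw [show 4 * (ρ / 4) = ρ by ring]
    · refine le_trans ?_ h3
      rw [show 4 * (S / 2) = 2 * S by ring]
  have hκ₁ : 0 < (ρ ^ 2)⁻¹ := by positivity
  have hκ₂ : 0 < (S ^ 2)⁻¹ := by positivity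
  have q₁ : ∀ x, θ₁ x ^ 2 ≤ B₁ * (K / (ρ / 2)) ^ 2 * sh y (ρ / 4) (2 * ρ) x := fun x => by
    have := annT_sq (y := y) hρ4 c₁ x
    rwa [hc₁, show 8 * (ρ / 4) = 2 * ρ by ring] at this
  have q₂ : ∀ x, θ₂ x ^ 2 ≤ B₂ * (K / S) ^ 2 * sh y (S / 2) (4 * S) x := fun x => by
    have := annT_sq (y := y) hS2 c₂ x
    rwa [hc₂, show 8 * (S / 2) = 4 * S by ring] at this
  have d₁ : ∀ x, ‖fderiv ℝ θ₁ x‖ ^ 2 ≤
      B₁ * (K / (ρ / 2)) ^ 2 * (K / (ρ / 4)) ^ 2 * sh y (ρ / 4) (2 * ρ) x := fun x => by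
    have := annT_fderiv hK₁ (y := y) hρ4 c₁ x
    rwa [hc₁, show 8 * (ρ / 4) = 2 * ρ by ring] at this
  have d₂ : ∀ x, ‖fderiv ℝ θ₂ x‖ ^ 2 ≤
      B₂ * (K / S) ^ 2 * (K / (S / 2)) ^ 2 * sh y (S / 2) (4 * S) x := fun x => by
    have := annT_fderiv hK₁ (y := y) hS2 c₂ x
    rwa [hc₂, show 8 * (S / 2) = 4 * S by ring] at this
  have l : ∀ x, b x * Δ χ x ^ 2 ≤ B₁ * (K / (ρ / 2) ^ 2) ^ 2 * sh y (ρ / 2) ρ x +
      B₂ * (K / S ^ 2) ^ 2 * sh y S (2 * S) x := fun x =>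
    annW hρ hS (hb0 x) (hb₁ x) (hb₂ x) (annD_lap hK₂ (y := y) hρ2 hS0 x)
  have e₁ : ∀ x, 3 * (b x * χ x ^ 2) + 12 * ((ρ ^ 2)⁻¹⁻¹ * θ₁ x ^ 2 + (S ^ 2)⁻¹⁻¹ * θ₂ x ^ 2) ≤
      3 * (sh y (ρ / 2) (2 * S) x * b x) + C * B₁ * sh y (ρ / 4) (2 * ρ) x +
        C * B₂ * sh y (S / 2) (4 * S) x := fun x => by
    have h1 : b x * χ x ^ 2 ≤ sh y (ρ / 2) (2 * S) x * b x := by
      rw [mul_comm]
      exact mul_le_mul_of_nonneg_right (annD_sq hρ2 (by linarith) x) (hb0 x)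
    have h2 : ρ ^ 2 * θ₁ x ^ 2 ≤ 4 * K ^ 2 * (B₁ * sh y (ρ / 4) (2 * ρ) x) :=
      (mul_le_mul_of_nonneg_left (q₁ x) (sq_nonneg ρ)).trans_eq (by field_simp; ring)
    have h3 : S ^ 2 * θ₂ x ^ 2 ≤ K ^ 2 * (B₂ * sh y (S / 2) (4 * S) x) :=
      (mul_le_mul_of_nonneg_left (q₂ x) (sq_nonneg S)).trans_eq (by field_simp)
    have h4 := mul_nonneg hB₁ (sh_nonneg y (ρ / 4) (2 * ρ) x)
    have h5 := mul_nonneg hB₂ (sh_nonneg y (S / 2) (4 * S) x)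
    have h6 := mul_nonneg (sq_nonneg K) h4
    have h7 := mul_nonneg (sq_nonneg K) h5
    have h8 := mul_nonneg (pow_nonneg hK0.le 4) h4
    have h9 := mul_nonneg (pow_nonneg hK0.le 4) h5
    rw [inv_inv, inv_inv, hCdef]
    nlinarith
  have e₂ : ∀ x, 3 * (b x * Δ χ x ^ 2) + 12 * ((ρ ^ 2)⁻¹ * θ₁ x ^ 2 + (S ^ 2)⁻¹ * θ₂ x ^ 2) +
      48 * (‖fderiv ℝ θ₁ x‖ ^ 2 + ‖fderiv ℝ θ₂ x‖ ^ 2) ≤
      C * B₁ * (ρ ^ 4)⁻¹ * sh y (ρ / 4) (2 * ρ) x +
        C * B₂ * (S ^ 4)⁻¹ * sh y (S / 2) (4 * S) x := fun x => by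
    have m1 : sh y (ρ / 2) ρ x ≤ sh y (ρ / 4) (2 * ρ) x := annSh_mono (by linarith) (by linarith) x
    have m2 : sh y S (2 * S) x ≤ sh y (S / 2) (4 * S) x := annSh_mono (by linarith) (by linarith) x
    have h1 : b x * Δ χ x ^ 2 ≤ 16 * K ^ 2 * (B₁ * (ρ ^ 4)⁻¹ * sh y (ρ / 4) (2 * ρ) x) +
        K ^ 2 * (B₂ * (S ^ 4)⁻¹ * sh y (S / 2) (4 * S) x) := by
      refine (l x).trans (add_le_add ?_ ?_)
      · exact (mul_le_mul_of_nonneg_left m1 (by positivity)).trans_eq (by field_simp; ring)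
      · exact (mul_le_mul_of_nonneg_left m2 (by positivity)).trans_eq (by field_simp)
    have h2 : (ρ ^ 2)⁻¹ * θ₁ x ^ 2 ≤ 4 * K ^ 2 * (B₁ * (ρ ^ 4)⁻¹ * sh y (ρ / 4) (2 * ρ) x) :=
      (mul_le_mul_of_nonneg_left (q₁ x) hκ₁.le).trans_eq (by field_simp; ring)
    have h3 : (S ^ 2)⁻¹ * θ₂ x ^ 2 ≤ K ^ 2 * (B₂ * (S ^ 4)⁻¹ * sh y (S / 2) (4 * S) x) :=
      (mul_le_mul_of_nonneg_left (q₂ x) hκ₂.le).trans_eq (by field_simp)
    have h2' : ‖fderiv ℝ θ₁ x‖ ^ 2 ≤ 64 * K ^ 4 * (B₁ * (ρ ^ 4)⁻¹ * sh y (ρ / 4) (2 * ρ) x) :=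
      (d₁ x).trans_eq (by field_simp; ring)
    have h3' : ‖fderiv ℝ θ₂ x‖ ^ 2 ≤ 4 * K ^ 4 * (B₂ * (S ^ 4)⁻¹ * sh y (S / 2) (4 * S) x) :=
      (d₂ x).trans_eq (by field_simp; ring)
    have h4 : 0 ≤ B₁ * (ρ ^ 4)⁻¹ * sh y (ρ / 4) (2 * ρ) x :=
      mul_nonneg (by positivity) (sh_nonneg _ _ _ x)
    have h5 : 0 ≤ B₂ * (S ^ 4)⁻¹ * sh y (S / 2) (4 * S) x :=
      mul_nonneg (by positivity) (sh_nonneg _ _ _ x)
    have h6 := mul_nonneg (sq_nonneg K) h4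
    have h7 := mul_nonneg (sq_nonneg K) h5
    have h8 := mul_nonneg (pow_nonneg hK0.le 4) h4
    have h9 := mul_nonneg (pow_nonneg hK0.le 4) h5
    rw [hCdef]
    nlinarith
  have n₁ : ∀ x, 0 ≤ 3 * (b x * χ x ^ 2) +
      12 * ((ρ ^ 2)⁻¹⁻¹ * θ₁ x ^ 2 + (S ^ 2)⁻¹⁻¹ * θ₂ x ^ 2) := fun x => by
    have := hb0 x
    positivity
  have n₂ : ∀ x, 0 ≤ 3 * (b x * Δ χ x ^ 2) + 12 * ((ρ ^ 2)⁻¹ * θ₁ x ^ 2 + (S ^ 2)⁻¹ * θ₂ x ^ 2) +
      48 * (‖fderiv ℝ θ₁ x‖ ^ 2 + ‖fderiv ℝ θ₂ x‖ ^ 2) := fun x => by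
    have := hb0 x
    positivity
  have o : ∀ x, x ∉ annS y (ρ / 4) (4 * S) → sh y (ρ / 2) (2 * S) x = 0 ∧
      sh y (ρ / 4) (2 * ρ) x = 0 ∧ sh y (S / 2) (4 * S) x = 0 := fun x hx =>
    ⟨annSh_zero fun h => hx ⟨by linarith [h.1], by linarith [h.2]⟩,
      annSh_zero fun h => hx ⟨h.1, by linarith [h.2]⟩,
      annSh_zero fun h => hx ⟨by linarith [h.1], h.2⟩⟩
  have o₁ : ∀ x, x ∉ annS y (ρ / 4) (4 * S) → 3 * (b x * χ x ^ 2) +
      12 * ((ρ ^ 2)⁻¹⁻¹ * θ₁ x ^ 2 + (S ^ 2)⁻¹⁻¹ * θ₂ x ^ 2) = 0 := fun x hx => by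
    refine le_antisymm ((e₁ x).trans_eq ?_) (n₁ x)
    rw [(o x hx).1, (o x hx).2.1, (o x hx).2.2]
    ring
  have o₂ : ∀ x, x ∉ annS y (ρ / 4) (4 * S) →
      3 * (b x * Δ χ x ^ 2) + 12 * ((ρ ^ 2)⁻¹ * θ₁ x ^ 2 + (S ^ 2)⁻¹ * θ₂ x ^ 2) +
      48 * (‖fderiv ℝ θ₁ x‖ ^ 2 + ‖fderiv ℝ θ₂ x‖ ^ 2) = 0 := fun x hx => by
    refine le_antisymm ((e₂ x).trans_eq ?_) (n₂ x)
    rw [(o x hx).2.1, (o x hx).2.2]
    ring
  have k₁ := annCont hρ2 hbc sχ.continuous zχ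
  have k₂ := annCont hρ2 hbc (contDiff_lap sχ).continuous zΔ
  have k₃ := s₁.continuous
  have k₄ := s₂.continuous
  have k₅ := s₁.continuous_fderiv (by simp)
  have k₆ := s₂.continuous_fderiv (by simp)
  have k₇ := sχ.continuous.measurable
  have main := transfer (a := fun x => a x * χ x ^ 2) hU (by fun_prop)
    ((continuous_const.mul k₁).add (by fun_prop)) (annS_supp o₁) n₁
    ((annS_tsupport o₁).trans fun x hx => hU' x hx.1 hx.2)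
    (((continuous_const.mul k₂).add (by fun_prop)).add (by fun_prop)) (annS_supp o₂) n₂
    (fun W hW => scut (V := {y}ᶜ) hb hb0 (fun v hv hv' => hC v hv fun h => hv' h rfl) sχ
      (annS_supp zχ) hχV
      s₁ (annS_supp z₁) s₂ (annS_supp z₂) hθ hκ₁ hκ₂ hW) hw
  have hl : Q (fun x => sh y ρ S x * a x) w ≤ Q (fun x => a x * χ x ^ 2) w := by
    refine Q_mono_left w fun x => ?_
    unfold sh
    split_ifs with h
    · rw [hχ, annD_one hρ2 (by linarith [h.1]) h.2]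
      simp
    · rw [zero_mul]
      exact mul_nonneg (ha0 x) (sq_nonneg _)
  have m0 : ∀ x, sh y (ρ / 4) (2 * ρ) x ≤ sh y 0 (2 * ρ) x := annSh_mono hρ4.le le_rfl
  have r₁ := annQ (P₀ := fun x => sh y (ρ / 2) (2 * S) x * b x) hw.2.1.1
    ((measurable_sh y (ρ / 2) (2 * S)).mul hb) (measurable_sh y 0 (2 * ρ))
    (fun x => mul_nonneg (sh_nonneg _ _ _ x) (hb0 x)) (sh_nonneg _ _ _)
    (sh_nonneg y (S / 2) (4 * S)) (show (0 : ℝ) ≤ 3 by norm_num) (mul_nonneg hC0.le hB₁)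
    (mul_nonneg hC0.le hB₂) fun x => (e₁ x).trans (add_le_add (add_le_add le_rfl
      (mul_le_mul_of_nonneg_left (m0 x) (mul_nonneg hC0.le hB₁))) le_rfl)
  have r₂ := annQ hw.1.1 (measurable_sh y 0 (2 * ρ)) (measurable_sh y 0 (2 * ρ))
    (sh_nonneg _ _ _) (sh_nonneg _ _ _) (sh_nonneg y (S / 2) (4 * S)) le_rfl
    (show 0 ≤ C * B₁ * (ρ ^ 4)⁻¹ by positivity) (show 0 ≤ C * B₂ * (S ^ 4)⁻¹ by positivity)
    fun x => (e₂ x).trans (add_le_add ((mul_le_mul_of_nonneg_left (m0 x)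
      (by positivity)).trans_eq (by ring)) le_rfl)
  refine hl.trans (main.trans ((add_le_add r₁ r₂).trans_eq ?_))
  rw [ENNReal.ofReal_mul (mul_nonneg hC0.le hB₁), ENNReal.ofReal_mul (mul_nonneg hC0.le hB₂),
    ENNReal.ofReal_zero, ENNReal.ofReal_ofNat]
  ring

end Pool.Agent.MP_71da5e_an

end

section

namespace Pool.Agent.MP_71da5e_an

open MeasureTheory Metric Set Laplacian Filter Topology
open scoped ContDiff ENNReal RealInnerProductSpace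

variable {n : ℕ}

namespace CarlA

/-- `f` is differentiable at `x` with directional derivatives `d`. -/
def HD (f : E n → ℝ) (x : E n) (d : E n → ℝ) : Prop :=
  DifferentiableAt ℝ f x ∧ ∀ u, fderiv ℝ f x u = d u

section

variable {f g : E n → ℝ} {x : E n} {d e : E n → ℝ}

theorem HD.of {L : E n →L[ℝ] ℝ} (h : HasFDerivAt f L x) (h2 : ∀ u, L u = d u) : HD f x d :=
  ⟨h.differentiableAt, fun u => by rw [h.fderiv, h2]⟩

theorem HD.congr (h : HD f x d) (h2 : ∀ u, d u = e u) : HD f x e :=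
  ⟨h.1, fun u => by rw [h.2, h2]⟩

theorem HD.const (c : ℝ) (x : E n) : HD (fun _ => c) x fun _ => 0 :=
  HD.of (hasFDerivAt_const c x) fun _ => rfl

theorem HD.add (h : HD f x d) (h2 : HD g x e) : HD (fun y => f y + g y) x fun u => d u + e u :=
  HD.of (h.1.hasFDerivAt.add h2.1.hasFDerivAt) fun u => by
    rw [_root_.add_apply, h.2, h2.2]

theorem HD.sub (h : HD f x d) (h2 : HD g x e) : HD (fun y => f y - g y) x fun u => d u - e u :=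
  HD.of (h.1.hasFDerivAt.sub h2.1.hasFDerivAt) fun u => by
    rw [_root_.sub_apply, h.2, h2.2]

theorem HD.mul (h : HD f x d) (h2 : HD g x e) :
    HD (fun y => f y * g y) x fun u => f x * e u + g x * d u :=
  HD.of (h.1.hasFDerivAt.mul h2.1.hasFDerivAt) fun u => by
    simp only [_root_.add_apply, _root_.smul_apply, h.2, h2.2,
      smul_eq_mul]

theorem HD.cmul (c : ℝ) (h : HD f x d) : HD (fun y => c * f y) x fun u => c * d u :=
  ((HD.const c x).mul h).congr fun u => by ring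

theorem HD.exp (h : HD f x d) : HD (fun y => Real.exp (f y)) x fun u => Real.exp (f x) * d u :=
  HD.of h.1.hasFDerivAt.exp fun u => by
    simp only [_root_.smul_apply, h.2, smul_eq_mul]

theorem HD.sum {F D : Fin n → E n → ℝ} (h : ∀ i, HD (F i) x (D i)) :
    HD (fun y => ∑ i, F i y) x fun u => ∑ i, D i u :=
  HD.of (HasFDerivAt.fun_sum fun i _ => (h i).1.hasFDerivAt) fun u => by
    simp only [_root_.sum_apply, (h _).2]

theorem HD.rad (h : Rad f g) (hx : x ≠ 0) : HD f x fun u => g x * (‖x‖ ^ 2)⁻¹ * ⟪x, u⟫ :=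
  HD.of (h x hx) fun u => by
    simp only [_root_.smul_apply, innerSL_apply_apply, smul_eq_mul, div_eq_mul_inv]

theorem HD.inv (hx : x ≠ 0) :
    HD (fun y : E n => (‖y‖ ^ 2)⁻¹) x fun u => -2 * ((‖x‖ ^ 2)⁻¹) ^ 2 * ⟪x, u⟫ := by
  have h1 : ‖x‖ ^ 2 ≠ 0 := pow_ne_zero _ (norm_ne_zero_iff.mpr hx)
  refine HD.of ((hasDerivAt_inv h1).comp_hasFDerivAt x
    (hasStrictFDerivAt_norm_sq x).hasFDerivAt) fun u => ?_
  simp only [_root_.smul_apply, innerSL_apply_apply, smul_eq_mul, nsmul_eq_mul,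
    inv_pow]
  push_cast
  ring

theorem HD.coord (i : Fin n) (x : E n) : HD (fun y : E n => y i) x fun u => u i :=
  HD.of (EuclideanSpace.proj (𝕜 := ℝ) i : E n →L[ℝ] ℝ).hasFDerivAt fun _ => rfl

end

variable (Φ Φ₁ Φ₂ Φ₃ w : E n → ℝ)

/-- The coefficient of the gradient. -/
noncomputable def al (y : E n) : ℝ := Real.exp (2 * Φ y) *
  (2 * Φ₁ y * fderiv ℝ w y y + (2 * Φ₁ y * (Φ₁ y - 1) + n * Φ₁ y + Φ₂ y) * w y)

/-- The coefficient of the position vector. -/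
noncomputable def be (y : E n) : ℝ := Real.exp (2 * Φ y) *
  ((‖y‖ ^ 2)⁻¹ * ((Φ₁ y * (Φ₁ y - 1) * (Φ₁ y - 1) + (Φ₁ y - 1) * (n * Φ₁ y + Φ₂ y) +
    (1 / 2) * (n * Φ₂ y - Φ₃ y) + Φ₁ y * (n - 1 + Φ₁ y * Φ₁ y)) * (w y * w y)) -
    Φ₁ y * ∑ i, fderiv ℝ w y (ev i) * fderiv ℝ w y (ev i))

/-- The vector field. -/
noncomputable def XX (i : Fin n) (y : E n) : ℝ :=
  al Φ Φ₁ Φ₂ w y * fderiv ℝ w y (ev i) + be Φ Φ₁ Φ₂ Φ₃ w y * y i

variable {Φ Φ₁ Φ₂ Φ₃ w}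

theorem lin_sum (L : E n →L[ℝ] ℝ) (c : Fin n → ℝ) :
    L (∑ i, c i • ev i) = ∑ i, c i * L (ev i) := by
  simp only [map_sum, map_smul, smul_eq_mul]

theorem pointwise {Φ₄ : E n → ℝ} (r₀ : Rad Φ Φ₁) (r₁ : Rad Φ₁ Φ₂) (r₂ : Rad Φ₂ Φ₃)
    (r₃ : Rad Φ₃ Φ₄) (hw : ContDiff ℝ ∞ w) {x : E n} (hx : x ≠ 0) (hpos : 0 ≤ Φ₂ x) :
    Real.exp (2 * Φ x) * (4 * Φ₁ x ^ 2 * Φ₂ x - Φ₄ x) / ‖x‖ ^ 2 * w x ^ 2 -
      2 * ∑ i, fderiv ℝ (XX Φ Φ₁ Φ₂ Φ₃ w i) x (ev i) ≤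
      Real.exp (2 * Φ x) * ‖x‖ ^ 2 * Δ w x ^ 2 := by
  have hw2 : ContDiffAt ℝ 2 w x := hw.contDiffAt.of_le (WithTop.coe_le_coe.2 (le_top : (2 : ℕ∞) ≤ ⊤))
  have hW : HasFDerivAt (fderiv ℝ w) (fderiv ℝ (fderiv ℝ w) x) x :=
    ((hw2.fderiv_right (m := 1) (by norm_num)).differentiableAt one_ne_zero).hasFDerivAt
  have hsym : ∀ u v, fderiv ℝ (fderiv ℝ w) x u v = fderiv ℝ (fderiv ℝ w) x v u :=
    hw2.isSymmSndFDerivAt (by simp)
  set W := fderiv ℝ (fderiv ℝ w) x with hWdef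
  have dw : HD w x fun u => fderiv ℝ w x u := ⟨hw2.differentiableAt (by norm_num), fun _ => rfl⟩
  have da : ∀ i, HD (fun y => fderiv ℝ w y (ev i)) x fun u => W u (ev i) := fun i =>
    HD.of (hW.clm_apply (hasFDerivAt_const (ev i) x)) fun u => by simp
  have dA : HD (fun y => fderiv ℝ w y y) x fun u => fderiv ℝ w x u + W u x :=
    HD.of (hW.clm_apply (hasFDerivAt_id x)) fun u => by simp
  have d0 := (HD.cmul 2 (HD.rad r₀ hx)).exp
  have d1 := HD.rad r₁ hx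
  have d2 := HD.rad r₂ hx
  have d3 := HD.rad r₃ hx
  have d1' := d1.sub (HD.const 1 x)
  have dal : HD (al Φ Φ₁ Φ₂ w) x _ := d0.mul (((d1.cmul 2).mul dA).add
    (((((d1.cmul 2).mul d1').add (d1.cmul n)).add d2).mul dw))
  have dbe : HD (be Φ Φ₁ Φ₂ Φ₃ w) x _ := d0.mul (((HD.inv hx).mul
    ((((((d1.mul d1').mul d1').add (d1'.mul ((d1.cmul n).add d2))).add
      (((d2.cmul n).sub d3).cmul (1 / 2))).add
      (d1.mul ((HD.const (n - 1) x).add (d1.mul d1)))).mul (dw.mul dw))).sub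
      (d1.mul (HD.sum fun i => (da i).mul (da i))))
  set γ : E n := ∑ i, fderiv ℝ w x (ev i) • ev i with hγ
  have hdiv : ∑ i, fderiv ℝ (XX Φ Φ₁ Φ₂ Φ₃ w i) x (ev i) =
      al Φ Φ₁ Φ₂ w x * Δ w x + fderiv ℝ (al Φ Φ₁ Φ₂ w) x γ + n * be Φ Φ₁ Φ₂ Φ₃ w x +
        fderiv ℝ (be Φ Φ₁ Φ₂ Φ₃ w) x x := by
    have e1 : ∀ i, fderiv ℝ (XX Φ Φ₁ Φ₂ Φ₃ w i) x (ev i) =
        al Φ Φ₁ Φ₂ w x * W (ev i) (ev i) +
          fderiv ℝ w x (ev i) * fderiv ℝ (al Φ Φ₁ Φ₂ w) x (ev i) +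
          (be Φ Φ₁ Φ₂ Φ₃ w x * ev i i + x i * fderiv ℝ (be Φ Φ₁ Φ₂ Φ₃ w) x (ev i)) := fun i =>
      (((HD.mul ⟨dal.1, fun _ => rfl⟩ (da i)).add
        (HD.mul ⟨dbe.1, fun _ => rfl⟩ (HD.coord i x))).2 (ev i))
    have e2 : ∀ i : Fin n, ev i i = 1 := fun i => by simp [ev]
    have e3 : Δ w x = ∑ i, W (ev i) (ev i) := by
      rw [lap_eq hw2]
      exact Finset.sum_congr rfl fun i _ => (da i).2 (ev i)
    have e4 : fderiv ℝ (be Φ Φ₁ Φ₂ Φ₃ w) x x =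
        ∑ i, x i * fderiv ℝ (be Φ Φ₁ Φ₂ Φ₃ w) x (ev i) := by
      rw [← lin_sum, sum_coord_smul_ev]
    rw [e3, e4, hγ, lin_sum]
    simp only [e1, e2, Finset.sum_add_distrib, Finset.mul_sum, Finset.sum_const, Finset.card_univ,
      Fintype.card_fin, nsmul_eq_mul]
    ring
  have f1 : ⟪x, γ⟫ = fderiv ℝ w x x := by
    have := lin_sum (fderiv ℝ w x) (fun i => x i)
    rw [sum_coord_smul_ev] at this
    rw [this, hγ, inner_sum]
    exact Finset.sum_congr rfl fun i _ => by rw [real_inner_smul_right, inner_ev, mul_comm]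
  have f2 : fderiv ℝ w x γ = ∑ i, fderiv ℝ w x (ev i) * fderiv ℝ w x (ev i) := lin_sum _ _
  have f3 : ∑ i, (fderiv ℝ w x (ev i) * W x (ev i) + fderiv ℝ w x (ev i) * W x (ev i)) =
      2 * W γ x := by
    rw [hsym γ x, hγ, lin_sum, Finset.sum_add_distrib]
    ring
  have f4 : ⟪x, x⟫ = ‖x‖ ^ 2 := real_inner_self_eq_norm_sq x
  rw [hdiv, dal.2, dbe.2]
  simp only [f1, f2, f3, f4, al, be]
  have h1 : 0 < ‖x‖ ^ 2 := pow_pos (norm_pos_iff.mpr hx) _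
  have h2 : 0 < Real.exp (2 * Φ x) := Real.exp_pos _
  generalize ‖x‖ ^ 2 = r at h1 ⊢
  generalize Real.exp (2 * Φ x) = Z at h2 ⊢
  generalize ∑ i, fderiv ℝ w x (ev i) * fderiv ℝ w x (ev i) = G
  generalize fderiv ℝ w x x = A
  generalize W γ x = H
  generalize Δ w x = L
  generalize w x = v
  generalize Φ₁ x = P1
  generalize Φ₂ x = P2 at hpos ⊢
  generalize Φ₃ x = P3
  generalize Φ₄ x = P4
  generalize (n : ℝ) = N
  have h3 : 0 ≤ Z / r * ((r * L + (2 * P1 * A + (2 * P1 * (P1 - 1) + N * P1 + P2) * v)) ^ 2 +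
      (2 * P1 * A + (2 * P1 * (P1 - 1) + N * P1 + P2) * v) ^ 2 +
      4 * P2 * (A + (P1 - 1 + N / 2) * v) ^ 2) := by positivity
  rw [← sub_nonneg]
  refine h3.trans (le_of_eq ?_)
  field_simp
  ring

theorem XX_zero {x : E n} (hx : x ∉ tsupport w) (i : Fin n) : XX Φ Φ₁ Φ₂ Φ₃ w i x = 0 := by
  have h1 : w x = 0 := image_eq_zero_of_notMem_tsupport hx
  have h2 : fderiv ℝ w x = 0 := fderiv_of_notMem_tsupport ℝ hx
  simp [XX, al, be, h1, h2]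

theorem XX_smooth (h₀ : ContDiffOn ℝ ∞ Φ {0}ᶜ) (h₁ : ContDiffOn ℝ ∞ Φ₁ {0}ᶜ)
    (h₂ : ContDiffOn ℝ ∞ Φ₂ {0}ᶜ) (h₃ : ContDiffOn ℝ ∞ Φ₃ {0}ᶜ) (hw : ContDiff ℝ ∞ w)
    (h0 : 0 ∉ tsupport w) (i : Fin n) : ContDiff ℝ ∞ (XX Φ Φ₁ Φ₂ Φ₃ w i) := by
  refine contDiff_of_closed isOpen_compl_singleton (isClosed_tsupport w)
    (subset_compl_singleton_iff.mpr h0) ?_ fun x hx => XX_zero hx i
  have hW : ContDiff ℝ ∞ (fderiv ℝ w) := hw.fderiv_right (m := ∞) (by norm_cast)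
  have ha : ∀ j, ContDiffOn ℝ ∞ (fun y => fderiv ℝ w y (ev j)) {0}ᶜ := fun j =>
    (hW.clm_apply contDiff_const).contDiffOn
  have hA : ContDiffOn ℝ ∞ (fun y => fderiv ℝ w y y) {0}ᶜ := (hW.clm_apply contDiff_id).contDiffOn
  have hi : ContDiffOn ℝ ∞ (fun y : E n => (‖y‖ ^ 2)⁻¹) {0}ᶜ :=
    (contDiff_norm_sq ℝ).contDiffOn.inv fun y hy => pow_ne_zero _ (norm_ne_zero_iff.mpr hy)
  have hc : ContDiffOn ℝ ∞ (fun y : E n => y i) {0}ᶜ :=
    (EuclideanSpace.proj (𝕜 := ℝ) i : E n →L[ℝ] ℝ).contDiff.contDiffOn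
  have hw' : ContDiffOn ℝ ∞ w {0}ᶜ := hw.contDiffOn
  have c : ∀ t : ℝ, ContDiffOn ℝ ∞ (fun _ : E n => t) {0}ᶜ := fun t => contDiffOn_const
  have he := ((c 2).mul h₀).exp
  have h1' := h₁.sub (c 1)
  have hal : ContDiffOn ℝ ∞ (al Φ Φ₁ Φ₂ w) {0}ᶜ := he.mul ((((c 2).mul h₁).mul hA).add
    ((((((c 2).mul h₁).mul h1').add ((c n).mul h₁)).add h₂).mul hw'))
  have hbe : ContDiffOn ℝ ∞ (be Φ Φ₁ Φ₂ Φ₃ w) {0}ᶜ := he.mul ((hi.mul
    ((((((h₁.mul h1').mul h1').add (h1'.mul (((c n).mul h₁).add h₂))).add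
      ((c (1 / 2)).mul (((c n).mul h₂).sub h₃))).add
      (h₁.mul ((c (n - 1)).add (h₁.mul h₁)))).mul (hw'.mul hw'))).sub
      (h₁.mul (ContDiffOn.sum fun j _ => (ha j).mul (ha j))))
  exact (hal.mul (ha i)).add (hbe.mul hc)

theorem integrable_of {g : E n → ℝ} (hg : ContinuousOn g {0}ᶜ) (hc : HasCompactSupport w)
    (h0 : 0 ∉ tsupport w) (hz : ∀ x, x ∉ tsupport w → g x = 0) : Integrable g :=
  (continuous_of_closed isOpen_compl_singleton (isClosed_tsupport w)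
    (subset_compl_singleton_iff.mpr h0) hg hz).integrable_of_hasCompactSupport
    (HasCompactSupport.intro hc hz)

end CarlA

theorem carl_abs {Φ Φ₁ Φ₂ Φ₃ Φ₄ : E n → ℝ} (h₀ : ContDiffOn ℝ ∞ Φ {0}ᶜ)
    (h₁ : ContDiffOn ℝ ∞ Φ₁ {0}ᶜ) (h₂ : ContDiffOn ℝ ∞ Φ₂ {0}ᶜ) (h₃ : ContDiffOn ℝ ∞ Φ₃ {0}ᶜ)
    (h₄ : ContDiffOn ℝ ∞ Φ₄ {0}ᶜ) (r₀ : Rad Φ Φ₁) (r₁ : Rad Φ₁ Φ₂) (r₂ : Rad Φ₂ Φ₃)
    (r₃ : Rad Φ₃ Φ₄) (hpos : ∀ x, x ≠ 0 → 0 ≤ Φ₂ x) {w : E n → ℝ} (hw : ContDiff ℝ ∞ w)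
    (hc : HasCompactSupport w) (h0 : 0 ∉ tsupport w) :
    ∫ x, Real.exp (2 * Φ x) * (4 * Φ₁ x ^ 2 * Φ₂ x - Φ₄ x) / ‖x‖ ^ 2 * w x ^ 2 ≤
      ∫ x, Real.exp (2 * Φ x) * ‖x‖ ^ 2 * Δ w x ^ 2 := by
  have hX := CarlA.XX_smooth h₀ h₁ h₂ h₃ hw h0
  have hXc : ∀ i, HasCompactSupport (CarlA.XX Φ Φ₁ Φ₂ Φ₃ w i) := fun i =>
    HasCompactSupport.intro hc fun x hx => CarlA.XX_zero hx i
  have hXs : ∀ i, tsupport (CarlA.XX Φ Φ₁ Φ₂ Φ₃ w i) ⊆ tsupport w := fun i =>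
    closure_minimal (fun x hx => by_contra fun h => hx (CarlA.XX_zero h i)) (isClosed_tsupport w)
  have hXz : ∀ i x, x ∉ tsupport w → fderiv ℝ (CarlA.XX Φ Φ₁ Φ₂ Φ₃ w i) x (ev i) = 0 :=
    fun i x hx => by
      rw [fderiv_of_notMem_tsupport ℝ fun h => hx (hXs i h), _root_.zero_apply]
  have hXi : ∀ i, Integrable fun x => fderiv ℝ (CarlA.XX Φ Φ₁ Φ₂ Φ₃ w i) x (ev i) := fun i =>
    CarlA.integrable_of
      (((hX i).continuous_fderiv (by simp)).clm_apply continuous_const).continuousOn hc h0 (hXz i)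
  have he : ContinuousOn (fun x => Real.exp (2 * Φ x)) {0}ᶜ :=
    (continuousOn_const.mul h₀.continuousOn).rexp
  have hn : ContinuousOn (fun x : E n => ‖x‖ ^ 2) {0}ᶜ := by fun_prop
  have i1 : Integrable fun x =>
      Real.exp (2 * Φ x) * (4 * Φ₁ x ^ 2 * Φ₂ x - Φ₄ x) / ‖x‖ ^ 2 * w x ^ 2 := by
    refine CarlA.integrable_of (((he.mul (((continuousOn_const.mul (h₁.continuousOn.pow 2)).mul
      h₂.continuousOn).sub h₄.continuousOn)).div hn fun y hy =>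
        pow_ne_zero _ (norm_ne_zero_iff.mpr hy)).mul (hw.continuous.continuousOn.pow 2)) hc h0
      fun x hx => ?_
    simp [image_eq_zero_of_notMem_tsupport hx]
  have i2 : Integrable fun x => Real.exp (2 * Φ x) * ‖x‖ ^ 2 * Δ w x ^ 2 := by
    refine CarlA.integrable_of ((he.mul hn).mul
      ((contDiff_lap hw).continuous.continuousOn.pow 2)) hc h0 fun x hx => ?_
    simp [lap_eq_zero hx]
  have i3 : Integrable fun x => 2 * ∑ i, fderiv ℝ (CarlA.XX Φ Φ₁ Φ₂ Φ₃ w i) x (ev i) :=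
    (integrable_finsetSum _ fun i _ => hXi i).const_mul 2
  have e3 : ∫ x, 2 * ∑ i, fderiv ℝ (CarlA.XX Φ Φ₁ Φ₂ Φ₃ w i) x (ev i) = 0 := by
    rw [integral_const_mul, integral_finsetSum _ fun i _ => hXi i, Finset.sum_eq_zero, mul_zero]
    exact fun i _ => integral_fderiv_zero ((hX i).of_le (by exact_mod_cast le_top)) (hXc i) _
  rw [← sub_zero (∫ x, Real.exp (2 * Φ x) * (4 * Φ₁ x ^ 2 * Φ₂ x - Φ₄ x) / ‖x‖ ^ 2 * w x ^ 2),
    ← e3, ← integral_sub i1 i3]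
  refine integral_mono (i1.sub i3) i2 fun x => ?_
  by_cases hx : x ∈ tsupport w
  · have hx0 : x ≠ 0 := fun h => h0 (h ▸ hx)
    exact CarlA.pointwise r₀ r₁ r₂ r₃ hw hx0 (hpos x hx0)
  · simp [image_eq_zero_of_notMem_tsupport hx, lap_eq_zero hx, hXz _ x hx]

end Pool.Agent.MP_71da5e_an

end

section

namespace Pool.Agent.MP_71da5e_an

open MeasureTheory Metric Set Laplacian Filter Topology
open scoped ContDiff ENNReal RealInnerProductSpace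

variable {n : ℕ}

/-- The function `u / (u + s^2)`. -/
noncomputable def carlBth (s u : ℝ) : ℝ := u / (u + s ^ 2)

lemma carlB_rad {G H : ℝ → ℝ} (h : ∀ u, 0 < u → HasDerivAt G (H u / (2 * u)) u) :
    Rad (fun x : E n => G (‖x‖ ^ 2)) fun x => H (‖x‖ ^ 2) := fun x hx => by
  have h0 : 0 < ‖x‖ ^ 2 := pow_pos (norm_pos_iff.2 hx) 2
  have h1 := (h _ h0).comp_hasFDerivAt x (hasStrictFDerivAt_norm_sq x).hasFDerivAt
  refine h1.congr_fderiv ?_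
  rw [← Nat.cast_smul_eq_nsmul ℝ, smul_smul]
  congr 1
  push_cast
  field_simp

lemma carlB_th {s : ℝ} (hs : 0 < s) {u : ℝ} (hu : 0 < u) :
    HasDerivAt (carlBth s) (carlBth s u * (1 - carlBth s u) / u) u := by
  have h0 : u + s ^ 2 ≠ 0 := by positivity
  refine ((hasDerivAt_id' u).div ((hasDerivAt_id' u).add_const (s ^ 2)) h0).congr_deriv ?_
  simp only [carlBth]
  field_simp

lemma carlB_log {s : ℝ} (hs : 0 < s) {u : ℝ} (hu : 0 < u) :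
    HasDerivAt (fun u => Real.log (u + s ^ 2)) (carlBth s u / u) u := by
  have h0 : u + s ^ 2 ≠ 0 := by positivity
  refine (((hasDerivAt_id' u).add_const (s ^ 2)).log h0).congr_deriv ?_
  simp only [carlBth]
  field_simp

lemma carlB_smooth {s : ℝ} (hs : 0 < s) : ContDiff ℝ ∞ fun x : E n => carlBth s (‖x‖ ^ 2) :=
  (contDiff_norm_sq ℝ).div ((contDiff_norm_sq ℝ).add contDiff_const) fun x => by positivity

lemma carlB_mem {s : ℝ} (hs : 0 < s) {u : ℝ} (hu : 0 ≤ u) :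
    0 ≤ carlBth s u ∧ carlBth s u ≤ 1 :=
  ⟨by unfold carlBth; positivity,
    (div_le_one (by positivity)).2 (le_add_of_nonneg_right (sq_nonneg s))⟩

lemma carlB_int {c g : E n → ℝ} {K : Set (E n)} (hK : IsCompact K) (h0 : 0 ∉ K)
    (hc : ContinuousOn c {0}ᶜ) (hg : Continuous g) (hz : ∀ x, x ∉ K → g x = 0) :
    Integrable fun x => c x * g x ^ 2 := by
  have h1 : ∀ x, x ∉ K → c x * g x ^ 2 = 0 := fun x hx => by rw [hz x hx]; ring
  exact (continuous_of_closed isOpen_compl_singleton hK.isClosed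
    (subset_compl_singleton_iff.2 h0) (hc.mul (hg.pow 2).continuousOn) h1
    ).integrable_of_hasCompactSupport (HasCompactSupport.intro hK h1)

lemma carlB_om (N : ℕ) (s t : ℝ) : ContinuousOn (om N s t : E n → ℝ) {0}ᶜ :=
  ContinuousOn.div (by fun_prop) (by fun_prop) fun x hx => pow_ne_zero _ (norm_ne_zero_iff.2 hx)

lemma carlB_pt {N a b : ℝ} (hN : 6 ≤ N) (ha : 0 ≤ a ∧ a ≤ 1) (hb : 0 ≤ b ∧ b ≤ 1) :
    (N - 2) * (N - 6) * (2 * a * (1 - a) + 2 * b * (1 - b)) ≤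
      4 * (-N / 2 + a + b) ^ 2 * (2 * a * (1 - a) + 2 * b * (1 - b)) -
        (8 * a * (1 - a) * ((1 - 2 * a) ^ 2 - 2 * a * (1 - a)) +
          8 * b * (1 - b) * ((1 - 2 * b) ^ 2 - 2 * b * (1 - b))) := by
  have h1 : 0 ≤ a * (1 - a) := mul_nonneg ha.1 (sub_nonneg.2 ha.2)
  have h2 : 0 ≤ b * (1 - b) := mul_nonneg hb.1 (sub_nonneg.2 hb.2)
  have h3 : (N / 2 - 2) ^ 2 ≤ (-N / 2 + a + b) ^ 2 := by nlinarith [ha.2, hb.2]
  nlinarith [mul_le_mul_of_nonneg_right h3 (add_nonneg h1 h2), mul_nonneg h1 h1, mul_nonneg h2 h2]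

lemma carlB_real {N : ℕ} (hN : 6 ≤ N) {s t : ℝ} (hs : 0 < s) (ht : 0 < t) {w : E n → ℝ}
    (hw : ContDiff ℝ ∞ w) {K : Set (E n)} (hK : IsCompact K) (h0 : 0 ∉ K)
    (hz : ∀ x, x ∉ K → w x = 0) :
    ∫ x, 2 * ((N : ℝ) - 2) * (N - 6) * om N s t x *
        (s ^ 2 / (‖x‖ ^ 2 + s ^ 2) ^ 2 + t ^ 2 / (‖x‖ ^ 2 + t ^ 2) ^ 2) * w x ^ 2 ≤
      ∫ x, om N s t x * ‖x‖ ^ 2 * Δ w x ^ 2 := by
  have hN' : (6 : ℝ) ≤ N := by exact_mod_cast hN
  have cs := carlB_smooth (n := n) hs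
  have ct := carlB_smooth (n := n) ht
  have c0 : ContDiffOn ℝ ∞ (fun x : E n => -(N : ℝ) / 4 * Real.log (‖x‖ ^ 2) +
      1 / 2 * Real.log (‖x‖ ^ 2 + s ^ 2) + 1 / 2 * Real.log (‖x‖ ^ 2 + t ^ 2)) {0}ᶜ :=
    ((contDiffOn_const.mul ((contDiff_norm_sq ℝ).contDiffOn.log fun x hx =>
      pow_ne_zero _ (norm_ne_zero_iff.2 hx))).add (contDiffOn_const.mul
      (((contDiff_norm_sq ℝ).add contDiff_const).contDiffOn.log fun x _ => by positivity))).add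
      (contDiffOn_const.mul
      (((contDiff_norm_sq ℝ).add contDiff_const).contDiffOn.log fun x _ => by positivity))
  have he : ∀ x : E n, x ≠ 0 → Real.exp (2 * (-(N : ℝ) / 4 * Real.log (‖x‖ ^ 2) +
      1 / 2 * Real.log (‖x‖ ^ 2 + s ^ 2) + 1 / 2 * Real.log (‖x‖ ^ 2 + t ^ 2))) = om N s t x :=
    fun x hx => by
      have h1 : 0 < ‖x‖ := norm_pos_iff.2 hx
      rw [om, ← Real.exp_log (by positivity : 0 < (‖x‖ ^ 2 + s ^ 2) * (‖x‖ ^ 2 + t ^ 2) / ‖x‖ ^ N),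
        Real.log_div (by positivity) (by positivity), Real.log_mul (by positivity) (by positivity),
        Real.log_pow, Real.log_pow]
      congr 1
      push_cast
      ring
  have key := carl_abs (w := w) c0
    (Φ₁ := fun x => -(N : ℝ) / 2 + carlBth s (‖x‖ ^ 2) + carlBth t (‖x‖ ^ 2))
    (Φ₂ := fun x => 2 * carlBth s (‖x‖ ^ 2) * (1 - carlBth s (‖x‖ ^ 2)) +
      2 * carlBth t (‖x‖ ^ 2) * (1 - carlBth t (‖x‖ ^ 2)))
    (Φ₃ := fun x => 4 * carlBth s (‖x‖ ^ 2) * (1 - carlBth s (‖x‖ ^ 2)) *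
      (1 - 2 * carlBth s (‖x‖ ^ 2)) + 4 * carlBth t (‖x‖ ^ 2) * (1 - carlBth t (‖x‖ ^ 2)) *
      (1 - 2 * carlBth t (‖x‖ ^ 2)))
    (Φ₄ := fun x => 8 * carlBth s (‖x‖ ^ 2) * (1 - carlBth s (‖x‖ ^ 2)) *
      ((1 - 2 * carlBth s (‖x‖ ^ 2)) ^ 2 - 2 * carlBth s (‖x‖ ^ 2) * (1 - carlBth s (‖x‖ ^ 2))) +
      8 * carlBth t (‖x‖ ^ 2) * (1 - carlBth t (‖x‖ ^ 2)) *
      ((1 - 2 * carlBth t (‖x‖ ^ 2)) ^ 2 - 2 * carlBth t (‖x‖ ^ 2) * (1 - carlBth t (‖x‖ ^ 2))))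
    (ContDiff.contDiffOn (by fun_prop)) (ContDiff.contDiffOn (by fun_prop))
    (ContDiff.contDiffOn (by fun_prop)) (ContDiff.contDiffOn (by fun_prop))
    (carlB_rad (G := fun u => -(N : ℝ) / 4 * Real.log u + 1 / 2 * Real.log (u + s ^ 2) +
      1 / 2 * Real.log (u + t ^ 2)) (H := fun u => -(N : ℝ) / 2 + carlBth s u + carlBth t u)
      fun u hu => by
        refine ((((Real.hasDerivAt_log hu.ne').const_mul (-(N : ℝ) / 4)).add ((carlB_log hs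
          hu).const_mul (1 / 2))).add ((carlB_log ht hu).const_mul (1 / 2))).congr_deriv ?_
        field_simp
        ring)
    (carlB_rad (G := fun u => -(N : ℝ) / 2 + carlBth s u + carlBth t u)
      (H := fun u => 2 * carlBth s u * (1 - carlBth s u) + 2 * carlBth t u * (1 - carlBth t u))
      fun u hu => by
        refine (((carlB_th hs hu).const_add (-(N : ℝ) / 2)).add (carlB_th ht hu)).congr_deriv ?_
        field_simp)
    (carlB_rad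
      (G := fun u => 2 * carlBth s u * (1 - carlBth s u) + 2 * carlBth t u * (1 - carlBth t u))
      (H := fun u => 4 * carlBth s u * (1 - carlBth s u) * (1 - 2 * carlBth s u) +
        4 * carlBth t u * (1 - carlBth t u) * (1 - 2 * carlBth t u))
      fun u hu => by
        have a := carlB_th hs hu
        have b := carlB_th ht hu
        refine (((a.const_mul 2).mul (a.const_sub 1)).add
          ((b.const_mul 2).mul (b.const_sub 1))).congr_deriv ?_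
        field_simp
        ring)
    (carlB_rad (G := fun u => 4 * carlBth s u * (1 - carlBth s u) * (1 - 2 * carlBth s u) +
        4 * carlBth t u * (1 - carlBth t u) * (1 - 2 * carlBth t u))
      (H := fun u => 8 * carlBth s u * (1 - carlBth s u) *
        ((1 - 2 * carlBth s u) ^ 2 - 2 * carlBth s u * (1 - carlBth s u)) +
        8 * carlBth t u * (1 - carlBth t u) *
        ((1 - 2 * carlBth t u) ^ 2 - 2 * carlBth t u * (1 - carlBth t u)))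
      fun u hu => by
        have a := carlB_th hs hu
        have b := carlB_th ht hu
        refine ((((a.const_mul 4).mul (a.const_sub 1)).mul ((a.const_mul 2).const_sub 1)).add
          (((b.const_mul 4).mul (b.const_sub 1)).mul ((b.const_mul 2).const_sub 1))).congr_deriv ?_
        simp only [Pi.mul_apply]
        field_simp
        ring)
    (fun x _ => by
      have a := carlB_mem hs (sq_nonneg ‖x‖)
      have b := carlB_mem ht (sq_nonneg ‖x‖)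
      nlinarith [mul_nonneg a.1 (sub_nonneg.2 a.2), mul_nonneg b.1 (sub_nonneg.2 b.2)])
    hw (HasCompactSupport.intro hK hz)
    fun h => h0 (closure_minimal (Function.support_subset_iff'.2 hz) hK.isClosed h)
  refine (integral_mono_of_nonneg (Eventually.of_forall fun x => ?_)
    (carlB_int hK h0 ?_ hw.continuous hz) (Eventually.of_forall fun x => ?_)).trans
    (key.trans_eq (integral_congr_ae (Eventually.of_forall fun x => ?_)))
  · have h1 : (0 : ℝ) ≤ N - 2 := by linarith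
    have h2 : (0 : ℝ) ≤ N - 6 := by linarith
    unfold om
    positivity
  · have cs' := cs.continuous
    have ct' := ct.continuous
    exact (((continuousOn_const.mul c0.continuousOn).rexp).mul
      (Continuous.continuousOn (by fun_prop))).div (by fun_prop)
      fun x hx => pow_ne_zero _ (norm_ne_zero_iff.2 hx)
  · by_cases hx : x = 0
    · simp only [hx, hz 0 h0]
      simp
    have h1 : 0 < ‖x‖ ^ 2 := pow_pos (norm_pos_iff.2 hx) 2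
    have h2 : 0 ≤ om N s t x := by unfold om; positivity
    refine mul_le_mul_of_nonneg_right ?_ (sq_nonneg _)
    rw [he x hx, le_div_iff₀ h1]
    refine le_trans (le_of_eq ?_) (mul_le_mul_of_nonneg_left
      (carlB_pt hN' (carlB_mem hs h1.le) (carlB_mem ht h1.le)) h2)
    unfold carlBth
    field_simp
    ring
  · by_cases hx : x = 0
    · simp [hx]
    · simp only [he x hx]

theorem carleman (y : E n) {N : ℕ} (hN : 6 ≤ N) {s t : ℝ} (hs : 0 < s) (ht : 0 < t)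
    {v : E n → ℂ} (hv : Tst v) (h0 : y ∉ tsupport v) :
    Q (fun x => 2 * ((N : ℝ) - 2) * (N - 6) * om N s t (x - y) *
        (s ^ 2 / (‖x - y‖ ^ 2 + s ^ 2) ^ 2 + t ^ 2 / (‖x - y‖ ^ 2 + t ^ 2) ^ 2)) v ≤
      Q (fun x => om N s t (x - y) * ‖x - y‖ ^ 2) (Δ v) := by
  have hN' : (6 : ℝ) ≤ N := by exact_mod_cast hN
  have tr : ∀ (a : E n → ℝ) (u : E n → ℂ), Q (fun x => a (x - y)) u = Q a fun x => u (x + y) :=
    fun a u => by
      rw [Q, ← lintegral_add_right_eq_self _ y]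
      simp only [add_sub_cancel_right, Q]
  obtain ⟨a, ha⟩ : ∃ a : E n → ℝ, a = fun x => 2 * ((N : ℝ) - 2) * (N - 6) * om N s t x *
    (s ^ 2 / (‖x‖ ^ 2 + s ^ 2) ^ 2 + t ^ 2 / (‖x‖ ^ 2 + t ^ 2) ^ 2) := ⟨_, rfl⟩
  obtain ⟨b, hb⟩ : ∃ b : E n → ℝ, b = fun x => om N s t x * ‖x‖ ^ 2 := ⟨_, rfl⟩
  obtain ⟨V, hV⟩ : ∃ V : E n → ℂ, V = fun x => v (x + y) := ⟨_, rfl⟩
  have hVs : ContDiff ℝ ∞ V := hV ▸ hv.1.comp (contDiff_id.add contDiff_const)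
  have hK : IsCompact ((fun x => x + y) ⁻¹' tsupport v) :=
    (Homeomorph.addRight y).isCompact_preimage.2 hv.2
  have hK0 : 0 ∉ (fun x => x + y) ⁻¹' tsupport v := by simpa using h0
  have hz : ∀ x, x ∉ (fun x => x + y) ⁻¹' tsupport v → V x = 0 := fun x hx => by
    rw [hV]
    exact image_eq_zero_of_notMem_tsupport hx
  have hΔ : Δ V = fun x => Δ v (x + y) := funext fun x => by rw [hV, lap_add_const]
  have hz' : ∀ x, x ∉ (fun x => x + y) ⁻¹' tsupport v → Δ V x = 0 := fun x hx => by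
    rw [hΔ]
    exact lap_eq_zero hx
  have ca : ContinuousOn a {0}ᶜ := by
    rw [ha]
    exact (continuousOn_const.mul (carlB_om N s t)).mul (Continuous.continuousOn
      ((continuous_const.div (by fun_prop) fun x => by positivity).add
        (continuous_const.div (by fun_prop) fun x => by positivity)))
  have cb : ContinuousOn b {0}ᶜ := hb ▸ (carlB_om N s t).mul (by fun_prop)
  have sp : ∀ {c : E n → ℝ} {U : E n → ℂ}, ContinuousOn c {0}ᶜ → (∀ x, 0 ≤ c x) → Continuous U →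
      (∀ x, x ∉ (fun x => x + y) ⁻¹' tsupport v → U x = 0) → Q c U =
      ENNReal.ofReal ((∫ x, c x * (U x).re ^ 2) + ∫ x, c x * (U x).im ^ 2) :=
    fun {c U} hc h1 hU hU0 => by
      rw [Q_eq_ofReal h1 (carlB_int hK hK0 hc hU.norm fun x hx => by rw [hU0 x hx, norm_zero]),
        ← integral_add
          (carlB_int (g := fun x => (U x).re) hK hK0 hc (Complex.continuous_re.comp hU)
            fun x hx => by simp [hU0 x hx])
          (carlB_int (g := fun x => (U x).im) hK hK0 hc (Complex.continuous_im.comp hU)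
            fun x hx => by simp [hU0 x hx])]
      refine congrArg _ (integral_congr_ae (Eventually.of_forall fun x => ?_))
      simp only [Complex.sq_norm, Complex.normSq_apply]
      ring
  have h2 : ∀ x, ContDiffAt ℝ 2 V x := fun x => (hVs.of_le (by norm_cast)).contDiffAt
  have h3 := carlB_real hN hs ht (w := fun x => (V x).re) (Complex.reCLM.contDiff.comp hVs) hK hK0
    fun x hx => by simp [hz x hx]
  have h4 := carlB_real hN hs ht (w := fun x => (V x).im) (Complex.imCLM.contDiff.comp hVs) hK hK0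
    fun x hx => by simp [hz x hx]
  simp only [lap_re (h2 _), lap_im (h2 _)] at h3 h4
  have e1 := tr a v
  have e2 := tr b (Δ v)
  rw [← hV, sp ca (fun x => ?_) hVs.continuous hz] at e1
  · rw [← hΔ, sp cb (fun x => ?_) (contDiff_lap hVs).continuous hz'] at e2
    · rw [ha] at e1
      rw [hb] at e2
      rw [e1, e2]
      exact ENNReal.ofReal_le_ofReal (add_le_add h3 h4)
    · rw [hb]
      unfold om
      positivity
  · have h1 : (0 : ℝ) ≤ N - 2 := by linarith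
    have h2 : (0 : ℝ) ≤ N - 6 := by linarith
    rw [ha]
    unfold om
    positivity

end Pool.Agent.MP_71da5e_an

end

section

namespace Pool.Agent.MP_71da5e_an

open MeasureTheory Metric Set Laplacian Filter Topology
open scoped ContDiff ENNReal RealInnerProductSpace

variable {n : ℕ}

lemma three_carl (y : E n) {N : ℕ} (hN : 7 ≤ N) {ρ : ℝ} (hρ : 0 < ρ) {v : E n → ℂ} (hv : Tst v)
    (h0 : y ∉ tsupport v) : Q (fun x => (3 * ρ) ^ N / ‖x - y‖ ^ N) v ≤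
      Q (fun x => (3 * ρ) ^ N / ρ ^ 2 * (om N ρ ρ (x - y) * ‖x - y‖ ^ 2)) (Δ v) := by
  have hc : 0 ≤ (3 * ρ) ^ N / ρ ^ 2 := by positivity
  rw [Q_const_mul hc]
  refine le_trans ?_ (mul_le_mul_right (carleman y (by omega) hρ hρ hv h0) _)
  rw [← Q_const_mul hc]
  refine Q_mono_left v fun x => ?_
  have h1 : (7 : ℝ) ≤ N := by exact_mod_cast hN
  have h2 : (3 * ρ) ^ N / ρ ^ 2 * (2 * ((N : ℝ) - 2) * (N - 6) * om N ρ ρ (x - y) *
      (ρ ^ 2 / (‖x - y‖ ^ 2 + ρ ^ 2) ^ 2 + ρ ^ 2 / (‖x - y‖ ^ 2 + ρ ^ 2) ^ 2)) =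
      4 * (((N : ℝ) - 2) * (N - 6)) * ((3 * ρ) ^ N / ‖x - y‖ ^ N) := by
    unfold om
    simp only [div_eq_mul_inv]
    generalize (‖x - y‖ ^ N)⁻¹ = u
    field_simp
    ring
  rw [h2]
  exact le_mul_of_one_le_left (by positivity) (by nlinarith)

lemma three_bound (N : ℕ) {ρ θ : ℝ} (hρ : 0 < ρ) (hθ : 0 < θ) {z : E n} (h1 : 3 * ρ ≤ θ * ‖z‖)
    (h2 : ‖z‖ ≤ 12 * ρ) :
    (3 * ρ) ^ N / ρ ^ 2 * (om N ρ ρ z * ‖z‖ ^ 2) ≤ 3027600 * θ ^ N * ρ ^ 4 := by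
  have h3 : 0 < ‖z‖ := (mul_pos_iff_of_pos_left hθ).1 (by linarith)
  have h4 : (3 * ρ) ^ N / ‖z‖ ^ N ≤ θ ^ N := by
    rw [← div_pow]
    exact pow_le_pow_left₀ (by positivity) ((div_le_iff₀ h3).2 h1) N
  have h5 : ‖z‖ ^ 2 ≤ 144 * ρ ^ 2 := by nlinarith
  have h6 : (3 * ρ) ^ N / ρ ^ 2 * (om N ρ ρ z * ‖z‖ ^ 2) =
      (‖z‖ ^ 2 + ρ ^ 2) ^ 2 * ‖z‖ ^ 2 / ρ ^ 2 * ((3 * ρ) ^ N / ‖z‖ ^ N) := by
    unfold om
    ring
  have h7 : (‖z‖ ^ 2 + ρ ^ 2) ^ 2 * ‖z‖ ^ 2 / ρ ^ 2 ≤ 3027600 * ρ ^ 4 := by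
    rw [div_le_iff₀ (by positivity)]
    calc (‖z‖ ^ 2 + ρ ^ 2) ^ 2 * ‖z‖ ^ 2 ≤ (144 * ρ ^ 2 + ρ ^ 2) ^ 2 * (144 * ρ ^ 2) := by gcongr
      _ = _ := by ring
  rw [h6, mul_right_comm]
  gcongr

theorem three (n : ℕ) {ε : ℝ} (hε : 0 < ε) : ∃ C : ℝ, 0 ≤ C ∧ ∀ (ν : E n) (ρ : ℝ)
    (w F : E n → ℂ), ‖ν‖ = 1 → 0 < ρ → (∀ x, x ∉ Hs ν → w x = 0) → (∀ x, x ∉ Hs ν → F x = 0) →
    WP (ball 0 (30 * ρ)) w F → Q (sh 0 0 (2 * ρ)) w ≤
      ENNReal.ofReal ε * Q (sh 0 0 (30 * ρ)) w +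
        ENNReal.ofReal (C * ρ ^ 4) * Q (sh 0 0 (30 * ρ)) F := by
  obtain ⟨C, hC, h⟩ := ann n
  obtain ⟨N, hN, hNε⟩ : ∃ N : ℕ, 7 ≤ N ∧ C * (3027600 * (1 / 2) ^ N) ≤ ε := by
    have h1 := ((tendsto_pow_atTop_nhds_zero_of_lt_one (r := (1 / 2 : ℝ)) (by norm_num)
      (by norm_num)).const_mul 3027600).const_mul C
    rw [mul_zero, mul_zero] at h1
    exact ((eventually_ge_atTop 7).and (h1.eventually (ge_mem_nhds hε))).exists
  refine ⟨3 * (3027600 * 12 ^ N) + C * (3027600 * (1 / 2) ^ N), by positivity,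
    fun ν ρ w F hν hρ hw hF hP => ?_⟩
  have hy : ‖-(ρ • ν)‖ = ρ := by rw [norm_neg, norm_smul, hν, mul_one, Real.norm_of_nonneg hρ.le]
  have hH : ∀ x ∈ Hs ν, ρ < ‖x - -(ρ • ν)‖ := fun x hx => by
    have h1 := real_inner_le_norm (x - -(ρ • ν)) ν
    rw [hν, mul_one, sub_neg_eq_add, inner_add_left, real_inner_smul_left,
      real_inner_self_eq_norm_sq, hν] at h1
    have h2 : 0 < ⟪x, ν⟫ := hx
    rw [sub_neg_eq_add]
    linarith
  generalize -(ρ • ν) = y at hy hH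
  have hn : ∀ x, ‖x‖ ≤ ‖x - y‖ + ρ := fun x => hy ▸ norm_le_norm_sub_add x y
  have hn' : ∀ x, ‖x - y‖ ≤ ‖x‖ + ρ := fun x => hy ▸ norm_sub_le x y
  have hsh : ∀ s t, t ≤ 29 * ρ → ∀ x, sh y s t x ≤ sh 0 0 (30 * ρ) x := fun s t ht x => by
    have := hn x
    by_cases h1 : s ≤ ‖x - y‖ ∧ ‖x - y‖ ≤ t
    · rw [sh, sh, if_pos h1, if_pos ⟨norm_nonneg _, by rw [sub_zero]; linarith [h1.2]⟩]
    · rw [sh, if_neg h1]
      exact sh_nonneg _ _ _ _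
  have hz : ∀ u : E n → ℂ, (∀ x, x ∉ Hs ν → u x = 0) → Q (sh y 0 (2 * (ρ / 2))) u = 0 :=
    fun u hu => by
      refine (lintegral_congr fun x => ?_).trans lintegral_zero
      by_cases h1 : x ∈ Hs ν
      · rw [sh, if_neg fun h2 => by linarith [hH x h1, h2.2], zero_mul, ENNReal.ofReal_zero]
      · simp [hu x h1]
  have h1 := h y (fun x => (3 * ρ) ^ N / ‖x - y‖ ^ N)
    (fun x => (3 * ρ) ^ N / ρ ^ 2 * (om N ρ ρ (x - y) * ‖x - y‖ ^ 2)) w F _ (ρ / 2) (6 * ρ)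
    (3027600 * 12 ^ N * ρ ^ 4) (3027600 * (1 / 2) ^ N * ρ ^ 4) (by positivity) (by linarith)
    (by positivity) (by positivity) (by fun_prop) (fun x => by positivity)
    (by unfold om; fun_prop)
    (by
      unfold om
      refine continuousOn_const.mul (ContinuousOn.mul (ContinuousOn.div (by fun_prop)
        (by fun_prop) fun x hx => ?_) (by fun_prop))
      exact pow_ne_zero _ (norm_ne_zero_iff.2 (sub_ne_zero.2 hx)))
    (fun x => by unfold om; positivity) (fun v hv h0 => three_carl y hN hρ hv h0) isOpen_ball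
    (fun x _ h2 => mem_ball_zero_iff.2 (by linarith [hn x])) hP
    (fun x h1 h2 => three_bound N hρ (by norm_num) (by linarith) (by linarith))
    (fun x h1 h2 => three_bound N hρ (by norm_num) (by linarith) (by linarith))
  rw [hz w hw, hz F hF, mul_zero, add_zero, mul_zero, add_zero] at h1
  have h2 : Q (sh 0 0 (2 * ρ)) w ≤
      Q (fun x => sh y (ρ / 2) (6 * ρ) x * ((3 * ρ) ^ N / ‖x - y‖ ^ N)) w := by
    refine Q_mono fun x => ?_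
    by_cases h3 : x ∈ Hs ν
    · refine mul_le_mul_of_nonneg_right ?_ (sq_nonneg _)
      by_cases h4 : 0 ≤ ‖x - 0‖ ∧ ‖x - 0‖ ≤ 2 * ρ
      · have h5 := hH x h3
        have h6 := hn' x
        have h7 := h4.2
        rw [sub_zero] at h7
        rw [sh, sh, if_pos h4, if_pos ⟨by linarith, by linarith⟩, one_mul, ← div_pow]
        exact one_le_pow₀ ((one_le_div (by linarith)).2 (by linarith))
      · rw [sh, if_neg h4]
        exact mul_nonneg (sh_nonneg _ _ _ _) (by positivity)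
    · simp [hw x h3]
  have h3 : Q (fun x => sh y (ρ / 2 / 2) (2 * (6 * ρ)) x *
      ((3 * ρ) ^ N / ρ ^ 2 * (om N ρ ρ (x - y) * ‖x - y‖ ^ 2))) F ≤
      ENNReal.ofReal (3027600 * 12 ^ N * ρ ^ 4) * Q (sh 0 0 (30 * ρ)) F := by
    rw [← Q_const_mul (by positivity)]
    refine Q_mono_left F fun x => ?_
    have h4 := hsh (ρ / 2 / 2) (2 * (6 * ρ)) (by linarith) x
    by_cases h5 : ρ / 2 / 2 ≤ ‖x - y‖ ∧ ‖x - y‖ ≤ 2 * (6 * ρ)
    · rw [mul_comm]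
      exact mul_le_mul (three_bound N hρ (by norm_num) (by linarith [h5.1]) (by linarith [h5.2]))
        h4 (sh_nonneg _ _ _ _) (by positivity)
    · rw [sh, if_neg h5, zero_mul]
      exact mul_nonneg (by positivity) (sh_nonneg _ _ _ _)
  have h4 := fun u => Q_mono_left u (hsh (6 * ρ / 2) (4 * (6 * ρ)) (by linarith))
  have h5 : ENNReal.ofReal (C * (3027600 * (1 / 2) ^ N * ρ ^ 4)) *
      ENNReal.ofReal ((6 * ρ) ^ 4)⁻¹ ≤ ENNReal.ofReal ε := by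
    rw [← ENNReal.ofReal_mul (by positivity)]
    refine ENNReal.ofReal_le_ofReal (le_trans ?_ hNε)
    rw [mul_inv_le_iff₀ (by positivity), ← mul_assoc]
    gcongr
    linarith
  refine h2.trans (h1.trans ?_)
  rw [mul_add, ← mul_assoc (ENNReal.ofReal _), add_mul,
    ENNReal.ofReal_add (by positivity) (by positivity), add_mul,
    mul_assoc (3 : ℝ), ENNReal.ofReal_mul (p := 3) (by norm_num), ENNReal.ofReal_ofNat,
    mul_assoc C _ (ρ ^ 4), mul_assoc (3 : ℝ≥0∞) (ENNReal.ofReal _), add_left_comm]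
  exact add_le_add (mul_le_mul' h5 (h4 w))
    (add_le_add (mul_le_mul' le_rfl h3) (mul_le_mul' le_rfl (h4 F)))

end Pool.Agent.MP_71da5e_an

end

section

namespace Pool.Agent.MP_71da5e_an.A

open MeasureTheory Metric Set Laplacian Filter Topology
open scoped ContDiff ENNReal RealInnerProductSpace

variable {n : ℕ}

lemma threep_F {A : ℝ} {q w G : E n → ℂ} (hq : Bd A q) (hG : Measurable G) {P P₁ P₂ : E n → ℝ}
    (m₁ : Measurable P₁) (p₀ : ∀ x, 0 ≤ P x) (h₁ : ∀ x, P x ≤ P₁ x) (h₂ : ∀ x, P x ≤ P₂ x)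
    {t₁ t₂ : ℝ} (n₁ : 0 ≤ t₁) (n₂ : 0 ≤ t₂) (k₁ : Q P₁ G ≤ ENNReal.ofReal t₁)
    (k₂ : Q P₂ w ≤ ENNReal.ofReal t₂) :
    Q P (fun x => G x + q x * w x) ≤ ENNReal.ofReal (2 * t₁ + 2 * A ^ 2 * t₂) := by
  have h : Q P (fun x => G x + q x * w x) ≤
      Q (fun x => 2 * P₁ x) G + Q (fun x => 2 * A ^ 2 * P₂ x) w := by
    refine Q_le_add (by fun_prop) hG fun x => ?_
    have h1 : ‖G x + q x * w x‖ ≤ ‖G x‖ + A * ‖w x‖ := (norm_add_le _ _).trans (by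
      rw [norm_mul]
      exact add_le_add le_rfl (mul_le_mul_of_nonneg_right (hq.2 x) (norm_nonneg _)))
    have h2 : ‖G x + q x * w x‖ ^ 2 ≤ 2 * ‖G x‖ ^ 2 + 2 * A ^ 2 * ‖w x‖ ^ 2 :=
      (pow_le_pow_left₀ (norm_nonneg _) h1 2).trans (by nlinarith [sq_nonneg (‖G x‖ - A * ‖w x‖)])
    have h3 := mul_le_mul_of_nonneg_left h2 (p₀ x)
    have h4 := mul_le_mul_of_nonneg_right (h₁ x) (show 0 ≤ 2 * ‖G x‖ ^ 2 by positivity)
    have h5 := mul_le_mul_of_nonneg_right (h₂ x) (show 0 ≤ 2 * A ^ 2 * ‖w x‖ ^ 2 by positivity)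
    linarith
  rw [Q_const_mul (by norm_num), Q_const_mul (by positivity)] at h
  rw [ENNReal.ofReal_add (by positivity) (by positivity), ENNReal.ofReal_mul (by norm_num),
    ENNReal.ofReal_mul (q := t₂) (by positivity)]
  exact h.trans (add_le_add (mul_le_mul' le_rfl k₁) (mul_le_mul' le_rfl k₂))

lemma threep_fin {X T₁ T₂ T₃ T₄ T₅ : ℝ≥0∞} {t₁ t₂ t₃ t₄ t₅ c₁ c₂ d₁ d₂ : ℝ} (n₁ : 0 ≤ t₁)
    (n₂ : 0 ≤ t₂) (n₃ : 0 ≤ t₃) (n₄ : 0 ≤ t₄) (n₅ : 0 ≤ t₅) (p₁ : 0 ≤ c₁) (p₂ : 0 ≤ c₂)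
    (q₁ : 0 ≤ d₁) (q₂ : 0 ≤ d₂)
    (h : X ≤ 3 * T₁ + ENNReal.ofReal c₁ * (ENNReal.ofReal d₁ * T₂ + T₃) +
      ENNReal.ofReal c₂ * (ENNReal.ofReal d₂ * T₄ + T₅))
    (k₁ : T₁ ≤ ENNReal.ofReal t₁) (k₂ : T₂ ≤ ENNReal.ofReal t₂) (k₃ : T₃ ≤ ENNReal.ofReal t₃)
    (k₄ : T₄ ≤ ENNReal.ofReal t₄) (k₅ : T₅ ≤ ENNReal.ofReal t₅) :
    X ≤ ENNReal.ofReal (3 * t₁ + c₁ * (d₁ * t₂ + t₃) + c₂ * (d₂ * t₄ + t₅)) := by
  rw [ENNReal.ofReal_add (by positivity) (by positivity),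
    ENNReal.ofReal_add (by positivity) (by positivity), ENNReal.ofReal_mul (by norm_num),
    ENNReal.ofReal_mul p₁, ENNReal.ofReal_mul p₂,
    ENNReal.ofReal_add (by positivity) n₃, ENNReal.ofReal_add (by positivity) n₅,
    ENNReal.ofReal_mul q₁, ENNReal.ofReal_mul q₂, ENNReal.ofReal_ofNat]
  refine h.trans ?_
  gcongr

lemma threep_real {t : ℝ≥0∞} (h : t ≠ ⊤) : ∃ s : ℝ, 0 ≤ s ∧ t = ENNReal.ofReal s :=
  ⟨t.toReal, ENNReal.toReal_nonneg, (ENNReal.ofReal_toReal h).symm⟩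

lemma threep_ind {w : E n → ℂ} (hw : WL2 w) (y : E n) (t : ℝ) : Q (ind (ball y t)) w ≠ ⊤ := by
  refine ne_top_of_le_ne_top (Q_sh_ne_top hw y 0 t) (Q_mono_left w fun x => ?_)
  by_cases h : x ∈ ball y t
  · rw [ind_of_mem h, sh, if_pos ⟨norm_nonneg _, (mem_ball_iff_norm.1 h).le⟩]
  · rw [ind_of_notMem h]
    exact sh_nonneg _ _ _ _

lemma threep_sh {y : E n} {s t R : ℝ} (h : t < R) (x : E n) : sh y s t x ≤ ind (ball y R) x := by
  unfold sh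
  split_ifs with h1
  · rw [ind_of_mem (mem_ball_iff_norm.2 (h1.2.trans_lt h))]
  · exact ind_nonneg _ _

/-- The three ball inequality with a bounded potential. -/
theorem three_pot (n : ℕ) (A : ℝ) : ∃ ρ₀ : ℝ, 0 < ρ₀ ∧ ∀ ρ σ η : ℝ, 0 < ρ → ρ ≤ ρ₀ → 0 < σ →
    0 < η → ∃ C : ℝ, ∀ (y : E n) (q w G : E n → ℂ), Bd A q → WL2 G →
      WP (ball y (30 * ρ)) w (fun x => G x + q x * w x) →
      Q (ind (ball y (2 * ρ))) w ≤ ENNReal.ofReal η * Q (ind (ball y (30 * ρ))) w +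
        ENNReal.ofReal C * (Q (ind (ball y (30 * ρ))) G + Q (ind (ball y σ)) w) := by
  obtain ⟨C, hC, h⟩ := ann n
  refine ⟨(12 * A ^ 2 * 3027600 + 1)⁻¹, by positivity, fun ρ σ η hρ hρ₀ hσ hη => ?_⟩
  have hsm : 6 * A ^ 2 * (3027600 * ρ ^ 4) ≤ 1 / 2 := by
    have h1 : ρ * (12 * A ^ 2 * 3027600 + 1) ≤ 1 := by
      rwa [← le_div_iff₀ (by positivity), one_div]
    have h2 : 0 ≤ ρ * A ^ 2 := by positivity
    have h3 : ρ ^ 4 ≤ ρ := pow_le_of_le_one hρ.le (by nlinarith) (by norm_num)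
    have h4 := mul_le_mul_of_nonneg_left h3 (sq_nonneg A)
    nlinarith
  obtain ⟨r, hr, hrρ, hrσ⟩ : ∃ r : ℝ, 0 < r ∧ r ≤ ρ ∧ 4 * r ≤ σ :=
    ⟨min (σ / 4) ρ, by positivity, min_le_right _ _, by linarith [min_le_left (σ / 4) ρ]⟩
  obtain ⟨N, hN, hNη⟩ : ∃ N : ℕ, 7 ≤ N ∧ 2 * (6 * A ^ 2 + C * (((6 * ρ) ^ 4)⁻¹ + 2 * A ^ 2)) *
      (3027600 * (1 / 2) ^ N * ρ ^ 4) ≤ η := by
    have h1 := (((tendsto_pow_atTop_nhds_zero_of_lt_one (r := (1 / 2 : ℝ)) (by norm_num)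
      (by norm_num)).const_mul 3027600).mul_const (ρ ^ 4)).const_mul
      (2 * (6 * A ^ 2 + C * (((6 * ρ) ^ 4)⁻¹ + 2 * A ^ 2)))
    rw [mul_zero, zero_mul, mul_zero] at h1
    exact ((eventually_ge_atTop 7).and (h1.eventually (ge_mem_nhds hη))).exists
  obtain ⟨B₁, hB₁⟩ : ∃ B, B = 3027600 * (6 * ρ / r) ^ N * ρ ^ 4 := ⟨_, rfl⟩
  obtain ⟨B₂, hB₂⟩ : ∃ B, B = 3027600 * (1 / 2 : ℝ) ^ N * ρ ^ 4 := ⟨_, rfl⟩
  have p₁ : 0 ≤ B₁ := by rw [hB₁]; positivity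
  have p₂ : 0 ≤ B₂ := by rw [hB₂]; positivity
  rw [← hB₂] at hNη
  refine ⟨2 * (6 * B₁ + 2 * (C * B₁) + 2 * (C * B₂)) +
    (2 * (6 * A ^ 2 * B₁ + C * B₁ * ((r ^ 4)⁻¹ + 2 * A ^ 2)) + 1), fun y q w G hq hG hP => ?_⟩
  obtain ⟨a, ha⟩ : ∃ a : E n → ℝ, a = fun x => (3 * ρ) ^ N / ‖x - y‖ ^ N := ⟨_, rfl⟩
  obtain ⟨b, hb⟩ : ∃ b : E n → ℝ,
    b = fun x => (3 * ρ) ^ N / ρ ^ 2 * (om N ρ ρ (x - y) * ‖x - y‖ ^ 2) := ⟨_, rfl⟩
  have ma : Measurable a := by rw [ha]; fun_prop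
  have a0 : ∀ x, 0 ≤ a x := fun x => by rw [ha]; positivity
  have b0 : ∀ x, 0 ≤ b x := fun x => by rw [hb]; unfold om; positivity
  have b1 : ∀ x, r / 2 ≤ ‖x - y‖ → ‖x - y‖ ≤ 12 * ρ → b x ≤ B₁ := fun x h1 h2 => by
    rw [hb, hB₁]
    refine three_bound N hρ (by positivity) ?_ h2
    rw [div_mul_eq_mul_div, le_div_iff₀ hr]
    nlinarith
  have b2 : ∀ x, 6 * ρ ≤ ‖x - y‖ → ‖x - y‖ ≤ 12 * ρ → b x ≤ B₂ := fun x h1 h2 => by
    rw [hb, hB₂]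
    exact three_bound N hρ (by norm_num) (by linarith) h2
  have b3 : ∀ x, r ≤ ‖x - y‖ → ‖x - y‖ ≤ 12 * ρ → b x ≤ 3027600 * ρ ^ 4 * a x := fun x h1 h2 => by
    have h3 : 0 < ‖x - y‖ := hr.trans_le h1
    rw [hb, ha]
    refine (three_bound N hρ (θ := 3 * ρ / ‖x - y‖) (by positivity)
      (div_mul_cancel₀ _ h3.ne').ge h2).trans_eq ?_
    rw [div_pow]
    ring
  have h1 := h y a b w _ _ r (6 * ρ) B₁ B₂ hr (by linarith) p₁ p₂ ma a0
    (by rw [hb]; unfold om; fun_prop)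
    (by
      rw [hb]
      unfold om
      refine continuousOn_const.mul (ContinuousOn.mul (ContinuousOn.div (by fun_prop)
        (by fun_prop) fun x hx => ?_) (by fun_prop))
      exact pow_ne_zero _ (norm_ne_zero_iff.2 (sub_ne_zero.2 hx)))
    b0 (fun v hv h0 => by rw [ha, hb]; exact three_carl y hN hρ hv h0) isOpen_ball
    (fun x _ h2 => mem_ball_iff_norm.2 (by linarith)) hP
    (fun x h1 h2 => b1 x h1 (by linarith)) (fun x h1 h2 => b2 x h1 (by linarith))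
  have hX : Q (fun x => sh y r (6 * ρ) x * a x) w ≠ ⊤ := by
    refine ne_top_of_le_ne_top (b := Q (fun x => (3 * ρ) ^ N / r ^ N * sh y r (6 * ρ) x) w) ?_
      (Q_mono_left w fun x => ?_)
    · rw [Q_const_mul (by positivity)]
      exact ENNReal.mul_ne_top ENNReal.ofReal_ne_top (Q_sh_ne_top hP.1 _ _ _)
    · unfold sh
      split_ifs with h2
      · rw [one_mul, mul_one, ha]
        have := h2.1
        dsimp only
        gcongr
      · rw [zero_mul, mul_zero]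
  obtain ⟨X, X0, eX⟩ := threep_real hX
  obtain ⟨W, W0, eW⟩ := threep_real (threep_ind hP.1 y (30 * ρ))
  obtain ⟨g, g0, eg⟩ := threep_real (threep_ind hG y (30 * ρ))
  obtain ⟨s, s0, es⟩ := threep_real (threep_ind hP.1 y σ)
  have mi : ∀ t, Measurable (ind (ball y t)) := fun t => measurable_ind measurableSet_ball
  have k₀ : Q (fun x => sh y (r / 2) (2 * (6 * ρ)) x * b x) w ≤
      ENNReal.ofReal (B₁ * s + B₂ * W + 3027600 * ρ ^ 4 * X) := by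
    rw [ENNReal.ofReal_add (by positivity) (by positivity),
      ENNReal.ofReal_add (by positivity) (by positivity), ENNReal.ofReal_mul p₁,
      ENNReal.ofReal_mul p₂, ENNReal.ofReal_mul (q := X) (by positivity), ← es, ← eW, ← eX]
    refine annQ hP.1.1 (mi _) (mi _) (ind_nonneg _) (ind_nonneg _)
      (fun x => mul_nonneg (sh_nonneg _ _ _ x) (a0 x)) p₁ p₂ (by positivity) fun x => ?_
    have u₁ := mul_nonneg p₁ (ind_nonneg (ball y σ) x)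
    have u₂ := mul_nonneg p₂ (ind_nonneg (ball y (30 * ρ)) x)
    have u₃ : 0 ≤ 3027600 * ρ ^ 4 * (sh y r (6 * ρ) x * a x) :=
      mul_nonneg (by positivity) (mul_nonneg (sh_nonneg _ _ _ x) (a0 x))
    by_cases h2 : r / 2 ≤ ‖x - y‖ ∧ ‖x - y‖ ≤ 2 * (6 * ρ)
    · rw [sh, if_pos h2, one_mul]
      by_cases h3 : ‖x - y‖ < r
      · rw [ind_of_mem (K := ball y σ) (mem_ball_iff_norm.2 (by linarith))]
        linarith [b1 x h2.1 (by linarith)]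
      · by_cases h4 : ‖x - y‖ ≤ 6 * ρ
        · rw [sh, if_pos ⟨not_lt.1 h3, h4⟩, one_mul]
          linarith [b3 x (not_lt.1 h3) (by linarith)]
        · rw [ind_of_mem (K := ball y (30 * ρ)) (mem_ball_iff_norm.2 (by linarith [h2.2]))]
          linarith [b2 x (not_le.1 h4).le (by linarith [h2.2])]
    · rw [sh, if_neg h2, zero_mul]
      linarith
  have k₁ := threep_F (P := fun x => sh y (r / 2) (2 * (6 * ρ)) x * b x)
    (P₁ := fun x => B₁ * ind (ball y (30 * ρ)) x) hq hG.1 ((mi _).const_mul _)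
    (fun x => mul_nonneg (sh_nonneg _ _ _ x) (b0 x)) (fun x => by
      unfold sh
      split_ifs with h2
      · rw [ind_of_mem (mem_ball_iff_norm.2 (by linarith [h2.2])), one_mul, mul_one]
        exact b1 x h2.1 (by linarith [h2.2])
      · rw [zero_mul]
        exact mul_nonneg p₁ (ind_nonneg _ _)) (fun _ => le_rfl) (mul_nonneg p₁ g0)
    (by positivity) (by rw [Q_const_mul p₁, eg, ENNReal.ofReal_mul p₁]) k₀
  have i₁ := threep_sh (y := y) (s := 0) (show 2 * r < σ by linarith)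
  have i₂ := threep_sh (y := y) (s := 0) (show 2 * r < 30 * ρ by linarith)
  have i₃ := threep_sh (y := y) (s := 6 * ρ / 2) (show 4 * (6 * ρ) < 30 * ρ by linarith)
  have h2 := threep_fin (by positivity) s0 (by positivity) W0 (by positivity) (by positivity)
    (by positivity) (by positivity) (by positivity) h1 k₁ ((Q_mono_left w i₁).trans es.le)
    (threep_F hq hG.1 (mi _) (sh_nonneg _ _ _) i₂ i₁ g0 s0 eg.le es.le)
    ((Q_mono_left w i₃).trans eW.le)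
    (threep_F hq hG.1 (mi _) (sh_nonneg _ _ _) i₃ i₃ g0 W0 eg.le eW.le)
  rw [eX, ENNReal.ofReal_le_ofReal_iff (by positivity)] at h2
  have h3 : Q (ind (ball y (2 * ρ))) w ≤
      Q (ind (ball y σ)) w + Q (fun x => sh y r (6 * ρ) x * a x) w := by
    refine Q_le_add (mi _) hP.1.1 fun x => ?_
    rw [← add_mul]
    refine mul_le_mul_of_nonneg_right ?_ (sq_nonneg _)
    have u₁ := ind_nonneg (ball y σ) x
    have u₂ := mul_nonneg (sh_nonneg y r (6 * ρ) x) (a0 x)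
    by_cases h4 : x ∈ ball y (2 * ρ)
    · rw [ind_of_mem h4]
      have h5 := mem_ball_iff_norm.1 h4
      by_cases h6 : ‖x - y‖ < r
      · rw [ind_of_mem (mem_ball_iff_norm.2 (by linarith))]
        linarith
      · have h7 : 1 ≤ a x := by
          rw [ha]
          dsimp only
          rw [← div_pow]
          exact one_le_pow₀ ((one_le_div (by linarith)).2 (by linarith))
        rw [sh, if_pos ⟨not_lt.1 h6, by linarith⟩]
        linarith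
    · rw [ind_of_notMem h4]
      linarith
  refine h3.trans ?_
  rw [es, eX, eW, eg, ← ENNReal.ofReal_add s0 X0, ← ENNReal.ofReal_add g0 s0,
    ← ENNReal.ofReal_mul hη.le, ← ENNReal.ofReal_mul (by positivity),
    ← ENNReal.ofReal_add (by positivity) (by positivity)]
  refine ENNReal.ofReal_le_ofReal ?_
  have v₁ := mul_le_mul_of_nonneg_right hsm X0
  have v₂ := mul_le_mul_of_nonneg_right hNη W0
  have v₃ : 0 ≤ 2 * (6 * B₁ + 2 * (C * B₁) + 2 * (C * B₂)) * s := by positivity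
  have v₄ : 0 ≤ (2 * (6 * A ^ 2 * B₁ + C * B₁ * ((r ^ 4)⁻¹ + 2 * A ^ 2)) + 1) * g := by positivity
  linarith

end Pool.Agent.MP_71da5e_an.A

end

section

namespace Pool.Agent.MP_71da5e_an.A

open MeasureTheory Metric Set Laplacian Filter Topology
open scoped ContDiff ENNReal RealInnerProductSpace

variable {n : ℕ}

/-- The estimate for the set `S`. -/
def chain_Sm (U : Set (E n)) (y₀ : E n) (s A : ℝ) (S : Set (E n)) : Prop :=
  ∀ η : NNReal, 0 < η → ∃ C : NNReal, ∀ q w G : E n → ℂ, Bd A q → WL2 G →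
    WP U w (fun x => G x + q x * w x) →
    Q (ind S) w ≤ η * Q (ind U) w + C * (Q (ind U) G + Q (ind (ball y₀ s)) w)

section
variable {U S T : Set (E n)} {y₀ : E n} {s A : ℝ}

lemma chain_mono (h : S ⊆ T) (hT : chain_Sm U y₀ s A T) : chain_Sm U y₀ s A S := fun η hη =>
  (hT η hη).imp fun _ hC q w G h1 h2 h3 => (Q_ind_mono h w).trans (hC q w G h1 h2 h3)

lemma chain_base : chain_Sm U y₀ s A (ball y₀ s) := fun η _ =>
  ⟨1, fun q w G _ _ _ => by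
    rw [ENNReal.coe_one, one_mul]
    exact le_add_left le_add_self⟩

lemma chain_union (hm : MeasurableSet S) (hS : chain_Sm U y₀ s A S) (hT : chain_Sm U y₀ s A T) :
    chain_Sm U y₀ s A (S ∪ T) := by
  intro η hη
  obtain ⟨C, hC⟩ := hS (η / 2) (by positivity)
  obtain ⟨C', hC'⟩ := hT (η / 2) (by positivity)
  refine ⟨C + C', fun q w G h1 h2 h3 => ?_⟩
  have h4 : Q (ind (S ∪ T)) w ≤ Q (ind S) w + Q (ind T) w := by
    refine Q_le_add (measurable_ind hm) h3.1.1 fun x => ?_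
    rw [← add_mul]
    refine mul_le_mul_of_nonneg_right ?_ (sq_nonneg _)
    by_cases hx : x ∈ S ∪ T
    · rcases hx with hx | hx
      · rw [ind_of_mem hx]
        exact (ind_le_one _ x).trans (le_add_of_nonneg_right (ind_nonneg _ x))
      · rw [ind_of_mem hx]
        exact (ind_le_one _ x).trans (le_add_of_nonneg_left (ind_nonneg _ x))
    · rw [ind_of_notMem hx]
      exact add_nonneg (ind_nonneg _ x) (ind_nonneg _ x)
  refine (h4.trans (add_le_add (hC q w G h1 h2 h3) (hC' q w G h1 h2 h3))).trans_eq ?_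
  conv_rhs => rw [← add_halves η]
  rw [ENNReal.coe_add, ENNReal.coe_add]
  ring

lemma chain_step : ∃ ρ₀ : ℝ, 0 < ρ₀ ∧ ∀ (ρ σ : ℝ) (y : E n), 0 < ρ → ρ ≤ ρ₀ → 0 < σ →
    ball y (30 * ρ) ⊆ U → chain_Sm U y₀ s A (ball y σ) → chain_Sm U y₀ s A (ball y (2 * ρ)) := by
  obtain ⟨ρ₀, h0, h⟩ := three_pot n A
  refine ⟨ρ₀, h0, fun ρ σ y hρ hρ' hσ hU hS η hη => ?_⟩
  obtain ⟨C, hC⟩ := h ρ σ (η / 2 : NNReal) hρ hρ' hσ (by positivity)
  obtain ⟨D, hD⟩ : ∃ D : NNReal, ENNReal.ofReal C = D := ⟨_, rfl⟩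
  obtain ⟨C', hC'⟩ := hS (η / 2 / (D + 1)) (by positivity)
  refine ⟨D + D * C', fun q w G h1 h2 h3 => ?_⟩
  have h4 := hC y q w G h1 h2 (WP.mono' h3 hU)
  rw [ENNReal.ofReal_coe_nnreal, hD] at h4
  have h5 : D * (η / 2 / (D + 1)) ≤ η / 2 := by
    rw [mul_comm, div_mul_eq_mul_div, div_le_iff₀ (by positivity)]
    gcongr
    exact le_self_add
  have h6 : (D : ℝ≥0∞) * (η / 2 / (D + 1) : NNReal) ≤ (η / 2 : NNReal) := by exact_mod_cast h5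
  have h7 := hC' q w G h1 h2 h3
  have h8 := Q_ind_mono hU w
  have h9 := Q_ind_mono hU G
  generalize Q (ind U) w = a at *
  generalize Q (ind U) G = g at *
  generalize Q (ind (ball y₀ s)) w = b at *
  calc _ ≤ _ := h4
    _ ≤ (η / 2 : NNReal) * a + D * ((g + b) + ((η / 2 / (D + 1) : NNReal) * a + C' * (g + b))) := by
      gcongr
      exact h9.trans le_self_add
    _ = (η / 2 : NNReal) * a + D * (η / 2 / (D + 1) : NNReal) * a + (D + D * C') * (g + b) := by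
      ring
    _ ≤ (η / 2 : NNReal) * a + (η / 2 : NNReal) * a + (D + D * C') * (g + b) := by gcongr
    _ = _ := by
      rw [← add_mul, ← ENNReal.coe_add, add_halves]
      push_cast
      rfl

lemma chain_all (hU : IsOpen U) (hc : IsPreconnected U) (hy : y₀ ∈ U) (hs : 0 < s) :
    U ⊆ {y | ∃ σ > 0, chain_Sm U y₀ s A (ball y σ)} := by
  refine hc.subset_of_closure_inter_subset ?_ ⟨y₀, hy, s, hs, chain_base⟩ ?_
  · refine Metric.isOpen_iff.2 ?_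
    rintro y ⟨σ, hσ, h⟩
    refine ⟨σ / 2, by positivity, fun y' hy' => ⟨σ / 2, by positivity, chain_mono ?_ h⟩⟩
    exact ball_subset_ball' (by have := mem_ball.1 hy'; linarith)
  · rintro y ⟨h1, h2⟩
    obtain ⟨ρ₀, h0, h⟩ := chain_step (U := U) (y₀ := y₀) (s := s) (A := A)
    obtain ⟨r, hr, hrU⟩ := Metric.isOpen_iff.1 hU y h2
    obtain ⟨ρ, hρ, hρ₀, hρr⟩ : ∃ ρ, 0 < ρ ∧ ρ ≤ ρ₀ ∧ ρ ≤ r / 31 :=
      ⟨min ρ₀ (r / 31), by positivity, min_le_left _ _, min_le_right _ _⟩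
    obtain ⟨y', ⟨σ, hσ, hy'⟩, hd⟩ := Metric.mem_closure_iff.1 h1 ρ hρ
    refine ⟨ρ, hρ, chain_mono ?_ (h ρ σ y' hρ hρ₀ hσ (Subset.trans ?_ hrU) hy')⟩
    · exact ball_subset_ball' (by linarith)
    · exact ball_subset_ball' (by rw [dist_comm]; linarith)

lemma chain_cpt (hU : IsOpen U) (hc : IsPreconnected U) (hy : y₀ ∈ U) (hs : 0 < s)
    (hK : IsCompact S) (hKU : S ⊆ U) : chain_Sm U y₀ s A S := by
  have h : ∃ T, MeasurableSet T ∧ S ⊆ T ∧ chain_Sm U y₀ s A T := by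
    refine hK.induction_on (p := fun S => ∃ T, MeasurableSet T ∧ S ⊆ T ∧ chain_Sm U y₀ s A T)
      ⟨_, measurableSet_ball, empty_subset _, chain_base⟩ ?_ ?_ ?_
    · rintro S S' h ⟨T, h1, h2, h3⟩
      exact ⟨T, h1, h.trans h2, h3⟩
    · rintro S S' ⟨T, h1, h2, h3⟩ ⟨T', h1', h2', h3'⟩
      exact ⟨T ∪ T', h1.union h1', union_subset_union h2 h2', chain_union h1 h3 h3'⟩
    · intro y hy'
      obtain ⟨σ, hσ, h⟩ := chain_all (A := A) hU hc hy hs (hKU hy')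
      exact ⟨ball y σ, mem_nhdsWithin_of_mem_nhds (ball_mem_nhds y hσ), _, measurableSet_ball,
        Subset.rfl, h⟩
  obtain ⟨T, -, h1, h2⟩ := h
  exact chain_mono h1 h2

end

lemma chain_Q_zero {S : Set (E n)} {w : E n → ℂ} (h : ∀ᵐ x, x ∈ S → w x = 0) :
    Q (ind S) w = 0 := by
  refine (lintegral_congr_ae (h.mono fun x hx => ?_)).trans lintegral_zero
  by_cases hS : x ∈ S
  · simp [hx hS]
  · simp [ind_of_notMem hS]

/-- Propagation of smallness in a connected open set. -/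
theorem chain {U K : Set (E n)} (hU : IsOpen U) (hc : IsPreconnected U) (hK : IsCompact K)
    (hKU : K ⊆ U) {y₀ : E n} (hy : y₀ ∈ U) {s : ℝ} (hs : 0 < s) (A : ℝ) {η : ℝ} (hη : 0 < η) :
    ∃ C : ℝ, ∀ q w G : E n → ℂ, Bd A q → WL2 G → WP U w (fun x => G x + q x * w x) →
      Q (ind K) w ≤ ENNReal.ofReal η * Q (ind U) w +
        ENNReal.ofReal C * (Q (ind U) G + Q (ind (ball y₀ s)) w) := by
  obtain ⟨C, hC⟩ := chain_cpt (A := A) hU hc hy hs hK hKU η.toNNReal (Real.toNNReal_pos.2 hη)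
  refine ⟨C, fun q w G h1 h2 h3 => ?_⟩
  rw [ENNReal.ofReal_coe_nnreal]
  exact hC q w G h1 h2 h3

/-- Unique continuation. -/
theorem ucp {U : Set (E n)} (hU : IsOpen U) (hc : IsPreconnected U) {y₀ : E n} (hy : y₀ ∈ U)
    {s : ℝ} (hs : 0 < s) {A : ℝ} {q w G : E n → ℂ} (hq : Bd A q) (hG : WL2 G)
    (h : WP U w fun x => G x + q x * w x) (hfin : N2 w ≠ ⊤) (hG0 : ∀ᵐ x, x ∈ U → G x = 0)
    (h0 : ∀ᵐ x, x ∈ ball y₀ s → w x = 0) : ∀ᵐ x, x ∈ U → w x = 0 := by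
  have key : ∀ K, IsCompact K → K ⊆ U → ∀ᵐ x, x ∈ K → w x = 0 := by
    intro K hK hKU
    have h1 : ∀ η : NNReal, 0 < η → Q (ind K) w ≤ η * N2 w := fun η hη => by
      obtain ⟨C, hC⟩ := chain_cpt (A := A) hU hc hy hs hK hKU η hη
      have h2 := hC q w G hq hG h
      rw [chain_Q_zero hG0, chain_Q_zero h0, add_zero, mul_zero, add_zero] at h2
      exact h2.trans (mul_le_mul_right (Q_ind_le U w) _)
    have h2 : Q (ind K) w = 0 := by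
      obtain ⟨M, hM⟩ : ∃ M : NNReal, N2 w = M := ⟨_, (ENNReal.coe_toNNReal hfin).symm⟩
      refine le_antisymm (ENNReal.le_of_forall_pos_le_add fun e he _ => ?_) zero_le
      refine (h1 (e / (M + 1)) (by positivity)).trans ?_
      rw [hM, zero_add, ← ENNReal.coe_mul, ENNReal.coe_le_coe, div_mul_eq_mul_div,
        div_le_iff₀ (by positivity)]
      gcongr
      exact le_self_add
    have hw := h.1.1
    have hm := measurable_ind hK.measurableSet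
    have h3 := (lintegral_eq_zero_iff (by fun_prop)).1 h2
    filter_upwards [h3] with x hx hxK
    simpa [ind_of_mem hxK] using hx
  refine measure_null_of_locally_null _ fun y hy' => ?_
  have hyU : y ∈ U := by
    by_contra hn
    exact hy' fun h' => absurd h' hn
  obtain ⟨K, hK, hyK, hKU⟩ := exists_compact_subset hU hyU
  refine ⟨_, inter_mem_nhdsWithin _ (mem_interior_iff_mem_nhds.1 hyK),
    measure_mono_null ?_ (key K hK hKU)⟩
  rintro x ⟨h1, h2⟩ h3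
  exact h1 fun _ => h3 h2

end Pool.Agent.MP_71da5e_an.A

end
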