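import Pool.Agent.Mg.F71da5ea.Ge9e9cd
import Pool.Agent.Mg.F71da5ea.G614156
import Pool.Agent.Mg.F71da5ea.G17b4dd

section

namespace Pool.Agent.MP_71da5e_an

open MeasureTheory Metric Set Laplacian Filter Topology
open scoped ContDiff ENNReal RealInnerProductSpace

variable {n : ℕ}

theorem norm_inv_sub (c : E n) (R : ℝ) (x : E n) : ‖inv c R x - c‖ = R ^ 2 / ‖x - c‖ := by
  rw [inv, add_sub_cancel_left, norm_smul, Real.norm_of_nonneg (by positivity)]
  by_cases h : ‖x - c‖ = 0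
  · simp [h]
  · field_simp

theorem inv_ne {c : E n} {R : ℝ} (hR : 0 < R) {x : E n} (hx : x ≠ c) : inv c R x ≠ c := by
  have : 0 < ‖x - c‖ := norm_pos_iff.2 (sub_ne_zero.2 hx)
  rw [← sub_ne_zero, ← norm_pos_iff, norm_inv_sub]
  positivity

theorem jac_inv (c : E n) {R : ℝ} (hR : 0 < R) (x : E n) : jac c R (inv c R x) = (jac c R x)⁻¹ := by
  rw [jac, norm_inv_sub, jac]
  by_cases h : ‖x - c‖ = 0
  · simp [h]
  · field_simp

theorem jac_pos {c : E n} {R : ℝ} (hR : 0 < R) {x : E n} (hx : x ≠ c) : 0 < jac c R x := by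
  have : 0 < ‖x - c‖ := norm_pos_iff.2 (sub_ne_zero.2 hx)
  unfold jac
  positivity

theorem inv_inv' (c : E n) {R : ℝ} (hR : 0 < R) (x : E n) : inv c R (inv c R x) = x := by
  by_cases hx : x = c
  · simp [hx, inv]
  · have h1 : inv c R (inv c R x) = c + jac c R (inv c R x) • jac c R x • (x - c) := by
      simp only [inv, jac, add_sub_cancel_left]
    rw [h1, jac_inv c hR, smul_smul, inv_mul_cancel₀ (jac_pos hR hx).ne', one_smul, add_sub_cancel]

theorem kel_kel {c : E n} {R : ℝ} (hR : 0 < R) (f : E n → ℂ) {x : E n} (hx : x ≠ c) :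
    kel c R (kel c R f) x = f x := by
  have : 0 < ‖x - c‖ := norm_pos_iff.2 (sub_ne_zero.2 hx)
  rw [kel, kel, inv_inv' c hR, norm_inv_sub, ← mul_assoc, ← Complex.ofReal_mul, ← mul_pow,
    show R / ‖x - c‖ * (R / (R ^ 2 / ‖x - c‖)) = 1 by field_simp]
  simp

theorem kq_kq {c : E n} {R : ℝ} (hR : 0 < R) (q : E n → ℂ) {x : E n} (hx : x ≠ c) :
    kq c R (kq c R q) x = q x := by
  rw [kq, kq, inv_inv' c hR, jac_inv c hR, ← mul_assoc, ← Complex.ofReal_mul, ← mul_pow,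
    mul_inv_cancel₀ (jac_pos hR hx).ne']
  simp

theorem kel_center (hn : 3 ≤ n) (c : E n) (R : ℝ) (f : E n → ℂ) : kel c R f c = 0 := by
  simp [kel, show n - 2 ≠ 0 by omega]

theorem contDiffAt_inv' {c : E n} (R : ℝ) {x : E n} (hx : x ≠ c) : ContDiffAt ℝ ∞ (inv c R) x := by
  have h : ContDiffAt ℝ ∞ (fun y : E n => y - c) x := contDiffAt_id.sub contDiffAt_const
  exact contDiffAt_const.add ((contDiffAt_const.div (h.norm_sq ℝ)
    (pow_ne_zero 2 (norm_ne_zero_iff.2 (sub_ne_zero.2 hx)))).smul h)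

theorem contDiffAt_kel {c : E n} (R : ℝ) {f : E n → ℂ} {x : E n} (hx : x ≠ c)
    (hf : ContDiffAt ℝ ∞ f (inv c R x)) : ContDiffAt ℝ ∞ (kel c R f) x := by
  have h : ContDiffAt ℝ ∞ (fun y : E n => y - c) x := contDiffAt_id.sub contDiffAt_const
  have h1 : ContDiffAt ℝ ∞ (fun y : E n => (R / ‖y - c‖) ^ (n - 2)) x :=
    (contDiffAt_const.div (h.norm ℝ (sub_ne_zero.2 hx))
      (norm_ne_zero_iff.2 (sub_ne_zero.2 hx))).pow _
  exact (Complex.ofRealCLM.contDiff.contDiffAt.comp x h1).mul (hf.comp x (contDiffAt_inv' R hx))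

theorem notMem_tsupport_kel (hn : 3 ≤ n) (c : E n) {R : ℝ} (hR : 0 < R) {f : E n → ℂ}
    (hf : HasCompactSupport f) : c ∉ tsupport (kel c R f) := by
  obtain ⟨S, hS0, hS⟩ := hf.isBounded.subset_ball_lt 0 c
  rw [notMem_tsupport_iff_eventuallyEq]
  filter_upwards [ball_mem_nhds c (show 0 < R ^ 2 / S by positivity)] with x hx
  by_cases hxc : x = c
  · rw [hxc, kel_center hn]; rfl
  · have h0 : 0 < ‖x - c‖ := norm_pos_iff.2 (sub_ne_zero.2 hxc)
    rw [mem_ball_iff_norm, lt_div_iff₀ hS0] at hx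
    have : inv c R x ∉ tsupport f := fun h => by
      have := mem_ball_iff_norm.1 (hS h)
      rw [norm_inv_sub, div_lt_iff₀ h0] at this
      linarith
    simp [kel, image_eq_zero_of_notMem_tsupport this]

theorem contDiff_kel (hn : 3 ≤ n) (c : E n) {R : ℝ} (hR : 0 < R) {f : E n → ℂ} (hf : Tst f) :
    ContDiff ℝ ∞ (kel c R f) := by
  refine contDiff_iff_contDiffAt.2 fun x => ?_
  by_cases hx : x = c
  · subst hx
    exact contDiffAt_const.congr_of_eventuallyEq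
      (notMem_tsupport_iff_eventuallyEq.1 (notMem_tsupport_kel hn x hR hf.2))
  · exact contDiffAt_kel R hx hf.1.contDiffAt

theorem inv_mem_tsupport (hn : 3 ≤ n) (c : E n) {R : ℝ} (hR : 0 < R) {f : E n → ℂ}
    (hf : HasCompactSupport f) {x : E n} (hx : x ∈ tsupport (kel c R f)) :
    inv c R x ∈ tsupport f := by
  have hxc : x ≠ c := by rintro rfl; exact notMem_tsupport_kel hn x hR hf hx
  by_contra h
  refine notMem_tsupport_iff_eventuallyEq.2 ?_ hx
  filter_upwards [(contDiffAt_inv' R hxc).continuousAt.eventually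
    (notMem_tsupport_iff_eventuallyEq.1 h)] with y hy
  simp [kel, hy]

theorem Tst.kel (hn : 3 ≤ n) {c : E n} {R : ℝ} (hR : 0 < R) {f : E n → ℂ} (hf : Tst f)
    (hc : c ∉ tsupport f) : Tst (kel c R f) := by
  refine ⟨contDiff_kel hn c hR hf, ?_⟩
  obtain ⟨δ, hδ, h⟩ := Metric.isOpen_iff.1 (isClosed_tsupport f).isOpen_compl c hc
  refine (isCompact_closedBall c (R ^ 2 / δ)).of_isClosed_subset (isClosed_tsupport _)
    fun x hx => ?_
  have h1 := inv_mem_tsupport hn c hR hf.2 hx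
  have h2 : δ ≤ ‖inv c R x - c‖ := not_lt.1 fun h3 => h (mem_ball_iff_norm.2 h3) h1
  have hxc : x ≠ c := by rintro rfl; exact notMem_tsupport_kel hn x hR hf.2 hx
  have h0 : 0 < ‖x - c‖ := norm_pos_iff.2 (sub_ne_zero.2 hxc)
  rw [norm_inv_sub, le_div_iff₀ h0] at h2
  rw [mem_closedBall_iff_norm, le_div_iff₀ hδ]
  linarith

theorem inner_inv_zero (ν x : E n) : ⟪inv 0 1 x, ν⟫ = ⟪x, ν⟫ / ‖x‖ ^ 2 := by
  simp only [inv, sub_zero, zero_add, real_inner_smul_left]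
  ring

theorem norm_inv_zero (x : E n) : ‖inv 0 1 x‖ = ‖x‖⁻¹ := by
  simpa using norm_inv_sub 0 1 x

theorem jac_sq_mul_wt {x : E n} (hx : x ≠ 0) : jac 0 1 x ^ 2 * wt (inv 0 1 x) = wt x := by
  have : 0 < ‖x‖ := norm_pos_iff.2 hx
  simp only [jac, wt, norm_inv_zero, sub_zero]
  field_simp
  ring

theorem Dec.kq {A : ℝ} {q : E n → ℂ} (h : Dec A q) : Dec A (kq 0 1 q) := by
  refine ⟨(Complex.measurable_ofReal.comp ((measurable_jac 0 1).pow_const 2)).mul
    (h.1.comp (measurable_inv' 0 1)), fun x => ?_⟩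
  unfold MP_71da5e_an.kq
  rw [norm_mul, Complex.norm_real, Real.norm_of_nonneg (sq_nonneg _)]
  by_cases hx : x = 0
  · simpa [hx, jac] using mul_nonneg h.nonneg (wt_pos (0 : E n)).le
  · rw [← jac_sq_mul_wt hx, mul_left_comm]
    exact mul_le_mul_of_nonneg_left (h.2 _) (sq_nonneg _)

/-- The inversion with centre `p` on the unit sphere and radius `√2`. -/
theorem one_sub_norm_inv {p : E n} (hp : ‖p‖ = 1) {x : E n} (hx : x ≠ p) :
    1 - ‖inv p √2 x‖ ^ 2 = 2 * jac p √2 x * ⟪x, -p⟫ := by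
  have h0 : 0 < ‖x - p‖ := norm_pos_iff.2 (sub_ne_zero.2 hx)
  rw [inv, jac, norm_add_sq_real, norm_smul, real_inner_smul_right, inner_sub_right,
    real_inner_self_eq_norm_sq, hp, inner_neg_right, real_inner_comm, Real.sq_sqrt zero_le_two,
    Real.norm_of_nonneg (by positivity)]
  field_simp
  ring

end Pool.Agent.MP_71da5e_an

end

section

namespace Pool.Agent.MP_71da5e_an

open MeasureTheory Metric Set Laplacian Filter Topology
open scoped ContDiff ENNReal RealInnerProductSpace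

variable {n : ℕ}

lemma kelL_norm {c x : E n} (hx : x ≠ c) :
    HasFDerivAt (fun y : E n => ‖y - c‖) (‖x - c‖⁻¹ • innerSL ℝ (x - c)) x := by
  have hr : ‖x - c‖ ≠ 0 := norm_ne_zero_iff.2 (sub_ne_zero.2 hx)
  have h1 := ((hasFDerivAt_id x).sub_const c).norm_sq
  have h2 := h1.sqrt (pow_ne_zero 2 hr)
  simp only [id, Real.sqrt_sq (norm_nonneg _)] at h2
  refine h2.congr_fderiv (ContinuousLinearMap.ext fun v => ?_)
  simp only [ContinuousLinearMap.smul_apply, ContinuousLinearMap.comp_id, smul_eq_mul, nsmul_eq_mul,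
    Nat.cast_ofNat]
  field_simp

lemma kelL_rad {c x : E n} (hx : x ≠ c) {h : ℝ → ℝ} {h' : ℝ} (hh : HasDerivAt h h' ‖x - c‖) :
    HasFDerivAt (fun y : E n => h ‖y - c‖) ((h' / ‖x - c‖) • innerSL ℝ (x - c)) x := by
  refine (hh.comp_hasFDerivAt x (kelL_norm hx)).congr_fderiv ?_
  rw [smul_smul, div_eq_mul_inv]

lemma kelL_lin (c x e : E n) : HasFDerivAt (fun y : E n => ⟪y - c, e⟫) (innerSL ℝ e) x := by
  have h : (fun y : E n => ⟪y - c, e⟫) = fun y => innerSL ℝ e (y - c) :=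
    funext fun y => real_inner_comm _ _
  rw [h]
  exact (innerSL ℝ e).hasFDerivAt.comp x ((hasFDerivAt_id x).sub_const c)

lemma kelL_d1 (R : ℝ) (p : ℕ) {t : ℝ} (ht : t ≠ 0) :
    HasDerivAt (fun t : ℝ => (R / t) ^ (p + 1)) (-(p + 1) * (R / t) ^ (p + 1) / t) t := by
  have := ((hasDerivAt_const t R).fun_div (hasDerivAt_id' t) ht).fun_pow (p + 1)
  refine this.congr_deriv ?_
  simp only [Nat.add_sub_cancel, pow_succ]
  push_cast
  field_simp
  ring

lemma kelL_d2 (R : ℝ) (p : ℕ) {t : ℝ} (ht : t ≠ 0) :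
    HasDerivAt (fun t : ℝ => -(p + 1) * (R / t) ^ (p + 1) / t / t)
      ((p + 1) * (p + 3) * (R / t) ^ (p + 1) / t ^ 3) t := by
  have := ((((kelL_d1 R p ht).const_mul (-((p : ℝ) + 1))).fun_div (hasDerivAt_id' t) ht).fun_div
    (hasDerivAt_id' t) ht)
  simp only [← mul_div_assoc] at this
  refine this.congr_deriv ?_
  field_simp
  ring

lemma kelL_d3 (R : ℝ) {t : ℝ} (ht : t ≠ 0) :
    HasDerivAt (fun t : ℝ => R ^ 2 / t ^ 2) (-2 * R ^ 2 / t ^ 3) t := by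
  have := (hasDerivAt_const t (R ^ 2)).fun_div ((hasDerivAt_id' t).fun_pow 2) (pow_ne_zero 2 ht)
  refine this.congr_deriv ?_
  field_simp
  ring

lemma kelL_d4 (R : ℝ) {t : ℝ} (ht : t ≠ 0) :
    HasDerivAt (fun t : ℝ => -2 * R ^ 2 / t ^ 3 / t) (8 * R ^ 2 / t ^ 5) t := by
  have := ((hasDerivAt_const t (-2 * R ^ 2)).fun_div ((hasDerivAt_id' t).fun_pow 3)
    (pow_ne_zero 3 ht)).fun_div (hasDerivAt_id' t) ht
  refine this.congr_deriv ?_
  field_simp
  ring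

lemma kelL_sum_sq (u : E n) : ∑ i, ⟪u, ev i⟫ * ⟪u, ev i⟫ = ‖u‖ ^ 2 := by
  simp only [inner_ev]
  rw [EuclideanSpace.real_norm_sq_eq]
  exact Finset.sum_congr rfl fun i _ => (sq _).symm

lemma kelL_ev_ev (i : Fin n) : ⟪(ev i : E n), ev i⟫ = 1 := by
  rw [inner_ev]; simp [ev]

lemma kelL_sum_smul (u : E n) : ∑ i, ⟪u, ev i⟫ • ev i = u := by
  simp only [inner_ev]; exact sum_coord_smul_ev u

/-- The Newton kernel is harmonic. -/
lemma kelL_harm {p : ℕ} {c x : E (p + 3)} (R : ℝ) (hx : x ≠ c)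
    (hm : ContDiffAt ℝ 2 (fun y : E (p + 3) => (R / ‖y - c‖) ^ (p + 1)) x) :
    Δ (fun y : E (p + 3) => (R / ‖y - c‖) ^ (p + 1)) x = 0 := by
  have hr : ‖x - c‖ ≠ 0 := norm_ne_zero_iff.2 (sub_ne_zero.2 hx)
  rw [lap_eq hm]
  have key : ∀ i, fderiv ℝ (fun y => fderiv ℝ (fun y : E (p + 3) => (R / ‖y - c‖) ^ (p + 1)) y
      (ev i)) x (ev i) = -(p + 1) * (R / ‖x - c‖) ^ (p + 1) / ‖x - c‖ / ‖x - c‖ +
        (p + 1) * (p + 3) * (R / ‖x - c‖) ^ (p + 1) / ‖x - c‖ ^ 3 / ‖x - c‖ *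
          (⟪x - c, ev i⟫ * ⟪x - c, ev i⟫) := by
    intro i
    have e : (fun y => fderiv ℝ (fun y : E (p + 3) => (R / ‖y - c‖) ^ (p + 1)) y (ev i)) =ᶠ[𝓝 x]
        fun y => -(p + 1) * (R / ‖y - c‖) ^ (p + 1) / ‖y - c‖ / ‖y - c‖ * ⟪y - c, ev i⟫ := by
      filter_upwards [isOpen_ne.mem_nhds hx] with y hy
      have hy' : ‖y - c‖ ≠ 0 := norm_ne_zero_iff.2 (sub_ne_zero.2 hy)
      rw [(kelL_rad hy (kelL_d1 R p hy')).fderiv]
      simp only [ContinuousLinearMap.smul_apply, innerSL_apply_apply, smul_eq_mul]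
    rw [e.fderiv_eq, ((kelL_rad hx (kelL_d2 R p hr)).fun_mul (kelL_lin c x (ev i))).fderiv]
    simp only [ContinuousLinearMap.add_apply, ContinuousLinearMap.smul_apply, innerSL_apply_apply,
      smul_eq_mul, kelL_ev_ev]
    ring
  simp only [key]
  rw [Finset.sum_add_distrib, ← Finset.mul_sum, kelL_sum_sq, Finset.sum_const, Finset.card_univ,
    Fintype.card_fin, nsmul_eq_mul]
  push_cast
  field_simp
  ring

/-- The derivative of the inversion. -/
noncomputable def kelLA (c : E n) (R : ℝ) (x : E n) : E n →L[ℝ] E n :=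
  (R ^ 2 / ‖x - c‖ ^ 2) • ContinuousLinearMap.id ℝ (E n) +
    ((-2 * R ^ 2 / ‖x - c‖ ^ 3 / ‖x - c‖) • innerSL ℝ (x - c)).smulRight (x - c)

lemma kelLA_apply (c : E n) (R : ℝ) (x v : E n) : kelLA c R x v = (R ^ 2 / ‖x - c‖ ^ 2) • v +
    (-2 * R ^ 2 / ‖x - c‖ ^ 3 / ‖x - c‖ * ⟪x - c, v⟫) • (x - c) := by
  simp only [kelLA, ContinuousLinearMap.add_apply, ContinuousLinearMap.smul_apply,
    ContinuousLinearMap.id_apply, ContinuousLinearMap.smulRight_apply, innerSL_apply_apply,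
    smul_eq_mul]

lemma kelL_inv {c x : E n} (R : ℝ) (hx : x ≠ c) : HasFDerivAt (inv c R) (kelLA c R x) x := by
  have hr : ‖x - c‖ ≠ 0 := norm_ne_zero_iff.2 (sub_ne_zero.2 hx)
  exact ((kelL_rad hx (kelL_d3 R hr)).fun_smul ((hasFDerivAt_id x).sub_const c)).const_add c

lemma kelL_dA {c x : E n} (R : ℝ) (hx : x ≠ c) (e : E n) :
    ∃ L : E n →L[ℝ] E n, HasFDerivAt (fun y => kelLA c R y e) L x ∧
      L e = (2 * (-2 * R ^ 2 / ‖x - c‖ ^ 3 / ‖x - c‖)) • (⟪x - c, e⟫ • e) +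
        (-2 * R ^ 2 / ‖x - c‖ ^ 3 / ‖x - c‖ * ⟪e, e⟫ +
          8 * R ^ 2 / ‖x - c‖ ^ 5 / ‖x - c‖ * (⟪x - c, e⟫ * ⟪x - c, e⟫)) • (x - c) := by
  have hr : ‖x - c‖ ≠ 0 := norm_ne_zero_iff.2 (sub_ne_zero.2 hx)
  simp only [kelLA_apply]
  refine ⟨_, ((kelL_rad hx (kelL_d3 R hr)).smul_const e).fun_add
    (((kelL_rad hx (kelL_d4 R hr)).fun_mul (kelL_lin c x e)).fun_smul
      ((hasFDerivAt_id x).sub_const c)), ?_⟩
  simp only [ContinuousLinearMap.add_apply, ContinuousLinearMap.smul_apply,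
    ContinuousLinearMap.id_apply, ContinuousLinearMap.smulRight_apply, innerSL_apply_apply,
    smul_eq_mul, id]
  module

lemma kelL_bil (B : E n →L[ℝ] E n →L[ℝ] ℂ) {u : E n} (hu : ‖u‖ ≠ 0) (R : ℝ) :
    ∑ i, B ((R ^ 2 / ‖u‖ ^ 2) • ev i + (-2 * R ^ 2 / ‖u‖ ^ 3 / ‖u‖ * ⟪u, ev i⟫) • u)
      ((R ^ 2 / ‖u‖ ^ 2) • ev i + (-2 * R ^ 2 / ‖u‖ ^ 3 / ‖u‖ * ⟪u, ev i⟫) • u) =
      ((R ^ 2 / ‖u‖ ^ 2) ^ 2 : ℝ) • ∑ i, B (ev i) (ev i) := by
  set J := R ^ 2 / ‖u‖ ^ 2 with hJ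
  set b := -2 * R ^ 2 / ‖u‖ ^ 3 / ‖u‖ with hb
  have h1 : ∑ i, ⟪u, ev i⟫ • B (ev i) u = B u u := by
    have := congrArg (fun v => B v u) (kelL_sum_smul u)
    simpa only [map_sum, map_smul, ContinuousLinearMap.sum_apply,
      ContinuousLinearMap.smul_apply] using this
  have h2 : ∑ i, ⟪u, ev i⟫ • B u (ev i) = B u u := by
    have := congrArg (fun v => B u v) (kelL_sum_smul u)
    simpa only [map_sum, map_smul] using this
  have h3 : ∀ i, B (J • ev i + (b * ⟪u, ev i⟫) • u) (J • ev i + (b * ⟪u, ev i⟫) • u) =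
      (J ^ 2) • B (ev i) (ev i) + (J * b) • (⟪u, ev i⟫ • B (ev i) u) +
        (J * b) • (⟪u, ev i⟫ • B u (ev i)) + (b ^ 2 * (⟪u, ev i⟫ * ⟪u, ev i⟫)) • B u u := by
    intro i
    simp only [map_add, map_smul, ContinuousLinearMap.add_apply, ContinuousLinearMap.smul_apply]
    module
  simp only [h3, Finset.sum_add_distrib, ← Finset.smul_sum, h1, h2, ← Finset.sum_smul,
    ← Finset.mul_sum, kelL_sum_sq]
  have h4 : J * b + J * b + b ^ 2 * ‖u‖ ^ 2 = 0 := by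
    rw [hJ, hb]; field_simp; ring
  rw [add_assoc, add_assoc, ← add_smul, ← add_smul, ← add_assoc (J * b), h4, zero_smul, add_zero]

/-- The Laplacian of a composition with the inversion. -/
lemma kelL_comp {c x : E n} (R : ℝ) (hx : x ≠ c) {f : E n → ℂ}
    (hf : ContDiffAt ℝ 2 f (inv c R x)) (hg : ContDiffAt ℝ 2 (fun y => f (inv c R y)) x) :
    Δ (fun y => f (inv c R y)) x = ((R ^ 2 / ‖x - c‖ ^ 2) ^ 2 : ℝ) • Δ f (inv c R x) +
      (-2 * (n - 2) * R ^ 2 / ‖x - c‖ ^ 4 : ℝ) • fderiv ℝ f (inv c R x) (x - c) := by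
  have hr : ‖x - c‖ ≠ 0 := norm_ne_zero_iff.2 (sub_ne_zero.2 hx)
  have hB : HasFDerivAt (fderiv ℝ f) (fderiv ℝ (fderiv ℝ f) (inv c R x)) (inv c R x) :=
    ((hf.fderiv_right (m := 1) (by norm_num)).differentiableAt (by norm_num)).hasFDerivAt
  set B := fderiv ℝ (fderiv ℝ f) (inv c R x) with hBd
  have hl : Δ f (inv c R x) = ∑ i, B (ev i) (ev i) := by
    rw [lap_eq hf]
    refine Finset.sum_congr rfl fun i _ => ?_
    rw [(hB.clm_apply (hasFDerivAt_const (ev i) _)).fderiv]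
    simp
  have hev : ∀ᶠ y in 𝓝 x, DifferentiableAt ℝ f (inv c R y) := by
    have := (kelL_inv R hx).continuousAt.eventually (hf.eventually (by simp))
    filter_upwards [this] with y hy using hy.differentiableAt (by norm_num)
  choose L hL hLe using kelL_dA R hx
  have key : ∀ i, fderiv ℝ (fun y => fderiv ℝ (fun y => f (inv c R y)) y (ev i)) x (ev i) =
      fderiv ℝ f (inv c R x) (L (ev i) (ev i)) +
        B (kelLA c R x (ev i)) (kelLA c R x (ev i)) := by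
    intro i
    have e : (fun y => fderiv ℝ (fun y => f (inv c R y)) y (ev i)) =ᶠ[𝓝 x]
        fun y => fderiv ℝ f (inv c R y) (kelLA c R y (ev i)) := by
      filter_upwards [isOpen_ne.mem_nhds hx, hev] with y hy hy'
      have := (hy'.hasFDerivAt.comp y (kelL_inv R hy)).fderiv
      rw [Function.comp_def] at this
      rw [this]; rfl
    have h2 := (hB.comp x (kelL_inv R hx)).clm_apply (hL (ev i))
    simp only [Function.comp_apply] at h2
    rw [e.fderiv_eq, h2.fderiv]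
    simp
  rw [lap_eq hg]
  simp only [key]
  rw [Finset.sum_add_distrib, add_comm, ← map_sum, ← map_smul, hl]
  simp only [kelLA_apply]
  rw [kelL_bil B hr]
  congr 2
  simp only [hLe, kelL_ev_ev, Finset.sum_add_distrib, ← Finset.smul_sum, ← Finset.sum_smul,
    ← Finset.mul_sum, kelL_sum_sq, kelL_sum_smul, Finset.sum_const, Finset.card_univ,
    Fintype.card_fin, nsmul_eq_mul, ← add_smul]
  congr 1
  field_simp
  ring

theorem lap_kel (hn : 3 ≤ n) {c : E n} {R : ℝ} (hR : 0 < R) {f : E n → ℂ} {x : E n} (hx : x ≠ c)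
    (hf : ContDiffAt ℝ 2 f (inv c R x)) :
    Δ (kel c R f) x = ((jac c R x ^ 2 : ℝ) : ℂ) * kel c R (Δ f) x := by
  obtain ⟨p, rfl⟩ : ∃ p, n = p + 3 := ⟨n - 3, by omega⟩
  have hr : ‖x - c‖ ≠ 0 := norm_ne_zero_iff.2 (sub_ne_zero.2 hx)
  have hp : p + 3 - 2 = p + 1 := rfl
  have hm : ContDiffAt ℝ 2 (fun y : E (p + 3) => (R / ‖y - c‖) ^ (p + 1)) x :=
    (contDiffAt_const.div ((contDiffAt_id.sub contDiffAt_const).norm ℝ (sub_ne_zero.2 hx)) hr).pow _
  have hi : ContDiffAt ℝ 2 (inv c R) x := (contDiffAt_inv' R hx).of_le (by norm_cast)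
  have hg : ContDiffAt ℝ 2 (fun y => f (inv c R y)) x := hf.comp x hi
  have hgr : gradient (fun y : E (p + 3) => (R / ‖y - c‖) ^ (p + 1)) x =
      (-(p + 1) * (R / ‖x - c‖) ^ (p + 1) / ‖x - c‖ / ‖x - c‖) • (x - c) := by
    refine HasGradientAt.gradient (hasGradientAt_iff_hasFDerivAt.2 ?_)
    refine (kelL_rad hx (kelL_d1 R p hr)).congr_fderiv (ContinuousLinearMap.ext fun v => ?_)
    simp only [ContinuousLinearMap.smul_apply, innerSL_apply_apply, smul_eq_mul,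
      InnerProductSpace.toDual_apply_apply, real_inner_smul_left]
  have hd : fderiv ℝ (fun y => f (inv c R y)) x =
      (fderiv ℝ f (inv c R x)).comp (kelLA c R x) :=
    ((hf.differentiableAt (by norm_num)).hasFDerivAt.comp x (kelL_inv R hx)).fderiv
  have hA : kelLA c R x (x - c) = (-(R ^ 2 / ‖x - c‖ ^ 2)) • (x - c) := by
    rw [kelLA_apply, real_inner_self_eq_norm_sq, ← add_smul]
    congr 1
    field_simp
    ring
  have h := lap_smul hm hg
  unfold kel jac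
  rw [hp, h, kelL_harm R hx hm, kelL_comp R hx hf hg, hgr, hd, map_smul,
    ContinuousLinearMap.comp_apply, hA, map_smul]
  simp only [Complex.real_smul]
  have hr' : ((‖x - c‖ : ℝ) : ℂ) ≠ 0 := by exact_mod_cast hr
  push_cast
  field_simp
  ring

end Pool.Agent.MP_71da5e_an

end

section

namespace Pool.Agent.MP_71da5e_an

open MeasureTheory Metric Set Laplacian Filter Topology
open scoped ContDiff ENNReal RealInnerProductSpace

variable {n : ℕ}

lemma kelB_ae_ne (hn : 3 ≤ n) (c : E n) : ∀ᵐ x : E n, x ≠ c := by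
  have : Nonempty (Fin n) := ⟨⟨0, by omega⟩⟩
  exact Measure.ae_ne volume c

lemma kelB_inv_eq (c : E n) (R : ℝ) : inv c R = EuclideanGeometry.inversion c R := by
  funext x
  simp only [inv, EuclideanGeometry.inversion, dist_eq_norm, vsub_eq_sub, vadd_eq_add, div_pow]
  exact add_comm _ _

/-- The derivative of the inversion. -/
noncomputable def kelBD (c : E n) (R : ℝ) (x : E n) : E n →L[ℝ] E n :=
  (R / dist x c) ^ 2 • ((ℝ ∙ (x - c))ᗮ.reflection : E n →L[ℝ] E n)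

lemma kelB_hasFDerivAt {c : E n} (R : ℝ) {x : E n} (hx : x ≠ c) :
    HasFDerivAt (inv c R) (kelBD c R x) x := by
  rw [kelB_inv_eq]
  exact EuclideanGeometry.hasFDerivAt_inversion hx

lemma kelB_det (c : E n) (R : ℝ) (x : E n) : |(kelBD c R x).det| = jac c R x ^ n := by
  have h1 : |LinearMap.det (((ℝ ∙ (x - c))ᗮ.reflection : E n →L[ℝ] E n) : E n →ₗ[ℝ] E n)| = 1 := by
    have h := Submodule.det_reflection (ℝ ∙ (x - c))ᗮ
    have h' : (((ℝ ∙ (x - c))ᗮ.reflection : E n →L[ℝ] E n) : E n →ₗ[ℝ] E n) =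
        (ℝ ∙ (x - c))ᗮ.reflection.toLinearMap := rfl
    rw [h', h, abs_pow, abs_neg, abs_one, one_pow]
  rw [kelBD, ContinuousLinearMap.det, ContinuousLinearMap.toLinearMap_smul, LinearMap.det_smul,
    abs_mul, h1, mul_one, finrank_euclideanSpace_fin, abs_pow, abs_of_nonneg (sq_nonneg _), jac,
    div_pow, dist_eq_norm]

lemma kelB_image (c : E n) {R : ℝ} (hR : 0 < R) : inv c R '' {c}ᶜ = {c}ᶜ := by
  ext y
  constructor
  · rintro ⟨x, hx, rfl⟩
    exact inv_ne hR hx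
  · intro hy
    exact ⟨inv c R y, inv_ne hR hy, inv_inv' c hR y⟩

lemma kelB_injOn (c : E n) {R : ℝ} (hR : 0 < R) : InjOn (inv c R) {c}ᶜ := fun x _ y _ h => by
  rw [← inv_inv' c hR x, h, inv_inv' c hR y]

lemma kelB_restrict (hn : 3 ≤ n) (c : E n) : (volume : Measure (E n)).restrict {c}ᶜ = volume :=
  Measure.restrict_eq_self_of_ae_mem (kelB_ae_ne hn c)

theorem integral_inv' (c : E n) {R : ℝ} (hR : 0 < R) (hn : 3 ≤ n) (g : E n → ℂ) :
    ∫ x, g x = ∫ y, ((jac c R y ^ n : ℝ) : ℂ) * g (inv c R y) := by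
  have h := integral_image_eq_integral_abs_det_fderiv_smul (volume : Measure (E n))
    (measurableSet_singleton c).compl
    (fun x hx => (kelB_hasFDerivAt R (c := c) hx).hasFDerivWithinAt) (kelB_injOn c hR) g
  rw [kelB_image c hR, kelB_restrict hn] at h
  rw [h]
  refine integral_congr_ae (Eventually.of_forall fun x => ?_)
  simp only [kelB_det, Complex.real_smul]

theorem lintegral_inv' (c : E n) {R : ℝ} (hR : 0 < R) (hn : 3 ≤ n) (g : E n → ℝ≥0∞) :
    ∫⁻ x, g x = ∫⁻ y, ENNReal.ofReal (jac c R y ^ n) * g (inv c R y) := by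
  have h := lintegral_image_eq_lintegral_abs_det_fderiv_mul (volume : Measure (E n))
    (measurableSet_singleton c).compl
    (fun x hx => (kelB_hasFDerivAt R (c := c) hx).hasFDerivWithinAt) (kelB_injOn c hR) g
  rw [kelB_image c hR, kelB_restrict hn] at h
  rw [h]
  simp only [kelB_det]

theorem ae_inv (c : E n) {R : ℝ} (hR : 0 < R) (hn : 3 ≤ n) {P : E n → Prop} (h : ∀ᵐ x, P x) :
    ∀ᵐ x, P (inv c R x) := by
  have h0 : volume (inv c R '' ({x | ¬ P x} ∩ {c}ᶜ)) = 0 :=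
    addHaar_image_eq_zero_of_differentiableOn_of_addHaar_eq_zero volume
      (fun x hx => (kelB_hasFDerivAt R (c := c) hx.2).differentiableAt.differentiableWithinAt)
      (measure_mono_null inter_subset_left h)
  filter_upwards [kelB_ae_ne hn c, compl_mem_ae_iff.2 h0] with x hx hx'
  by_contra hP
  exact hx' ⟨inv c R x, ⟨hP, inv_ne hR hx⟩, inv_inv' c hR x⟩

lemma kelB_jac (c : E n) (R : ℝ) (x : E n) : jac c R x = (R / ‖x - c‖) ^ 2 := by
  rw [jac, div_pow]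

lemma kelB_fac (c : E n) {R : ℝ} (hR : 0 < R) (x : E n) :
    R / ‖inv c R x - c‖ = (R / ‖x - c‖)⁻¹ := by
  rw [norm_inv_sub, inv_div, div_div_eq_mul_div, sq, mul_div_mul_left _ _ hR.ne']

lemma kelB_kel_inv (c : E n) {R : ℝ} (hR : 0 < R) (w : E n → ℂ) (x : E n) :
    kel c R w (inv c R x) = ((((R / ‖x - c‖)⁻¹) ^ (n - 2) : ℝ) : ℂ) * w x := by
  rw [kel, kelB_fac c hR, inv_inv' c hR]

lemma kelB_pow (hn : 3 ≤ n) {t : ℝ} (ht : t ≠ 0) :
    (t ^ 2) ^ n * t⁻¹ ^ (n - 2) = (t ^ 2) ^ 2 * t ^ (n - 2) := by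
  obtain ⟨m, rfl⟩ : ∃ m, n = m + 2 := ⟨n - 2, by omega⟩
  rw [Nat.add_sub_cancel, inv_pow]
  field_simp
  ring

lemma kelB_ne {c : E n} {R : ℝ} (hR : 0 < R) {x : E n} (hx : x ≠ c) : R / ‖x - c‖ ≠ 0 :=
  (div_pos hR (norm_pos_iff.2 (sub_ne_zero.2 hx))).ne'

lemma kelB_key (hn : 3 ≤ n) {c : E n} {R : ℝ} (hR : 0 < R) (w : E n → ℂ) {x : E n} (hx : x ≠ c) :
    ((jac c R x ^ n : ℝ) : ℂ) * kel c R w (inv c R x) =
      ((jac c R x ^ 2 : ℝ) : ℂ) * (((R / ‖x - c‖) ^ (n - 2) : ℝ) : ℂ) * w x := by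
  rw [kelB_kel_inv c hR, ← mul_assoc, ← Complex.ofReal_mul, ← Complex.ofReal_mul, kelB_jac,
    kelB_pow hn (kelB_ne hR hx)]

lemma kelB_jj {c : E n} {R : ℝ} (hR : 0 < R) {x : E n} (hx : x ≠ c) :
    ((jac c R x ^ 2 : ℝ) : ℂ) * ((jac c R (inv c R x) ^ 2 : ℝ) : ℂ) = 1 := by
  rw [jac_inv c hR, ← Complex.ofReal_mul, ← mul_pow, mul_inv_cancel₀ (jac_pos hR hx).ne', one_pow,
    Complex.ofReal_one]

theorem integral_kel_mul (c : E n) {R : ℝ} (hR : 0 < R) (hn : 3 ≤ n) (w q g : E n → ℂ) :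
    ∫ x, kel c R w x * (q x * g x) = ∫ y, w y * (kq c R q y * kel c R g y) := by
  rw [integral_inv' c hR hn]
  refine integral_congr_ae ?_
  filter_upwards [kelB_ae_ne hn c] with y hy
  rw [← mul_assoc, kelB_key hn hR w hy, kq, kel]
  ring

theorem Q_kel (c : E n) {R : ℝ} (hR : 0 < R) (hn : 3 ≤ n) (a : E n → ℝ) (w : E n → ℂ) :
    Q a (kel c R w) = Q (fun y => jac c R y ^ 2 * a (inv c R y)) w := by
  unfold Q
  rw [lintegral_inv' c hR hn]
  refine lintegral_congr_ae ?_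
  filter_upwards [kelB_ae_ne hn c] with y hy
  rw [← ENNReal.ofReal_mul (pow_nonneg (jac_pos hR hy).le _), kelB_kel_inv c hR, norm_mul,
    Complex.norm_real, mul_pow, Real.norm_eq_abs, sq_abs, kelB_jac]
  congr 1
  have ht := kelB_ne hR hy
  have h := kelB_pow hn ht
  have h' : (R / ‖y - c‖) ^ (n - 2) * (R / ‖y - c‖)⁻¹ ^ (n - 2) = 1 := by
    rw [← mul_pow, mul_inv_cancel₀ ht, one_pow]
  linear_combination (a (inv c R y) * ‖w y‖ ^ 2 * (R / ‖y - c‖)⁻¹ ^ (n - 2)) * h +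
    (a (inv c R y) * ‖w y‖ ^ 2 * ((R / ‖y - c‖) ^ 2) ^ 2) * h'

theorem pair_kel (c : E n) {R : ℝ} (hR : 0 < R) (hn : 3 ≤ n) (w F : E n → ℂ) {φ : E n → ℂ}
    (hφ : ContDiff ℝ ∞ φ) :
    pair (kel c R w) (fun x => ((jac c R x ^ 2 : ℝ) : ℂ) * kel c R F x) φ =
      pair w F (kel c R φ) := by
  unfold pair
  rw [integral_inv' c hR hn]
  refine integral_congr_ae ?_
  filter_upwards [kelB_ae_ne hn c] with y hy
  have h1 := kelB_key hn hR w hy
  have h2 := kelB_key hn hR F hy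
  have h3 := kelB_jj hR hy
  rw [lap_kel hn hR hy (hφ.contDiffAt.of_le (WithTop.coe_le_coe.2 (le_top : (2 : ℕ∞) ≤ ⊤)))]
  rw [show kel c R φ y = (((R / ‖y - c‖) ^ (n - 2) : ℝ) : ℂ) * φ (inv c R y) from rfl,
    show kel c R (Δ φ) y = (((R / ‖y - c‖) ^ (n - 2) : ℝ) : ℂ) * Δ φ (inv c R y) from rfl]
  linear_combination (((jac c R (inv c R y) ^ 2 : ℝ) : ℂ) * φ (inv c R y)) * h2 -
    Δ φ (inv c R y) * h1 + ((((R / ‖y - c‖) ^ (n - 2) : ℝ) : ℂ) * F y * φ (inv c R y)) * h3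

theorem WL2.kel (hn : 3 ≤ n) {w : E n → ℂ} (h : WL2 w) : WL2 (kel 0 1 w) := by
  refine ⟨measurable_kel 0 1 h.1, ?_⟩
  rw [Q_kel 0 one_pos hn]
  have : Q (fun y => jac 0 1 y ^ 2 * wt (inv 0 1 y)) w = Q wt w := by
    unfold Q
    refine lintegral_congr_ae ?_
    filter_upwards [kelB_ae_ne hn (0 : E n)] with y hy
    rw [jac_sq_mul_wt hy]
  rw [this]
  exact h.2

lemma kelB_mem_Pl {ν x : E n} (hx : x ∈ Pl ν) : inv 0 1 x ∈ Pl ν := by
  have hx' : ⟪x, ν⟫ = 0 := hx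
  show ⟪inv 0 1 x, ν⟫ = 0
  rw [inner_inv_zero, hx', zero_div]

theorem Adm.kel (hn : 3 ≤ n) {ν : E n} {r : ℝ} (hr : 0 < r) {q u : E n → ℂ}
    (h : Adm ν {x | r < ‖x‖} (kq 0 1 q) u) :
    Adm ν {x | r < ‖x‖ ∧ ‖x‖ < r⁻¹} q (kel 0 1 u) := by
  refine ⟨h.l2.kel hn, fun x hx => ?_, fun φ hφ h0 hs => ?_⟩
  · have : inv 0 1 x ∉ Hs ν := by
      intro h'
      have h'' : 0 < ⟪inv 0 1 x, ν⟫ := h'
      rw [inner_inv_zero] at h''
      refine hx (show 0 < ⟪x, ν⟫ from lt_of_not_ge fun h1 => ?_)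
      exact absurd h'' (not_lt.2 (div_nonpos_of_nonpos_of_nonneg h1 (sq_nonneg _)))
    rw [Pool.Agent.MP_71da5e_an.kel, h.z _ this, mul_zero]
  · have hc : (0 : E n) ∉ tsupport φ := fun h' => by
      have h1 : (0 : E n) ∈ Pl ν := by
        show ⟪(0 : E n), ν⟫ = 0
        exact inner_zero_left _
      have h2 := (hs ⟨h', h1⟩).1
      rw [norm_zero] at h2
      exact lt_asymm hr h2
    have e : (fun x => q x * Pool.Agent.MP_71da5e_an.kel 0 1 u x) =ᵐ[volume] fun x =>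
        ((jac 0 1 x ^ 2 : ℝ) : ℂ) *
          Pool.Agent.MP_71da5e_an.kel 0 1 (fun y => kq 0 1 q y * u y) x := by
      filter_upwards [kelB_ae_ne hn (0 : E n)] with x hx
      have h3 := kelB_jj one_pos hx
      simp only [Pool.Agent.MP_71da5e_an.kel, kq]
      rw [inv_inv' 0 one_pos]
      linear_combination (-(q x * (((1 / ‖x - 0‖) ^ (n - 2) : ℝ) : ℂ) * u (inv 0 1 x))) * h3
    rw [pair_congr (EventuallyEq.refl _ _) e, pair_kel 0 one_pos hn _ _ hφ.1]
    refine h.weak _ (hφ.kel hn one_pos hc) (fun x hx => ?_) fun x hx => ?_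
    · rw [Pool.Agent.MP_71da5e_an.kel, h0 _ (kelB_mem_Pl hx), mul_zero]
    · have h1 := hs ⟨inv_mem_tsupport hn 0 one_pos hφ.2 hx.1, kelB_mem_Pl hx.2⟩
      obtain ⟨h2, h3⟩ := h1
      rw [norm_inv_zero] at h2 h3
      exact (inv_lt_inv₀ (inv_pos.1 (hr.trans h2)) hr).1 h3

end Pool.Agent.MP_71da5e_an

end

section

namespace Pool.Agent.MP_71da5e_an.A

open MeasureTheory Metric Set Laplacian Filter Topology
open scoped ContDiff ENNReal RealInnerProductSpace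

variable {n : ℕ}

/-- The inner bump: `1` for `|x| ≤ 1 / 4`, `0` for `|x| ≥ 1 / 3`. -/
noncomputable def bIn (n : ℕ) : ContDiffBump (0 : E n) := ⟨1 / 4, 1 / 3, by norm_num, by norm_num⟩

/-- The outer bump: `1` for `|x| ≤ 2 / 3`, `0` for `|x| ≥ 3 / 4`. -/
noncomputable def bOut (n : ℕ) : ContDiffBump (0 : E n) := ⟨2 / 3, 3 / 4, by norm_num, by norm_num⟩

/-- The annular cut-off function. -/
noncomputable def an (x : E n) : ℝ := (1 - bIn n x) * bOut n x

/-- The potential after the inversion that maps `|x - y| ≥ r` to `|x| ≤ 1 / 2`. -/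
noncomputable def qs (y : E n) (r : ℝ) (q : E n → ℂ) (x : E n) : ℂ :=
  if 1 / 4 ≤ ‖x‖ then kq y √(r / 2) q (x + y) else 0

/-- The difference of the potentials after the inversion. -/
noncomputable def fs (y : E n) (r : ℝ) (f : E n → ℂ) (x : E n) : ℂ :=
  (an x : ℂ) ^ 2 * qs y r f x

/-- The test function that belongs to `u`. -/
noncomputable def tv (y : E n) (r : ℝ) (u : E n → ℂ) : E n → ℂ :=
  kel y √(r / 2) fun x => (an (x - y) : ℂ) * u (x - y)

lemma keld_an_nonneg (x : E n) : 0 ≤ an x :=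
  mul_nonneg (sub_nonneg.2 (bIn n).le_one) (bOut n).nonneg

lemma keld_an_le (x : E n) : an x ≤ 1 :=
  mul_le_one₀ (sub_le_self _ (bIn n).nonneg) (bOut n).nonneg (bOut n).le_one

lemma keld_an_in {x : E n} (hx : ‖x‖ ≤ 1 / 4) : an x = 0 := by
  rw [an, (bIn n).one_of_mem_closedBall (mem_closedBall_zero_iff.2 hx), sub_self, zero_mul]

lemma keld_an_out {x : E n} (hx : 3 / 4 ≤ ‖x‖) : an x = 0 := by
  rw [an, (bOut n).zero_of_le_dist (by rwa [dist_zero_right]), mul_zero]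

lemma keld_an_one {x : E n} (h₁ : 1 / 3 ≤ ‖x‖) (h₂ : ‖x‖ ≤ 2 / 3) : an x = 1 := by
  rw [an, (bIn n).zero_of_le_dist (by rwa [dist_zero_right]),
    (bOut n).one_of_mem_closedBall (mem_closedBall_zero_iff.2 h₂), sub_zero, one_mul]

lemma keld_an_smooth : ContDiff ℝ ∞ fun x : E n => (an x : ℂ) :=
  Complex.ofRealCLM.contDiff.comp ((contDiff_const.sub (bIn n).contDiff).mul (bOut n).contDiff)

lemma keld_an_norm (x : E n) : ‖(an x : ℂ)‖ ≤ 1 := by
  rw [Complex.norm_real, Real.norm_of_nonneg (keld_an_nonneg x)]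
  exact keld_an_le x

lemma keld_jac (y : E n) (R : ℝ) (x : E n) : jac y R (x + y) = R ^ 2 / ‖x‖ ^ 2 := by
  rw [jac, add_sub_cancel_right]

lemma keld_jac_le (y : E n) (r : ℝ) {x : E n} (hx : 1 / 4 ≤ ‖x‖) :
    jac y √(r / 2) (x + y) ^ 2 ≤ 64 * r ^ 2 := by
  have h : √(r / 2) ^ 2 / ‖x‖ ^ 2 ≤ 8 * |r| := by
    rw [Real.sq_sqrt', div_le_iff₀ (by positivity)]
    have h1 : (1 / 4) ^ 2 ≤ ‖x‖ ^ 2 := by gcongr
    have h2 := le_abs_self r
    have h3 := abs_nonneg r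
    exact max_le (by nlinarith) (by positivity)
  rw [keld_jac, ← sq_abs r]
  calc _ ≤ (8 * |r|) ^ 2 := by gcongr
    _ = _ := by ring

lemma keld_pos {r : ℝ} (hr : 0 < r) : 0 < √(r / 2) := Real.sqrt_pos.2 (half_pos hr)

lemma keld_norm (y : E n) {r : ℝ} (hr : 0 < r) (x : E n) :
    ‖inv y √(r / 2) x - y‖ = r / 2 / ‖x - y‖ := by
  rw [norm_inv_sub, Real.sq_sqrt (half_pos hr).le]

lemma keld_qs (y : E n) (r : ℝ) (q : E n → ℂ) (x : E n) :
    qs y r q x * an x = kq y √(r / 2) q (x + y) * an x := by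
  unfold qs
  split_ifs with h
  · rfl
  · rw [keld_an_in (not_le.1 h).le, Complex.ofReal_zero, mul_zero, mul_zero]

lemma keld_Q (hn : 3 ≤ n) (y : E n) {r : ℝ} (hr : 0 < r) {Z : Set (E n)}
    (hZ : Disjoint Z (ball y r)) {h w : E n → ℂ} {c : ℝ} (hc : 0 ≤ c)
    (hb : ∀ x, x ≠ 0 → ‖x‖ < 1 / 2 →
      jac y √(r / 2) (x + y) ^ 2 * ‖h (x + y)‖ ^ 2 ≤ c * ‖w x‖ ^ 2) :
    Q (ind Z) (kel y √(r / 2) h) ≤ ENNReal.ofReal c * Q (ind (ball 0 (1 / 2))) w := by
  have : Nontrivial (E n) := Module.nontrivial_of_finrank_pos (R := ℝ) (by simp; omega)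
  rw [Q_kel y (keld_pos hr) hn, ← Q_const_mul hc, Q, ← lintegral_add_right_eq_self _ y]
  refine lintegral_mono_ae ?_
  filter_upwards [measure_eq_zero_iff_ae_notMem.1
    (Measure.addHaar_sphere volume (0 : E n) (1 / 2)), kelB_ae_ne hn 0] with x hx h0
  refine ENNReal.ofReal_le_ofReal ?_
  by_cases e : inv y √(r / 2) (x + y) ∈ Z
  · have h1 := disjoint_left.1 hZ e
    rw [mem_ball_iff_norm, keld_norm y hr, add_sub_cancel_right, not_lt,
      le_div_iff₀ (norm_pos_iff.2 h0)] at h1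
    have h2 : ‖x‖ < 1 / 2 := lt_of_le_of_ne (by nlinarith) (mt mem_sphere_zero_iff_norm.2 hx)
    rw [ind_of_mem e, ind_of_mem (mem_ball_zero_iff.2 h2), mul_one, mul_one]
    exact hb x h0 h2
  · rw [ind_of_notMem e, mul_zero, zero_mul]
    exact mul_nonneg (mul_nonneg hc (ind_nonneg _ _)) (sq_nonneg _)

theorem bdd_qs (y : E n) {r A : ℝ} {q : E n → ℂ} (hq : Bd A q) :
    Bd (64 * r ^ 2 * A) (qs y r q) := by
  refine ⟨Measurable.ite (measurableSet_le measurable_const measurable_norm) ?_ measurable_const,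
    fun x => ?_⟩
  · refine Measurable.comp (g := kq y √(r / 2) q) ?_ (measurable_add_const y)
    exact (Complex.measurable_ofReal.comp ((measurable_jac _ _).pow_const 2)).mul
      (hq.1.comp (measurable_inv' _ _))
  · have := hq.nonneg
    unfold qs
    split_ifs with h
    · rw [kq, norm_mul, Complex.norm_real, Real.norm_of_nonneg (sq_nonneg _)]
      exact mul_le_mul (keld_jac_le y r h) (hq.2 _) (norm_nonneg _) (by positivity)
    · rw [norm_zero]
      positivity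

theorem bdd_fs (y : E n) {r A : ℝ} {f : E n → ℂ} (hf : Bd A f) : L.Bdd (fs y r f) := by
  have h := bdd_qs y (r := r) hf
  refine ⟨(keld_an_smooth.continuous.measurable.pow_const 2).mul h.1, _, fun x => le_trans ?_ (h.2 x)⟩
  rw [fs, norm_mul, norm_pow]
  exact mul_le_of_le_one_left (norm_nonneg _) (pow_le_one₀ (norm_nonneg _) (keld_an_norm x))

theorem fs_zero (y : E n) {r : ℝ} (hr : 0 < r) {f : E n → ℂ} (hf : ∀ x ∈ ball y r, f x = 0)
    {x : E n} (hx : 1 / 2 < ‖x‖) : fs y r f x = 0 := by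
  rw [fs, qs, if_pos (by linarith), kq, hf, mul_zero, mul_zero]
  rw [mem_ball_iff_norm, keld_norm y hr, add_sub_cancel_right, div_lt_iff₀ (by linarith)]
  nlinarith

theorem tst_tv (hn : 3 ≤ n) (y : E n) {r : ℝ} (hr : 0 < r) {u : E n → ℂ} (hu : ContDiff ℝ ∞ u) :
    Tst (tv y r u) ∧ tsupport (tv y r u) ⊆ closedBall y (2 * r) := by
  have h1 : Tst fun x => (an (x - y) : ℂ) * u (x - y) :=
    ⟨(keld_an_smooth.mul hu).comp (contDiff_id.sub contDiff_const),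
      HasCompactSupport.intro (isCompact_closedBall y (3 / 4)) fun x hx => by
        rw [keld_an_out (not_le.1 (mt mem_closedBall_iff_norm.2 hx)).le, Complex.ofReal_zero,
          zero_mul]⟩
  have h2 : (tsupport fun x => (an (x - y) : ℂ) * u (x - y)) ⊆ {x | 1 / 4 ≤ ‖x - y‖} :=
    closure_minimal (fun x hx => le_of_not_gt fun h : ‖x - y‖ < 1 / 4 => hx (by
      simp only [keld_an_in h.le, Complex.ofReal_zero, zero_mul]))
      (isClosed_le continuous_const (by fun_prop))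
  refine ⟨h1.kel hn (keld_pos hr) fun h => ?_, fun x hx => ?_⟩
  · have := h2 h
    rw [mem_setOf_eq, sub_self, norm_zero] at this
    linarith
  · have := h2 (inv_mem_tsupport hn y (keld_pos hr) h1.2 hx)
    rw [mem_setOf_eq, keld_norm y hr] at this
    rw [mem_closedBall_iff_norm]
    by_contra h
    rw [le_div_iff₀ (by linarith)] at this
    linarith

theorem integral_tv (hn : 3 ≤ n) (y : E n) {r : ℝ} (hr : 0 < r) (f u₁ u₂ : E n → ℂ) :
    ∫ x, f x * tv y r u₁ x * tv y r u₂ x = ∫ x, fs y r f x * u₁ x * u₂ x := by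
  have h := integral_kel_mul y (keld_pos hr) hn (fun x => (an (x - y) : ℂ) * u₁ (x - y)) f
    (tv y r u₂)
  rw [← integral_add_right_eq_self (fun x => (an (x - y) : ℂ) * u₁ (x - y) * _) y] at h
  refine ((integral_congr_ae (Eventually.of_forall fun x => ?_)).trans h).trans
    (integral_congr_ae ?_)
  · simp only [tv]
    ring
  · filter_upwards [kelB_ae_ne hn 0] with x hx
    rw [tv, kel_kel (keld_pos hr) _ (by simpa using hx), add_sub_cancel_right, fs]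
    linear_combination (-(an x : ℂ) * u₁ x * u₂ x) * keld_qs y r f x

theorem Q_tv (hn : 3 ≤ n) (y : E n) {r : ℝ} (hr : 0 < r) {Z : Set (E n)}
    (hZ : Disjoint Z (ball y r)) (u : E n → ℂ) :
    Q (ind Z) (tv y r u) ≤ ENNReal.ofReal (64 * r ^ 2) * Q (ind (ball 0 (1 / 2))) u := by
  refine keld_Q hn y hr hZ (by positivity) fun x _ _ => ?_
  rw [add_sub_cancel_right]
  rcases le_total (1 / 4) ‖x‖ with h | h
  · refine mul_le_mul (keld_jac_le y r h) (pow_le_pow_left₀ (norm_nonneg _) ?_ 2) (sq_nonneg _)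
      (by positivity)
    rw [norm_mul]
    exact mul_le_of_le_one_left (norm_nonneg _) (keld_an_norm x)
  · rw [keld_an_in h, Complex.ofReal_zero, zero_mul, norm_zero, zero_pow two_ne_zero, mul_zero]
    positivity

theorem Q_Pq_tv (hn : 3 ≤ n) (y : E n) {r : ℝ} (hr : 0 < r) {Z : Set (E n)}
    (hZ : Disjoint Z (ball y r)) (q : E n → ℂ) {u : E n → ℂ} (hu : ContDiff ℝ ∞ u) :
    Q (ind Z) (Pq q (tv y r u)) ≤ ENNReal.ofReal ((r ^ 2)⁻¹) *
      Q (ind (ball 0 (1 / 2))) (Pq (qs y r q) fun x => (an x : ℂ) * u x) := by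
  have hR := keld_pos hr
  set G : E n → ℂ := fun x => (an x : ℂ) * u x with hG
  have h1 : ContDiff ℝ ∞ fun x => G (x - y) :=
    (keld_an_smooth.mul hu).comp (contDiff_id.sub contDiff_const)
  have h2 : Pq q (tv y r u) =ᵐ[volume] kel y √(r / 2) fun x =>
      ((jac y √(r / 2) (inv y √(r / 2) x) ^ 2 : ℝ) : ℂ) * Δ (fun x => G (x - y)) x -
        q (inv y √(r / 2) x) * G (x - y) := by
    filter_upwards [kelB_ae_ne hn y] with x hx
    rw [Pq, tv, lap_kel hn hR hx (h1.contDiffAt.of_le scut_two)]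
    simp only [kel, inv_inv' y hR, hG]
    ring
  rw [Q_congr h2]
  refine keld_Q hn y hr hZ (by positivity) fun x h0 hx => ?_
  have h3 : Δ (fun x => G (x - y)) (x + y) = Δ G x := by
    simpa only [← sub_eq_add_neg, add_sub_cancel_right] using lap_add_const G (-y) (x + y)
  have h4 := kelB_jj (c := y) hR (x := x + y) (by simpa using h0)
  have h5 : r ≤ jac y √(r / 2) (x + y) := by
    have := norm_pos_iff.2 h0
    rw [keld_jac, Real.sq_sqrt (half_pos hr).le, le_div_iff₀ (by positivity)]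
    have : ‖x‖ ^ 2 ≤ (1 / 2) ^ 2 := by gcongr
    nlinarith
  rw [h3, add_sub_cancel_right]
  have h6 : Pq (qs y r q) G x = ((jac y √(r / 2) (x + y) ^ 2 : ℝ) : ℂ) *
      (((jac y √(r / 2) (inv y √(r / 2) (x + y)) ^ 2 : ℝ) : ℂ) * Δ G x -
        q (inv y √(r / 2) (x + y)) * G x) := by
    have := keld_qs y r q x
    rw [kq] at this
    have e : G x = an x * u x := rfl
    rw [Pq, e]
    linear_combination (-u x) * this - Δ G x * h4
  rw [h6, norm_mul, Complex.norm_real, Real.norm_of_nonneg (sq_nonneg _), mul_pow,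
    ← mul_assoc (r ^ 2)⁻¹]
  refine mul_le_mul_of_nonneg_right ?_ (sq_nonneg _)
  rw [le_inv_mul_iff₀ (by positivity), sq (_ ^ 2)]
  gcongr

/-- A neighbourhood of the touching point. -/
theorem pull_back (hn : 3 ≤ n) {y x₀ : E n} {r c : ℝ} (hr : 0 < r) (hc : 0 < c)
    (hx : ‖x₀ - y‖ = r) {f : E n → ℂ}
    (h : ∀ᵐ x : E n, 1 / 2 - c < ⟪x, r⁻¹ • (x₀ - y)⟫ → fs y r f x = 0) :
    ∃ ε : ℝ, 0 < ε ∧ ∀ᵐ x, x ∈ ball x₀ ε → f x = 0 := by
  have hR := keld_pos hr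
  have h0 : x₀ ≠ y := fun e => by
    rw [e, sub_self, norm_zero] at hx
    exact hr.ne hx
  have h1 := ae_inv y hR hn ((measurePreserving_sub_right volume y).quasiMeasurePreserving.ae h)
  have h2 : ContinuousAt (fun x => inv y √(r / 2) x - y) x₀ :=
    (contDiffAt_inv' _ h0).continuousAt.sub continuousAt_const
  have h3 : ‖inv y √(r / 2) x₀ - y‖ = 1 / 2 := by
    rw [keld_norm y hr, hx]
    field_simp
  have h4 : ⟪inv y √(r / 2) x₀ - y, r⁻¹ • (x₀ - y)⟫ = 1 / 2 := by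
    rw [inv, add_sub_cancel_left, real_inner_smul_left, real_inner_smul_right,
      real_inner_self_eq_norm_sq, hx, Real.sq_sqrt (half_pos hr).le]
    field_simp
  have h5 := (h2.norm.eventually (lt_mem_nhds (a := 1 / 3) (h3.ge.trans_lt' (by norm_num)))).and
    ((h2.norm.eventually (gt_mem_nhds (a := 2 / 3) (h3.le.trans_lt (by norm_num)))).and
    (((h2.inner (𝕜 := ℝ) continuousAt_const).eventually (lt_mem_nhds (a := 1 / 2 - c)
      (h4.ge.trans_lt' (by linarith)))).and (eventually_ne_nhds h0)))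
  obtain ⟨ε, hε, h6⟩ := Metric.eventually_nhds_iff_ball.1 h5
  refine ⟨ε, hε, h1.mono fun x h7 hx => ?_⟩
  obtain ⟨a, b, d, e⟩ := h6 x hx
  have := h7 d
  rw [fs, qs, if_pos (by linarith), keld_an_one a.le b.le, sub_add_cancel, kq, inv_inv' y hR] at this
  rw [Complex.ofReal_one, one_pow, one_mul, mul_eq_zero, Complex.ofReal_eq_zero] at this
  exact this.resolve_left (pow_pos (jac_pos hR (inv_ne hR e)) 2).ne'

end Pool.Agent.MP_71da5e_an.A

end

section

namespace Pool.Agent.MP_71da5e_an.A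

open MeasureTheory Metric Set Laplacian Filter Topology
open scoped ContDiff ENNReal RealInnerProductSpace

variable {n : ℕ}

theorem kele_le {f a b : E n → ℝ} {u w : E n → ℂ} {c : ℝ} (hc : 0 ≤ c) (ha : Measurable a)
    (hu : Measurable u) (h : ∀ x, f x ≤ c * (a x * ‖u x‖ ^ 2 + b x * ‖w x‖ ^ 2)) :
    ∫⁻ x, ENNReal.ofReal (f x) ≤ ENNReal.ofReal c * (Q a u + Q b w) := by
  unfold Q
  rw [← lintegral_add_left (by fun_prop), ← lintegral_const_mul' _ _ ENNReal.ofReal_ne_top]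
  refine lintegral_mono fun x => (ENNReal.ofReal_le_ofReal (h x)).trans ?_
  rw [ENNReal.ofReal_mul hc]
  gcongr
  exact ENNReal.ofReal_add_le

theorem kele_smooth : ContDiff ℝ ∞ (an : E n → ℝ) :=
  (contDiff_const.sub (bIn n).contDiff).mul (bOut n).contDiff

theorem kele_sq_le (x : E n) : an x ^ 2 ≤ 1 := by
  have h1 : 0 ≤ bIn n x := (bIn n).nonneg
  have h2 : bIn n x ≤ 1 := (bIn n).le_one
  have h3 : 0 ≤ bOut n x := (bOut n).nonneg
  have h4 : bOut n x ≤ 1 := (bOut n).le_one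
  exact pow_le_one₀ (mul_nonneg (by linarith) h3) (mul_le_one₀ (by linarith) h3 h4)

theorem kele_one {x : E n} (h₁ : 1 / 3 < ‖x‖) (h₂ : ‖x‖ < 1 / 2) :
    (an : E n → ℝ) =ᶠ[𝓝 x] fun _ => 1 := by
  filter_upwards [continuous_norm.continuousAt.eventually (Ioo_mem_nhds h₁ h₂)] with z hz
  rw [an, (bIn n).zero_of_le_dist (by simpa [bIn] using hz.1.le),
    (bOut n).one_of_mem_closedBall (mem_closedBall_zero_iff.2 (hz.2.le.trans (by norm_num [bOut]))),
    sub_zero, one_mul]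

/-- The derivatives of the cut-off function and an auxiliary bump. -/
theorem kele_bump (n : ℕ) : ∃ (K : ℝ) (θ : E n → ℝ), 0 ≤ K ∧ ContDiff ℝ ∞ θ ∧
    HasCompactSupport θ ∧ (∀ x, θ x ^ 2 ≤ K * ind (ball 0 (2 / 5)) x ∧
      ‖fderiv ℝ θ x‖ ^ 2 ≤ K * ind (ball 0 (2 / 5)) x) ∧ ∀ x ∈ ball (0 : E n) (1 / 2),
      ‖fderiv ℝ an x‖ ^ 2 ≤ θ x ^ 2 ∧ Δ an x ^ 2 ≤ K * ind (ball 0 (2 / 5)) x := by
  obtain ⟨K₁, h₁⟩ := (isCompact_closedBall (0 : E n) 1).exists_bound_of_continuousOn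
    ((kele_smooth (n := n)).continuous_fderiv (by simp)).continuousOn
  obtain ⟨K₂, h₂⟩ := (isCompact_closedBall (0 : E n) 1).exists_bound_of_continuousOn
    (contDiff_lap (kele_smooth (n := n))).continuous.continuousOn
  let β : ContDiffBump (0 : E n) := ⟨1 / 3, 3 / 8, by norm_num, by norm_num⟩
  have hθ : ContDiff ℝ ∞ fun x => K₁ * β x := contDiff_const.mul β.contDiff
  obtain ⟨K₃, h₃⟩ := (isCompact_closedBall (0 : E n) 1).exists_bound_of_continuousOn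
    (hθ.continuous_fderiv (by simp)).continuousOn
  have hs : tsupport (fun x => K₁ * β x) ⊆ ball 0 (2 / 5) :=
    (tsupport_mul_subset_right.trans β.tsupport_eq.le).trans
      (closedBall_subset_ball (by norm_num [β]))
  have s1 := sq_nonneg K₁
  have s2 := sq_nonneg K₂
  have s3 := sq_nonneg K₃
  refine ⟨K₁ ^ 2 + K₂ ^ 2 + K₃ ^ 2, fun x => K₁ * β x, by positivity, hθ,
    β.hasCompactSupport.mul_left, fun x => ?_, fun x hx => ?_⟩
  · by_cases hx : x ∈ ball (0 : E n) (2 / 5)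
    · have h4 : β x ^ 2 ≤ 1 := pow_le_one₀ β.nonneg β.le_one
      have h5 := pow_le_pow_left₀ (norm_nonneg _)
        (h₃ x (ball_subset_closedBall (ball_subset_ball (by norm_num) hx))) 2
      rw [ind_of_mem hx, mul_pow]
      exact ⟨by nlinarith, by linarith⟩
    · beta_reduce
      rw [ind_of_notMem hx, fderiv_of_notMem_tsupport ℝ fun h => hx (hs h),
        image_eq_zero_of_notMem_tsupport (f := fun x => K₁ * β x) fun h => hx (hs h)]
      simp
  · have hx1 : x ∈ closedBall (0 : E n) 1 :=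
      ball_subset_closedBall (ball_subset_ball (by norm_num) hx)
    rcases le_or_gt ‖x‖ (1 / 3) with h | h
    · have h4 := pow_le_pow_left₀ (norm_nonneg _) (h₁ x hx1) 2
      have h5 := pow_le_pow_left₀ (norm_nonneg _) (h₂ x hx1) 2
      rw [Real.norm_eq_abs, sq_abs] at h5
      beta_reduce
      rw [β.one_of_mem_closedBall (mem_closedBall_zero_iff.2 h),
        ind_of_mem (mem_ball_zero_iff.2 (h.trans_lt (by norm_num)))]
      exact ⟨by linarith, by linarith⟩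
    · have h4 := kele_one h (mem_ball_zero_iff.1 hx)
      have h5 := ind_nonneg (ball (0 : E n) (2 / 5)) x
      rw [h4.fderiv_eq, lap_congr h4, InnerProductSpace.laplacian_const, fderiv_fun_const]
      exact ⟨by simpa using sq_nonneg _, by simpa using by positivity⟩

theorem kele_meas {A : ℝ} {q u : E n → ℂ} (hq : Bd A q) (hu : ContDiff ℝ ∞ u) :
    Measurable (Pq q u) :=
  (contDiff_lap hu).continuous.measurable.sub (hq.1.mul hu.continuous.measurable)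

/-- The commutator with the cut-off function. -/
theorem Q_Pq_an (n : ℕ) (A : ℝ) : ∃ C : ℝ, 0 ≤ C ∧ ∀ q u : E n → ℂ, Bd A q → ContDiff ℝ ∞ u →
    Q (ind (ball 0 (1 / 2))) (Pq q fun x => (an x : ℂ) * u x) ≤
      ENNReal.ofReal C * (Q (ind (ball 0 (2 / 5))) u + Q (ind (ball 0 (1 / 2))) (Pq q u)) := by
  obtain ⟨K, θ, hK, hθ, hc, h₁, h₂⟩ := kele_bump n
  refine ⟨24 * K * (1 + A ^ 2) + 60 * K + 3 * (1 + K), by positivity, fun q u hq hu => ?_⟩
  have mu := hu.continuous.measurable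
  have mi : Measurable (ind (ball (0 : E n) (2 / 5))) := measurable_ind measurableSet_ball
  have mθ := hθ.continuous.measurable
  have md : Measurable fun x => ‖fderiv ℝ u x‖ := (hu.continuous_fderiv (by simp)).norm.measurable
  have hpt : ∀ x, ind (ball 0 (1 / 2)) x * ‖Pq q (fun x => (an x : ℂ) * u x) x‖ ^ 2 ≤
      12 * (θ x ^ 2 * ‖fderiv ℝ u x‖ ^ 2) + 3 * (1 + K) * (ind (ball 0 (2 / 5)) x * ‖u x‖ ^ 2 +
        ind (ball 0 (1 / 2)) x * ‖Pq q u x‖ ^ 2) := fun x => by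
    have i0 := ind_nonneg (ball (0 : E n) (2 / 5)) x
    by_cases hx : x ∈ ball (0 : E n) (1 / 2)
    · have e : Pq q (fun x => (an x : ℂ) * u x) x = an x * Pq q u x +
          2 * fderiv ℝ u x (gradient an x) + (Δ an x : ℝ) * u x := by
        rw [Pq, Pq, lap_smul (kele_smooth.contDiffAt.of_le scut_two)
          (hu.contDiffAt.of_le scut_two)]
        ring
      have h3 := scut_three ((an x : ℂ) * Pq q u x) (2 * fderiv ℝ u x (gradient an x))
        (((Δ an x : ℝ) : ℂ) * u x)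
      have hg : ‖fderiv ℝ u x (gradient an x)‖ ≤ ‖fderiv ℝ u x‖ * ‖fderiv ℝ an x‖ := by
        rw [← norm_gradient_eq]
        exact ContinuousLinearMap.le_opNorm _ _
      have hg2 := pow_le_pow_left₀ (norm_nonneg _) hg 2
      simp only [norm_mul, Complex.norm_real, mul_pow, Real.norm_eq_abs, sq_abs,
        Complex.norm_ofNat] at h3 hg2
      have h4 := mul_le_mul_of_nonneg_left (h₂ x hx).1 (sq_nonneg ‖fderiv ℝ u x‖)
      have h5 := mul_le_mul_of_nonneg_right (h₂ x hx).2 (sq_nonneg ‖u x‖)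
      have h6 := mul_le_mul_of_nonneg_right (kele_sq_le x) (sq_nonneg ‖Pq q u x‖)
      have h7 := mul_nonneg i0 (sq_nonneg ‖u x‖)
      have h8 := mul_nonneg hK (sq_nonneg ‖Pq q u x‖)
      rw [e, ind_of_mem hx]
      linarith
    · rw [ind_of_notMem hx, zero_mul, zero_mul]
      positivity
  have k1 : Q (fun x => 12 * (1⁻¹ * θ x ^ 2)) (Δ u) ≤ ENNReal.ofReal (24 * K * (1 + A ^ 2)) *
      (Q (ind (ball 0 (2 / 5))) u + Q (ind (ball 0 (1 / 2))) (Pq q u)) := by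
    refine kele_le (by positivity) mi mu fun x => ?_
    have i0 := ind_nonneg (ball (0 : E n) (2 / 5)) x
    have i1 := ind_mono (ball_subset_ball (x := (0 : E n)) (show (2 : ℝ) / 5 ≤ 1 / 2 by norm_num)) x
    have h3 : ‖Δ u x‖ ≤ ‖Pq q u x‖ + A * ‖u x‖ := by
      have e : Δ u x = Pq q u x + q x * u x := by rw [Pq, sub_add_cancel]
      rw [e]
      refine (norm_add_le _ _).trans ?_
      rw [norm_mul]
      gcongr
      exact hq.2 x
    have h4 : ‖Δ u x‖ ^ 2 ≤ 2 * (1 + A ^ 2) * (‖u x‖ ^ 2 + ‖Pq q u x‖ ^ 2) := by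
      have := pow_le_pow_left₀ (norm_nonneg _) h3 2
      nlinarith [sq_nonneg (‖Pq q u x‖ - A * ‖u x‖), sq_nonneg ‖u x‖, sq_nonneg (A * ‖Pq q u x‖)]
    calc 12 * (1⁻¹ * θ x ^ 2) * ‖Δ u x‖ ^ 2 ≤ 12 * (1⁻¹ * (K * ind (ball 0 (2 / 5)) x)) *
          (2 * (1 + A ^ 2) * (‖u x‖ ^ 2 + ‖Pq q u x‖ ^ 2)) := by
          gcongr
          exact (h₁ x).1
      _ = 24 * K * (1 + A ^ 2) * (ind (ball 0 (2 / 5)) x * ‖u x‖ ^ 2 +
          ind (ball 0 (2 / 5)) x * ‖Pq q u x‖ ^ 2) := by ring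
      _ ≤ _ := by gcongr
  have k2 : Q (fun x => 12 * (1 * θ x ^ 2 + 4 * ‖fderiv ℝ θ x‖ ^ 2)) u ≤ ENNReal.ofReal (60 * K) *
      (Q (ind (ball 0 (2 / 5))) u + Q (ind (ball 0 (1 / 2))) (Pq q u)) := by
    refine kele_le (by positivity) mi mu fun x => ?_
    have h3 := mul_le_mul_of_nonneg_right (h₁ x).1 (sq_nonneg ‖u x‖)
    have h4 := mul_le_mul_of_nonneg_right (h₁ x).2 (sq_nonneg ‖u x‖)
    have h5 := mul_nonneg hK (mul_nonneg (ind_nonneg (ball (0 : E n) (1 / 2)) x)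
      (sq_nonneg ‖Pq q u x‖))
    linarith
  rw [ENNReal.ofReal_add (by positivity) (by positivity),
    ENNReal.ofReal_add (by positivity) (by positivity), add_mul, add_mul]
  refine le_trans ?_ (add_le_add ((scut_grad hu hθ hc one_pos).trans (add_le_add k1 k2))
    (kele_le (by positivity) mi mu fun _ => le_rfl))
  rw [← lintegral_add_left (by fun_prop)]
  exact lintegral_mono fun x => (ENNReal.ofReal_le_ofReal (hpt x)).trans ENNReal.ofReal_add_le

theorem Q_ind_ball {w : E n → ℂ} (hw : Measurable w) {ρ c : ℝ}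
    (hc : ∀ x ∈ ball (0 : E n) ρ, ‖w x‖ ≤ c) :
    Q (ind (ball 0 ρ)) w = ENNReal.ofReal (L.nb ρ w ^ 2) := by
  have hi : IntegrableOn (fun x => ‖w x‖ ^ 2) (ball (0 : E n) ρ) :=
    Measure.integrableOn_of_bounded (M := c ^ 2) measure_ball_lt_top.ne
      (hw.norm.pow_const 2).aestronglyMeasurable
      ((ae_restrict_mem measurableSet_ball).mono fun x hx => by
        rw [norm_pow, norm_norm]
        exact pow_le_pow_left₀ (norm_nonneg _) (hc x hx) 2)
  rw [L.nb, Real.sq_sqrt (integral_nonneg fun x => sq_nonneg _),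
    ofReal_integral_eq_lintegral_ofReal hi (Eventually.of_forall fun x => sq_nonneg _),
    ← lintegral_indicator measurableSet_ball, Q]
  refine lintegral_congr fun x => ?_
  by_cases hx : x ∈ ball (0 : E n) ρ
  · rw [ind_of_mem hx, indicator_of_mem hx, one_mul]
  · rw [ind_of_notMem hx, indicator_of_notMem hx, zero_mul, ENNReal.ofReal_zero]

theorem kele_nb {u : E n → ℂ} (hu : ContDiff ℝ ∞ u) (ρ : ℝ) :
    Q (ind (ball 0 ρ)) u = ENNReal.ofReal (L.nb ρ u ^ 2) := by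
  obtain ⟨c, hc⟩ := (isCompact_closedBall (0 : E n) ρ).exists_bound_of_continuousOn
    hu.continuous.continuousOn
  exact Q_ind_ball hu.continuous.measurable fun x hx => hc x (ball_subset_closedBall hx)

theorem kele_res {A : ℝ} {q u : E n → ℂ} (hq : Bd A q) (hu : ContDiff ℝ ∞ u) :
    Q (ind (ball 0 (1 / 2))) (Pq q u) = ENNReal.ofReal (L.res q u ^ 2) := by
  obtain ⟨c, hc⟩ := (isCompact_closedBall (0 : E n) (1 / 2)).exists_bound_of_continuousOn
    hu.continuous.continuousOn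
  obtain ⟨c', hc'⟩ := (isCompact_closedBall (0 : E n) (1 / 2)).exists_bound_of_continuousOn
    (contDiff_lap hu).continuous.continuousOn
  refine Q_ind_ball (kele_meas hq hu) (c := c' + A * c) fun x hx => (norm_sub_le _ _).trans ?_
  rw [norm_mul]
  exact add_le_add (hc' x (ball_subset_closedBall hx)) (mul_le_mul (hq.2 x)
    (hc x (ball_subset_closedBall hx)) (norm_nonneg _) hq.nonneg)

theorem kele_add {a s : ℝ} (ha : 0 ≤ a) (hs : 0 ≤ s) :
    ENNReal.ofReal (a ^ 2) + ENNReal.ofReal (s ^ 2) ≤ ENNReal.ofReal ((a + s) ^ 2) := by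
  rw [← ENNReal.ofReal_add (sq_nonneg _) (sq_nonneg _)]
  exact ENNReal.ofReal_le_ofReal (by nlinarith [mul_nonneg ha hs])

theorem hcore_of_data (hn : 3 ≤ n) {y : E n} {r : ℝ} (hr : 0 < r) {Z : Set (E n)}
    (hZ : Disjoint Z (ball y r)) {A C : ℝ} {q₁ q₂ f : E n → ℂ} (h₁ : Bd A q₁) (h₂ : Bd A q₂)
    (hd : Data (closedBall y (2 * r)) Z q₁ q₂ f C) :
    L.Hcore (qs y r q₁) (qs y r q₂) (fs y r f) := by
  obtain ⟨K, hK, hQ⟩ := Q_Pq_an n (64 * r ^ 2 * A)
  obtain ⟨M, hM, m1, m2⟩ : ∃ M : ℝ, 0 ≤ M ∧ 64 * r ^ 2 ≤ M ∧ (r ^ 2)⁻¹ * K ≤ M :=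
    ⟨64 * r ^ 2 + (r ^ 2)⁻¹ * K, by positivity, le_add_of_nonneg_right (by positivity),
      le_add_of_nonneg_left (by positivity)⟩
  have key : ∀ q u : E n → ℂ, Bd A q → ContDiff ℝ ∞ u →
      Q (ind Z) (tv y r u) ≤ ENNReal.ofReal (M * (L.nb (1 / 2) u + L.res (qs y r q) u) ^ 2) ∧
      ∀ ρ, 2 / 5 ≤ ρ → Q (ind Z) (Pq q (tv y r u)) ≤
        ENNReal.ofReal (M * (L.nb ρ u + L.res (qs y r q) u) ^ 2) := fun q u hq hu => by
    have hs : 0 ≤ L.res (qs y r q) u := Real.sqrt_nonneg _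
    have hb : ∀ ρ, 0 ≤ L.nb ρ u := fun _ => Real.sqrt_nonneg _
    refine ⟨(Q_tv hn y hr hZ u).trans ?_, fun ρ hρ => (Q_Pq_tv hn y hr hZ q hu).trans ?_⟩
    · rw [ENNReal.ofReal_mul hM, kele_nb hu]
      exact mul_le_mul' (ENNReal.ofReal_le_ofReal m1) (le_self_add.trans (kele_add (hb _) hs))
    · refine (mul_le_mul_right (hQ _ u (bdd_qs y hq) hu) _).trans ?_
      rw [← mul_assoc, ← ENNReal.ofReal_mul (by positivity), ENNReal.ofReal_mul hM]
      refine mul_le_mul' (ENNReal.ofReal_le_ofReal m2) (le_trans ?_ (kele_add (hb ρ) hs))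
      rw [← kele_nb hu, ← kele_res (bdd_qs y hq) hu]
      exact add_le_add_left (Q_ind_mono (ball_subset_ball hρ) u) _
  refine ⟨√(2 * max C 0) * M, fun u₁ u₂ hu₁ hu₂ => ?_⟩
  obtain ⟨a1, a2⟩ := key q₁ u₁ h₁ hu₁
  obtain ⟨b1, b2⟩ := key q₂ u₂ h₂ hu₂
  have h := (hd _ _ (tst_tv hn y hr hu₁).1 (tst_tv hn y hr hu₂).1 (tst_tv hn y hr hu₁).2
    (tst_tv hn y hr hu₂).2).trans (mul_le_mul' (ENNReal.ofReal_le_ofReal (le_max_left C 0))
      (add_le_add (mul_le_mul' (a2 _ le_rfl) (add_le_add b1 (b2 (1 / 2) (by norm_num))))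
        (mul_le_mul' a1 (b2 _ le_rfl))))
  have p : ∀ (ρ : ℝ) (q u : E n → ℂ), 0 ≤ L.nb ρ u + L.res q u := fun _ _ _ =>
    add_nonneg (Real.sqrt_nonneg _) (Real.sqrt_nonneg _)
  have p1 := p (2 / 5) (qs y r q₁) u₁
  have p2 := p (1 / 2) (qs y r q₁) u₁
  have p3 := p (2 / 5) (qs y r q₂) u₂
  have p4 := p (1 / 2) (qs y r q₂) u₂
  have hC := le_max_right C 0
  generalize L.nb (2 / 5) u₁ + L.res (qs y r q₁) u₁ = s₁ at *
  generalize L.nb (1 / 2) u₁ + L.res (qs y r q₁) u₁ = t₁ at *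
  generalize L.nb (2 / 5) u₂ + L.res (qs y r q₂) u₂ = s₂ at *
  generalize L.nb (1 / 2) u₂ + L.res (qs y r q₂) u₂ = t₂ at *
  rw [integral_tv hn y hr, ← ofReal_norm, ← ENNReal.ofReal_pow (norm_nonneg _),
    ← ENNReal.ofReal_add (by positivity) (by positivity), ← ENNReal.ofReal_mul (by positivity),
    ← ENNReal.ofReal_mul (by positivity), ← ENNReal.ofReal_add (by positivity) (by positivity),
    ← ENNReal.ofReal_mul hC, ENNReal.ofReal_le_ofReal_iff (by positivity)] at h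
  refine (pow_le_pow_iff_left₀ (norm_nonneg _) (by positivity) two_ne_zero).1 (h.trans ?_)
  rw [mul_pow, mul_pow, Real.sq_sqrt (by positivity)]
  have : 0 ≤ max C 0 * M ^ 2 * (4 * (s₁ * t₂ * (t₁ * s₂)) + (t₁ * s₂) ^ 2) := by positivity
  linarith

theorem local_zero (core : L.CoreStmt) (hn : 3 ≤ n) {y x₀ : E n} {r : ℝ} (hr : 0 < r)
    (hx : ‖x₀ - y‖ = r) {Z : Set (E n)} (hZ : Disjoint Z (ball y r)) {A A' C : ℝ}
    {q₁ q₂ f : E n → ℂ} (h₁ : Bd A q₁) (h₂ : Bd A q₂) (hf : Bd A' f) (hf0 : ∀ x, x ∉ Z → f x = 0)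
    (hd : Data (closedBall y (2 * r)) Z q₁ q₂ f C) :
    ∃ ε : ℝ, 0 < ε ∧ ∀ᵐ x, x ∈ ball x₀ ε → f x = 0 := by
  obtain ⟨c, hc, h⟩ := core n hn _ _ _ ⟨(bdd_qs y h₁).1, _, (bdd_qs y h₁).2⟩
    ⟨(bdd_qs y h₂).1, _, (bdd_qs y h₂).2⟩ (bdd_fs y hf)
    (fun x hx => fs_zero y hr (fun z hz => hf0 z (disjoint_right.1 hZ hz)) hx)
    (hcore_of_data hn hr hZ h₁ h₂ hd) (r⁻¹ • (x₀ - y))
    (by rw [norm_smul, hx, norm_inv, Real.norm_of_nonneg hr.le, inv_mul_cancel₀ hr.ne'])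
  exact pull_back hn hr hc hx h

end Pool.Agent.MP_71da5e_an.A

end
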