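import Pool.Agent.Mg.F71da5ea.G614156
import Pool.Agent.Mg.F71da5ea.G415590
import Pool.Agent.Mg.F71da5ea.G6326a4
import Pool.Agent.Mg.F71da5ea.Ge9e9cd
import Pool.Agent.Mg.F71da5ea.Gbdc3c2

section

namespace Pool.Agent.MP_71da5e_an.A

open MeasureTheory Metric Set Laplacian Filter Topology
open scoped ContDiff ENNReal RealInnerProductSpace

variable {n : ℕ}

theorem layt_cs {k : E n → ℂ} {A B : E n → ℝ} (hA : Measurable A) (hB : Measurable B)
    (hA0 : ∀ x, 0 ≤ A x) (hB0 : ∀ x, 0 ≤ B x) (h : ∀ x, ‖k x‖ ^ 2 ≤ A x * B x) :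
    ‖∫ x, k x‖ₑ ^ 2 ≤ (∫⁻ x, ENNReal.ofReal (A x)) * ∫⁻ x, ENNReal.ofReal (B x) := by
  have h1 := cs_lintegral (a := fun _ : E n => (1 : ℝ)) measurable_const (fun _ => one_pos)
    (f := fun x => ((√(A x) : ℝ) : ℂ)) (g := fun x => ((√(B x) : ℝ) : ℂ)) (by fun_prop)
    (by fun_prop)
  simp only [Q, inv_one, one_mul, Complex.norm_real, Real.norm_eq_abs, sq_abs, Real.sq_sqrt (hA0 _),
    Real.sq_sqrt (hB0 _)] at h1
  refine (pow_le_pow_left' ((enorm_integral_le_lintegral_enorm _).trans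
    (lintegral_mono fun x => ?_)) 2).trans h1
  rw [← ofReal_norm, ← ofReal_norm, ← Complex.ofReal_mul, ← Real.sqrt_mul (hA0 x),
    Complex.norm_real, Real.norm_of_nonneg (Real.sqrt_nonneg _)]
  exact ENNReal.ofReal_le_ofReal (Real.le_sqrt_of_sq_le (h x))

theorem layt_pt {k t i W X G K c d D₀ D₁ D₂ : ℝ} (ht : 0 < t) (ht1 : t ≤ 1) (hi0 : 0 ≤ i)
    (hi1 : i ≤ 1) (hk : 0 ≤ k)
    (h : k ≤ ((t ^ 2)⁻¹ * (i * W) + G + K * W) * D₀ + c * W * D₁ + 3 * d * X * D₂) :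
    k ^ 2 ≤ (10 ^ 7 * d ^ 2 * X ^ 2 + 10 ^ 5 * (c ^ 2 + 3 * K ^ 2 + 3) * t ^ 2 * (W ^ 2 + G ^ 2) +
      10 ^ 7 * (i * W ^ 2)) *
      ((10 ^ 5)⁻¹ * ((t ^ 4)⁻¹ * D₀ ^ 2 + (t ^ 2)⁻¹ * D₁ ^ 2 + D₂ ^ 2)) := by
  obtain ⟨y₀, rfl⟩ : ∃ y, D₀ = t ^ 2 * y := ⟨D₀ / t ^ 2, by field_simp⟩
  obtain ⟨y₁, rfl⟩ : ∃ y, D₁ = t * y := ⟨D₁ / t, by field_simp⟩
  set x₀ := i * W + t ^ 2 * G + t ^ 2 * (K * W) with e₀
  have h1 : k ≤ x₀ * y₀ + c * W * t * y₁ + 3 * d * X * D₂ := by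
    refine h.trans (le_of_eq ?_)
    rw [e₀]
    field_simp
  have h2 : (x₀ * y₀ + c * W * t * y₁ + 3 * d * X * D₂) ^ 2 ≤
      (x₀ ^ 2 + (c * W * t) ^ 2 + (3 * d * X) ^ 2) * (y₀ ^ 2 + y₁ ^ 2 + D₂ ^ 2) := by
    nlinarith [sq_nonneg (x₀ * y₁ - c * W * t * y₀), sq_nonneg (x₀ * D₂ - 3 * d * X * y₀),
      sq_nonneg (c * W * t * D₂ - 3 * d * X * y₁)]
  have h3 : x₀ ^ 2 ≤ 3 * ((i * W) ^ 2 + (t ^ 2 * G) ^ 2 + (t ^ 2 * (K * W)) ^ 2) := by
    rw [e₀]
    nlinarith [sq_nonneg (i * W - t ^ 2 * G), sq_nonneg (i * W - t ^ 2 * (K * W)),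
      sq_nonneg (t ^ 2 * G - t ^ 2 * (K * W))]
  have h4 : (i * W) ^ 2 ≤ i * W ^ 2 := by
    rw [mul_pow]
    exact mul_le_mul_of_nonneg_right (by nlinarith) (sq_nonneg _)
  have h5 : ∀ z : ℝ, (t ^ 2 * z) ^ 2 ≤ t ^ 2 * z ^ 2 := fun z => by
    rw [mul_pow]
    exact mul_le_mul_of_nonneg_right (pow_le_of_le_one (sq_nonneg t) (pow_le_one₀ ht.le ht1)
      two_ne_zero) (sq_nonneg _)
  have e : (t ^ 4)⁻¹ * (t ^ 2 * y₀) ^ 2 + (t ^ 2)⁻¹ * (t * y₁) ^ 2 + D₂ ^ 2 =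
      y₀ ^ 2 + y₁ ^ 2 + D₂ ^ 2 := by field_simp
  rw [e, ← mul_assoc]
  refine ((pow_le_pow_left₀ hk h1 2).trans h2).trans
    (mul_le_mul_of_nonneg_right ?_ (by positivity))
  have h6 : 0 ≤ i * W ^ 2 := by positivity
  have h7 : 0 ≤ (c ^ 2 + 3 * K ^ 2) * t ^ 2 * G ^ 2 := by positivity
  have h8 : 0 ≤ t ^ 2 * W ^ 2 := by positivity
  have h9 : 0 ≤ d ^ 2 * X ^ 2 := by positivity
  nlinarith [h5 G, h5 (K * W)]

theorem layt_B {ν : E n} (hν : ‖ν‖ = 1) {t : ℝ} (ht : 0 < t) {φ : E n → ℂ} (hφ : Tst φ) :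
    2 * ∫⁻ y, ENNReal.ofReal ((10 ^ 5)⁻¹ * ((t ^ 4)⁻¹ * ‖φ y‖ ^ 2 + (t ^ 2)⁻¹ *
      ‖fderiv ℝ φ y‖ ^ 2 + ‖fderiv ℝ (fderiv ℝ φ) y‖ ^ 2)) ≤ N2 (Lt ν t φ) := by
  obtain ⟨h0, h1, h2⟩ := model_est hν ht hφ
  have c0 := hφ.1.continuous
  have c1 := hφ.1.continuous_fderiv (by simp)
  have e : ∀ y, ENNReal.ofReal ((10 ^ 5)⁻¹ * ((t ^ 4)⁻¹ * ‖φ y‖ ^ 2 + (t ^ 2)⁻¹ *
      ‖fderiv ℝ φ y‖ ^ 2 + ‖fderiv ℝ (fderiv ℝ φ) y‖ ^ 2)) = ENNReal.ofReal (10 ^ 5)⁻¹ *
      (ENNReal.ofReal (t ^ 4)⁻¹ * ENNReal.ofReal (1 * ‖φ y‖ ^ 2) + ENNReal.ofReal (t ^ 2)⁻¹ *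
      ENNReal.ofReal (‖fderiv ℝ φ y‖ ^ 2) + ENNReal.ofReal (‖fderiv ℝ (fderiv ℝ φ) y‖ ^ 2)) :=
    fun y => by
      rw [ENNReal.ofReal_mul (by positivity), ENNReal.ofReal_add (by positivity) (by positivity),
        ENNReal.ofReal_add (by positivity) (by positivity), ENNReal.ofReal_mul (by positivity),
        ENNReal.ofReal_mul (by positivity), one_mul]
  simp only [e]
  rw [lintegral_const_mul' _ _ ENNReal.ofReal_ne_top, lintegral_add_left (by fun_prop),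
    lintegral_add_left (by fun_prop), lintegral_const_mul' _ _ ENNReal.ofReal_ne_top,
    lintegral_const_mul' _ _ ENNReal.ofReal_ne_top]
  have g0 := mul_le_mul_right h0 (ENNReal.ofReal (t ^ 4)⁻¹)
  have g1 := mul_le_mul_right h1 (ENNReal.ofReal (t ^ 2)⁻¹)
  rw [← mul_assoc, ← ENNReal.ofReal_mul (by positivity), mul_comm (10 ^ 4 : ℝ),
    inv_mul_cancel_left₀ (by positivity)] at g0 g1
  refine (mul_le_mul_right (mul_le_mul_right (add_le_add (add_le_add g0 g1) h2) _) _).trans ?_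
  rw [← add_mul, ← add_mul, ← mul_assoc, ← mul_assoc,
    ← ENNReal.ofReal_add (by positivity) (by positivity),
    ← ENNReal.ofReal_add (by positivity) (by positivity), ← ENNReal.ofReal_ofNat 2,
    ← ENNReal.ofReal_mul (by positivity), ← ENNReal.ofReal_mul (by positivity)]
  exact mul_le_of_le_one_left' (ENNReal.ofReal_le_one.2 (by norm_num))

theorem layt_A {a b c : ℝ} (ha : 0 ≤ a) (hb : 0 ≤ b) (hc : 0 ≤ c) {v w F : E n → ℂ}
    (hv : Measurable v) (hw : Measurable w) (hF : Measurable F) (S : Set (E n)) :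
    ∫⁻ x, ENNReal.ofReal (a * ‖v x‖ ^ 2 + b * (‖w x‖ ^ 2 + ‖F x‖ ^ 2) + c * (ind S x * ‖w x‖ ^ 2))
      = ENNReal.ofReal a * N2 v + ENNReal.ofReal b * (N2 w + N2 F) +
        ENNReal.ofReal c * Q (ind S) w := by
  simp only [N2, Q, one_mul]
  rw [← lintegral_add_left (by fun_prop), ← lintegral_const_mul' _ _ ENNReal.ofReal_ne_top,
    ← lintegral_const_mul' _ _ ENNReal.ofReal_ne_top,
    ← lintegral_const_mul' _ _ ENNReal.ofReal_ne_top, ← lintegral_add_left (by fun_prop),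
    ← lintegral_add_left (by fun_prop)]
  refine lintegral_congr fun x => ?_
  have := ind_nonneg S x
  rw [ENNReal.ofReal_add (by positivity) (by positivity),
    ENNReal.ofReal_add (by positivity) (by positivity), ENNReal.ofReal_mul ha,
    ENNReal.ofReal_mul hb, ENNReal.ofReal_mul hc,
    ENNReal.ofReal_add (by positivity) (by positivity)]

/-- The estimate in a chart, tested against an odd function. -/
theorem layer_test {Ω : Set (E n)} {p ν : E n} {δ r M : ℝ} {Ψ : E n ≃ₜ E n}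
    (hc : Chart Ω p δ r M ν Ψ) (hδ : δ ≤ 1) (hd : ∀ x, 1 / 2 ≤ |(fderiv ℝ Ψ x).det|)
    {χ : E n → ℝ} (hχ : ContDiff ℝ ∞ χ) (hχs : tsupport χ ⊆ closedBall p (r / 2))
    (hχ1 : ∀ x, |χ x| ≤ 1) : ∃ C : ℝ, 0 ≤ C ∧ ∀ (t : ℝ) (w F φ : E n → ℂ), 0 < t → t ≤ 1 →
      L2 Ω w → L2 Ω F → (∀ ψ, Tst ψ → (∀ x ∈ frontier Ω, ψ x = 0) → pair w F ψ = 0) →
      Tst φ → IsOdd ν φ → ‖∫ x, χ x * w x * Lt ν t φ (Ψ x)‖ₑ ^ 2 ≤
        (ENNReal.ofReal (10 ^ 7 * n ^ 2 * δ ^ 2) * N2 (fun x => χ x * w x) +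
          ENNReal.ofReal (C * t ^ 2) * (N2 w + N2 F) +
          ENNReal.ofReal (10 ^ 7) * Q (ind (closedBall p (r / 2) ∩ {x | t ≤ ⟪Ψ x, ν⟫})) w) *
          N2 (Lt ν t φ) := by
  have hχc : HasCompactSupport χ :=
    (isCompact_closedBall _ _).of_isClosed_subset (isClosed_tsupport _) hχs
  obtain ⟨K₁, hK₁⟩ := (hχ.continuous_fderiv (by simp)).bounded_above_of_compact_support
    (hχc.fderiv ℝ)
  obtain ⟨K, hK⟩ := (contDiff_lap hχ).continuous.bounded_above_of_compact_support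
    (IsCompact.of_isClosed_subset hχc (isClosed_tsupport _) (tsupport_lap χ))
  have hδ0 : 0 ≤ δ := (norm_nonneg _).trans (hc.d1 0)
  have hM : 0 ≤ M := (ContinuousLinearMap.opNorm_nonneg _).trans (hc.d2 0)
  have hK₁0 : 0 ≤ K₁ := (norm_nonneg _).trans (hK₁ 0)
  have hball : ∀ x, χ x ≠ 0 → x ∈ closedBall p (r / 2) ∧ x ∈ ball p r := fun x h =>
    ⟨hχs (subset_tsupport _ h), closedBall_subset_ball (half_lt_self hc.r_pos)
      (hχs (subset_tsupport _ h))⟩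
  refine ⟨10 ^ 5 * ((n * M + 4 * K₁) ^ 2 + 3 * K ^ 2 + 3), by positivity,
    fun t w F φ ht ht1 hw hF hp hφ ho => ?_⟩
  by_cases hi : Integrable fun x => χ x * w x * Lt ν t φ (Ψ x)
  swap
  · rw [integral_undef hi]
    simp
  set S := closedBall p (r / 2) ∩ {x | t ≤ ⟪Ψ x, ν⟫}
  have hS : MeasurableSet S := measurableSet_closedBall.inter
    (isClosed_le continuous_const (by fun_prop)).measurableSet
  have hu : ContDiff ℝ ∞ fun y => φ (Ψ y) := hφ.1.comp hc.smooth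
  have hψ : Tst fun y => (χ y : ℂ) * φ (Ψ y) :=
    ⟨(Complex.ofRealCLM.contDiff.comp hχ).mul hu,
      (hχc.comp_left (g := fun s : ℝ => (s : ℂ)) Complex.ofReal_zero).mul_right⟩
  have h0 := hp _ hψ fun x hx => by
    rcases eq_or_ne (χ x) 0 with h | h
    · simp [h]
    · have h1 := ho (Ψ x)
      rw [rf_of_mem_Pl (hc.fr x (hball x h).2 hx)] at h1
      rw [self_eq_neg.1 h1, mul_zero]
  have hg := (hF.wl2.integrable_mul hψ.1.continuous hψ.2).sub
    (hw.wl2.integrable_mul hψ.lap.1.continuous hψ.lap.2)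
  have e := (integral_add hi hg).trans ((congrArg _ h0).trans (add_zero _))
  have mw := hw.meas
  have mF := hF.meas
  have mχ := hχ.continuous.measurable
  have mS := measurable_ind hS
  have c0 := hφ.1.continuous
  have c1 := hφ.1.continuous_fderiv (by simp)
  have c2 : Continuous fun x => ‖fderiv ℝ (fderiv ℝ φ) (Ψ x)‖ :=
    (((hφ.1.fderiv_right (m := ∞) (by simp)).continuous_fderiv (by simp)).comp Ψ.continuous).norm
  rw [← e, ← layt_A (by positivity) (by positivity) (by positivity) (by fun_prop) mw mF S]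
  refine (layt_cs (B := fun x => (10 ^ 5)⁻¹ * ((t ^ 4)⁻¹ * ‖φ (Ψ x)‖ ^ 2 + (t ^ 2)⁻¹ *
      ‖fderiv ℝ φ (Ψ x)‖ ^ 2 + ‖fderiv ℝ (fderiv ℝ φ) (Ψ x)‖ ^ 2)) (by fun_prop)
    (continuous_const.mul (Continuous.add (by fun_prop) (c2.pow 2))).measurable
    (fun x => by have := ind_nonneg S x; positivity) (fun x => by positivity) fun x => ?_).trans
    (mul_le_mul_right ((chart_lintegral_le hc.smooth hd fun y => ENNReal.ofReal ((10 ^ 5)⁻¹ *
      ((t ^ 4)⁻¹ * ‖φ y‖ ^ 2 + (t ^ 2)⁻¹ * ‖fderiv ℝ φ y‖ ^ 2 +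
        ‖fderiv ℝ (fderiv ℝ φ) y‖ ^ 2))).trans (layt_B hc.unit ht hφ)) _)
  rw [mul_assoc (10 ^ 7 : ℝ), ← mul_pow]
  refine layt_pt ht ht1 (ind_nonneg S x) (ind_le_one S x) (norm_nonneg _) ?_
  have h1 := chart_lap hc.smooth (hc.d1 x) (hc.d2 x) hφ.1
  have h2 := chart_fderiv_le hc.smooth (hc.d1 x) hφ.1
  have h3 : ‖fderiv ℝ (fun y => φ (Ψ y)) x (gradient χ x)‖ ≤ 2 * ‖fderiv ℝ φ (Ψ x)‖ * K₁ := by
    refine (ContinuousLinearMap.le_opNorm _ _).trans (mul_le_mul (h2.trans ?_) ?_ (norm_nonneg _)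
      (by positivity))
    · exact mul_le_mul_of_nonneg_right (by linarith) (norm_nonneg _)
    · rw [norm_gradient_eq]
      exact hK₁ x
  have h4 : ‖(χ x : ℂ) * w x * Vt ν t (Ψ x)‖ ≤ (t ^ 2)⁻¹ * (ind S x * ‖w x‖) := by
    have := ind_nonneg S x
    by_cases h : (χ x : ℂ) * w x * Vt ν t (Ψ x) = 0
    · rw [h, norm_zero]
      positivity
    · simp only [mul_eq_zero, not_or, Complex.ofReal_eq_zero] at h
      have hx : x ∈ Ω := by_contra fun h' => h.1.2 (hw.zero x h')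
      have h5 : 0 < ⟪Ψ x, ν⟫ := (hc.mem x (hball x h.1.1).2).1 hx
      have h6 : t ≤ ⟪Ψ x, ν⟫ := by
        by_contra h'
        exact h.2 (if_neg (by rwa [abs_of_pos h5]))
      rw [ind_of_mem (show x ∈ S from ⟨(hball x h.1.1).1, h6⟩), norm_mul, norm_mul,
        Complex.norm_real, Complex.norm_real, Real.norm_of_nonneg (Vt_nonneg _ _ _), mul_comm]
      exact mul_le_mul (Vt_le _ _ _) (mul_le_mul_of_nonneg_right (hχ1 x) (norm_nonneg _))
        (by positivity) (by positivity)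
  have h5 : ‖(χ x : ℂ)‖ ≤ 1 := by
    rw [Complex.norm_real]
    exact hχ1 x
  have h6 : ‖(χ x : ℂ) * w x‖ ≤ ‖w x‖ := by
    rw [norm_mul]
    exact mul_le_of_le_one_left (norm_nonneg _) h5
  have h7 : ‖((Δ χ x : ℝ) : ℂ)‖ ≤ K := by
    rw [Complex.norm_real]
    exact hK x
  have e1 : χ x * w x * Lt ν t φ (Ψ x) + (F x * (χ x * φ (Ψ x)) -
      w x * Δ (fun y => (χ y : ℂ) * φ (Ψ y)) x) =
      F x * (χ x * φ (Ψ x)) - χ x * w x * Vt ν t (Ψ x) * φ (Ψ x) -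
        w x * ((Δ χ x : ℝ) * φ (Ψ x)) -
        w x * (2 * fderiv ℝ (fun y => φ (Ψ y)) x (gradient χ x)) -
        χ x * w x * (Δ (fun y => φ (Ψ y)) x - Δ φ (Ψ x)) := by
    rw [lap_smul (hχ.of_le scut_two).contDiffAt (hu.of_le scut_two).contDiffAt, Lt]
    ring
  have b1 : ‖F x * (χ x * φ (Ψ x))‖ ≤ ‖F x‖ * ‖φ (Ψ x)‖ := by
    rw [norm_mul, norm_mul]
    exact mul_le_mul_of_nonneg_left (mul_le_of_le_one_left (norm_nonneg _) h5) (norm_nonneg _)
  have b2 : ‖χ x * w x * Vt ν t (Ψ x) * φ (Ψ x)‖ ≤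
      (t ^ 2)⁻¹ * (ind S x * ‖w x‖) * ‖φ (Ψ x)‖ := by
    rw [norm_mul]
    exact mul_le_mul_of_nonneg_right h4 (norm_nonneg _)
  have b3 : ‖w x * ((Δ χ x : ℝ) * φ (Ψ x))‖ ≤ ‖w x‖ * (K * ‖φ (Ψ x)‖) := by
    rw [norm_mul, norm_mul]
    gcongr
  have b4 : ‖w x * (2 * fderiv ℝ (fun y => φ (Ψ y)) x (gradient χ x))‖ ≤
      ‖w x‖ * (2 * (2 * ‖fderiv ℝ φ (Ψ x)‖ * K₁)) := by
    rw [norm_mul, norm_mul, Complex.norm_two]
    gcongr
  have b5 : ‖χ x * w x * (Δ (fun y => φ (Ψ y)) x - Δ φ (Ψ x))‖ ≤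
      ‖(χ x : ℂ) * w x‖ * (n * (3 * δ) * ‖fderiv ℝ (fderiv ℝ φ) (Ψ x)‖) +
        ‖w x‖ * (n * M * ‖fderiv ℝ φ (Ψ x)‖) := by
    rw [norm_mul]
    refine (mul_le_mul_of_nonneg_left h1 (norm_nonneg _)).trans ?_
    rw [mul_add]
    gcongr
    nlinarith
  refine (le_of_eq (congrArg norm e1)).trans ((norm_sub_le_of_le (norm_sub_le_of_le
    (norm_sub_le_of_le (norm_sub_le_of_le b1 b2) b3) b4) b5).trans (le_of_eq ?_))
  ring

end Pool.Agent.MP_71da5e_an.A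

end

section

namespace Pool.Agent.MP_71da5e_an.A

open MeasureTheory Metric Set Laplacian Filter Topology
open scoped ContDiff ENNReal RealInnerProductSpace

variable {n : ℕ}

lemma lyr_absorb {N a R : ℝ≥0∞} (hN : N ≠ ⊤) (ha : 8 * a ≤ 1) (h : N ≤ 2 * (2 * (a * N + R))) :
    N ≤ 8 * R := by
  have h1 : N + N ≤ N + 8 * R := by
    calc N + N ≤ 2 * (2 * (a * N + R)) + 2 * (2 * (a * N + R)) := add_le_add h h
      _ = 8 * a * N + 8 * R := by ring
      _ ≤ 1 * N + 8 * R := by gcongr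
      _ = N + 8 * R := by rw [one_mul]
  exact (ENNReal.add_le_add_iff_left hN).1 h1

lemma lyr_pull {Ψ : E n ≃ₜ E n} (hΨ : ContDiff ℝ ∞ Ψ)
    (hd : ∀ x, 1 / 2 ≤ |(fderiv ℝ Ψ x).det|) (v : E n → ℂ) :
    N2 (fun y => v (Ψ.symm y) / ((|(fderiv ℝ Ψ (Ψ.symm y)).det| : ℝ) : ℂ)) =
      Q (fun x => |(fderiv ℝ Ψ x).det|⁻¹) v := by
  unfold N2 Q
  rw [chart_lintegral hΨ]
  refine lintegral_congr fun x => ?_
  have h0 : 0 < |(fderiv ℝ Ψ x).det| := lt_of_lt_of_le (by norm_num) (hd x)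
  simp only [Homeomorph.symm_apply_apply]
  rw [← ENNReal.ofReal_mul h0.le, norm_div, Complex.norm_real, Real.norm_of_nonneg h0.le]
  congr 1
  field_simp

lemma lyr_two (a : E n → ℝ) (v : E n → ℂ) : Q (fun x => 2 * a x) v = 2 * Q a v := by
  rw [Q_const_mul (by norm_num : (0 : ℝ) ≤ 2) a v, ENNReal.ofReal_ofNat]

lemma lyr_dual {ν : E n} (hν : ‖ν‖ = 1) {t : ℝ} (ht : 0 < t) {Ψ : E n ≃ₜ E n}
    (hΨ : ContDiff ℝ ∞ Ψ) (hd : ∀ x, 1 / 2 ≤ |(fderiv ℝ Ψ x).det|)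
    (hd' : ∀ x, |(fderiv ℝ Ψ x).det| ≤ 2) {v : E n → ℂ} (hv : Measurable v) (hfin : N2 v ≠ ⊤)
    (h0 : ∀ x, Ψ x ∉ Hs ν → v x = 0) {B : ℝ≥0∞}
    (h : ∀ φ, Tst φ → IsOdd ν φ → ‖∫ x, v x * Lt ν t φ (Ψ x)‖ₑ ^ 2 ≤ B * N2 (Lt ν t φ)) :
    N2 v ≤ 2 * (2 * B) := by
  have hpos : ∀ x, 0 < |(fderiv ℝ Ψ x).det| := fun x => lt_of_lt_of_le (by norm_num) (hd x)
  have hc : Continuous fun x => |(fderiv ℝ Ψ x).det| :=
    (ContinuousLinearMap.continuous_det.comp (hΨ.continuous_fderiv (by simp))).abs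
  have hm : Measurable fun y => v (Ψ.symm y) / ((|(fderiv ℝ Ψ (Ψ.symm y)).det| : ℝ) : ℂ) :=
    (hv.comp Ψ.symm.continuous.measurable).div
      (Complex.continuous_ofReal.comp (hc.comp Ψ.symm.continuous)).measurable
  have h1 : Q (fun x => |(fderiv ℝ Ψ x).det|⁻¹) v ≤ 2 * N2 v := by
    refine le_of_le_of_eq (Q_mono_left v fun x => ?_) (lyr_two (fun _ => 1) v)
    rw [inv_le_iff_one_le_mul₀ (hpos x)]
    linarith [hd x]
  have h2 : N2 v ≤ 2 * Q (fun x => |(fderiv ℝ Ψ x).det|⁻¹) v := by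
    refine le_of_le_of_eq (Q_mono_left v fun x => ?_) (lyr_two _ v)
    rw [← div_eq_mul_inv, le_div_iff₀ (hpos x)]
    linarith [hd' x]
  have hW : L2 (Hs ν) fun y => v (Ψ.symm y) / ((|(fderiv ℝ Ψ (Ψ.symm y)).det| : ℝ) : ℂ) := by
    refine ⟨hm, ?_, fun y hy => ?_⟩
    · rw [lyr_pull hΨ hd]
      exact ne_top_of_le_ne_top (ENNReal.mul_ne_top (by simp) hfin) h1
    · rw [h0 _ (by simpa using hy), zero_div]
  have h3 := model_dual hν ht hW (B := B) fun φ hφ ho => by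
    rw [chart_integral hΨ]
    refine le_of_eq_of_le ?_ (h φ hφ ho)
    congr 3
    funext x
    have : ((|(fderiv ℝ Ψ x).det| : ℝ) : ℂ) ≠ 0 := Complex.ofReal_ne_zero.2 (hpos x).ne'
    simp only [Homeomorph.symm_apply_apply]
    field_simp
  rw [lyr_pull hΨ hd] at h3
  exact h2.trans (by gcongr)

lemma lyr_delta (n : ℕ) {δ₀ : ℝ} (h : 0 < δ₀) :
    ∃ δ : ℝ, 0 < δ ∧ δ ≤ δ₀ ∧ 8 * ENNReal.ofReal (10 ^ 7 * n ^ 2 * δ ^ 2) ≤ 1 := by
  have hn : (0 : ℝ) ≤ n := Nat.cast_nonneg n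
  refine ⟨min δ₀ (1 / (10 ^ 4 * (n + 1))), lt_min h (by positivity), min_le_left _ _, ?_⟩
  have h1 : 0 < min δ₀ (1 / (10 ^ 4 * (n + 1) : ℝ)) := lt_min h (by positivity)
  have h2 : min δ₀ (1 / (10 ^ 4 * (n + 1) : ℝ)) * (10 ^ 4 * (n + 1)) ≤ 1 :=
    (le_div_iff₀ (by positivity)).1 (min_le_right _ _)
  generalize min δ₀ (1 / (10 ^ 4 * (n + 1) : ℝ)) = δ at h1 h2
  rw [← ENNReal.ofReal_ofNat, ← ENNReal.ofReal_mul (by norm_num), ENNReal.ofReal_le_one]
  have h3 : 0 ≤ δ * n := by positivity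
  have h4 : δ * n ≤ 1 / 10 ^ 4 := by nlinarith
  nlinarith [mul_le_mul h4 h4 h3 (by norm_num)]

lemma lyr_t {C η : ℝ} (hC : 0 ≤ C) (hη : 0 < η) :
    ∃ t : ℝ, 0 < t ∧ t ≤ 1 ∧ 8 * (C * t ^ 2) ≤ η := by
  refine ⟨min 1 (η / (8 * (C + 1))), lt_min one_pos (by positivity), min_le_left _ _, ?_⟩
  have h1 : 0 < min 1 (η / (8 * (C + 1))) := lt_min one_pos (by positivity)
  have h2 : min 1 (η / (8 * (C + 1))) * (8 * (C + 1)) ≤ η :=
    (le_div_iff₀ (by positivity)).1 (min_le_right _ _)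
  have h3 : min 1 (η / (8 * (C + 1))) ≤ 1 := min_le_left _ _
  generalize min 1 (η / (8 * (C + 1))) = t at h1 h2 h3
  nlinarith [mul_nonneg (mul_nonneg hC h1.le) (sub_nonneg.2 h3)]

/-- A very weak solution with zero Dirichlet data has little mass near the boundary. -/
theorem layer {Ω : Set (E n)} (hΩ : Dom Ω) {p : E n} (hp : p ∈ frontier Ω) :
    ∃ r : ℝ, 0 < r ∧ ∀ η : ℝ, 0 < η → ∃ (K : Set (E n)) (C : ℝ), IsCompact K ∧ K ⊆ Ω ∧
      ∀ w F : E n → ℂ, L2 Ω w → L2 Ω F →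
        (∀ ψ, Tst ψ → (∀ x ∈ frontier Ω, ψ x = 0) → pair w F ψ = 0) →
        Q (ind (ball p r)) w ≤
          ENNReal.ofReal η * (N2 w + N2 F) + ENNReal.ofReal C * Q (ind K) w := by
  obtain ⟨δ₀, hδ₀, hδ₁, hdet⟩ := chart_det n
  obtain ⟨δ, hδ, hδ', hδa⟩ := lyr_delta n hδ₀
  obtain ⟨ρ, hρ⟩ := hΩ.sm p hp
  obtain ⟨r, M, ν, Ψ, hc⟩ := exists_chart hΩ.op hp hρ hδ
  have hr := hc.r_pos
  have hd := fun x => hdet _ ((hc.d1 x).trans hδ')
  let χ : ContDiffBump p := ⟨r / 4, r / 2, by positivity, by linarith⟩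
  have hχ1 : ∀ x, |χ x| ≤ 1 := fun x => by
    rw [abs_of_nonneg χ.nonneg]
    exact χ.le_one
  obtain ⟨C, hC, hT⟩ := layer_test hc (hδ'.trans hδ₁) (fun x => (hd x).1) χ.contDiff
    χ.tsupport_eq.subset hχ1
  refine ⟨r / 4, by positivity, fun η hη => ?_⟩
  obtain ⟨t, ht, ht1, htη⟩ := lyr_t hC hη
  have hb : closedBall p (r / 2) ⊆ ball p r := closedBall_subset_ball (by linarith)
  refine ⟨closedBall p (r / 2) ∩ {x | t ≤ ⟪Ψ x, ν⟫}, 8 * 10 ^ 7, ?_, fun x hx => ?_,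
    fun w F hw hF hweak => ?_⟩
  · exact (isCompact_closedBall _ _).inter_right
      (isClosed_le continuous_const (Ψ.continuous.inner continuous_const))
  · exact (hc.mem x (hb hx.1)).2 (ht.trans_le hx.2)
  have hle : N2 (fun x => χ x * w x) ≤ N2 w := Q_mono fun x => by
    rw [norm_mul, mul_pow, Complex.norm_real, Real.norm_eq_abs]
    have h1 : |χ x| ^ 2 ≤ 1 := pow_le_one₀ (abs_nonneg _) (hχ1 x)
    nlinarith [sq_nonneg ‖w x‖]
  have hfin := ne_top_of_le_ne_top hw.fin hle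
  have hm : Measurable fun x => (χ x : ℂ) * w x :=
    (Complex.continuous_ofReal.comp χ.continuous).measurable.mul hw.meas
  have h0 : ∀ x, Ψ x ∉ Hs ν → (χ x : ℂ) * w x = 0 := fun x hx => by
    by_cases hx' : x ∈ ball p r
    · rw [hw.zero x fun h => hx ((hc.mem x hx').1 h), mul_zero]
    · rw [χ.zero_of_le_dist (not_lt.1 fun h => hx' (hb (mem_closedBall.2 h.le))),
        Complex.ofReal_zero, zero_mul]
  have h1 := lyr_dual hc.unit ht hc.smooth (fun x => (hd x).1) (fun x => (hd x).2) hm hfin h0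
    fun φ hφ ho => hT t w F φ ht ht1 hw hF hweak hφ ho
  rw [add_assoc] at h1
  have h2 := lyr_absorb hfin hδa h1
  have h3 : Q (ind (ball p (r / 4))) w ≤ N2 fun x => χ x * w x := Q_mono fun x => by
    by_cases hx : x ∈ ball p (r / 4)
    · rw [ind_of_mem hx, χ.one_of_mem_closedBall (ball_subset_closedBall hx), Complex.ofReal_one,
        one_mul (w x)]
    · rw [ind_of_notMem hx, zero_mul]
      positivity
  refine h3.trans (h2.trans ?_)
  rw [mul_add, ← mul_assoc, ← mul_assoc, ← ENNReal.ofReal_ofNat,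
    ← ENNReal.ofReal_mul (by norm_num), ← ENNReal.ofReal_mul (by norm_num)]
  gcongr

end Pool.Agent.MP_71da5e_an.A

end

section

namespace Pool.Agent.MP_71da5e_an.A

open MeasureTheory Metric Set Laplacian Filter Topology
open scoped ContDiff ENNReal RealInnerProductSpace NNReal

variable {n : ℕ}

/-- The mass of every solution in `S` is small. -/
def estw_P (Ω B : Set (E n)) (q : E n → ℂ) (S : Set (E n)) : Prop :=
  ∀ η : ℝ≥0, 0 < η → ∃ C : ℝ≥0, ∀ w g, VW Ω B q w g → Q (ind S) w ≤ η * N2 w + C * N2 g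

theorem estw_zero {S : Set (E n)} {w : E n → ℂ} (h : ∀ x ∈ S, w x = 0) : Q (ind S) w = 0 := by
  refine (lintegral_congr fun x => ?_).trans lintegral_zero
  by_cases hx : x ∈ S
  · simp [h x hx]
  · simp [ind_of_notMem hx]

theorem estw_union {Ω B S T : Set (E n)} {q : E n → ℂ} (hm : MeasurableSet S)
    (hS : estw_P Ω B q S) (hT : estw_P Ω B q T) : estw_P Ω B q (S ∪ T) := by
  intro η hη
  obtain ⟨C, hC⟩ := hS (η / 2) (half_pos hη)
  obtain ⟨D, hD⟩ := hT (η / 2) (half_pos hη)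
  refine ⟨C + D, fun w g h => ?_⟩
  have h1 : Q (ind (S ∪ T)) w ≤ Q (ind S) w + Q (ind T) w := by
    refine Q_le_add (measurable_ind hm) h.lw.meas fun x => ?_
    rw [← add_mul]
    refine mul_le_mul_of_nonneg_right ?_ (sq_nonneg _)
    by_cases hx : x ∈ S ∪ T
    · rcases hx with hx | hx
      · exact (ind_le_one _ x).trans (by rw [ind_of_mem hx]; linarith [ind_nonneg T x])
      · exact (ind_le_one _ x).trans (by rw [ind_of_mem hx]; linarith [ind_nonneg S x])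
    · rw [ind_of_notMem hx]
      exact add_nonneg (ind_nonneg _ x) (ind_nonneg _ x)
  refine (h1.trans (add_le_add (hC w g h) (hD w g h))).trans_eq ?_
  conv_rhs => rw [← add_halves η, ENNReal.coe_add, ENNReal.coe_add]
  ring

theorem estw_cpt {Ω B K : Set (E n)} (hΩ : IsOpen Ω) (hB : IsOpen B) (hc : IsPreconnected (Ω ∪ B))
    {y₀ : E n} (hy : y₀ ∈ B) {s : ℝ} (hs : 0 < s) (hd : Disjoint (ball y₀ s) Ω) {A : ℝ}
    {q : E n → ℂ} (hq : Bd A q) (hK : IsCompact K) (hKΩ : K ⊆ Ω) : estw_P Ω B q K := by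
  intro η hη
  obtain ⟨C, hC⟩ := chain (hΩ.union hB) hc hK (hKΩ.trans subset_union_left) (Or.inr hy) hs A
    (NNReal.coe_pos.2 hη)
  refine ⟨C.toNNReal, fun w g h => (hC q w g hq h.lg.wl2 (h.wp hΩ hq)).trans ?_⟩
  rw [estw_zero fun x hx => h.lw.zero x (disjoint_left.1 hd hx), add_zero,
    ENNReal.ofReal_coe_nnreal]
  exact add_le_add (mul_le_mul_right (Q_ind_le _ w) _) (mul_le_mul_right (Q_ind_le _ g) _)

theorem estw_rhs {A : ℝ} {q w g : E n → ℂ} (hq : Bd A q) (hg : Measurable g) :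
    N2 (fun x => g x + q x * w x) ≤ 2 * N2 g + (2 * A ^ 2).toNNReal * N2 w := by
  have h : N2 (fun x => g x + q x * w x) ≤
      Q (fun _ => 2 * 1) g + Q (fun _ => 2 * A ^ 2 * 1) w := by
    refine Q_le_add measurable_const hg fun x => ?_
    have h1 : ‖g x + q x * w x‖ ≤ ‖g x‖ + A * ‖w x‖ :=
      (norm_add_le _ _).trans (by rw [norm_mul]; gcongr; exact hq.2 x)
    have h2 := pow_le_pow_left₀ (norm_nonneg _) h1 2
    nlinarith [sq_nonneg (‖g x‖ - A * ‖w x‖)]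
  rw [Q_const_mul zero_le_two, Q_const_mul (by positivity), ENNReal.ofReal_ofNat] at h
  exact h

theorem estw_L2 {Ω B : Set (E n)} {A : ℝ} {q w g : E n → ℂ} (hq : Bd A q) (h : VW Ω B q w g) :
    L2 Ω fun x => g x + q x * w x :=
  ⟨h.lg.meas.add (hq.1.mul h.lw.meas),
    ne_top_of_le_ne_top (ENNReal.add_ne_top.2 ⟨ENNReal.mul_ne_top ENNReal.ofNat_ne_top h.lg.fin,
      ENNReal.mul_ne_top ENNReal.coe_ne_top h.lw.fin⟩) (estw_rhs hq h.lg.meas),
    fun x hx => by rw [h.lg.zero x hx, h.lw.zero x hx, mul_zero, add_zero]⟩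

theorem estw_bd {Ω B : Set (E n)} (hΩ : Dom Ω) {A : ℝ} {q : E n → ℂ} (hq : Bd A q)
    (hK : ∀ K, IsCompact K → K ⊆ Ω → estw_P Ω B q K) {p : E n} (hp : p ∈ frontier Ω) :
    ∃ r : ℝ, 0 < r ∧ estw_P Ω B q (ball p r) := by
  obtain ⟨r, hr, h⟩ := layer hΩ hp
  refine ⟨r, hr, fun η hη => ?_⟩
  set a : ℝ≥0 := (2 * A ^ 2).toNNReal
  obtain ⟨K, C, hK1, hK2, hC⟩ := h (η / 2 / (1 + a) : ℝ≥0) (NNReal.coe_pos.2 (by positivity))
  obtain ⟨D, hD⟩ := hK K hK1 hK2 (η / 2 / (1 + C.toNNReal)) (by positivity)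
  refine ⟨2 * (η / 2 / (1 + a)) + C.toNNReal * D, fun w g hw => ?_⟩
  refine (hC w _ hw.lw (estw_L2 hq hw) fun ψ hψ h0 => hw.weak ψ hψ fun x hx => h0 x hx.1).trans ?_
  rw [ENNReal.ofReal_coe_nnreal]
  have e1 : η / 2 / (1 + a) * (1 + a) = η / 2 := div_mul_cancel₀ _ (by positivity)
  have e2 : C.toNNReal * (η / 2 / (1 + C.toNNReal)) ≤ η / 2 := by
    rw [mul_comm]
    exact (mul_le_mul_right le_add_self _).trans_eq (div_mul_cancel₀ _ (by positivity))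
  have e3 : η / 2 / (1 + a) * (1 + a) + C.toNNReal * (η / 2 / (1 + C.toNNReal)) ≤ η := by
    rw [e1]
    exact (add_le_add_right e2 _).trans_eq (add_halves η)
  generalize η / 2 / (1 + a) = u at *
  generalize η / 2 / (1 + C.toNNReal) = v at *
  calc (u : ℝ≥0∞) * (N2 w + N2 fun x => g x + q x * w x) + C.toNNReal * Q (ind K) w
      ≤ u * (N2 w + (2 * N2 g + a * N2 w)) + C.toNNReal * (v * N2 w + D * N2 g) := by
        gcongr
        · exact estw_rhs hq hw.lg.meas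
        · exact hD w g hw
    _ = (u * (1 + a) + C.toNNReal * v : ℝ≥0) * N2 w + (2 * u + C.toNNReal * D : ℝ≥0) * N2 g := by
        push_cast
        ring
    _ ≤ _ := by gcongr

theorem est_exists {Ω B : Set (E n)} (hΩ : Dom Ω) (hB : IsOpen B) (hc : IsPreconnected (Ω ∪ B))
    {y₀ : E n} (hy : y₀ ∈ B) {s : ℝ} (hs : 0 < s) (hd : Disjoint (ball y₀ s) Ω) {A : ℝ}
    {q : E n → ℂ} (hq : Bd A q) : ∃ C : ℝ, Est Ω B q C := by
  have hK : ∀ K, IsCompact K → K ⊆ Ω → estw_P Ω B q K := fun K =>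
    estw_cpt hΩ.op hB hc hy hs hd hq
  obtain ⟨T, hT, -, hP⟩ : ∃ T, closure Ω ⊆ T ∧ MeasurableSet T ∧ estw_P Ω B q T := by
    refine hΩ.bd.isCompact_closure.induction_on
      (p := fun S => ∃ T, S ⊆ T ∧ MeasurableSet T ∧ estw_P Ω B q T)
      ⟨∅, Subset.rfl, MeasurableSet.empty, hK _ isCompact_empty (empty_subset _)⟩
      (fun _ _ h ⟨T, h1, h2⟩ => ⟨T, h.trans h1, h2⟩)
      (fun _ _ ⟨T, h1, h2, h3⟩ ⟨T', h1', h2', h3'⟩ =>
        ⟨T ∪ T', union_subset_union h1 h1', h2.union h2', estw_union h2 h3 h3'⟩) fun x hx => ?_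
    by_cases hxΩ : x ∈ Ω
    · obtain ⟨r, hr, h⟩ := nhds_basis_closedBall.mem_iff.1 (hΩ.op.mem_nhds hxΩ)
      exact ⟨_, mem_nhdsWithin_of_mem_nhds (closedBall_mem_nhds x hr), _, Subset.rfl,
        measurableSet_closedBall, hK _ (isCompact_closedBall x r) h⟩
    · obtain ⟨r, hr, h⟩ := estw_bd hΩ hq hK (p := x) (by rw [hΩ.op.frontier_eq]; exact ⟨hx, hxΩ⟩)
      exact ⟨_, mem_nhdsWithin_of_mem_nhds (ball_mem_nhds x hr), _, Subset.rfl,
        measurableSet_ball, h⟩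
  obtain ⟨C, hC⟩ := hP (1 / 2) (by positivity)
  refine ⟨(2 * C : ℝ≥0), fun w g h => ?_⟩
  have h1 : N2 w ≤ Q (ind T) w := Q_mono fun x => by
    by_cases hx : x ∈ Ω
    · rw [ind_of_mem (hT (subset_closure hx))]
    · simp [h.lw.zero x hx]
  have h2 := h1.trans (hC w g h)
  rw [ENNReal.ofReal_coe_nnreal]
  lift N2 w to ℝ≥0 using h.lw.fin with a
  lift N2 g to ℝ≥0 using h.lg.fin with b
  rw [← ENNReal.coe_mul, ← ENNReal.coe_mul, ← ENNReal.coe_add, ENNReal.coe_le_coe,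
    ← NNReal.coe_le_coe] at h2
  rw [← ENNReal.coe_mul, ENNReal.coe_le_coe, ← NNReal.coe_le_coe]
  push_cast at h2 ⊢
  linarith

theorem uc_of_open {Ω B G : Set (E n)} (hΩ : IsOpen Ω) (hG : IsOpen G) (hc : IsPreconnected G)
    (hGU : G ⊆ Ω ∪ B) {y₀ : E n} (hy : y₀ ∈ G) {s : ℝ} (hs : 0 < s)
    (hd : Disjoint (ball y₀ s) Ω) {A : ℝ} {q : E n → ℂ} (hq : Bd A q) : UC Ω B (Ω \ G) q := by
  intro w g h hg
  have h0 := ucp hG hc hy hs hq h.lg.wl2 (WP.mono' (h.wp hΩ hq) hGU) h.lw.fin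
    (hg.mono fun x hx hxG => hx fun h' => h'.2 hxG)
    (Eventually.of_forall fun x hx => h.lw.zero x (disjoint_left.1 hd hx))
  refine h0.mono fun x hx hxZ => ?_
  by_cases hxG : x ∈ G
  · exact hx hxG
  · exact h.lw.zero x fun hxΩ => hxZ ⟨hxΩ, hxG⟩

end Pool.Agent.MP_71da5e_an.A

end

section

namespace Pool.Agent.MP_71da5e_an

open MeasureTheory Metric Set Laplacian Filter Topology
open scoped ContDiff ENNReal RealInnerProductSpace

variable {n : ℕ}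

theorem greenH_real {ν : E n} (hν : ‖ν‖ = 1) {g : E n → ℝ} (hg : ContDiff ℝ 1 g)
    (hc : HasCompactSupport g) (h0 : ∀ x ∈ Pl ν, g x = 0) (v : E n) :
    ∫ x in Hs ν, fderiv ℝ g x v = 0 := by
  obtain ⟨C, hC⟩ := hg.lipschitzWith_of_hasCompactSupport hc one_ne_zero
  have h1 := hC.comp (LipschitzWith.id.add
    ((ContinuousLinearMap.toSpanSingleton ℝ ν).lipschitz.comp
      ((innerSL ℝ ν).lipschitz.neg.max_const 0)))
  have h2 : (g ∘ fun x : E n => id x + (ContinuousLinearMap.toSpanSingleton ℝ ν ∘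
      fun x => max ((-(innerSL ℝ ν : E n → ℝ)) x) 0) x) = (Hs ν).indicator g := by
    ext x
    simp only [Function.comp_apply, id, ContinuousLinearMap.toSpanSingleton_apply, Pi.neg_apply,
      innerSL_apply_apply, real_inner_comm x ν]
    by_cases hx : x ∈ Hs ν
    · rw [indicator_of_mem hx, max_eq_right (neg_nonpos.2 (le_of_lt hx)), zero_smul, add_zero]
    · rw [indicator_of_notMem hx, max_eq_left (neg_nonneg.2 (not_lt.1 hx))]
      refine h0 _ ?_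
      simp only [Pl, mem_ofPred_eq, inner_add_left, inner_smul_left, real_inner_self_eq_norm_sq, hν]
      simp
  rw [h2] at h1
  have h3 := LipschitzWith.integral_lineDeriv_mul_eq (μ := volume)
    (LipschitzWith.const (α := E n) (1 : ℝ)) h1 (hc.mono (by
      rw [support_indicator]; exact inter_subset_right)) (-v)
  simp only [neg_neg, mul_one, lineDeriv, deriv_const', zero_mul, integral_zero] at h3
  rw [← integral_indicator (isOpen_Hs ν).measurableSet, h3]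
  refine integral_congr_ae ?_
  filter_upwards [measure_eq_zero_iff_ae_notMem.1 (volume_Pl hν)] with x hx
  change _ = lineDeriv ℝ ((Hs ν).indicator g) x v
  rcases lt_or_gt_of_ne (show ⟪x, ν⟫ ≠ 0 from hx) with h | h
  · have : (Hs ν).indicator g =ᶠ[𝓝 x] fun _ => 0 := by
      filter_upwards [(isOpen_lt (f := fun y : E n => ⟪y, ν⟫) (by fun_prop)
        continuous_const).mem_nhds h] with y hy
      exact indicator_of_notMem (s := Hs ν) (not_lt.2 (le_of_lt hy)) _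
    rw [this.lineDeriv_eq, indicator_of_notMem (s := Hs ν) (not_lt.2 h.le)]
    simp [lineDeriv]
  · have : (Hs ν).indicator g =ᶠ[𝓝 x] g := by
      filter_upwards [(isOpen_Hs ν).mem_nhds h] with y hy
      exact indicator_of_mem hy _
    rw [this.lineDeriv_eq, indicator_of_mem (show x ∈ Hs ν from h),
      (hg.differentiable one_ne_zero x).lineDeriv_eq_fderiv]

theorem greenH_int {g : E n → ℂ} (hg : ContDiff ℝ 1 g) (hc : HasCompactSupport g) (v : E n) :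
    Integrable fun x => fderiv ℝ g x v :=
  ((hg.continuous_fderiv one_ne_zero).clm_apply continuous_const).integrable_of_hasCompactSupport
    (hc.fderiv_apply ℝ v)

theorem setIntegral_fderiv_zero {ν : E n} (hν : ‖ν‖ = 1) {g : E n → ℂ} (hg : ContDiff ℝ 1 g)
    (hc : HasCompactSupport g) (h0 : ∀ x ∈ Pl ν, g x = 0) (v : E n) :
    ∫ x in Hs ν, fderiv ℝ g x v = 0 := by
  have key : ∀ L : ℂ →L[ℝ] ℝ, L (∫ x in Hs ν, fderiv ℝ g x v) = 0 := by
    intro L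
    rw [← L.integral_comp_comm (greenH_int hg hc v).integrableOn,
      ← greenH_real hν (g := L ∘ g) (L.contDiff.comp hg) (hc.comp_left (map_zero L))
      (fun x hx => by simp [h0 x hx]) v]
    refine integral_congr_ae (Eventually.of_forall fun x => ?_)
    simp only [(L.hasFDerivAt.comp x (hg.differentiable one_ne_zero x).hasFDerivAt).fderiv,
      ContinuousLinearMap.comp_apply]
  exact Complex.ext (key Complex.reCLM) (key Complex.imCLM)

theorem greenH_d {φ : E n → ℂ} (hφ : Tst φ) (v : E n) : ContDiff ℝ ∞ fun x => fderiv ℝ φ x v :=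
  (hφ.1.fderiv_right (m := ∞) (by simp)).clm_apply contDiff_const

theorem greenH_d0 {φ : E n → ℂ} {x : E n} (h : x ∉ tsupport φ) (v : E n) :
    fderiv ℝ φ x v = 0 := by
  rw [(notMem_tsupport_iff_eventuallyEq.1 h).fderiv_eq]; simp

theorem green_half {ν : E n} (hν : ‖ν‖ = 1) {φ ψ : E n → ℂ} (hφ : Tst φ) (hψ : Tst ψ)
    (h : ∀ x ∈ Pl ν, (φ x = 0 ∧ ψ x = 0) ∨ x ∉ tsupport φ ∨ x ∉ tsupport ψ) :
    pair ((Hs ν).indicator φ) ((Hs ν).indicator (Δ φ)) ψ = 0 := by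
  set g : Fin n → E n → ℂ := fun i x => fderiv ℝ φ x (ev i) * ψ x - φ x * fderiv ℝ ψ x (ev i)
    with hg
  have g1 : ∀ i, ContDiff ℝ 1 (g i) := fun i =>
    (((greenH_d hφ _).mul hψ.1).sub (hφ.1.mul (greenH_d hψ _))).of_le (by simp)
  have g2 : ∀ i, HasCompactSupport (g i) := fun i => hψ.2.mul_left.sub hφ.2.mul_right
  have g3 : ∀ i, ∀ x ∈ Pl ν, g i x = 0 := by
    intro i x hx
    rcases h x hx with h | h | h
    · simp [hg, h.1, h.2]
    · simp [hg, image_eq_zero_of_notMem_tsupport h, greenH_d0 h]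
    · simp [hg, image_eq_zero_of_notMem_tsupport h, greenH_d0 h]
  have g4 : ∀ x, Δ φ x * ψ x - φ x * Δ ψ x = ∑ i, fderiv ℝ (g i) x (ev i) := by
    intro x
    have h2 : (2 : WithTop ℕ∞) ≤ ((⊤ : ℕ∞) : WithTop ℕ∞) := WithTop.coe_le_coe.2 le_top
    rw [lap_eq (hφ.1.of_le h2).contDiffAt, lap_eq (hψ.1.of_le h2).contDiffAt,
      Finset.sum_mul, Finset.mul_sum, ← Finset.sum_sub_distrib]
    refine Finset.sum_congr rfl fun i _ => ?_
    have := ((((greenH_d hφ (ev i)).differentiable (by simp) x).hasFDerivAt.mul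
      (hψ.1.differentiable (by simp) x).hasFDerivAt).sub
      ((hφ.1.differentiable (by simp) x).hasFDerivAt.mul
        ((greenH_d hψ (ev i)).differentiable (by simp) x).hasFDerivAt)).fderiv
    change fderiv ℝ (g i) x = _ at this
    rw [this]
    simp only [sub_apply, add_apply, smul_apply, smul_eq_mul]
    ring
  have : pair ((Hs ν).indicator φ) ((Hs ν).indicator (Δ φ)) ψ =
      ∫ x in Hs ν, ∑ i, fderiv ℝ (g i) x (ev i) := by
    rw [pair, ← integral_indicator (isOpen_Hs ν).measurableSet]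
    refine integral_congr_ae (Eventually.of_forall fun x => ?_)
    by_cases hx : x ∈ Hs ν
    · simp only [indicator_of_mem hx, g4]
    · simp only [indicator_of_notMem hx, zero_mul, sub_zero]
  rw [this, integral_finsetSum _ fun i _ => (greenH_int (g1 i) (g2 i) _).integrableOn]
  exact Finset.sum_eq_zero fun i _ => setIntegral_fderiv_zero hν (g1 i) (g2 i) (g3 i) _

theorem HP_of_test {ν : E n} (hν : ‖ν‖ = 1) {G : Set (E n)} {φ : E n → ℂ} (hφ : Tst φ)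
    (h0 : ∀ x ∈ Pl ν, φ x = 0) (hG : Disjoint (tsupport φ ∩ Pl ν) G) :
    HP ν G ((Hs ν).indicator φ) ((Hs ν).indicator (Δ φ)) := by
  refine ⟨hφ.wl2.indicator (isOpen_Hs ν).measurableSet,
    hφ.lap.wl2.indicator (isOpen_Hs ν).measurableSet, fun x hx => indicator_of_notMem hx _,
    fun x hx => indicator_of_notMem hx _, fun ψ hψ h => green_half hν hφ hψ fun x hx => ?_⟩
  rcases h with h | h
  · exact Or.inl ⟨h0 x hx, h x hx⟩
  · by_cases h1 : x ∈ tsupport φ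
    · exact Or.inr (Or.inr fun h2 => disjoint_left.1 hG ⟨h1, hx⟩ (h h2))
    · exact Or.inr (Or.inl h1)

end Pool.Agent.MP_71da5e_an

end

section

namespace Pool.Agent.MP_71da5e_an.A

open MeasureTheory Metric Set Laplacian Filter Topology
open scoped ContDiff ENNReal RealInnerProductSpace

variable {n : ℕ}

theorem greenO_lip {Ω : Set (E n)} (hΩ : IsOpen Ω) {g : E n → ℝ} {K : NNReal}
    (hg : LipschitzOnWith K g (closure Ω)) (h0 : ∀ x ∈ frontier Ω, g x = 0) :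
    LipschitzWith K (Ω.indicator g) := by
  have key : ∀ x ∈ Ω, ∀ y, y ∉ Ω → dist (g x) 0 ≤ K * dist x y := by
    intro x hx y hy
    obtain ⟨z, hz, hz'⟩ : ∃ z ∈ closure Ω ∩ segment ℝ x y, z ∉ Ω := by
      by_contra! h
      exact hy ((convex_segment x y).isPreconnected.subset_of_closure_inter_subset hΩ
        ⟨x, left_mem_segment ℝ x y, hx⟩ h (right_mem_segment ℝ x y))
    rw [← h0 z (by rw [hΩ.frontier_eq]; exact ⟨hz.1, hz'⟩)]
    refine (hg.dist_le_mul x (subset_closure hx) z hz.1).trans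
      (mul_le_mul_of_nonneg_left ?_ K.2)
    rw [← dist_add_dist_of_mem_segment hz.2]
    exact le_add_of_nonneg_right dist_nonneg
  refine LipschitzWith.of_dist_le_mul fun x y => ?_
  by_cases hx : x ∈ Ω <;> by_cases hy : y ∈ Ω
  · rw [indicator_of_mem hx, indicator_of_mem hy]
    exact hg.dist_le_mul x (subset_closure hx) y (subset_closure hy)
  · rw [indicator_of_mem hx, indicator_of_notMem hy]
    exact key x hx y hy
  · rw [indicator_of_notMem hx, indicator_of_mem hy, dist_comm, dist_comm x]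
    exact key y hy x hx
  · rw [indicator_of_notMem hx, indicator_of_notMem hy, dist_self]
    positivity

theorem greenO_real {Ω : Set (E n)} (hΩ : Dom Ω) {g : E n → ℝ} (hg : ContDiff ℝ 1 g)
    (h0 : ∀ x ∈ frontier Ω, g x = 0) (v : E n) : ∫ x in Ω, fderiv ℝ g x v = 0 := by
  obtain ⟨K, hK⟩ := (hg.locallyLipschitz.locallyLipschitzOn
    (s := closure Ω)).exists_lipschitzOnWith_of_compact hΩ.bd.isCompact_closure
  have h3 := LipschitzWith.integral_lineDeriv_mul_eq (μ := volume)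
    (LipschitzWith.const (α := E n) (1 : ℝ)) (greenO_lip hΩ.op hK h0)
    (HasCompactSupport.intro hΩ.bd.isCompact_closure fun x hx =>
      indicator_of_notMem (fun h => hx (subset_closure h)) _) (-v)
  simp only [neg_neg, mul_one, lineDeriv, deriv_const', zero_mul, integral_zero] at h3
  rw [← integral_indicator hΩ.op.measurableSet, h3]
  refine integral_congr_ae ?_
  filter_upwards [measure_eq_zero_iff_ae_notMem.1 (volume_frontier hΩ)] with x hx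
  change _ = lineDeriv ℝ (Ω.indicator g) x v
  by_cases h : x ∈ Ω
  · have : Ω.indicator g =ᶠ[𝓝 x] g := by
      filter_upwards [hΩ.op.mem_nhds h] with y hy
      exact indicator_of_mem hy _
    rw [this.lineDeriv_eq, indicator_of_mem h,
      (hg.differentiable one_ne_zero x).lineDeriv_eq_fderiv]
  · have h1 : x ∉ closure Ω := fun h1 => hx (by rw [hΩ.op.frontier_eq]; exact ⟨h1, h⟩)
    have : Ω.indicator g =ᶠ[𝓝 x] fun _ => 0 := by
      filter_upwards [isClosed_closure.isOpen_compl.mem_nhds h1] with y hy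
      exact indicator_of_notMem (fun h2 => hy (subset_closure h2)) _
    rw [this.lineDeriv_eq, indicator_of_notMem h]
    simp [lineDeriv]

theorem greenO_int {Ω : Set (E n)} (hΩ : Dom Ω) {g : E n → ℂ} (hg : ContDiff ℝ 1 g) (v : E n) :
    IntegrableOn (fun x => fderiv ℝ g x v) Ω :=
  (((hg.continuous_fderiv one_ne_zero).clm_apply
    continuous_const).continuousOn.integrableOn_compact hΩ.bd.isCompact_closure).mono_set
      subset_closure

theorem greenO_d {φ : E n → ℂ} (hφ : ContDiff ℝ ∞ φ) (v : E n) :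
    ContDiff ℝ ∞ fun x => fderiv ℝ φ x v :=
  (hφ.fderiv_right (m := ∞) (by simp)).clm_apply contDiff_const

theorem greenO_bdd {Ω : Set (E n)} (hΩ : Dom Ω) {f : E n → ℂ} (hf : Measurable f) {c : ℝ}
    (hc : ∀ x ∈ Ω, ‖f x‖ ≤ c) : L2 Ω (Ω.indicator f) := by
  obtain ⟨R, hR⟩ := hΩ.bd.exists_norm_le
  refine ⟨hf.indicator hΩ.op.measurableSet, Q_ne_top_of_bdd (c := c ^ 2) (R := R) (fun x => ?_)
    fun x hx => indicator_of_notMem (fun h => (hR x h).not_gt hx) _,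
    fun x hx => indicator_of_notMem hx _⟩
  rw [one_mul]
  by_cases hx : x ∈ Ω
  · rw [indicator_of_mem hx]
    exact pow_le_pow_left₀ (norm_nonneg _) (hc x hx) 2
  · rw [indicator_of_notMem hx, norm_zero, zero_pow two_ne_zero]
    exact sq_nonneg c

theorem greenO_bound {Ω : Set (E n)} (hΩ : Dom Ω) {φ : E n → ℂ} (hφ : Continuous φ) :
    ∃ c, ∀ x ∈ Ω, ‖φ x‖ ≤ c :=
  (hΩ.bd.isCompact_closure.exists_bound_of_continuousOn hφ.continuousOn).imp
    fun _ h x hx => h x (subset_closure hx)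

theorem greenO_N2 (f : E n → ℂ) : N2 f = eLpNorm f 2 volume ^ 2 := by
  simp only [dual_eLp, N2, Q, one_mul]

theorem dom_fderiv_zero {Ω : Set (E n)} (hΩ : Dom Ω) {g : E n → ℂ} (hg : ContDiff ℝ 1 g)
    (h0 : ∀ x ∈ frontier Ω, g x = 0) (v : E n) : ∫ x in Ω, fderiv ℝ g x v = 0 := by
  have key : ∀ L : ℂ →L[ℝ] ℝ, L (∫ x in Ω, fderiv ℝ g x v) = 0 := by
    intro L
    rw [← L.integral_comp_comm (greenO_int hΩ hg v),
      ← greenO_real hΩ (g := L ∘ g) (L.contDiff.comp hg) (fun x hx => by simp [h0 x hx]) v]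
    refine integral_congr_ae (Eventually.of_forall fun x => ?_)
    simp only [(L.hasFDerivAt.comp x (hg.differentiable one_ne_zero x).hasFDerivAt).fderiv,
      ContinuousLinearMap.comp_apply]
  exact Complex.ext (key Complex.reCLM) (key Complex.imCLM)

/-- Green's identity when the boundary terms vanish. -/
theorem green_dom {Ω : Set (E n)} (hΩ : Dom Ω) {φ ψ : E n → ℂ} (hφ : ContDiff ℝ ∞ φ)
    (hψ : ContDiff ℝ ∞ ψ)
    (h : ∀ x ∈ frontier Ω, (φ x = 0 ∧ ψ x = 0) ∨ x ∉ tsupport φ ∨ x ∉ tsupport ψ) :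
    pair (Ω.indicator φ) (Ω.indicator (Δ φ)) ψ = 0 := by
  set g : Fin n → E n → ℂ := fun i x => fderiv ℝ φ x (ev i) * ψ x - φ x * fderiv ℝ ψ x (ev i)
    with hg
  have g1 : ∀ i, ContDiff ℝ 1 (g i) := fun i =>
    (((greenO_d hφ _).mul hψ).sub (hφ.mul (greenO_d hψ _))).of_le (by simp)
  have g3 : ∀ i, ∀ x ∈ frontier Ω, g i x = 0 := by
    intro i x hx
    rcases h x hx with h | h | h
    · simp [hg, h.1, h.2]
    · simp [hg, image_eq_zero_of_notMem_tsupport h, greenH_d0 h]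
    · simp [hg, image_eq_zero_of_notMem_tsupport h, greenH_d0 h]
  have g4 : ∀ x, Δ φ x * ψ x - φ x * Δ ψ x = ∑ i, fderiv ℝ (g i) x (ev i) := by
    intro x
    have h2 : (2 : WithTop ℕ∞) ≤ ((⊤ : ℕ∞) : WithTop ℕ∞) := WithTop.coe_le_coe.2 le_top
    rw [lap_eq (hφ.of_le h2).contDiffAt, lap_eq (hψ.of_le h2).contDiffAt,
      Finset.sum_mul, Finset.mul_sum, ← Finset.sum_sub_distrib]
    refine Finset.sum_congr rfl fun i _ => ?_
    have := ((((greenO_d hφ (ev i)).differentiable (by simp) x).hasFDerivAt.mul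
      (hψ.differentiable (by simp) x).hasFDerivAt).sub
      ((hφ.differentiable (by simp) x).hasFDerivAt.mul
        ((greenO_d hψ (ev i)).differentiable (by simp) x).hasFDerivAt)).fderiv
    change fderiv ℝ (g i) x = _ at this
    rw [this]
    simp only [sub_apply, add_apply, smul_apply, smul_eq_mul]
    ring
  have : pair (Ω.indicator φ) (Ω.indicator (Δ φ)) ψ =
      ∫ x in Ω, ∑ i, fderiv ℝ (g i) x (ev i) := by
    rw [pair, ← integral_indicator hΩ.op.measurableSet]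
    refine integral_congr_ae (Eventually.of_forall fun x => ?_)
    by_cases hx : x ∈ Ω
    · simp only [indicator_of_mem hx, g4]
    · simp only [indicator_of_notMem hx, zero_mul, sub_zero]
  rw [this, integral_finsetSum _ fun i _ => greenO_int hΩ (g1 i) _]
  exact Finset.sum_eq_zero fun i _ => dom_fderiv_zero hΩ (g1 i) (g3 i) _

theorem L2.of_continuous {Ω : Set (E n)} (hΩ : Dom Ω) {φ : E n → ℂ} (hφ : Continuous φ) :
    L2 Ω (Ω.indicator φ) := by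
  obtain ⟨c, hc⟩ := greenO_bound hΩ hφ
  exact greenO_bdd hΩ hφ.measurable hc

theorem L2.of_memLp {Ω : Set (E n)} (hΩ : MeasurableSet Ω) {u : E n → ℂ}
    (hu : MemLp u 2 (volume.restrict Ω)) : ∃ u', L2 Ω u' ∧ u =ᵐ[volume.restrict Ω] u' := by
  refine ⟨Ω.indicator (hu.1.mk u), ⟨hu.1.measurable_mk.indicator hΩ, ?_,
    fun x hx => indicator_of_notMem hx _⟩, ?_⟩
  · rw [greenO_N2, eLpNorm_indicator_eq_eLpNorm_restrict hΩ, ← eLpNorm_congr_ae hu.1.ae_eq_mk]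
    exact ENNReal.pow_ne_top hu.2.ne
  · exact hu.1.ae_eq_mk.trans (indicator_ae_eq_restrict hΩ).symm

theorem L2.memLp {Ω : Set (E n)} {u : E n → ℂ} (hu : L2 Ω u) : MemLp u 2 volume := by
  refine ⟨hu.meas.aestronglyMeasurable, lt_top_iff_ne_top.2 fun h => hu.fin ?_⟩
  rw [greenO_N2, h]
  simp

theorem vw_of_test {Ω B : Set (E n)} (hΩ : Dom Ω) {A : ℝ} {q φ : E n → ℂ} (hq : Bd A q)
    (hφ : ContDiff ℝ ∞ φ) (h0 : ∀ x ∈ frontier Ω, φ x = 0)
    (hB : Disjoint (tsupport φ ∩ frontier Ω) B) :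
    VW Ω B q (Ω.indicator φ) (Ω.indicator (Pq q φ)) := by
  have hL := (contDiff_lap hφ).continuous
  obtain ⟨c, hc⟩ := greenO_bound hΩ hφ.continuous
  obtain ⟨c', hc'⟩ := greenO_bound hΩ hL
  refine ⟨L2.of_continuous hΩ hφ.continuous, greenO_bdd hΩ
    (hL.measurable.sub (hq.1.mul hφ.continuous.measurable)) (c := c' + A * c) fun x hx => ?_,
    fun ψ hψ h => ?_⟩
  · refine (norm_sub_le _ _).trans (add_le_add (hc' x hx) ?_)
    rw [norm_mul]
    exact mul_le_mul (hq.2 x) (hc x hx) (norm_nonneg _) hq.nonneg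
  · have e : (fun x => Ω.indicator (Pq q φ) x + q x * Ω.indicator φ x) = Ω.indicator (Δ φ) := by
      funext x
      by_cases hx : x ∈ Ω
      · simp only [indicator_of_mem hx, Pq, sub_add_cancel]
      · simp only [indicator_of_notMem hx, mul_zero, add_zero]
    rw [e]
    refine green_dom hΩ hφ hψ.1 fun x hx => ?_
    by_cases hb : x ∈ B
    · exact Or.inr (Or.inl fun h1 => disjoint_left.1 hB ⟨h1, hx⟩ hb)
    · exact Or.inl ⟨h0 x hx, h x ⟨hx, hb⟩⟩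

/-- The annihilator consists of solutions with boundary values supported in `Γ`. -/
theorem Ann.isSol {Ω Γ B : Set (E n)} (hΩ : Dom Ω) (hB : closure B ∩ frontier Ω ⊆ Γ) {A : ℝ}
    {q u : E n → ℂ} (hq : Bd A q) (h : Ann Ω B q u) : IsSol Ω Γ q u := by
  have key : ∀ φ, ContDiff ℝ ∞ φ → (∀ x ∈ frontier Ω, φ x = 0) →
      Disjoint (tsupport φ ∩ frontier Ω) B → green Ω q u φ = 0 := by
    intro φ hφ h0 hd
    have h1 := h.perp _ _ (vw_of_test hΩ hq hφ h0 hd)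
    rw [green, ← integral_indicator hΩ.op.measurableSet, ← neg_eq_zero, ← integral_neg, ← h1]
    refine integral_congr_ae (Eventually.of_forall fun x => ?_)
    by_cases hx : x ∈ Ω
    · simp only [indicator_of_mem hx, Pq]
      ring
    · simp only [indicator_of_notMem hx, mul_zero, neg_zero]
  refine ⟨h.l2.memLp.restrict Ω, fun φ hφ hs => ?_, fun x hx => ?_⟩
  · have h1 : ∀ x ∈ frontier Ω, x ∉ tsupport φ := fun x hx h2 =>
      (hΩ.op.frontier_eq ▸ hx).2 (hs h2)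
    exact key φ hφ (fun x hx => image_eq_zero_of_notMem_tsupport (h1 x hx))
      (disjoint_left.2 fun x hx => (h1 x hx.2 hx.1).elim)
  · obtain ⟨ε, hε, h1⟩ := Metric.isOpen_iff.1 (isClosed_closure (s := B)).isOpen_compl x
      fun h2 => hx.2 (hB ⟨h2, hx.1⟩)
    exact ⟨ε, hε, fun φ hφ h0 hs => key φ hφ h0
      (disjoint_left.2 fun y hy hb => h1 (hs hy.1) (subset_closure hb))⟩

end Pool.Agent.MP_71da5e_an.A

end

section

namespace Pool.Agent.MP_71da5e_an.A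

open MeasureTheory Metric Set Laplacian Filter Topology
open scoped ContDiff ENNReal RealInnerProductSpace

variable {n : ℕ}

lemma hypc_mul {Ω : Set (E n)} (hΩ : Dom Ω) {f g : E n → ℂ} (hf : IntegrableOn f Ω)
    (hg : Continuous g) : IntegrableOn (fun x => f x * g x) Ω := by
  obtain ⟨C, hC⟩ := hΩ.bd.isCompact_closure.exists_bound_of_continuousOn hg.continuousOn
  refine Integrable.mul_bdd (c := C) hf hg.aestronglyMeasurable ?_
  filter_upwards [ae_restrict_mem hΩ.op.measurableSet] with x hx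
  exact hC x (subset_closure hx)

lemma hypc_int {Ω : Set (E n)} (hΩ : Dom Ω) {A : ℝ} {q u φ : E n → ℂ} (hq : Bd A q)
    (hu : MemLp u 2 (volume.restrict Ω)) (hφ : ContDiff ℝ ∞ φ) :
    IntegrableOn (fun x => q x * u x * φ x - u x * Δ φ x) Ω := by
  have : IsFiniteMeasure (volume.restrict Ω) :=
    isFiniteMeasure_restrict.2 hΩ.bd.measure_lt_top.ne
  have h1 : IntegrableOn u Ω := hu.integrable one_le_two
  have h2 : IntegrableOn (fun x => q x * u x) Ω :=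
    Integrable.bdd_mul (c := A) h1 hq.1.aestronglyMeasurable (ae_of_all _ hq.2)
  exact Integrable.sub (hypc_mul hΩ h2 hφ.continuous)
    (hypc_mul hΩ h1 (contDiff_lap hφ).continuous)

lemma hypc_two {φ : E n → ℂ} (hφ : ContDiff ℝ ∞ φ) (x : E n) : ContDiffAt ℝ 2 φ x :=
  (hφ.of_le (WithTop.coe_le_coe.2 le_top :
    ((2 : ℕ∞) : WithTop ℕ∞) ≤ ((⊤ : ℕ∞) : WithTop ℕ∞))).contDiffAt

lemma hypc_grad {ρ : E n → ℝ} (hρ : ContDiff ℝ ∞ ρ) : ContDiff ℝ ∞ (gradient ρ) := by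
  have e : gradient ρ = fun x => ∑ i, fderiv ℝ ρ x (ev i) • ev i := by
    funext x
    conv_lhs => rw [← calc_sum_coord (gradient ρ x)]
    exact Finset.sum_congr rfl fun i _ => by rw [← calc_inner_ev, inner_gradient_left]
  rw [e]
  exact ContDiff.sum fun i _ =>
    ((hρ.fderiv_right (m := ∞) le_rfl).clm_apply contDiff_const).smul contDiff_const

lemma hypc_N2 {c : ℝ} (hc : 0 ≤ c) {w : E n → ℂ} (h : N2 w ≠ ⊤) : Q (fun _ => c * 1) w ≠ ⊤ := by
  rw [Q_const_mul hc]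
  exact ENNReal.mul_ne_top ENNReal.ofReal_ne_top h

lemma hypc_sub {Ω : Set (E n)} {u v : E n → ℂ} (hu : L2 Ω u) (hv : L2 Ω v) :
    L2 Ω fun x => u x - v x := by
  refine ⟨hu.meas.sub hv.meas, ne_top_of_le_ne_top
    (ENNReal.add_ne_top.2 ⟨hypc_N2 zero_le_two hu.fin, hypc_N2 zero_le_two hv.fin⟩)
    (Q_le_add measurable_const hu.meas fun x => ?_),
    fun x hx => by rw [hu.zero x hx, hv.zero x hx, sub_zero]⟩
  have h1 := pow_le_pow_left₀ (norm_nonneg _) (norm_sub_le (u x) (v x)) 2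
  nlinarith [sq_nonneg (‖u x‖ - ‖v x‖)]

lemma hypc_bd {Ω : Set (E n)} {A : ℝ} {q u : E n → ℂ} (hq : Bd A q) (hu : L2 Ω u) :
    L2 Ω fun x => q x * u x := by
  refine ⟨hq.1.mul hu.meas, ne_top_of_le_ne_top (hypc_N2 (sq_nonneg A) hu.fin)
    (Q_mono fun x => ?_), fun x hx => by rw [hu.zero x hx, mul_zero]⟩
  rw [norm_mul, mul_pow, one_mul, mul_one]
  exact mul_le_mul_of_nonneg_right (pow_le_pow_left₀ (norm_nonneg _) (hq.2 x) 2) (sq_nonneg _)

theorem green_add {Ω : Set (E n)} (hΩ : Dom Ω) {A : ℝ} {q u φ ψ : E n → ℂ} (hq : Bd A q)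
    (hu : MemLp u 2 (volume.restrict Ω)) (hφ : ContDiff ℝ ∞ φ) (hψ : ContDiff ℝ ∞ ψ) :
    green Ω q u (fun x => φ x + ψ x) = green Ω q u φ + green Ω q u ψ := by
  unfold green
  rw [← integral_add (hypc_int hΩ hq hu hφ) (hypc_int hΩ hq hu hψ)]
  refine integral_congr_ae (Eventually.of_forall fun x => ?_)
  have h : Δ (fun x => φ x + ψ x) x = Δ φ x + Δ ψ x :=
    (hypc_two hφ x).laplacian_add (hypc_two hψ x)
  simp only [h]
  ring

/-- The Dirichlet data agree on the whole boundary. -/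
theorem green_eq_dir {Ω Γ : Set (E n)} (hΩ : Dom Ω) (hΓ : ∃ U, IsOpen U ∧ Γ = U ∩ frontier Ω)
    {A : ℝ} {q₁ q₂ u₁ u₂ : E n → ℂ} (hq₁ : Bd A q₁) (hq₂ : Bd A q₂) (h₁ : IsSol Ω Γ q₁ u₁)
    (h₂ : IsSol Ω Γ q₂ u₂) (hd : ∀ φ : DTest Ω Γ, green Ω q₁ u₁ φ.1 = green Ω q₂ u₂ φ.1)
    {φ : E n → ℂ} (hφ : ContDiff ℝ ∞ φ) (h0 : ∀ x ∈ frontier Ω, φ x = 0) :
    green Ω q₁ u₁ φ = green Ω q₂ u₂ φ := by
  have hK : IsCompact (frontier Ω \ Γ) := by
    obtain ⟨U, hU, rfl⟩ := hΓ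
    rw [inter_comm, sdiff_self_inter]
    exact (hΩ.bd.isCompact_closure.of_isClosed_subset isClosed_frontier
      frontier_subset_closure).diff hU
  have key := hK.induction_on (p := fun s => ∀ g : E n → ℂ, ContDiff ℝ ∞ g →
      (∀ x ∈ frontier Ω, g x = 0) → ∃ g', ContDiff ℝ ∞ g' ∧ (∀ x ∈ frontier Ω, g' x = 0) ∧
        tsupport g' ⊆ tsupport g ∧ Disjoint (tsupport g') s ∧
        green Ω q₁ u₁ g = green Ω q₁ u₁ g' ∧ green Ω q₂ u₂ g = green Ω q₂ u₂ g')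
    (fun g hg hz => ⟨g, hg, hz, Subset.rfl, disjoint_empty _, rfl, rfl⟩)
    (fun s t hst ht g hg hz => by
      obtain ⟨g', a, z, b, c, d⟩ := ht g hg hz
      exact ⟨g', a, z, b, c.mono_right hst, d⟩)
    (fun s t hs ht g hg hz => by
      obtain ⟨g', a, z, b, c, d, e⟩ := hs g hg hz
      obtain ⟨g'', a', z', b', c', d', e'⟩ := ht g' a z
      exact ⟨g'', a', z', b'.trans b, disjoint_union_right.2 ⟨c.mono_left b', c'⟩, d.trans d',
        e.trans e'⟩)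
    (fun x hx => by
      obtain ⟨ε₁, p₁, s₁⟩ := h₁.supp x hx
      obtain ⟨ε₂, p₂, s₂⟩ := h₂.supp x hx
      have hε : 0 < min ε₁ ε₂ := lt_min p₁ p₂
      let β : ContDiffBump x := ⟨min ε₁ ε₂ / 4, min ε₁ ε₂ / 2, by positivity, by linarith⟩
      refine ⟨ball x β.rIn, mem_nhdsWithin_of_mem_nhds (ball_mem_nhds x β.rIn_pos),
        fun g hg hz => ?_⟩
      have hβ : ContDiff ℝ ∞ fun y => ((β y : ℝ) : ℂ) := Complex.ofRealCLM.contDiff.comp β.contDiff
      have c₁ : ContDiff ℝ ∞ fun y => (1 - ((β y : ℝ) : ℂ)) * g y := (contDiff_const.sub hβ).mul hg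
      have c₂ : ContDiff ℝ ∞ fun y => ((β y : ℝ) : ℂ) * g y := hβ.mul hg
      have e : g = fun y => (1 - ((β y : ℝ) : ℂ)) * g y + ((β y : ℝ) : ℂ) * g y := by
        funext y
        ring
      have z₂ : ∀ y ∈ frontier Ω, ((β y : ℝ) : ℂ) * g y = 0 := fun y hy => by
        rw [hz y hy, mul_zero]
      have t₂ : tsupport (fun y => ((β y : ℝ) : ℂ) * g y) ⊆ ball x (min ε₁ ε₂) := by
        refine (closure_minimal (fun y hy => ?_) isClosed_closedBall).trans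
          (closedBall_subset_ball (half_lt_self hε))
        by_contra hy'
        rw [mem_closedBall, not_le] at hy'
        exact hy (by simp only [β.zero_of_le_dist hy'.le, Complex.ofReal_zero, zero_mul])
      refine ⟨_, c₁, fun y hy => by rw [hz y hy, mul_zero], tsupport_mul_subset_right, ?_, ?_, ?_⟩
      · refine Disjoint.closure_left (disjoint_left.2 fun y hy hy' => hy ?_) isOpen_ball
        simp only [β.one_of_mem_closedBall (ball_subset_closedBall hy'), Complex.ofReal_one,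
          sub_self, zero_mul]
      · conv_lhs => rw [e]
        rw [green_add hΩ hq₁ h₁.memL2 c₁ c₂,
          s₁ _ c₂ z₂ (t₂.trans (ball_subset_ball (min_le_left _ _))), add_zero]
      · conv_lhs => rw [e]
        rw [green_add hΩ hq₂ h₂.memL2 c₁ c₂,
          s₂ _ c₂ z₂ (t₂.trans (ball_subset_ball (min_le_right _ _))), add_zero])
  obtain ⟨g', a, z, -, c, d, e⟩ := key φ hφ h0
  rw [d, e]
  exact hd ⟨g', a, fun y hy => by_contra fun hy' => disjoint_left.1 c hy.1 ⟨hy.2, hy'⟩, z⟩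

/-- Near a point of `Γ` every test function is a sum of a `DTest` and an `NTest` function. -/
theorem test_split {Ω Γ : Set (E n)} (hΩ : Dom Ω) (hΓ : ∃ U, IsOpen U ∧ Γ = U ∩ frontier Ω)
    {p : E n} (hp : p ∈ Γ) : ∃ r : ℝ, 0 < r ∧ closedBall p r ∩ frontier Ω ⊆ Γ ∧
      ∀ φ : E n → ℂ, ContDiff ℝ ∞ φ → tsupport φ ⊆ closedBall p r →
        ∃ (φ₁ : DTest Ω Γ) (φ₂ : NTest Ω Γ), φ = fun x => φ₁.1 x + φ₂.1 x := by
  obtain ⟨U, hU, rfl⟩ := hΓ
  obtain ⟨ρ, hρ⟩ := hΩ.sm p hp.2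
  obtain ⟨ε, hε, hb⟩ := Metric.eventually_nhds_iff_ball.1
    ((hU.eventually_mem hp.1).and (hρ.near.and (hρ.zero hΩ.op)))
  have hsub : closedBall p (ε / 2) ⊆ ball p ε := closedBall_subset_ball (half_lt_self hε)
  have hΓ : closedBall p (ε / 2) ∩ frontier Ω ⊆ U ∩ frontier Ω := fun x hx =>
    ⟨(hb x (hsub hx.1)).1, hx.2⟩
  refine ⟨ε / 2, half_pos hε, hΓ, fun φ hφ hs => ?_⟩
  have hg := hypc_grad hρ.1
  let h : E n → ℂ := fun x => fderiv ℝ φ x (gradient ρ x) * (((‖gradient ρ x‖ ^ 2)⁻¹ : ℝ) : ℂ)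
  have h0 : ∀ x, x ∉ closedBall p (ε / 2) → h x = 0 := fun x hx => by
    simp only [h, fderiv_of_notMem_tsupport ℝ fun h' => hx (hs h'),
      ContinuousLinearMap.zero_apply, zero_mul]
  have hh : ContDiff ℝ ∞ h := contDiff_of_closed isOpen_ball isClosed_closedBall hsub
    (((hφ.fderiv_right (m := ∞) le_rfl).clm_apply hg).contDiffOn.mul
      (Complex.ofRealCLM.contDiff.comp_contDiffOn ((hg.norm_sq ℝ).contDiffOn.inv fun x hx =>
        pow_ne_zero _ (norm_ne_zero_iff.2 (hb x hx).2.1.2.1)))) h0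
  have hρc : ContDiff ℝ ∞ fun x => ((ρ x : ℝ) : ℂ) := Complex.ofRealCLM.contDiff.comp hρ.1
  have c₁ : ContDiff ℝ ∞ fun x => ((ρ x : ℝ) : ℂ) * h x := hρc.mul hh
  have t₁ : tsupport (fun x => ((ρ x : ℝ) : ℂ) * h x) ⊆ closedBall p (ε / 2) :=
    closure_minimal (fun x hx => by_contra fun hx' => hx (by simp only [h0 x hx', mul_zero]))
      isClosed_closedBall
  have t₂ : tsupport (fun x => φ x - ((ρ x : ℝ) : ℂ) * h x) ⊆ closedBall p (ε / 2) :=
    closure_minimal (fun x hx => by_contra fun hx' => hx (by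
      simp only [h0 x hx', image_eq_zero_of_notMem_tsupport fun h' => hx' (hs h'), mul_zero,
        sub_zero])) isClosed_closedBall
  refine ⟨⟨_, c₁, fun x hx => hΓ ⟨t₁ hx.1, hx.2⟩, fun x hx => ?_⟩,
    ⟨_, hφ.sub c₁, fun x hx => hΓ ⟨t₂ hx.1, hx.2⟩, fun x hx ρ' hρ' => ?_⟩, ?_⟩
  · by_cases hx' : x ∈ closedBall p (ε / 2)
    · rw [(hb x (hsub hx')).2.2 hx, Complex.ofReal_zero, zero_mul]
    · rw [h0 x hx', mul_zero]
  · by_cases hx' : x ∈ closedBall p (ε / 2)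
    · obtain ⟨-, k1, k2⟩ := hb x (hsub hx')
      obtain ⟨c, hc⟩ := k1.parallel hΩ.op hx hρ'
      have d1 : HasFDerivAt (fun x => ((ρ x : ℝ) : ℂ)) (Complex.ofRealCLM.comp (fderiv ℝ ρ x)) x :=
        Complex.ofRealCLM.hasFDerivAt.comp x (hρ.1.differentiable (by simp) x).hasFDerivAt
      have d2 : fderiv ℝ ρ x (gradient ρ x) = ‖gradient ρ x‖ ^ 2 := by
        rw [← inner_gradient_left, real_inner_self_eq_norm_sq]
      have d3 : ((‖gradient ρ x‖ : ℝ) : ℂ) ≠ 0 :=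
        Complex.ofReal_ne_zero.2 (norm_ne_zero_iff.2 k1.2.1)
      rw [hc, map_smul, ((hφ.differentiable (by simp) x).hasFDerivAt.fun_sub
        (d1.fun_mul (hh.differentiable (by simp) x).hasFDerivAt)).fderiv, k2 hx]
      refine smul_eq_zero_of_right _ ?_
      simp only [ContinuousLinearMap.sub_apply, ContinuousLinearMap.add_apply,
        ContinuousLinearMap.smul_apply, ContinuousLinearMap.comp_apply, Complex.ofRealCLM_apply,
        d2, h, smul_eq_mul]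
      push_cast
      field_simp
      ring
    · rw [fderiv_of_notMem_tsupport ℝ fun h' => hx' (t₂ h'), ContinuousLinearMap.zero_apply]
  · funext x
    simp only [add_sub_cancel]

theorem hypW_of_cauchy {Ω Γ : Set (E n)} (hΩ : Dom Ω) (hΓ : ∃ U, IsOpen U ∧ Γ = U ∩ frontier Ω)
    {p : E n} (hp : p ∈ Γ) {A : ℝ} {q₁ q₂ : E n → ℂ} (hq₁ : Bd A q₁) (hq₂ : Bd A q₂)
    (h : cauchy Ω Γ q₁ ⊆ cauchy Ω Γ q₂) : ∃ r : ℝ, 0 < r ∧ HypW Ω (ball p r) q₁ q₂ := by
  obtain ⟨r, hr, hrΓ, hsp⟩ := test_split hΩ hΓ hp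
  refine ⟨r / 2, half_pos hr, fun u hu => ?_⟩
  have h₁ : IsSol Ω Γ q₁ u := hu.isSol hΩ (fun x hx => hrΓ
    ⟨closedBall_subset_closedBall (half_le_self hr.le) (closure_ball_subset_closedBall hx.1),
      hx.2⟩) hq₁
  obtain ⟨u₂, h₂, he⟩ := h ⟨u, h₁, rfl⟩
  have hd : ∀ φ : DTest Ω Γ, green Ω q₁ u φ.1 = green Ω q₂ u₂ φ.1 := fun φ =>
    neg_injective (congrFun (congrArg Prod.fst he) φ)
  have hN : ∀ φ : NTest Ω Γ, green Ω q₁ u φ.1 = green Ω q₂ u₂ φ.1 := fun φ =>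
    congrFun (congrArg Prod.snd he) φ
  obtain ⟨v, hv, hae⟩ := L2.of_memLp hΩ.op.measurableSet h₂.memL2
  refine ⟨fun x => u x - v x, hypc_sub hu.l2 hv, ?_, fun φ hφ h0 => ?_⟩
  · simpa only [sub_mul] using hypc_sub (hypc_bd hq₁ hu.l2) (hypc_bd hq₂ hu.l2)
  have e1 : green Ω q₂ u₂ φ = green Ω q₂ v φ :=
    integral_congr_ae (hae.mono fun x hx => by simp only [hx])
  have e2 : green Ω q₁ u φ = green Ω q₂ u₂ φ := by
    let β : ContDiffBump p := ⟨r / 2, r, half_pos hr, half_lt_self hr⟩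
    have hβ : ContDiff ℝ ∞ fun y => ((β y : ℝ) : ℂ) := Complex.ofRealCLM.contDiff.comp β.contDiff
    have c₁ : ContDiff ℝ ∞ fun y => (1 - ((β y : ℝ) : ℂ)) * φ y :=
      (contDiff_const.sub hβ).mul hφ.1
    have c₂ : ContDiff ℝ ∞ fun y => ((β y : ℝ) : ℂ) * φ y := hβ.mul hφ.1
    have e : φ = fun y => (1 - ((β y : ℝ) : ℂ)) * φ y + ((β y : ℝ) : ℂ) * φ y := by
      funext y
      ring
    obtain ⟨φ₁, φ₂, e'⟩ := hsp _ c₂ (closure_minimal (fun y hy => by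
      by_contra hy'
      rw [mem_closedBall, not_le] at hy'
      exact hy (by simp only [β.zero_of_le_dist hy'.le, Complex.ofReal_zero, zero_mul]))
      isClosed_closedBall)
    rw [e, green_add hΩ hq₁ h₁.memL2 c₁ c₂, green_add hΩ hq₂ h₂.memL2 c₁ c₂, e',
      green_add hΩ hq₁ h₁.memL2 φ₁.2.1 φ₂.2.1, green_add hΩ hq₂ h₂.memL2 φ₁.2.1 φ₂.2.1, hd, hN,
      green_eq_dir hΩ hΓ hq₁ hq₂ h₁ h₂ hd c₁ fun x hx => ?_]
    by_cases hx' : x ∈ ball p (r / 2)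
    · rw [β.one_of_mem_closedBall (ball_subset_closedBall hx'), Complex.ofReal_one, sub_self,
        zero_mul]
    · rw [h0 x ⟨hx, hx'⟩, mul_zero]
  rw [e1, ← sub_eq_zero, green, green, ← integral_sub (hypc_int hΩ hq₁ h₁.memL2 hφ.1)
    (hypc_int hΩ hq₂ (hv.memLp.restrict _) hφ.1),
    setIntegral_eq_integral_of_forall_compl_eq_zero fun x hx => by
      rw [hu.l2.zero x hx, hv.zero x hx]; ring] at e2
  rw [← e2, pair]
  refine integral_congr_ae (ae_of_all _ fun x => ?_)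
  simp only
  ring

end Pool.Agent.MP_71da5e_an.A

end

section

namespace Pool.Agent.MP_71da5e_an.A

open MeasureTheory Metric Set Laplacian Filter Topology
open scoped ContDiff ENNReal RealInnerProductSpace

variable {n : ℕ}

lemma amain_sub {O S : Set (E n)} {y₀ z : E n} (hS : IsPreconnected S) (hO : S ⊆ O) (hz : z ∈ S)
    (h : z ∈ connectedComponentIn O y₀) : S ⊆ connectedComponentIn O y₀ :=
  connectedComponentIn_eq h ▸ hS.subset_connectedComponentIn hz hO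

/-- A ball in a component of `O` that touches the complement of `O` inside `U`. -/
theorem touching {U O : Set (E n)} (hU : IsOpen U) (hc : IsPreconnected U) (hO : IsOpen O)
    (hOU : O ⊆ U) {y₀ : E n} (hy : y₀ ∈ O) (hne : ¬U ⊆ O) :
    ∃ (y x₀ : E n) (r : ℝ), 0 < r ∧ closedBall y (2 * r) ⊆ U ∧
      ball y r ⊆ connectedComponentIn O y₀ ∧ ‖x₀ - y‖ = r ∧ x₀ ∉ O := by
  have hGO := connectedComponentIn_subset O y₀
  obtain ⟨x₁, ⟨h1, h2⟩, h3⟩ := not_subset.1 fun h => hne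
    ((hc.subset_of_closure_inter_subset (hO.connectedComponentIn (x := y₀))
      ⟨y₀, hOU hy, mem_connectedComponentIn hy⟩ h).trans hGO)
  have h4 : x₁ ∉ O := fun h => by
    obtain ⟨ε, hε, hb⟩ := Metric.isOpen_iff.1 hO x₁ h
    obtain ⟨z, hz, hd⟩ := Metric.mem_closure_iff.1 h1 ε hε
    exact h3 (amain_sub (convex_ball x₁ ε).isPreconnected hb (mem_ball'.2 hd) hz
      (mem_ball_self hε))
  obtain ⟨δ, hδ, hb⟩ := Metric.isOpen_iff.1 hU x₁ h2
  obtain ⟨y, hyG, hd⟩ := Metric.mem_closure_iff.1 h1 (δ / 4) (by positivity)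
  obtain ⟨x₀, hx₀, e⟩ := hO.isClosed_compl.exists_infDist_eq_dist ⟨x₁, h4⟩ y
  have h5 : 0 < infDist y Oᶜ :=
    (hO.isClosed_compl.notMem_iff_infDist_pos ⟨x₁, h4⟩).1 fun h => h (hGO hyG)
  have h6 : infDist y Oᶜ ≤ dist y x₁ := infDist_le_dist_of_mem h4
  rw [dist_comm] at hd
  refine ⟨y, x₀, infDist y Oᶜ, h5, (closedBall_subset_ball' (by linarith)).trans hb,
    amain_sub (convex_ball _ _).isPreconnected ball_infDist_compl_subset (mem_ball_self h5) hyG,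
    ?_, hx₀⟩
  rw [e, dist_comm, dist_eq_norm]

theorem main_bd (core : L.CoreStmt) (hn : 3 ≤ n) {Ω Γ : Set (E n)} (hΩ : Dom Ω)
    (hc : IsPreconnected Ω) (hΓ : ∃ U, IsOpen U ∧ Γ = U ∩ frontier Ω) (hne : Γ.Nonempty) {A : ℝ}
    {q₁ q₂ : E n → ℂ} (h₁ : Bd A q₁) (h₂ : Bd A q₂) (h : cauchy Ω Γ q₁ ⊆ cauchy Ω Γ q₂) :
    ∀ᵐ x, x ∈ Ω → q₁ x = q₂ x := by
  obtain ⟨p, hp⟩ := hne
  obtain ⟨R, hR, hyp⟩ := hypW_of_cauchy hΩ hΓ hp h₁ h₂ h
  have hpf : p ∈ frontier Ω := by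
    obtain ⟨U, -, rfl⟩ := hΓ
    exact hp.2
  obtain ⟨ρ, hρ⟩ := hΩ.sm p hpf
  obtain ⟨y₀, s, hs, hsB, hsd⟩ := hρ.exterior hΩ.op hpf hR
  have hU : IsOpen (Ω ∪ ball p R) := hΩ.op.union isOpen_ball
  have hcU : IsPreconnected (Ω ∪ ball p R) := by
    obtain ⟨z, hz, hd⟩ := Metric.mem_closure_iff.1 (frontier_subset_closure hpf) R hR
    exact hc.union z hz (mem_ball'.2 hd) (convex_ball p R).isPreconnected
  set O : Set (E n) := (Ω ∪ ball p R) ∩
    {x | ∃ ε > 0, ∀ᵐ z, z ∈ ball x ε → z ∈ Ω → q₁ z = q₂ z} with hOdef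
  have hO : IsOpen O := by
    refine hU.inter (Metric.isOpen_iff.2 ?_)
    rintro x ⟨ε, hε, hx⟩
    refine ⟨ε, hε, fun x' hx' => ?_⟩
    obtain ⟨ε', hε', hb⟩ := Metric.isOpen_iff.1 isOpen_ball x' hx'
    exact ⟨ε', hε', hx.mono fun z hz hz' => hz (hb hz')⟩
  have hyB : y₀ ∈ ball p R := hsB (mem_ball_self hs)
  have hy : y₀ ∈ O := ⟨Or.inr hyB, s, hs,
    Eventually.of_forall fun z hz hz' => (disjoint_left.1 hsd hz hz').elim⟩
  have hae : ∀ᵐ z, z ∈ O → z ∈ Ω → q₁ z = q₂ z := by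
    refine measure_null_of_locally_null _ fun x hx => ?_
    have hxO : x ∈ O := by_contra fun h' => hx fun h'' => absurd h'' h'
    obtain ⟨ε, hε, hx'⟩ := hxO.2
    refine ⟨_, inter_mem_nhdsWithin _ (ball_mem_nhds x hε), measure_mono_null ?_ hx'⟩
    exact fun z hz hz' => hz.1 fun _ => hz' hz.2
  have hUO : Ω ∪ ball p R ⊆ O := by
    by_contra hne
    obtain ⟨y, x₀, r, hr, hb1, hb2, hx, hx₀⟩ := touching hU hcU hO inter_subset_left hy hne
    have hG : IsOpen (connectedComponentIn O y₀) := hO.connectedComponentIn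
    have hGO := connectedComponentIn_subset O y₀
    have hZ : MeasurableSet (Ω \ connectedComponentIn O y₀) :=
      hΩ.op.measurableSet.diff hG.measurableSet
    obtain ⟨C₁, e₁⟩ := est_exists hΩ isOpen_ball hcU hyB hs hsd h₁
    obtain ⟨C₂, e₂⟩ := est_exists hΩ isOpen_ball hcU hyB hs hsd h₂
    have u := fun q (hq : Bd A q) => uc_of_open (B := ball p R) hΩ.op hG
      isPreconnected_connectedComponentIn (hGO.trans inter_subset_left)
      (mem_connectedComponentIn hy) hs hsd hq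
    obtain ⟨C, hC⟩ := data_of_hyp hΩ.op hZ sdiff_subset h₁ h₂ e₁ e₂ (u _ h₁) (u _ h₂)
      (hae.mono fun z hz hz1 hz2 => hz (hGO (by_contra fun h' => hz2 ⟨hz1, h'⟩)) hz1) hyp
    have hf : Bd (2 * A) ((Ω \ connectedComponentIn O y₀).indicator fun x => q₁ x - q₂ x) :=
      ⟨(h₁.1.sub h₂.1).indicator hZ, fun x => (norm_indicator_le_norm_self _ x).trans
        ((norm_sub_le _ _).trans (by linarith [h₁.2 x, h₂.2 x]))⟩
    obtain ⟨ε, hε, h0⟩ := local_zero core hn hr hx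
      (disjoint_left.2 fun z hz hz' => hz.2 (hb2 hz')) h₁ h₂ hf
      (fun x hx => indicator_of_notMem hx _) (C := C)
      fun v₁ v₂ a₁ a₂ b₁ b₂ => hC v₁ v₂ a₁ a₂ (b₁.trans hb1) (b₂.trans hb1)
    refine hx₀ ⟨hb1 (by rw [mem_closedBall, dist_eq_norm, hx]; linarith), ε, hε, ?_⟩
    filter_upwards [hae, h0] with z a b hz hz'
    by_cases hzG : z ∈ connectedComponentIn O y₀
    · exact a (hGO hzG) hz'
    · have := b hz
      rwa [indicator_of_mem (show z ∈ Ω \ connectedComponentIn O y₀ from ⟨hz', hzG⟩),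
        sub_eq_zero] at this
  exact hae.mono fun z hz hz' => hz (hUO (Or.inl hz')) hz'

lemma amain_rep {Ω : Set (E n)} {q : E n → ℂ} (h : MemLp q ⊤ (volume.restrict Ω)) :
    ∃ (A : ℝ) (q' : E n → ℂ), Bd A q' ∧ q =ᵐ[volume.restrict Ω] q' := by
  obtain ⟨A, hA⟩ := eLpNormEssSup_lt_top_iff_isBoundedUnder.1
    (show eLpNormEssSup q (volume.restrict Ω) < ⊤ by simpa using h.2)
  have hA' : ∀ᵐ x ∂volume.restrict Ω, ‖q x‖ ≤ (A : ℝ) :=
    (eventually_map.1 hA).mono fun x hx => by exact_mod_cast hx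
  have hm := h.1.measurable_mk
  refine ⟨A, {x | ‖h.1.mk q x‖ ≤ A}.indicator (h.1.mk q),
    ⟨hm.indicator (measurableSet_le hm.norm measurable_const), fun x => ?_⟩, ?_⟩
  · by_cases hx : x ∈ {x | ‖h.1.mk q x‖ ≤ A}
    · rw [indicator_of_mem hx]; exact hx
    · rw [indicator_of_notMem hx, norm_zero]; exact A.2
  · filter_upwards [hA', h.1.ae_eq_mk] with x h1 h2
    rw [indicator_of_mem (show x ∈ {x | ‖h.1.mk q x‖ ≤ A} from show ‖h.1.mk q x‖ ≤ A from h2 ▸ h1),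
      h2]

lemma amain_cauchy {Ω : Set (E n)} (Γ : Set (E n)) {q q' : E n → ℂ}
    (h : q =ᵐ[volume.restrict Ω] q') : cauchy Ω Γ q ⊆ cauchy Ω Γ q' := by
  have e : green Ω q = green Ω q' := by
    funext u φ
    exact integral_congr_ae (h.mono fun x hx => by simp only [hx])
  rintro _ ⟨u, hu, rfl⟩
  exact ⟨u, ⟨hu.memL2, e ▸ hu.solves, e ▸ hu.supp⟩, by rw [e]⟩

theorem main (core : L.CoreStmt) (hn : 3 ≤ n) {Ω Γ : Set (E n)} (hΩ : Dom Ω)
    (hc : IsPreconnected Ω) (hΓ : ∃ U, IsOpen U ∧ Γ = U ∩ frontier Ω) (hne : Γ.Nonempty)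
    {q₁ q₂ : E n → ℂ} (h₁ : MemLp q₁ ⊤ (volume.restrict Ω)) (h₂ : MemLp q₂ ⊤ (volume.restrict Ω))
    (h : cauchy Ω Γ q₁ ⊆ cauchy Ω Γ q₂) : q₁ =ᵐ[volume.restrict Ω] q₂ := by
  obtain ⟨A₁, r₁, b₁, e₁⟩ := amain_rep h₁
  obtain ⟨A₂, r₂, b₂, e₂⟩ := amain_rep h₂
  have key := main_bd core hn hΩ hc hΓ hne (A := max A₁ A₂)
    ⟨b₁.1, fun x => (b₁.2 x).trans (le_max_left _ _)⟩
    ⟨b₂.1, fun x => (b₂.2 x).trans (le_max_right _ _)⟩
    ((amain_cauchy Γ e₁.symm).trans (h.trans (amain_cauchy Γ e₂)))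
  exact e₁.trans (EventuallyEq.trans ((ae_restrict_iff' hΩ.op.measurableSet).2 key) e₂.symm)

end Pool.Agent.MP_71da5e_an.A

end
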